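import Pool.Agent.H85.ZD.Defs

/-!
# ZD AffDefs : affine and triangular automorphisms
-/

set_option autoImplicit false

namespace ZD85

open MvPolynomial

/-- affine automorphism: all components have degree at most one -/
def IsAffine {K : Type*} [Field K] (α : PAut K 3) : Prop :=
  ∀ i : Fin 3, (α (X i)).totalDegree ≤ 1

/-- triangular automorphism
`(x, y, z) ↦ (a x + P(y, z), b y + Q(z), c z + d)`, `a b c ≠ 0` -/
def IsTriangular {K : Type*} [Field K] (τ : PAut K 3) : Prop :=
  ∃ (a b c d : K) (P : MvPolynomial (Fin 2) K) (Q : Polynomial K), a ≠ 0 ∧ b ≠ 0 ∧ c ≠ 0 ∧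
    τ (X 0) = C a * X 0 + aeval ![X 1, X 2] P ∧
    τ (X 1) = C b * X 1 + Polynomial.aeval (X 2) Q ∧
    τ (X 2) = C c * X 2 + C d

end ZD85
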