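import Pool.Agent.H85.ZD.Defs

/-!
# ZD Approx : integral approximations respecting all integral relations (row `Approx`)

`μ : ι → ℝ`, `μ ≥ 0`, `ι` finite.  `M = span ℤ (range μ) ⊂ ℝ` is finitely generated and torsion free, so free
(`Module.free_of_finite_type_torsion_free'`); let `b_1, ..., b_ρ` be a basis, `μ_i = ∑_l a_{il} b_l`, `a_{il} ∈ ℤ`.
For `T > 0` put `k_i = ∑_l a_{il} ⌊T b_l⌋`.
* `|k_i - T μ_i| ≤ ∑_l |a_{il}|`, which is `≤ ε T μ_i` for `T` large if `μ_i > 0`; if `μ_i = 0` all `a_{il} = 0`, so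
  `k_i = 0`.
* if `∑ r_i μ_i = 0`, `r ∈ ℤ^ι`, then `∑_i r_i a_{il} = 0` for all `l` (basis), so `∑ r_i k_i = 0`.
-/

set_option autoImplicit false

namespace ZD85

theorem approx_weights {ι : Type*} [Fintype ι] (μ : ι → ℝ) (hμ : ∀ i, 0 ≤ μ i) (ε : ℝ) (hε : 0 < ε)
    (T₀ : ℝ) : ∃ T : ℝ, T₀ ≤ T ∧ 0 < T ∧ ∃ k : ι → ℤ, (∀ i, |(k i : ℝ) - T * μ i| ≤ ε * T * μ i) ∧
      ∀ r : ι → ℤ, ∑ i, (r i : ℝ) * μ i = 0 → ∑ i, r i * k i = 0 := by
  classical
  let M : Submodule ℤ ℝ := Submodule.span ℤ (Set.range μ)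
  have : Module.Finite ℤ M := Module.Finite.span_of_finite ℤ (Set.finite_range μ)
  have : Module.Free ℤ M := inferInstance
  let b := Module.Free.chooseBasis ℤ M
  have hmem : ∀ i, μ i ∈ M := fun i => Submodule.subset_span ⟨i, rfl⟩
  let m : ι → M := fun i => ⟨μ i, hmem i⟩
  let a : ι → Module.Free.ChooseBasisIndex ℤ M → ℤ := fun i l => b.repr (m i) l
  have hsum : ∀ i, μ i = ∑ l, (a i l : ℝ) * ((b l : M) : ℝ) := by
    intro i
    have h1 := b.sum_repr (m i)
    have h2 := congrArg (fun x : M => (x : ℝ)) h1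
    simp only [Submodule.coe_sum, Submodule.coe_smul, zsmul_eq_mul] at h2
    exact h2.symm
  set C : ℝ := ∑ i, ∑ l, |(a i l : ℝ)| with hC
  have hC0 : 0 ≤ C := Finset.sum_nonneg fun i _ => Finset.sum_nonneg fun l _ => abs_nonneg _
  have hCi : ∀ i, ∑ l, |(a i l : ℝ)| ≤ C := fun i =>
    Finset.single_le_sum (f := fun i => ∑ l, |(a i l : ℝ)|)
      (fun i _ => Finset.sum_nonneg fun l _ => abs_nonneg _) (Finset.mem_univ i)
  have hS0 : ∀ i, 0 ≤ C / (ε * μ i) := fun i => div_nonneg hC0 (mul_nonneg hε.le (hμ i))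
  set T : ℝ := max T₀ 1 + ∑ i, C / (ε * μ i) with hT
  have hTS : 0 ≤ ∑ i, C / (ε * μ i) := Finset.sum_nonneg fun i _ => hS0 i
  have hT1 : 1 ≤ T := by have := le_max_right T₀ 1; linarith
  refine ⟨T, by have := le_max_left T₀ 1; linarith, by linarith, ?_⟩
  refine ⟨fun i => ∑ l, a i l * ⌊T * ((b l : M) : ℝ)⌋, ?_, ?_⟩
  · intro i
    rcases (hμ i).eq_or_lt with h0 | hpos
    · have hm : m i = 0 := Subtype.ext h0.symm
      have ha : ∀ l, a i l = 0 := fun l => by simp [a, hm]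
      rw [← h0]
      simp [ha]
    · have h1 : ((∑ l, a i l * ⌊T * ((b l : M) : ℝ)⌋ : ℤ) : ℝ) - T * μ i
          = ∑ l, (a i l : ℝ) * ((⌊T * ((b l : M) : ℝ)⌋ : ℝ) - T * ((b l : M) : ℝ)) := by
        rw [hsum i, Finset.mul_sum]
        push_cast
        rw [← Finset.sum_sub_distrib]
        exact Finset.sum_congr rfl fun l _ => by ring
      rw [h1]
      have h2 : |∑ l, (a i l : ℝ) * ((⌊T * ((b l : M) : ℝ)⌋ : ℝ) - T * ((b l : M) : ℝ))|
          ≤ ∑ l, |(a i l : ℝ)| := by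
        refine (Finset.abs_sum_le_sum_abs _ _).trans (Finset.sum_le_sum fun l _ => ?_)
        rw [abs_mul]
        refine mul_le_of_le_one_right (abs_nonneg _) ?_
        rw [abs_le]
        constructor
        · have := Int.lt_floor_add_one (T * ((b l : M) : ℝ)); linarith
        · have := Int.floor_le (T * ((b l : M) : ℝ)); linarith
      refine h2.trans ((hCi i).trans ?_)
      have h3 : C / (ε * μ i) ≤ T := by
        have h4 := Finset.single_le_sum (f := fun i => C / (ε * μ i)) (fun i _ => hS0 i)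
          (Finset.mem_univ i)
        have := le_max_right T₀ 1
        linarith
      rw [div_le_iff₀ (mul_pos hε hpos)] at h3
      linarith
  · intro r hr
    have h1 : ∑ i, r i • m i = 0 := by
      apply Subtype.ext
      simp only [Submodule.coe_sum, Submodule.coe_smul, zsmul_eq_mul, Submodule.coe_zero]
      exact hr
    have h2 : ∀ l, ∑ i, r i * a i l = 0 := by
      intro l
      have h3 := congrArg (fun x : M => b.repr x l) h1
      simpa [a, map_sum, Finsupp.finsetSum_apply] using h3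
    calc ∑ i, r i * ∑ l, a i l * ⌊T * ((b l : M) : ℝ)⌋
        = ∑ i, ∑ l, r i * a i l * ⌊T * ((b l : M) : ℝ)⌋ := by
          refine Finset.sum_congr rfl fun i _ => ?_
          rw [Finset.mul_sum]
          exact Finset.sum_congr rfl fun l _ => by ring
      _ = ∑ l, ∑ i, r i * a i l * ⌊T * ((b l : M) : ℝ)⌋ := Finset.sum_comm
      _ = ∑ l, (∑ i, r i * a i l) * ⌊T * ((b l : M) : ℝ)⌋ :=
          Finset.sum_congr rfl fun l _ => by rw [Finset.sum_mul]
      _ = 0 := Finset.sum_eq_zero fun l _ => by rw [h2 l, zero_mul]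

end ZD85
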