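import Pool.Agent.H85.ZD.Defs

/-!
# ZD ApproxL : integral linear approximations of the identity (row `ApproxL`)

`μ : ι → ℝ`, `μ ≥ 0`, `ι` finite.  `M = span ℤ (range μ) ⊂ ℝ` is finitely generated and torsion free, so free
(`Module.free_of_finite_type_torsion_free'`); let `b_1, ..., b_ρ` be a `ℤ`-basis, `μ_i = ∑_l a_{il} b_l`, `a_{il} ∈ ℤ`.  The `b_l`
are linearly independent over `ℤ`, hence over `ℚ` (`LinearIndependent.iff_fractionRing` or clear denominators), so there is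
a `ℚ`-linear map `L : ℝ → ℚ` with `L b_l = ⌊T b_l⌋` (extend from the span, `LinearIndependent.extend`/`Basis.constr` /
`LinearMap.exists_extend`).
* `L μ_i = ∑ a_{il} ⌊T b_l⌋ ∈ ℤ`;
* `|L μ_i - T μ_i| ≤ ∑_l |a_{il}|`, which is `≤ ε T μ_i` for `T` large if `μ_i > 0`; if `μ_i = 0` then `L μ_i = 0`.
-/

set_option autoImplicit false

namespace ZD85

theorem ApproxL_basis {ι : Type*} [Fintype ι] (μ : ι → ℝ) :
    ∃ (κ : Type) (_ : Fintype κ) (v : κ → ℝ), LinearIndependent ℚ v ∧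
      ∃ a : ι → κ → ℤ, ∀ i, μ i = ∑ l, (a i l : ℝ) * v l := by
  classical
  let M : Submodule ℤ ℝ := Submodule.span ℤ (Set.range μ)
  have : Module.Finite ℤ M := Module.Finite.span_of_finite ℤ (Set.finite_range μ)
  have : Module.Free ℤ M := Module.free_of_finite_type_torsion_free'
  let n := Module.finrank ℤ M
  let b : Module.Basis (Fin n) ℤ M := Module.finBasis ℤ M
  have hmem : ∀ i, μ i ∈ M := fun i => Submodule.subset_span ⟨i, rfl⟩
  refine ⟨Fin n, inferInstance, fun l => (b l : ℝ), ?_, fun i l => b.repr ⟨μ i, hmem i⟩ l, fun i => ?_⟩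
  · have h1 : LinearIndependent ℤ (fun l => (b l : ℝ)) :=
      b.linearIndependent.map' M.subtype (by simp)
    exact (LinearIndependent.iff_fractionRing ℤ ℚ).1 h1
  · have h2 := b.sum_repr ⟨μ i, hmem i⟩
    have h3 := congrArg (fun x : M => (x : ℝ)) h2
    simp only at h3
    rw [← h3]
    push_cast
    refine Finset.sum_congr rfl fun l _ => ?_
    simp

theorem approx_lin {ι : Type*} [Fintype ι] (μ : ι → ℝ) (hμ : ∀ i, 0 ≤ μ i) (ε : ℝ) (hε : 0 < ε) :
    ∃ (T : ℝ) (L : ℝ →ₗ[ℚ] ℚ), 0 < T ∧ (∀ i, ∃ k : ℤ, L (μ i) = k) ∧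
      ∀ i, |((L (μ i) : ℚ) : ℝ) - T * μ i| ≤ ε * T * μ i := by
  classical
  obtain ⟨κ, hκ, v, hv, a, ha⟩ := ApproxL_basis μ
  -- the bound
  have hT : ∃ T : ℝ, 0 < T ∧ ∀ i, 0 < μ i → (∑ l, |(a i l : ℝ)|) ≤ ε * T * μ i := by
    let F : ι → ℝ := fun i => (∑ l, |(a i l : ℝ)|) / (ε * μ i)
    refine ⟨1 + ∑ i, |F i|, by positivity, fun i hi => ?_⟩
    have h1 : F i ≤ 1 + ∑ i, |F i| := by
      have : |F i| ≤ ∑ i, |F i| :=
        Finset.single_le_sum (f := fun i => |F i|) (fun _ _ => abs_nonneg _) (Finset.mem_univ i)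
      linarith [le_abs_self (F i)]
    have h2 : 0 < ε * μ i := mul_pos hε hi
    have h3 : (∑ l, |(a i l : ℝ)|) ≤ (1 + ∑ i, |F i|) * (ε * μ i) := (div_le_iff₀ h2).1 h1
    calc (∑ l, |(a i l : ℝ)|) ≤ (1 + ∑ i, |F i|) * (ε * μ i) := h3
      _ = ε * (1 + ∑ i, |F i|) * μ i := by ring
  obtain ⟨T, hT0, hT1⟩ := hT
  obtain ⟨L, hL⟩ : ∃ L : ℝ →ₗ[ℚ] ℚ, ∀ l, L (v l) = (⌊T * v l⌋ : ℚ) := by
    let B := Module.Basis.span hv
    let f : Submodule.span ℚ (Set.range v) →ₗ[ℚ] ℚ := B.constr ℚ (fun l => ((⌊T * v l⌋ : ℤ) : ℚ))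
    obtain ⟨L, hL⟩ := LinearMap.exists_extend f
    refine ⟨L, fun l => ?_⟩
    have h1 : f (B l) = (⌊T * v l⌋ : ℚ) := Module.Basis.constr_basis B ℚ _ l
    have h2 : (B l : ℝ) = v l := congrArg Subtype.val (Module.Basis.span_apply hv l)
    have h3 : L (B l : ℝ) = f (B l) := by rw [← hL]; rfl
    rw [← h2, h3, h1, h2]
  have hLi : ∀ i, L (μ i) = ∑ l, (a i l : ℚ) * (⌊T * v l⌋ : ℚ) := by
    intro i
    conv_lhs => rw [ha i]
    rw [map_sum]
    refine Finset.sum_congr rfl fun l _ => ?_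
    have : ((a i l : ℝ) * v l) = (a i l : ℚ) • v l := by
      rw [Rat.smul_def]; norm_cast
    rw [this, map_smul, hL, smul_eq_mul]
  refine ⟨T, L, hT0, fun i => ⟨∑ l, a i l * ⌊T * v l⌋, ?_⟩, fun i => ?_⟩
  · rw [hLi]; push_cast; rfl
  · rcases (hμ i).lt_or_eq with hi | hi
    · refine le_trans ?_ (hT1 i hi)
      have e1 : T * μ i = ∑ l, (a i l : ℝ) * (T * v l) := by
        conv_lhs => rw [ha i]
        rw [Finset.mul_sum]
        refine Finset.sum_congr rfl fun l _ => by ring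
      rw [hLi, e1]
      push_cast
      rw [← Finset.sum_sub_distrib]
      refine (Finset.abs_sum_le_sum_abs _ _).trans (Finset.sum_le_sum fun l _ => ?_)
      rw [← mul_sub, abs_mul]
      have h5 : |(⌊T * v l⌋ : ℝ) - T * v l| ≤ 1 := by
        rw [abs_le]
        constructor
        · linarith [Int.lt_floor_add_one (T * v l)]
        · linarith [Int.floor_le (T * v l)]
      calc |(a i l : ℝ)| * |(⌊T * v l⌋ : ℝ) - T * v l| ≤ |(a i l : ℝ)| * 1 :=
            mul_le_mul_of_nonneg_left h5 (abs_nonneg _)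
        _ = _ := mul_one _
    · rw [← hi]
      simp

end ZD85
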