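import Pool.Agent.H85.ZD.FieldE

/-!
# ZD BetaE : an orbit over `F_p`-bar avoiding the zero locus (row `BetaE`)

`R = F[x_1, x_2, x_3]`, `G` an endomorphism of `R`, `ya, yb ∈ R`, `ya ≠ 0`, `yb^n` not a constant multiple of `ya^n'`.
Relations: `hA`, `hΦ` below.  Conclusion: there is a point `χ : R → F` with `χ (G^m ya) ≠ 0` for all `m`.

Proof: see the text for `beta_case` in the header of `RelE.lean` (copied here):
`χ_0 = χ`, `χ_{m+1} = χ_m.comp G` (so `χ_m f = χ (G^[m] f)`), `a_m = χ_m(ya)`, `r_m = χ_m(yb)^n / a_m^n'`.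
Let `Z` = the finite set of all coefficients of `A`, `Φ`, of `ya`, `yb`, and `N` = a number `≥` all inner degrees
(`(A.coeff k).natDegree`, `(Φ.coeff k).natDegree`), `≥ n * totalDegree yb + n' * totalDegree ya + totalDegree ya`, `≥ 2`.
`E` from `exists_subfield`.
(1) Start.  Choose `c₁ ∈ E^3` with `ya(c₁) ≠ 0`, then `c₂ ∈ E^3` not a zero of the non-zero polynomial
`ya * (C (yb(c₁)^n) * ya^n' - C (ya(c₁)^n') * yb^n)` (a non-zero polynomial does not vanish on the power of the infinite set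
`E`).  Take `t ∈ F \ E`, `c = c₁ + t (c₂ - c₁)`, `χ` = evaluation at `c`.  `α(T) = ya(c₁ + T(c₂ - c₁))`,
`β(T) = yb(c₁ + T (c₂ - c₁))` in `E[T]`, of degree `≤` the total degrees.  `α(0) ≠ 0`, so `α ≠ 0` and `a_0 = α(t) ≠ 0`
because `t ∉ E`.  `r_0 = β(t)^n / α(t)^n' ∉ E`: otherwise `t` is a root of `β^n - r_0 α^n' ∈ E[T]`, of degree `≤ N`, not
zero because `β(0)^n / α(0)^n' ≠ β(1)^n / α(1)^n'` by the choice of `c₂`; so `t ∈ E`, contradiction.
(2) Step: `a_m ≠ 0`, `r_m ∉ E` imply the same for `m + 1`.  `hA` for `χ_m`: `A(r_m, a_{m+1}^ns / a_m^ns') = 0`; if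
`a_{m+1} = 0` then (`ns ≥ 1`) `(A.coeff 0)(r_m) = 0`, so `r_m ∈ E`, contradiction.  So `a_{m+1} ≠ 0`, and `hΦ` gives
`Φ(r_m, r_{m+1}) = 0`; if `r_{m+1} ∈ E` then `Φ.eval (C r_{m+1})` is a non-zero polynomial over `E` of degree `≤ N` with
root `r_m`, so `r_m ∈ E`, contradiction.
-/

set_option autoImplicit false

namespace ZD85

open MvPolynomial

/-- polynomials with coefficients in `E` -/
noncomputable def BetaE_P {F : Type*} [Field F] (E : Subfield F) : Subring (Polynomial F) :=
  (Polynomial.mapRingHom E.subtype).range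

theorem BetaE_memP {F : Type*} [Field F] (E : Subfield F) (q : Polynomial F) :
    q ∈ BetaE_P E ↔ ∀ k, q.coeff k ∈ E := by
  unfold BetaE_P
  rw [Polynomial.mem_map_range]
  refine forall_congr' fun k => ?_
  constructor
  · rintro ⟨x, hx⟩
    rw [← hx]
    exact x.2
  · intro h
    exact ⟨⟨_, h⟩, rfl⟩

theorem BetaE_C {F : Type*} [Field F] (E : Subfield F) {a : F} (ha : a ∈ E) :
    Polynomial.C a ∈ BetaE_P E := by
  rw [BetaE_memP]
  intro k
  rw [Polynomial.coeff_C]
  split_ifs
  · exact ha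
  · exact zero_mem E

theorem BetaE_X {F : Type*} [Field F] (E : Subfield F) : (Polynomial.X : Polynomial F) ∈ BetaE_P E := by
  rw [BetaE_memP]
  intro k
  rw [Polynomial.coeff_X]
  split_ifs
  · exact one_mem E
  · exact zero_mem E

theorem BetaE_aeval {F : Type*} [Field F] (E : Subfield F) (f : MvPolynomial (Fin 3) F)
    (hf : ∀ d, f.coeff d ∈ E) (l : Fin 3 → Polynomial F) (hl : ∀ i, l i ∈ BetaE_P E) :
    aeval l f ∈ BetaE_P E := by
  rw [MvPolynomial.aeval_def, MvPolynomial.eval₂_eq]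
  refine sum_mem fun d _ => mul_mem ?_ (prod_mem fun i _ => pow_mem (hl i) _)
  exact BetaE_C E (hf d)

theorem BetaE_nz {F : Type*} [Field F] (E : Subfield F) (hE : (E : Set F).Infinite)
    (f : MvPolynomial (Fin 3) F) (hf : f ≠ 0) : ∃ c : Fin 3 → F, (∀ i, c i ∈ E) ∧ eval c f ≠ 0 := by
  by_contra hcon
  push Not at hcon
  apply hf
  refine MvPolynomial.funext_set (fun _ => (E : Set F)) (fun _ => hE) ?_
  intro x hx
  rw [map_zero]
  exact hcon x (fun i => hx i (Set.mem_univ i))

theorem beta_case {F : Type*} [Field F] [IsAlgClosed F] (p : ℕ) [Fact p.Prime] [CharP F p]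
    (halg : ∀ u : F, u ≠ 0 → ∃ N : ℕ, 1 ≤ N ∧ u ^ N = 1)
    (G : MvPolynomial (Fin 3) F →ₐ[F] MvPolynomial (Fin 3) F) (ya yb : MvPolynomial (Fin 3) F)
    (n n' ns ns' : ℕ) (hns : 1 ≤ ns) (hya : ya ≠ 0) (hr : ¬ ∃ κ : F, yb ^ n = C κ * ya ^ n')
    (A Φ : Polynomial (Polynomial F)) (hA0 : A.coeff 0 ≠ 0)
    (hA : ∀ χ : MvPolynomial (Fin 3) F →ₐ[F] F, χ ya ≠ 0 →
      Polynomial.evalEval (χ yb ^ n / χ ya ^ n') (χ (G ya) ^ ns / χ ya ^ ns') A = 0)
    (hΦ0 : ∀ v : F, Φ.eval (Polynomial.C v) ≠ 0)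
    (hΦ : ∀ χ : MvPolynomial (Fin 3) F →ₐ[F] F, χ ya ≠ 0 → χ (G ya) ≠ 0 →
      Polynomial.evalEval (χ yb ^ n / χ ya ^ n') (χ (G yb) ^ n / χ (G ya) ^ n') Φ = 0) :
    ∃ χ : MvPolynomial (Fin 3) F →ₐ[F] F, ∀ m : ℕ, χ (G^[m] ya) ≠ 0 := by
  classical
  set Z1 : Finset F := (A.coeff 0).support.image (fun j => (A.coeff 0).coeff j) with hZ1
  set Z2 : Finset F := Φ.support.biUnion (fun k =>
    (Φ.coeff k).support.image (fun j => (Φ.coeff k).coeff j)) with hZ2
  set Z3 : Finset F := ya.support.image (fun d => ya.coeff d) with hZ3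
  set Z4 : Finset F := yb.support.image (fun d => yb.coeff d) with hZ4
  set NΦ : ℕ := Φ.support.sup (fun k => (Φ.coeff k).natDegree) with hNΦ
  set N : ℕ := (A.coeff 0).natDegree + NΦ + n * yb.totalDegree + n' * ya.totalDegree +
    ya.totalDegree with hN
  obtain ⟨E, hZE, hEtop, hEinf, hclosed⟩ := exists_subfield p halg (Z1 ∪ Z2 ∪ Z3 ∪ Z4) N
  have hE1 : ∀ j, (A.coeff 0).coeff j ∈ E := by
    intro j
    by_cases h : (A.coeff 0).coeff j = 0
    · rw [h]
      exact zero_mem E
    · refine hZE _ ?_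
      simp only [Finset.mem_union]
      left; left; left
      exact Finset.mem_image_of_mem _ (Polynomial.mem_support_iff.2 h)
  have hE2 : ∀ k j, (Φ.coeff k).coeff j ∈ E := by
    intro k j
    by_cases h : (Φ.coeff k).coeff j = 0
    · rw [h]
      exact zero_mem E
    · refine hZE _ ?_
      simp only [Finset.mem_union]
      left; left; right
      rw [hZ2, Finset.mem_biUnion]
      refine ⟨k, ?_, Finset.mem_image_of_mem _ (Polynomial.mem_support_iff.2 h)⟩
      rw [Polynomial.mem_support_iff]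
      intro h0
      rw [h0, Polynomial.coeff_zero] at h
      exact h rfl
  have hE3 : ∀ d, ya.coeff d ∈ E := by
    intro d
    by_cases h : ya.coeff d = 0
    · rw [h]
      exact zero_mem E
    · refine hZE _ ?_
      simp only [Finset.mem_union]
      left; right
      exact Finset.mem_image_of_mem _ (MvPolynomial.mem_support_iff.2 h)
  have hE4 : ∀ d, yb.coeff d ∈ E := by
    intro d
    by_cases h : yb.coeff d = 0
    · rw [h]
      exact zero_mem E
    · refine hZE _ ?_
      simp only [Finset.mem_union]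
      right
      exact Finset.mem_image_of_mem _ (MvPolynomial.mem_support_iff.2 h)
  -- the step
  have step : ∀ χ : MvPolynomial (Fin 3) F →ₐ[F] F, χ ya ≠ 0 → χ yb ^ n / χ ya ^ n' ∉ E →
      χ (G ya) ≠ 0 ∧ χ (G yb) ^ n / χ (G ya) ^ n' ∉ E := by
    intro χ h1 h2
    have h3 : χ (G ya) ≠ 0 := by
      intro h0
      have h4 := hA χ h1
      rw [h0, zero_pow (by omega), zero_div] at h4
      have h5 : (A.coeff 0).eval (χ yb ^ n / χ ya ^ n') = 0 := by
        have h6 : Polynomial.eval (Polynomial.C (0 : F)) A = A.coeff 0 := by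
          rw [Polynomial.C_0, ← Polynomial.coeff_zero_eq_eval_zero]
        rw [← h6]
        exact h4
      exact h2 (hclosed _ hE1 hA0 (by omega) _ h5)
    refine ⟨h3, fun h4 => h2 ?_⟩
    have h5 := hΦ χ h1 h3
    set v := χ (G yb) ^ n / χ (G ya) ^ n' with hv
    refine hclosed (Φ.eval (Polynomial.C v)) ?_ (hΦ0 v) ?_ _ h5
    · rw [← BetaE_memP, Polynomial.eval_eq_sum, Polynomial.sum]
      refine sum_mem fun k _ => mul_mem ?_ (pow_mem (BetaE_C E h4) _)
      rw [BetaE_memP]
      exact hE2 k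
    · rw [Polynomial.eval_eq_sum, Polynomial.sum]
      refine (Polynomial.natDegree_sum_le_of_forall_le (n := NΦ) _ _ ?_).trans (by omega)
      intro k hk
      rw [← Polynomial.C_pow]
      refine (Polynomial.natDegree_mul_C_le _ _).trans ?_
      exact Finset.le_sup (f := fun k => (Φ.coeff k).natDegree) hk
  -- all steps
  have all : ∀ (m : ℕ) (χ : MvPolynomial (Fin 3) F →ₐ[F] F), χ ya ≠ 0 →
      χ yb ^ n / χ ya ^ n' ∉ E → χ (G^[m] ya) ≠ 0 := by
    intro m
    induction m with
    | zero =>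
      intro χ h1 _
      exact h1
    | succ m ih =>
      intro χ h1 h2
      obtain ⟨h3, h4⟩ := step χ h1 h2
      have h5 := ih (χ.comp G) h3 h4
      rw [Function.iterate_succ_apply']
      exact h5
  -- the start
  obtain ⟨c1, hc1, hc1y⟩ := BetaE_nz E hEinf ya hya
  have hne : ya * (C (eval c1 yb ^ n) * ya ^ n' - C (eval c1 ya ^ n') * yb ^ n) ≠ 0 := by
    refine mul_ne_zero hya fun h => hr ⟨eval c1 yb ^ n / eval c1 ya ^ n', ?_⟩
    have h1 : eval c1 ya ^ n' ≠ 0 := pow_ne_zero _ hc1y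
    have h2 : C (eval c1 ya ^ n') * yb ^ n = C (eval c1 yb ^ n) * ya ^ n' := (sub_eq_zero.1 h).symm
    have h3 : (C (eval c1 ya ^ n') : MvPolynomial (Fin 3) F) ≠ 0 := by
      rw [Ne, MvPolynomial.C_eq_zero]
      exact h1
    apply mul_left_cancel₀ h3
    rw [h2, ← mul_assoc, ← MvPolynomial.C_mul, mul_div_cancel₀ _ h1]
  obtain ⟨c2, hc2, hc2y⟩ := BetaE_nz E hEinf _ hne
  rw [map_mul, map_sub, map_mul, map_mul, map_pow, map_pow, eval_C, eval_C] at hc2y
  obtain ⟨t, ht⟩ : ∃ t, t ∉ E := by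
    by_contra hcon
    push Not at hcon
    apply hEtop
    rw [Subfield.ext_iff]
    intro x
    exact ⟨fun _ => Subfield.mem_top x, fun _ => hcon x⟩
  set l : Fin 3 → Polynomial F := fun i =>
    Polynomial.C (c1 i) + Polynomial.X * Polynomial.C (c2 i - c1 i) with hl
  have hlE : ∀ i, l i ∈ BetaE_P E := fun i =>
    add_mem (BetaE_C E (hc1 i)) (mul_mem (BetaE_X E) (BetaE_C E (sub_mem (hc2 i) (hc1 i))))
  have hld : ∀ i, (l i).natDegree ≤ 1 := by
    intro i
    rw [hl]
    refine (Polynomial.natDegree_add_le _ _).trans ?_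
    rw [Polynomial.natDegree_C]
    refine max_le (by omega) ?_
    refine (Polynomial.natDegree_mul_C_le _ _).trans ?_
    exact Polynomial.natDegree_X_le
  set α : Polynomial F := aeval l ya with hα
  set β : Polynomial F := aeval l yb with hβ
  have hαE : α ∈ BetaE_P E := BetaE_aeval E ya hE3 l hlE
  have hβE : β ∈ BetaE_P E := BetaE_aeval E yb hE4 l hlE
  have hαd : α.natDegree ≤ ya.totalDegree := by
    have := MvPolynomial.aeval_natDegree_le ya le_rfl l hld
    rwa [mul_one] at this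
  have hβd : β.natDegree ≤ yb.totalDegree := by
    have := MvPolynomial.aeval_natDegree_le yb le_rfl l hld
    rwa [mul_one] at this
  have hev : ∀ (s : F) (f : MvPolynomial (Fin 3) F), (aeval l f : Polynomial F).eval s =
      eval (fun i => c1 i + s * (c2 i - c1 i)) f := by
    intro s f
    have h1 : (aeval l f : Polynomial F).eval s =
        ((Polynomial.evalRingHom s).comp (aeval l : MvPolynomial (Fin 3) F →ₐ[F] Polynomial F).toRingHom) f := rfl
    rw [h1]
    congr 1
    refine MvPolynomial.ringHom_ext ?_ ?_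
    · intro a
      simp
    · intro i
      simp [hl]
  have h0 : ∀ f : MvPolynomial (Fin 3) F, (aeval l f : Polynomial F).eval 0 = eval c1 f := by
    intro f
    rw [hev]
    congr 2
    funext i
    ring
  have h1 : ∀ f : MvPolynomial (Fin 3) F, (aeval l f : Polynomial F).eval 1 = eval c2 f := by
    intro f
    rw [hev]
    congr 2
    funext i
    ring
  have hα0 : α ≠ 0 := by
    intro h
    apply hc1y
    rw [← h0 ya, ← hα, h, Polynomial.eval_zero]
  have hαt : α.eval t ≠ 0 := fun h =>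
    ht (hclosed α ((BetaE_memP E α).1 hαE) hα0 (by omega) t h)
  refine ⟨aeval (fun i => c1 i + t * (c2 i - c1 i)), fun m => all m _ ?_ ?_⟩
  · intro h
    apply hαt
    rw [hα, hev]
    exact h
  · intro h
    have e1 : (aeval (fun i => c1 i + t * (c2 i - c1 i)) yb : F) = β.eval t := by
      rw [hβ, hev]
      rfl
    have e2 : (aeval (fun i => c1 i + t * (c2 i - c1 i)) ya : F) = α.eval t := by
      rw [hα, hev]
      rfl
    rw [e1, e2] at h
    set r := β.eval t ^ n / α.eval t ^ n' with hrdef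
    apply ht
    refine hclosed (β ^ n - Polynomial.C r * α ^ n') ?_ ?_ ?_ t ?_
    · rw [← BetaE_memP]
      exact sub_mem (pow_mem hβE _) (mul_mem (BetaE_C E h) (pow_mem hαE _))
    · intro hz
      have z0 : eval c1 yb ^ n - r * eval c1 ya ^ n' = 0 := by
        have := congrArg (Polynomial.eval 0) hz
        rw [Polynomial.eval_sub, Polynomial.eval_mul, Polynomial.eval_pow, Polynomial.eval_pow,
          Polynomial.eval_C, Polynomial.eval_zero, hα, hβ, h0, h0] at this
        exact this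
      have z1 : eval c2 yb ^ n - r * eval c2 ya ^ n' = 0 := by
        have := congrArg (Polynomial.eval 1) hz
        rw [Polynomial.eval_sub, Polynomial.eval_mul, Polynomial.eval_pow, Polynomial.eval_pow,
          Polynomial.eval_C, Polynomial.eval_zero, hα, hβ, h1, h1] at this
        exact this
      apply hc2y
      have : eval c1 yb ^ n * eval c2 ya ^ n' - eval c1 ya ^ n' * eval c2 yb ^ n = 0 := by
        linear_combination (eval c2 ya ^ n') * z0 - (eval c1 ya ^ n') * z1
      rw [map_pow, map_pow, this, mul_zero]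
    · refine (Polynomial.natDegree_sub_le _ _).trans (max_le ?_ ?_)
      · refine Polynomial.natDegree_pow_le.trans ?_
        have := Nat.mul_le_mul_left n hβd
        omega
      · refine (Polynomial.natDegree_C_mul_le _ _).trans (Polynomial.natDegree_pow_le.trans ?_)
        have := Nat.mul_le_mul_left n' hαd
        omega
    · rw [Polynomial.eval_sub, Polynomial.eval_mul, Polynomial.eval_pow, Polynomial.eval_pow,
        Polynomial.eval_C, hrdef, div_mul_cancel₀ _ (pow_ne_zero _ hαt), sub_self]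

end ZD85
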