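import Pool.Agent.H85.ZD.RelE
import Pool.Agent.H85.ZD.BetaE

/-!
# ZD Avoid : a point whose orbit under the leading form avoids zero (row `Avoid`)

`F` algebraically closed of characteristic `p`, every non-zero element a root of unity; `R = F[x_1, x_2, x_3]`,
`G` an endomorphism of `R` with `G (X i)` weighted homogeneous of weight `Θ μ_i`, `Θ > 1`, `μ_i ≥ 0`;
(K1) `G (G f) = 0 → G f = 0`, (K2) `G` is not injective, (K3) some `G (X i) ≠ 0` with `μ_i > 0`.
Then there is a point `χ : R → F` such that for all `m` some `i` with `μ_i > 0` has `χ (G^{m+1} (X i)) ≠ 0`.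

Notation `y_i = G (X i)`, `J = {j | y_j ≠ 0}`, `a` as in (K3), `ya = y_a`.  For `f ∈ R` homogeneous of weight `w`, `G f` is
homogeneous of weight `Θ w` (each monomial `x^α` is mapped to `y^α`, of weight `∑ α_i Θ μ_i`).

`toric_case`: suppose that any two non-zero homogeneous elements `z, z'` of the same weight of `range G` are proportional.
Choose `χ` with `χ (∏_{j ∈ J} y_j) ≠ 0` (`F` infinite).  Let `m ≥ 0`, `f = G^m (X a)`, homogeneous of weight `Θ^m μ_a`;
`z = G f ≠ 0` by (K1) and (K3) (if `G^{m+1} X_a = 0`, `m ≥ 1`, then `G (G (G^{m-1} X_a)) = 0`, so `G^m X_a = 0`, ...).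
`z = ∑_{α ∈ supp f} f_α y^α ≠ 0`, so some `α ∈ supp f` has `y^α ≠ 0`, i.e. is supported in `J`; `y^α = G (x^α)` is
homogeneous of weight `Θ^{m+1} μ_a`, the weight of `z`.  So `z = C κ * y^α`, `κ ≠ 0`, and `χ z = κ ∏ (χ y_i)^{α_i} ≠ 0`.

`avoid`.  If the hypothesis of `toric_case` holds we are done.  Otherwise there are non-zero homogeneous `z, z' ∈ range G` of
the same weight `d`, not proportional; `z/z'` is transcendental (`const_of_algebraic`).
(i) For `j ∈ J` there are naturals `n_j ≥ 1`, `n'_j` with `n_j μ_j = n'_j μ_a`.  Otherwise the weights `Θ μ_a`, `Θ μ_j` of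
`ya`, `y_j` are linearly independent over `ℤ` (if `i μ_a + k μ_j = 0` with `k ≠ 0` then, `μ_a > 0` and `μ_j ≥ 0`,
`|k| μ_j = |i| μ_a`), so by `gi_three` `z/z', ya, y_j` are algebraically independent, against `dep_three`
(`range G` is contained in the subfield generated by the `y_i`).
(ii) Some `b ∈ J` has `y_b^{n_b} ≠ C κ * ya^{n'_b}` for all `κ`.  Otherwise let `M = ∏_{j ∈ J} n_j`; for `α` supported in `J`
`(y^α)^M = const * ya^{e(α)}` with `e(α) μ_a = M * weight α`.  So for `α, β` of the same weight `(y^α)^M = const (y^β)^M`,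
`y^α / y^β` is algebraic over `F`, so `y^α = C κ * y^β`.  Write `z = G f`, and take the component of weight `d`:
`z = ∑ f_α y^α` over the `α ∈ supp f` supported in `J` with `Θ weight α = d`; all these `y^α` are proportional, so `z` is a
constant times one `y^α`, and so is `z'`, with a monomial of the same weight.  Then `z` and `z'` are proportional,
contradiction.
(iii) There are naturals `ns ≥ 1`, `ns'` with `ns Θ = ns'`: `G ya ≠ 0` by (K1), `ya = ∑ c_α x^α`, so some `α ∈ supp ya` is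
supported in `J`; `Θ μ_a = ∑ α_j μ_j`, and `M Θ μ_a = (∑ α_j n'_j M / n_j) μ_a`; `ns = M`.
(iv) Let `n = n_b`, `n' = n'_b`, `yb = y_b`, `r = yb^n / ya^n'`, `s = (G ya)^ns / ya^ns'`, `r' = (G yb)^n / (G ya)^n'`:
quotients of homogeneous elements of the same weight of the subfield.  `r` is transcendental by (ii) and
`const_of_algebraic`.  `r'` is transcendental: otherwise `(G yb)^n = C κ * (G ya)^n'`, i.e.
`G (G (X_b^n - C κ * X_a^n')) = 0`, so by (K1) `yb^n = C κ * ya^n'`, contradiction.  `r, s` are algebraically dependent and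
`r, r'` are algebraically dependent (`gi_pair` with `y = ya`, of weight `Θ μ_a ≠ 0`, and `dep_three`).
`exists_rel_one` for `(r, s)` and `exists_rel_two` for `(r, r')` give `A`, `Φ` (note `χ (ya^n') ≠ 0 ↔ ...`, `map_pow`).
(v) `beta_case`: `χ (G^m ya) = χ (G^{m+1} (X a)) ≠ 0` for all `m`.
-/

set_option autoImplicit false

namespace ZD85

open MvPolynomial

theorem avoid_sum {F : Type*} [Field F]
    (G : MvPolynomial (Fin 3) F →ₐ[F] MvPolynomial (Fin 3) F) (f : MvPolynomial (Fin 3) F) :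
    G f = ∑ α ∈ f.support, C (coeff α f) * G (monomial α 1) := by
  conv_lhs => rw [f.as_sum]
  rw [map_sum]
  apply Finset.sum_congr rfl
  intro α _
  have h1 : (monomial α (coeff α f) : MvPolynomial (Fin 3) F) = C (coeff α f) * monomial α 1 := by
    rw [C_mul_monomial, mul_one]
  rw [h1, map_mul]
  congr 1
  exact G.commutes _

theorem avoid_C {F : Type*} [Field F]
    (G : MvPolynomial (Fin 3) F →ₐ[F] MvPolynomial (Fin 3) F) (c : F) : G (C c) = C c :=
  G.commutes c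

theorem avoid_prod {F : Type*} [Field F]
    (G : MvPolynomial (Fin 3) F →ₐ[F] MvPolynomial (Fin 3) F) (α : Fin 3 →₀ ℕ) :
    G (monomial α 1) = ∏ i, G (X i) ^ (α i) := by
  rw [monomial_eq, C_1, one_mul, Finsupp.prod_fintype _ _ (fun i => pow_zero _), map_prod]
  apply Finset.prod_congr rfl
  intro i _
  rw [map_pow]

theorem avoid_weight (μ : Fin 3 → ℝ) (α : Fin 3 →₀ ℕ) :
    Finsupp.weight μ α = ∑ i, (α i : ℝ) * μ i := by
  rw [Finsupp.weight_apply, Finsupp.sum_fintype α (fun i c => c • μ i) (fun i => zero_smul ℕ (μ i))]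
  apply Finset.sum_congr rfl
  intro i _
  rw [nsmul_eq_mul]

theorem avoid_homMon {F : Type*} [Field F]
    (G : MvPolynomial (Fin 3) F →ₐ[F] MvPolynomial (Fin 3) F) (μ : Fin 3 → ℝ)
    (Θ : ℝ) (hG : ∀ i, (G (X i)).IsWeightedHomogeneous μ (Θ * μ i)) (α : Fin 3 →₀ ℕ) :
    (G (monomial α 1)).IsWeightedHomogeneous μ (Θ * Finsupp.weight μ α) := by
  rw [avoid_prod]
  have h1 := IsWeightedHomogeneous.prod (w := μ) Finset.univ (fun i => G (X i) ^ (α i))
    (fun i => (α i) • (Θ * μ i)) (fun i _ => (hG i).pow (α i))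
  have h2 : ∑ i, (α i) • (Θ * μ i) = Θ * Finsupp.weight μ α := by
    rw [avoid_weight, Finset.mul_sum]
    apply Finset.sum_congr rfl
    intro i _
    rw [nsmul_eq_mul]
    ring
  rw [h2] at h1
  exact h1

theorem avoid_hom {F : Type*} [Field F]
    (G : MvPolynomial (Fin 3) F →ₐ[F] MvPolynomial (Fin 3) F) (μ : Fin 3 → ℝ)
    (Θ : ℝ) (hG : ∀ i, (G (X i)).IsWeightedHomogeneous μ (Θ * μ i)) (f : MvPolynomial (Fin 3) F)
    (w : ℝ) (hf : f.IsWeightedHomogeneous μ w) : (G f).IsWeightedHomogeneous μ (Θ * w) := by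
  rw [avoid_sum]
  have h : ∑ α ∈ f.support, C (coeff α f) * G (monomial α 1) ∈
      weightedHomogeneousSubmodule F μ (Θ * w) := by
    apply Submodule.sum_mem
    intro α hα
    rw [← smul_eq_C_mul]
    apply Submodule.smul_mem
    rw [mem_weightedHomogeneousSubmodule]
    have h1 := avoid_homMon G μ Θ hG α
    have h2 : Finsupp.weight μ α = w := hf (mem_support_iff.mp hα)
    rw [h2] at h1
    exact h1
  exact (mem_weightedHomogeneousSubmodule F μ (Θ * w) _).mp h

theorem avoid_homIter {F : Type*} [Field F]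
    (G : MvPolynomial (Fin 3) F →ₐ[F] MvPolynomial (Fin 3) F) (μ : Fin 3 → ℝ)
    (Θ : ℝ) (hG : ∀ i, (G (X i)).IsWeightedHomogeneous μ (Θ * μ i)) (a : Fin 3) (m : ℕ) :
    (G^[m] (X a)).IsWeightedHomogeneous μ (Θ ^ m * μ a) := by
  induction m with
  | zero =>
    rw [pow_zero, one_mul]
    exact isWeightedHomogeneous_X F μ a
  | succ m ih =>
    rw [Function.iterate_succ_apply', pow_succ']
    have := avoid_hom G μ Θ hG _ _ ih
    rw [mul_assoc]
    exact this

theorem avoid_nz {F : Type*} [Field F]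
    (G : MvPolynomial (Fin 3) F →ₐ[F] MvPolynomial (Fin 3) F)
    (K1 : ∀ f, G (G f) = 0 → G f = 0) (a : Fin 3) (h : G (X a) ≠ 0) (m : ℕ) :
    G^[m + 1] (X a) ≠ 0 := by
  induction m with
  | zero => exact h
  | succ m ih =>
    intro h0
    apply ih
    rw [Function.iterate_succ_apply', Function.iterate_succ_apply'] at h0
    rw [Function.iterate_succ_apply']
    exact K1 _ h0

/-- if the monomial image is nonzero then the factors in its support are nonzero -/
theorem avoid_supp {F : Type*} [Field F]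
    (G : MvPolynomial (Fin 3) F →ₐ[F] MvPolynomial (Fin 3) F) (α : Fin 3 →₀ ℕ)
    (h : G (monomial α 1) ≠ 0) (i : Fin 3) (hi : α i ≠ 0) : G (X i) ≠ 0 := by
  intro h0
  apply h
  rw [avoid_prod]
  apply Finset.prod_eq_zero (Finset.mem_univ i)
  rw [h0, zero_pow hi]

theorem avoid_exmon {F : Type*} [Field F]
    (G : MvPolynomial (Fin 3) F →ₐ[F] MvPolynomial (Fin 3) F) (f : MvPolynomial (Fin 3) F)
    (h : G f ≠ 0) : ∃ α ∈ f.support, G (monomial α 1) ≠ 0 := by
  by_contra hc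
  push_neg at hc
  apply h
  rw [avoid_sum]
  apply Finset.sum_eq_zero
  intro α hα
  rw [hc α hα, mul_zero]

/-- only the monomials of the right weight contribute -/
theorem avoid_filter {F : Type*} [Field F]
    (G : MvPolynomial (Fin 3) F →ₐ[F] MvPolynomial (Fin 3) F) (μ : Fin 3 → ℝ)
    (Θ : ℝ) (hG : ∀ i, (G (X i)).IsWeightedHomogeneous μ (Θ * μ i)) (f : MvPolynomial (Fin 3) F)
    (d : ℝ) (hd : (G f).IsWeightedHomogeneous μ d) :
    open Classical in
    G f = ∑ α ∈ f.support.filter (fun α => Θ * Finsupp.weight μ α = d),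
      C (coeff α f) * G (monomial α 1) := by
  classical
  ext γ
  by_cases hγ : Finsupp.weight μ γ = d
  · conv_lhs => rw [avoid_sum]
    rw [coeff_sum, coeff_sum, Finset.sum_filter]
    apply Finset.sum_congr rfl
    intro α _
    split_ifs with h
    · rfl
    · rw [coeff_C_mul]
      have h1 : coeff γ (G (monomial α 1)) = 0 := by
        by_contra hc
        apply h
        have := avoid_homMon G μ Θ hG α hc
        rw [← this, hγ]
      rw [h1, mul_zero]
  · have h1 : coeff γ (G f) = 0 := by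
      by_contra hc
      exact hγ (hd hc)
    rw [h1, coeff_sum]
    symm
    apply Finset.sum_eq_zero
    intro α hα
    rw [Finset.mem_filter] at hα
    rw [coeff_C_mul]
    have h2 : coeff γ (G (monomial α 1)) = 0 := by
      by_contra hc
      apply hγ
      have := avoid_homMon G μ Θ hG α hc
      rw [this, hα.2]
    rw [h2, mul_zero]

theorem avoid_one {F : Type*} [Field F]
    (G : MvPolynomial (Fin 3) F →ₐ[F] MvPolynomial (Fin 3) F) (μ : Fin 3 → ℝ)
    (Θ : ℝ) (hΘ : 1 < Θ) (hG : ∀ i, (G (X i)).IsWeightedHomogeneous μ (Θ * μ i))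
    (hP : ∀ α β : Fin 3 →₀ ℕ, G (monomial α 1) ≠ 0 → G (monomial β 1) ≠ 0 →
      Finsupp.weight μ α = Finsupp.weight μ β → ∃ κ : F, G (monomial α 1) = C κ * G (monomial β 1))
    (f : MvPolynomial (Fin 3) F)
    (d : ℝ) (hd : (G f).IsWeightedHomogeneous μ d) (hf : G f ≠ 0) :
    ∃ (α : Fin 3 →₀ ℕ) (c : F), G (monomial α 1) ≠ 0 ∧ Θ * Finsupp.weight μ α = d ∧
      G f = C c * G (monomial α 1) := by
  classical
  have h1 := avoid_filter G μ Θ hG f d hd
  obtain ⟨α, hα, hα0⟩ : ∃ α ∈ f.support.filter (fun α => Θ * Finsupp.weight μ α = d),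
      G (monomial α 1) ≠ 0 := by
    by_contra hc
    push_neg at hc
    apply hf
    rw [h1]
    apply Finset.sum_eq_zero
    intro α hα
    rw [hc α hα, mul_zero]
  rw [Finset.mem_filter] at hα
  have h2 : ∀ β ∈ f.support.filter (fun α => Θ * Finsupp.weight μ α = d),
      ∃ κ : F, C (coeff β f) * G (monomial β 1) = C κ * G (monomial α 1) := by
    intro β hβ
    rw [Finset.mem_filter] at hβ
    by_cases hb : G (monomial β 1) = 0
    · exact ⟨0, by rw [hb, mul_zero, C_0, zero_mul]⟩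
    · obtain ⟨κ, hκ⟩ := hP β α hb hα0 (by
        have : Θ * Finsupp.weight μ β = Θ * Finsupp.weight μ α := by rw [hβ.2, hα.2]
        exact mul_left_cancel₀ (by linarith) this)
      exact ⟨coeff β f * κ, by rw [hκ, ← mul_assoc, ← C_mul]⟩
  choose! κ hκ using h2
  refine ⟨α, ∑ β ∈ f.support.filter (fun α => Θ * Finsupp.weight μ α = d), κ β, hα0, hα.2, ?_⟩
  rw [h1, map_sum, Finset.sum_mul]
  exact Finset.sum_congr rfl hκ

theorem avoid_mem {F : Type*} [Field F]
    (G : MvPolynomial (Fin 3) F →ₐ[F] MvPolynomial (Fin 3) F) (f : MvPolynomial (Fin 3) F) :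
    algebraMap (MvPolynomial (Fin 3) F) (FractionRing (MvPolynomial (Fin 3) F)) (G f) ∈
      IntermediateField.adjoin F (Set.range fun k : Fin 3 =>
      algebraMap (MvPolynomial (Fin 3) F) (FractionRing (MvPolynomial (Fin 3) F)) (G (X k))) := by
  induction f using MvPolynomial.induction_on with
  | C c =>
    rw [avoid_C]
    have h1 : algebraMap (MvPolynomial (Fin 3) F) (FractionRing (MvPolynomial (Fin 3) F)) (C c) =
        algebraMap F (FractionRing (MvPolynomial (Fin 3) F)) c := by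
      rw [← MvPolynomial.algebraMap_eq,
        ← IsScalarTower.algebraMap_apply F (MvPolynomial (Fin 3) F)
          (FractionRing (MvPolynomial (Fin 3) F))]
    rw [h1]
    exact IntermediateField.algebraMap_mem _ c
  | add p q hp hq =>
    rw [map_add, map_add]
    exact IntermediateField.add_mem _ hp hq
  | mul_X p i hp =>
    rw [map_mul, map_mul]
    apply IntermediateField.mul_mem _ hp
    apply IntermediateField.subset_adjoin
    exact ⟨i, rfl⟩

theorem avoid_div {F : Type*} [Field F]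
    (G : MvPolynomial (Fin 3) F →ₐ[F] MvPolynomial (Fin 3) F) (f g : MvPolynomial (Fin 3) F) :
    algebraMap (MvPolynomial (Fin 3) F) (FractionRing (MvPolynomial (Fin 3) F)) (G f) /
    algebraMap (MvPolynomial (Fin 3) F) (FractionRing (MvPolynomial (Fin 3) F)) (G g) ∈
      IntermediateField.adjoin F (Set.range fun k : Fin 3 =>
      algebraMap (MvPolynomial (Fin 3) F) (FractionRing (MvPolynomial (Fin 3) F)) (G (X k))) :=
  IntermediateField.div_mem _ (avoid_mem G f) (avoid_mem G g)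

theorem avoid_trans {F : Type*} [Field F] [IsAlgClosed F] (z z' : MvPolynomial (Fin 3) F)
    (hz' : z' ≠ 0) (h : ¬ ∃ κ : F, z = C κ * z') :
    Transcendental F (algebraMap (MvPolynomial (Fin 3) F) (FractionRing (MvPolynomial (Fin 3) F)) z /
      algebraMap (MvPolynomial (Fin 3) F) (FractionRing (MvPolynomial (Fin 3) F)) z') := by
  intro hc
  exact h (const_of_algebraic z z' hz' hc)

/-- proportional powers -/
theorem avoid_root {F : Type*} [Field F] [IsAlgClosed F] (z z' : MvPolynomial (Fin 3) F)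
    (hz' : z' ≠ 0) (M : ℕ) (hM : 1 ≤ M) (c : F) (h : z ^ M = C c * z' ^ M) :
    ∃ κ : F, z = C κ * z' := by
  apply const_of_algebraic z z' hz'
  apply IsAlgebraic.of_pow (n := M) (by omega)
  have hq : algebraMap (MvPolynomial (Fin 3) F) (FractionRing (MvPolynomial (Fin 3) F)) z' ≠ 0 := by
    intro h0
    apply hz'
    exact (IsFractionRing.injective (MvPolynomial (Fin 3) F)
      (FractionRing (MvPolynomial (Fin 3) F))) (by rw [h0, map_zero])
  have h1 : (algebraMap (MvPolynomial (Fin 3) F) (FractionRing (MvPolynomial (Fin 3) F)) z /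
      algebraMap (MvPolynomial (Fin 3) F) (FractionRing (MvPolynomial (Fin 3) F)) z') ^ M =
      algebraMap F (FractionRing (MvPolynomial (Fin 3) F)) c := by
    rw [div_pow, ← map_pow, ← map_pow, h, map_mul, map_pow, mul_div_assoc,
      div_self (pow_ne_zero _ hq), mul_one, ← MvPolynomial.algebraMap_eq,
        ← IsScalarTower.algebraMap_apply F (MvPolynomial (Fin 3) F)
          (FractionRing (MvPolynomial (Fin 3) F))]
  rw [h1]
  exact isAlgebraic_algebraMap c

theorem avoid_lin (x y : ℝ) (hx : 0 < x) (hy : 0 ≤ y)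
    (h : ¬ ∃ n n' : ℕ, 1 ≤ n ∧ (n : ℝ) * y = n' * x) (Θ : ℝ) (hΘ : 0 < Θ) (i j : ℤ)
    (hij : (i : ℝ) * (Θ * x) + j * (Θ * y) = 0) : i = 0 ∧ j = 0 := by
  have h0 : (i : ℝ) * x + j * y = 0 := by
    have : Θ * ((i : ℝ) * x + j * y) = 0 := by linarith
    rcases mul_eq_zero.mp this with h1 | h1
    · exact absurd h1 (ne_of_gt hΘ)
    · exact h1
  by_cases hj : j = 0
  · subst hj
    simp only [Int.cast_zero, zero_mul, add_zero] at h0
    rcases mul_eq_zero.mp h0 with h1 | h1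
    · exact ⟨by exact_mod_cast h1, rfl⟩
    · exact absurd h1 (ne_of_gt hx)
  · exfalso
    apply h
    refine ⟨j.natAbs, i.natAbs, Int.natAbs_pos.mpr hj, ?_⟩
    have h2 : |(j : ℝ) * y| = |(i : ℝ) * x| := by
      have : (j : ℝ) * y = -((i : ℝ) * x) := by linarith
      rw [this, abs_neg]
    rw [abs_mul, abs_mul, abs_of_nonneg hy, abs_of_pos hx] at h2
    rw [Nat.cast_natAbs, Nat.cast_natAbs, Int.cast_abs, Int.cast_abs]
    exact h2

theorem avoid_exp {F : Type*} [Field F]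
    (G : MvPolynomial (Fin 3) F →ₐ[F] MvPolynomial (Fin 3) F) (ya : MvPolynomial (Fin 3) F)
    (n n' : Fin 3 → ℕ) (hn : ∀ j, 1 ≤ n j)
    (κ : Fin 3 → F) (hκ : ∀ j, G (X j) ≠ 0 → G (X j) ^ n j = C (κ j) * ya ^ n' j)
    (α : Fin 3 →₀ ℕ) (hα : G (monomial α 1) ≠ 0) :
    ∃ c : F, G (monomial α 1) ^ (∏ j, n j) =
      C c * ya ^ (∑ j, α j * ((∏ i, n i) / n j) * n' j) := by
  refine ⟨∏ j, κ j ^ (α j * ((∏ i, n i) / n j)), ?_⟩
  rw [avoid_prod, ← Finset.prod_pow, map_prod, ← Finset.prod_pow_eq_pow_sum,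
    ← Finset.prod_mul_distrib]
  apply Finset.prod_congr rfl
  intro j _
  have hdvd : n j * ((∏ i, n i) / n j) = ∏ i, n i :=
    Nat.mul_div_cancel' (Finset.dvd_prod_of_mem n (Finset.mem_univ j))
  by_cases hj : α j = 0
  · rw [hj]
    simp
  · have h1 := hκ j (avoid_supp G α hα j hj)
    have h2 : G (X j) ^ (∏ i, n i) = (C (κ j) * ya ^ n' j) ^ ((∏ i, n i) / n j) := by
      rw [← h1, ← pow_mul, hdvd]
    calc (G (X j) ^ α j) ^ (∏ i, n i) = (G (X j) ^ (∏ i, n i)) ^ α j := by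
          rw [← pow_mul, ← pow_mul, mul_comm]
      _ = ((C (κ j) * ya ^ n' j) ^ ((∏ i, n i) / n j)) ^ α j := by rw [h2]
      _ = C (κ j ^ (α j * ((∏ i, n i) / n j))) * ya ^ (α j * ((∏ i, n i) / n j) * n' j) := by
          rw [← pow_mul, mul_pow, ← pow_mul, map_pow]
          congr 1
          · rw [mul_comm]
          · congr 1
            ring

theorem avoid_wexp (μ : Fin 3 → ℝ) (a : Fin 3) (n n' : Fin 3 → ℕ) (hn : ∀ j, 1 ≤ n j)
    (α : Fin 3 →₀ ℕ) (h : ∀ j, α j ≠ 0 → (n j : ℝ) * μ j = n' j * μ a) :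
    ((∑ j, α j * ((∏ i, n i) / n j) * n' j : ℕ) : ℝ) * μ a =
      ((∏ i, n i : ℕ) : ℝ) * Finsupp.weight μ α := by
  rw [avoid_weight, Nat.cast_sum, Finset.sum_mul, Finset.mul_sum]
  apply Finset.sum_congr rfl
  intro j _
  by_cases hj : α j = 0
  · rw [hj]
    simp
  · have h1 := h j hj
    have hdvd : n j * ((∏ i, n i) / n j) = ∏ i, n i :=
      Nat.mul_div_cancel' (Finset.dvd_prod_of_mem n (Finset.mem_univ j))
    have h2 : ((∏ i, n i : ℕ) : ℝ) = (n j : ℝ) * (((∏ i, n i) / n j : ℕ) : ℝ) := by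
      rw [← Nat.cast_mul, hdvd]
    rw [h2, Nat.cast_mul, Nat.cast_mul]
    calc (α j : ℝ) * (((∏ i, n i) / n j : ℕ) : ℝ) * (n' j : ℝ) * μ a
        = (α j : ℝ) * (((∏ i, n i) / n j : ℕ) : ℝ) * ((n' j : ℝ) * μ a) := by ring
      _ = (α j : ℝ) * (((∏ i, n i) / n j : ℕ) : ℝ) * ((n j : ℝ) * μ j) := by rw [h1]
      _ = (n j : ℝ) * (((∏ i, n i) / n j : ℕ) : ℝ) * ((α j : ℝ) * μ j) := by ring

theorem avoid_pt {F : Type*} [Field F] [IsAlgClosed F]
    (G : MvPolynomial (Fin 3) F →ₐ[F] MvPolynomial (Fin 3) F) :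
    ∃ χ : MvPolynomial (Fin 3) F →ₐ[F] F, ∀ i, G (X i) ≠ 0 → χ (G (X i)) ≠ 0 := by
  classical
  have h1 : (∏ i, (if G (X i) = 0 then (1 : MvPolynomial (Fin 3) F) else G (X i))) ≠ 0 := by
    rw [Finset.prod_ne_zero_iff]
    intro i _
    split_ifs with h
    · exact one_ne_zero
    · exact h
  haveI : Infinite F := IsAlgClosed.instInfinite
  obtain ⟨P, hP⟩ : ∃ P : Fin 3 → F, eval P (∏ i, (if G (X i) = 0 then
      (1 : MvPolynomial (Fin 3) F) else G (X i))) ≠ 0 := by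
    by_contra hc
    push_neg at hc
    apply h1
    apply MvPolynomial.funext
    intro x
    rw [hc x, map_zero]
  refine ⟨aeval P, ?_⟩
  intro i hi
  rw [map_prod, Finset.prod_ne_zero_iff] at hP
  have := hP i (Finset.mem_univ i)
  rw [if_neg hi] at this
  rw [aeval_eq_eval]
  exact this

theorem toric_case {F : Type*} [Field F] [IsAlgClosed F]
    (G : MvPolynomial (Fin 3) F →ₐ[F] MvPolynomial (Fin 3) F) (μ : Fin 3 → ℝ) (hμ : ∀ i, 0 ≤ μ i)
    (Θ : ℝ) (hΘ : 1 < Θ) (hG : ∀ i, (G (X i)).IsWeightedHomogeneous μ (Θ * μ i))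
    (K1 : ∀ f, G (G f) = 0 → G f = 0) (K3 : ∃ i, 0 < μ i ∧ G (X i) ≠ 0)
    (htor : ∀ (f f' : MvPolynomial (Fin 3) F) (d : ℝ), (G f).IsWeightedHomogeneous μ d →
      (G f').IsWeightedHomogeneous μ d → G f ≠ 0 → G f' ≠ 0 → ∃ κ : F, G f = C κ * G f') :
    ∃ χ : MvPolynomial (Fin 3) F →ₐ[F] F, ∀ m : ℕ, ∃ i, 0 < μ i ∧ χ (G^[m + 1] (X i)) ≠ 0 := by
  obtain ⟨a, ha, hya⟩ := K3
  obtain ⟨χ, hχ⟩ := avoid_pt G
  refine ⟨χ, fun m => ⟨a, ha, ?_⟩⟩
  have hz := avoid_nz G K1 a hya m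
  rw [Function.iterate_succ_apply'] at hz ⊢
  have hf := avoid_homIter G μ Θ hG a m
  obtain ⟨α, hα, hα0⟩ := avoid_exmon G _ hz
  have hw : Finsupp.weight μ α = Θ ^ m * μ a := hf (mem_support_iff.mp hα)
  have h1 := avoid_homMon G μ Θ hG α
  rw [hw] at h1
  obtain ⟨κ, hκ⟩ := htor _ _ _ (avoid_hom G μ Θ hG _ _ hf) h1 hz hα0
  rw [hκ, map_mul]
  have hκ0 : κ ≠ 0 := by
    intro h0
    apply hz
    rw [hκ, h0, C_0, zero_mul]
  have h2 : χ (C κ) = κ := χ.commutes κ
  rw [h2, avoid_prod, map_prod]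
  apply mul_ne_zero hκ0
  rw [Finset.prod_ne_zero_iff]
  intro i _
  rw [map_pow]
  by_cases hi : α i = 0
  · rw [hi, pow_zero]
    exact one_ne_zero
  · exact pow_ne_zero _ (hχ i (avoid_supp G α hα0 i hi))

theorem avoid {F : Type*} [Field F] [IsAlgClosed F] (p : ℕ) [Fact p.Prime] [CharP F p]
    (halg : ∀ u : F, u ≠ 0 → ∃ N : ℕ, 1 ≤ N ∧ u ^ N = 1)
    (G : MvPolynomial (Fin 3) F →ₐ[F] MvPolynomial (Fin 3) F) (μ : Fin 3 → ℝ) (hμ : ∀ i, 0 ≤ μ i)
    (Θ : ℝ) (hΘ : 1 < Θ) (hG : ∀ i, (G (X i)).IsWeightedHomogeneous μ (Θ * μ i))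
    (K1 : ∀ f, G (G f) = 0 → G f = 0) (K2 : ∃ Ψ : MvPolynomial (Fin 3) F, Ψ ≠ 0 ∧ G Ψ = 0)
    (K3 : ∃ i, 0 < μ i ∧ G (X i) ≠ 0) :
    ∃ χ : MvPolynomial (Fin 3) F →ₐ[F] F, ∀ m : ℕ, ∃ i, 0 < μ i ∧ χ (G^[m + 1] (X i)) ≠ 0 := by
  classical
  by_cases htor : ∀ (f f' : MvPolynomial (Fin 3) F) (d : ℝ), (G f).IsWeightedHomogeneous μ d →
      (G f').IsWeightedHomogeneous μ d → G f ≠ 0 → G f' ≠ 0 → ∃ κ : F, G f = C κ * G f'
  · exact toric_case G μ hμ Θ hΘ hG K1 K3 htor
  push_neg at htor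
  obtain ⟨f, f', d, hfd, hf'd, hf0, hf'0, hne⟩ := htor
  obtain ⟨a, ha, hya⟩ := K3
  have hΘ0 : 0 < Θ := by linarith
  have htr := avoid_trans (G f) (G f') hf'0 (by push_neg; exact hne)
  -- (i)
  have hI : ∀ j, G (X j) ≠ 0 → ∃ n n' : ℕ, 1 ≤ n ∧ (n : ℝ) * μ j = n' * μ a := by
    intro j hj
    by_contra hc
    have h1 := gi_three μ (G f) (G f') (G (X a)) (G (X j)) d (Θ * μ a) (Θ * μ j) hfd hf'd hf'0
      (hG a) (hG j) hya hj (avoid_lin (μ a) (μ j) ha (hμ j) hc Θ hΘ0) htr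
    refine dep_three G K2 _ ?_ h1
    intro i
    fin_cases i
    · exact avoid_div G f f'
    · exact avoid_mem G (X a)
    · exact avoid_mem G (X j)
  have hI' : ∀ j, ∃ n n' : ℕ, 1 ≤ n ∧ (G (X j) ≠ 0 → (n : ℝ) * μ j = n' * μ a) := by
    intro j
    by_cases hj : G (X j) = 0
    · exact ⟨1, 0, le_refl _, fun h => absurd hj h⟩
    · obtain ⟨n, n', h1, h2⟩ := hI j hj
      exact ⟨n, n', h1, fun _ => h2⟩
  choose n n' hn hnn using hI'
  have hM : 1 ≤ ∏ j, n j := Nat.one_le_iff_ne_zero.mpr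
    (Finset.prod_ne_zero_iff.mpr (fun j _ => Nat.one_le_iff_ne_zero.mp (hn j)))
  -- (ii)
  obtain ⟨b, hyb, hbk⟩ : ∃ b, G (X b) ≠ 0 ∧ ∀ κ : F, G (X b) ^ n b ≠ C κ * G (X a) ^ n' b := by
    by_contra hc
    push_neg at hc
    have hc' : ∀ j, ∃ κ : F, G (X j) ≠ 0 → G (X j) ^ n j = C κ * G (X a) ^ n' j := by
      intro j
      by_cases hj : G (X j) = 0
      · exact ⟨0, fun h => absurd hj h⟩
      · obtain ⟨κ, hκ⟩ := hc j hj
        exact ⟨κ, fun _ => hκ⟩
    choose κ hκ using hc'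
    have hP : ∀ α β : Fin 3 →₀ ℕ, G (monomial α 1) ≠ 0 → G (monomial β 1) ≠ 0 →
      Finsupp.weight μ α = Finsupp.weight μ β →
        ∃ κ : F, G (monomial α 1) = C κ * G (monomial β 1) := by
      intro α β hα hβ hw
      obtain ⟨c, hc1⟩ := avoid_exp G (G (X a)) n n' hn κ hκ α hα
      obtain ⟨c', hc2⟩ := avoid_exp G (G (X a)) n n' hn κ hκ β hβ
      have w1 := avoid_wexp μ a n n' hn α (fun j hj => hnn j (avoid_supp G α hα j hj))
      have w2 := avoid_wexp μ a n n' hn β (fun j hj => hnn j (avoid_supp G β hβ j hj))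
      have w3 : (∑ j, α j * ((∏ i, n i) / n j) * n' j) = ∑ j, β j * ((∏ i, n i) / n j) * n' j := by
        have : ((∑ j, α j * ((∏ i, n i) / n j) * n' j : ℕ) : ℝ) * μ a =
            ((∑ j, β j * ((∏ i, n i) / n j) * n' j : ℕ) : ℝ) * μ a := by
          rw [w1, w2, hw]
        have h4 := mul_right_cancel₀ (ne_of_gt ha) this
        exact_mod_cast h4
      have hc'0 : c' ≠ 0 := by
        intro h0
        rw [h0, C_0, zero_mul] at hc2
        exact hβ (pow_eq_zero_iff (by omega) |>.mp hc2)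
      apply avoid_root (G (monomial α 1)) (G (monomial β 1)) hβ (∏ j, n j) hM (c * c'⁻¹)
      rw [hc1, hc2, w3, ← mul_assoc, ← C_mul, mul_assoc, inv_mul_cancel₀ hc'0, mul_one]
    obtain ⟨α, c, hα0, hα1, hα2⟩ := avoid_one G μ Θ hΘ hG hP f d hfd hf0
    obtain ⟨β, c', hβ0, hβ1, hβ2⟩ := avoid_one G μ Θ hΘ hG hP f' d hf'd hf'0
    obtain ⟨κ', hκ'⟩ := hP α β hα0 hβ0 (by
      have : Θ * Finsupp.weight μ α = Θ * Finsupp.weight μ β := by rw [hα1, hβ1]
      exact mul_left_cancel₀ (by linarith) this)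
    have hc'0 : c' ≠ 0 := by
      intro h0
      rw [h0, C_0, zero_mul] at hβ2
      exact hf'0 hβ2
    apply hne (c * κ' * c'⁻¹)
    rw [hα2, hβ2, hκ', ← mul_assoc, ← mul_assoc, ← C_mul, ← C_mul, mul_assoc (c * κ'),
      inv_mul_cancel₀ hc'0, mul_one]
  -- (iii)
  have hGya : G (G (X a)) ≠ 0 := fun h => hya (K1 _ h)
  obtain ⟨α, hα, hα0⟩ := avoid_exmon G (G (X a)) hGya
  have hαw : Finsupp.weight μ α = Θ * μ a := (hG a) (mem_support_iff.mp hα)
  have w1 := avoid_wexp μ a n n' hn α (fun j hj => hnn j (avoid_supp G α hα0 j hj))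
  set ns : ℕ := ∏ j, n j with hns
  set ns' : ℕ := ∑ j, α j * (ns / n j) * n' j with hns'
  have hnsΘ : (ns : ℝ) * Θ = ns' := by
    have h1 : ((ns : ℝ) * Θ) * μ a = (ns' : ℝ) * μ a := by
      rw [w1, hαw]
      ring
    exact mul_right_cancel₀ (ne_of_gt ha) h1
  -- (iv)
  have hnb := hnn b hyb
  have hGyb : G (G (X b)) ≠ 0 := fun h => hyb (K1 _ h)
  have hGa2 := avoid_hom G μ Θ hG _ _ (hG a)
  have hGb2 := avoid_hom G μ Θ hG _ _ (hG b)
  have e1 : (n b) • (Θ * μ b) = (n' b) • (Θ * μ a) := by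
    rw [nsmul_eq_mul, nsmul_eq_mul]
    calc (n b : ℝ) * (Θ * μ b) = Θ * ((n b : ℝ) * μ b) := by ring
      _ = Θ * (n' b * μ a) := by rw [hnb]
      _ = _ := by ring
  have e2 : (n b) • (Θ * (Θ * μ b)) = (n' b) • (Θ * (Θ * μ a)) := by
    rw [nsmul_eq_mul, nsmul_eq_mul]
    calc (n b : ℝ) * (Θ * (Θ * μ b)) = Θ * Θ * ((n b : ℝ) * μ b) := by ring
      _ = Θ * Θ * (n' b * μ a) := by rw [hnb]
      _ = _ := by ring
  have e3 : ns • (Θ * (Θ * μ a)) = ns' • (Θ * μ a) := by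
    rw [nsmul_eq_mul, nsmul_eq_mul, ← hnsΘ]
    ring
  have hr1 : (G (X b) ^ n b).IsWeightedHomogeneous μ ((n' b) • (Θ * μ a)) := by
    rw [← e1]
    exact (hG b).pow _
  have hr2 : (G (X a) ^ n' b).IsWeightedHomogeneous μ ((n' b) • (Θ * μ a)) := (hG a).pow _
  have hr3 : (G (G (X b)) ^ n b).IsWeightedHomogeneous μ ((n' b) • (Θ * (Θ * μ a))) := by
    rw [← e2]
    exact hGb2.pow _
  have hr4 : (G (G (X a)) ^ n' b).IsWeightedHomogeneous μ ((n' b) • (Θ * (Θ * μ a))) := hGa2.pow _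
  have hs1 : (G (G (X a)) ^ ns).IsWeightedHomogeneous μ (ns' • (Θ * μ a)) := by
    rw [← e3]
    exact hGa2.pow _
  have hs2 : (G (X a) ^ ns').IsWeightedHomogeneous μ (ns' • (Θ * μ a)) := (hG a).pow _
  have m1 : G (X b) ^ n b = G (X b ^ n b) := (map_pow _ _ _).symm
  have m2 : G (X a) ^ n' b = G (X a ^ n' b) := (map_pow _ _ _).symm
  have m3 : G (G (X a)) ^ ns = G (G (X a) ^ ns) := (map_pow _ _ _).symm
  have m4 : G (X a) ^ ns' = G (X a ^ ns') := (map_pow _ _ _).symm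
  have m5 : G (G (X b)) ^ n b = G (G (X b) ^ n b) := (map_pow _ _ _).symm
  have m6 : G (G (X a)) ^ n' b = G (G (X a) ^ n' b) := (map_pow _ _ _).symm
  have hΘa : Θ * μ a ≠ 0 := ne_of_gt (mul_pos hΘ0 ha)
  have d1 : ¬ AlgebraicIndependent F
      ![algebraMap (MvPolynomial (Fin 3) F) (FractionRing (MvPolynomial (Fin 3) F)) (G (X b) ^ n b) /
          algebraMap (MvPolynomial (Fin 3) F) (FractionRing (MvPolynomial (Fin 3) F)) (G (X a) ^ n' b),
        algebraMap (MvPolynomial (Fin 3) F) (FractionRing (MvPolynomial (Fin 3) F)) (G (G (X a)) ^ ns) /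
          algebraMap (MvPolynomial (Fin 3) F) (FractionRing (MvPolynomial (Fin 3) F))
            (G (X a) ^ ns')] := by
    intro hi
    have h1 := gi_pair μ _ _ _ _ (G (X a)) _ _ (Θ * μ a) hr1 hr2 (pow_ne_zero _ hya) hs1 hs2
      (pow_ne_zero _ hya) (hG a) hya hΘa hi
    refine dep_three G K2 _ ?_ h1
    intro i
    fin_cases i
    · show _ / _ ∈ _
      rw [m1, m2]
      exact avoid_div G _ _
    · show _ / _ ∈ _
      rw [m3, m4]
      exact avoid_div G _ _
    · exact avoid_mem G (X a)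
  have d2 : ¬ AlgebraicIndependent F
      ![algebraMap (MvPolynomial (Fin 3) F) (FractionRing (MvPolynomial (Fin 3) F)) (G (X b) ^ n b) /
          algebraMap (MvPolynomial (Fin 3) F) (FractionRing (MvPolynomial (Fin 3) F)) (G (X a) ^ n' b),
        algebraMap (MvPolynomial (Fin 3) F) (FractionRing (MvPolynomial (Fin 3) F))
            (G (G (X b)) ^ n b) /
          algebraMap (MvPolynomial (Fin 3) F) (FractionRing (MvPolynomial (Fin 3) F))
            (G (G (X a)) ^ n' b)] := by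
    intro hi
    have h1 := gi_pair μ _ _ _ _ (G (X a)) _ _ (Θ * μ a) hr1 hr2 (pow_ne_zero _ hya) hr3 hr4
      (pow_ne_zero _ hGya) (hG a) hya hΘa hi
    refine dep_three G K2 _ ?_ h1
    intro i
    fin_cases i
    · show _ / _ ∈ _
      rw [m1, m2]
      exact avoid_div G _ _
    · show _ / _ ∈ _
      rw [m5, m6]
      exact avoid_div G _ _
    · exact avoid_mem G (X a)
  have ht' : ¬ ∃ κ : F, G (G (X b)) ^ n b = C κ * G (G (X a)) ^ n' b := by
    rintro ⟨κ, hκ⟩
    apply hbk κ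
    have h1 : G (G (X b ^ n b - C κ * X a ^ n' b)) = 0 := by
      rw [map_sub, map_sub, map_mul, map_mul, map_pow, map_pow, map_pow, map_pow, avoid_C, avoid_C,
        hκ, sub_self]
    have h2 := K1 _ h1
    rw [map_sub, map_mul, map_pow, map_pow, avoid_C, sub_eq_zero] at h2
    exact h2
  obtain ⟨A, hA0, hA⟩ := exists_rel_one (G (X b) ^ n b) (G (X a) ^ n' b) (G (G (X a)) ^ ns)
    (G (X a) ^ ns') (pow_ne_zero _ hya) (pow_ne_zero _ hya) (pow_ne_zero _ hGya) d1
  obtain ⟨Φ, hΦ0, hΦ⟩ := exists_rel_two (G (X b) ^ n b) (G (X a) ^ n' b) (G (G (X b)) ^ n b)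
    (G (G (X a)) ^ n' b) (pow_ne_zero _ hya) (pow_ne_zero _ hGya)
    (avoid_trans _ _ (pow_ne_zero _ hGya) ht') d2
  obtain ⟨χ, hχ⟩ := beta_case p halg G (G (X a)) (G (X b)) (n b) (n' b) ns ns' hM hya
    (by push_neg; exact hbk) A Φ hA0
    (fun χ h1 => by
      have h2 := hA χ (by rw [map_pow]; exact pow_ne_zero _ h1) (by rw [map_pow]; exact pow_ne_zero _ h1)
      rw [map_pow, map_pow, map_pow, map_pow] at h2
      exact h2) hΦ0
    (fun χ h1 h3 => by
      have h2 := hΦ χ (by rw [map_pow]; exact pow_ne_zero _ h1) (by rw [map_pow]; exact pow_ne_zero _ h3)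
      rw [map_pow, map_pow, map_pow, map_pow] at h2
      exact h2)
  refine ⟨χ, fun m => ⟨a, ha, ?_⟩⟩
  rw [Function.iterate_succ_apply]
  exact hχ m

end ZD85
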