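import Pool.Agent.H85.ZD.ValA

/-!
# ZD Val : a real valued valuation with prescribed units (row `Val`)

Proof of `exists_val`.  Take `p, V` from `exists_valA`.  The value group of `V.valuation` is archimedean: if
`w(y) > 1` and `w(z)` is arbitrary, write `w(y)^N = w(p)^m`, `w(z)^M = w(p)^k`; since `w(p) < 1`, `m < 0`, and
`w(z) ≤ w(y)^r` for large `r`.  (All elements of `V.ValueGroup` are values of elements of `K`:
`ValuationSubring.valuation_surjective`.)  So `MulArchimedean V.ValueGroup`, `V.valuation` is non-trivial (`w(p) < 1`,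
`p ≠ 0`) and `Valuation.nonempty_rankOne_iff_mulArchimedean` (Mathlib `RingTheory/Valuation/RankOne.lean`) gives a
strictly monotone `MonoidWithZeroHom` into `NNReal`; compose (`Valuation.map`).  A strictly monotone map preserves
`= 1` and `< 1`.
(Alternatively build the exponent by hand: `v(y) = 2 ^ (m / N)` if `w(y)^N = w(p)^(-m)`... ; the Mathlib route is shorter.)
-/

set_option autoImplicit false

namespace ZD85

open WithZero in
theorem Val_hom {Γ : Type*} [LinearOrderedCommGroupWithZero Γ] [MulArchimedean Γ] :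
    ∃ f : Γ →*₀ NNReal, StrictMono f := by
  obtain ⟨f, hf⟩ :=
    Archimedean.exists_orderAddMonoidHom_real_injective (Additive Γˣ)
  let e := AddMonoidHom.toMultiplicativeRight (α := Γˣ) (β := ℝ) f
  have he : StrictMono e := by
    simp only [AddMonoidHom.coe_toMultiplicativeRight, AddMonoidHom.coe_coe, e]
    exact StrictMono.comp strictMono_id (f.monotone'.strictMono_of_injective hf)
  let rf : Multiplicative ℝ →* NNRealˣ := {
    toFun x := Units.mk0 (.mk ((2 : ℝ) ^ (Multiplicative.toAdd x)) (by positivity)) <| by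
      simp only [ne_eq, NNReal.eq_iff, NNReal.coe_mk, NNReal.coe_zero]
      positivity
    map_one' := by ext; simp
    map_mul' _ _ := by ext; simp [Real.rpow_add] }
  have H : StrictMono (map' (rf.comp e)) := by
    refine map'_strictMono ?_
    intro a b h
    have h1 := he h
    simpa [← Units.val_lt_val, ← NNReal.coe_lt_coe, rf] using h1
  exact ⟨withZeroUnitsEquiv.toMonoidWithZeroHom.comp <| (map' (rf.comp e)).comp
        withZeroUnitsEquiv.symm.toMonoidWithZeroHom,
      withZeroUnitsEquiv_strictMono.comp <| H.comp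
        withZeroUnitsEquiv_symm_strictMono⟩

theorem Val_arch {K : Type*} [Field K] (V : ValuationSubring K) (p : K) (hp0 : p ≠ 0)
    (hp : V.valuation p < 1)
    (h : ∀ y : K, y ≠ 0 → ∃ (N : ℕ) (m : ℤ), 1 ≤ N ∧ V.valuation y ^ N = V.valuation p ^ m) :
    MulArchimedean V.ValueGroup where
  arch := by
    intro a b hb
    obtain ⟨z, rfl⟩ := V.valuation_surjective a
    obtain ⟨y, rfl⟩ := V.valuation_surjective b
    have hvp : 0 < V.valuation p := zero_lt_iff.2 ((map_ne_zero _).2 hp0)
    have hy : y ≠ 0 := by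
      rintro rfl
      rw [map_zero] at hb
      exact absurd hb (not_lt.2 zero_le_one)
    by_cases hz : z = 0
    · exact ⟨0, by rw [hz, map_zero]; exact zero_le⟩
    obtain ⟨N, m, hN, h1⟩ := h y hy
    obtain ⟨M, k, hM, h2⟩ := h z hz
    -- m < 0
    have hm : m < 0 := by
      by_contra hm
      have h3 : V.valuation p ^ m ≤ 1 := by
        obtain ⟨n, rfl⟩ := Int.eq_ofNat_of_zero_le (not_lt.1 hm)
        rw [zpow_natCast]
        exact pow_le_one' hp.le n
      rw [← h1] at h3
      exact absurd (one_lt_pow' hb (by omega : N ≠ 0)) (not_lt.2 h3)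
    obtain ⟨r, hr⟩ : ∃ r : ℕ, V.valuation z ^ (M * N) ≤ (V.valuation y ^ r) ^ (M * N) := by
      refine ⟨k.natAbs * N, ?_⟩
      have e1 : V.valuation z ^ (M * N) = V.valuation p ^ (k * (N : ℤ)) := by
        rw [pow_mul, h2, zpow_mul, zpow_natCast]
      have e2 : (V.valuation y ^ (k.natAbs * N)) ^ (M * N) =
          V.valuation p ^ (m * ((k.natAbs * N * M : ℕ) : ℤ)) := by
        rw [zpow_mul, ← h1, zpow_natCast, ← pow_mul, ← pow_mul]
        congr 1
        ring
      rw [e1, e2]
      apply zpow_le_zpow_right_of_le_one₀ hvp hp.le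
      have hk : -((k.natAbs : ℕ) : ℤ) ≤ k := by
        have := Int.natCast_natAbs k
        rw [this]
        exact neg_abs_le k
      have hN' : (0 : ℤ) ≤ N := by positivity
      have h4 : -((k.natAbs : ℕ) : ℤ) * N ≤ k * N := mul_le_mul_of_nonneg_right hk hN'
      have h5 : m * ((k.natAbs * N * M : ℕ) : ℤ) ≤ -((k.natAbs : ℕ) : ℤ) * N := by
        push_cast
        have hM' : (1 : ℤ) ≤ M := by exact_mod_cast hM
        have h6 : (0 : ℤ) ≤ |k| * N := by positivity
        nlinarith [mul_le_mul_of_nonneg_left hM' h6, mul_le_mul_of_nonneg_right (show m ≤ -1 by omega)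
          (show (0 : ℤ) ≤ |k| * N * M by positivity)]
      exact le_trans h5 h4
    refine ⟨r, ?_⟩
    exact (pow_le_pow_iff_left₀ zero_le zero_le (by positivity)).1 hr

theorem exists_val {K : Type*} [Field K] [CharZero K] (E : Finset K) (hE : (0 : K) ∉ E) :
    ∃ (p : ℕ) (v : Valuation K NNReal), p.Prime ∧ v (p : K) < 1 ∧
      (∀ e ∈ E, v e = 1) ∧ (∀ e ∈ E, ∃ N : ℕ, 1 ≤ N ∧ v (e ^ N - 1) < 1) := by
  obtain ⟨p, V, hp, hvp, h1, h2, h3⟩ := exists_valA E hE
  have hp0 : (p : K) ≠ 0 := by exact_mod_cast hp.ne_zero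
  have := Val_arch V (p : K) hp0 hvp h3
  obtain ⟨f, hf⟩ := Val_hom (Γ := V.ValueGroup)
  refine ⟨p, V.valuation.map f hf.monotone, hp, ?_, ?_, ?_⟩
  · show f (V.valuation (p : K)) < 1
    rw [← map_one f]
    exact hf hvp
  · intro e he
    show f (V.valuation e) = 1
    rw [h1 e he, map_one]
  · intro e he
    obtain ⟨N, hN, h⟩ := h2 e he
    refine ⟨N, hN, ?_⟩
    show f (V.valuation (e ^ N - 1)) < 1
    rw [← map_one f]
    exact hf h

end ZD85
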