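import Pool.Agent.H85.ZD.Crit
import Pool.Agent.H85.ZD.Val

/-!
# ZD Base : bounded base, unbounded fibre (row `Base`)

`f(x, y, z) = (a y + P(x, z), b x + Q(z), c z + d)`; `z ↦ c z + d` has infinite order; `P` contains a monomial
`x^{α 0} z^{α 1}` with `α 0 ≥ 2` or with `α 0 = 1`, `α 1 ≥ 1`.

Write `P(x, z) = ∑_{i ≤ D} p_i(z) x^i`, `p_D ≠ 0`, `D = max {α 0 : α ∈ supp P}` (for instance through
`MvPolynomial.finSuccEquiv K 1`, or define `p_i = ∑_{α ∈ supp P, α 0 = i} P.coeff α • X^{α 1}`).  Let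
`e = natDegree p_D`.  Either `D ≥ 2`, or `D = 1` and `e ≥ 1`.
Units `E` = {`a`, `b`, `c`} ∪ ({`d`} if `d ≠ 0`) ∪ ({`1 - c`} if `c ≠ 1`) ∪ {non-zero coefficients of `P`, `Q`};
`p, v` from `exists_val`, `g = v(p)⁻¹ > 1`.  Let `M` be larger than the degrees of all `p_i` and of `Q`.
`S_0 = {x | g^(M+1) ≤ v x}`, `S_1 = {y | v y ≤ 1}`, `S_2 = {z | v z = g}` (infinite).
(1) `v(z_m) = g` for all `m` (`v(c z) = g > 1 ≥ v(d)`).  `v(p_i(z_m)) ≤ g^M`, `v(Q(z_m)) ≤ g^M`, and
`v(p_D(z_m)) = g^e` (leading term dominates).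
(2) `v(x_m) ≥ g^(M+1+m)` and `v(y_m) ≤ v(x_m)`: with `X = v(x_m)`, the term `p_D(z_m) x_m^D` has value `g^e X^D`;
the terms `i < D` have value `≤ g^M X^(D-1) < X^D`; `v(a y_m) ≤ X < g^e X^D` (as `D ≥ 2` or `e ≥ 1`).  So
`v(x_{m+1}) = g^e X^D ≥ g X`, and `v(y_{m+1}) ≤ max X g^M = X ≤ v(x_{m+1})`.
(3) The `z_m` are pairwise different, more precisely: for every `s` there is `η > 0` with
`v(z_{m+i} - z_{m+j}) ≥ η` for all `m` and all `0 ≤ i < j ≤ s`.  If `c = 1`: `z_{m+i} - z_{m+j} = (i - j) d`.  If `c ≠ 1`: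
with `z* = d / (1 - c)`, `z_m - z* = c^m (z_0 - z*)` so the difference is `c^m (c^i - c^j)(z_0 - z*)`, `v(c) = 1`,
`c^i ≠ c^j`, and `v(z_0 - z*) = g` since `v(z*) ≤ 1`.
(4) Coordinates `0` and `2` are independent along the orbit: `PairInd` with `i = 0`, `l = 2`.
Let `G = ∑_{t ≤ N} r_t(T) Y^t ≠ 0`, `r_N ≠ 0`, vanish along the orbit: `∑ r_t(z_m) x_m^t = 0` for all `m`.
Let `s = natDegree r_N` and `η` as in (3).  For every `m` there is `m' ∈ {m, ..., m+s}` with
`v(r_N(z_{m'})) ≥ δ := v(lc r_N) η^s`: `K` algebraically closed, `r_N = lc ∏ (T - ζ_k)` with `s` roots; for each root `ζ_k`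
at most one `i ∈ {0..s}` has `v(z_{m+i} - ζ_k) < η` (ultrametric inequality), so some `i` is bad for no root.
There is `B` with `v(r_t(z_m)) ≤ B` for all `t, m` (as `v(z_m) = g`).  For `m` large, `X = v(x_{m'})` satisfies
`δ X > B`, `X > 1`, and then the term `t = N` is strictly larger than all the others (`≤ B X^(N-1)`, none if `N = 0`):
the sum is not zero.  Contradiction.
Conclude with `zdo_of_pair_prod`.
-/

set_option autoImplicit false

namespace ZD85

open MvPolynomial

theorem Base_dom {K : Type*} [Field K] (v : Valuation K NNReal) {ι : Type*} (s : Finset ι)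
    (f : ι → K) (i0 : ι) (hi0 : i0 ∈ s) (h0 : v (f i0) ≠ 0)
    (h : ∀ i ∈ s, i ≠ i0 → v (f i) < v (f i0)) : v (∑ i ∈ s, f i) = v (f i0) := by
  classical
  rw [← Finset.add_sum_erase s f hi0]
  apply Valuation.map_add_eq_of_lt_left
  apply Valuation.map_sum_lt v h0
  intro i hi
  exact h i (Finset.mem_of_mem_erase hi) (Finset.ne_of_mem_erase hi)

theorem Base_lexmax {K : Type*} [Field K] (P : MvPolynomial (Fin 2) K) (hP : P.support.Nonempty) :
    ∃ α ∈ P.support, ∀ β ∈ P.support, β 0 < α 0 ∨ (β 0 = α 0 ∧ β 1 ≤ α 1) := by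
  obtain ⟨α, hα, h⟩ := Finset.exists_max_image P.support (fun β => toLex (β 0, β 1)) hP
  refine ⟨α, hα, fun β hβ => ?_⟩
  have := h β hβ
  rw [Prod.Lex.toLex_le_toLex] at this
  exact this

theorem Base_evalP {K : Type*} [Field K] (P : MvPolynomial (Fin 2) K) (x z : K) :
    eval ![x, z] P = ∑ α ∈ P.support, P.coeff α * (x ^ (α 0) * z ^ (α 1)) := by
  rw [MvPolynomial.eval_eq']
  refine Finset.sum_congr rfl (fun α _ => ?_)
  rw [Fin.prod_univ_two]
  rfl

theorem Base_valP {K : Type*} [Field K] (v : Valuation K NNReal) (P : MvPolynomial (Fin 2) K)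
    (hc : ∀ β ∈ P.support, v (P.coeff β) = 1) (α : Fin 2 →₀ ℕ) (hα : α ∈ P.support)
    (hmax : ∀ β ∈ P.support, β 0 < α 0 ∨ (β 0 = α 0 ∧ β 1 ≤ α 1)) (M : ℕ)
    (hM : ∀ β ∈ P.support, β 1 ≤ M) (g X : NNReal) (hg : 1 < g) (x z : K) (hx : v x = X)
    (hz : v z = g) (hX : g ^ (M + 1) ≤ X) : v (eval ![x, z] P) = X ^ (α 0) * g ^ (α 1) := by
  have hX0 : 0 < X := lt_of_lt_of_le (pow_pos (lt_trans one_pos hg) _) hX
  have hX1 : 1 ≤ X := le_trans (one_le_pow₀ hg.le) hX
  have ht : ∀ β ∈ P.support, v (P.coeff β * (x ^ (β 0) * z ^ (β 1))) = X ^ (β 0) * g ^ (β 1) := by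
    intro β hβ
    rw [map_mul, map_mul, map_pow, map_pow, hx, hz, hc β hβ, one_mul]
  rw [Base_evalP, Base_dom v P.support _ α hα, ht α hα]
  · rw [ht α hα]
    have : 0 < X ^ (α 0) * g ^ (α 1) := mul_pos (pow_pos hX0 _) (pow_pos (lt_trans one_pos hg) _)
    exact this.ne'
  · intro β hβ hne
    rw [ht β hβ, ht α hα]
    rcases hmax β hβ with h | ⟨h, h'⟩
    · have h1 : X ^ (β 0) * g ^ (β 1) ≤ X ^ (α 0 - 1) * g ^ M := by
        apply mul_le_mul (pow_le_pow_right₀ hX1 (by omega)) (pow_le_pow_right₀ hg.le (hM β hβ))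
          zero_le zero_le
      have h2 : X ^ (α 0 - 1) * g ^ M < X ^ (α 0 - 1) * X := by
        apply mul_lt_mul_of_pos_left _ (pow_pos hX0 _)
        exact lt_of_lt_of_le (pow_lt_pow_right₀ hg (Nat.lt_succ_self M)) hX
      have h3 : X ^ (α 0 - 1) * X = X ^ (α 0) := by
        rw [← pow_succ]
        congr 1
        omega
      have h4 : X ^ (α 0) ≤ X ^ (α 0) * g ^ (α 1) := by
        apply le_mul_of_one_le_right zero_le (one_le_pow₀ hg.le)
      exact lt_of_le_of_lt h1 (lt_of_lt_of_le (h3 ▸ h2) h4)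
    · have hlt : β 1 < α 1 := by
        rcases Nat.lt_or_ge (β 1) (α 1) with h2 | h2
        · exact h2
        · exfalso
          apply hne
          ext i
          fin_cases i
          · exact h
          · exact le_antisymm h' h2
      rw [h]
      exact mul_lt_mul_of_pos_left (pow_lt_pow_right₀ hg hlt) (pow_pos hX0 _)

theorem Base_valQ {K : Type*} [Field K] (v : Valuation K NNReal) (Q : Polynomial K)
    (hc : ∀ i, v (Q.coeff i) ≤ 1) (M : ℕ) (hM : Q.natDegree ≤ M) (g : NNReal) (hg : 1 < g) (z : K)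
    (hz : v z = g) : v (Q.eval z) ≤ g ^ M := by
  rw [Polynomial.eval_eq_sum_range]
  apply Valuation.map_sum_le
  intro i hi
  rw [Finset.mem_range] at hi
  rw [map_mul, map_pow, hz]
  calc v (Q.coeff i) * g ^ i ≤ 1 * g ^ M :=
        mul_le_mul (hc i) (pow_le_pow_right₀ hg.le (by omega)) zero_le zero_le
    _ = g ^ M := one_mul _

theorem Base_bound {K : Type*} [Field K] (v : Valuation K NNReal) (r : Polynomial K) (g : NNReal) :
    ∃ B : NNReal, ∀ z, v z = g → v (r.eval z) ≤ B := by
  refine ⟨∑ i ∈ Finset.range (r.natDegree + 1), v (r.coeff i) * g ^ i, fun z hz => ?_⟩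
  rw [Polynomial.eval_eq_sum_range]
  apply Valuation.map_sum_le
  intro i hi
  rw [map_mul, map_pow, hz]
  exact Finset.single_le_sum (f := fun i => v (r.coeff i) * g ^ i) (fun _ _ => zero_le) hi

theorem Base_bound2 {K : Type*} [Field K] (v : Valuation K NNReal) (r : ℕ → Polynomial K)
    (g : NNReal) (N : ℕ) : ∃ B : NNReal, ∀ t < N, ∀ z, v z = g → v ((r t).eval z) ≤ B := by
  choose B hB using fun t => Base_bound v (r t) g
  refine ⟨∑ t ∈ Finset.range N, B t, fun t ht z hz => (hB t z hz).trans ?_⟩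
  exact Finset.single_le_sum (f := B) (fun _ _ => zero_le) (Finset.mem_range.2 ht)

theorem Base_eta {K : Type*} [Field K] (v : Valuation K NNReal) (z : ℕ → K)
    (h : ∀ k, 1 ≤ k → z k ≠ z 0) (s : ℕ) :
    ∃ η : NNReal, 0 < η ∧ ∀ k, 1 ≤ k → k ≤ s → η ≤ v (z k - z 0) := by
  induction s with
  | zero => exact ⟨1, one_pos, fun k h1 h2 => by omega⟩
  | succ s ih =>
    obtain ⟨η, hη, h1⟩ := ih
    have h2 : 0 < v (z (s + 1) - z 0) := by
      rw [zero_lt_iff]
      exact (Valuation.ne_zero_iff v).2 (sub_ne_zero.2 (h (s + 1) (by omega)))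
    refine ⟨min η (v (z (s + 1) - z 0)), lt_min hη h2, fun k hk1 hk2 => ?_⟩
    rcases Nat.lt_or_ge s k with h3 | h3
    · have : k = s + 1 := by omega
      rw [this]
      exact min_le_right _ _
    · exact (min_le_left _ _).trans (h1 k hk1 h3)

theorem Base_mprod (s : Multiset NNReal) (η : NNReal) (h : ∀ x ∈ s, η ≤ x) :
    η ^ (Multiset.card s) ≤ s.prod := by
  induction s using Multiset.induction_on with
  | empty => simp
  | cons a s ih =>
    rw [Multiset.card_cons, Multiset.prod_cons, pow_succ, mul_comm]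
    exact mul_le_mul (h a (Multiset.mem_cons_self a s))
      (ih (fun x hx => h x (Multiset.mem_cons_of_mem hx))) zero_le zero_le

/-- the leading coefficient polynomial is bounded below along a syndetic set of times -/
theorem Base_roots {K : Type*} [Field K] [IsAlgClosed K] (v : Valuation K NNReal)
    (r : Polynomial K) (hr : r ≠ 0) (z : ℕ → K) (hsep : ∀ k, 1 ≤ k → z k ≠ z 0)
    (hiso : ∀ m k, v (z (m + k) - z m) = v (z k - z 0)) :
    ∃ δ : NNReal, 0 < δ ∧ ∀ m, ∃ m', m ≤ m' ∧ δ ≤ v (r.eval (z m')) := by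
  classical
  obtain ⟨η, hη, h1⟩ := Base_eta v z hsep r.natDegree
  refine ⟨v r.leadingCoeff * η ^ (Multiset.card r.roots), ?_, fun m => ?_⟩
  · apply mul_pos _ (pow_pos hη _)
    rw [zero_lt_iff]
    exact (Valuation.ne_zero_iff v).2 (Polynomial.leadingCoeff_ne_zero.2 hr)
  · have key : ∃ i ∈ Finset.range (r.natDegree + 1), ∀ ζ ∈ r.roots, η ≤ v (z (m + i) - ζ) := by
      by_contra hcon
      push Not at hcon
      choose! f hf hf2 using hcon
      have hcard : r.roots.toFinset.card < (Finset.range (r.natDegree + 1)).card := by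
        rw [Finset.card_range]
        have h2 := Multiset.toFinset_card_le r.roots
        have h3 := Polynomial.card_roots' r
        omega
      obtain ⟨i, hi, j, hj, hij, hfe⟩ := Finset.exists_ne_map_eq_of_card_lt_of_maps_to hcard
        (f := f) (fun i hi => by
          have := hf i (by simpa using hi)
          simpa using this)
      have main : ∀ i j : ℕ, i ∈ Finset.range (r.natDegree + 1) →
          j ∈ Finset.range (r.natDegree + 1) → i < j → f i = f j → False := by
        intro i j hi hj hlt he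
        have h2 : v (z (m + j) - z (m + i)) < η := by
          have : z (m + j) - z (m + i) = (z (m + j) - f j) - (z (m + i) - f i) := by
            rw [he]; ring
          rw [this]
          exact Valuation.map_sub_lt v (hf2 j hj) (hf2 i hi)
        have h3 : v (z (m + j) - z (m + i)) = v (z (j - i) - z 0) := by
          have := hiso (m + i) (j - i)
          rw [show m + i + (j - i) = m + j by omega] at this
          exact this
        rw [h3] at h2
        rw [Finset.mem_range] at hj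
        exact absurd (h1 (j - i) (by omega) (by omega)) (not_le.2 h2)
      rcases lt_or_gt_of_ne hij with h | h
      · exact main i j hi hj h hfe
      · exact main j i hj hi h hfe.symm
    obtain ⟨i, _, hi⟩ := key
    refine ⟨m + i, by omega, ?_⟩
    rw [(IsAlgClosed.splits r).eval_eq_prod_roots, map_mul]
    apply mul_le_mul_of_nonneg_left _ zero_le
    rw [map_multiset_prod]
    have h4 := Base_mprod ((r.roots.map (fun a => z (m + i) - a)).map v) η (by
      intro x hx
      rw [Multiset.map_map, Multiset.mem_map] at hx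
      obtain ⟨ζ, hζ, rfl⟩ := hx
      exact hi ζ hζ)
    rw [Multiset.card_map, Multiset.card_map] at h4
    exact h4

/-- independence along the orbit -/
theorem Base_indep {K : Type*} [Field K] [IsAlgClosed K] (v : Valuation K NNReal) (g : NNReal)
    (hg : 1 < g) (x z : ℕ → K) (hz : ∀ m, v (z m) = g) (hx : ∀ m, g ^ m ≤ v (x m))
    (hsep : ∀ k, 1 ≤ k → z k ≠ z 0) (hiso : ∀ m k, v (z (m + k) - z m) = v (z k - z 0))
    (G : Polynomial (Polynomial K)) (hG : G ≠ 0) :
    ∃ m : ℕ, Polynomial.evalEval (z m) (x m) G ≠ 0 := by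
  have hlc : G.coeff G.natDegree ≠ 0 := by
    rw [Polynomial.coeff_natDegree]
    exact Polynomial.leadingCoeff_ne_zero.2 hG
  obtain ⟨δ, hδ, h1⟩ := Base_roots v _ hlc z hsep hiso
  obtain ⟨B, hB⟩ := Base_bound2 v G.coeff g G.natDegree
  obtain ⟨m0, hm0⟩ := pow_unbounded_of_one_lt (B / δ) hg
  obtain ⟨m', hm', hδ'⟩ := h1 m0
  refine ⟨m', fun h0 => ?_⟩
  have hval : Polynomial.evalEval (z m') (x m') G =
      ∑ t ∈ Finset.range (G.natDegree + 1), (G.coeff t).eval (z m') * (x m') ^ t := by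
    rw [Polynomial.evalEval, Polynomial.eval_eq_sum_range (p := G), Polynomial.eval_finsetSum]
    refine Finset.sum_congr rfl (fun t _ => ?_)
    rw [Polynomial.eval_mul, ← Polynomial.C_pow, Polynomial.eval_C]
  have hX : B / δ < v (x m') :=
    lt_of_lt_of_le hm0 (le_trans (pow_le_pow_right₀ hg.le hm') (hx m'))
  have hX1 : 1 ≤ v (x m') := le_trans (one_le_pow₀ hg.le) (hx m')
  have hX0 : 0 < v (x m') := lt_of_lt_of_le one_pos hX1
  have hBX : B < δ * v (x m') := by
    rw [div_lt_iff₀ hδ] at hX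
    rw [mul_comm]
    exact hX
  have hpos : 0 < v ((G.coeff G.natDegree).eval (z m')) := lt_of_lt_of_le hδ hδ'
  have hdom := Base_dom v (Finset.range (G.natDegree + 1))
    (fun t => (G.coeff t).eval (z m') * (x m') ^ t) G.natDegree (Finset.self_mem_range_succ _)
    (by
      rw [map_mul, map_pow]
      exact (mul_pos hpos (pow_pos hX0 _)).ne')
    (by
      intro t ht hne
      rw [Finset.mem_range] at ht
      have htN : t < G.natDegree := by omega
      rw [map_mul, map_pow, map_mul, map_pow]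
      calc v ((G.coeff t).eval (z m')) * v (x m') ^ t ≤ B * v (x m') ^ (G.natDegree - 1) :=
            mul_le_mul (hB t htN _ (hz m')) (pow_le_pow_right₀ hX1 (by omega)) zero_le zero_le
        _ < (δ * v (x m')) * v (x m') ^ (G.natDegree - 1) :=
            mul_lt_mul_of_pos_right hBX (pow_pos hX0 _)
        _ = δ * v (x m') ^ (G.natDegree) := by
            rw [mul_assoc, ← pow_succ']
            congr 2
            omega
        _ ≤ v ((G.coeff G.natDegree).eval (z m')) * v (x m') ^ (G.natDegree) :=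
            mul_le_mul_of_nonneg_right hδ' zero_le)
  rw [← hval, h0, map_zero, map_mul, map_pow] at hdom
  exact absurd hdom.symm (mul_pos hpos (pow_pos hX0 _)).ne'

/-- the sequence `z_m` -/
theorem Base_z {K : Type*} [Field K] [CharZero K] (v : Valuation K NNReal) (g : NNReal)
    (hg : 1 < g) (c d : K) (hc : v c = 1) (hd : v d ≤ 1) (hcd : c ≠ 1 → v (1 - c) = 1)
    (hinf : (c = 1 ∧ d ≠ 0) ∨ (∀ k : ℕ, 1 ≤ k → c ^ k ≠ 1)) (z : ℕ → K) (h0 : v (z 0) = g)
    (hz : ∀ m, z (m + 1) = c * z m + d) : (∀ m, v (z m) = g) ∧ (∀ k, 1 ≤ k → z k ≠ z 0) ∧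
      (∀ m k, v (z (m + k) - z m) = v (z k - z 0)) := by
  refine ⟨?_, ?_, ?_⟩
  · intro m
    induction m with
    | zero => exact h0
    | succ m ih =>
      rw [hz, Valuation.map_add_eq_of_lt_left]
      · rw [map_mul, hc, ih, one_mul]
      · rw [map_mul, hc, ih, one_mul]
        exact lt_of_le_of_lt hd hg
  · intro k hk
    rcases hinf with ⟨h1, h2⟩ | h1
    · have h3 : ∀ k, z k = z 0 + k * d := by
        intro k
        induction k with
        | zero => simp
        | succ k ih =>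
          rw [hz, ih, h1]
          push_cast
          ring
      rw [h3 k]
      intro h
      have h4 : (k : K) * d = 0 := by
        have := add_eq_left.1 h
        exact this
      rcases mul_eq_zero.1 h4 with h5 | h5
      · rw [Nat.cast_eq_zero] at h5
        omega
      · exact h2 h5
    · have hc1 : c ≠ 1 := by
        intro h
        exact h1 1 le_rfl (by rw [h, one_pow])
      have h3 : ∀ k, (1 - c) * z k - d = c ^ k * ((1 - c) * z 0 - d) := by
        intro k
        induction k with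
        | zero => simp
        | succ k ih =>
          rw [hz, pow_succ, mul_right_comm, ← ih]
          ring
      intro h
      have h4 := h3 k
      rw [h] at h4
      have h5 : (c ^ k - 1) * ((1 - c) * z 0 - d) = 0 := by
        rw [sub_mul, ← h4]
        ring
      rcases mul_eq_zero.1 h5 with h6 | h6
      · exact h1 k hk (sub_eq_zero.1 h6)
      · have h7 : v ((1 - c) * z 0) = v d := by rw [sub_eq_zero.1 h6]
        rw [map_mul, hcd hc1, h0, one_mul] at h7
        exact absurd hd (not_le.2 (h7 ▸ hg))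
  · intro m k
    have h1 : ∀ m, z (m + k) - z m = c ^ m * (z k - z 0) := by
      intro m
      induction m with
      | zero => simp
      | succ m ih =>
        rw [show m + 1 + k = (m + k) + 1 by ring, hz, hz, pow_succ, mul_right_comm, ← ih]
        ring
    rw [h1, map_mul, map_pow, hc, one_pow, one_mul]

theorem base_zdo {K : Type*} [Field K] [CharZero K] [IsAlgClosed K] (σ : PAut K 3) (a b c d : K)
    (ha : a ≠ 0) (hb : b ≠ 0) (hc : c ≠ 0)
    (P : MvPolynomial (Fin 2) K) (Q : Polynomial K)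
    (h0 : σ (X 0) = C a * X 1 + aeval ![X 0, X 2] P)
    (h1 : σ (X 1) = C b * X 0 + Polynomial.aeval (X 2) Q) (h2 : σ (X 2) = C c * X 2 + C d)
    (hinf : (c = 1 ∧ d ≠ 0) ∨ (∀ k : ℕ, 1 ≤ k → c ^ k ≠ 1))
    (hP : ∃ α ∈ P.support, 2 ≤ α 0 ∨ (α 0 = 1 ∧ 1 ≤ α 1)) : Zdo σ := by
  classical
  obtain ⟨E, hE⟩ : ∃ E : Finset K, E = ({a, b, c, d, 1 - c} ∪ P.support.image P.coeff ∪
    Q.support.image Q.coeff).erase 0 := ⟨_, rfl⟩
  have hE0 : (0 : K) ∉ E := by rw [hE]; exact Finset.notMem_erase 0 _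
  obtain ⟨p, v, hp, hpv, hu, -⟩ := exists_val E hE0
  have hp0 : (p : K) ≠ 0 := Nat.cast_ne_zero.2 hp.ne_zero
  have hva : v a = 1 := hu a (by rw [hE]; simp [ha])
  have hvb : v b = 1 := hu b (by rw [hE]; simp [hb])
  have hvc : v c = 1 := hu c (by rw [hE]; simp [hc])
  have hvd : v d ≤ 1 := by
    by_cases hd : d = 0
    · rw [hd, map_zero]; exact zero_le
    · exact (hu d (by rw [hE]; simp [hd])).le
  have hvc1 : c ≠ 1 → v (1 - c) = 1 := by
    intro h
    refine hu (1 - c) ?_
    rw [hE]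
    simp [sub_ne_zero.2 (Ne.symm h)]
  have hvP : ∀ β ∈ P.support, v (P.coeff β) = 1 := by
    intro β hβ
    refine hu _ ?_
    rw [hE, Finset.mem_erase]
    refine ⟨MvPolynomial.mem_support_iff.1 hβ, ?_⟩
    exact Finset.mem_union_left _ (Finset.mem_union_right _ (Finset.mem_image_of_mem _ hβ))
  have hvQ : ∀ i, v (Q.coeff i) ≤ 1 := by
    intro i
    by_cases h : Q.coeff i = 0
    · rw [h, map_zero]; exact zero_le
    · refine (hu _ ?_).le
      rw [hE, Finset.mem_erase]
      refine ⟨h, ?_⟩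
      exact Finset.mem_union_right _ (Finset.mem_image_of_mem _ (Polynomial.mem_support_iff.2 h))
  obtain ⟨g, hgdef⟩ : ∃ g : NNReal, g = v ((p : K)⁻¹) := ⟨_, rfl⟩
  have hg : 1 < g := by
    rw [hgdef, map_inv₀]
    exact (one_lt_inv₀ (by rw [zero_lt_iff]; exact (Valuation.ne_zero_iff v).2 hp0)).2 hpv
  obtain ⟨α0, hα0, hα0'⟩ := hP
  obtain ⟨α, hα, hmax⟩ := Base_lexmax P ⟨α0, hα0⟩
  have hαD : 2 ≤ α 0 ∨ (α 0 = 1 ∧ 1 ≤ α 1) := by
    rcases hmax α0 hα0 with h | ⟨h, h'⟩ <;> omega
  obtain ⟨M, hM⟩ : ∃ M : ℕ, M = P.support.sup (fun β => β 1) + Q.natDegree := ⟨_, rfl⟩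
  have hMP : ∀ β ∈ P.support, β 1 ≤ M := by
    intro β hβ
    have h1 := Finset.le_sup (f := fun β : Fin 2 →₀ ℕ => β 1) hβ
    have h2 : β 1 ≤ P.support.sup (fun β => β 1) := h1
    omega
  have hMQ : Q.natDegree ≤ M := by omega
  refine zdo_of_pair_prod σ ![{x | g ^ (M + 1) ≤ v x}, {y | v y ≤ 1}, {z | v z = g}] ?_ ?_
  · have hsep : ∀ i j : ℕ, v ((p : K) ^ i) = v ((p : K) ^ j) → i = j := by
      intro i j h
      rw [map_pow, map_pow] at h
      exact (pow_right_injective₀ (by rw [zero_lt_iff]; exact (Valuation.ne_zero_iff v).2 hp0)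
        hpv.ne) h
    intro i
    fin_cases i
    · apply Set.infinite_of_injective_forall_mem (f := fun k : ℕ => ((p : K)⁻¹) ^ (M + 1 + k))
      · intro i j h
        have h2 : ((p : K)⁻¹) ^ (M + 1 + i) = ((p : K)⁻¹) ^ (M + 1 + j) := h
        have h3 := congrArg v h2
        rw [inv_pow, inv_pow, map_inv₀, map_inv₀, inv_inj] at h3
        have := hsep _ _ h3
        omega
      · intro k
        show g ^ (M + 1) ≤ v (((p : K)⁻¹) ^ (M + 1 + k))
        rw [map_pow, ← hgdef]
        exact pow_le_pow_right₀ hg.le (by omega)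
    · apply Set.infinite_of_injective_forall_mem (f := fun k : ℕ => (p : K) ^ k)
      · intro i j h
        exact hsep i j (congrArg v h)
      · intro k
        show v ((p : K) ^ k) ≤ 1
        rw [map_pow]
        exact pow_le_one₀ zero_le hpv.le
    · refine Set.Infinite.mono ?_ (ball_infinite v (p : K) hp0 hpv ((p : K)⁻¹) g
        (lt_trans one_pos hg))
      intro z hz
      have hz' : v (z - (p : K)⁻¹) < g := hz
      show v z = g
      have h1 : z = (p : K)⁻¹ + (z - (p : K)⁻¹) := by ring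
      rw [h1, Valuation.map_add_eq_of_lt_left]
      · exact hgdef.symm
      · rw [← hgdef]; exact hz'
  · intro P0 hP0
    have hx0 : g ^ (M + 1) ≤ v (P0 0) := hP0 0
    have hy0 : v (P0 1) ≤ 1 := hP0 1
    have hz0 : v (P0 2) = g := hP0 2
    have ex : ∀ m, orb σ P0 (m + 1) 0 = a * orb σ P0 m 1 +
        eval ![orb σ P0 m 0, orb σ P0 m 2] P := by
      intro m
      rw [orb_succ_apply, h0, map_add, map_mul, eval_C, eval_X]
      congr 1
      have h1 : (eval (orb σ P0 m)) ((aeval ![X 0, X 2]) P) =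
          aeval (fun i => eval (orb σ P0 m) ((![X 0, X 2] : Fin 2 → MvPolynomial (Fin 3) K) i)) P := by
        rw [← MvPolynomial.coe_aeval_eq_eval]
        exact (congrArg (fun φ : MvPolynomial (Fin 2) K →ₐ[K] K => φ P)
          (MvPolynomial.comp_aeval (![X 0, X 2] : Fin 2 → MvPolynomial (Fin 3) K)
            (aeval (orb σ P0 m)))).trans rfl
      rw [h1, MvPolynomial.aeval_eq_eval]
      have h2 : (fun i => eval (orb σ P0 m) ((![X 0, X 2] : Fin 2 → MvPolynomial (Fin 3) K) i)) =
          ![orb σ P0 m 0, orb σ P0 m 2] := by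
        funext i
        fin_cases i
        · exact eval_X _
        · exact eval_X _
      rw [h2]
    have ey : ∀ m, orb σ P0 (m + 1) 1 = b * orb σ P0 m 0 + Q.eval (orb σ P0 m 2) := by
      intro m
      rw [orb_succ_apply, h1, map_add, map_mul, eval_C, eval_X]
      congr 1
      rw [← MvPolynomial.coe_aeval_eq_eval]
      have h3 := (Polynomial.aeval_algHom_apply (aeval (orb σ P0 m) : MvPolynomial (Fin 3) K →ₐ[K] K)
        (X 2) Q).symm
      refine h3.trans ?_
      rw [aeval_X, Polynomial.coe_aeval_eq_eval]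
    have ez : ∀ m, orb σ P0 (m + 1) 2 = c * orb σ P0 m 2 + d := by
      intro m
      rw [orb_succ_apply, h2, map_add, map_mul, eval_C, eval_X, eval_C]
    obtain ⟨hzg, hzsep, hziso⟩ := Base_z v g hg c d hvc hvd hvc1 hinf (fun m => orb σ P0 m 2)
      hz0 ez
    have hmain : ∀ m, g ^ (M + 1 + m) ≤ v (orb σ P0 m 0) ∧ v (orb σ P0 m 1) ≤ v (orb σ P0 m 0) := by
      intro m
      induction m with
      | zero =>
        refine ⟨hx0, ?_⟩
        exact hy0.trans ((one_le_pow₀ hg.le).trans hx0)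
      | succ m ih =>
        obtain ⟨ih1, ih2⟩ := ih
        obtain ⟨Y, hY⟩ : ∃ Y : NNReal, Y = v (orb σ P0 m 0) := ⟨_, rfl⟩
        rw [← hY] at ih1 ih2
        have hYM : g ^ (M + 1) ≤ Y := (pow_le_pow_right₀ hg.le (by omega)).trans ih1
        have hY1 : 1 < Y := lt_of_lt_of_le (one_lt_pow₀ hg (by omega)) hYM
        have hgY : g ≤ Y := by
          refine le_trans ?_ hYM
          exact le_self_pow₀ hg.le (by omega)
        have hPv := Base_valP v P hvP α hα hmax M hMP g Y hg (orb σ P0 m 0) (orb σ P0 m 2)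
          hY.symm (hzg m) hYM
        have hbig : g * Y ≤ Y ^ (α 0) * g ^ (α 1) := by
          rcases hαD with h | ⟨h, h'⟩
          · calc g * Y ≤ Y * Y := mul_le_mul_of_nonneg_right hgY zero_le
              _ = Y ^ 2 := by ring
              _ ≤ Y ^ (α 0) := pow_le_pow_right₀ hY1.le h
              _ ≤ Y ^ (α 0) * g ^ (α 1) := le_mul_of_one_le_right zero_le (one_le_pow₀ hg.le)
          · rw [h, pow_one, mul_comm]
            apply mul_le_mul_of_nonneg_left _ zero_le
            exact le_self_pow₀ hg.le (by omega)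
        have hYgY : Y < g * Y := by
          have : 1 * Y < g * Y := mul_lt_mul_of_pos_right hg (lt_trans one_pos hY1)
          rwa [one_mul] at this
        have hx1 : v (orb σ P0 (m + 1) 0) = Y ^ (α 0) * g ^ (α 1) := by
          rw [ex, Valuation.map_add_eq_of_lt_right, hPv]
          rw [hPv, map_mul, hva, one_mul]
          exact lt_of_le_of_lt ih2 (lt_of_lt_of_le hYgY hbig)
        have hy1 : v (orb σ P0 (m + 1) 1) ≤ Y := by
          rw [ey]
          apply Valuation.map_add_le
          · rw [map_mul, hvb, one_mul, hY]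
          · refine (Base_valQ v Q hvQ M hMQ g hg _ (hzg m)).trans ?_
            exact (pow_le_pow_right₀ hg.le (Nat.le_succ M)).trans hYM
        refine ⟨?_, ?_⟩
        · rw [hx1]
          refine le_trans ?_ hbig
          rw [show M + 1 + (m + 1) = (M + 1 + m) + 1 by ring, pow_succ, mul_comm]
          exact mul_le_mul_of_nonneg_left ih1 zero_le
        · rw [hx1]
          exact hy1.trans (hYgY.le.trans hbig)
    refine ⟨0, 2, by decide, fun G hG => ?_⟩
    exact Base_indep v g hg (fun m => orb σ P0 m 0) (fun m => orb σ P0 m 2) hzg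
      (fun m => (pow_le_pow_right₀ hg.le (by omega)).trans (hmain m).1) hzsep hziso G hG

end ZD85
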