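import Pool.Agent.H85.ZD.AffDefs

/-!
# ZD Bruhat : Bruhat decomposition and triangular maps (row `Bruhat`)

`isTriangular_mul`: the product of two triangular automorphisms is triangular (substitute:
`(τ₁ * τ₂)(X 0) = τ₁(C a₂ X 0 + P₂(X 1, X 2)) = C a₂ (C a₁ X 0 + P₁(X 1, X 2)) + P₂(C b₁ X 1 + Q₁(X 2), C c₁ X 2 + C d₁)`
etc.; the new `P`, `Q` are explicit: `P = C a₂ * P₁ + aeval ![C b₁ * X 0 + Polynomial.aeval (X 1) Q₁, C c₁ * X 1 + C d₁] P₂`,
`Q = C b₂ * Q₁ + Q₂.comp (C c₁ * X + C d₁)`, ...).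

`bruhat_matrix`: every invertible `3 × 3` matrix over a field is `U₁ * (permutation matrix) * U₂` with `U₁, U₂` invertible
upper triangular.  Proof for general `n` by induction or, for `3`, by elimination: take the lowest non-zero entry of the
first column (row `r`); adding multiples of row `r` to higher rows (left multiplication by upper triangular) and
multiples of column 1 to the columns to the right (right multiplication by upper triangular) clears the rest of
column 1 and of row `r`; continue with the remaining `2 × 2` block.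

`affine_decomp`: an affine automorphism `α` (`IsAffine`) is `β₂ * ω * β₁` with `β₁, β₂` triangular and
`ω (X i) = X (π i)` for a permutation `π` (`ω = renameEquiv K π`).
Proof: `α (X i) = ∑_j M i j X j + t_i` with `M` invertible (a relation `∑ c_i M i j = 0` for all `j` gives
`α (∑ c_i X i) = ∑ c_i t_i` constant, so `∑ c_i X i` is constant, `c = 0`).  As point maps
`pmap (σ * τ) = pmap τ ∘ pmap σ` and `pmap α P = M P + t`.  With `M = U₁ W U₂` take `pmap β₂ = (P ↦ U₂ P)`,
`pmap ω = W`, `pmap β₁ = (P ↦ U₁ P + t)`.  In terms of substitutions: `β₂ (X i) = ∑_j U₂ i j X j`,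
`ω (X i) = X (π i)` where `W i j = 1` iff `j = π i`, `β₁ (X i) = ∑_j U₁ i j X j + t_i`; then
`β₂ (ω (β₁ (X i))) = ∑_j (U₁ W U₂) i j X j + t_i`.  The automorphisms `β₁, β₂` are built with
`AlgEquiv.ofAlgHom` from the inverse matrices (the inverse of an upper triangular matrix is used only as an inverse).
-/

set_option autoImplicit false

namespace ZD85

open MvPolynomial

theorem isTriangular_mul {K : Type*} [Field K] (τ₁ τ₂ : PAut K 3) (h1 : IsTriangular τ₁)
    (h2 : IsTriangular τ₂) : IsTriangular (τ₁ * τ₂) := by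
  obtain ⟨a₁, b₁, c₁, d₁, P₁, Q₁, ha₁, hb₁, hc₁, e10, e11, e12⟩ := h1
  obtain ⟨a₂, b₂, c₂, d₂, P₂, Q₂, ha₂, hb₂, hc₂, e20, e21, e22⟩ := h2
  have hC : ∀ r : K, τ₁ (C r) = C r := fun r => τ₁.commutes r
  refine ⟨a₂ * a₁, b₂ * b₁, c₂ * c₁, c₂ * d₁ + d₂,
    C a₂ * P₁ + aeval ![C b₁ * X 0 + Polynomial.aeval (X 1) Q₁, C c₁ * X 1 + C d₁] P₂,
    Polynomial.C b₂ * Q₁ + Q₂.comp (Polynomial.C c₁ * Polynomial.X + Polynomial.C d₁),
    mul_ne_zero ha₂ ha₁, mul_ne_zero hb₂ hb₁, mul_ne_zero hc₂ hc₁, ?_, ?_, ?_⟩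
  · have h3 : τ₁ (aeval ![X 1, X 2] P₂) =
        aeval (fun i => τ₁.toAlgHom ((![X 1, X 2] : Fin 2 → MvPolynomial (Fin 3) K) i)) P₂ :=
      comp_aeval_apply ![X 1, X 2] τ₁.toAlgHom P₂
    have h4 := comp_aeval_apply
      (![C b₁ * X 0 + Polynomial.aeval (X 1) Q₁, C c₁ * X 1 + C d₁] :
        Fin 2 → MvPolynomial (Fin 2) K)
      (aeval (R := K) (![X 1, X 2] : Fin 2 → MvPolynomial (Fin 3) K)) P₂
    have h5 : (fun i => τ₁.toAlgHom ((![X 1, X 2] : Fin 2 → MvPolynomial (Fin 3) K) i)) =
        fun i => (aeval (R := K) (![X 1, X 2] : Fin 2 → MvPolynomial (Fin 3) K))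
          ((![C b₁ * X 0 + Polynomial.aeval (X 1) Q₁, C c₁ * X 1 + C d₁] :
            Fin 2 → MvPolynomial (Fin 2) K) i) := by
      funext i
      fin_cases i
      · have h6 := Polynomial.aeval_algHom_apply
          (aeval (R := K) (![X 1, X 2] : Fin 2 → MvPolynomial (Fin 3) K))
          (X 1 : MvPolynomial (Fin 2) K) Q₁
        simp only [aeval_X, Matrix.cons_val_one, Matrix.cons_val_fin_one] at h6
        change τ₁ (X 1) = (aeval (R := K) (![X 1, X 2] : Fin 2 → MvPolynomial (Fin 3) K))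
          (C b₁ * X 0 + Polynomial.aeval (X 1) Q₁)
        rw [map_add, ← h6, map_mul, e11]
        simp [algebraMap_eq]
      · change τ₁ (X 2) = (aeval (R := K) (![X 1, X 2] : Fin 2 → MvPolynomial (Fin 3) K))
          (C c₁ * X 1 + C d₁)
        rw [map_add, map_mul, e12]
        simp [algebraMap_eq]
    change τ₁ (τ₂ (X 0)) = _
    rw [e20, map_add, map_mul, hC, h3, h5, e10, map_add, h4]
    simp only [map_mul, aeval_C, algebraMap_eq]
    ring
  · change τ₁ (τ₂ (X 1)) = _
    have h6 : τ₁ (Polynomial.aeval (X 2) Q₂) = Polynomial.aeval (τ₁ (X 2)) Q₂ :=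
      (Polynomial.aeval_algHom_apply τ₁.toAlgHom (X 2 : MvPolynomial (Fin 3) K) Q₂).symm
    rw [e21, map_add, map_mul, hC, h6, e11, e12, map_add, Polynomial.aeval_comp]
    simp only [map_mul, map_add, Polynomial.aeval_C, Polynomial.aeval_X, algebraMap_eq]
    ring
  · change τ₁ (τ₂ (X 2)) = _
    rw [e22, map_add, map_mul, hC, hC, e12]
    simp only [C_mul, C_add]
    ring

theorem Bruhat_first {K : Type*} [Field K] (r : Fin 3 → K) (h : r ≠ 0) :
    ∃ p : Fin 3, r p ≠ 0 ∧ ∀ j, j < p → r j = 0 := by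
  by_cases h0 : r 0 = 0
  · by_cases h1 : r 1 = 0
    · refine ⟨2, ?_, ?_⟩
      · intro h2
        apply h
        funext i
        fin_cases i
        · exact h0
        · exact h1
        · exact h2
      · intro j hj
        fin_cases j
        · exact h0
        · exact h1
        · exact absurd hj (lt_irrefl _)
    · refine ⟨1, h1, ?_⟩
      intro j hj
      fin_cases j
      · exact h0
      · exact absurd hj (lt_irrefl _)
      · exact absurd hj (by decide)
  · refine ⟨0, h0, ?_⟩
    intro j hj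
    exact absurd hj (Fin.not_lt_zero j)

theorem bruhat_matrix {K : Type*} [Field K] (M : Matrix (Fin 3) (Fin 3) K) (hM : IsUnit M.det) :
    ∃ (U₁ U₂ : Matrix (Fin 3) (Fin 3) K) (π : Equiv.Perm (Fin 3)),
      (∀ i j, j < i → U₁ i j = 0) ∧ (∀ i j, j < i → U₂ i j = 0) ∧
      (∀ i, U₁ i i ≠ 0) ∧ (∀ i, U₂ i i ≠ 0) ∧
      M = U₁ * (Matrix.of fun i j => if j = π i then 1 else 0) * U₂ := by
  have hd : M.det ≠ 0 := hM.ne_zero
  -- a combination of the rows with a coefficient one is not zero
  have hrow : ∀ v : Fin 3 → K, v ≠ 0 → (fun j => ∑ i, v i * M i j) ≠ 0 := by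
    intro v hv h
    apply hv
    apply Matrix.eq_zero_of_vecMul_eq_zero hd
    funext j
    exact congrFun h j
  have hr2 : (fun j => M 2 j) ≠ 0 := by
    have h := hrow ![0, 0, 1] (fun h => one_ne_zero (congrFun h 2))
    intro h'
    apply h
    funext j
    have h'' := congrFun h' j
    simpa [Fin.sum_univ_three] using h''
  obtain ⟨p2, hp2, hp2'⟩ := Bruhat_first _ hr2
  have hp2 : M 2 p2 ≠ 0 := hp2
  have hp2' : ∀ j, j < p2 → M 2 j = 0 := hp2'
  obtain ⟨α, hα⟩ : ∃ α : K, M 1 p2 - α * M 2 p2 = 0 := ⟨M 1 p2 / M 2 p2, by field_simp; ring⟩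
  obtain ⟨r1, hr1⟩ : ∃ r1 : Fin 3 → K, ∀ j, r1 j = M 1 j - α * M 2 j :=
    ⟨fun j => M 1 j - α * M 2 j, fun _ => rfl⟩
  have hr1n : r1 ≠ 0 := by
    have h := hrow ![0, 1, -α] (fun h => one_ne_zero (congrFun h 1))
    intro h'
    apply h
    funext j
    have h'' := congrFun h' j
    rw [hr1] at h''
    simp only [Pi.zero_apply] at h'' ⊢
    have h3 : ∑ i, (![0, 1, -α] : Fin 3 → K) i * M i j = M 1 j - α * M 2 j := by
      simp [Fin.sum_univ_three]
      ring
    rw [h3, h'']
  obtain ⟨p1, hp1, hp1'⟩ := Bruhat_first _ hr1n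
  have hr12 : r1 p2 = 0 := by rw [hr1]; exact hα
  obtain ⟨γ, hγ⟩ : ∃ γ : K, M 0 p2 - γ * M 2 p2 = 0 := ⟨M 0 p2 / M 2 p2, by field_simp; ring⟩
  obtain ⟨β, hβ⟩ : ∃ β : K, M 0 p1 - γ * M 2 p1 - β * r1 p1 = 0 :=
    ⟨(M 0 p1 - γ * M 2 p1) / r1 p1, by field_simp; ring⟩
  obtain ⟨r0, hr0⟩ : ∃ r0 : Fin 3 → K, ∀ j, r0 j = M 0 j - γ * M 2 j - β * r1 j :=
    ⟨fun j => M 0 j - γ * M 2 j - β * r1 j, fun _ => rfl⟩
  have hr0n : r0 ≠ 0 := by
    have h := hrow ![1, -β, β * α - γ] (fun h => one_ne_zero (congrFun h 0))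
    intro h'
    apply h
    funext j
    have h'' := congrFun h' j
    rw [hr0, hr1] at h''
    simp only [Pi.zero_apply] at h'' ⊢
    have h3 : ∑ i, (![1, -β, β * α - γ] : Fin 3 → K) i * M i j =
        M 0 j - γ * M 2 j - β * (M 1 j - α * M 2 j) := by
      simp [Fin.sum_univ_three]
      ring
    rw [h3, h'']
  obtain ⟨p0, hp0, hp0'⟩ := Bruhat_first _ hr0n
  have hr02 : r0 p2 = 0 := by
    rw [hr0, hr12]
    linear_combination hγ
  have hr01 : r0 p1 = 0 := by
    rw [hr0]
    exact hβ
  have h12 : p1 ≠ p2 := fun h => hp1 (by rw [h]; exact hr12)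
  have h02 : p0 ≠ p2 := fun h => hp0 (by rw [h]; exact hr02)
  have h01 : p0 ≠ p1 := fun h => hp0 (by rw [h]; exact hr01)
  obtain ⟨r, hr⟩ : ∃ r : Fin 3 → Fin 3 → K, r = ![r0, r1, M 2] := ⟨_, rfl⟩
  obtain ⟨p, hp⟩ : ∃ p : Fin 3 → Fin 3, p = ![p0, p1, p2] := ⟨_, rfl⟩
  have hinj : Function.Injective p := by
    intro i j hij
    rw [hp] at hij
    fin_cases i <;> fin_cases j <;> simp at hij ⊢ <;>
      first
        | exact absurd hij h01
        | exact absurd hij h02
        | exact absurd hij h12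
        | exact absurd hij.symm h01
        | exact absurd hij.symm h02
        | exact absurd hij.symm h12
  have hbij : Function.Bijective p := Finite.injective_iff_bijective.mp hinj
  have hnz : ∀ i, r i (p i) ≠ 0 := by
    intro i
    rw [hr, hp]
    fin_cases i
    · exact hp0
    · exact hp1
    · exact hp2
  have hz : ∀ i j, j < p i → r i j = 0 := by
    intro i
    rw [hr, hp]
    fin_cases i
    · exact hp0'
    · exact hp1'
    · exact hp2'
  obtain ⟨π, hπ⟩ : ∃ π : Equiv.Perm (Fin 3), ∀ i, π i = p i :=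
    ⟨Equiv.ofBijective p hbij, fun _ => rfl⟩
  refine ⟨Matrix.of ![![1, β, γ], ![0, 1, α], ![0, 0, 1]], Matrix.of fun k j => r (π.symm k) j,
    π, ?_, ?_, ?_, ?_, ?_⟩
  · intro i j hij
    fin_cases i <;> fin_cases j <;> first | rfl | exact absurd hij (by decide)
  · intro k j hjk
    simp only [Matrix.of_apply]
    apply hz
    rw [← hπ, Equiv.apply_symm_apply]
    exact hjk
  · intro i
    fin_cases i <;> exact one_ne_zero
  · intro k
    simp only [Matrix.of_apply]
    have h := hnz (π.symm k)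
    rw [← hπ, Equiv.apply_symm_apply] at h
    exact h
  · rw [Matrix.mul_assoc]
    have h1 : (Matrix.of fun i j => if j = π i then (1 : K) else 0) *
        (Matrix.of fun k j => r (π.symm k) j) = Matrix.of r := by
      ext i j
      rw [Matrix.mul_apply]
      simp [Finset.sum_ite_eq', ite_mul]
    rw [h1]
    ext i j
    rw [Matrix.mul_apply, Fin.sum_univ_three]
    fin_cases i
    · simp [hr, hr0]
    · simp [hr, hr1]
    · simp [hr]

theorem Bruhat_lin {K : Type*} [Field K] (F : MvPolynomial (Fin 3) K) (h : F.totalDegree ≤ 1) :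
    F = ∑ j, C (coeff (Finsupp.single j 1) F) * X j + C (coeff 0 F) := by
  ext m
  rw [coeff_add, coeff_sum]
  simp only [coeff_C_mul, coeff_X, coeff_C]
  by_cases hm : m = 0
  · subst hm
    have h0 : ∀ j : Fin 3, Finsupp.single j 1 ≠ (0 : Fin 3 →₀ ℕ) := by
      intro j
      simp
    simp [h0]
  · rw [if_neg (fun h => hm h.symm), add_zero]
    by_cases h1 : ∃ j : Fin 3, Finsupp.single j 1 = m
    · obtain ⟨j, rfl⟩ := h1
      rw [Finset.sum_eq_single j]
      · simp
      · intro b _ hb
        rw [if_neg, mul_zero]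
        intro h2
        exact hb (Finsupp.single_left_injective one_ne_zero h2)
      · intro h2
        exact absurd (Finset.mem_univ j) h2
    · push Not at h1
      rw [Finset.sum_eq_zero]
      · by_contra hc
        have hms : m ∈ F.support := mem_support_iff.mpr hc
        have h2 : (m.sum fun _ e => e) ≤ 1 := (le_totalDegree hms).trans h
        have h3 : m.sum (fun _ e => e) = ∑ i : Fin 3, m i := Finsupp.sum_fintype _ _ (fun _ => rfl)
        rw [h3] at h2
        obtain ⟨j, hj⟩ : ∃ j, m j ≠ 0 := by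
          by_contra hcon
          push Not at hcon
          exact hm (Finsupp.ext hcon)
        apply h1 j
        ext i
        rw [Fin.sum_univ_three] at h2
        have h4 : ∀ k : Fin 3, k ≠ j → m k = 0 := by
          intro k hk
          fin_cases j <;> fin_cases k <;>
            first
              | exact absurd rfl hk
              | (simp only [Fin.zero_eta, Fin.mk_one, Fin.reduceFinMk] at hj ⊢; omega)
        have h5 : m j = 1 := by
          fin_cases j <;> (simp only [Fin.zero_eta, Fin.mk_one, Fin.reduceFinMk] at hj ⊢; omega)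
        by_cases hij : i = j
        · subst hij
          simp [h5]
        · rw [Finsupp.single_eq_of_ne hij, h4 i hij]
      · intro j _
        rw [if_neg (h1 j), mul_zero]

/-- the affine automorphism with an invertible matrix -/
theorem Bruhat_aff {K : Type*} [Field K] (N : Matrix (Fin 3) (Fin 3) K) (hN : IsUnit N.det)
    (t : Fin 3 → K) :
    ∃ β : PAut K 3, ∀ i, β (X i) = ∑ j, C (N i j) * X j + C (t i) := by
  have key : ∀ (A B : Matrix (Fin 3) (Fin 3) K) (hAB : A * B = 1)
      (x : Fin 3 → MvPolynomial (Fin 3) K) (i : Fin 3),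
      ∑ j, C (A i j) * ∑ k, C (B j k) * x k = x i := by
    intro A B hAB x i
    have h1 : ∀ k, ∑ j, A i j * B j k = if i = k then 1 else 0 := by
      intro k
      have h2 := congrFun (congrFun hAB i) k
      rw [Matrix.mul_apply, Matrix.one_apply] at h2
      exact h2
    calc ∑ j, C (A i j) * ∑ k, C (B j k) * x k
        = ∑ k, C (∑ j, A i j * B j k) * x k := by
          simp only [Finset.mul_sum]
          rw [Finset.sum_comm]
          apply Finset.sum_congr rfl
          intro k _
          rw [map_sum, Finset.sum_mul]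
          apply Finset.sum_congr rfl
          intro j _
          rw [C_mul]
          ring
      _ = x i := by
          simp only [h1]
          rw [Finset.sum_eq_single i]
          · simp
          · intro b _ hb
            rw [if_neg (fun h => hb h.symm), C_0, zero_mul]
          · intro h2
            exact absurd (Finset.mem_univ i) h2
  have hC : ∀ (f : Fin 3 → MvPolynomial (Fin 3) K) (r : K), aeval (R := K) f (C r) = C r := by
    intro f r
    rw [aeval_C, algebraMap_eq]
  refine ⟨AlgEquiv.ofAlgHom (aeval fun i => ∑ j, C (N i j) * X j + C (t i))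
    (aeval fun i => ∑ j, C (N⁻¹ i j) * (X j - C (t j))) ?_ ?_, ?_⟩
  · apply algHom_ext
    intro i
    rw [AlgHom.comp_apply, aeval_X, map_sum]
    simp only [map_mul, map_sub, hC, aeval_X, add_sub_cancel_right, AlgHom.id_apply]
    exact key _ _ (Matrix.nonsing_inv_mul N hN) X i
  · apply algHom_ext
    intro i
    rw [AlgHom.comp_apply, aeval_X, map_add, map_sum]
    simp only [map_mul, hC, aeval_X, AlgHom.id_apply]
    rw [key _ _ (Matrix.mul_nonsing_inv N hN) (fun k => X k - C (t k)) i]
    ring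
  · intro i
    simp

theorem Bruhat_det {K : Type*} [Field K] (U : Matrix (Fin 3) (Fin 3) K)
    (h : ∀ i j, j < i → U i j = 0) (hd : ∀ i, U i i ≠ 0) : IsUnit U.det := by
  have h1 : U.BlockTriangular id := fun i j hij => h i j hij
  rw [Matrix.det_of_isUpperTriangular h1]
  exact (Finset.prod_ne_zero_iff.mpr fun i _ => hd i).isUnit

theorem Bruhat_tri {K : Type*} [Field K] (U : Matrix (Fin 3) (Fin 3) K)
    (h : ∀ i j, j < i → U i j = 0) (hd : ∀ i, U i i ≠ 0) (t : Fin 3 → K) (β : PAut K 3)
    (hβ : ∀ i, β (X i) = ∑ j, C (U i j) * X j + C (t i)) : IsTriangular β := by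
  refine ⟨U 0 0, U 1 1, U 2 2, t 2, C (U 0 1) * X 0 + C (U 0 2) * X 1 + C (t 0),
    Polynomial.C (U 1 2) * Polynomial.X + Polynomial.C (t 1), hd 0, hd 1, hd 2, ?_, ?_, ?_⟩
  · rw [hβ, Fin.sum_univ_three]
    simp only [map_add, map_mul, aeval_C, aeval_X, algebraMap_eq, Matrix.cons_val_zero,
      Matrix.cons_val_one, Matrix.cons_val_fin_one]
    ring
  · rw [hβ, Fin.sum_univ_three, h 1 0 (by decide)]
    simp only [map_add, map_mul, Polynomial.aeval_C, Polynomial.aeval_X, algebraMap_eq, C_0]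
    ring
  · rw [hβ, Fin.sum_univ_three, h 2 0 (by decide), h 2 1 (by decide)]
    simp only [C_0]
    ring

theorem affine_decomp {K : Type*} [Field K] (α : PAut K 3) (h : IsAffine α) :
    ∃ (β₁ β₂ ω : PAut K 3) (π : Equiv.Perm (Fin 3)), IsTriangular β₁ ∧ IsTriangular β₂ ∧
      (∀ i, ω (X i) = X (π i)) ∧ α = β₂ * ω * β₁ := by
  obtain ⟨M, hM⟩ : ∃ M : Matrix (Fin 3) (Fin 3) K,
      ∀ i j, M i j = coeff (Finsupp.single j 1) (α (X i)) :=
    ⟨Matrix.of fun i j => coeff (Finsupp.single j 1) (α (X i)), fun _ _ => rfl⟩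
  obtain ⟨t, ht⟩ : ∃ t : Fin 3 → K, ∀ i, t i = coeff 0 (α (X i)) :=
    ⟨fun i => coeff 0 (α (X i)), fun _ => rfl⟩
  have hα : ∀ i, α (X i) = ∑ j, C (M i j) * X j + C (t i) := by
    intro i
    simp only [hM, ht]
    exact Bruhat_lin _ (h i)
  have hC : ∀ (σ : PAut K 3) (r : K), σ (C r) = C r := fun σ r => σ.commutes r
  have hdet : IsUnit M.det := by
    rw [isUnit_iff_ne_zero]
    intro h0
    obtain ⟨v, hv, hv0⟩ := Matrix.exists_vecMul_eq_zero_iff.mpr h0
    have h1 : ∀ j, ∑ i, v i * M i j = 0 := fun j => congrFun hv0 j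
    have h2 : α (∑ i, C (v i) * X i) = α (C (∑ i, v i * t i)) := by
      rw [hC, map_sum]
      simp only [map_mul, hC, hα, mul_add, Finset.sum_add_distrib, Finset.mul_sum]
      rw [Finset.sum_comm]
      have h3 : ∀ j : Fin 3, ∑ i, C (v i) * (C (M i j) * X j) = (0 : MvPolynomial (Fin 3) K) := by
        intro j
        have h4 : ∑ i, C (v i) * (C (M i j) * X j) =
            (C (∑ i, v i * M i j) * X j : MvPolynomial (Fin 3) K) := by
          rw [map_sum, Finset.sum_mul]
          apply Finset.sum_congr rfl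
          intro i _
          rw [C_mul]
          ring
        rw [h4, h1, C_0, zero_mul]
      simp only [h3, Finset.sum_const_zero, zero_add]
      rw [map_sum]
      simp only [C_mul]
    have h5 := α.injective h2
    apply hv
    funext k
    have h6 := congrArg (coeff (Finsupp.single k 1)) h5
    rw [coeff_sum] at h6
    simp only [coeff_C_mul, coeff_X, coeff_C] at h6
    rw [Finset.sum_eq_single k] at h6
    · have h60 : (0 : Fin 3 →₀ ℕ) ≠ Finsupp.single k 1 := by
        intro h61
        have h62 := DFunLike.congr_fun h61 k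
        simp at h62
      rw [if_neg h60, if_pos rfl, mul_one] at h6
      exact h6
    · intro b _ hb
      rw [if_neg, mul_zero]
      intro h7
      exact hb (Finsupp.single_left_injective one_ne_zero h7)
    · intro h7
      exact absurd (Finset.mem_univ k) h7
  obtain ⟨U₁, U₂, π, hU₁, hU₂, hd₁, hd₂, hMU⟩ := bruhat_matrix M hdet
  obtain ⟨β₁, hβ₁⟩ := Bruhat_aff U₁ (Bruhat_det U₁ hU₁ hd₁) t
  obtain ⟨β₂, hβ₂⟩ := Bruhat_aff U₂ (Bruhat_det U₂ hU₂ hd₂) 0
  refine ⟨β₁, β₂, renameEquiv K π, π, Bruhat_tri U₁ hU₁ hd₁ t β₁ hβ₁,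
    Bruhat_tri U₂ hU₂ hd₂ 0 β₂ hβ₂, ?_, ?_⟩
  · intro i
    simp
  · have h8 : α.toAlgHom = (β₂ * renameEquiv K π * β₁).toAlgHom := by
      apply algHom_ext
      intro i
      change α (X i) = β₂ ((renameEquiv K π) (β₁ (X i)))
      have hω : ∀ r : K, (renameEquiv K π) (C r) = C r := fun r => (renameEquiv K π).commutes r
      have hωX : ∀ j : Fin 3, (renameEquiv K π) (X j) = (X (π j) : MvPolynomial (Fin 3) K) := by
        intro j
        simp
      rw [hα, hβ₁, map_add, hω, map_add, hC, map_sum, map_sum]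
      congr 1
      simp only [map_mul, hω, hωX, hC, hβ₂, Pi.zero_apply, C_0, add_zero]
      have h9 : ∀ k, M i k = ∑ j, U₁ i j * U₂ (π j) k := by
        intro k
        rw [hMU, Matrix.mul_assoc, Matrix.mul_apply]
        apply Finset.sum_congr rfl
        intro j _
        rw [Matrix.mul_apply]
        congr 1
        rw [Finset.sum_eq_single (π j)]
        · simp
        · intro b _ hb
          simp [hb]
        · intro h7
          exact absurd (Finset.mem_univ _) h7
      simp only [h9, Finset.mul_sum, map_sum, Finset.sum_mul]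
      rw [Finset.sum_comm]
      apply Finset.sum_congr rfl
      intro j _
      apply Finset.sum_congr rfl
      intro k _
      rw [C_mul]
      ring
    ext1 F
    exact congrArg (fun g : MvPolynomial (Fin 3) K →ₐ[K] MvPolynomial (Fin 3) K => g F) h8

end ZD85
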