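import Pool.Agent.H85.ZD.Defs

/-!
# ZD CommonFac : a common prime factor (row `CommonFac`)

Notation: `R` a UFD, `I` a non-zero ideal of `R[X]` containing no non-zero constant.

Proof of `common_factor`.
Choose `G ∈ I`, `G ≠ 0`, of minimal `natDegree d` (well-founded minimum).  `d ≥ 1`, otherwise `G = C r`
with `r ≠ 0`, against `h`.  Let `c = G.leadingCoeff ≠ 0`.
Claim: for every `H ∈ I` there is `e` with `G ∣ C c ^ e * H`.  Strong induction on `H.natDegree`
(`H = 0` trivial): if `H.natDegree < d` then `H = 0` by minimality.  Otherwise put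
`H' = C c * H - C H.leadingCoeff * X ^ (H.natDegree - d) * G`, which lies in `I` and is `0` or has smaller
`natDegree` (leading terms cancel; `Polynomial.degree_sub_lt`); `G ∣ C c ^ e * H'` gives `G ∣ C c ^ (e+1) * H`.
Let `π` be a prime factor of `G` with `natDegree π ≥ 1`: it exists, since otherwise all factors in a
factorisation of `G` into primes (`Polynomial R` is a UFD) have `natDegree 0` and `natDegree G = 0`
(`Polynomial.natDegree_mul` in a domain, induction over the multiset of factors).
`π ∣ C c ^ e * H`, `π` prime, and `π ∤ C c` (if `C c = π * u` then `0 = natDegree π + natDegree u`), so `π ∣ H`.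

Proof of `common_factor_mv`: transport by the equivalence
`e = (renameEquiv K (Equiv.optionSubtypeNe j).symm).trans (optionEquivLeft K {i // i ≠ j})` from
`MvPolynomial (Fin n) K` to `Polynomial (MvPolynomial {i // i ≠ j} K)` (see Mathlib
`FieldTheory/SeparablyGenerated.lean` for the same equivalence); `e (rename Subtype.val G) = Polynomial.C G`.
Use `I.map e` (or `I.comap e.symm`), then pull `π` back with `e.symm` (a ring isomorphism preserves `Prime`).
-/

set_option autoImplicit false

namespace ZD85

open MvPolynomial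

theorem CommonFac_claim {R : Type*} [CommRing R] [IsDomain R] (I : Ideal (Polynomial R))
    (G : Polynomial R) (hG : G ∈ I) (hG0 : G ≠ 0)
    (hmin : ∀ H ∈ I, H ≠ 0 → G.natDegree ≤ H.natDegree) (N : ℕ) :
    ∀ H ∈ I, H.natDegree < N → ∃ e : ℕ, G ∣ Polynomial.C G.leadingCoeff ^ e * H := by
  have hc : G.leadingCoeff ≠ 0 := Polynomial.leadingCoeff_ne_zero.2 hG0
  induction N with
  | zero => intro H _ h; omega
  | succ N ih =>
    intro H hH hN
    by_cases hH0 : H = 0
    · exact ⟨0, by rw [hH0, mul_zero]; exact dvd_zero _⟩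
    have hd := hmin H hH hH0
    set H' : Polynomial R := Polynomial.C G.leadingCoeff * H -
      Polynomial.C H.leadingCoeff * Polynomial.X ^ (H.natDegree - G.natDegree) * G with hH'
    have hlH : H.leadingCoeff ≠ 0 := Polynomial.leadingCoeff_ne_zero.2 hH0
    have hmem : H' ∈ I := I.sub_mem (I.mul_mem_left _ hH) (I.mul_mem_left _ hG)
    have hq : (Polynomial.C H.leadingCoeff * Polynomial.X ^ (H.natDegree - G.natDegree) * G).degree =
        (Polynomial.C G.leadingCoeff * H).degree := by
      rw [Polynomial.degree_mul, Polynomial.degree_mul, Polynomial.degree_C hlH,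
        Polynomial.degree_X_pow, Polynomial.degree_mul, Polynomial.degree_C hc, zero_add, zero_add,
        Polynomial.degree_eq_natDegree hG0, Polynomial.degree_eq_natDegree hH0]
      norm_cast
      omega
    have hlt : H'.degree < H.degree := by
      have h1 := Polynomial.degree_sub_lt_left hq.symm
        (mul_ne_zero (Polynomial.C_ne_zero.2 hc) hH0) (by
          simp only [Polynomial.leadingCoeff_mul, Polynomial.leadingCoeff_C,
            Polynomial.leadingCoeff_X_pow, mul_one]
          ring)
      refine lt_of_lt_of_eq h1 ?_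
      rw [Polynomial.degree_mul, Polynomial.degree_C hc, zero_add]
    obtain ⟨e, he⟩ : ∃ e : ℕ, G ∣ Polynomial.C G.leadingCoeff ^ e * H' := by
      by_cases h0 : H' = 0
      · exact ⟨0, by rw [h0, mul_zero]; exact dvd_zero _⟩
      · refine ih H' hmem ?_
        have := Polynomial.natDegree_lt_natDegree h0 hlt
        omega
    refine ⟨e + 1, ?_⟩
    have h2 : Polynomial.C G.leadingCoeff ^ (e + 1) * H =
        Polynomial.C G.leadingCoeff ^ e * H' + Polynomial.C G.leadingCoeff ^ e *
          (Polynomial.C H.leadingCoeff * Polynomial.X ^ (H.natDegree - G.natDegree)) * G := by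
      rw [hH']; ring
    rw [h2]
    exact dvd_add he (dvd_mul_left _ _)

theorem common_factor {R : Type*} [CommRing R] [IsDomain R] [UniqueFactorizationMonoid R]
    (I : Ideal (Polynomial R)) (hI : I ≠ ⊥) (h : ∀ r : R, Polynomial.C r ∈ I → r = 0) :
    ∃ π : Polynomial R, Prime π ∧ ∀ H ∈ I, π ∣ H := by
  classical
  obtain ⟨G1, hG1, hG10⟩ := Submodule.exists_mem_ne_zero_of_ne_bot hI
  have hex : ∃ d : ℕ, ∃ G ∈ I, G ≠ 0 ∧ G.natDegree = d := ⟨_, G1, hG1, hG10, rfl⟩
  obtain ⟨G, hG, hG0, hGd⟩ := Nat.find_spec hex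
  have hmin : ∀ H ∈ I, H ≠ 0 → G.natDegree ≤ H.natDegree := by
    intro H hH hH0
    rw [hGd]
    exact Nat.find_min' hex ⟨H, hH, hH0, rfl⟩
  have hd : G.natDegree ≠ 0 := by
    intro h0
    have h1 := Polynomial.eq_C_of_natDegree_eq_zero h0
    rw [h1] at hG
    have h2 := h _ hG
    rw [h2, map_zero] at h1
    exact hG0 h1
  obtain ⟨f, hf, hfG⟩ := UniqueFactorizationMonoid.exists_prime_factors G hG0
  have hπ : ∃ π ∈ f, π.natDegree ≠ 0 := by
    by_contra hcon
    push Not at hcon
    have hp : f.prod.natDegree = 0 := by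
      clear hfG
      induction f using Multiset.induction_on with
      | empty => simp
      | cons a s ih =>
        rw [Multiset.prod_cons]
        have h1 := hcon a (Multiset.mem_cons_self a s)
        have h2 := ih (fun b hb => hf b (Multiset.mem_cons_of_mem hb))
          (fun b hb => hcon b (Multiset.mem_cons_of_mem hb))
        have := Polynomial.natDegree_mul_le (p := a) (q := s.prod)
        omega
    obtain ⟨u, hu⟩ := hfG
    have h3 : (u : Polynomial R).natDegree = 0 :=
      Polynomial.natDegree_eq_zero_of_isUnit u.isUnit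
    have := Polynomial.natDegree_mul_le (p := f.prod) (q := (u : Polynomial R))
    rw [hu] at this
    omega
  obtain ⟨π, hπf, hπ0⟩ := hπ
  have hπp := hf π hπf
  have hπG : π ∣ G := (Multiset.dvd_prod hπf).trans hfG.dvd
  refine ⟨π, hπp, fun H hH => ?_⟩
  obtain ⟨e, he⟩ := CommonFac_claim I G hG hG0 hmin (H.natDegree + 1) H hH (Nat.lt_succ_self _)
  rcases hπp.dvd_or_dvd (hπG.trans he) with h1 | h1
  · exfalso
    obtain ⟨u, hu⟩ := hπp.dvd_of_dvd_pow h1
    have hc : G.leadingCoeff ≠ 0 := Polynomial.leadingCoeff_ne_zero.2 hG0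
    have hCc : Polynomial.C G.leadingCoeff ≠ 0 := Polynomial.C_ne_zero.2 hc
    have hu0 : u ≠ 0 := by
      rintro rfl
      rw [mul_zero] at hu
      exact hCc hu
    have h2 := congrArg Polynomial.natDegree hu
    rw [Polynomial.natDegree_C, Polynomial.natDegree_mul hπp.ne_zero hu0] at h2
    omega
  · exact h1

/-- The equivalence with polynomials in the variable `j`. -/
noncomputable def CommonFac_e (K : Type*) [Field K] {n : ℕ} (j : Fin n) :
    MvPolynomial (Fin n) K ≃ₐ[K] Polynomial (MvPolynomial {i : Fin n // i ≠ j} K) :=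
  (renameEquiv K (Equiv.optionSubtypeNe j).symm).trans (optionEquivLeft K {i : Fin n // i ≠ j})

theorem CommonFac_eC (K : Type*) [Field K] {n : ℕ} (j : Fin n)
    (G : MvPolynomial {i : Fin n // i ≠ j} K) :
    CommonFac_e K j (rename Subtype.val G) = Polynomial.C G := by
  have h : (CommonFac_e K j).toAlgHom.comp (rename Subtype.val) =
      (IsScalarTower.toAlgHom K (MvPolynomial {i : Fin n // i ≠ j} K)
        (Polynomial (MvPolynomial {i : Fin n // i ≠ j} K))) := by
    refine MvPolynomial.algHom_ext fun i => ?_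
    have h1 : (Equiv.optionSubtypeNe j).symm i.1 = some i :=
      Equiv.optionSubtypeNe_symm_of_ne i.2
    show CommonFac_e K j (rename Subtype.val (X i)) = Polynomial.C (X i)
    rw [rename_X]
    show optionEquivLeft K {i : Fin n // i ≠ j} (rename _ (X i.1)) = _
    rw [rename_X, h1, optionEquivLeft_X_some]
  exact DFunLike.congr_fun h G

theorem common_factor_mv {K : Type*} [Field K] {n : ℕ} (j : Fin n)
    (I : Ideal (MvPolynomial (Fin n) K)) (hI : I ≠ ⊥)
    (h : ∀ G : MvPolynomial {i : Fin n // i ≠ j} K, rename Subtype.val G ∈ I → G = 0) :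
    ∃ π : MvPolynomial (Fin n) K, Prime π ∧ ∀ H ∈ I, π ∣ H := by
  set e := CommonFac_e K j with he
  obtain ⟨G1, hG1, hG10⟩ := Submodule.exists_mem_ne_zero_of_ne_bot hI
  set φ : Polynomial (MvPolynomial {i : Fin n // i ≠ j} K) →+* MvPolynomial (Fin n) K :=
    e.symm.toAlgHom.toRingHom with hφ
  obtain ⟨π, hπ, hπ2⟩ := common_factor (I.comap φ) (by
    intro hbot
    have h1 : e G1 ∈ I.comap φ := by
      rw [Ideal.mem_comap]
      show e.symm (e G1) ∈ I
      rwa [AlgEquiv.symm_apply_apply]
    rw [hbot, Ideal.mem_bot] at h1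
    exact hG10 ((map_eq_zero_iff e e.injective).1 h1)) (by
    intro r hr
    rw [Ideal.mem_comap] at hr
    apply h
    have h2 : e.symm (Polynomial.C r) = rename Subtype.val r := by
      rw [AlgEquiv.symm_apply_eq, he, CommonFac_eC]
    rw [← h2]
    exact hr)
  refine ⟨e.symm π, ?_, fun H hH => ?_⟩
  · exact (MulEquiv.prime_iff e.symm).2 hπ
  · have h1 : π ∣ e H := hπ2 _ (by
      rw [Ideal.mem_comap]
      show e.symm (e H) ∈ I
      rwa [AlgEquiv.symm_apply_apply])
    have h2 := map_dvd e.symm h1
    rwa [AlgEquiv.symm_apply_apply] at h2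

end ZD85
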