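import Pool.Agent.H85.ZD.Defs

/-!
# ZD Conj : conjugation (row `Conj`)

`zdo_conj`: `Zdo (φ * σ * φ⁻¹) → Zdo σ`.
`HasInv`: `(φ σ φ⁻¹) A * B = A * (φ σ φ⁻¹) B`; apply `φ⁻¹` (`φ.symm`): `A' = φ⁻¹ A`, `B' = φ⁻¹ B` satisfy
`σ A' * B' = A' * σ B'`; `B' ≠ 0`, `A' ≠ C c * B'` (apply `φ`, which fixes constants).
`HasDense`: `eval P ((φ σ φ⁻¹)^m F) = eval P (φ (σ^m (φ⁻¹ F))) = eval (pmap φ P) (σ^m (φ⁻¹ F))` (`eval_pmap`,
`eval_orb`; `(φ σ φ⁻¹)^m = φ σ^m φ⁻¹`, `conj_pow`).  So `pmap φ P` has a dense orbit under `σ`: given `F ≠ 0` apply the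
hypothesis to `φ F`.

`zdo_mul_comm`: `Zdo (σ * τ) → Zdo (τ * σ)` since `τ * σ = τ * (σ * τ) * τ⁻¹`.

`hasInv_base` : if `σ (X i) = C c * X i + C d` has finite order (`c = 1`, `d = 0`, or `c ≠ 1` and `c^k = 1` for some
`k ≥ 1`) then `HasInv σ`: `A = X i`, `B = 1` in the first case; in the second `F = C (1 - c) * X i - C d` satisfies
`σ F = C c * F`, so `A = F ^ k`, `B = 1`.  `A` is not constant (degree).
-/

set_option autoImplicit false

namespace ZD85

open MvPolynomial

private theorem conj_C {K : Type*} [Field K] {n : ℕ} (φ : PAut K n) (c : K) : φ (C c) = C c := by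
  rw [← MvPolynomial.algebraMap_eq, φ.commutes]

private theorem conj_apply {K : Type*} [Field K] {n : ℕ} (φ σ : PAut K n) (A : MvPolynomial (Fin n) K) :
    (φ * σ * φ⁻¹) A = φ (σ (φ.symm A)) := rfl

theorem zdo_conj {K : Type*} [Field K] {n : ℕ} (φ σ : PAut K n) (h : Zdo (φ * σ * φ⁻¹)) : Zdo σ := by
  rcases h with ⟨A, B, hB, hA, hAB⟩ | ⟨P, hP⟩
  · left
    refine ⟨φ.symm A, φ.symm B, ?_, ?_, ?_⟩
    · intro h0
      apply hB
      have := congrArg φ h0
      simpa using this
    · intro c hc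
      apply hA c
      have := congrArg φ hc
      rw [map_mul, conj_C, AlgEquiv.apply_symm_apply, AlgEquiv.apply_symm_apply] at this
      exact this
    · apply φ.injective
      rw [map_mul, map_mul, AlgEquiv.apply_symm_apply, AlgEquiv.apply_symm_apply]
      rw [conj_apply, conj_apply] at hAB
      exact hAB
  · right
    refine ⟨pmap φ P, fun F hF => ?_⟩
    have hφF : φ F ≠ 0 := by
      intro h0
      exact hF (by simpa using h0)
    obtain ⟨m, hm⟩ := hP (φ F) hφF
    refine ⟨m, ?_⟩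
    rw [eval_orb, conj_pow] at hm
    rw [eval_orb, eval_pmap]
    intro h0
    apply hm
    rw [conj_apply, AlgEquiv.symm_apply_apply]
    exact h0

theorem zdo_mul_comm {K : Type*} [Field K] {n : ℕ} (σ τ : PAut K n) (h : Zdo (σ * τ)) : Zdo (τ * σ) := by
  apply zdo_conj τ⁻¹ (τ * σ)
  have : τ⁻¹ * (τ * σ) * τ⁻¹⁻¹ = σ * τ := by group
  rw [this]
  exact h

theorem hasInv_base {K : Type*} [Field K] {n : ℕ} (σ : PAut K n) (i : Fin n) (c d : K)
    (h : σ (X i) = C c * X i + C d) (hfin : (c = 1 ∧ d = 0) ∨ (c ≠ 1 ∧ ∃ k : ℕ, 1 ≤ k ∧ c ^ k = 1)) :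
    HasInv σ := by
  -- evaluation in one variable
  let ev : MvPolynomial (Fin n) K →ₐ[K] Polynomial K := aeval (fun j => if j = i then Polynomial.X else 0)
  have evX : ev (X i) = Polynomial.X := by simp [ev]
  have evC : ∀ e : K, ev (C e) = Polynomial.C e := by
    intro e
    have := ev.commutes e
    rwa [MvPolynomial.algebraMap_eq, Polynomial.algebraMap_eq] at this
  rcases hfin with ⟨rfl, rfl⟩ | ⟨hc, k, hk, hck⟩
  · refine ⟨X i, 1, one_ne_zero, ?_, ?_⟩
    · intro e he
      have h1 := congrArg ev he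
      rw [mul_one, evX, evC] at h1
      have h2 := congrArg Polynomial.natDegree h1
      rw [Polynomial.natDegree_X, Polynomial.natDegree_C] at h2
      exact one_ne_zero h2
    · rw [h, map_one]; simp
  · refine ⟨(C (1 - c) * X i - C d) ^ k, 1, one_ne_zero, ?_, ?_⟩
    · intro e he
      have h1 := congrArg ev he
      rw [mul_one, map_pow, map_sub, map_mul, evX, evC, evC, evC] at h1
      have h2 := congrArg Polynomial.natDegree h1
      have h3 : (Polynomial.C (1 - c) * Polynomial.X - Polynomial.C d).natDegree = 1 := by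
        rw [sub_eq_add_neg, ← Polynomial.C_neg]
        exact Polynomial.natDegree_linear (sub_ne_zero.2 (Ne.symm hc))
      rw [Polynomial.natDegree_pow, h3, Polynomial.natDegree_C] at h2
      omega
    · have hF : σ (C (1 - c) * X i - C d) = C c * (C (1 - c) * X i - C d) := by
        rw [map_sub, map_mul, conj_C, conj_C, h]
        simp only [C_sub, C_1]
        ring
      rw [map_pow, hF, mul_pow, ← C_pow, hck, map_one]
      simp

end ZD85
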