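import Pool.Agent.H85.ZD.Defs

/-!
# ZD Dim : two independent functions give two independent coordinates (row `Dim`)

If no non-zero `G ∈ K[T][Y]` satisfies `G(F₁, F₂) = 0` along the orbit of `P`, then two coordinates are independent
along the orbit.

Proof.  Let `I` be the ideal of all polynomials vanishing on the orbit, `A = MvPolynomial (Fin n) K ⧸ I`; `I` is
radical (`F^k ∈ I → F ∈ I` clear).  The map `φ : K[T][Y] → A`, `T ↦ [F₁]`, `Y ↦ [F₂]` is injective by hypothesis.
(1) There is a prime ideal `𝔭 ⊇ I` with `φ⁻¹(𝔭 / I) = 0`: `I` is the intersection of its finitely many minimal primes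
`𝔭_1, ..., 𝔭_r` (`MvPolynomial` is Noetherian; `Ideal.finite_minimalPrimes_of_isNoetherianRing`,
`Ideal.sInf_minimalPrimes`, `I.radical = I`); if every contraction of `𝔭_i` to the domain `K[T][Y]` were non-zero,
containing `g_i ≠ 0`, then `∏ g_i ≠ 0` would be mapped into `∩ 𝔭_i = I`, i.e. to zero in `A`.
(Alternative: `S = φ(K[T][Y] \ {0})` is a multiplicative set of `A` not containing `0`; take an ideal maximal among
those disjoint from `S` - it is prime: `Ideal.exists_le_prime_disjoint`.)
(2) `D = MvPolynomial (Fin n) K ⧸ 𝔭` is a domain in which `[F₁], [F₂]` are algebraically independent over `K`, so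
`2 ≤ Algebra.trdeg K D`.
(3) `D` is generated by the classes of the coordinates, so some subset of them is a transcendence basis
(`exists_isTranscendenceBasis_between` / `exists_isTranscendenceBasis_subset` with `s = Set.range ...`); it has at least
two elements, take two different ones `[X i] ≠ [X l]`, so `i ≠ l`, algebraically independent over `K`.
(4) If `G ≠ 0` in `K[T][Y]` has `evalEval (orb m l) (orb m i) G = 0` for all `m`, the polynomial
`G(X l, X i)` lies in `I ⊆ 𝔭`, a non-trivial relation between `[X i]` and `[X l]`.  Contradiction.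
-/

set_option autoImplicit false

namespace ZD85

open MvPolynomial

theorem Dim_eval {K : Type*} [Field K] {n : ℕ} (P : Fin n → K) (A B : MvPolynomial (Fin n) K)
    (G : Polynomial (Polynomial K)) :
    eval P (aeval ![A, B] (Polynomial.Bivariate.equivMvPolynomial K G)) =
      Polynomial.evalEval (eval P A) (eval P B) G := by
  rw [← Polynomial.coe_aevalAeval_eq_evalEval]
  have h : ((aeval P : MvPolynomial (Fin n) K →ₐ[K] K).comp
      ((aeval ![A, B] : MvPolynomial (Fin 2) K →ₐ[K] MvPolynomial (Fin n) K).comp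
        (Polynomial.Bivariate.equivMvPolynomial K).toAlgHom)) =
      Polynomial.aevalAeval (eval P A) (eval P B) := by
    ext <;> simp [aeval_eq_eval]
  have h2 := congrArg (fun g : Polynomial (Polynomial K) →ₐ[K] K => g G) h
  simpa [aeval_eq_eval] using h2

theorem Dim_mk {K : Type*} [Field K] {n : ℕ} {D : Type*} [CommRing D] [Algebra K D]
    (f : MvPolynomial (Fin n) K →ₐ[K] D) (A B : MvPolynomial (Fin n) K)
    (Q : MvPolynomial (Fin 2) K) :
    aeval ![f A, f B] Q = f (aeval ![A, B] Q) := by
  have h : (aeval ![f A, f B] : MvPolynomial (Fin 2) K →ₐ[K] D) = f.comp (aeval ![A, B]) := by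
    apply MvPolynomial.algHom_ext
    intro i
    fin_cases i <;> simp
  exact congrArg (fun g : MvPolynomial (Fin 2) K →ₐ[K] D => g Q) h

open Cardinal in
theorem pairInd_of_indep {K : Type*} [Field K] {n : ℕ} (σ : PAut K n) (P : Fin n → K)
    (F₁ F₂ : MvPolynomial (Fin n) K)
    (h : ∀ G : Polynomial (Polynomial K), G ≠ 0 →
      ∃ m : ℕ, Polynomial.evalEval (eval (orb σ P m) F₁) (eval (orb σ P m) F₂) G ≠ 0) :
    PairInd σ P := by
  classical
  let I : Ideal (MvPolynomial (Fin n) K) := ⨅ m : ℕ, RingHom.ker (eval (orb σ P m))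
  have hI : ∀ F, F ∈ I ↔ ∀ m, eval (orb σ P m) F = 0 := by
    intro F
    simp [I, Ideal.mem_iInf, RingHom.mem_ker]
  let φ : MvPolynomial (Fin 2) K →ₐ[K] MvPolynomial (Fin n) K := aeval ![F₁, F₂]
  let S : Submonoid (MvPolynomial (Fin n) K) :=
    (nonZeroDivisors (MvPolynomial (Fin 2) K)).map φ
  have hdisj : Disjoint (I : Set (MvPolynomial (Fin n) K)) S := by
    rw [Set.disjoint_left]
    rintro F hF ⟨Q, hQ, rfl⟩
    have hQ0 : Q ≠ 0 := nonZeroDivisors.ne_zero hQ
    have hG : (Polynomial.Bivariate.equivMvPolynomial K).symm Q ≠ 0 := by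
      intro h0
      apply hQ0
      have := congrArg (Polynomial.Bivariate.equivMvPolynomial K) h0
      simpa using this
    obtain ⟨m, hm⟩ := h _ hG
    apply hm
    rw [← Dim_eval, AlgEquiv.apply_symm_apply]
    exact (hI _).1 hF m
  obtain ⟨p, hp, hIp, hpS⟩ := Ideal.exists_le_prime_disjoint I S hdisj
  haveI : IsDomain (MvPolynomial (Fin n) K ⧸ p) := Ideal.Quotient.isDomain p
  let mk : MvPolynomial (Fin n) K →ₐ[K] (MvPolynomial (Fin n) K ⧸ p) := Ideal.Quotient.mkₐ K p
  have hmk : ∀ F, mk F = 0 ↔ F ∈ p := fun F => Ideal.Quotient.eq_zero_iff_mem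
  have h1 : AlgebraicIndependent K ![mk F₁, mk F₂] := by
    rw [algebraicIndependent_iff]
    intro Q hQ
    by_contra hne
    rw [Dim_mk, hmk] at hQ
    exact Set.disjoint_left.1 hpS hQ ⟨Q, mem_nonZeroDivisors_of_ne_zero hne, rfl⟩
  let s : Set (MvPolynomial (Fin n) K ⧸ p) := Set.range (fun i => mk (X i))
  have hs : Algebra.adjoin K s = ⊤ := by
    have e1 : s = mk '' (Set.range (X : Fin n → MvPolynomial (Fin n) K)) := by
      rw [← Set.range_comp]
      rfl
    rw [e1, ← AlgHom.map_adjoin, MvPolynomial.adjoin_range_X, Algebra.map_top,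
      AlgHom.range_eq_top]
    exact Ideal.Quotient.mkₐ_surjective K p
  haveI : Algebra.IsAlgebraic (Algebra.adjoin K s) (MvPolynomial (Fin n) K ⧸ p) := by
    constructor
    intro x
    have hx : x ∈ Algebra.adjoin K s := by rw [hs]; trivial
    have := isAlgebraic_algebraMap (R := Algebra.adjoin K s)
      (A := MvPolynomial (Fin n) K ⧸ p) ⟨x, hx⟩
    exact this
  obtain ⟨t, hts, ht⟩ := exists_isTranscendenceBasis_subset (R := K) s
  have hcard : (2 : Cardinal) ≤ #t := by
    rw [ht.cardinalMk_eq_trdeg]
    have := h1.lift_cardinalMk_le_trdeg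
    simpa using this
  obtain ⟨x, y, hxy⟩ := Cardinal.two_le_iff.1 hcard
  obtain ⟨i, hi⟩ := hts x.2
  obtain ⟨l, hl⟩ := hts y.2
  have hi : mk (X i) = (x : MvPolynomial (Fin n) K ⧸ p) := hi
  have hl : mk (X l) = (y : MvPolynomial (Fin n) K ⧸ p) := hl
  refine ⟨i, l, ?_, ?_⟩
  · rintro rfl
    exact hxy (Subtype.ext (hi.symm.trans hl))
  · intro G hG
    by_contra hcon
    push Not at hcon
    have h2 : AlgebraicIndependent K ![mk (X l), mk (X i)] := by
      have hinj : Function.Injective (![y, x] : Fin 2 → t) := by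
        intro a b hab
        fin_cases a <;> fin_cases b <;> simp_all [Ne.symm]
      have := ht.1.comp _ hinj
      convert this using 1
      funext a
      fin_cases a
      · simp [hl]
      · simp [hi]
    rw [algebraicIndependent_iff] at h2
    have h3 := h2 (Polynomial.Bivariate.equivMvPolynomial K G) (by
      rw [Dim_mk, hmk]
      apply hIp
      rw [hI]
      intro m
      rw [Dim_eval]
      simpa using hcon m)
    apply hG
    exact (map_eq_zero_iff _ (Polynomial.Bivariate.equivMvPolynomial K).injective).1 h3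

end ZD85
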