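import Pool.Agent.H85.ZD.Defs

/-!
# ZD Lex : the dominating term of a relation (row `Lex`)

`v` a real valued non-archimedean valuation of `K` (no other assumption).  A relation
`∑_{k ≤ N} p_k(y) x^k = 0` with fixed polynomials `p_k`, not all zero, is impossible if `v(x)` is large
(`≥ C`, `C` depending on the `p_k`) and `v(y) > v(x)^(N+1)`.

Proof.  Write `p_k = ∑_d c_{k,d} T^d`.  Among the pairs `(d, k)` with `c_{k,d} ≠ 0` let `(d*, k*)` be the
lexicographically largest one (first `d` maximal, then `k` maximal).  Let `a = v(c_{k*,d*}) > 0` and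
`b = max v(c_{k,d})`, and `C = max 1 (b / a) + 1` (so `C > 1` and `C * a > b`).
Let `X = v(x) ≥ C`, `Y = v(y) > X^(N+1)`.  For another pair `(d, k)`:
if `d < d*` : `b Y^d X^k ≤ b Y^(d*-1) X^N < a X Y^(d*-1) X^N = a X^(N+1) Y^(d*-1) < a Y^d* ≤ a Y^d* X^k*`;
if `d = d*`, `k < k*` : `b Y^d* X^k ≤ b Y^d* X^(k*-1) < a Y^d* X^k*`.
So one term is strictly larger than all others and the sum is not zero
(`Valuation.map_sum_lt` for the rest and `Valuation.map_add_eq_of_lt_right`, or
`Valuation.map_sum_eq_of_lt`).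
-/

set_option autoImplicit false

namespace ZD85

/-- The lexicographically largest nonzero coefficient. -/
theorem Lex_top {K : Type*} [Field K] (N : ℕ)
    (p : Fin (N + 1) → Polynomial K) (hp : p ≠ 0) :
    ∃ (k₀ : Fin (N + 1)) (d₀ : ℕ), (p k₀).coeff d₀ ≠ 0 ∧
      (∀ k d, d₀ < d → (p k).coeff d = 0) ∧ (∀ k, k₀ < k → (p k).coeff d₀ = 0) := by
  classical
  have hne : ∃ k, p k ≠ 0 := by
    by_contra h
    push Not at h
    exact hp (funext h)
  obtain ⟨k₁, hk₁, hmax⟩ := Finset.exists_max_image (Finset.univ.filter (fun k => p k ≠ 0))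
    (fun k => (p k).natDegree) (by
      obtain ⟨k, hk⟩ := hne
      exact ⟨k, by simp [hk]⟩)
  have hk₁' : p k₁ ≠ 0 := by simpa using hk₁
  obtain ⟨k₀, hk₀, hmax₀⟩ := Finset.exists_max_image
    (Finset.univ.filter (fun k => (p k).coeff (p k₁).natDegree ≠ 0))
    (fun k => k) (⟨k₁, by simp [hk₁']⟩)
  refine ⟨k₀, (p k₁).natDegree, by simpa using hk₀, ?_, ?_⟩
  · intro k d hd
    by_cases hk : p k = 0
    · simp [hk]
    · apply Polynomial.coeff_eq_zero_of_natDegree_lt
      exact lt_of_le_of_lt (hmax k (by simp [hk])) hd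
  · intro k hk
    by_contra h
    exact absurd (hmax₀ k (by simpa using h)) (not_le.mpr hk)

/-- The other terms are smaller than the dominating one. -/
theorem Lex_lt {a b X Y : NNReal} {N k k₀ d d₀ : ℕ} {w : NNReal} (ha : 0 < a) (hw : w ≤ b)
    (hX : 1 < X) (hXab : b < X * a) (hY : X ^ (N + 1) < Y) (hk : k ≤ N)
    (h : d < d₀ ∨ (d = d₀ ∧ k < k₀)) :
    w * Y ^ d * X ^ k < a * Y ^ d₀ * X ^ k₀ := by
  have hX0 : 0 < X := lt_trans zero_lt_one hX
  have hY0 : 0 < Y := lt_of_le_of_lt zero_le hY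
  have hY1 : 1 ≤ Y := le_trans (one_le_pow₀ hX.le) hY.le
  rcases h with h | ⟨rfl, h⟩
  · obtain ⟨e, rfl⟩ : ∃ e, d₀ = e + 1 := ⟨d₀ - 1, by omega⟩
    calc w * Y ^ d * X ^ k ≤ b * Y ^ e * X ^ N := by
          gcongr
          · omega
          · exact hX.le
      _ < (X * a) * Y ^ e * X ^ N := by
          gcongr
      _ = a * Y ^ e * X ^ (N + 1) := by ring
      _ ≤ a * Y ^ e * Y := by gcongr
      _ = a * Y ^ (e + 1) * 1 := by ring
      _ ≤ a * Y ^ (e + 1) * X ^ k₀ := by
          gcongr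
          exact one_le_pow₀ hX.le
  · obtain ⟨e, rfl⟩ : ∃ e, k₀ = e + 1 := ⟨k₀ - 1, by omega⟩
    calc w * Y ^ d * X ^ k ≤ b * Y ^ d * X ^ e := by
          gcongr
          · exact hX.le
          · omega
      _ < (X * a) * Y ^ d * X ^ e := by gcongr
      _ = a * Y ^ d * X ^ (e + 1) := by ring

theorem lex_dom {K : Type*} [Field K] (v : Valuation K NNReal) (N : ℕ)
    (p : Fin (N + 1) → Polynomial K) (hp : p ≠ 0) :
    ∃ C : NNReal, 1 < C ∧ ∀ x y : K, C ≤ v x → (v x) ^ (N + 1) < v y →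
      ∑ k : Fin (N + 1), (p k).eval y * x ^ (k : ℕ) ≠ 0 := by
  classical
  obtain ⟨k₀, d₀, h0, hd, hk⟩ := Lex_top N p hp
  have ha : 0 < v ((p k₀).coeff d₀) := by
    rw [pos_iff_ne_zero]
    exact (Valuation.ne_zero_iff v).mpr h0
  set a := v ((p k₀).coeff d₀) with hadef
  set T : Finset (Fin (N + 1) × ℕ) := Finset.univ ×ˢ Finset.range (d₀ + 1) with hT
  set b : NNReal := T.sup (fun q => v ((p q.1).coeff q.2)) with hb
  refine ⟨max 1 (b / a) + 1, ?_, ?_⟩
  · have : (1 : NNReal) ≤ max 1 (b / a) := le_max_left _ _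
    exact lt_of_le_of_lt this (by simp)
  intro x y hx hy
  have hX : 1 < v x := by
    refine lt_of_lt_of_le ?_ hx
    have : (1 : NNReal) ≤ max 1 (b / a) := le_max_left _ _
    exact lt_of_le_of_lt this (by simp)
  have hXab : b < v x * a := by
    have h1 : b / a < v x := by
      refine lt_of_lt_of_le ?_ hx
      have : b / a ≤ max 1 (b / a) := le_max_right _ _
      exact lt_of_le_of_lt this (by simp)
    rwa [div_lt_iff₀ ha] at h1
  have hsum : ∑ k : Fin (N + 1), (p k).eval y * x ^ (k : ℕ) =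
      ∑ q ∈ T, (p q.1).coeff q.2 * y ^ q.2 * x ^ (q.1 : ℕ) := by
    rw [hT, Finset.sum_product]
    apply Finset.sum_congr rfl
    intro k _
    have : (p k).natDegree < d₀ + 1 := by
      by_contra h
      have h2 := hd k (p k).natDegree (by omega)
      have h3 : p k = 0 := by simpa using h2
      rw [h3] at h
      simp at h
    rw [Polynomial.eval_eq_sum_range' this, Finset.sum_mul]
  have hmem : (k₀, d₀) ∈ T := by simp [hT]
  rw [hsum, ← Finset.add_sum_erase T _ hmem]
  have hlt : v (∑ q ∈ T.erase (k₀, d₀), (p q.1).coeff q.2 * y ^ q.2 * x ^ (q.1 : ℕ)) <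
      v ((p k₀).coeff d₀ * y ^ d₀ * x ^ (k₀ : ℕ)) := by
    have hY0 : 0 < v y := lt_of_le_of_lt zero_le hy
    have hX0 : 0 < v x := lt_trans zero_lt_one hX
    have hpos : 0 < v ((p k₀).coeff d₀ * y ^ d₀ * x ^ (k₀ : ℕ)) := by
      rw [map_mul, map_mul, map_pow, map_pow]
      positivity
    apply Valuation.map_sum_lt v hpos.ne'
    rintro ⟨k, d⟩ hq
    rw [Finset.mem_erase] at hq
    obtain ⟨hne, hq⟩ := hq
    have hdle : d ≤ d₀ := by
      simp [hT] at hq
      omega
    simp only [map_mul, map_pow]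
    by_cases hc : (p k).coeff d = 0
    · rw [hc, map_zero, zero_mul, zero_mul]
      have := ha
      positivity
    apply Lex_lt (N := N) ha (b := b) ?_ hX hXab hy (by omega)
    · rcases lt_or_eq_of_le hdle with h | rfl
      · exact Or.inl h
      · right
        refine ⟨rfl, ?_⟩
        rcases lt_trichotomy k k₀ with h | rfl | h
        · exact h
        · exact absurd rfl hne
        · exact absurd (hk k h) hc
    · exact Finset.le_sup (f := fun q : Fin (N + 1) × ℕ => v ((p q.1).coeff q.2)) hq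
  intro h
  have h1 := Valuation.map_add_eq_of_lt_left v hlt
  have h2 : (0 : NNReal) < v ((p k₀).coeff d₀ * y ^ d₀ * x ^ (k₀ : ℕ)) :=
    lt_of_le_of_lt zero_le hlt
  simp only at h
  rw [h, map_zero] at h1
  exact h2.ne h1

end ZD85
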