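import Pool.Agent.H85.ZD.FinRel
import Pool.Agent.H85.ZD.Lex

/-!
# ZD Step2 : a fast point has an orbit closure of dimension at least two (row `Step2`)

Proof of `pairInd_of_fast`.  Suppose `¬ PairInd σ P`: for all `i ≠ l` there is a non-zero
`G ∈ K[T][Y]` with `evalEval (orb m l) (orb m i) G = 0` for all `m`.
Let `I` be the ideal of all polynomials vanishing on the orbit (build it by hand) and
`A = MvPolynomial (Fin n) K ⧸ I`, generated by the classes of the `X i`.
Call `l` unbounded if the set of values `{orb σ P m l}` is infinite.  For unbounded `l`, the class `t` of `X l` is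
transcendental (`Polynomial.aeval t r = 0` means `r(orb m l) = 0` for all `m`, so `r` has infinitely many roots), and
`hdep` of `fin_rel` holds for all `i` (for `i = l` use `G = Y - T`, i.e. `Polynomial.X - Polynomial.C Polynomial.X`).
So there is `N_l` as in `fin_rel`.  Let `N` be the maximum of the `N_l` over unbounded `l` (a relation with `N_l + 1`
coefficients may be extended by zeros to `N + 1`).  Consequence (use `z` = class of `(σ.symm ^ j) (X i)` and apply
`σ ^ j`, i.e. shift the orbit by `j`; `orb_add`):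
(R) for every unbounded `l`, every `i` and every `j : ℕ` there is `p : Fin (N+1) → K[T]`, `p ≠ 0`, with
`∑_k p_k(orb (m + j) l) * (orb m i)^k = 0` for all `m`.
[Indeed `∑ p_k(X l) * ((σ⁻¹)^j (X i))^k ∈ I`; evaluate at the point `orb (m + j)`; by `orb_add` and
`σ^j (σ⁻¹)^j = 1` the value of `(σ⁻¹)^j (X i)` there is `orb m i`.]
Let `v, c, θ` be as in `FastPt` and `M m = max_i v(orb m i)` (`Finset.sup'` over `Fin n`, `n ≥ 1` as `FastPt` gives an
index).  `M m ≥ exp (c θ^m)`, so `M m → ∞`.
Bounded coordinates take finitely many values, so there is `B` with `v(orb m l) ≤ B` for all `m` and all `l` that are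
not unbounded.
Claim: for every `j` there is `k₀` such that `M (m + j) ≤ (M m)^(N+1)` for all `m ≥ k₀`.  Let `C_j` be the maximum of
the constants of `lex_dom` for the relations (R) over all `(l, i)`.  For `m` large `M m ≥ C_j`, and `M (m+j) > B`.  Let
`i` be an index with `v(orb m i) = M m`, `l` one with `v(orb (m+j) l) = M (m+j)`; `l` is unbounded.  If
`M (m+j) > (M m)^(N+1)`, `lex_dom` contradicts (R).
Choose `j` with `θ^j > N + 1` and let `k₀` be as in the claim.  By induction `M (k₀ + s j) ≤ (M k₀)^((N+1)^s)`.  Taking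
logarithms, `c θ^(k₀ + s j) ≤ (N+1)^s log (M k₀)` for all `s`, i.e. `c θ^k₀ (θ^j / (N+1))^s ≤ log (M k₀)`, impossible
for large `s` (`tendsto_pow_atTop_atTop_of_one_lt`).
-/

set_option autoImplicit false

namespace ZD85

open MvPolynomial

/-- the functions on the orbit. -/
noncomputable def Step2_phi {K : Type*} [Field K] {n : ℕ} (σ : PAut K n) (P : Fin n → K) :
    MvPolynomial (Fin n) K →ₐ[K] (ℕ → K) :=
  aeval (fun i m => orb σ P m i)

theorem Step2_phi_apply {K : Type*} [Field K] {n : ℕ} (σ : PAut K n) (P : Fin n → K)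
    (F : MvPolynomial (Fin n) K) (m : ℕ) : Step2_phi σ P F m = eval (orb σ P m) F := by
  have h : (Pi.evalAlgHom K (fun _ : ℕ => K) m).comp (Step2_phi σ P) =
      (aeval (orb σ P m) : MvPolynomial (Fin n) K →ₐ[K] K) := by
    apply MvPolynomial.algHom_ext
    intro i
    simp [Step2_phi]
  have := congrArg (fun g : MvPolynomial (Fin n) K →ₐ[K] K => g F) h
  simpa [aeval_eq_eval] using this

/-- relations along the orbit, for one unbounded coordinate `l`. -/
theorem Step2_rel {K : Type*} [Field K] {n : ℕ} (σ : PAut K n) (P : Fin n → K)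
    (h : ¬ PairInd σ P) (l : Fin n) (hl : (Set.range fun m => orb σ P m l).Infinite) :
    ∃ N : ℕ, ∀ (i : Fin n) (j : ℕ), ∃ p : Fin (N + 1) → Polynomial K, p ≠ 0 ∧
      ∀ m : ℕ, ∑ k : Fin (N + 1), (p k).eval (orb σ P (m + j) l) * (orb σ P m i) ^ (k : ℕ) = 0 := by
  classical
  set φ := Step2_phi σ P with hφ
  let x : Fin n → φ.range := fun i => φ.rangeRestrict (X i)
  have hx : Algebra.adjoin K (Set.range x) = ⊤ := by
    have h1 : Set.range x = φ.rangeRestrict '' (Set.range (X : Fin n → MvPolynomial (Fin n) K)) := by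
      rw [← Set.range_comp]; rfl
    rw [h1, ← AlgHom.map_adjoin, MvPolynomial.adjoin_range_X, Algebra.map_top]
    exact (AlgHom.range_eq_top _).2 φ.rangeRestrict_surjective
  -- evaluation at the m-th point
  let ψ : ℕ → (φ.range →ₐ[K] K) := fun m => (Pi.evalAlgHom K (fun _ : ℕ => K) m).comp φ.range.val
  have hψ : ∀ m F, ψ m (φ.rangeRestrict F) = eval (orb σ P m) F := by
    intro m F
    change φ F m = _
    exact Step2_phi_apply σ P F m
  have hψx : ∀ m i, ψ m (x i) = orb σ P m i := by
    intro m i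
    rw [hψ]; simp
  have hext : ∀ a : φ.range, (∀ m, ψ m a = 0) → a = 0 := by
    intro a ha
    apply Subtype.ext
    funext m
    exact ha m
  have ht : Function.Injective (Polynomial.aeval (x l) : Polynomial K →ₐ[K] φ.range) := by
    rw [injective_iff_map_eq_zero]
    intro r hr
    apply Polynomial.eq_zero_of_infinite_isRoot
    refine hl.mono ?_
    rintro _ ⟨m, rfl⟩
    have := congrArg (ψ m) hr
    rw [← Polynomial.aeval_algHom_apply, hψx, map_zero] at this
    simpa [Polynomial.IsRoot, Polynomial.aeval_def] using this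
  have hdep : ∀ i, ∃ G : Polynomial (Polynomial K), G ≠ 0 ∧
      Polynomial.eval₂ (Polynomial.aeval (x l) : Polynomial K →ₐ[K] φ.range).toRingHom (x i) G = 0 := by
    intro i
    by_cases hil : i = l
    · refine ⟨Polynomial.X - Polynomial.C Polynomial.X, Polynomial.X_sub_C_ne_zero _, ?_⟩
      subst hil
      simp [Polynomial.eval₂_sub]
    · unfold PairInd at h
      push Not at h
      obtain ⟨G, hG0, hG⟩ := h i l hil
      refine ⟨G, hG0, hext _ fun m => ?_⟩
      have h1 := Polynomial.hom_eval₂ G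
        (Polynomial.aeval (x l) : Polynomial K →ₐ[K] φ.range).toRingHom (ψ m).toRingHom (x i)
      have h2 : (ψ m).toRingHom.comp
          (Polynomial.aeval (x l) : Polynomial K →ₐ[K] φ.range).toRingHom =
          Polynomial.evalRingHom (orb σ P m l) := by
        apply Polynomial.ringHom_ext
        · intro a; simp
        · simp [hψx]
      rw [h2] at h1
      have h3 : (ψ m).toRingHom (x i) = orb σ P m i := hψx m i
      rw [h3] at h1
      change (ψ m).toRingHom _ = 0
      rw [h1]
      have h4 := hG m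
      rw [← Polynomial.eval₂_evalRingHom] at h4
      exact h4
  obtain ⟨N, hN⟩ := fin_rel x hx (x l) ht hdep
  refine ⟨N, fun i j => ?_⟩
  obtain ⟨p, hp0, hp⟩ := hN (φ.rangeRestrict ((σ⁻¹ ^ j) (X i)))
  refine ⟨p, hp0, fun m => ?_⟩
  have h1 := congrArg (ψ (m + j)) hp
  rw [map_sum, map_zero] at h1
  rw [← h1]
  refine Finset.sum_congr rfl fun k _ => ?_
  rw [map_mul, map_pow, hψ, orb_add, ← Polynomial.aeval_algHom_apply, hψx]
  have h2 : (σ ^ j) ((σ⁻¹ ^ j) (X i)) = (X i : MvPolynomial (Fin n) K) := by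
    have : (σ ^ j) * (σ⁻¹ ^ j) = 1 := by
      rw [inv_pow, mul_inv_cancel]
    exact congrArg (fun g : PAut K n => g (X i)) this
  rw [h2, eval_X]
  simp [Polynomial.aeval_def]

/-- the size of a point. -/
noncomputable def Step2_M {K : Type*} [Field K] {n : ℕ} (v : Valuation K NNReal) (w : Fin n → K) :
    NNReal := Finset.univ.sup (fun i => v (w i))

theorem Step2_le_M {K : Type*} [Field K] {n : ℕ} (v : Valuation K NNReal) (w : Fin n → K)
    (i : Fin n) : v (w i) ≤ Step2_M v w :=
  Finset.le_sup (f := fun i => v (w i)) (Finset.mem_univ i)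

theorem Step2_arg {K : Type*} [Field K] {n : ℕ} (v : Valuation K NNReal) (w : Fin n → K)
    (i0 : Fin n) : ∃ i, v (w i) = Step2_M v w := by
  obtain ⟨i, _, hi⟩ := Finset.exists_mem_eq_sup (Finset.univ : Finset (Fin n)) ⟨i0, Finset.mem_univ _⟩
    (fun i => v (w i))
  exact ⟨i, hi.symm⟩

theorem pairInd_of_fast {K : Type*} [Field K] {n : ℕ} (σ : PAut K n) (P : Fin n → K)
    (h : FastPt σ P) : PairInd σ P := by
  classical
  by_contra hnp
  obtain ⟨v, c, θ, hc, hθ, hg⟩ := h
  obtain ⟨i0, -⟩ := hg 0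
  set M : ℕ → NNReal := fun m => Step2_M v (orb σ P m) with hM
  have hMg : ∀ m, Real.exp (c * θ ^ m) ≤ (M m : ℝ) := by
    intro m
    obtain ⟨i, hi⟩ := hg m
    exact hi.trans (NNReal.coe_le_coe.2 (Step2_le_M v _ i))
  -- the constants N
  have hNl : ∀ l : Fin n, ∃ N : ℕ, (Set.range fun m => orb σ P m l).Infinite →
      ∀ (i : Fin n) (j : ℕ), ∃ p : Fin (N + 1) → Polynomial K, p ≠ 0 ∧
      ∀ m : ℕ, ∑ k : Fin (N + 1), (p k).eval (orb σ P (m + j) l) * (orb σ P m i) ^ (k : ℕ) = 0 := by
    intro l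
    by_cases hl : (Set.range fun m => orb σ P m l).Infinite
    · obtain ⟨N, hN⟩ := Step2_rel σ P hnp l hl
      exact ⟨N, fun _ => hN⟩
    · exact ⟨0, fun hl' => absurd hl' hl⟩
  choose Nl hNl using hNl
  set N := Finset.univ.sup Nl with hN
  have hNle : ∀ l, Nl l ≤ N := fun l => Finset.le_sup (f := Nl) (Finset.mem_univ l)
  -- bound of the bounded coordinates
  have hBl : ∀ l : Fin n, ∃ B : NNReal, ¬ (Set.range fun m => orb σ P m l).Infinite →
      ∀ m, v (orb σ P m l) ≤ B := by
    intro l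
    by_cases hl : (Set.range fun m => orb σ P m l).Infinite
    · exact ⟨0, fun hl' => absurd hl hl'⟩
    · rw [Set.not_infinite] at hl
      obtain ⟨B, hB⟩ := (hl.image v).bddAbove
      exact ⟨B, fun _ m => hB ⟨_, ⟨m, rfl⟩, rfl⟩⟩
  choose Bl hBl using hBl
  set B := Finset.univ.sup Bl with hB
  have hBle : ∀ l, Bl l ≤ B := fun l => Finset.le_sup (f := Bl) (Finset.mem_univ l)
  -- the claim
  have hlim : Filter.Tendsto (fun m : ℕ => Real.exp (c * θ ^ m)) Filter.atTop Filter.atTop :=
    Real.tendsto_exp_atTop.comp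
      (Filter.Tendsto.const_mul_atTop hc (tendsto_pow_atTop_atTop_of_one_lt hθ))
  have claim : ∀ j : ℕ, ∃ k₀ : ℕ, ∀ m, k₀ ≤ m → 1 ≤ M m ∧ M (m + j) ≤ M m ^ (N + 1) := by
    intro j
    have hCl : ∀ (l i : Fin n), ∃ C : NNReal, (Set.range fun m => orb σ P m l).Infinite →
        ∀ m, C ≤ v (orb σ P m i) → v (orb σ P (m + j) l) ≤ (v (orb σ P m i)) ^ (Nl l + 1) := by
      intro l i
      by_cases hl : (Set.range fun m => orb σ P m l).Infinite
      · obtain ⟨p, hp0, hp⟩ := hNl l hl i j
        obtain ⟨C, hC1, hC⟩ := lex_dom v (Nl l) p hp0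
        refine ⟨C, fun _ m hm => ?_⟩
        by_contra hcon
        exact hC _ _ hm (not_le.1 hcon) (hp m)
      · exact ⟨0, fun hl' => absurd hl' hl⟩
    choose Cl hCl using hCl
    set C := Finset.univ.sup (fun l => Finset.univ.sup (fun i => Cl l i)) with hCd
    have hCle : ∀ l i, Cl l i ≤ C := fun l i =>
      (Finset.le_sup (f := fun i => Cl l i) (Finset.mem_univ i)).trans
        (Finset.le_sup (f := fun l => Finset.univ.sup (fun i => Cl l i)) (Finset.mem_univ l))
    obtain ⟨k₀, hk₀⟩ := Filter.eventually_atTop.1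
      (hlim.eventually_ge_atTop ((max (max C B) 1 : NNReal) : ℝ))
    refine ⟨k₀, fun m hm => ?_⟩
    have hbig : max (max C B) 1 ≤ M m := by
      have := (hk₀ m hm).trans (hMg m)
      exact_mod_cast this
    have h1 : 1 ≤ M m := (le_max_right _ _).trans hbig
    have hCm : C ≤ M m := ((le_max_left _ _).trans (le_max_left _ _)).trans hbig
    have hBm : B ≤ M m := ((le_max_right _ _).trans (le_max_left _ _)).trans hbig
    refine ⟨h1, ?_⟩
    obtain ⟨l, hl⟩ := Step2_arg v (orb σ P (m + j)) i0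
    obtain ⟨i, hi⟩ := Step2_arg v (orb σ P m) i0
    change Step2_M v (orb σ P (m + j)) ≤ _
    rw [← hl]
    by_cases hinf : (Set.range fun m => orb σ P m l).Infinite
    · have h2 : Cl l i ≤ v (orb σ P m i) := by
        rw [hi]; exact (hCle l i).trans hCm
      have h3 := hCl l i hinf m h2
      rw [hi] at h3
      exact h3.trans (pow_le_pow_right₀ h1 (by have := hNle l; omega))
    · calc v (orb σ P (m + j) l) ≤ Bl l := hBl l hinf (m + j)
        _ ≤ B := hBle l
        _ ≤ M m := hBm
        _ ≤ M m ^ (N + 1) := le_self_pow₀ h1 (by omega)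
  -- the contradiction
  obtain ⟨j, hj⟩ := pow_unbounded_of_one_lt ((N : ℝ) + 1) hθ
  obtain ⟨k₀, hk₀⟩ := claim j
  have hind : ∀ s : ℕ, M (k₀ + s * j) ≤ M k₀ ^ ((N + 1) ^ s) := by
    intro s
    induction s with
    | zero => simp
    | succ s ih =>
      have h1 := (hk₀ (k₀ + s * j) (by omega)).2
      have h2 : k₀ + (s + 1) * j = k₀ + s * j + j := by ring
      rw [h2]
      refine h1.trans ?_
      have h3 : M k₀ ^ ((N + 1) ^ (s + 1)) = (M k₀ ^ ((N + 1) ^ s)) ^ (N + 1) := by
        rw [← pow_mul, ← pow_succ]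
      rw [h3]
      exact pow_le_pow_left₀ (by positivity) ih _
  have hlog : ∀ s : ℕ, c * θ ^ (k₀ + s * j) ≤ ((N : ℝ) + 1) ^ s * Real.log (M k₀) := by
    intro s
    have h1 : Real.exp (c * θ ^ (k₀ + s * j)) ≤ ((M k₀ : ℝ)) ^ ((N + 1) ^ s) :=
      (hMg _).trans (by exact_mod_cast hind s)
    have h2 := Real.log_le_log (Real.exp_pos _) h1
    rw [Real.log_exp, Real.log_pow] at h2
    push_cast at h2
    exact h2
  have hN1 : (0 : ℝ) < (N : ℝ) + 1 := by positivity
  have hratio : 1 < θ ^ j / ((N : ℝ) + 1) := by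
    rw [lt_div_iff₀ hN1]; linarith
  obtain ⟨s, hs⟩ := pow_unbounded_of_one_lt (Real.log (M k₀) / (c * θ ^ k₀)) hratio
  have hcθ : 0 < c * θ ^ k₀ := by positivity
  rw [div_lt_iff₀ hcθ, div_pow, div_mul_eq_mul_div, lt_div_iff₀ (by positivity)] at hs
  have h3 := hlog s
  have h4 : c * θ ^ (k₀ + s * j) = (θ ^ j) ^ s * (c * θ ^ k₀) := by
    rw [pow_add, mul_comm s j, pow_mul]; ring
  rw [h4] at h3
  linarith

end ZD85
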