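import Pool.Agent.H85.ZD.ThmA
import Pool.Agent.H85.ZD.Step2
import Pool.Agent.H85.ZD.Dim

/-!
# ZD Crit : the criteria (row `Crit`, short)

`zdo_of_fast`: `thmA3` and `pairInd_of_fast`.
`exists_eval_ne_zero` : a non-zero polynomial does not vanish identically on a product of infinite sets
(`MvPolynomial.funext_set` in Mathlib, or induction on the number of variables).
`ball_infinite` : if `0 < v ϖ < 1` the ball `{x | v (x - a) < r}` is infinite, `r > 0`: it contains `a + ϖ^k` for all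
large `k` and these are pairwise different (`v` separates the `ϖ^k`).
`zdo_of_fast_prod`: if all points of a product of infinite sets are fast then `Zdo σ`.
-/

set_option autoImplicit false

namespace ZD85

open MvPolynomial

theorem zdo_of_fast {K : Type*} [Field K] (σ : PAut K 3)
    (h : ∀ H : MvPolynomial (Fin 3) K, H ≠ 0 → ∃ P : Fin 3 → K, eval P H ≠ 0 ∧ FastPt σ P) :
    Zdo σ :=
  thmA3 σ fun H hH => by
    obtain ⟨P, hP, hf⟩ := h H hH
    exact ⟨P, hP, pairInd_of_fast σ P hf⟩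

theorem exists_eval_ne_zero {K : Type*} [Field K] {n : ℕ} (H : MvPolynomial (Fin n) K) (hH : H ≠ 0)
    (S : Fin n → Set K) (hS : ∀ i, (S i).Infinite) : ∃ P : Fin n → K, (∀ i, P i ∈ S i) ∧ eval P H ≠ 0 := by
  by_contra hcon
  push Not at hcon
  apply hH
  refine MvPolynomial.funext_set S hS fun x hx => ?_
  rw [map_zero]
  exact hcon x fun i => hx i (Set.mem_univ i)

theorem ball_infinite {K : Type*} [Field K] (v : Valuation K NNReal) (ϖ : K) (h0 : ϖ ≠ 0) (h1 : v ϖ < 1)
    (a : K) (r : NNReal) (hr : 0 < r) : {x : K | v (x - a) < r}.Infinite := by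
  have hv0 : 0 < v ϖ := by
    rw [pos_iff_ne_zero]
    exact (v.ne_zero_iff).mpr h0
  obtain ⟨m, hm⟩ := exists_pow_lt_of_lt_one hr h1
  refine Set.infinite_of_injective_forall_mem (f := fun k : ℕ => a + ϖ ^ (m + k)) ?_ ?_
  · intro i j hij
    have h2 : ϖ ^ (m + i) = ϖ ^ (m + j) := add_left_cancel hij
    have h3 : v ϖ ^ (m + i) = v ϖ ^ (m + j) := by
      rw [← map_pow, ← map_pow, h2]
    have h4 := pow_right_injective₀ hv0 h1.ne h3
    omega
  · intro k
    show v (a + ϖ ^ (m + k) - a) < r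
    rw [add_sub_cancel_left, map_pow]
    exact lt_of_le_of_lt (pow_le_pow_of_le_one hv0.le h1.le (Nat.le_add_right m k)) hm

theorem zdo_of_fast_prod {K : Type*} [Field K] (σ : PAut K 3) (S : Fin 3 → Set K)
    (hS : ∀ i, (S i).Infinite) (h : ∀ P : Fin 3 → K, (∀ i, P i ∈ S i) → FastPt σ P) : Zdo σ :=
  zdo_of_fast σ fun H hH => by
    obtain ⟨P, hP, hne⟩ := exists_eval_ne_zero H hH S hS
    exact ⟨P, hne, h P hP⟩

theorem zdo_of_pair_prod {K : Type*} [Field K] (σ : PAut K 3) (S : Fin 3 → Set K)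
    (hS : ∀ i, (S i).Infinite) (h : ∀ P : Fin 3 → K, (∀ i, P i ∈ S i) → PairInd σ P) : Zdo σ :=
  thmA3 σ fun H hH => by
    obtain ⟨P, hP, hne⟩ := exists_eval_ne_zero H hH S hS
    exact ⟨P, hne, h P hP⟩

end ZD85
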