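import Pool.Agent.H85.ZD.Crit
import Pool.Agent.H85.ZD.Val

/-!
# ZD CycI : the cyclic family, irrational growth rate (row `CycI`)

`f(x, y, z) = (y, z, e x + R(y, z))`, `R = ∑ r_α y^{α 0} z^{α 1}`, `θ > 1` irrational,
`α 0 + α 1 θ ≤ θ²` for all `α ∈ supp R`, with equality for some `α`.

Proof.  Write `x_m = orb σ P m 0`; then `orb σ P m 1 = x_{m+1}`, `orb σ P m 2 = x_{m+2}` and
`x_{m+3} = e x_m + R(x_{m+1}, x_{m+2})` (`orb_succ_apply`).
The exponent `β ∈ supp R` with `β 0 + β 1 θ = θ²` is unique, because `θ` is irrational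
(`(β 0 - β' 0) = (β' 1 - β 1) θ`).  Choose `ε ∈ (0, 1)` with `(1 + ε)(α 0 + α 1 θ) < (1 - ε) θ²` for all other
`α ∈ supp R` (finitely many strict inequalities) and `1 + ε < (1 - ε) θ`.
Let `E` = {`e`} ∪ {the non-zero coefficients of `R`} and `p, v` from `exists_val`; `g = v(p)⁻¹ > 1`,
`L(x) = log v(x) / log g` (so `L(p^{-k}) = k`).
For `m = 0, 1, 2` let `S_m` = the set of `x ∈ K` with `x ≠ 0` and `(1 - ε) T θ^m ≤ L(x) ≤ (1 + ε) T θ^m`; here `T > 0` is
so large that each of the three intervals contains an integer `k_m`; `S_m` contains the ball of centre `p^{-k_m}` and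
radius `v(p^{-k_m})`, so it is infinite (`ball_infinite`).
Claim: if `P i ∈ S_i` then `x_m ≠ 0` and `(1 - ε) T θ^m ≤ L(x_m) ≤ (1 + ε) T θ^m` for all `m`.
Induction: the term `r_β x_{m+1}^{β 0} x_{m+2}^{β 1}` has
`L = β 0 L(x_{m+1}) + β 1 L(x_{m+2}) ∈ [(1 - ε) T θ^{m+3}, (1 + ε) T θ^{m+3}]` since `θ^{m+1}(β 0 + β 1 θ) = θ^{m+3}`;
every other term of `R` has `L ≤ (1 + ε) T θ^{m+1} (α 0 + α 1 θ) < (1 - ε) T θ^{m+3}`, and
`L(e x_m) ≤ (1 + ε) T θ^m < (1 - ε) T θ^{m+3}`; so `v(x_{m+3}) = v(r_β x_{m+1}^{β 0} x_{m+2}^{β 1})`.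
Hence `v(x_m) ≥ exp(c θ^m)` with `c = (1 - ε) T log g > 0`: `FastPt`.  Conclude with `zdo_of_fast_prod`.
-/

set_option autoImplicit false

namespace ZD85

open MvPolynomial

theorem CycI_eps (θ : ℝ) (hθ : 1 < θ) (s : Finset (Fin 2 →₀ ℕ))
    (hs : ∀ α ∈ s, (α 0 : ℝ) + α 1 * θ < θ ^ 2) :
    ∃ ε : ℝ, 0 < ε ∧ ε < 1 ∧ 1 + ε < (1 - ε) * θ ∧
      ∀ α ∈ s, (1 + ε) * ((α 0 : ℝ) + α 1 * θ) < (1 - ε) * θ ^ 2 := by
  have h1 : ∀ᶠ ε in nhdsWithin (0 : ℝ) (Set.Ioi 0), 1 + ε < (1 - ε) * θ := by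
    refine eventually_nhdsWithin_of_eventually_nhds ?_
    have hc : ContinuousAt (fun ε : ℝ => (1 - ε) * θ - (1 + ε)) 0 := by fun_prop
    have h0 : (0 : ℝ) < (fun ε : ℝ => (1 - ε) * θ - (1 + ε)) 0 := by simp; linarith
    filter_upwards [hc.eventually (lt_mem_nhds h0)] with ε hε
    linarith
  have h2 : ∀ᶠ ε in nhdsWithin (0 : ℝ) (Set.Ioi 0),
      ∀ α ∈ s, (1 + ε) * ((α 0 : ℝ) + α 1 * θ) < (1 - ε) * θ ^ 2 := by
    refine (Filter.eventually_all_finset s).2 fun α hα => ?_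
    refine eventually_nhdsWithin_of_eventually_nhds ?_
    have hc : ContinuousAt (fun ε : ℝ => (1 - ε) * θ ^ 2 - (1 + ε) * ((α 0 : ℝ) + α 1 * θ)) 0 := by
      fun_prop
    have h0 : (0 : ℝ) < (fun ε : ℝ => (1 - ε) * θ ^ 2 - (1 + ε) * ((α 0 : ℝ) + α 1 * θ)) 0 := by
      have := hs α hα
      simp
      linarith
    filter_upwards [hc.eventually (lt_mem_nhds h0)] with ε hε
    linarith
  have h3 : ∀ᶠ ε in nhdsWithin (0 : ℝ) (Set.Ioi 0), ε < 1 :=
    eventually_nhdsWithin_of_eventually_nhds (gt_mem_nhds one_pos)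
  have h4 : ∀ᶠ ε in nhdsWithin (0 : ℝ) (Set.Ioi 0), 0 < ε := eventually_mem_nhdsWithin
  obtain ⟨ε, a, b, c, d⟩ := (h4.and (h3.and (h1.and h2))).exists
  exact ⟨ε, a, b, c, d⟩

/-- the orbit recursion. -/
theorem CycI_rec {K : Type*} [Field K] (σ : PAut K 3) (e : K)
    (R : MvPolynomial (Fin 2) K) (h0 : σ (X 0) = X 1) (h1 : σ (X 1) = X 2)
    (h2 : σ (X 2) = C e * X 0 + aeval ![X 1, X 2] R) (P : Fin 3 → K) :
    orb σ P 0 0 = P 0 ∧ orb σ P 1 0 = P 1 ∧ orb σ P 2 0 = P 2 ∧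
    ∀ m, orb σ P (m + 3) 0 = e * orb σ P m 0 + ∑ α ∈ R.support,
      R.coeff α * (orb σ P (m + 1) 0 ^ α 0 * orb σ P (m + 2) 0 ^ α 1) := by
  have a0 : ∀ m, orb σ P (m + 1) 0 = orb σ P m 1 := fun m => by
    rw [orb_succ_apply, h0, eval_X]
  have a1 : ∀ m, orb σ P (m + 1) 1 = orb σ P m 2 := fun m => by
    rw [orb_succ_apply, h1, eval_X]
  refine ⟨rfl, ?_, ?_, fun m => ?_⟩
  · rw [a0]; rfl
  · rw [a0, a1]; rfl
  · rw [a0 (m + 2), a1 (m + 1), orb_succ_apply, h2, map_add, map_mul, eval_C, eval_X]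
    congr 1
    have : eval (orb σ P m) (aeval ![X 1, X 2] R) = eval ![orb σ P m 1, orb σ P m 2] R := by
      have hh : ((aeval (orb σ P m) : MvPolynomial (Fin 3) K →ₐ[K] K).comp
          (aeval ![X 1, X 2] : MvPolynomial (Fin 2) K →ₐ[K] MvPolynomial (Fin 3) K)) =
          aeval ![orb σ P m 1, orb σ P m 2] := by
        apply MvPolynomial.algHom_ext
        intro i
        fin_cases i <;> simp
      have := congrArg (fun g : MvPolynomial (Fin 2) K →ₐ[K] K => g R) hh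
      simpa [aeval_eq_eval] using this
    rw [this, eval_eq']
    refine Finset.sum_congr rfl fun α _ => ?_
    rw [Fin.prod_univ_two]
    rw [a0 m, a0 (m + 1), a1 m]
    rfl

/-- the set of starting values. -/
def CycI_S {K : Type*} [Field K] (v : Valuation K NNReal) (lo hi : ℝ) : Set K :=
  {x | x ≠ 0 ∧ lo ≤ Real.log (v x : ℝ) ∧ Real.log (v x : ℝ) ≤ hi}

theorem CycI_inf {K : Type*} [Field K] (v : Valuation K NNReal) (ϖ : K) (h0 : ϖ ≠ 0) (h1 : v ϖ < 1)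
    (lo hi : ℝ) (hlo : 0 ≤ lo) (h : lo + -Real.log (v ϖ : ℝ) ≤ hi) : (CycI_S v lo hi).Infinite := by
  have hv0 : v ϖ ≠ 0 := (Valuation.ne_zero_iff v).2 h0
  have hvp : (0 : ℝ) < v ϖ := by
    have := pos_iff_ne_zero.2 hv0
    exact_mod_cast this
  have hv1 : (v ϖ : ℝ) < 1 := by exact_mod_cast h1
  set lam : ℝ := -Real.log (v ϖ : ℝ) with hlam
  have hlp : 0 < lam := by
    rw [hlam]
    have := Real.log_neg hvp hv1
    linarith
  set k : ℕ := ⌈lo / lam⌉₊ with hk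
  have k1 : lo ≤ k * lam := by
    have := Nat.le_ceil (lo / lam)
    rwa [div_le_iff₀ hlp] at this
  have k2 : k * lam ≤ lo + lam := by
    have := (Nat.ceil_lt_add_one (div_nonneg hlo hlp.le)).le
    have h3 := mul_le_mul_of_nonneg_right this hlp.le
    rw [add_mul, div_mul_cancel₀ _ hlp.ne', one_mul] at h3
    exact h3
  set a : K := (ϖ⁻¹) ^ k with ha
  have ha0 : a ≠ 0 := pow_ne_zero _ (inv_ne_zero h0)
  have hla : Real.log (v a : ℝ) = k * lam := by
    rw [ha, map_pow, map_inv₀]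
    push_cast
    rw [Real.log_pow, Real.log_inv]
  refine (ball_infinite v ϖ h0 h1 a (v a) (pos_iff_ne_zero.2 ((Valuation.ne_zero_iff v).2 ha0))).mono ?_
  intro x hx
  have hx' : v x = v a := Valuation.map_eq_of_sub_lt v hx
  refine ⟨?_, ?_, ?_⟩
  · intro hx0
    rw [hx0, map_zero] at hx'
    exact (Valuation.ne_zero_iff v).2 ha0 hx'.symm
  · rw [hx', hla]
    exact k1
  · rw [hx', hla]
    linarith

theorem cyc_irr {K : Type*} [Field K] [CharZero K] (σ : PAut K 3) (e : K) (he : e ≠ 0)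
    (R : MvPolynomial (Fin 2) K) (h0 : σ (X 0) = X 1) (h1 : σ (X 1) = X 2)
    (h2 : σ (X 2) = C e * X 0 + aeval ![X 1, X 2] R) (θ : ℝ) (hθ : 1 < θ) (hirr : Irrational θ)
    (hle : ∀ α ∈ R.support, (α 0 : ℝ) + α 1 * θ ≤ θ ^ 2)
    (heq : ∃ α ∈ R.support, (α 0 : ℝ) + α 1 * θ = θ ^ 2) : Zdo σ := by
  classical
  obtain ⟨β, hβ, hβe⟩ := heq
  have hθ0 : 0 < θ := by linarith
  -- uniqueness of the leading exponent
  have huniq : ∀ α ∈ R.support.erase β, (α 0 : ℝ) + α 1 * θ < θ ^ 2 := by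
    intro α hα
    obtain ⟨hne, hα'⟩ := Finset.mem_erase.1 hα
    refine lt_of_le_of_ne (hle α hα') fun heq => hne ?_
    have hd : ((β 1 : ℝ) - α 1) * θ = (α 0 : ℝ) - β 0 := by linarith
    have h11 : (β 1 : ℝ) = α 1 := by
      by_contra hne1
      have hne2 : (β 1 : ℝ) - α 1 ≠ 0 := sub_ne_zero.2 hne1
      have : θ = (((α 0 : ℤ) - (β 0 : ℤ) : ℤ) : ℚ) / (((β 1 : ℤ) - (α 1 : ℤ) : ℤ) : ℚ) := by
        push_cast
        rw [eq_div_iff hne2]
        linarith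
      refine hirr ⟨(((α 0 : ℤ) - (β 0 : ℤ) : ℤ) : ℚ) / (((β 1 : ℤ) - (α 1 : ℤ) : ℤ) : ℚ), ?_⟩
      rw [this]
      push_cast
      rfl
    have h00 : (α 0 : ℝ) = β 0 := by
      rw [h11, sub_self, zero_mul] at hd
      linarith
    ext i
    fin_cases i
    · exact_mod_cast h00
    · exact_mod_cast h11.symm
  obtain ⟨ε, hε0, hε1, hεθ, hεα⟩ := CycI_eps θ hθ _ huniq
  obtain ⟨p, v, hp, hvp, hvE, -⟩ := exists_val (insert e (R.support.image R.coeff)) (by
    intro h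
    rcases Finset.mem_insert.1 h with h | h
    · exact he h.symm
    · obtain ⟨α, hα, hα0⟩ := Finset.mem_image.1 h
      exact mem_support_iff.1 hα hα0)
  have hve : v e = 1 := hvE e (Finset.mem_insert_self _ _)
  have hvR : ∀ α ∈ R.support, v (R.coeff α) = 1 := fun α hα =>
    hvE _ (Finset.mem_insert_of_mem (Finset.mem_image_of_mem _ hα))
  have hp0 : (p : K) ≠ 0 := by exact_mod_cast hp.ne_zero
  have hvp0 : (0 : ℝ) < v (p : K) := by
    have := pos_iff_ne_zero.2 ((Valuation.ne_zero_iff v).2 hp0)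
    exact_mod_cast this
  set lam : ℝ := -Real.log (v (p : K) : ℝ) with hlam
  have hlp : 0 < lam := by
    have := Real.log_neg hvp0 (by exact_mod_cast hvp)
    rw [hlam]
    linarith
  set T : ℝ := lam / ε with hT
  have hTp : 0 < T := div_pos hlp hε0
  have hTε : ε * T = lam := by rw [hT]; field_simp
  -- the bounds
  let B : ℕ → K → Prop := fun m x => x ≠ 0 ∧ (1 - ε) * (T * θ ^ m) ≤ Real.log (v x : ℝ) ∧
    Real.log (v x : ℝ) ≤ (1 + ε) * (T * θ ^ m)
  have hTm : ∀ m : ℕ, 0 < T * θ ^ m := fun m => mul_pos hTp (pow_pos hθ0 m)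
  refine zdo_of_fast_prod σ (fun i => CycI_S v ((1 - ε) * (T * θ ^ (i : ℕ))) ((1 + ε) * (T * θ ^ (i : ℕ))))
    (fun i => CycI_inf v p hp0 hvp _ _ (mul_nonneg (by linarith) (hTm _).le) ?_) ?_
  · have h1' : 1 ≤ θ ^ (i : ℕ) := one_le_pow₀ hθ.le
    rw [← hlam]
    have : lam ≤ ε * (T * θ ^ (i : ℕ)) := by
      rw [← mul_assoc, hTε]
      exact le_mul_of_one_le_right hlp.le h1'
    nlinarith
  intro P hP
  obtain ⟨r0, r1, r2, rec⟩ := CycI_rec σ e R h0 h1 h2 P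
  have hvpos : ∀ x : K, x ≠ 0 → (0 : ℝ) < v x := fun x hx => by
    have := pos_iff_ne_zero.2 ((Valuation.ne_zero_iff v).2 hx)
    exact_mod_cast this
  have hlt : ∀ x y : K, x ≠ 0 → y ≠ 0 → Real.log (v x : ℝ) < Real.log (v y : ℝ) → v x < v y := by
    intro x y hx hy h
    have := (Real.log_lt_log_iff (hvpos x hx) (hvpos y hy)).1 h
    exact_mod_cast this
  -- logarithm of a term
  have hterm : ∀ α ∈ R.support, ∀ x y : K, x ≠ 0 → y ≠ 0 →
      R.coeff α * (x ^ α 0 * y ^ α 1) ≠ 0 ∧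
      Real.log (v (R.coeff α * (x ^ α 0 * y ^ α 1)) : ℝ) =
        α 0 * Real.log (v x : ℝ) + α 1 * Real.log (v y : ℝ) := by
    intro α hα x y hx hy
    refine ⟨mul_ne_zero (mem_support_iff.1 hα) (mul_ne_zero (pow_ne_zero _ hx) (pow_ne_zero _ hy)), ?_⟩
    rw [map_mul, hvR α hα, one_mul, map_mul, map_pow, map_pow]
    push_cast
    rw [Real.log_mul (pow_ne_zero _ (hvpos x hx).ne') (pow_ne_zero _ (hvpos y hy).ne'),
      Real.log_pow, Real.log_pow]
  have hB : ∀ m, B m (orb σ P m 0) ∧ B (m + 1) (orb σ P (m + 1) 0) ∧ B (m + 2) (orb σ P (m + 2) 0) := by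
    intro m
    induction m with
    | zero =>
      refine ⟨?_, ?_, ?_⟩
      · rw [r0]; exact hP 0
      · rw [zero_add, r1]; exact hP 1
      · rw [zero_add, r2]; exact hP 2
    | succ m ih =>
      obtain ⟨⟨x0, xl, xu⟩, ⟨y0, yl, yu⟩, ⟨z0, zl, zu⟩⟩ := ih
      refine ⟨⟨y0, yl, yu⟩, ⟨z0, zl, zu⟩, ?_⟩
      have rm := rec m
      set x := orb σ P m 0 with hx
      set y := orb σ P (m + 1) 0 with hy
      set z := orb σ P (m + 2) 0 with hz
      show B (m + 3) (orb σ P (m + 3) 0)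
      rw [rm]
      have tβ := hterm β hβ y z y0 z0
      set tb : K := R.coeff β * (y ^ β 0 * z ^ β 1) with htb
      have q1 : θ ^ (m + 2) = θ ^ (m + 1) * θ := pow_succ _ _
      have q2 : θ ^ (m + 3) = θ ^ (m + 1) * θ ^ 2 := by rw [← pow_add]
      have hy1 : 0 < T * θ ^ (m + 1) := hTm _
      -- bounds for sums `a L(y) + b L(z)`
      have up : ∀ α : Fin 2 →₀ ℕ, (α 0 : ℝ) * Real.log (v y : ℝ) + α 1 * Real.log (v z : ℝ) ≤
          (1 + ε) * ((α 0 : ℝ) + α 1 * θ) * (T * θ ^ (m + 1)) := by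
        intro α
        have a1 := mul_le_mul_of_nonneg_left yu (Nat.cast_nonneg (α := ℝ) (α 0))
        have a2 := mul_le_mul_of_nonneg_left zu (Nat.cast_nonneg (α := ℝ) (α 1))
        rw [q1] at a2
        calc _ ≤ _ := add_le_add a1 a2
          _ = _ := by ring
      have lowb : (1 - ε) * (T * θ ^ (m + 3)) ≤
          (β 0 : ℝ) * Real.log (v y : ℝ) + β 1 * Real.log (v z : ℝ) := by
        have a1 := mul_le_mul_of_nonneg_left yl (Nat.cast_nonneg (α := ℝ) (β 0))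
        have a2 := mul_le_mul_of_nonneg_left zl (Nat.cast_nonneg (α := ℝ) (β 1))
        rw [q1] at a2
        calc (1 - ε) * (T * θ ^ (m + 3)) =
            (β 0 : ℝ) * ((1 - ε) * (T * θ ^ (m + 1))) + β 1 * ((1 - ε) * (T * (θ ^ (m + 1) * θ))) := by
              rw [q2, ← hβe]; ring
          _ ≤ _ := add_le_add a1 a2
      have ltx : v (e * x) < v tb := by
        refine hlt _ _ (mul_ne_zero he x0) tβ.1 ?_
        rw [map_mul, hve, one_mul, tβ.2]
        refine lt_of_le_of_lt xu (lt_of_lt_of_le ?_ lowb)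
        have h3 : T * θ ^ (m + 3) = (T * θ ^ m) * θ ^ 3 := by rw [pow_add]; ring
        rw [h3]
        have h4 : 1 + ε < (1 - ε) * θ ^ 3 := by
          have : θ ≤ θ ^ 3 := le_self_pow₀ hθ.le (by norm_num)
          have := mul_le_mul_of_nonneg_left this (show 0 ≤ 1 - ε by linarith)
          linarith
        calc (1 + ε) * (T * θ ^ m) < ((1 - ε) * θ ^ 3) * (T * θ ^ m) :=
              mul_lt_mul_of_pos_right h4 (hTm m)
          _ = _ := by ring
      have lts : v (∑ α ∈ R.support.erase β, R.coeff α * (y ^ α 0 * z ^ α 1)) < v tb := by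
        refine Valuation.map_sum_lt v ((Valuation.ne_zero_iff v).2 tβ.1) fun α hα => ?_
        have hα' := (Finset.mem_erase.1 hα).2
        have tα := hterm α hα' y z y0 z0
        refine hlt _ _ tα.1 tβ.1 ?_
        rw [tα.2, tβ.2]
        refine lt_of_le_of_lt (up α) (lt_of_lt_of_le ?_ lowb)
        calc (1 + ε) * ((α 0 : ℝ) + α 1 * θ) * (T * θ ^ (m + 1)) <
            ((1 - ε) * θ ^ 2) * (T * θ ^ (m + 1)) := mul_lt_mul_of_pos_right (hεα α hα) hy1
          _ = _ := by rw [q2]; ring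
      have hsum : e * x + ∑ α ∈ R.support, R.coeff α * (y ^ α 0 * z ^ α 1) =
          (e * x + ∑ α ∈ R.support.erase β, R.coeff α * (y ^ α 0 * z ^ α 1)) + tb := by
        rw [← Finset.sum_erase_add _ _ hβ, add_assoc]
      have hlt2 : v (e * x + ∑ α ∈ R.support.erase β, R.coeff α * (y ^ α 0 * z ^ α 1)) < v tb :=
        Valuation.map_add_lt v ltx lts
      have hval : v (e * x + ∑ α ∈ R.support, R.coeff α * (y ^ α 0 * z ^ α 1)) = v tb := by
        rw [hsum]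
        exact Valuation.map_add_eq_of_lt_right v hlt2
      refine ⟨?_, ?_, ?_⟩
      · intro h0'
        rw [h0', map_zero] at hval
        exact (Valuation.ne_zero_iff v).2 tβ.1 hval.symm
      · rw [hval, tβ.2]
        exact lowb
      · rw [hval, tβ.2]
        refine (up β).trans (le_of_eq ?_)
        rw [hβe, q2]
        ring
  refine ⟨v, (1 - ε) * T, θ, mul_pos (by linarith) hTp, hθ, fun m => ⟨0, ?_⟩⟩
  obtain ⟨hx0, hxl, -⟩ := (hB m).1
  rw [← Real.le_log_iff_exp_le (hvpos _ hx0), mul_assoc]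
  exact hxl

end ZD85
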