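import Pool.Agent.H85.ZD.Crit
import Pool.Agent.H85.ZD.Val

/-!
# ZD CycII : the cyclic family, integral growth rate (row `CycII`)

`f(x, y, z) = (y, z, e x + R(y, z))`, `R = ∑ r_α y^{α 0} z^{α 1}`, `n ≥ 2` an integer,
`α 0 + α 1 n ≤ n²` for all `α ∈ supp R`, with equality for `α` in the non-empty set `E₀ ⊂ supp R`.

Proof.  `x_m` as in `CycI`: `x_{m+3} = e x_m + R(x_{m+1}, x_{m+2})`.
For `α ∈ E₀`: `α 1 ≤ n` and `α 0 + α 1 = n² - (n - 1) α 1 ≥ n² - (n-1) n = n ≥ 2`; so different elements of `E₀` have
different `α 0 + α 1`.  The polynomial `h(U) = ∑_{α ∈ E₀} r_α U^{α 0 + α 1 - 1} - 1 ∈ K[U]` is not constant and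
`h(0) = -1`; as `K` is algebraically closed it has a root `u ≠ 0`, i.e. `∑_{α ∈ E₀} r_α u^{α 0 + α 1} = u`.
Let `E` = {`e`, `u`} ∪ {the non-zero coefficients of `R`}, `p, v` from `exists_val`, `ϖ = (p : K)⁻¹`, `g = v(ϖ) > 1`.
For `m = 0, 1, 2` let `S_m` = `{x | v (x / ϖ^(n^m) - u) < 1}` (infinite: a ball around `u ϖ^(n^m)` of radius `g^(n^m)`).
Claim: if `P i ∈ S_i`, then `u_m := x_m / ϖ^(n^m)` satisfies `v(u_m - u) < 1` for all `m` (so `v(u_m) = 1`).
Induction: divide the recursion by `ϖ^(n^(m+3))`:
`u_{m+3} = e u_m ϖ^(n^m - n^(m+3)) + ∑_α r_α u_{m+1}^{α 0} u_{m+2}^{α 1} ϖ^(n^(m+1) (α 0 + α 1 n - n²))` (exponents in `ℤ`);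
the first term and all terms with `α ∉ E₀` have `v < 1` (their exponent of `ϖ` is negative), and
`r_α u_{m+1}^{α 0} u_{m+2}^{α 1} ≡ r_α u^{α 0 + α 1}` modulo `{v < 1}` for `α ∈ E₀`; the sum of these is `u`.
Hence `v(x_m) = g^(n^m) = exp(log g * n^m)`: `FastPt` with `c = log g`, `θ = n`.  `zdo_of_fast_prod`.
-/

set_option autoImplicit false

namespace ZD85

open MvPolynomial

/-- congruence modulo the elements of valuation less than one -/
def CycII_near {K : Type*} [Field K] (v : Valuation K NNReal) (a b : K) : Prop := v (a - b) < 1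

theorem CycII_near_add {K : Type*} [Field K] {v : Valuation K NNReal} {a b c d : K}
    (h : CycII_near v a b) (h' : CycII_near v c d) : CycII_near v (a + c) (b + d) := by
  unfold CycII_near at *
  have e : a + c - (b + d) = (a - b) + (c - d) := by ring
  rw [e]
  exact lt_of_le_of_lt (v.map_add _ _) (max_lt h h')

theorem CycII_near_refl {K : Type*} [Field K] {v : Valuation K NNReal} (a : K) :
    CycII_near v a a := by
  unfold CycII_near
  rw [sub_self, map_zero]
  exact zero_lt_one

theorem CycII_near_mul {K : Type*} [Field K] {v : Valuation K NNReal} {a b c d : K}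
    (h : CycII_near v a b) (h' : CycII_near v c d) (ha : v a ≤ 1) (hd : v d ≤ 1) :
    CycII_near v (a * c) (b * d) := by
  unfold CycII_near at *
  have e : a * c - b * d = a * (c - d) + (a - b) * d := by ring
  rw [e]
  refine lt_of_le_of_lt (v.map_add _ _) (max_lt ?_ ?_)
  · rw [map_mul]
    exact mul_lt_one_of_nonneg_of_lt_one_right ha zero_le h'
  · rw [map_mul]
    exact mul_lt_one_of_nonneg_of_lt_one_left zero_le h hd

theorem CycII_near_pow {K : Type*} [Field K] {v : Valuation K NNReal} {a b : K}
    (h : CycII_near v a b) (ha : v a ≤ 1) (hb : v b ≤ 1) (k : ℕ) :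
    CycII_near v (a ^ k) (b ^ k) := by
  induction k with
  | zero => simpa using CycII_near_refl (v := v) (1 : K)
  | succ k ih =>
    rw [pow_succ, pow_succ]
    refine CycII_near_mul ih h ?_ hb
    rw [map_pow]
    exact pow_le_one₀ zero_le ha

theorem CycII_near_sum {K : Type*} [Field K] {v : Valuation K NNReal} {ι : Type*}
    (s : Finset ι) (f g : ι → K) (h : ∀ i ∈ s, CycII_near v (f i) (g i)) :
    CycII_near v (∑ i ∈ s, f i) (∑ i ∈ s, g i) := by
  classical
  induction s using Finset.induction_on with
  | empty => simpa using CycII_near_refl (v := v) (0 : K)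
  | insert i s hi ih =>
    rw [Finset.sum_insert hi, Finset.sum_insert hi]
    exact CycII_near_add (h i (Finset.mem_insert_self _ _))
      (ih fun j hj => h j (Finset.mem_insert_of_mem hj))

theorem CycII_val {K : Type*} [Field K] {v : Valuation K NNReal} {a b : K}
    (h : CycII_near v a b) (hb : v b = 1) : v a = 1 := by
  unfold CycII_near at h
  rw [← hb]
  exact Valuation.map_eq_of_sub_lt v (by rwa [hb])

/-- the root -/
theorem CycII_root {K : Type*} [Field K] [IsAlgClosed K]
    (R : MvPolynomial (Fin 2) K) (N : ℕ) (hN : 2 ≤ N)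
    (heq : ∃ α ∈ R.support, α 0 + α 1 * N = N ^ 2) :
    ∃ u : K, u ≠ 0 ∧ ∑ α ∈ R.support.filter (fun α => α 0 + α 1 * N = N ^ 2),
      R.coeff α * u ^ (α 0 + α 1) = u := by
  classical
  set E0 := R.support.filter (fun α => α 0 + α 1 * N = N ^ 2) with hE0
  have hge : ∀ α ∈ E0, 2 ≤ α 0 + α 1 := by
    intro α hα
    have h1 := (Finset.mem_filter.mp hα).2
    have h2 : α 1 ≤ N := by
      by_contra hc
      push Not at hc
      have : (N + 1) * N ≤ α 1 * N := Nat.mul_le_mul_right _ hc
      nlinarith
    obtain ⟨k, rfl⟩ : ∃ k, N = k + 2 := ⟨N - 2, by omega⟩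
    nlinarith
  have hinj : ∀ α ∈ E0, ∀ β ∈ E0, α 0 + α 1 = β 0 + β 1 → α = β := by
    intro α hα β hβ hs
    have h1 := (Finset.mem_filter.mp hα).2
    have h2 := (Finset.mem_filter.mp hβ).2
    have h3 : α 1 = β 1 := by
      obtain ⟨k, rfl⟩ : ∃ k, N = k + 2 := ⟨N - 2, by omega⟩
      have h4 : α 1 * (k + 1) = β 1 * (k + 1) := by
        have : α 0 + α 1 + α 1 * (k + 1) = β 0 + β 1 + β 1 * (k + 1) := by
          have e1 : α 0 + α 1 + α 1 * (k + 1) = α 0 + α 1 * (k + 2) := by ring
          have e2 : β 0 + β 1 + β 1 * (k + 1) = β 0 + β 1 * (k + 2) := by ring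
          rw [e1, e2, h1, h2]
        omega
      exact Nat.eq_of_mul_eq_mul_right (Nat.succ_pos k) h4
    ext i
    fin_cases i
    · simp only [Fin.zero_eta, Fin.isValue]
      omega
    · exact h3
  set h : Polynomial K := ∑ α ∈ E0, Polynomial.monomial (α 0 + α 1 - 1) (R.coeff α) - 1 with hh
  obtain ⟨α, hα, hαe⟩ := heq
  have hαE : α ∈ E0 := Finset.mem_filter.mpr ⟨hα, hαe⟩
  have hcoef : h.coeff (α 0 + α 1 - 1) = R.coeff α := by
    rw [hh, Polynomial.coeff_sub, Polynomial.finsetSum_coeff, Polynomial.coeff_one,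
      if_neg (by have := hge α hαE; omega), sub_zero]
    rw [Finset.sum_eq_single α]
    · rw [Polynomial.coeff_monomial, if_pos rfl]
    · intro β hβ hne
      rw [Polynomial.coeff_monomial, if_neg]
      intro hc
      apply hne
      apply hinj β hβ α hαE
      have := hge α hαE
      have := hge β hβ
      omega
    · intro hc
      exact absurd hαE hc
  have hdeg : h.degree ≠ 0 := by
    intro hc
    have h1 : h.coeff (α 0 + α 1 - 1) = 0 := by
      apply Polynomial.coeff_eq_zero_of_degree_lt
      rw [hc]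
      have := hge α hαE
      exact_mod_cast (show 0 < α 0 + α 1 - 1 by omega)
    rw [hcoef] at h1
    exact (MvPolynomial.mem_support_iff.mp hα) h1
  obtain ⟨u, hu⟩ := IsAlgClosed.exists_root h hdeg
  have hev : ∑ α ∈ E0, R.coeff α * u ^ (α 0 + α 1 - 1) = 1 := by
    rw [Polynomial.IsRoot.def, hh, Polynomial.eval_sub, Polynomial.eval_finsetSum,
      Polynomial.eval_one, sub_eq_zero] at hu
    simpa [Polynomial.eval_monomial] using hu
  have hu0 : u ≠ 0 := by
    rintro rfl
    have : ∑ α ∈ E0, R.coeff α * (0 : K) ^ (α 0 + α 1 - 1) = 0 := by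
      apply Finset.sum_eq_zero
      intro α hα
      rw [zero_pow (by have := hge α hα; omega), mul_zero]
    rw [this] at hev
    exact zero_ne_one hev
  refine ⟨u, hu0, ?_⟩
  calc ∑ α ∈ E0, R.coeff α * u ^ (α 0 + α 1)
      = (∑ α ∈ E0, R.coeff α * u ^ (α 0 + α 1 - 1)) * u := by
        rw [Finset.sum_mul]
        apply Finset.sum_congr rfl
        intro α hα
        rw [mul_assoc, ← pow_succ]
        congr 2
        have := hge α hα
        omega
    _ = u := by rw [hev, one_mul]

theorem cyc_int {K : Type*} [Field K] [CharZero K] [IsAlgClosed K] (σ : PAut K 3) (e : K) (he : e ≠ 0)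
    (R : MvPolynomial (Fin 2) K) (h0 : σ (X 0) = X 1) (h1 : σ (X 1) = X 2)
    (h2 : σ (X 2) = C e * X 0 + aeval ![X 1, X 2] R) (N : ℕ) (hN : 2 ≤ N)
    (hle : ∀ α ∈ R.support, α 0 + α 1 * N ≤ N ^ 2)
    (heq : ∃ α ∈ R.support, α 0 + α 1 * N = N ^ 2) : Zdo σ := by
  classical
  obtain ⟨u, hu0, hu⟩ := CycII_root R N hN heq
  obtain ⟨p, v, hp, hvp, hvE, -⟩ := exists_val
    (insert e (insert u (R.support.image (fun α => R.coeff α)))) (by
      simp only [Finset.mem_insert, Finset.mem_image, not_or, not_exists, not_and]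
      exact ⟨he.symm, hu0.symm, fun α hα => MvPolynomial.mem_support_iff.mp hα⟩)
  have hve : v e = 1 := hvE _ (by simp)
  have hvu : v u = 1 := hvE _ (by simp)
  have hvR : ∀ α ∈ R.support, v (R.coeff α) = 1 := fun α hα => hvE _ (by
    simp only [Finset.mem_insert, Finset.mem_image]
    exact Or.inr (Or.inr ⟨α, hα, rfl⟩))
  set π : K := (p : K) with hπ
  have hπ0 : π ≠ 0 := by
    rw [hπ]
    exact_mod_cast hp.ne_zero
  have hvπ0 : v π ≠ 0 := (Valuation.ne_zero_iff v).mpr hπ0
  have hvπpos : 0 < v π := pos_iff_ne_zero.mpr hvπ0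
  apply zdo_of_fast_prod σ
    (fun i : Fin 3 => {x | v (x - u * (π ^ (N ^ (i : ℕ)))⁻¹) < (v π ^ (N ^ (i : ℕ)))⁻¹})
  · intro i
    apply ball_infinite v π hπ0 hvp
    positivity
  · intro P hP
    set x : ℕ → K := fun m => orb σ P m 0 with hx
    have hx1 : ∀ m, orb σ P m 1 = x (m + 1) := by
      intro m
      rw [hx]
      simp only
      rw [orb_succ_apply, h0, eval_X]
    have hx2 : ∀ m, orb σ P m 2 = x (m + 2) := by
      intro m
      rw [← hx1 (m + 1), orb_succ_apply, h1, eval_X]
    have hrec : ∀ m, x (m + 3) = e * x m +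
        ∑ α ∈ R.support, R.coeff α * (x (m + 1) ^ α 0 * x (m + 2) ^ α 1) := by
      intro m
      rw [← hx2 (m + 1), orb_succ_apply, h2, map_add, map_mul, eval_C, eval_X]
      congr 1
      have e1 : eval (orb σ P m) (aeval ![X 1, X 2] R) =
          eval ![x (m + 1), x (m + 2)] R := by
        rw [← aeval_eq_eval, ← aeval_eq_eval, comp_aeval_apply]
        congr 2
        ext i
        fin_cases i
        · simp [hx1]
        · simp [hx2]
      rw [e1, eval_eq']
      apply Finset.sum_congr rfl
      intro α _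
      rw [Fin.prod_univ_two]
      simp
    have hnear : ∀ m, CycII_near v (x m * π ^ (N ^ m)) u := by
      intro m
      induction m using Nat.strong_induction_on with
      | _ m ih =>
        by_cases hm : m < 3
        · have hxm : x m = P ⟨m, hm⟩ := by
            have hc : m = 0 ∨ m = 1 ∨ m = 2 := by omega
            rcases hc with rfl | rfl | rfl
            · rfl
            · have := hx1 0
              rw [orb_zero] at this
              exact this.symm
            · have := hx2 0
              rw [orb_zero] at this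
              exact this.symm
          have h3 := hP ⟨m, hm⟩
          simp only [Set.mem_ofPred_eq] at h3
          rw [← hxm] at h3
          unfold CycII_near
          have e1 : x m * π ^ (N ^ m) - u = (x m - u * (π ^ (N ^ m))⁻¹) * π ^ (N ^ m) := by
            have : π ^ (N ^ m) ≠ 0 := pow_ne_zero _ hπ0
            field_simp
          rw [e1, map_mul, map_pow]
          have h4 : 0 < v π ^ (N ^ m) := pow_pos hvπpos _
          calc v (x m - u * (π ^ (N ^ m))⁻¹) * v π ^ (N ^ m)
              < (v π ^ (N ^ m))⁻¹ * v π ^ (N ^ m) := mul_lt_mul_of_pos_right h3 h4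
            _ = 1 := inv_mul_cancel₀ h4.ne'
        · obtain ⟨k, rfl⟩ : ∃ k, m = k + 3 := ⟨m - 3, by omega⟩
          have i0 := ih k (by omega)
          have i1 := ih (k + 1) (by omega)
          have i2 := ih (k + 2) (by omega)
          have v0 := CycII_val i0 hvu
          have v1 := CycII_val i1 hvu
          have v2 := CycII_val i2 hvu
          have hNk : ∀ a b : ℕ, a < b → N ^ a < N ^ b := fun a b hab =>
            Nat.pow_lt_pow_right (by omega) hab
          -- the first term
          have t1 : CycII_near v (e * x k * π ^ (N ^ (k + 3))) 0 := by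
            unfold CycII_near
            have hlt := hNk k (k + 3) (by omega)
            obtain ⟨d, hd⟩ := Nat.exists_eq_add_of_lt hlt
            rw [hd, sub_zero]
            have e1 : e * x k * π ^ (N ^ k + d + 1) = e * (x k * π ^ (N ^ k)) * π ^ (d + 1) := by
              ring
            rw [e1, map_mul, map_mul, hve, v0, one_mul, one_mul, map_pow]
            exact pow_lt_one₀ zero_le hvp (Nat.succ_ne_zero d)
          -- the terms of the sum
          have t2 : CycII_near v
              (∑ α ∈ R.support, R.coeff α * (x (k + 1) ^ α 0 * x (k + 2) ^ α 1) *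
                π ^ (N ^ (k + 3)))
              (∑ α ∈ R.support, if α 0 + α 1 * N = N ^ 2 then R.coeff α * u ^ (α 0 + α 1)
                else 0) := by
            apply CycII_near_sum
            intro α hα
            obtain ⟨d, hd⟩ := Nat.exists_eq_add_of_le (hle α hα)
            have e1 : N ^ (k + 3) = N ^ (k + 1) * α 0 + N ^ (k + 2) * α 1 + N ^ (k + 1) * d := by
              have : N ^ (k + 3) = N ^ (k + 1) * N ^ 2 := by ring
              rw [this, hd]
              ring
            have e2 : R.coeff α * (x (k + 1) ^ α 0 * x (k + 2) ^ α 1) * π ^ (N ^ (k + 3)) =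
                R.coeff α * ((x (k + 1) * π ^ (N ^ (k + 1))) ^ α 0 *
                  (x (k + 2) * π ^ (N ^ (k + 2))) ^ α 1) * π ^ (N ^ (k + 1) * d) := by
              rw [e1, pow_add, pow_add, mul_pow, mul_pow, ← pow_mul, ← pow_mul]
              ring
            rw [e2]
            by_cases hc : α 0 + α 1 * N = N ^ 2
            · rw [if_pos hc]
              have hd0 : d = 0 := by omega
              rw [hd0, mul_zero, pow_zero, mul_one, pow_add u (α 0) (α 1)]
              refine CycII_near_mul (CycII_near_refl _) (CycII_near_mul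
                (CycII_near_pow i1 v1.le hvu.le _) (CycII_near_pow i2 v2.le hvu.le _) ?_ ?_)
                (hvR α hα).le ?_
              · rw [map_pow, v1, one_pow]
              · rw [map_pow, hvu, one_pow]
              · rw [map_mul, map_pow, map_pow, hvu, one_pow, one_pow, one_mul]
            · rw [if_neg hc]
              unfold CycII_near
              rw [sub_zero, map_mul, map_mul, map_mul, map_pow, map_pow, hvR α hα, v1, v2,
                one_pow, one_pow, one_mul, one_mul, one_mul, map_pow]
              refine pow_lt_one₀ zero_le hvp ?_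
              have : d ≠ 0 := by
                intro hd0
                apply hc
                omega
              have h5 : 0 < N ^ (k + 1) := Nat.pow_pos (by omega)
              positivity
          have hsum : (∑ α ∈ R.support, if α 0 + α 1 * N = N ^ 2 then
              R.coeff α * u ^ (α 0 + α 1) else 0) = u := by
            rw [← Finset.sum_filter]
            exact hu
          rw [hsum] at t2
          have t3 := CycII_near_add t1 t2
          rw [zero_add] at t3
          have e3 : x (k + 3) * π ^ (N ^ (k + 3)) = e * x k * π ^ (N ^ (k + 3)) +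
              ∑ α ∈ R.support, R.coeff α * (x (k + 1) ^ α 0 * x (k + 2) ^ α 1) *
                π ^ (N ^ (k + 3)) := by
            rw [hrec, add_mul, Finset.sum_mul]
          rw [e3]
          exact t3
    have hvπ1 : (0 : ℝ) < (v π : ℝ) := by exact_mod_cast hvπpos
    have hvπ2 : (v π : ℝ) < 1 := by exact_mod_cast hvp
    refine ⟨v, -Real.log (v π : ℝ), (N : ℝ), ?_, ?_, ?_⟩
    · have := Real.log_neg hvπ1 hvπ2
      linarith
    · exact_mod_cast (show 1 < N by omega)
    · intro m
      refine ⟨0, ?_⟩
      have h3 := CycII_val (hnear m) hvu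
      rw [map_mul, map_pow] at h3
      have h4 : v (x m) = (v π ^ (N ^ m))⁻¹ := eq_inv_of_mul_eq_one_left h3
      change Real.exp (-Real.log (v π : ℝ) * (N : ℝ) ^ m) ≤ ((v (x m) : NNReal) : ℝ)
      rw [h4]
      push_cast
      have e4 : Real.exp (-Real.log (v π : ℝ) * (N : ℝ) ^ m) = ((v π : ℝ) ^ (N ^ m))⁻¹ := by
        rw [neg_mul, Real.exp_neg]
        congr 1
        rw [← Real.exp_log (pow_pos hvπ1 (N ^ m)), Real.log_pow]
        congr 1
        push_cast
        ring
      rw [e4]

end ZD85
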