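import Mathlib

/-!
# MP_dd25b9: Zariski dense orbits for automorphisms of affine 3-space - definitions
-/

set_option autoImplicit false

namespace ZD85

open MvPolynomial

universe u
variable {K : Type u} [Field K] {n : ℕ}

/-- the automorphism group of the polynomial ring `K[x_1,...,x_n]`; multiplication is composition,
`(σ * τ) F = σ (τ F)` -/
abbrev PAut (K : Type u) [Field K] (n : ℕ) := MvPolynomial (Fin n) K ≃ₐ[K] MvPolynomial (Fin n) K

/-- the polynomial self-map of `K^n` belonging to `σ` : `P ↦ (σ(x_i)(P))_i` -/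
noncomputable def pmap (σ : PAut K n) (P : Fin n → K) : Fin n → K := fun i => eval P (σ (X i))

/-- the `m`-th point of the orbit of `P` -/
noncomputable def orb (σ : PAut K n) (P : Fin n → K) (m : ℕ) : Fin n → K := (pmap σ)^[m] P

theorem eval_pmap (σ : PAut K n) (P : Fin n → K) (F : MvPolynomial (Fin n) K) :
    eval (pmap σ P) F = eval P (σ F) := by
  have h : (aeval (pmap σ P) : MvPolynomial (Fin n) K →ₐ[K] K) = (aeval P).comp σ.toAlgHom := by
    apply MvPolynomial.algHom_ext
    intro i
    simp [pmap, aeval_eq_eval]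
  have := congrArg (fun g : MvPolynomial (Fin n) K →ₐ[K] K => g F) h
  simpa [aeval_eq_eval] using this

theorem orb_zero (σ : PAut K n) (P : Fin n → K) : orb σ P 0 = P := rfl

theorem orb_succ (σ : PAut K n) (P : Fin n → K) (m : ℕ) : orb σ P (m + 1) = pmap σ (orb σ P m) := by
  simp [orb, Function.iterate_succ_apply']

theorem orb_succ_apply (σ : PAut K n) (P : Fin n → K) (m : ℕ) (i : Fin n) :
    orb σ P (m + 1) i = eval (orb σ P m) (σ (X i)) := by
  rw [orb_succ]; rfl

theorem eval_orb_succ (σ : PAut K n) (P : Fin n → K) (m : ℕ) (F : MvPolynomial (Fin n) K) :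
    eval (orb σ P (m + 1)) F = eval (orb σ P m) (σ F) := by
  rw [orb_succ, eval_pmap]

theorem eval_orb (σ : PAut K n) (P : Fin n → K) (m : ℕ) (F : MvPolynomial (Fin n) K) :
    eval (orb σ P m) F = eval P ((σ ^ m) F) := by
  induction m generalizing F with
  | zero => simp [orb_zero]
  | succ m ih => rw [eval_orb_succ, ih, pow_succ]; rfl

theorem orb_add (σ : PAut K n) (P : Fin n → K) (k m : ℕ) (F : MvPolynomial (Fin n) K) :
    eval (orb σ P (k + m)) F = eval (orb σ P k) ((σ ^ m) F) := by
  rw [eval_orb, eval_orb, pow_add]; rfl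

/-- there is a non-constant `σ`-invariant rational function `A / B` -/
def HasInv (σ : PAut K n) : Prop :=
  ∃ A B : MvPolynomial (Fin n) K, B ≠ 0 ∧ (∀ c : K, A ≠ C c * B) ∧ σ A * B = A * σ B

/-- there is a point with Zariski dense forward orbit -/
def HasDense (σ : PAut K n) : Prop :=
  ∃ P : Fin n → K, ∀ F : MvPolynomial (Fin n) K, F ≠ 0 → ∃ m : ℕ, eval (orb σ P m) F ≠ 0

/-- the alternative of the Zariski dense orbit conjecture -/
def Zdo (σ : PAut K n) : Prop := HasInv σ ∨ HasDense σ

/-- two coordinates are algebraically independent along the orbit of `P`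
(that is, the orbit closure has dimension at least two) -/
def PairInd (σ : PAut K n) (P : Fin n → K) : Prop :=
  ∃ i l : Fin n, i ≠ l ∧ ∀ G : Polynomial (Polynomial K), G ≠ 0 →
    ∃ m : ℕ, Polynomial.evalEval (orb σ P m l) (orb σ P m i) G ≠ 0

/-- the size of the orbit of `P` grows at least doubly exponentially at some place -/
def FastPt (σ : PAut K n) (P : Fin n → K) : Prop :=
  ∃ (v : Valuation K NNReal) (c θ : ℝ), 0 < c ∧ 1 < θ ∧
    ∀ m : ℕ, ∃ i : Fin n, Real.exp (c * θ ^ m) ≤ (v (orb σ P m i) : ℝ)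

end ZD85
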