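import Pool.Agent.H85.ZD.Defs

/-!
# ZD FieldE : a proper subfield of `F_p`-bar closed under small extensions, and the chain lemma (row `FieldE`)

`exists_subfield`: `F` algebraically closed of characteristic `p`, every non-zero element a root of unity; `Z ⊂ F` finite,
`N : ℕ`.  There is a subfield `E`, `Z ⊂ E ≠ F`, infinite, such that every root in `F` of a non-zero polynomial over `E` of
degree `≤ N` lies in `E`.
Proof.  The subfield `k` generated by `Z` is finite (finitely many elements algebraic over the prime field), of order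
`q = p^r`; all `z ∈ Z` satisfy `z^q = z`.  (It is enough to have some `q = p^r`, `r ≥ 1`, with `z^q = z` for all `z ∈ Z`:
if `z^N = 1` with `N` prime to `p` - replace `N` by its prime-to-`p` part, as `z^(p m) = 1` gives `z^m = 1` - then
`N ∣ p^φ(N) - 1`; take `r` a common multiple.)  Let `ℓ` be a prime `> max N 2` and
`E = {u | ∃ d, 1 ≤ d ∧ ¬ ℓ ∣ d ∧ u^(q^d) = u}`.
* `E` is a subfield: for `u, u'` with `d, d'` the number `d d'` works for both, and `x ↦ x^(q^(dd'))` is a ring
  homomorphism (`add_pow_char_pow`).  `Z ⊂ E` (`d = 1`).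
* `E ≠ F`: `X^(q^ℓ) - X` is separable, so it has `q^ℓ` roots in `F`.  A root lying in `E` satisfies `u^(q^d) = u` with
  `ℓ ∤ d`, so `u^(q^gcd(d, ℓ)) = u^q = u` (`Function.IsPeriodicPt.gcd` for the Frobenius iterate); there are `≤ q < q^ℓ` such.
* `E` is infinite: it contains the `q^d` roots of `X^(q^d) - X` for all `d` prime to `ℓ`.
* closed: let `f ∈ E[X]`, `f ≠ 0`, `natDegree f ≤ N`, `f(u) = 0`.  The coefficients of `f` lie in
  `k' = {x | x^(q^D) = x}` for a common `D`, `ℓ ∤ D`; `k'` is a finite subfield with at most (exactly) `q^D` elements.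
  `u` is algebraic over `k'` of degree `e`, `1 ≤ e ≤ N < ℓ`; `k'(u)` is a finite field of order `|k'|^e`.  With `|k'| = q^D`
  we get `u^(q^(D e)) = u` and `ℓ ∤ D e`.  (Alternative without orders: the conjugates `u^(q^(D j))`, `j ≥ 0`, are all
  roots of `f`, so two of `j = 0..N` agree: `u^(q^(D j)) = u^(q^(D j'))`, `j < j' ≤ N`; the Frobenius is injective, so
  `u^(q^(D (j' - j))) = u`, and `ℓ ∤ D (j' - j)`.  This is the shortest proof.)

`chain3`: for an endomorphism `g` of `F[x_1, x_2, x_3]`, `F` any field: `g^6 f = 0 → g^3 f = 0`.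
Proof: `𝔭_m = ker g^m` is a prime ideal (the target is a domain), `𝔭_0 = 0 ⊆ 𝔭_1 ⊆ 𝔭_2 ⊆ ...`.  If `𝔭_m = 𝔭_{m+1}` then
`𝔭_{m+1} = 𝔭_{m+2}` (`g^{m+2} f = 0` means `g f ∈ 𝔭_{m+1} = 𝔭_m`, i.e. `f ∈ 𝔭_{m+1}`), and so on.  If `𝔭_3 ≠ 𝔭_4` then
`𝔭_0 < 𝔭_1 < 𝔭_2 < 𝔭_3 < 𝔭_4` is a chain of length 4 of primes, against
`ringKrullDim (MvPolynomial (Fin 3) F) = 3` (`MvPolynomial.ringKrullDim_of_isNoetherianRing`, `ringKrullDim_eq_zero_of_field`;
`LTSeries` of `PrimeSpectrum`).  So `𝔭_3 = 𝔭_4 = 𝔭_5 = 𝔭_6`.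
-/

set_option autoImplicit false

namespace ZD85

open MvPolynomial

/-- an injective self-map whose orbit of `u` stays in a finite set: `u` is periodic. -/
theorem FieldE_per_of_finite {A : Type*} [DecidableEq A] (f : A → A) (hf : Function.Injective f)
    (u : A) (S : Finset A) (hS : ∀ i, f^[i] u ∈ S) : ∃ d, 1 ≤ d ∧ d ≤ S.card ∧ f^[d] u = u := by
  obtain ⟨i, hi, j, hj, hij, he⟩ := Finset.exists_ne_map_eq_of_card_lt_of_maps_to
    (s := Finset.range (S.card + 1)) (t := S) (by simp) (f := fun i => f^[i] u)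
    (fun i _ => hS i)
  have key : ∀ i j, i < j → j ≤ S.card → f^[i] u = f^[j] u →
      ∃ d, 1 ≤ d ∧ d ≤ S.card ∧ f^[d] u = u := by
    intro i j hij hj he
    refine ⟨j - i, by omega, by omega, ?_⟩
    have h1 : f^[i] (f^[j - i] u) = f^[j] u := by
      rw [← Function.iterate_add_apply]; congr 1; omega
    exact hf.iterate i (h1.trans he.symm)
  simp only [Finset.mem_range] at hi hj
  rcases lt_or_gt_of_ne hij with h | h
  · exact key i j h (by omega) he
  · exact key j i h (by omega) he.symm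

/-- `u ^ (p ^ n) = u` -/
def FieldE_Per {F : Type*} [Field F] (p : ℕ) [Fact p.Prime] [CharP F p] (n : ℕ) (u : F) : Prop :=
  Function.IsPeriodicPt (frobenius F p) n u

theorem FieldE_per_iff {F : Type*} [Field F] (p : ℕ) [Fact p.Prime] [CharP F p] (n : ℕ) (u : F) :
    FieldE_Per p n u ↔ iterateFrobenius F p n u = u := by
  unfold FieldE_Per Function.IsPeriodicPt Function.IsFixedPt
  rw [← coe_iterateFrobenius]

theorem FieldE_per_iff' {F : Type*} [Field F] (p : ℕ) [Fact p.Prime] [CharP F p] (n : ℕ) (u : F) :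
    FieldE_Per p n u ↔ u ^ p ^ n = u := by
  rw [FieldE_per_iff, iterateFrobenius_def]

theorem FieldE_per_dvd {F : Type*} [Field F] (p : ℕ) [Fact p.Prime] [CharP F p] {n m : ℕ} {u : F}
    (h : FieldE_Per p n u) (hnm : n ∣ m) : FieldE_Per p m u :=
  Function.IsPeriodicPt.trans_dvd h hnm

theorem FieldE_root_per {F : Type*} [Field F] (p : ℕ) [Fact p.Prime] [CharP F p]
    (u : F) (hu : u = 0 ∨ ∃ N : ℕ, 1 ≤ N ∧ u ^ N = 1) : ∃ r, 1 ≤ r ∧ FieldE_Per p r u := by
  classical
  rcases hu with rfl | ⟨N, hN, hu⟩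
  · refine ⟨1, le_rfl, ?_⟩
    rw [FieldE_per_iff, map_zero]
  · obtain ⟨d, h1, -, h3⟩ := FieldE_per_of_finite (frobenius F p) (frobenius F p).injective u
      (Polynomial.nthRootsFinset N (1 : F)) (by
        intro i
        rw [Polynomial.mem_nthRootsFinset (by omega), ← coe_iterateFrobenius, iterateFrobenius_def,
          ← pow_mul, mul_comm, pow_mul, hu, one_pow])
    exact ⟨d, h1, h3⟩

theorem FieldE_common {F : Type*} [Field F] (p : ℕ) [Fact p.Prime] [CharP F p]
    (Z : Finset F) (P : ℕ → Prop) (hP1 : P 1) (hPm : ∀ a b, P a → P b → P (a * b)) (r : ℕ)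
    (h : ∀ z ∈ Z, ∃ d, P d ∧ FieldE_Per p (r * d) z) :
    ∃ D, P D ∧ ∀ z ∈ Z, FieldE_Per p (r * D) z := by
  classical
  induction Z using Finset.induction_on with
  | empty => exact ⟨1, hP1, by simp⟩
  | insert a Z ha ih =>
    obtain ⟨D, hD, hZ⟩ := ih (fun z hz => h z (Finset.mem_insert_of_mem hz))
    obtain ⟨d, hd, haz⟩ := h a (Finset.mem_insert_self _ _)
    refine ⟨D * d, hPm D d hD hd, ?_⟩
    intro z hz
    rcases Finset.mem_insert.1 hz with rfl | hz
    · exact FieldE_per_dvd p haz ⟨D, by ring⟩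
    · exact FieldE_per_dvd p (hZ z hz) ⟨d, by ring⟩

/-- The roots of `X ^ (p ^ n) - X` in an algebraically closed field. -/
theorem FieldE_card {F : Type*} [Field F] [IsAlgClosed F] (p : ℕ) [hp : Fact p.Prime] [CharP F p]
    (n : ℕ) (hn : n ≠ 0) : ∃ S : Finset F, S.card = p ^ n ∧ ∀ u, u ∈ S ↔ FieldE_Per p n u := by
  classical
  have h1 : 1 < p ^ n := Nat.one_lt_pow hn hp.out.one_lt
  have hsep : (Polynomial.X ^ (p ^ n) - Polynomial.X : Polynomial F).Separable :=
    galois_poly_separable p (p ^ n) (dvd_pow_self p hn)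
  have hne : (Polynomial.X ^ (p ^ n) - Polynomial.X : Polynomial F) ≠ 0 :=
    FiniteField.X_pow_card_sub_X_ne_zero F h1
  have hdeg : (Polynomial.X ^ (p ^ n) - Polynomial.X : Polynomial F).natDegree = p ^ n :=
    FiniteField.X_pow_card_sub_X_natDegree_eq F h1
  have hnd := Polynomial.nodup_roots hsep
  have hcard : (Polynomial.X ^ (p ^ n) - Polynomial.X : Polynomial F).roots.card = p ^ n := by
    exact (Polynomial.splits_iff_card_roots.1
      (IsAlgClosed.splits (Polynomial.X ^ (p ^ n) - Polynomial.X : Polynomial F))).trans hdeg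
  refine ⟨(Polynomial.X ^ (p ^ n) - Polynomial.X : Polynomial F).roots.toFinset, ?_, ?_⟩
  · rw [Multiset.toFinset_card_of_nodup hnd, hcard]
  · intro u
    rw [Multiset.mem_toFinset, Polynomial.mem_roots hne, FieldE_per_iff']
    simp [Polynomial.IsRoot, sub_eq_zero]

theorem exists_subfield {F : Type*} [Field F] [IsAlgClosed F] (p : ℕ) [Fact p.Prime] [CharP F p]
    (halg : ∀ u : F, u ≠ 0 → ∃ N : ℕ, 1 ≤ N ∧ u ^ N = 1) (Z : Finset F) (N : ℕ) :
    ∃ E : Subfield F, (∀ z ∈ Z, z ∈ E) ∧ E ≠ ⊤ ∧ (E : Set F).Infinite ∧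
      ∀ f : Polynomial F, (∀ k, f.coeff k ∈ E) → f ≠ 0 → f.natDegree ≤ N → ∀ u : F, f.eval u = 0 → u ∈ E := by
  classical
  obtain ⟨r, hr, hrZ⟩ := FieldE_common p Z (fun d => 1 ≤ d) le_rfl
    (fun a b ha hb => Nat.one_le_iff_ne_zero.2 (Nat.mul_ne_zero (by omega) (by omega))) 1 (by
      intro z _
      obtain ⟨d, hd1, hd2⟩ := FieldE_root_per p z (by
        by_cases hz : z = 0
        · exact Or.inl hz
        · exact Or.inr (halg z hz))
      exact ⟨d, hd1, by rwa [one_mul]⟩)
  simp only [one_mul] at hrZ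
  obtain ⟨l, hlN, hl⟩ := Nat.exists_infinite_primes (N + 1)
  have hl2 := hl.two_le
  have hmul : ∀ a b : ℕ, ¬ l ∣ a → ¬ l ∣ b → ¬ l ∣ a * b := fun a b ha hb h =>
    (hl.dvd_mul.1 h).elim ha hb
  have hone : ¬ l ∣ 1 := fun h => by have := Nat.le_of_dvd one_pos h; omega
  let E : Subfield F :=
    { carrier := {u | ∃ d, ¬ l ∣ d ∧ FieldE_Per p (r * d) u}
      mul_mem' := by
        rintro u v ⟨d, hd, hu⟩ ⟨e, he, hv⟩
        refine ⟨d * e, hmul _ _ hd he, ?_⟩
        have hu' := FieldE_per_dvd p (m := r * (d * e)) hu ⟨e, by ring⟩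
        have hv' := FieldE_per_dvd p (m := r * (d * e)) hv ⟨d, by ring⟩
        rw [FieldE_per_iff] at hu' hv' ⊢
        rw [map_mul, hu', hv']
      one_mem' := ⟨1, hone, by rw [FieldE_per_iff, map_one]⟩
      add_mem' := by
        rintro u v ⟨d, hd, hu⟩ ⟨e, he, hv⟩
        refine ⟨d * e, hmul _ _ hd he, ?_⟩
        have hu' := FieldE_per_dvd p (m := r * (d * e)) hu ⟨e, by ring⟩
        have hv' := FieldE_per_dvd p (m := r * (d * e)) hv ⟨d, by ring⟩
        rw [FieldE_per_iff] at hu' hv' ⊢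
        rw [map_add, hu', hv']
      zero_mem' := ⟨1, hone, by rw [FieldE_per_iff, map_zero]⟩
      neg_mem' := by
        rintro u ⟨d, hd, hu⟩
        refine ⟨d, hd, ?_⟩
        rw [FieldE_per_iff] at hu ⊢
        rw [map_neg, hu]
      inv_mem' := by
        rintro u ⟨d, hd, hu⟩
        refine ⟨d, hd, ?_⟩
        rw [FieldE_per_iff] at hu ⊢
        rw [map_inv₀, hu] }
  have hE : ∀ u, u ∈ E ↔ ∃ d, ¬ l ∣ d ∧ FieldE_Per p (r * d) u := fun u => Iff.rfl
  have hp2 : 2 ≤ p := (Fact.out : p.Prime).two_le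
  refine ⟨E, ?_, ?_, ?_, ?_⟩
  · intro z hz
    exact (hE z).2 ⟨1, hone, by rw [mul_one]; exact hrZ z hz⟩
  · intro htop
    obtain ⟨S, hS, hSm⟩ := FieldE_card (F := F) p (r * l) (Nat.mul_ne_zero (by omega) (by omega))
    obtain ⟨T, hT, hTm⟩ := FieldE_card (F := F) p r (by omega)
    have hsub : S ⊆ T := by
      intro u hu
      rw [hSm] at hu
      rw [hTm]
      have huE : u ∈ E := by rw [htop]; trivial
      obtain ⟨d, hd, hud⟩ := (hE u).1 huE
      have hg := Function.IsPeriodicPt.gcd hu hud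
      have : Nat.gcd (r * l) (r * d) = r := by
        rw [Nat.gcd_mul_left, (hl.coprime_iff_not_dvd.2 hd : Nat.gcd l d = 1), mul_one]
      rw [this] at hg
      exact hg
    have h1 := Finset.card_le_card hsub
    rw [hS, hT] at h1
    have h2 : p ^ r < p ^ (r * l) := Nat.pow_lt_pow_right (by omega) (by nlinarith)
    omega
  · intro hfin
    set M := hfin.toFinset.card with hM
    obtain ⟨S, hS, hSm⟩ := FieldE_card (F := F) p (r * (1 + l * M)) (Nat.mul_ne_zero (by omega) (by omega))
    have hsub : S ⊆ hfin.toFinset := by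
      intro u hu
      rw [hSm] at hu
      rw [Set.Finite.mem_toFinset]
      exact (hE u).2 ⟨1 + l * M, fun h => hone ((Nat.dvd_add_left (dvd_mul_right l M)).1 h), hu⟩
    have h1 := Finset.card_le_card hsub
    rw [hS, ← hM] at h1
    have h2 : M < p ^ M := Nat.lt_pow_self (by omega)
    have h3 : p ^ M ≤ p ^ (r * (1 + l * M)) := by
      apply Nat.pow_le_pow_right (by omega)
      have : M ≤ l * M := Nat.le_mul_of_pos_left M (by omega)
      calc M ≤ 1 + l * M := by omega
        _ ≤ r * (1 + l * M) := Nat.le_mul_of_pos_left _ (by omega)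
    omega
  · intro f hf hf0 hdeg u hu
    obtain ⟨D, hD, hDf⟩ := FieldE_common p (f.support.image f.coeff) (fun d => ¬ l ∣ d) hone
      (fun a b ha hb => hmul a b ha hb) r (by
        intro z hz
        obtain ⟨k, -, rfl⟩ := Finset.mem_image.1 hz
        exact (hE _).1 (hf k))
    have hcoeff : ∀ k, iterateFrobenius F p (r * D) (f.coeff k) = f.coeff k := by
      intro k
      by_cases hk : f.coeff k = 0
      · rw [hk, map_zero]
      · rw [← FieldE_per_iff]
        exact hDf _ (Finset.mem_image.2 ⟨k, Polynomial.mem_support_iff.2 hk, rfl⟩)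
    have hmap : f.map (iterateFrobenius F p (r * D)) = f := by
      ext k
      rw [Polynomial.coeff_map, hcoeff]
    have hstep : ∀ v : F, f.eval v = 0 → f.eval (iterateFrobenius F p (r * D) v) = 0 := by
      intro v hv
      conv_lhs => rw [← hmap]
      rw [Polynomial.eval_map, Polynomial.eval₂_at_apply, hv, map_zero]
    have horb : ∀ i, f.eval ((iterateFrobenius F p (r * D))^[i] u) = 0 := by
      intro i
      induction i with
      | zero => exact hu
      | succ i ih => rw [Function.iterate_succ_apply']; exact hstep _ ih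
    obtain ⟨j, hj1, hj2, hj3⟩ := FieldE_per_of_finite (iterateFrobenius F p (r * D))
      (iterateFrobenius F p (r * D)).injective u f.roots.toFinset (by
        intro i
        rw [Multiset.mem_toFinset, Polynomial.mem_roots hf0]
        exact horb i)
    have hjN : j ≤ N := by
      calc j ≤ f.roots.toFinset.card := hj2
        _ ≤ f.roots.card := Multiset.toFinset_card_le _
        _ ≤ f.natDegree := Polynomial.card_roots' f
        _ ≤ N := hdeg
    refine (hE u).2 ⟨D * j, hmul _ _ hD (fun h => ?_), ?_⟩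
    · have := Nat.le_of_dvd (by omega) h
      omega
    · rw [coe_iterateFrobenius, ← Function.iterate_mul] at hj3
      unfold FieldE_Per Function.IsPeriodicPt Function.IsFixedPt
      rw [← mul_assoc]
      exact hj3

theorem chain3 {F : Type*} [Field F] (g : MvPolynomial (Fin 3) F →ₐ[F] MvPolynomial (Fin 3) F)
    (f : MvPolynomial (Fin 3) F) (h : g^[6] f = 0) : g^[3] f = 0 := by
  classical
  let G : MvPolynomial (Fin 3) F →+* MvPolynomial (Fin 3) F := (g : MvPolynomial (Fin 3) F →+* _)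
  have hG : ∀ m, ⇑(G ^ m) = g^[m] := by
    intro m
    rw [RingHom.coe_pow]
    rfl
  have hmem : ∀ m x, x ∈ RingHom.ker (G ^ m) ↔ g^[m] x = 0 := by
    intro m x
    rw [RingHom.mem_ker, hG]
  have hmono : ∀ m, RingHom.ker (G ^ m) ≤ RingHom.ker (G ^ (m + 1)) := by
    intro m x hx
    rw [hmem] at hx ⊢
    rw [Function.iterate_succ_apply', hx, map_zero]
  have hstab : ∀ m, RingHom.ker (G ^ m) = RingHom.ker (G ^ (m + 1)) →
      RingHom.ker (G ^ (m + 1)) = RingHom.ker (G ^ (m + 2)) := by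
    intro m hm
    apply le_antisymm (hmono _)
    intro x hx
    rw [hmem] at hx ⊢
    have h1 : g x ∈ RingHom.ker (G ^ (m + 1)) := by
      rw [hmem, ← Function.iterate_succ_apply]; exact hx
    rw [← hm, hmem] at h1
    rw [Function.iterate_succ_apply]; exact h1
  have h34 : RingHom.ker (G ^ 3) = RingHom.ker (G ^ 4) := by
    by_contra hne
    have hlt : ∀ m, m ≤ 3 → RingHom.ker (G ^ m) < RingHom.ker (G ^ (m + 1)) := by
      intro m hm
      refine lt_of_le_of_ne (hmono m) ?_
      intro he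
      have h0 : ∀ k, RingHom.ker (G ^ (m + k)) = RingHom.ker (G ^ (m + k + 1)) := by
        intro k
        induction k with
        | zero => exact he
        | succ k ih => exact hstab _ ih
      have := h0 (3 - m)
      rw [show m + (3 - m) = 3 by omega] at this
      exact hne this
    have hprime : ∀ m, (RingHom.ker (G ^ m)).IsPrime := fun m => RingHom.ker_isPrime _
    have hstr : StrictMono (fun i : Fin 5 =>
        (⟨RingHom.ker (G ^ (i : ℕ)), hprime _⟩ : PrimeSpectrum (MvPolynomial (Fin 3) F))) := by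
      apply Fin.strictMono_iff_lt_succ.2
      intro i
      rw [← PrimeSpectrum.asIdeal_lt_asIdeal]
      exact hlt i (by omega)
    let s : LTSeries (PrimeSpectrum (MvPolynomial (Fin 3) F)) := LTSeries.mk 4 _ hstr
    have hs : (4 : WithBot ℕ∞) ≤ ringKrullDim (MvPolynomial (Fin 3) F) := by
      have := Order.LTSeries.length_le_krullDim s
      exact this
    rw [MvPolynomial.ringKrullDim_of_isNoetherianRing, ringKrullDim_eq_zero_of_field] at hs
    simp at hs
    exact absurd hs (by decide)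
  have h45 := hstab 3 h34
  have h56 := hstab 4 h45
  have h6 : f ∈ RingHom.ker (G ^ 6) := (hmem 6 f).2 h
  have h3 : f ∈ RingHom.ker (G ^ 3) := by
    rw [h34]
    have e1 : RingHom.ker (G ^ 4) = RingHom.ker (G ^ 5) := h45
    have e2 : RingHom.ker (G ^ 5) = RingHom.ker (G ^ 6) := h56
    rw [e1, e2]
    exact h6
  exact (hmem 3 f).1 h3

end ZD85
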