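import Pool.Agent.H85.ZD.Defs

/-!
# ZD FinRel : relations of bounded degree (row `FinRel`)

`A` is a commutative `K`-algebra generated by `x_1, ..., x_n`; `t ∈ A` is transcendental over `K`
(`Polynomial.aeval t` injective) and every generator satisfies a non-zero relation `G(t, x_i) = 0`,
`G ∈ K[T][Y]`.  Then there is one `N` such that EVERY `z ∈ A` satisfies a relation
`∑_{k ≤ N} p_k(t) z^k = 0` with polynomials `p_k ∈ K[T]`, not all zero.

Proof.  View `A` as a `K[T]`-algebra by `T ↦ t` (`(Polynomial.aeval t).toRingHom.toAlgebra`).
Let `M = nonZeroDivisors K[T]`, `L = FractionRing K[T]`, `A_M = Localization (Algebra.algebraMapSubmonoid A M)`;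
`A_M` is an `L`-algebra (`IsLocalization.localizationAlgebra`, or `Localization` instances).  Each image of `x_i` in
`A_M` is integral over `L`: the relation `G(t, x_i) = 0` becomes a non-zero polynomial over the field `L`
(coefficients of `G` are non-zero in `L` since `K[T] → L` is injective).  The images of the `x_i` generate `A_M` as an
`L`-algebra (every element of `A_M` is `a / s(t)`, `a` is a `K`-polynomial in the `x_i`).  Hence `A_M` is a finite
`L`-module (`fg_adjoin_of_finite` + `IsIntegral`).  Let `N = Module.finrank L A_M`.
For `z ∈ A` the `N + 1` elements `1, z, ..., z^N` of `A_M` are linearly dependent over `L`: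
`∑ λ_k z^k = 0`, not all `λ_k = 0`.  Multiply by a common denominator (`IsLocalization.exist_integer_multiples`) to get
`∑ q_k(t) z^k = 0` in `A_M` with `q_k ∈ K[T]` not all zero; then `s(t) * ∑ q_k(t) z^k = 0` in `A` for some `s ∈ M`
(`IsLocalization.map_eq_zero_iff`).  Put `p_k = s * q_k`.

(Remark: without the localisation: let `r_i(T)` be the leading coefficient of the relation of `x_i`, of degree `D_i`
in `Y`; the `K(T)`-vector space spanned by the monomials in the `x_i` with exponents `< D_i` ...; either way.)
If a relation `G` for `x_i` has degree `0` in `Y` then `G = C r`, `r(t) = 0`, `r ≠ 0`, against the injectivity; this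
case needs no special treatment over the field `L` (a non-zero constant times `1` is `0` only if `A_M = 0`).
-/

set_option autoImplicit false

namespace ZD85

open Polynomial nonZeroDivisors in
theorem fin_rel {K : Type*} [Field K] {A : Type*} [CommRing A] [Algebra K A] {n : ℕ} (x : Fin n → A)
    (hx : Algebra.adjoin K (Set.range x) = ⊤) (t : A)
    (ht : Function.Injective (Polynomial.aeval t : Polynomial K →ₐ[K] A))
    (hdep : ∀ i, ∃ G : Polynomial (Polynomial K), G ≠ 0 ∧
      Polynomial.eval₂ (Polynomial.aeval t : Polynomial K →ₐ[K] A).toRingHom (x i) G = 0) :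
    ∃ N : ℕ, ∀ z : A, ∃ p : Fin (N + 1) → Polynomial K, p ≠ 0 ∧
      ∑ k : Fin (N + 1), Polynomial.aeval t (p k) * z ^ (k : ℕ) = 0 := by
  classical
  let alg : Algebra (Polynomial K) A := (Polynomial.aeval t : Polynomial K →ₐ[K] A).toRingHom.toAlgebra
  have hmap : ∀ q : Polynomial K, algebraMap (Polynomial K) A q = Polynomial.aeval t q := fun q => rfl
  let M : Submonoid A := Algebra.algebraMapSubmonoid A (Polynomial K)⁰
  let B := Localization M
  let L := FractionRing (Polynomial K)
  -- integrality of the generators
  have hint : ∀ i, IsIntegral L (algebraMap A B (x i)) := by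
    intro i
    obtain ⟨G, hG0, hG⟩ := hdep i
    have h1 : IsAlgebraic (Polynomial K) (x i) := ⟨G, hG0, by rw [Polynomial.aeval_def]; exact hG⟩
    have h2 : IsAlgebraic (Polynomial K) (algebraMap A B (x i)) := h1.algebraMap
    have h3 : IsAlgebraic L (algebraMap A B (x i)) :=
      h2.extendScalars (IsFractionRing.injective (Polynomial K) L)
    exact isAlgebraic_iff_isIntegral.mp h3
  -- the generators generate
  have hmem : ∀ a : A, algebraMap A B a ∈ Algebra.adjoin L (Set.range fun i => algebraMap A B (x i)) := by
    intro a
    have ha : a ∈ Algebra.adjoin K (Set.range x) := by rw [hx]; trivial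
    induction ha using Algebra.adjoin_induction with
    | mem y hy =>
      obtain ⟨i, rfl⟩ := hy
      exact Algebra.subset_adjoin ⟨i, rfl⟩
    | algebraMap r =>
      have e : algebraMap A B (algebraMap K A r) = algebraMap L B (algebraMap (Polynomial K) L (C r)) := by
        rw [← IsScalarTower.algebraMap_apply (Polynomial K) L B,
          IsScalarTower.algebraMap_apply (Polynomial K) A B, hmap, Polynomial.aeval_C]
      rw [e]
      exact Subalgebra.algebraMap_mem _ _
    | add y z _ _ hy hz =>
      rw [map_add]
      exact Subalgebra.add_mem _ hy hz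
    | mul y z _ _ hy hz =>
      rw [map_mul]
      exact Subalgebra.mul_mem _ hy hz
  have htop : Algebra.adjoin L (Set.range fun i => algebraMap A B (x i)) = ⊤ := by
    rw [eq_top_iff]
    intro b _
    obtain ⟨⟨a, s⟩, hb⟩ := IsLocalization.surj M b
    obtain ⟨q, hq, hqs⟩ := s.2
    have hq0 : algebraMap (Polynomial K) L q ≠ 0 :=
      IsFractionRing.to_map_ne_zero_of_mem_nonZeroDivisors hq
    have hs : algebraMap A B (s : A) = algebraMap L B (algebraMap (Polynomial K) L q) := by
      rw [← IsScalarTower.algebraMap_apply (Polynomial K) L B,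
        IsScalarTower.algebraMap_apply (Polynomial K) A B, ← hqs]
    have hb2 : b = (algebraMap (Polynomial K) L q)⁻¹ • algebraMap A B a := by
      have hb' : b * algebraMap A B (s : A) = algebraMap A B a := hb
      rw [← hb', hs, Algebra.smul_def, mul_comm b, ← mul_assoc, ← map_mul,
        inv_mul_cancel₀ hq0, map_one, one_mul]
    rw [hb2]
    exact Subalgebra.smul_mem _ (hmem a) _
  have hfin : Module.Finite L B := by
    have h1 := fg_adjoin_of_finite (R := L) (Set.finite_range fun i => algebraMap A B (x i))
      (by rintro _ ⟨i, rfl⟩; exact hint i)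
    rw [htop, Algebra.top_toSubmodule] at h1
    exact ⟨h1⟩
  refine ⟨Module.finrank L B, fun z => ?_⟩
  set v : Fin (Module.finrank L B + 1) → B := fun k => algebraMap A B (z ^ (k : ℕ)) with hv
  have hdepL : ¬ LinearIndependent L v := by
    intro h
    have := h.fintype_card_le_finrank
    simp at this
  have hdepR : ¬ LinearIndependent (Polynomial K) v := by
    rw [LinearIndependent.iff_fractionRing (R := Polynomial K) (K := L)]
    exact hdepL
  obtain ⟨g, hg0, i, hgi⟩ := Fintype.not_linearIndependent_iff.mp hdepR
  have hsum : algebraMap A B (∑ k, Polynomial.aeval t (g k) * z ^ (k : ℕ)) = 0 := by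
    rw [map_sum, ← hg0]
    refine Finset.sum_congr rfl (fun k _ => ?_)
    rw [map_mul, hv, ← hmap, ← IsScalarTower.algebraMap_apply (Polynomial K) A B, Algebra.smul_def]
  obtain ⟨m, hm⟩ := (IsLocalization.map_eq_zero_iff M B _).mp hsum
  obtain ⟨s, hs, hsm⟩ := m.2
  refine ⟨fun k => s * g k, ?_, ?_⟩
  · intro h
    have h1 := congrFun h i
    simp only [Pi.zero_apply, mul_eq_zero] at h1
    rcases h1 with h1 | h1
    · exact nonZeroDivisors.ne_zero hs h1
    · exact hgi h1
  · have h2 : (m : A) = Polynomial.aeval t s := by rw [← hsm]; rfl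
    rw [h2, Finset.mul_sum] at hm
    rw [← hm]
    refine Finset.sum_congr rfl (fun k _ => ?_)
    rw [map_mul]
    ring

end ZD85
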