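import Pool.Agent.H85.ZD.Defs

/-!
# ZD FinRelM : linear relations over `K[t_1, ..., t_ρ]` (row `FinRelM`; same proof as `FinRel.lean`)

`A` a commutative `K`-algebra generated by `x_1, ..., x_n`, `t : Fin ρ → A` algebraically independent
(`MvPolynomial.aeval t` injective), every `x_i` satisfies a non-zero relation `G(t, x_i) = 0`, `G ∈ K[T][Y]`,
`T = (T_1, ..., T_ρ)`.  Then there is `N` such that any `N + 1` elements `z_0, ..., z_N` of `A` satisfy a relation
`∑ q_k(t) z_k = 0`, `q_k ∈ K[T]` not all zero.
Proof: localise at `K[T] \ {0}`; the localisation of `A` is generated over `L = Frac K[T]` by the `x_i`, which are integral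
over `L`, so it is finite-dimensional over `L`; take `N` = its dimension; clear denominators (see `FinRel.lean`).
-/

set_option autoImplicit false

namespace ZD85

theorem fin_rel_mv {K : Type*} [Field K] {A : Type*} [CommRing A] [Algebra K A] {n ρ : ℕ} (x : Fin n → A)
    (hx : Algebra.adjoin K (Set.range x) = ⊤) (t : Fin ρ → A)
    (ht : Function.Injective (MvPolynomial.aeval t : MvPolynomial (Fin ρ) K →ₐ[K] A))
    (hdep : ∀ i, ∃ G : Polynomial (MvPolynomial (Fin ρ) K), G ≠ 0 ∧
      Polynomial.eval₂ (MvPolynomial.aeval t : MvPolynomial (Fin ρ) K →ₐ[K] A).toRingHom (x i) G = 0) :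
    ∃ N : ℕ, ∀ z : Fin (N + 1) → A, ∃ q : Fin (N + 1) → MvPolynomial (Fin ρ) K, q ≠ 0 ∧
      ∑ k : Fin (N + 1), MvPolynomial.aeval t (q k) * z k = 0 := by
  classical
  let P := MvPolynomial (Fin ρ) K
  let alg : Algebra P A := (MvPolynomial.aeval t : P →ₐ[K] A).toRingHom.toAlgebra
  have hmap : ∀ q : P, algebraMap P A q = MvPolynomial.aeval t q := fun q => rfl
  let M : Submonoid A := Algebra.algebraMapSubmonoid A (nonZeroDivisors P)
  let B := Localization M
  let L := FractionRing P
  -- integrality of the generators
  have hint : ∀ i, IsIntegral L (algebraMap A B (x i)) := by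
    intro i
    obtain ⟨G, hG0, hG⟩ := hdep i
    have h1 : IsAlgebraic P (x i) := ⟨G, hG0, by rw [Polynomial.aeval_def]; exact hG⟩
    have h2 : IsAlgebraic P (algebraMap A B (x i)) := h1.algebraMap
    have h3 : IsAlgebraic L (algebraMap A B (x i)) :=
      h2.extendScalars (IsFractionRing.injective P L)
    exact isAlgebraic_iff_isIntegral.mp h3
  -- the generators generate
  have hmem : ∀ a : A, algebraMap A B a ∈ Algebra.adjoin L (Set.range fun i => algebraMap A B (x i)) := by
    intro a
    have ha : a ∈ Algebra.adjoin K (Set.range x) := by rw [hx]; trivial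
    induction ha using Algebra.adjoin_induction with
    | mem y hy =>
      obtain ⟨i, rfl⟩ := hy
      exact Algebra.subset_adjoin ⟨i, rfl⟩
    | algebraMap r =>
      have e : algebraMap A B (algebraMap K A r) = algebraMap L B (algebraMap P L (MvPolynomial.C r)) := by
        rw [← IsScalarTower.algebraMap_apply P L B,
          IsScalarTower.algebraMap_apply P A B, hmap, MvPolynomial.aeval_C]
      rw [e]
      exact Subalgebra.algebraMap_mem _ _
    | add y z _ _ hy hz =>
      rw [map_add]
      exact Subalgebra.add_mem _ hy hz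
    | mul y z _ _ hy hz =>
      rw [map_mul]
      exact Subalgebra.mul_mem _ hy hz
  have htop : Algebra.adjoin L (Set.range fun i => algebraMap A B (x i)) = ⊤ := by
    rw [eq_top_iff]
    intro b _
    obtain ⟨⟨a, s⟩, hb⟩ := IsLocalization.surj M b
    obtain ⟨q, hq, hqs⟩ := s.2
    have hq0 : algebraMap P L q ≠ 0 :=
      IsFractionRing.to_map_ne_zero_of_mem_nonZeroDivisors hq
    have hs : algebraMap A B (s : A) = algebraMap L B (algebraMap P L q) := by
      rw [← IsScalarTower.algebraMap_apply P L B,
        IsScalarTower.algebraMap_apply P A B, ← hqs]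
    have hb2 : b = (algebraMap P L q)⁻¹ • algebraMap A B a := by
      have hb' : b * algebraMap A B (s : A) = algebraMap A B a := hb
      rw [← hb', hs, Algebra.smul_def, mul_comm b, ← mul_assoc, ← map_mul,
        inv_mul_cancel₀ hq0, map_one, one_mul]
    rw [hb2]
    exact Subalgebra.smul_mem _ (hmem a) _
  have hfin : Module.Finite L B := by
    have h1 := fg_adjoin_of_finite (R := L) (Set.finite_range fun i => algebraMap A B (x i))
      (by rintro _ ⟨i, rfl⟩; exact hint i)
    rw [htop, Algebra.top_toSubmodule] at h1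
    exact ⟨h1⟩
  refine ⟨Module.finrank L B, fun z => ?_⟩
  set v : Fin (Module.finrank L B + 1) → B := fun k => algebraMap A B (z k) with hv
  have hdepL : ¬ LinearIndependent L v := by
    intro h
    have := h.fintype_card_le_finrank
    simp at this
  have hdepR : ¬ LinearIndependent P v := by
    rw [LinearIndependent.iff_fractionRing (R := P) (K := L)]
    exact hdepL
  obtain ⟨g, hg0, i, hgi⟩ := Fintype.not_linearIndependent_iff.mp hdepR
  have hsum : algebraMap A B (∑ k, MvPolynomial.aeval t (g k) * z k) = 0 := by
    rw [map_sum, ← hg0]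
    refine Finset.sum_congr rfl (fun k _ => ?_)
    rw [map_mul, hv, ← hmap, ← IsScalarTower.algebraMap_apply P A B, Algebra.smul_def]
  obtain ⟨m, hm⟩ := (IsLocalization.map_eq_zero_iff M B _).mp hsum
  obtain ⟨s, hs, hsm⟩ := m.2
  refine ⟨fun k => s * g k, ?_, ?_⟩
  · intro h
    have h1 := congrFun h i
    simp only [Pi.zero_apply, mul_eq_zero] at h1
    rcases h1 with h1 | h1
    · exact nonZeroDivisors.ne_zero hs h1
    · exact hgi h1
  · have h2 : (m : A) = MvPolynomial.aeval t s := by rw [← hsm]; rfl
    rw [h2, Finset.mul_sum] at hm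
    rw [← hm]
    refine Finset.sum_congr rfl (fun k _ => ?_)
    rw [map_mul]
    ring

end ZD85
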