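import Pool.Agent.H85.ZD.NfB
import Pool.Agent.H85.ZD.Bruhat

/-!
# ZD Final : affine-triangular automorphisms (row `Final`)

`zdo_perm`: for a triangular `τ` and a permutation `ω (X i) = X (π i)`, `Zdo (ω * τ)`:
`(ω * τ)(X 0) = C a * X (π 0) + aeval ![X (π 1), X (π 2)] P` and so on; the six cases of `π` are `n0_zdo`, ..., `n5_zdo`
(`π = 1`: `n0`; `π = swap 0 1`: `n1`; `π = swap 1 2`: `n2`; `(1, 2, 0)`: `n3`; `(2, 0, 1)`: `n4`; `swap 0 2`: `n5`, where
`(p, q, r)` stands for `π 0 = p, π 1 = q, π 2 = r`).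

`zdo_affine_triangular`: `α = β₂ ω β₁`, `α * τ = β₂ (ω β₁ τ)`, conjugate to `ω β₁ τ β₂` (`zdo_mul_comm`), and
`β₁ τ β₂` is triangular.  `τ * α` is conjugate to `α * τ` (`zdo_mul_comm`).
-/

set_option autoImplicit false

namespace ZD85

open MvPolynomial

theorem zdo_perm {K : Type*} [Field K] [CharZero K] [IsAlgClosed K] (ω τ : PAut K 3)
    (π : Equiv.Perm (Fin 3)) (hω : ∀ i, ω (X i) = X (π i)) (hτ : IsTriangular τ) : Zdo (ω * τ) := by
  obtain ⟨a, b, c, d, P, Q, ha, hb, hc, h0, h1, h2⟩ := hτ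
  have e0 : (ω * τ) (X 0) = C a * X (π 0) + aeval ![X (π 1), X (π 2)] P := by
    show ω (τ (X 0)) = _
    rw [h0, map_add, map_mul, NfB_mapC', NfB_map2', hω, hω, hω]
  have e1 : (ω * τ) (X 1) = C b * X (π 1) + Polynomial.aeval (X (π 2)) Q := by
    show ω (τ (X 1)) = _
    rw [h1, map_add, map_mul, NfB_mapC', NfB_map1', hω, hω]
  have e2 : (ω * τ) (X 2) = C c * X (π 2) + C d := by
    show ω (τ (X 2)) = _
    rw [h2, map_add, map_mul, NfB_mapC', NfB_mapC', hω]
  have i01 : π 0 ≠ π 1 := π.injective.ne (by decide)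
  have i02 : π 0 ≠ π 2 := π.injective.ne (by decide)
  have i12 : π 1 ≠ π 2 := π.injective.ne (by decide)
  generalize π 0 = p at e0 e1 e2 i01 i02 i12
  generalize π 1 = q at e0 e1 e2 i01 i02 i12
  generalize π 2 = r at e0 e1 e2 i01 i02 i12
  fin_cases p <;> fin_cases q <;> fin_cases r <;>
    first
      | exact absurd rfl i01
      | exact absurd rfl i02
      | exact absurd rfl i12
      | exact n0_zdo _ a b c d ha hb hc P Q e0 e1 e2
      | exact n1_zdo _ a b c d ha hb hc P Q e0 e1 e2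
      | exact n2_zdo _ a b c d ha hb hc P Q e0 e1 e2
      | exact n3_zdo _ a b c d ha hb hc P Q e0 e1 e2
      | exact n4_zdo _ a b c d ha hb hc P Q e0 e1 e2
      | exact n5_zdo _ a b c d ha hb hc P Q e0 e1 e2

theorem zdo_affine_triangular {K : Type*} [Field K] [CharZero K] [IsAlgClosed K] (α τ : PAut K 3)
    (hα : IsAffine α) (hτ : IsTriangular τ) : Zdo (α * τ) ∧ Zdo (τ * α) := by
  obtain ⟨β₁, β₂, ω, π, h1, h2, hω, rfl⟩ := affine_decomp α hα
  have key : Zdo (ω * (β₁ * τ * β₂)) :=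
    zdo_perm ω _ π hω (isTriangular_mul _ _ (isTriangular_mul _ _ h1 hτ) h2)
  have h3 : Zdo (β₂ * ω * β₁ * τ) := by
    have := zdo_mul_comm (ω * β₁ * τ) β₂ (by simpa [mul_assoc] using key)
    simpa [mul_assoc] using this
  exact ⟨h3, zdo_mul_comm _ _ h3⟩

end ZD85
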