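import Pool.Agent.H85.ZD.Crit
import Pool.Agent.H85.ZD.Val

/-!
# ZD FiveI : the family `(a z + P(x, y), b y + Q(x), x)`, irrational growth rate (row `FiveI`)

`P = ∑ p_α x^{α 0} y^{α 1}`, `q = Q.natDegree ≥ 1`, `θ > 1` irrational, `α 0 θ + α 1 q ≤ θ²` for `α ∈ supp P`,
equality for some `α`.

Proof.  `x_m, y_m, z_m` = coordinates `0, 1, 2` of `orb σ P m`:
`x_{m+1} = a z_m + P(x_m, y_m)`, `y_{m+1} = b y_m + Q(x_m)`, `z_{m+1} = x_m`.
The `β ∈ supp P` with equality is unique (`(β 0 - β' 0) θ = (β' 1 - β 1) q`, `θ` irrational, `q ≥ 1`).  Choose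
`ε ∈ (0,1)` with `(1 + ε)(α 0 θ + α 1 q) < (1 - ε) θ²` for all other `α ∈ supp P` and `1 + ε < (1 - ε) θ`.
Units `E` = {`a`, `b`} ∪ {non-zero coefficients of `P`, `Q`}; `p, v` from `exists_val`, `g = v(p)⁻¹`,
`L(x) = log v(x) / log g`.
`S_0 = {x ≠ 0 | (1-ε) T ≤ L x ≤ (1+ε) T}`, `S_1 = {y ≠ 0 | (1-ε) T q/θ ≤ L y ≤ (1+ε) T q/θ}`, `S_2 = {z | v z ≤ 1}`, with
`T > 0` so large that both intervals contain an integer; the three sets are infinite (`ball_infinite`).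
Claim: for all `m`: `x_m, y_m ≠ 0`, `L(x_m) ∈ [(1-ε) T θ^m, (1+ε) T θ^m]`,
`L(y_m) ∈ [(1-ε) T q θ^{m-1}, (1+ε) T q θ^{m-1}]` and (`z_m = 0` or `L(z_m) ≤ (1+ε) T θ^{m-1}`) (real power
`θ^{m-1} = θ^m / θ`).
Induction step.  `p_β x_m^{β 0} y_m^{β 1}` has `L` in `[(1-ε) T θ^{m+1}, (1+ε) T θ^{m+1}]`, because
`β 0 θ^m + β 1 q θ^{m-1} = θ^{m-1} (β 0 θ + β 1 q) = θ^{m+1}`; all other terms of `P` have
`L ≤ (1+ε) T θ^{m-1} (α 0 θ + α 1 q) < (1-ε) T θ^{m+1}` and `L(a z_m) ≤ (1+ε) T θ^{m-1} < (1-ε) T θ^m < (1-ε) T θ^{m+1}`.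
`Q(x_m)`: the leading term has `L = q L(x_m) ≥ (1-ε) T q θ^m`, strictly bigger than that of the lower terms (`L(x_m) > 0`)
and than `L(b y_m) ≤ (1+ε) T q θ^{m-1} < (1-ε) T q θ^m`.  So `v(y_{m+1}) = v(x_m)^q`.  `z_{m+1} = x_m` clear.
`FastPt` with `c = (1-ε) T log g`, index `0`; `zdo_of_fast_prod`.
-/

set_option autoImplicit false

namespace ZD85

open MvPolynomial

theorem FiveI_up (i j : ℕ) (X Y c d : ℝ) (hX : 0 ≤ X) (hY : 0 ≤ Y) (h1 : X ≤ Real.exp c)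
    (h2 : Y ≤ Real.exp d) : X ^ i * Y ^ j ≤ Real.exp (i * c + j * d) := by
  rw [Real.exp_add, Real.exp_nat_mul, Real.exp_nat_mul]
  exact mul_le_mul (pow_le_pow_left₀ hX h1 _) (pow_le_pow_left₀ hY h2 _) (by positivity)
    (by positivity)

theorem FiveI_lo (i j : ℕ) (X Y c d : ℝ) (h1 : Real.exp c ≤ X)
    (h2 : Real.exp d ≤ Y) : Real.exp (i * c + j * d) ≤ X ^ i * Y ^ j := by
  have hX : 0 ≤ X := (Real.exp_pos _).le.trans h1
  rw [Real.exp_add, Real.exp_nat_mul, Real.exp_nat_mul]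
  exact mul_le_mul (pow_le_pow_left₀ (Real.exp_pos _).le h1 _)
    (pow_le_pow_left₀ (Real.exp_pos _).le h2 _) (by positivity) (by positivity)

theorem FiveI_evalP {K : Type*} [Field K] (P : MvPolynomial (Fin 2) K) (w : Fin 3 → K) :
    eval w (aeval ![X 0, X 1] P : MvPolynomial (Fin 3) K) =
      ∑ α ∈ P.support, P.coeff α * (w 0 ^ α 0 * w 1 ^ α 1) := by
  have h : (eval w).comp (aeval ![X 0, X 1] : MvPolynomial (Fin 2) K →ₐ[K] MvPolynomial (Fin 3) K).toRingHom =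
      eval ![w 0, w 1] := by
    apply MvPolynomial.ringHom_ext
    · intro r
      simp
    · intro i
      fin_cases i <;> simp
  have h2 := RingHom.congr_fun h P
  rw [RingHom.comp_apply] at h2
  change eval w (aeval ![X 0, X 1] P) = _ at h2
  rw [h2, MvPolynomial.eval_eq']
  refine Finset.sum_congr rfl fun α _ => ?_
  rw [Fin.prod_univ_two]
  rfl

theorem FiveI_evalQ {K : Type*} [Field K] (Q : Polynomial K) (w : Fin 3 → K) :
    eval w (Polynomial.aeval (X 0) Q : MvPolynomial (Fin 3) K) =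
      ∑ i ∈ Finset.range (Q.natDegree + 1), Q.coeff i * w 0 ^ i := by
  rw [Polynomial.aeval_def, Polynomial.hom_eval₂]
  have h : (eval w).comp (algebraMap K (MvPolynomial (Fin 3) K)) = RingHom.id K := by
    ext r
    simp
  rw [h, eval_X, ← Polynomial.eval_eq_sum_range]
  rfl

theorem FiveI_uniq (q : ℕ) (hq : 1 ≤ q) (θ : ℝ) (hirr : Irrational θ) (α β : Fin 2 →₀ ℕ)
    (h : (α 0 : ℝ) * θ + α 1 * q = (β 0 : ℝ) * θ + β 1 * q) : α = β := by
  have h0 : α 0 = β 0 := by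
    by_contra hne
    have h1 : ((α 0 : ℝ) - β 0) * θ = ((β 1 : ℝ) - α 1) * q := by linarith
    have h2 : ((α 0 : ℝ) - β 0) ≠ 0 := by
      rw [sub_ne_zero]
      exact_mod_cast hne
    apply hirr
    refine ⟨(((β 1 : ℚ) - α 1) * q) / ((α 0 : ℚ) - β 0), ?_⟩
    push_cast
    rw [← h1]
    field_simp
  have h1 : α 1 = β 1 := by
    rw [h0] at h
    have h2 : (α 1 : ℝ) * q = (β 1 : ℝ) * q := by linarith
    have h3 : (q : ℝ) ≠ 0 := by exact_mod_cast (by omega : q ≠ 0)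
    exact_mod_cast mul_right_cancel₀ h3 h2
  ext i
  fin_cases i
  · exact h0
  · exact h1

theorem FiveI_eps (s : Finset (Fin 2 →₀ ℕ)) (c : (Fin 2 →₀ ℕ) → ℝ) (θ : ℝ) (hθ : 1 < θ)
    (h : ∀ α ∈ s, c α < θ ^ 2) : ∃ ε : ℝ, 0 < ε ∧ ε < 1 ∧ 1 + ε < (1 - ε) * θ ∧
      ∀ α ∈ s, (1 + ε) * c α < (1 - ε) * θ ^ 2 := by
  have h1 : ∀ᶠ ε : ℝ in nhdsWithin 0 (Set.Ioi 0), ∀ α ∈ s, (1 + ε) * c α < (1 - ε) * θ ^ 2 := by
    rw [Filter.eventually_all_finset]
    intro α hα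
    apply Filter.Eventually.filter_mono nhdsWithin_le_nhds
    apply ContinuousAt.eventually_lt
    · fun_prop
    · fun_prop
    · simpa using h α hα
  have h2 : ∀ᶠ ε : ℝ in nhdsWithin 0 (Set.Ioi 0), 1 + ε < (1 - ε) * θ := by
    apply Filter.Eventually.filter_mono nhdsWithin_le_nhds
    apply ContinuousAt.eventually_lt
    · fun_prop
    · fun_prop
    · simpa using hθ
  have h3 : ∀ᶠ ε : ℝ in nhdsWithin 0 (Set.Ioi 0), ε < 1 := by
    apply Filter.Eventually.filter_mono nhdsWithin_le_nhds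
    exact eventually_lt_nhds zero_lt_one
  have h4 : ∀ᶠ ε : ℝ in nhdsWithin 0 (Set.Ioi 0), 0 < ε := self_mem_nhdsWithin
  obtain ⟨ε, h1, h2, h3, h4⟩ := (h1.and (h2.and (h3.and h4))).exists
  exact ⟨ε, h4, h3, h2, h1⟩

/-- one step -/
theorem FiveI_step {K : Type*} [Field K] (v : Valuation K NNReal) (a b : K) (va : v a = 1)
    (vb : v b = 1) (P : MvPolynomial (Fin 2) K) (Q : Polynomial K) (hq : 1 ≤ Q.natDegree)
    (vP : ∀ α ∈ P.support, v (P.coeff α) = 1) (vQ : ∀ i, v (Q.coeff i) ≤ 1)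
    (vQ1 : v Q.leadingCoeff = 1)
    (θ : ℝ) (hθ : 1 < θ) (β : Fin 2 →₀ ℕ) (hβ : β ∈ P.support)
    (heq : (β 0 : ℝ) * θ + β 1 * Q.natDegree = θ ^ 2)
    (ε : ℝ) (hε0 : 0 < ε) (hε1 : ε < 1) (hε2 : 1 + ε < (1 - ε) * θ)
    (hε3 : ∀ α ∈ P.support.erase β, (1 + ε) * ((α 0 : ℝ) * θ + α 1 * Q.natDegree) < (1 - ε) * θ ^ 2)
    (A : ℝ) (hA : 0 < A) (x y z : K)
    (hx1 : Real.exp ((1 - ε) * A) ≤ v x) (hx2 : (v x : ℝ) ≤ Real.exp ((1 + ε) * A))
    (hy1 : Real.exp ((1 - ε) * (Q.natDegree / θ * A)) ≤ v y)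
    (hy2 : (v y : ℝ) ≤ Real.exp ((1 + ε) * (Q.natDegree / θ * A)))
    (hz : (v z : ℝ) ≤ Real.exp ((1 + ε) * (A / θ))) :
    (Real.exp ((1 - ε) * (A * θ)) ≤ v (a * z + ∑ α ∈ P.support, P.coeff α * (x ^ α 0 * y ^ α 1)) ∧
      (v (a * z + ∑ α ∈ P.support, P.coeff α * (x ^ α 0 * y ^ α 1)) : ℝ) ≤
        Real.exp ((1 + ε) * (A * θ))) ∧
    (Real.exp ((1 - ε) * (Q.natDegree / θ * (A * θ))) ≤
        v (b * y + ∑ i ∈ Finset.range (Q.natDegree + 1), Q.coeff i * x ^ i) ∧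
      (v (b * y + ∑ i ∈ Finset.range (Q.natDegree + 1), Q.coeff i * x ^ i) : ℝ) ≤
        Real.exp ((1 + ε) * (Q.natDegree / θ * (A * θ)))) := by
  have hθ0 : 0 < θ := by linarith
  have hqR : (0 : ℝ) < Q.natDegree := by exact_mod_cast (by omega : 0 < Q.natDegree)
  have hX0 : (0 : ℝ) ≤ v x := NNReal.coe_nonneg _
  have hY0 : (0 : ℝ) ≤ v y := NNReal.coe_nonneg _
  -- values of the terms
  have hterm : ∀ α ∈ P.support, (v (P.coeff α * (x ^ α 0 * y ^ α 1)) : ℝ) =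
      (v x : ℝ) ^ α 0 * (v y : ℝ) ^ α 1 := by
    intro α hα
    rw [map_mul, vP α hα, one_mul, map_mul, map_pow, map_pow]
    push_cast
    rfl
  have hexp : ∀ (i j : ℕ) (s : ℝ), (i : ℝ) * (s * A) + j * (s * (Q.natDegree / θ * A)) =
      s * ((i : ℝ) * θ + j * Q.natDegree) * (A / θ) := by
    intro i j s
    field_simp
  have hmain_lo : Real.exp ((1 - ε) * (A * θ)) ≤ v (P.coeff β * (x ^ β 0 * y ^ β 1)) := by
    rw [hterm β hβ]
    refine le_trans (le_of_eq ?_) (FiveI_lo (β 0) (β 1) _ _ _ _ hx1 hy1)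
    rw [hexp, heq]
    congr 1
    field_simp
  have hmain_up : (v (P.coeff β * (x ^ β 0 * y ^ β 1)) : ℝ) ≤ Real.exp ((1 + ε) * (A * θ)) := by
    rw [hterm β hβ]
    refine le_trans (FiveI_up (β 0) (β 1) _ _ _ _ hX0 hY0 hx2 hy2) (le_of_eq ?_)
    rw [hexp, heq]
    congr 1
    field_simp
  have hAθ : 0 < A / θ := div_pos hA hθ0
  have hother : ∀ α ∈ P.support.erase β, v (P.coeff α * (x ^ α 0 * y ^ α 1)) <
      v (P.coeff β * (x ^ β 0 * y ^ β 1)) := by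
    intro α hα
    rw [← NNReal.coe_lt_coe, hterm α (Finset.mem_of_mem_erase hα)]
    refine lt_of_le_of_lt (FiveI_up (α 0) (α 1) _ _ _ _ hX0 hY0 hx2 hy2) (lt_of_lt_of_le ?_ hmain_lo)
    rw [Real.exp_lt_exp, hexp]
    have h1 := mul_lt_mul_of_pos_right (hε3 α hα) hAθ
    refine lt_of_lt_of_eq h1 ?_
    field_simp
  have haz : v (a * z) < v (P.coeff β * (x ^ β 0 * y ^ β 1)) := by
    rw [← NNReal.coe_lt_coe, map_mul, va, one_mul]
    refine lt_of_le_of_lt hz (lt_of_lt_of_le ?_ hmain_lo)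
    rw [Real.exp_lt_exp]
    have h1 : (1 + ε) * (A / θ) < (1 - ε) * θ * (A / θ) := mul_lt_mul_of_pos_right hε2 hAθ
    have h2 : (1 - ε) * θ * (A / θ) = (1 - ε) * A := by field_simp
    have h3 : (1 - ε) * A ≤ (1 - ε) * (A * θ) := by
      apply mul_le_mul_of_nonneg_left _ (by linarith)
      nlinarith
    linarith
  have hv0 : v (P.coeff β * (x ^ β 0 * y ^ β 1)) ≠ 0 := by
    intro h
    rw [h] at hmain_lo
    have := Real.exp_pos ((1 - ε) * (A * θ))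
    simp only [NNReal.coe_zero] at hmain_lo
    linarith
  have hX : v (a * z + ∑ α ∈ P.support, P.coeff α * (x ^ α 0 * y ^ α 1)) =
      v (P.coeff β * (x ^ β 0 * y ^ β 1)) := by
    rw [← Finset.add_sum_erase _ _ hβ, add_left_comm]
    apply Valuation.map_add_eq_of_lt_left
    apply Valuation.map_add_lt v haz
    exact Valuation.map_sum_lt v hv0 hother
  -- second coordinate
  have hx1' : 1 < v x := by
    rw [← NNReal.coe_lt_coe]
    refine lt_of_lt_of_le ?_ hx1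
    rw [NNReal.coe_one, Real.one_lt_exp_iff]
    exact mul_pos (by linarith) hA
  have hlead : v (Q.coeff Q.natDegree * x ^ Q.natDegree) = v x ^ Q.natDegree := by
    have h1 : v (Q.coeff Q.natDegree) = 1 := vQ1
    rw [map_mul, h1, one_mul, map_pow]
  have hlo : ∀ i ∈ Finset.range Q.natDegree, v (Q.coeff i * x ^ i) < v x ^ Q.natDegree := by
    intro i hi
    rw [Finset.mem_range] at hi
    rw [map_mul, map_pow]
    calc v (Q.coeff i) * v x ^ i ≤ 1 * v x ^ i := by gcongr; exact vQ i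
      _ = v x ^ i := one_mul _
      _ < v x ^ Q.natDegree := pow_lt_pow_right₀ hx1' hi
  have hqlo : Real.exp ((1 - ε) * (Q.natDegree / θ * (A * θ))) ≤ (v x : ℝ) ^ Q.natDegree := by
    have h1 := pow_le_pow_left₀ (Real.exp_pos _).le hx1 Q.natDegree
    rw [← Real.exp_nat_mul] at h1
    refine le_trans (le_of_eq ?_) h1
    congr 1
    field_simp
  have hqup : (v x : ℝ) ^ Q.natDegree ≤ Real.exp ((1 + ε) * (Q.natDegree / θ * (A * θ))) := by
    have h1 := pow_le_pow_left₀ hX0 hx2 Q.natDegree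
    rw [← Real.exp_nat_mul] at h1
    refine le_trans h1 (le_of_eq ?_)
    congr 1
    field_simp
  have hby : v (b * y) < v x ^ Q.natDegree := by
    rw [← NNReal.coe_lt_coe, map_mul, vb, one_mul]
    push_cast
    refine lt_of_le_of_lt hy2 (lt_of_lt_of_le ?_ hqlo)
    rw [Real.exp_lt_exp]
    have h1 : 0 < (Q.natDegree : ℝ) * (A / θ) := mul_pos hqR hAθ
    have h2 := mul_lt_mul_of_pos_right hε2 h1
    calc (1 + ε) * (Q.natDegree / θ * A) = (1 + ε) * ((Q.natDegree : ℝ) * (A / θ)) := by ring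
      _ < (1 - ε) * θ * ((Q.natDegree : ℝ) * (A / θ)) := h2
      _ = (1 - ε) * (Q.natDegree / θ * (A * θ)) := by ring
  have hvx0 : v x ^ Q.natDegree ≠ 0 := pow_ne_zero _ (by
    intro h
    rw [h] at hx1'
    exact absurd hx1' (by simp))
  have hY : v (b * y + ∑ i ∈ Finset.range (Q.natDegree + 1), Q.coeff i * x ^ i) =
      v x ^ Q.natDegree := by
    rw [Finset.sum_range_succ, ← add_assoc, ← hlead]
    apply Valuation.map_add_eq_of_lt_right
    rw [hlead]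
    apply Valuation.map_add_lt v hby
    exact Valuation.map_sum_lt v hvx0 hlo
  rw [hX, hY]
  refine ⟨⟨hmain_lo, hmain_up⟩, ?_, ?_⟩
  · push_cast
    exact hqlo
  · push_cast
    exact hqup

theorem five_irr {K : Type*} [Field K] [CharZero K] (σ : PAut K 3) (a b : K) (ha : a ≠ 0) (hb : b ≠ 0)
    (P : MvPolynomial (Fin 2) K) (Q : Polynomial K) (hq : 1 ≤ Q.natDegree)
    (h0 : σ (X 0) = C a * X 2 + aeval ![X 0, X 1] P)
    (h1 : σ (X 1) = C b * X 1 + Polynomial.aeval (X 0) Q) (h2 : σ (X 2) = X 0)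
    (θ : ℝ) (hθ : 1 < θ) (hirr : Irrational θ)
    (hle : ∀ α ∈ P.support, (α 0 : ℝ) * θ + α 1 * Q.natDegree ≤ θ ^ 2)
    (heq : ∃ α ∈ P.support, (α 0 : ℝ) * θ + α 1 * Q.natDegree = θ ^ 2) : Zdo σ := by
  classical
  obtain ⟨β, hβ, hβe⟩ := heq
  have hQ0 : Q ≠ 0 := by
    rintro rfl
    simp at hq
  obtain ⟨p, v, hp, hvp, hvE, -⟩ := exists_val (K := K)
    ({a, b} ∪ P.support.image (fun α => P.coeff α) ∪ Q.support.image Q.coeff) (by
      simp only [Finset.mem_union, Finset.mem_insert, Finset.mem_singleton, Finset.mem_image,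
        not_or, not_exists, not_and]
      refine ⟨⟨⟨ha.symm, hb.symm⟩, fun α hα => MvPolynomial.mem_support_iff.1 hα⟩,
        fun i hi => Polynomial.mem_support_iff.1 hi⟩)
  have va : v a = 1 := hvE a (by simp)
  have vb : v b = 1 := hvE b (by simp)
  have vP : ∀ α ∈ P.support, v (P.coeff α) = 1 := fun α hα =>
    hvE _ (Finset.mem_union_left _ (Finset.mem_union_right _ (Finset.mem_image_of_mem _ hα)))
  have vQ' : ∀ i ∈ Q.support, v (Q.coeff i) = 1 := fun i hi =>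
    hvE _ (Finset.mem_union_right _ (Finset.mem_image_of_mem _ hi))
  have vQ : ∀ i, v (Q.coeff i) ≤ 1 := by
    intro i
    by_cases hi : i ∈ Q.support
    · exact (vQ' i hi).le
    · rw [Polynomial.notMem_support_iff.1 hi, map_zero]
      exact zero_le_one
  have vQ1 : v Q.leadingCoeff = 1 := vQ' _ (Polynomial.natDegree_mem_support_of_nonzero hQ0)
  obtain ⟨ε, hε0, hε1, hε2, hε3⟩ := FiveI_eps (P.support.erase β)
    (fun α => (α 0 : ℝ) * θ + α 1 * Q.natDegree) θ hθ (by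
      intro α hα
      rw [Finset.mem_erase] at hα
      refine lt_of_le_of_ne (hle α hα.2) fun h => hα.1 ?_
      exact FiveI_uniq Q.natDegree hq θ hirr α β (h.trans hβe.symm))
  have hθ0 : 0 < θ := by linarith
  have hqR : (1 : ℝ) ≤ Q.natDegree := by exact_mod_cast hq
  have hpK : (p : K) ≠ 0 := by exact_mod_cast hp.ne_zero
  have hvp0 : 0 < v (p : K) := zero_lt_iff.2 (by simpa using hpK)
  set lam : ℝ := - Real.log (v (p : K)) with hlam
  have hlam0 : 0 < lam := by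
    rw [hlam, neg_pos]
    exact Real.log_neg (by exact_mod_cast hvp0) (by exact_mod_cast hvp)
  have hpow : ∀ n : ℕ, (v ((p : K)⁻¹ ^ n) : ℝ) = Real.exp (n * lam) := by
    intro n
    rw [map_pow, map_inv₀, Real.exp_nat_mul, hlam, Real.exp_neg, Real.exp_log (by exact_mod_cast hvp0)]
    push_cast
    rfl
  set T : ℝ := lam / (2 * ε) * θ with hT
  have hT0 : 0 < T := by positivity
  have hTe : 2 * ε * T = lam * θ := by
    rw [hT]
    field_simp
  -- integers in the intervals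
  have hint : ∀ s : ℝ, 0 < s → lam ≤ 2 * ε * s → ∃ n : ℕ, (1 - ε) * s ≤ n * lam ∧
      n * lam ≤ (1 + ε) * s := by
    intro s hs hs2
    refine ⟨⌈(1 - ε) * s / lam⌉₊, ?_, ?_⟩
    · have := Nat.le_ceil ((1 - ε) * s / lam)
      rwa [div_le_iff₀ hlam0] at this
    · have h3 : 0 ≤ (1 - ε) * s / lam := div_nonneg (mul_nonneg (by linarith) hs.le) hlam0.le
      have := Nat.ceil_lt_add_one h3
      have h4 : ((⌈(1 - ε) * s / lam⌉₊ : ℕ) : ℝ) * lam < ((1 - ε) * s / lam + 1) * lam :=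
        mul_lt_mul_of_pos_right this hlam0
      have h5 : ((1 - ε) * s / lam + 1) * lam = (1 - ε) * s + lam := by field_simp
      rw [h5] at h4
      nlinarith
  obtain ⟨n0, hn0, hn0'⟩ := hint T hT0 (by rw [hTe]; nlinarith)
  obtain ⟨n1, hn1, hn1'⟩ := hint (Q.natDegree / θ * T) (by positivity) (by
    have h3 : 2 * ε * (Q.natDegree / θ * T) = Q.natDegree / θ * (2 * ε * T) := by ring
    rw [h3, hTe]
    have h4 : (Q.natDegree : ℝ) / θ * (lam * θ) = Q.natDegree * lam := by field_simp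
    rw [h4]
    nlinarith)
  have hpos : ∀ n : ℕ, 0 < v ((p : K)⁻¹ ^ n) := fun n => zero_lt_iff.2 (by simp [hpK])
  refine zdo_of_fast_prod σ ![{x | v (x - (p : K)⁻¹ ^ n0) < v ((p : K)⁻¹ ^ n0)},
    {x | v (x - (p : K)⁻¹ ^ n1) < v ((p : K)⁻¹ ^ n1)}, {x | v (x - 0) < 1}] ?_ ?_
  · intro i
    fin_cases i
    · exact ball_infinite v p hpK hvp _ _ (hpos n0)
    · exact ball_infinite v p hpK hvp _ _ (hpos n1)
    · exact ball_infinite v p hpK hvp _ _ zero_lt_one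
  intro w hw
  have hball : ∀ (x u : K), v (x - u) < v u → v x = v u := by
    intro x u h
    have h3 := Valuation.map_add_eq_of_lt_left v h
    rwa [add_sub_cancel] at h3
  have hw0 : v (w 0) = v ((p : K)⁻¹ ^ n0) := hball _ _ (hw 0)
  have hw1 : v (w 1) = v ((p : K)⁻¹ ^ n1) := hball _ _ (hw 1)
  have hw2 : v (w 2) < 1 := by
    have h3 : v (w 2 - 0) < 1 := hw 2
    rwa [sub_zero] at h3
  have key : ∀ m : ℕ, (Real.exp ((1 - ε) * (T * θ ^ m)) ≤ v (orb σ w m 0) ∧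
      (v (orb σ w m 0) : ℝ) ≤ Real.exp ((1 + ε) * (T * θ ^ m))) ∧
      (Real.exp ((1 - ε) * (Q.natDegree / θ * (T * θ ^ m))) ≤ v (orb σ w m 1) ∧
      (v (orb σ w m 1) : ℝ) ≤ Real.exp ((1 + ε) * (Q.natDegree / θ * (T * θ ^ m)))) ∧
      (v (orb σ w m 2) : ℝ) ≤ Real.exp ((1 + ε) * (T * θ ^ m / θ)) := by
    intro m
    induction m with
    | zero =>
      rw [orb_zero, pow_zero, mul_one, hw0, hw1, hpow, hpow]
      refine ⟨⟨Real.exp_le_exp.2 hn0, Real.exp_le_exp.2 hn0'⟩, ⟨Real.exp_le_exp.2 hn1,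
        Real.exp_le_exp.2 hn1'⟩, ?_⟩
      have h3 : (v (w 2) : ℝ) < 1 := by exact_mod_cast hw2
      refine h3.le.trans (Real.one_le_exp ?_)
      positivity
    | succ m ih =>
      obtain ⟨⟨hx1, hx2⟩, ⟨hy1, hy2⟩, hz⟩ := ih
      have hst := FiveI_step v a b va vb P Q hq vP vQ vQ1 θ hθ β hβ hβe ε hε0 hε1 hε2 hε3
        (T * θ ^ m) (by positivity) (orb σ w m 0) (orb σ w m 1) (orb σ w m 2) hx1 hx2 hy1 hy2 hz
      have e0 : orb σ w (m + 1) 0 = a * orb σ w m 2 +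
          ∑ α ∈ P.support, P.coeff α * (orb σ w m 0 ^ α 0 * orb σ w m 1 ^ α 1) := by
        rw [orb_succ_apply, h0, map_add, FiveI_evalP, map_mul, eval_C, eval_X]
      have e1 : orb σ w (m + 1) 1 = b * orb σ w m 1 +
          ∑ i ∈ Finset.range (Q.natDegree + 1), Q.coeff i * orb σ w m 0 ^ i := by
        rw [orb_succ_apply, h1, map_add, FiveI_evalQ, map_mul, eval_C, eval_X]
      have e2 : orb σ w (m + 1) 2 = orb σ w m 0 := by
        rw [orb_succ_apply, h2, eval_X]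
      rw [e0, e1, e2]
      have e3 : T * θ ^ (m + 1) = T * θ ^ m * θ := by ring
      rw [e3]
      refine ⟨hst.1, hst.2, ?_⟩
      rw [mul_div_assoc, div_self hθ0.ne', mul_one]
      exact hx2
  refine ⟨v, (1 - ε) * T, θ, mul_pos (by linarith) hT0, hθ, fun m => ⟨0, ?_⟩⟩
  have h3 := (key m).1.1
  rwa [← mul_assoc] at h3

end ZD85
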