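import Pool.Agent.H85.ZD.Crit
import Pool.Agent.H85.ZD.Val

/-!
# ZD FiveII : the family `(a z + P(x, y), b y + Q(x), x)`, integral growth rate (row `FiveII`)

`P = ∑ p_α x^{α 0} y^{α 1}`, `q = Q.natDegree ≥ 1` with leading coefficient `q₀`, `n ≥ 2` an integer,
`α 0 n + α 1 q ≤ n²` for `α ∈ supp P`, equality exactly for `α` in the non-empty set `E₀`.

Proof.  Coordinates as in `FiveI`.  For `α ∈ E₀`: `α 0 ≤ n`, `α 0 + q α 1 = n² - (n-1) α 0 ≥ n ≥ 2`, so different
`α ∈ E₀` have different `α 0 + q α 1` (it determines `α 0`, then `α 1` as `q ≥ 1`).  The polynomial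
`h(U) = ∑_{α ∈ E₀} p_α q₀^{α 1} U^{α 0 + q α 1 - 1} - 1` is not constant, `h(0) = -1`, so it has a root `u ≠ 0`.
Put `w = q₀ u^q ≠ 0`; then `∑_{α ∈ E₀} p_α u^{α 0} w^{α 1} = u`.
Units `E` = {`a`, `b`, `u`} ∪ {non-zero coefficients of `P`, `Q`}; `p, v` from `exists_val`, `ϖ = (p : K)⁻¹`, `g = v ϖ`.
`S_0 = {x | v (x / ϖ^n - u) < 1}`, `S_1 = {y | v (y / ϖ^q - w) < 1}`, `S_2 = {z | v z ≤ 1}` (infinite sets).
Claim for all `m`: `v (x_m / ϖ^(n^(m+1)) - u) < 1`, `v (y_m / ϖ^(q n^m) - w) < 1`, `v (z_m) ≤ g^(n^m)`.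
(So `v(x_m) = g^(n^(m+1))`, `v(y_m) = g^(q n^m)`.)
Step: divide `x_{m+1} = a z_m + ∑ p_α x_m^{α 0} y_m^{α 1}` by `ϖ^(n^(m+2))`: the term of `α` has exponent
`n^(m+1) α 0 + q n^m α 1 - n^(m+2) = n^m (α 0 n + α 1 q - n²)`, `= 0` for `α ∈ E₀` and negative otherwise; the term
`a z_m` has `v ≤ g^(n^m) < g^(n^(m+2))`.  Modulo `{v < 1}` the sum is `∑_{E₀} p_α u^{α 0} w^{α 1} = u`.
Divide `y_{m+1} = b y_m + ∑ q_k x_m^k` by `ϖ^(q n^(m+1))`: only `k = q` survives and gives `q₀ u^q = w`
(`v(b y_m) = g^(q n^m)`).  `z_{m+1} = x_m`.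
`FastPt` with `c = n log g`, `θ = n`, index `0`; `zdo_of_fast_prod`.
-/

set_option autoImplicit false

namespace ZD85

open MvPolynomial

theorem FiveII_ge {N q i j : ℕ} (hN : 2 ≤ N) (h : i * N + j * q = N ^ 2) : 2 ≤ i + q * j := by
  have h1 : i ≤ N := by
    have : i * N ≤ N * N := by nlinarith
    exact Nat.le_of_mul_le_mul_right this (by omega)
  zify at *
  nlinarith [mul_nonneg (sub_nonneg.2 h1) (show (0:ℤ) ≤ (N:ℤ) - 1 by linarith)]

theorem FiveII_inj {N q i j i' j' : ℕ} (hN : 2 ≤ N) (hq : 1 ≤ q) (h : i * N + j * q = N ^ 2)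
    (h' : i' * N + j' * q = N ^ 2) (he : i + q * j = i' + q * j') : i = i' ∧ j = j' := by
  have h1 : i = i' := by
    zify at *
    have : ((N:ℤ) - 1) * (i - i') = 0 := by nlinarith
    rcases mul_eq_zero.1 this with h | h
    · exfalso; linarith
    · linarith
  subst h1
  refine ⟨rfl, ?_⟩
  have : q * j = q * j' := by omega
  exact Nat.eq_of_mul_eq_mul_left (by omega) this

theorem FiveII_root {K : Type*} [Field K] [IsAlgClosed K] (E : Finset (Fin 2 →₀ ℕ)) (hE : E.Nonempty)
    (N q : ℕ) (hN : 2 ≤ N) (hq : 1 ≤ q) (r : (Fin 2 →₀ ℕ) → K) (hr : ∀ α ∈ E, r α ≠ 0) (q₀ : K)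
    (hq₀ : q₀ ≠ 0) (hEe : ∀ α ∈ E, α 0 * N + α 1 * q = N ^ 2) :
    ∃ u : K, u ≠ 0 ∧ ∑ α ∈ E, r α * (u ^ α 0 * (q₀ * u ^ q) ^ α 1) = u := by
  classical
  set h : Polynomial K := ∑ α ∈ E, Polynomial.C (r α * q₀ ^ α 1) * Polynomial.X ^ (α 0 + q * α 1 - 1) - 1
    with hh
  have hge : ∀ α ∈ E, 2 ≤ α 0 + q * α 1 := fun α hα => FiveII_ge hN (hEe α hα)
  obtain ⟨β, hβ⟩ := hE
  have hcoeff : h.coeff (β 0 + q * β 1 - 1) = r β * q₀ ^ β 1 := by
    rw [hh, Polynomial.coeff_sub, Polynomial.finsetSum_coeff, Polynomial.coeff_one,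
      if_neg (by have := hge β hβ; omega), sub_zero, Finset.sum_eq_single β]
    · rw [Polynomial.coeff_C_mul_X_pow, if_pos rfl]
    · intro α hα hne
      rw [Polynomial.coeff_C_mul_X_pow, if_neg]
      intro he
      apply hne
      have h1 := hge α hα
      have h2 := hge β hβ
      obtain ⟨e0, e1⟩ := FiveII_inj hN hq (hEe α hα) (hEe β hβ) (by omega)
      ext i
      fin_cases i
      · exact e0
      · exact e1
    · intro h; exact absurd hβ h
  have hne : h.coeff (β 0 + q * β 1 - 1) ≠ 0 := by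
    rw [hcoeff]; exact mul_ne_zero (hr β hβ) (pow_ne_zero _ hq₀)
  have hdeg : h.degree ≠ 0 := by
    intro hd
    have h1 := Polynomial.le_degree_of_ne_zero hne
    rw [hd] at h1
    have h2 := hge β hβ
    have h3 : β 0 + q * β 1 - 1 ≤ 0 := by exact_mod_cast h1
    omega
  obtain ⟨u, hu⟩ := IsAlgClosed.exists_root h hdeg
  have hev : ∑ α ∈ E, r α * q₀ ^ α 1 * u ^ (α 0 + q * α 1 - 1) = 1 := by
    have := hu
    rw [Polynomial.IsRoot, hh, Polynomial.eval_sub, Polynomial.eval_finsetSum, Polynomial.eval_one,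
      sub_eq_zero] at this
    simpa using this
  refine ⟨u, ?_, ?_⟩
  · rintro rfl
    rw [Finset.sum_eq_zero] at hev
    · exact zero_ne_one hev
    · intro α hα
      have := hge α hα
      rw [zero_pow (by omega), mul_zero]
  · have h2 : ∑ α ∈ E, r α * (u ^ α 0 * (q₀ * u ^ q) ^ α 1)
        = (∑ α ∈ E, r α * q₀ ^ α 1 * u ^ (α 0 + q * α 1 - 1)) * u := by
      rw [Finset.sum_mul]
      apply Finset.sum_congr rfl
      intro α hα
      have h3 := hge α hα
      have h4 : u ^ (α 0 + q * α 1 - 1) * u = u ^ α 0 * (u ^ q) ^ α 1 := by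
        rw [← pow_succ, ← pow_mul, ← pow_add]
        congr 1
        omega
      calc r α * (u ^ α 0 * (q₀ * u ^ q) ^ α 1) = r α * q₀ ^ α 1 * (u ^ α 0 * (u ^ q) ^ α 1) := by
            rw [mul_pow]; ring
        _ = r α * q₀ ^ α 1 * (u ^ (α 0 + q * α 1 - 1) * u) := by rw [h4]
        _ = _ := by ring
    rw [h2, hev, one_mul]

section val
variable {K : Type*} [Field K] (v : Valuation K NNReal)

theorem FiveII_le {x x' : K} (h : v (x - x') < 1) (h' : v x' ≤ 1) : v x ≤ 1 := by
  have : x = (x - x') + x' := by ring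
  rw [this]
  exact (v.map_add _ _).trans (max_le h.le h')

theorem FiveII_cmul {x x' y y' : K} (hx : v x ≤ 1) (hy' : v y' ≤ 1) (h1 : v (x - x') < 1)
    (h2 : v (y - y') < 1) : v (x * y - x' * y') < 1 := by
  have : x * y - x' * y' = x * (y - y') + (x - x') * y' := by ring
  rw [this]
  refine v.map_add_lt ?_ ?_
  · rw [v.map_mul]
    exact mul_lt_one_of_nonneg_of_lt_one_right hx zero_le h2
  · rw [v.map_mul]
    exact mul_lt_one_of_nonneg_of_lt_one_left zero_le h1 hy'

theorem FiveII_cpow {x x' : K} (hx' : v x' ≤ 1) (h1 : v (x - x') < 1) (n : ℕ) :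
    v (x ^ n - x' ^ n) < 1 := by
  induction n with
  | zero => simp
  | succ n ih =>
    rw [pow_succ, pow_succ]
    refine FiveII_cmul v ?_ hx' ih h1
    rw [v.map_pow]
    exact pow_le_one' (FiveII_le v h1 hx') n

end val

theorem five_int {K : Type*} [Field K] [CharZero K] [IsAlgClosed K] (σ : PAut K 3) (a b : K)
    (ha : a ≠ 0) (hb : b ≠ 0)
    (P : MvPolynomial (Fin 2) K) (Q : Polynomial K) (hq : 1 ≤ Q.natDegree)
    (h0 : σ (X 0) = C a * X 2 + aeval ![X 0, X 1] P)
    (h1 : σ (X 1) = C b * X 1 + Polynomial.aeval (X 0) Q) (h2 : σ (X 2) = X 0)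
    (N : ℕ) (hN : 2 ≤ N)
    (hle : ∀ α ∈ P.support, α 0 * N + α 1 * Q.natDegree ≤ N ^ 2)
    (heq : ∃ α ∈ P.support, α 0 * N + α 1 * Q.natDegree = N ^ 2) : Zdo σ := by
  classical
  set q := Q.natDegree with hqdef
  set E₀ := P.support.filter (fun α => α 0 * N + α 1 * q = N ^ 2) with hE₀
  have hQ0 : Q ≠ 0 := by
    rintro rfl
    rw [hqdef, Polynomial.natDegree_zero] at hq; omega
  have hlc : Q.coeff q ≠ 0 := by
    rw [hqdef]; exact Polynomial.leadingCoeff_ne_zero.2 hQ0
  obtain ⟨u, hu0, hu⟩ := FiveII_root E₀ (by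
      obtain ⟨α, hα, hα'⟩ := heq
      exact ⟨α, Finset.mem_filter.2 ⟨hα, hα'⟩⟩) N q hN hq (fun α => P.coeff α)
    (fun α hα => mem_support_iff.1 (Finset.mem_filter.1 hα).1) (Q.coeff q) hlc
    (fun α hα => (Finset.mem_filter.1 hα).2)
  set w : K := Q.coeff q * u ^ q with hw
  -- the valuation
  set E : Finset K := {a, b, u} ∪ P.support.image (fun α => P.coeff α) ∪
    Q.support.image (fun k => Q.coeff k) with hE
  have hE0 : (0 : K) ∉ E := by
    intro h
    rw [hE, Finset.mem_union, Finset.mem_union] at h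
    rcases h with (h | h) | h
    · simp only [Finset.mem_insert, Finset.mem_singleton] at h
      rcases h with h | h | h
      · exact ha h.symm
      · exact hb h.symm
      · exact hu0 h.symm
    · obtain ⟨α, hα, hα'⟩ := Finset.mem_image.1 h
      exact (mem_support_iff.1 hα) hα'
    · obtain ⟨α, hα, hα'⟩ := Finset.mem_image.1 h
      exact (Polynomial.mem_support_iff.1 hα) hα'
  obtain ⟨p, v, hp, hvp, hv1, -⟩ := exists_val E hE0
  have hva : v a = 1 := hv1 a (by simp [hE])
  have hvb : v b = 1 := hv1 b (by simp [hE])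
  have hvu : v u = 1 := hv1 u (by simp [hE])
  have hvP : ∀ α, v (P.coeff α) ≤ 1 := by
    intro α
    by_cases h : P.coeff α = 0
    · rw [h, v.map_zero]; exact zero_le_one
    · refine (hv1 _ ?_).le
      rw [hE, Finset.mem_union, Finset.mem_union]
      exact Or.inl (Or.inr (Finset.mem_image_of_mem _ (mem_support_iff.2 h)))
  have hvQ : ∀ k, v (Q.coeff k) ≤ 1 := by
    intro k
    by_cases h : Q.coeff k = 0
    · rw [h, v.map_zero]; exact zero_le_one
    · refine (hv1 _ ?_).le
      rw [hE, Finset.mem_union, Finset.mem_union]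
      exact Or.inr (Finset.mem_image_of_mem (fun k => Q.coeff k) (Polynomial.mem_support_iff.2 h))
  have hvw : v w ≤ 1 := by
    rw [hw, v.map_mul, v.map_pow, hvu, one_pow, mul_one]; exact hvQ q
  have hp0 : (p : K) ≠ 0 := by exact_mod_cast hp.ne_zero
  set ϖ : K := (p : K)⁻¹ with hϖ
  have hϖ0 : ϖ ≠ 0 := inv_ne_zero hp0
  set G : NNReal := v ϖ with hG
  have hG1 : 1 < G := by
    rw [hG, hϖ, map_inv₀]
    have h3 : 0 < v (p : K) := zero_lt_iff.2 ((v.ne_zero_iff).2 hp0)
    exact (one_lt_inv₀ h3).2 hvp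
  have hG0 : G ≠ 0 := by positivity
  have hvϖ : ∀ n, v (ϖ ^ n) = G ^ n := fun n => by rw [v.map_pow]
  have hGp : ∀ n, (0 : NNReal) < G ^ n := fun n => by positivity
  -- the ratio of powers
  have hrat : ∀ {c : K} {k l : ℕ}, v c ≤ 1 → k < l → v (c * ϖ ^ k / ϖ ^ l) < 1 := by
    intro c k l hc hkl
    rw [map_div₀, v.map_mul, hvϖ, hvϖ, div_lt_one (hGp l)]
    calc v c * G ^ k ≤ 1 * G ^ k := by gcongr
      _ = G ^ k := one_mul _
      _ < G ^ l := pow_lt_pow_right₀ hG1 hkl
  have hS : ∀ (n : ℕ) (t : K), {x : K | v (x / ϖ ^ n - t) < 1}.Infinite := by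
    intro n t
    refine (ball_infinite v (p : K) hp0 hvp (t * ϖ ^ n) (G ^ n) (hGp n)).mono ?_
    intro x hx
    have hx' : v (x - t * ϖ ^ n) < G ^ n := hx
    show v (x / ϖ ^ n - t) < 1
    have : x / ϖ ^ n - t = (x - t * ϖ ^ n) / ϖ ^ n := by
      field_simp
    rw [this, map_div₀, hvϖ, div_lt_one (hGp n)]
    exact hx'
  refine zdo_of_fast_prod σ ![{x | v (x / ϖ ^ N - u) < 1}, {y | v (y / ϖ ^ q - w) < 1}, {z | v z ≤ 1}]
    ?_ ?_
  · intro i
    fin_cases i
    · exact hS N u
    · exact hS q w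
    · refine (hS 0 0).mono ?_
      intro x hx
      have hx' : v (x / ϖ ^ 0 - 0) < 1 := hx
      rw [pow_zero, div_one, sub_zero] at hx'
      exact hx'.le
  · intro R hR
    have hR0 : v (R 0 / ϖ ^ N - u) < 1 := hR 0
    have hR1 : v (R 1 / ϖ ^ q - w) < 1 := hR 1
    have hR2 : v (R 2) ≤ 1 := hR 2
    have hrec0 : ∀ m, orb σ R (m + 1) 0 = a * orb σ R m 2
        + ∑ α ∈ P.support, P.coeff α * (orb σ R m 0 ^ α 0 * orb σ R m 1 ^ α 1) := by
      intro m
      rw [orb_succ_apply, h0, map_add, map_mul, eval_C, eval_X]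
      congr 1
      have : eval (orb σ R m) (aeval ![X 0, X 1] P) = aeval (![orb σ R m 0, orb σ R m 1]) P := by
        have h3 := comp_aeval_apply (R := K) (f := ![(X 0 : MvPolynomial (Fin 3) K), X 1])
          (φ := (aeval (orb σ R m) : MvPolynomial (Fin 3) K →ₐ[K] K)) (p := P)
        rw [aeval_eq_eval] at h3
        rw [h3]
        congr 2
        funext i
        fin_cases i <;> simp
      rw [this, aeval_def, eval₂_eq']
      apply Finset.sum_congr rfl
      intro α _
      rw [Fin.prod_univ_two]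
      rfl
    have hrec1 : ∀ m, orb σ R (m + 1) 1 = b * orb σ R m 1
        + ∑ k ∈ Finset.range (q + 1), Q.coeff k * orb σ R m 0 ^ k := by
      intro m
      rw [orb_succ_apply, h1, map_add, map_mul, eval_C, eval_X]
      congr 1
      rw [Polynomial.aeval_eq_sum_range, map_sum]
      apply Finset.sum_congr rfl
      intro k _
      rw [smul_eq_C_mul, map_mul, eval_C, map_pow, eval_X]
    have hrec2 : ∀ m, orb σ R (m + 1) 2 = orb σ R m 0 := by
      intro m
      rw [orb_succ_apply, h2, eval_X]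
    have key : ∀ m, v (orb σ R m 0 / ϖ ^ (N ^ (m + 1)) - u) < 1 ∧
        v (orb σ R m 1 / ϖ ^ (q * N ^ m) - w) < 1 ∧ v (orb σ R m 2) ≤ G ^ (N ^ m) := by
      intro m
      induction m with
      | zero =>
        refine ⟨?_, ?_, ?_⟩
        · rw [orb_zero, zero_add, pow_one]; exact hR0
        · rw [orb_zero, pow_zero, mul_one]; exact hR1
        · rw [orb_zero, pow_zero, pow_one]; exact hR2.trans hG1.le
      | succ m ih =>
        obtain ⟨ih0, ih1, ih2⟩ := ih
        set s : K := orb σ R m 0 / ϖ ^ (N ^ (m + 1)) with hs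
        set t : K := orb σ R m 1 / ϖ ^ (q * N ^ m) with ht
        have hx : orb σ R m 0 = s * ϖ ^ (N ^ (m + 1)) := by
          rw [hs, div_mul_cancel₀]; exact pow_ne_zero _ hϖ0
        have hy : orb σ R m 1 = t * ϖ ^ (q * N ^ m) := by
          rw [ht, div_mul_cancel₀]; exact pow_ne_zero _ hϖ0
        have hvs : v s ≤ 1 := FiveII_le v ih0 hvu.le
        have hvt : v t ≤ 1 := FiveII_le v ih1 hvw
        have hNm : N ^ m < N ^ (m + 2) := Nat.pow_lt_pow_right (by omega) (by omega)
        refine ⟨?_, ?_, ?_⟩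
        · rw [hrec0 m]
          have hsum : (a * orb σ R m 2
              + ∑ α ∈ P.support, P.coeff α * (orb σ R m 0 ^ α 0 * orb σ R m 1 ^ α 1))
                / ϖ ^ (N ^ (m + 1 + 1)) - u
              = a * orb σ R m 2 / ϖ ^ (N ^ (m + 1 + 1))
                + ∑ α ∈ P.support, (P.coeff α * (orb σ R m 0 ^ α 0 * orb σ R m 1 ^ α 1)
                  / ϖ ^ (N ^ (m + 1 + 1))
                  - (if α 0 * N + α 1 * q = N ^ 2 then P.coeff α * (u ^ α 0 * w ^ α 1) else 0)) := by
            rw [Finset.sum_sub_distrib, ← Finset.sum_div, ← Finset.sum_filter, ← hE₀, hu]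
            ring
          rw [hsum]
          refine v.map_add_lt ?_ ?_
          · rw [map_div₀, v.map_mul, hva, one_mul, hvϖ, div_lt_one (hGp _)]
            exact ih2.trans_lt (pow_lt_pow_right₀ hG1 hNm)
          · refine v.map_sum_lt one_ne_zero ?_
            intro α hα
            have hterm : P.coeff α * (orb σ R m 0 ^ α 0 * orb σ R m 1 ^ α 1)
                = P.coeff α * (s ^ α 0 * t ^ α 1) * ϖ ^ (N ^ m * (α 0 * N + α 1 * q)) := by
              rw [hx, hy, mul_pow, mul_pow, ← pow_mul, ← pow_mul]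
              have : ϖ ^ (N ^ m * (α 0 * N + α 1 * q))
                  = ϖ ^ (N ^ (m + 1) * α 0) * ϖ ^ (q * N ^ m * α 1) := by
                rw [← pow_add]
                congr 1
                ring
              rw [this]; ring
            rw [hterm]
            have hvc : v (P.coeff α * (s ^ α 0 * t ^ α 1)) ≤ 1 := by
              rw [v.map_mul, v.map_mul, v.map_pow, v.map_pow]
              exact mul_le_one' (hvP α) (mul_le_one' (pow_le_one' hvs _) (pow_le_one' hvt _))
            by_cases hα' : α 0 * N + α 1 * q = N ^ 2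
            · rw [if_pos hα', hα']
              have h5 : N ^ m * N ^ 2 = N ^ (m + 1 + 1) := by rw [← pow_add]
              rw [h5, mul_div_assoc, div_self (pow_ne_zero _ hϖ0), mul_one, ← mul_sub, v.map_mul]
              refine mul_lt_one_of_nonneg_of_lt_one_right (hvP α) zero_le ?_
              refine FiveII_cmul v ?_ ?_ (FiveII_cpow v hvu.le ih0 _) (FiveII_cpow v hvw ih1 _)
              · rw [v.map_pow]; exact pow_le_one' hvs _
              · rw [v.map_pow]; exact pow_le_one' hvw _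
            · rw [if_neg hα', sub_zero]
              refine hrat hvc ?_
              have h5 : N ^ (m + 1 + 1) = N ^ m * N ^ 2 := by rw [← pow_add]
              rw [h5]
              refine Nat.mul_lt_mul_of_pos_left ?_ (pow_pos (by omega) m)
              exact lt_of_le_of_ne (hle α hα) hα'
        · rw [hrec1 m]
          have hsum : (b * orb σ R m 1 + ∑ k ∈ Finset.range (q + 1), Q.coeff k * orb σ R m 0 ^ k)
                / ϖ ^ (q * N ^ (m + 1)) - w
              = b * orb σ R m 1 / ϖ ^ (q * N ^ (m + 1))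
                + (∑ k ∈ Finset.range q, Q.coeff k * orb σ R m 0 ^ k / ϖ ^ (q * N ^ (m + 1))
                + (Q.coeff q * orb σ R m 0 ^ q / ϖ ^ (q * N ^ (m + 1)) - w)) := by
            rw [Finset.sum_range_succ, ← Finset.sum_div]
            ring
          rw [hsum]
          refine v.map_add_lt ?_ (v.map_add_lt ?_ ?_)
          · rw [hy, ← mul_assoc]
            refine hrat ?_ ?_
            · rw [v.map_mul, hvb, one_mul]; exact hvt
            · refine Nat.mul_lt_mul_of_pos_left ?_ (by omega)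
              exact Nat.pow_lt_pow_right (by omega) (by omega)
          · refine v.map_sum_lt one_ne_zero ?_
            intro k hk
            rw [hx, mul_pow, ← pow_mul, ← mul_assoc]
            refine hrat ?_ ?_
            · rw [v.map_mul, v.map_pow]
              exact mul_le_one' (hvQ k) (pow_le_one' hvs _)
            · rw [mul_comm]
              refine Nat.mul_lt_mul_of_pos_right (Finset.mem_range.1 hk) (pow_pos (by omega) _)
          · rw [hx, mul_pow, ← pow_mul, mul_comm (N ^ (m + 1)) q, ← mul_assoc, mul_div_assoc,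
              div_self (pow_ne_zero _ hϖ0), mul_one, hw, ← mul_sub, v.map_mul]
            exact mul_lt_one_of_nonneg_of_lt_one_right (hvQ q) zero_le (FiveII_cpow v hvu.le ih0 q)
        · rw [hrec2 m, hx, v.map_mul, hvϖ]
          calc v s * G ^ (N ^ (m + 1)) ≤ 1 * G ^ (N ^ (m + 1)) := by gcongr
            _ = _ := one_mul _
    refine ⟨v, N * Real.log G, N, ?_, by exact_mod_cast (by omega : 1 < N), ?_⟩
    · have : 0 < Real.log G := Real.log_pos (by exact_mod_cast hG1)
      have h3 : (0:ℝ) < N := by exact_mod_cast (by omega : 0 < N)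
      positivity
    · intro m
      refine ⟨0, ?_⟩
      obtain ⟨k0, -, -⟩ := key m
      have hvs : v (orb σ R m 0 / ϖ ^ (N ^ (m + 1))) = 1 := by
        have h3 := v.map_add_eq_of_lt_right (x := orb σ R m 0 / ϖ ^ (N ^ (m + 1)) - u) (y := u)
          (by rw [hvu]; exact k0)
        rw [sub_add_cancel] at h3
        rw [h3, hvu]
      have hvx : v (orb σ R m 0) = G ^ (N ^ (m + 1)) := by
        have h3 : orb σ R m 0 = (orb σ R m 0 / ϖ ^ (N ^ (m + 1))) * ϖ ^ (N ^ (m + 1)) := by
          rw [div_mul_cancel₀]; exact pow_ne_zero _ hϖ0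
        rw [h3, v.map_mul, hvs, one_mul, hvϖ]
      rw [hvx]
      have h4 : (0:ℝ) < G := by positivity
      have h5 : (N:ℝ) * Real.log G * (N:ℝ) ^ m = ((N ^ (m + 1) : ℕ) : ℝ) * Real.log G := by
        push_cast; ring
      rw [h5, mul_comm, Real.exp_mul, Real.exp_log h4, NNReal.coe_pow]
      exact_mod_cast le_refl _

end ZD85
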