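import Pool.Agent.H85.ZD.Defs

/-!
# ZD Frob : points over `F_p`-bar whose orbit avoids zero, in all dimensions (row `Frob`)

`F` a field, `Q ≥ 1`, `g_1, ..., g_n ∈ F[x_1, ..., x_n]` of total degree `< Q`, `𝔞 = (X_i^Q - g_i)`.

`frob_basis`: a polynomial `f ∈ 𝔞` all of whose exponents are `< Q` is zero.
Proof.  Put `u_i = X_i^Q - g_i`.  Every exponent is uniquely `Q β + α` with `0 ≤ α_i < Q` (`β = γ / Q`, `α = γ % Q`
coordinatewise).  Let `T : F[x] → F[x]` be the `F`-linear map with `T (x^{Qβ+α}) = u^β x^α`.  As the total degree of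
`u_i - X_i^Q` is `< Q`, `T (m) - m` has total degree `< deg m` for each monomial `m` (induction on `|β|`).  So `T` is
injective (for `f ≠ 0` the part of top degree of `T f` is that of `f`) and surjective (induction on the degree: `f - T f` has
smaller total degree than `f`, or `f` is constant).  Hence
`𝔞 = ∑ u_i F[x] = ∑ u_i T(F[x]) = span {u_i u^β x^α} = T (span {x^γ : some γ_i ≥ Q})`.
If `f ∈ 𝔞` has all exponents `< Q` then `T f = f` and `f = T h` with all monomials of `h` having an exponent `≥ Q`; so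
`f = h`, and `f = 0`.

`frob_finrank`: `F[x] / 𝔞` is finite-dimensional over `F` of dimension `≤ Q^n`: it is spanned by the images of `x^α`, `α_i < Q`
(`F[x] = T(F[x])`, `T (x^{Qβ+α}) = u^β x^α ∈ 𝔞` if `β ≠ 0`).

`frob_point`: `F = AlgebraicClosure (ZMod p)`, `γ = aeval g`.
Let `J = {j | γ^n (X j) ≠ 0}` and `f = ∏_{j ∈ J} X j`; `γ^n f = ∏ γ^n (X j) ≠ 0`.  Choose `Q = p^s`, `s ≥ 1`, such that
all coefficients `c` of all `g_i` satisfy `c^Q = c` (finitely many elements of `F`, each lies in a finite field; powers of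
a suitable `q = p^r` work) and `Q >` the total degrees of the `g_i` and of `γ^n f`.
Let `φ : F → F`, `c ↦ c^Q`.
(1) `h^Q ≡ γ (map φ h)` modulo `𝔞` for all `h`: both sides are ring homomorphisms `F[x] → F[x]/𝔞` in `h` (characteristic `p`),
equal on constants and on the `X i`.  If the coefficients of `h` are fixed by `φ`, `map φ h = h`; `γ h` again has coefficients
fixed by `φ`.  So for such `h`, `h^(Q^m) ≡ γ^m h` modulo `𝔞` for all `m`.
(2) Suppose `f` vanishes at all points of `V(𝔞) ⊂ F^n`.  By the Nullstellensatz (`MvPolynomial.vanishingIdeal_zeroLocus_eq_radical`)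
`f` is nilpotent in `A = F[x]/𝔞`, `dim A ≤ Q^n`, so `f^(Q^n) = 0` in `A` (multiplication by `f` is a nilpotent endomorphism of
`A`; `Module.End`: nilpotent `N` on a space of dimension `D` satisfies `N^D = 0`, and multiplication by `f^(Q^n)` applied to
`1`).  So `γ^n f ∈ 𝔞`, all its exponents are `< Q`, so `γ^n f = 0` by `frob_basis`.  Contradiction.
(3) So there is `c ∈ F^n` with `eval c (g i) = c_i^Q` for all `i` and `c_j ≠ 0` for `j ∈ J`.  By (1) (evaluate at `c`, the elements
of `𝔞` vanish at `c`): `eval c (γ^m (X i)) = c_i^(Q^m)`.  For `i ∉ J`: `c_i^(Q^n) = 0`, so `c_i = 0`, and all values are `0`.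
For `j ∈ J` all values are `≠ 0`.
-/

set_option autoImplicit false

namespace ZD85

open MvPolynomial

/-- polynomials of total degree `< d` (only `0` for `d = 0`) -/
noncomputable def Frob_W (F : Type*) [Field F] (n d : ℕ) : Submodule F (MvPolynomial (Fin n) F) :=
  restrictSupport F {α | α.degree < d}

theorem Frob_memW {F : Type*} [Field F] {n d : ℕ} {p : MvPolynomial (Fin n) F} :
    p ∈ Frob_W F n d ↔ ∀ α ∈ p.support, α.degree < d := by
  unfold Frob_W
  rw [mem_restrictSupport_iff]
  rfl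

theorem Frob_W_mono {F : Type*} [Field F] {n d e : ℕ} (h : d ≤ e) : Frob_W F n d ≤ Frob_W F n e := by
  intro p hp
  rw [Frob_memW] at hp ⊢
  intro α hα
  exact lt_of_lt_of_le (hp α hα) h

theorem Frob_W_mul {F : Type*} [Field F] {n d e : ℕ} {p q : MvPolynomial (Fin n) F}
    (hp : p ∈ Frob_W F n d) (hq : q ∈ Frob_W F n (e + 1)) : p * q ∈ Frob_W F n (d + e) := by
  classical
  rw [Frob_memW] at hp hq ⊢
  intro α hα
  have h := MvPolynomial.support_mul p q hα
  rw [Finset.mem_add] at h
  obtain ⟨β, hβ, γ, hγ, rfl⟩ := h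
  have h1 := hp β hβ
  have h2 := hq γ hγ
  rw [map_add]
  omega

theorem Frob_W_zero {F : Type*} [Field F] {n : ℕ} {p : MvPolynomial (Fin n) F}
    (hp : p ∈ Frob_W F n 0) : p = 0 := by
  rw [Frob_memW] at hp
  rw [← MvPolynomial.support_eq_empty, Finset.eq_empty_iff_forall_notMem]
  intro α hα
  exact absurd (hp α hα) (by omega)

theorem Frob_W_exists {F : Type*} [Field F] {n : ℕ} (p : MvPolynomial (Fin n) F) :
    ∃ d, p ∈ Frob_W F n d := by
  refine ⟨p.totalDegree + 1, ?_⟩
  rw [Frob_memW]
  intro α hα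
  have := MvPolynomial.le_totalDegree hα
  rw [Finsupp.degree_eq_sum]
  rw [Finsupp.sum_fintype _ _ (fun _ => rfl)] at this
  omega

/-- `a` is `X^α` plus terms of lower total degree -/
def Frob_Good {F : Type*} [Field F] {n : ℕ} (α : Fin n →₀ ℕ) (a : MvPolynomial (Fin n) F) : Prop :=
  a - monomial α 1 ∈ Frob_W F n α.degree

theorem Frob_monW {F : Type*} [Field F] {n : ℕ} (α : Fin n →₀ ℕ) (c : F) :
    monomial α c ∈ Frob_W F n (α.degree + 1) := by
  classical
  rw [Frob_memW]
  intro β hβ
  have := MvPolynomial.support_monomial_subset hβ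
  rw [Finset.mem_singleton] at this
  rw [this]; omega

theorem Frob_Good_le {F : Type*} [Field F] {n : ℕ} {α : Fin n →₀ ℕ} {a : MvPolynomial (Fin n) F}
    (h : Frob_Good α a) : a ∈ Frob_W F n (α.degree + 1) := by
  have h1 := Frob_W_mono (Nat.le_succ _) h
  have h2 := Frob_monW (F := F) α 1
  have := Submodule.add_mem _ h1 h2
  simpa using this

theorem Frob_Good_mul {F : Type*} [Field F] {n : ℕ} {α β : Fin n →₀ ℕ} {a b : MvPolynomial (Fin n) F}
    (ha : Frob_Good α a) (hb : Frob_Good β b) : Frob_Good (α + β) (a * b) := by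
  unfold Frob_Good at *
  have h1 : a * b - monomial (α + β) 1 = (a - monomial α 1) * b + (b - monomial β 1) * monomial α 1 := by
    have : (monomial (α + β) (1 : F)) = monomial β 1 * monomial α 1 := by
      rw [monomial_mul, add_comm, one_mul]
    rw [this]; ring
  rw [h1, map_add]
  apply Submodule.add_mem
  · exact Frob_W_mul ha (Frob_Good_le hb)
  · rw [add_comm]; exact Frob_W_mul hb (Frob_monW _ _)

theorem Frob_Good_one {F : Type*} [Field F] {n : ℕ} : Frob_Good (0 : Fin n →₀ ℕ) (1 : MvPolynomial (Fin n) F) := by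
  unfold Frob_Good
  simp [monomial_zero']

theorem Frob_Good_X {F : Type*} [Field F] {n : ℕ} (i : Fin n) :
    Frob_Good (Finsupp.single i 1) (X i : MvPolynomial (Fin n) F) := by
  unfold Frob_Good
  simp [X]

theorem Frob_Good_pow {F : Type*} [Field F] {n : ℕ} {α : Fin n →₀ ℕ} {a : MvPolynomial (Fin n) F}
    (ha : Frob_Good α a) (k : ℕ) : Frob_Good (k • α) (a ^ k) := by
  induction k with
  | zero => simpa using Frob_Good_one
  | succ k ih => rw [pow_succ, succ_nsmul]; exact Frob_Good_mul ih ha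

theorem Frob_Good_prod {F : Type*} [Field F] {n : ℕ} {ι : Type*} (s : Finset ι) (α : ι → (Fin n →₀ ℕ))
    (a : ι → MvPolynomial (Fin n) F) (h : ∀ i ∈ s, Frob_Good (α i) (a i)) :
    Frob_Good (∑ i ∈ s, α i) (∏ i ∈ s, a i) := by
  classical
  induction s using Finset.induction_on with
  | empty => simpa using Frob_Good_one
  | insert i s his ih =>
    rw [Finset.sum_insert his, Finset.prod_insert his]
    exact Frob_Good_mul (h i (Finset.mem_insert_self _ _))
      (ih (fun j hj => h j (Finset.mem_insert_of_mem hj)))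

theorem Frob_Good_u {F : Type*} [Field F] {n Q : ℕ} (g : Fin n → MvPolynomial (Fin n) F)
    (hg : ∀ i, (g i).totalDegree < Q) (i : Fin n) :
    Frob_Good (Finsupp.single i Q) (X i ^ Q - g i) := by
  unfold Frob_Good
  have h1 : X i ^ Q - g i - monomial (Finsupp.single i Q) 1 = - g i := by
    rw [X_pow_eq_monomial]; ring
  rw [h1]
  apply Submodule.neg_mem
  rw [Frob_memW]
  intro α hα
  have h2 := MvPolynomial.le_totalDegree hα
  have h3 := hg i
  rw [Finsupp.degree_single, Finsupp.degree_eq_sum]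
  rw [Finsupp.sum_fintype _ _ (fun _ => rfl)] at h2
  omega

/-- the basis element `u^β x^α` for the exponent `Q β + α` -/
noncomputable def Frob_M {F : Type*} [Field F] {n : ℕ} (Q : ℕ) (g : Fin n → MvPolynomial (Fin n) F)
    (γ : Fin n →₀ ℕ) : MvPolynomial (Fin n) F :=
  ∏ i : Fin n, ((X i ^ Q - g i) ^ (γ i / Q) * X i ^ (γ i % Q))

theorem Frob_M_good {F : Type*} [Field F] {n Q : ℕ} (g : Fin n → MvPolynomial (Fin n) F)
    (hg : ∀ i, (g i).totalDegree < Q) (γ : Fin n →₀ ℕ) : Frob_Good γ (Frob_M Q g γ) := by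
  have h := Frob_Good_prod Finset.univ
    (fun i : Fin n => (γ i / Q) • Finsupp.single i Q + (γ i % Q) • Finsupp.single i 1)
    (fun i => (X i ^ Q - g i) ^ (γ i / Q) * X i ^ (γ i % Q))
    (fun i _ => Frob_Good_mul (Frob_Good_pow (Frob_Good_u g hg i) _) (Frob_Good_pow (Frob_Good_X i) _))
  have h2 : (∑ i : Fin n, ((γ i / Q) • Finsupp.single i Q + (γ i % Q) • Finsupp.single i 1)) = γ := by
    have : ∀ i : Fin n, (γ i / Q) • Finsupp.single i Q + (γ i % Q) • Finsupp.single i 1
        = Finsupp.single i (γ i) := by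
      intro i
      rw [Finsupp.smul_single, Finsupp.smul_single, ← Finsupp.single_add]
      congr 1
      simp only [smul_eq_mul, mul_one]
      exact Nat.div_add_mod' _ _
    rw [Finset.sum_congr rfl (fun i _ => this i)]
    exact Finsupp.univ_sum_single γ
  rw [h2] at h
  exact h

/-- the linear map `T`, `x^γ ↦ M γ` -/
noncomputable def Frob_T {F : Type*} [Field F] {n : ℕ} (Q : ℕ) (g : Fin n → MvPolynomial (Fin n) F) :
    MvPolynomial (Fin n) F →ₗ[F] MvPolynomial (Fin n) F :=
  (basisMonomials (Fin n) F).constr F (Frob_M Q g)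

theorem Frob_T_mon {F : Type*} [Field F] {n : ℕ} (Q : ℕ) (g : Fin n → MvPolynomial (Fin n) F)
    (γ : Fin n →₀ ℕ) (c : F) : Frob_T Q g (monomial γ c) = c • Frob_M Q g γ := by
  have h1 : (monomial γ c : MvPolynomial (Fin n) F) = c • basisMonomials (Fin n) F γ := by
    rw [coe_basisMonomials, smul_monomial, smul_eq_mul, mul_one]
  rw [h1, map_smul]
  unfold Frob_T
  rw [Module.Basis.constr_basis]

theorem Frob_T_sub {F : Type*} [Field F] {n Q : ℕ} (g : Fin n → MvPolynomial (Fin n) F)
    (hg : ∀ i, (g i).totalDegree < Q) {d : ℕ} {p : MvPolynomial (Fin n) F} (hp : p ∈ Frob_W F n (d + 1)) :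
    Frob_T Q g p - p ∈ Frob_W F n d := by
  rw [Frob_memW] at hp
  have h1 : Frob_T Q g p - p = ∑ γ ∈ p.support, coeff γ p • (Frob_M Q g γ - monomial γ 1) := by
    conv_lhs => rw [p.as_sum, map_sum, ← Finset.sum_sub_distrib]
    apply Finset.sum_congr rfl
    intro γ _
    rw [Frob_T_mon, smul_sub, smul_monomial, smul_eq_mul, mul_one]
  rw [h1]
  apply Submodule.sum_mem
  intro γ hγ
  apply Submodule.smul_mem
  exact Frob_W_mono (by have := hp γ hγ; omega) (Frob_M_good g hg γ)

theorem Frob_T_inj {F : Type*} [Field F] {n Q : ℕ} (g : Fin n → MvPolynomial (Fin n) F)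
    (hg : ∀ i, (g i).totalDegree < Q) {p : MvPolynomial (Fin n) F} (hp : Frob_T Q g p = 0) : p = 0 := by
  obtain ⟨d, hd⟩ := Frob_W_exists p
  induction d with
  | zero => exact Frob_W_zero hd
  | succ d ih =>
    apply ih
    have := Frob_T_sub g hg hd
    rw [hp, zero_sub] at this
    simpa using this

theorem Frob_T_surj {F : Type*} [Field F] {n Q : ℕ} (g : Fin n → MvPolynomial (Fin n) F)
    (hg : ∀ i, (g i).totalDegree < Q) (p : MvPolynomial (Fin n) F) : ∃ q, Frob_T Q g q = p := by
  obtain ⟨d, hd⟩ := Frob_W_exists p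
  induction d generalizing p with
  | zero => exact ⟨0, by rw [map_zero, Frob_W_zero hd]⟩
  | succ d ih =>
    have := Frob_T_sub g hg hd
    obtain ⟨q, hq⟩ := ih _ this
    exact ⟨p - q, by rw [map_sub, hq]; ring⟩

theorem Frob_T_u {F : Type*} [Field F] {n Q : ℕ} (g : Fin n → MvPolynomial (Fin n) F)
    (hg : ∀ i, (g i).totalDegree < Q) (i : Fin n) (p : MvPolynomial (Fin n) F) :
    (X i ^ Q - g i) * Frob_T Q g p = Frob_T Q g (monomial (Finsupp.single i Q) 1 * p) := by
  classical
  have hQ : 0 < Q := lt_of_le_of_lt (Nat.zero_le _) (hg i)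
  have key : ∀ γ : Fin n →₀ ℕ, (X i ^ Q - g i) * Frob_M Q g γ = Frob_M Q g (Finsupp.single i Q + γ) := by
    intro γ
    unfold Frob_M
    rw [← Finset.mul_prod_erase _ _ (Finset.mem_univ i), ← Finset.mul_prod_erase _ _ (Finset.mem_univ i)]
    have h1 : (Finsupp.single i Q + γ) i = Q + γ i := by simp
    rw [h1, Nat.add_div_left _ hQ, Nat.add_mod_left]
    have h2 : ∏ j ∈ Finset.univ.erase i, ((X j ^ Q - g j) ^ (γ j / Q) * X j ^ (γ j % Q))
        = ∏ j ∈ Finset.univ.erase i, ((X j ^ Q - g j) ^ ((Finsupp.single i Q + γ) j / Q) *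
          X j ^ ((Finsupp.single i Q + γ) j % Q)) := by
      apply Finset.prod_congr rfl
      intro j hj
      have hji : j ≠ i := Finset.ne_of_mem_erase hj
      have : (Finsupp.single i Q + γ) j = γ j := by
        simp [hji.symm]
      rw [this]
    rw [← h2, pow_succ]
    ring
  conv_lhs => rw [p.as_sum, map_sum, Finset.mul_sum]
  conv_rhs => rw [p.as_sum, Finset.mul_sum, map_sum]
  apply Finset.sum_congr rfl
  intro γ _
  rw [Frob_T_mon, monomial_mul, Frob_T_mon, one_mul, mul_smul_comm, key]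

theorem Frob_M_small {F : Type*} [Field F] {n Q : ℕ} (g : Fin n → MvPolynomial (Fin n) F)
    (γ : Fin n →₀ ℕ) (h : ∀ i, γ i < Q) : Frob_M Q g γ = monomial γ 1 := by
  unfold Frob_M
  rw [monomial_eq, C_1, one_mul, Finsupp.prod_fintype _ _ (fun _ => pow_zero _)]
  apply Finset.prod_congr rfl
  intro i _
  rw [Nat.div_eq_of_lt (h i), Nat.mod_eq_of_lt (h i), pow_zero, one_mul]

theorem Frob_T_small {F : Type*} [Field F] {n Q : ℕ} (g : Fin n → MvPolynomial (Fin n) F)
    (f : MvPolynomial (Fin n) F) (hf : ∀ α ∈ f.support, ∀ i, α i < Q) : Frob_T Q g f = f := by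
  conv_lhs => rw [f.as_sum, map_sum]
  conv_rhs => rw [f.as_sum]
  apply Finset.sum_congr rfl
  intro γ hγ
  rw [Frob_T_mon, Frob_M_small g γ (hf γ hγ), smul_monomial, smul_eq_mul, mul_one]

theorem frob_basis {F : Type*} [Field F] {n : ℕ} (Q : ℕ) (g : Fin n → MvPolynomial (Fin n) F)
    (hg : ∀ i, (g i).totalDegree < Q) (f : MvPolynomial (Fin n) F) (hf : ∀ α ∈ f.support, ∀ i, α i < Q)
    (hmem : f ∈ Ideal.span (Set.range fun i => X i ^ Q - g i)) : f = 0 := by
  classical
  rw [Ideal.mem_span_range_iff_exists_fun] at hmem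
  obtain ⟨c, hc⟩ := hmem
  choose q hq using fun i => Frob_T_surj g hg (c i)
  have h1 : Frob_T Q g (∑ i, monomial (Finsupp.single i Q) 1 * q i) = f := by
    rw [map_sum, ← hc]
    apply Finset.sum_congr rfl
    intro i _
    rw [← Frob_T_u g hg, hq, mul_comm]
  have h2 : (∑ i, monomial (Finsupp.single i Q) 1 * q i) - f = 0 := by
    apply Frob_T_inj g hg
    rw [map_sub, h1, Frob_T_small g f hf, sub_self]
  have h3 : f = ∑ i, monomial (Finsupp.single i Q) 1 * q i := (sub_eq_zero.mp h2).symm
  rw [← MvPolynomial.support_eq_empty, Finset.eq_empty_iff_forall_notMem]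
  intro α hα
  have h4 := hf α hα
  rw [mem_support_iff] at hα
  apply hα
  rw [h3, coeff_sum]
  apply Finset.sum_eq_zero
  intro i _
  rw [coeff_monomial_mul', if_neg]
  intro hle
  have := hle i
  rw [Finsupp.single_eq_same] at this
  have := h4 i
  omega

theorem frob_finrank {F : Type*} [Field F] {n : ℕ} (Q : ℕ) (g : Fin n → MvPolynomial (Fin n) F)
    (hg : ∀ i, (g i).totalDegree < Q) :
    Module.Finite F (MvPolynomial (Fin n) F ⧸ Ideal.span (Set.range fun i => X i ^ Q - g i)) ∧
      Module.finrank F (MvPolynomial (Fin n) F ⧸ Ideal.span (Set.range fun i => X i ^ Q - g i)) ≤ Q ^ n := by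
  classical
  set I : Ideal (MvPolynomial (Fin n) F) := Ideal.span (Set.range fun i => X i ^ Q - g i) with hI
  let b : (Fin n → Fin Q) → (MvPolynomial (Fin n) F ⧸ I) := fun a =>
    Ideal.Quotient.mkₐ F I (monomial (Finsupp.equivFunOnFinite.symm (fun i => (a i : ℕ))) 1)
  have hspan : (⊤ : Submodule F (MvPolynomial (Fin n) F ⧸ I)) ≤ Submodule.span F (Set.range b) := by
    rintro x -
    obtain ⟨p, rfl⟩ := Ideal.Quotient.mkₐ_surjective F I x
    obtain ⟨q, rfl⟩ := Frob_T_surj g hg p
    rw [q.as_sum, map_sum, map_sum]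
    apply Submodule.sum_mem
    intro γ _
    rw [Frob_T_mon, map_smul]
    apply Submodule.smul_mem
    by_cases h : ∀ i, γ i < Q
    · rw [Frob_M_small g γ h]
      apply Submodule.subset_span
      refine ⟨fun i => ⟨γ i, h i⟩, ?_⟩
      simp only [b]
      congr 2
      ext i
      simp
    · push Not at h
      obtain ⟨i, hi⟩ := h
      have h5 : Frob_M Q g γ = (X i ^ Q - g i) * Frob_T Q g (monomial (γ - Finsupp.single i Q) 1) := by
        rw [Frob_T_u g hg, monomial_mul, one_mul, Frob_T_mon, one_smul]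
        congr 1
        rw [add_tsub_cancel_of_le]
        intro j
        by_cases hj : j = i
        · subst hj; simpa using hi
        · rw [Finsupp.single_apply, if_neg (Ne.symm hj)]; exact Nat.zero_le _
      have h6 : Ideal.Quotient.mkₐ F I (Frob_M Q g γ) = 0 := by
        rw [Ideal.Quotient.mkₐ_eq_mk, Ideal.Quotient.eq_zero_iff_mem, h5]
        exact Ideal.mul_mem_right _ _ (Ideal.subset_span ⟨i, rfl⟩)
      rw [h6]
      exact Submodule.zero_mem _
  have hfin : Module.Finite F (MvPolynomial (Fin n) F ⧸ I) := by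
    refine ⟨⟨Finset.univ.image b, ?_⟩⟩
    rw [Finset.coe_image, Finset.coe_univ, Set.image_univ]
    exact top_le_iff.mp hspan
  refine ⟨hfin, ?_⟩
  have h1 := finrank_range_le_card (R := F) b
  have h2 : Module.finrank F (Submodule.span F (Set.range b)) = Module.finrank F (MvPolynomial (Fin n) F ⧸ I) := by
    rw [top_le_iff.mp hspan, finrank_top]
  unfold Set.finrank at h1
  rw [h2] at h1
  simpa using h1


theorem Frob_fixed (p : ℕ) [Fact p.Prime] (S : Finset (AlgebraicClosure (ZMod p))) :
    ∃ r : ℕ, 0 < r ∧ ∀ c ∈ S, c ^ p ^ r = c := by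
  classical
  let K := IntermediateField.adjoin (ZMod p) (S : Set (AlgebraicClosure (ZMod p)))
  have hfd : FiniteDimensional (ZMod p) K := by
    apply IntermediateField.finiteDimensional_adjoin
    intro x _
    exact (Algebra.IsAlgebraic.isAlgebraic x).isIntegral
  have hf : Finite K := Module.finite_of_finite (ZMod p)
  have := Fintype.ofFinite K
  refine ⟨Module.finrank (ZMod p) K, Module.finrank_pos, ?_⟩
  intro c hc
  have h1 : c ∈ K := IntermediateField.subset_adjoin _ _ hc
  have h2 := FiniteField.pow_card (⟨c, h1⟩ : K)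
  rw [Module.card_eq_pow_finrank (K := ZMod p), ZMod.card] at h2
  have h3 := congrArg Subtype.val h2
  simpa using h3

theorem Frob_fixed' (p : ℕ) [Fact p.Prime] (S : Finset (AlgebraicClosure (ZMod p))) (D : ℕ) :
    ∃ s : ℕ, D < p ^ s ∧ ∀ c ∈ S, c ^ p ^ s = c := by
  obtain ⟨r, hr, h⟩ := Frob_fixed p S
  refine ⟨r * D, ?_, ?_⟩
  · have h1 : D < p ^ D := Nat.lt_pow_self (Fact.out : p.Prime).one_lt
    exact lt_of_lt_of_le h1 (Nat.pow_le_pow_right (Fact.out : p.Prime).pos (Nat.le_mul_of_pos_left _ hr))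
  · intro c hc
    have key : ∀ k : ℕ, c ^ p ^ (r * k) = c := by
      intro k
      induction k with
      | zero => simp
      | succ k ih => rw [mul_add, mul_one, pow_add, pow_mul, ih, h c hc]
    exact key D

theorem Frob_nilp {F A : Type*} [Field F] [CommRing A] [Algebra F A] [Module.Finite F A] {D : ℕ}
    (hD : Module.finrank F A ≤ D) (a : A) (ha : IsNilpotent a) : a ^ D = 0 := by
  have h1 : IsNilpotent (Algebra.lmul F A a) := ha.map _
  have h2 := (LinearMap.isNilpotent_iff_charpoly _).mp h1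
  have h3 : (Algebra.lmul F A a) ^ Module.finrank F A = 0 := by
    have := LinearMap.aeval_self_charpoly (Algebra.lmul F A a)
    rw [h2, map_pow, Polynomial.aeval_X] at this
    exact this
  have h4 : a ^ Module.finrank F A = 0 := by
    have := congrArg (fun f : Module.End F A => f 1) h3
    rw [← map_pow] at this
    simpa using this
  rw [← Nat.add_sub_of_le hD, pow_add, h4, zero_mul]

theorem frob_point (p : ℕ) [Fact p.Prime] {n : ℕ}
    (g : Fin n → MvPolynomial (Fin n) (AlgebraicClosure (ZMod p))) :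
    ∃ c : Fin n → AlgebraicClosure (ZMod p), ∀ i,
      ((aeval g : MvPolynomial (Fin n) (AlgebraicClosure (ZMod p)) →ₐ[AlgebraicClosure (ZMod p)]
          MvPolynomial (Fin n) (AlgebraicClosure (ZMod p)))^[n] (X i) = 0 →
        ∀ m : ℕ, eval c ((aeval g : MvPolynomial (Fin n) (AlgebraicClosure (ZMod p)) →ₐ[AlgebraicClosure (ZMod p)]
          MvPolynomial (Fin n) (AlgebraicClosure (ZMod p)))^[m] (X i)) = 0) ∧
      ((aeval g : MvPolynomial (Fin n) (AlgebraicClosure (ZMod p)) →ₐ[AlgebraicClosure (ZMod p)]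
          MvPolynomial (Fin n) (AlgebraicClosure (ZMod p)))^[n] (X i) ≠ 0 →
        ∀ m : ℕ, eval c ((aeval g : MvPolynomial (Fin n) (AlgebraicClosure (ZMod p)) →ₐ[AlgebraicClosure (ZMod p)]
          MvPolynomial (Fin n) (AlgebraicClosure (ZMod p)))^[m] (X i)) ≠ 0) := by
  classical
  set F := AlgebraicClosure (ZMod p) with hF
  set γ : MvPolynomial (Fin n) F →ₐ[F] MvPolynomial (Fin n) F := aeval g with hγ
  haveI : CharP F p := inferInstance
  let J : Finset (Fin n) := Finset.univ.filter (fun j => γ^[n] (X j) ≠ 0)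
  let f : MvPolynomial (Fin n) F := ∏ j ∈ J, X j
  have hiter : ∀ (m : ℕ) (h : MvPolynomial (Fin n) F), γ^[m] h = (γ ^ m) h := by
    intro m h
    rw [AlgHom.coe_pow]
  have hfne : γ^[n] f ≠ 0 := by
    rw [hiter, map_prod]
    apply Finset.prod_ne_zero_iff.mpr
    intro j hj
    rw [← hiter]
    exact (Finset.mem_filter.mp hj).2
  let S : Finset F := Finset.univ.biUnion (fun i => (g i).support.image (fun α => coeff α (g i)))
  obtain ⟨s, hs, hfix⟩ := Frob_fixed' p S ((γ^[n] f).totalDegree + ∑ i, (g i).totalDegree)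
  set Q := p ^ s with hQ
  have hgQ : ∀ i, (g i).totalDegree < Q := by
    intro i
    have := Finset.single_le_sum (f := fun i => (g i).totalDegree) (fun _ _ => Nat.zero_le _) (Finset.mem_univ i)
    omega
  set I : Ideal (MvPolynomial (Fin n) F) := Ideal.span (Set.range fun i => X i ^ Q - g i) with hI
  let φ : F →+* F := iterateFrobenius F p s
  have hφ : ∀ c, φ c = c ^ Q := fun c => rfl
  have hgfix : ∀ i, map φ (g i) = g i := by
    intro i
    ext α
    rw [coeff_map, hφ]
    by_cases h : α ∈ (g i).support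
    · apply hfix
      exact Finset.mem_biUnion.mpr ⟨i, Finset.mem_univ _, Finset.mem_image.mpr ⟨α, h, rfl⟩⟩
    · rw [notMem_support_iff.mp h, zero_pow]
      have := (Fact.out : p.Prime).pos
      positivity
  -- step 1
  have hcomm : ∀ h, map φ (γ h) = γ (map φ h) := by
    intro h
    have : (map φ).comp (γ : MvPolynomial (Fin n) F →+* MvPolynomial (Fin n) F) =
        (γ : MvPolynomial (Fin n) F →+* MvPolynomial (Fin n) F).comp (map φ) := by
      apply MvPolynomial.ringHom_ext
      · intro c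
        simp [hγ]
      · intro i
        simp [hγ, hgfix]
    exact congrArg (fun ψ : MvPolynomial (Fin n) F →+* MvPolynomial (Fin n) F => ψ h) this
  have hstep : ∀ h, map φ h = h → h ^ Q - γ h ∈ I := by
    intro h hh
    haveI : ExpChar (MvPolynomial (Fin n) F) p := inferInstance
    have : (Ideal.Quotient.mk I).comp (iterateFrobenius (MvPolynomial (Fin n) F) p s) =
        (Ideal.Quotient.mk I).comp ((γ : MvPolynomial (Fin n) F →+* MvPolynomial (Fin n) F).comp (map φ)) := by
      apply MvPolynomial.ringHom_ext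
      · intro c
        simp [hγ, hφ, iterateFrobenius_def, hQ]
      · intro i
        simp only [RingHom.comp_apply, iterateFrobenius_def, map_X]
        rw [Ideal.Quotient.eq]
        simp only [RingHom.coe_coe, hγ, aeval_X]
        exact Ideal.subset_span ⟨i, rfl⟩
    have h2 := congrArg (fun ψ : MvPolynomial (Fin n) F →+* (MvPolynomial (Fin n) F ⧸ I) => ψ h) this
    simp only [RingHom.comp_apply, iterateFrobenius_def, hh] at h2
    rw [Ideal.Quotient.eq] at h2
    exact h2
  have hstepm : ∀ m h, map φ h = h → map φ (γ^[m] h) = γ^[m] h ∧ h ^ (Q ^ m) - γ^[m] h ∈ I := by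
    intro m h hh
    induction m with
    | zero => simp [hh]
    | succ m ih =>
      obtain ⟨ih1, ih2⟩ := ih
      rw [Function.iterate_succ_apply']
      refine ⟨by rw [hcomm, ih1], ?_⟩
      have h3 := hstep _ ih1
      have h4 : (h ^ Q ^ m) ^ Q - (γ^[m] h) ^ Q ∈ I := by
        rw [← Ideal.Quotient.eq] at ih2 ⊢
        rw [map_pow, ih2, map_pow]
      have := I.add_mem h4 h3
      rw [pow_succ, pow_mul]
      simpa using this
  have hX : ∀ i, map φ (X i : MvPolynomial (Fin n) F) = X i := fun i => map_X _ _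
  have hfX : map φ f = f := by
    simp only [f, map_prod, hX]
  -- step 2
  have hex : ∃ c ∈ zeroLocus F I, eval c f ≠ 0 := by
    by_contra hcon
    push Not at hcon
    have h1 : f ∈ vanishingIdeal F (zeroLocus F I) := by
      rw [mem_vanishingIdeal_iff]
      intro c hc
      rw [aeval_eq_eval]
      exact hcon c hc
    rw [vanishingIdeal_zeroLocus_eq_radical] at h1
    obtain ⟨k, hk⟩ := h1
    obtain ⟨hfin, hrank⟩ := frob_finrank Q g hgQ
    have h2 : IsNilpotent (Ideal.Quotient.mk I f) := ⟨k, by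
      rw [← map_pow, Ideal.Quotient.eq_zero_iff_mem]; exact hk⟩
    have h3 := Frob_nilp (F := F) hrank _ h2
    rw [← map_pow, Ideal.Quotient.eq_zero_iff_mem] at h3
    have h4 := (hstepm n f hfX).2
    have h5 : γ^[n] f ∈ I := by
      have := I.sub_mem h3 h4
      simpa using this
    apply hfne
    apply frob_basis Q g hgQ _ _ h5
    intro α hα i
    have h6 := MvPolynomial.le_totalDegree hα
    rw [Finsupp.sum_fintype _ _ (fun _ => rfl)] at h6
    have h7 := Finset.single_le_sum (f := fun i => α i) (fun _ _ => Nat.zero_le _) (Finset.mem_univ i)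
    omega
  obtain ⟨c, hc, hcf⟩ := hex
  have hval : ∀ m i, eval c (γ^[m] (X i)) = c i ^ Q ^ m := by
    intro m i
    have h1 := (hstepm m (X i) (hX i)).2
    have h2 := hc _ h1
    rw [aeval_eq_eval] at h2
    have h3 : eval c (X i ^ Q ^ m - γ^[m] (X i)) = 0 := h2
    rw [map_sub, map_pow, eval_X, sub_eq_zero] at h3
    exact h3.symm
  have hQ0 : Q ≠ 0 := by
    have := (Fact.out : p.Prime).pos
    positivity
  refine ⟨c, fun i => ⟨fun h m => ?_, fun h m => ?_⟩⟩
  · have h1 := hval n i
    rw [h, map_zero] at h1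
    have h2 : c i = 0 := by
      by_contra hne
      exact (pow_ne_zero _ hne) h1.symm
    rw [hval, h2, zero_pow]
    positivity
  · rw [hval]
    apply pow_ne_zero
    have h1 : eval c f = ∏ j ∈ J, c j := by simp [f]
    rw [h1] at hcf
    exact Finset.prod_ne_zero_iff.mp hcf i (Finset.mem_filter.mpr ⟨Finset.mem_univ _, h⟩)

end ZD85
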