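import Pool.Agent.H85.ZD.Defs

/-!
# ZD GrA : an invariant prime through the orbit (row `GrA`)

`exists_prime`: `I` = ideal of the polynomials vanishing on the whole orbit of `P`.  There are `s ≥ 1` and a prime `𝔭 ⊇ I`
with `(σ^s) F ∈ 𝔭 ↔ F ∈ 𝔭`, and all `F ∈ 𝔭` vanish at the points `orb σ P (s * m)`, `m ≥ 0`.
Proof.  `σ F ∈ I` for `F ∈ I`, i.e. `I ≤ I.comap σ`; the chain `I ≤ I.comap σ ≤ I.comap σ² ≤ ...` becomes stationary
(Noetherian) and `σ` is an automorphism, so `I = I.comap σ`.  `I` is radical.  The finitely many minimal primes over `I`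
(`Ideal.finite_minimalPrimes_of_isNoetherianRing`) are permuted by `comap σ` (a bijection on the set of minimal primes, as
`comap σ I = I`); let `s ≥ 1` be such that the `s`-th power of this permutation is the identity (order of an element of a
finite group, or the factorial): `𝔭.comap (σ^s) = 𝔭` for all minimal primes.
`I = ⋂ 𝔭_i` (`Ideal.sInf_minimalPrimes`, radical) is contained in the maximal ideal `ker (eval P)`, so some `𝔭 = 𝔭_i` is
contained in it (`Ideal.IsPrime.inf_le'` / `Ideal.IsPrime.prod_le`).  For `F ∈ 𝔭`, `(σ^s)^m F ∈ 𝔭` vanishes at `P`, and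
`eval P ((σ^s)^m F) = eval (orb σ P (s * m)) F` (`eval_orb`).

`trdeg_le`: if for every `j` some non-zero polynomial in the variables `≠ j` lies in `𝔭`, then
`Algebra.trdeg K (MvPolynomial (Fin n) K ⧸ 𝔭) + 2 ≤ n`.
Proof: a transcendence basis can be chosen among the classes of the coordinates (`exists_isTranscendenceBasis_subset` with
`s = Set.range`, which generates); it corresponds to a set `S` of indices (choose one index for each element) with
algebraically independent classes.  If `|S| ≥ n - 1` then `S` contains `{i | i ≠ j}` for some `j` (if `S` is everything any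
`j` works), and the classes of `X i`, `i ≠ j` are algebraically independent, against the hypothesis.  So `|S| ≤ n - 2`.
(`n = 0` is impossible: hmm - for `n = 0` there is no `j` and the hypothesis is empty; so assume `1 ≤ n`.  For `n = 1` the
hypothesis with `j = 0` says that a non-zero constant lies in `𝔭`, impossible.)
-/

set_option autoImplicit false

namespace ZD85

open MvPolynomial

theorem GrA_comap_eq {K : Type*} [Field K] {n : ℕ} (σ : PAut K n) (P : Fin n → K)
    (I : Ideal (MvPolynomial (Fin n) K))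
    (hI : ∀ F : MvPolynomial (Fin n) K, F ∈ I ↔ ∀ m : ℕ, eval (orb σ P m) F = 0)
    (F : MvPolynomial (Fin n) K) : σ F ∈ I ↔ F ∈ I := by
  have h1 : ∀ F : MvPolynomial (Fin n) K, F ∈ I → σ F ∈ I := by
    intro F hF
    rw [hI] at hF ⊢
    intro m
    rw [← eval_orb_succ]
    exact hF (m + 1)
  have hmono : ∀ (k : ℕ), I.comap (σ ^ k) ≤ I.comap (σ ^ (k + 1)) := by
    intro k G hG
    rw [Ideal.mem_comap] at hG ⊢
    rw [pow_succ']
    exact h1 _ hG
  obtain ⟨k, hk⟩ := monotone_stabilizes_iff_noetherian.mpr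
    (inferInstance : IsNoetherian (MvPolynomial (Fin n) K) (MvPolynomial (Fin n) K))
    ⟨fun k => I.comap (σ ^ k), monotone_nat_of_le_succ hmono⟩
  have hk1 : I.comap (σ ^ k) = I.comap (σ ^ (k + 1)) := hk (k + 1) (Nat.le_succ k)
  refine ⟨fun hF => ?_, h1 F⟩
  have h2 : (σ ^ k).symm F ∈ I.comap (σ ^ (k + 1)) := by
    rw [Ideal.mem_comap, pow_succ']
    change σ ((σ ^ k) ((σ ^ k).symm F)) ∈ I
    rw [AlgEquiv.apply_symm_apply]
    exact hF
  rw [← hk1, Ideal.mem_comap] at h2
  rwa [AlgEquiv.apply_symm_apply] at h2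

theorem exists_prime {K : Type*} [Field K] {n : ℕ} (σ : PAut K n) (P : Fin n → K)
    (I : Ideal (MvPolynomial (Fin n) K))
    (hI : ∀ F : MvPolynomial (Fin n) K, F ∈ I ↔ ∀ m : ℕ, eval (orb σ P m) F = 0) :
    ∃ (s : ℕ) (𝔭 : Ideal (MvPolynomial (Fin n) K)), 1 ≤ s ∧ 𝔭.IsPrime ∧ I ≤ 𝔭 ∧
      (∀ F, (σ ^ s) F ∈ 𝔭 ↔ F ∈ 𝔭) ∧ ∀ F ∈ 𝔭, ∀ m : ℕ, eval (orb σ P (s * m)) F = 0 := by
  have hc : I.comap σ = I := by
    ext F
    rw [Ideal.mem_comap]
    exact GrA_comap_eq σ P I hI F
  let M : Ideal (MvPolynomial (Fin n) K) := RingHom.ker (eval P)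
  have hM : M.IsPrime := RingHom.ker_isPrime _
  have hIM : I ≤ M := by
    intro F hF
    rw [RingHom.mem_ker]
    have := (hI F).mp hF 0
    rwa [orb_zero] at this
  obtain ⟨𝔭, h𝔭, h𝔭M⟩ := Ideal.exists_minimalPrimes_le hIM
  have hsurj : Function.Surjective ((σ : MvPolynomial (Fin n) K ≃+* MvPolynomial (Fin n) K) :
      MvPolynomial (Fin n) K →+* MvPolynomial (Fin n) K) := σ.surjective
  have hcl : ∀ J ∈ I.minimalPrimes, J.comap σ ∈ I.minimalPrimes := by
    intro J hJ
    have h := Ideal.minimalPrimes_comap_of_surjective hsurj hJ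
    have h' : (I.comap ((σ : MvPolynomial (Fin n) K ≃+* MvPolynomial (Fin n) K) :
      MvPolynomial (Fin n) K →+* MvPolynomial (Fin n) K)) = I := hc
    rw [h'] at h
    exact h
  let T : I.minimalPrimes → I.minimalPrimes := fun J => ⟨J.1.comap σ, hcl J.1 J.2⟩
  have hT : Function.Injective T := by
    intro J J' h
    have h1 : J.1.comap σ = J'.1.comap σ := congrArg Subtype.val h
    apply Subtype.ext
    exact Ideal.comap_injective_of_surjective _ hsurj h1
  have hfin : Finite I.minimalPrimes := (Ideal.finite_minimalPrimes_of_isNoetherianRing _ I).to_subtype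
  obtain ⟨s, hs, hper⟩ := hT.mem_periodicPts ⟨𝔭, h𝔭⟩
  have hiter : ∀ (k : ℕ) (J : I.minimalPrimes) (F : MvPolynomial (Fin n) K),
      F ∈ (T^[k] J).1 ↔ (σ ^ k) F ∈ J.1 := by
    intro k
    induction k with
    | zero => intro J F; rfl
    | succ k ih =>
      intro J F
      rw [Function.iterate_succ_apply', pow_succ]
      change σ F ∈ (T^[k] J).1 ↔ _
      rw [ih]
      rfl
  have hs1 : ∀ F, (σ ^ s) F ∈ 𝔭 ↔ F ∈ 𝔭 := by
    intro F
    have h := hiter s ⟨𝔭, h𝔭⟩ F
    rw [hper] at h
    exact h.symm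
  refine ⟨s, 𝔭, hs, h𝔭.1.1, h𝔭.1.2, hs1, ?_⟩
  intro F hF m
  have hm : ∀ m : ℕ, ((σ ^ s) ^ m) F ∈ 𝔭 := by
    intro m
    induction m with
    | zero => exact hF
    | succ m ih =>
      rw [pow_succ']
      exact (hs1 _).mpr ih
  rw [eval_orb, pow_mul]
  have := h𝔭M (hm m)
  rwa [RingHom.mem_ker] at this

theorem trdeg_le {K : Type*} [Field K] {n : ℕ} (hn : 1 ≤ n) (𝔭 : Ideal (MvPolynomial (Fin n) K))
    [𝔭.IsPrime]
    (h : ∀ j : Fin n, ∃ G : MvPolynomial {i : Fin n // i ≠ j} K, G ≠ 0 ∧ rename Subtype.val G ∈ 𝔭) :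
    Algebra.trdeg K (MvPolynomial (Fin n) K ⧸ 𝔭) + 2 ≤ n := by
  classical
  let q : MvPolynomial (Fin n) K →ₐ[K] (MvPolynomial (Fin n) K ⧸ 𝔭) := Ideal.Quotient.mkₐ K 𝔭
  let x : Fin n → MvPolynomial (Fin n) K ⧸ 𝔭 := fun i => q (X i)
  have hgen : Algebra.adjoin K (Set.range x) = ⊤ := by
    have h1 : Set.range x = q '' (Set.range (X : Fin n → MvPolynomial (Fin n) K)) := by
      rw [← Set.range_comp]
      rfl
    rw [h1, ← AlgHom.map_adjoin, MvPolynomial.adjoin_range_X, Algebra.map_top]
    exact (AlgHom.range_eq_top q).mpr (Ideal.Quotient.mkₐ_surjective K 𝔭)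
  haveI halg : Algebra.IsAlgebraic (Algebra.adjoin K (Set.range x)) (MvPolynomial (Fin n) K ⧸ 𝔭) := by
    constructor
    intro y
    have hy : y ∈ Algebra.adjoin K (Set.range x) := by rw [hgen]; trivial
    exact isAlgebraic_algebraMap (⟨y, hy⟩ : Algebra.adjoin K (Set.range x))
  obtain ⟨t, hts, ht⟩ := exists_isTranscendenceBasis_subset (R := K) (Set.range x)
  have hcard := ht.cardinalMk_eq_trdeg
  rw [← hcard]
  have htfin : t.Finite := (Set.finite_range x).subset hts
  haveI : Fintype t := htfin.fintype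
  rw [Cardinal.mk_fintype]
  have hg : ∀ y : t, ∃ i, x i = y.1 := fun y => hts y.2
  choose g hg using hg
  have hginj : Function.Injective g := by
    intro y y' hyy
    apply Subtype.ext
    rw [← hg y, ← hg y', hyy]
  by_contra hcon
  have hlt : n < Fintype.card t + 2 := by
    by_contra h'
    apply hcon
    exact_mod_cast not_lt.mp h'
  -- the image of `g` misses at most one index
  obtain ⟨j, hj⟩ : ∃ j : Fin n, ∀ i, i ≠ j → ∃ y, g y = i := by
    by_contra hno
    push Not at hno
    obtain ⟨i0, -, hi0⟩ := hno ⟨0, hn⟩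
    obtain ⟨i1, hi1, hi1'⟩ := hno i0
    have h1 : (Finset.univ.image g) ⊆ (Finset.univ.erase i0).erase i1 := by
      intro i hi
      rw [Finset.mem_image] at hi
      obtain ⟨y, -, rfl⟩ := hi
      rw [Finset.mem_erase, Finset.mem_erase]
      exact ⟨hi1' y, hi0 y, Finset.mem_univ _⟩
    have h2 := Finset.card_le_card h1
    rw [Finset.card_image_of_injective _ hginj, Finset.card_erase_of_mem, Finset.card_erase_of_mem
      (Finset.mem_univ _), Finset.card_univ, Finset.card_univ, Fintype.card_fin] at h2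
    · have h3 : 2 ≤ n := by
        have := i0.2
        have := i1.2
        by_contra h4
        apply hi1
        apply Fin.ext
        omega
      omega
    · rw [Finset.mem_erase]
      exact ⟨hi1, Finset.mem_univ _⟩
  obtain ⟨G, hG0, hG⟩ := h j
  choose y hy using hj
  have hind : AlgebraicIndependent K (fun i : {i : Fin n // i ≠ j} => x i.1) := by
    have h1 : (fun i : {i : Fin n // i ≠ j} => x i.1) =
        (fun z : t => z.1) ∘ (fun i : {i : Fin n // i ≠ j} => y i.1 i.2) := by
      funext i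
      change x i.1 = (y i.1 i.2).1
      rw [← hg, hy]
    rw [h1]
    apply ht.1.comp
    intro i i' hii
    apply Subtype.ext
    have : g (y i.1 i.2) = g (y i'.1 i'.2) := congrArg g hii
    rwa [hy, hy] at this
  apply hG0
  apply (algebraicIndependent_iff.mp hind) G
  have h2 : (aeval fun i : {i : Fin n // i ≠ j} => x i.1) G = q (rename Subtype.val G) := by
    have h3 : (aeval fun i : {i : Fin n // i ≠ j} => x i.1) =
        q.comp (rename (Subtype.val : {i : Fin n // i ≠ j} → Fin n)) := by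
      apply MvPolynomial.algHom_ext
      intro i
      simp [x]
    rw [h3]
    rfl
  rw [h2]
  exact (Ideal.Quotient.eq_zero_iff_mem).mpr hG

end ZD85
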