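import Pool.Agent.H85.ZD.Defs

/-!
# ZD GrB : relations of controlled degree (row `GrB`)

`B` a domain, finitely generated over `K` by `x_1, ..., x_n`; `B_{≤D}` = values at `x` of polynomials of total degree `≤ D`.
`t_1, ..., t_r ∈ B` algebraically independent with `B` a finite module over `K[t_1, ..., t_r]` (Noether normalisation,
stated here as an injective algebra homomorphism `ι : MvPolynomial (Fin r) K → B` with `Module.Finite`).

`dim_bound`: there is `H₁` with `dim_K B_{≤D} ≤ H₁ (D + 1)^r` for all `D`.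
Proof.  Let `b_1 = 1, b_2, ..., b_M` generate `B` over `A₀ = K[T_1..T_r]`.  `x_i b_k = ∑_l ι(a_{ikl}) b_l`, `a_{ikl} ∈ A₀` of total
degree `≤ e`, `e ≥ 1`.  By induction on the degree every monomial of degree `≤ D` in `x` lies in `∑_l ι(A₀_{≤ eD}) b_l`; the
dimension is `≤ M * #{monomials of degree ≤ eD} ≤ M (eD + 1)^r ≤ M e^r (D+1)^r`.

`small_relation`: let `ρ : B → B` be an injective `K`-algebra homomorphism and `η ≥ 1` such that `ρ (x_i) ∈ B_{≤η}` for all `i`
(think of `ρ = τ^{-j}`), and `z ∈ B_{≤1}`.  Suppose `y ∈ B` satisfies `ρ y = z`.  Let `t_i ∈ B_{≤ d₀}`, `d₀ ≥ 1`, and `r ≥ 1`.  Then there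
is a non-zero `W ∈ K[T_1..T_r][Y]` with `W(t, y) = 0` whose coefficients have total degree `≤ r D`, where
`D = H₁ 2^r (r d₀ η + 1)^(r-1)` (a natural number, `H₁ ≥ 1`).
Proof.  Put `E = r D d₀ η`.  Consider the `(D+1)^r (E+1)` elements `t^α y^e`, `0 ≤ α_i ≤ D`, `0 ≤ e ≤ E`.  Their images
`ρ(t)^α z^e` lie in `B_{≤ r D d₀ η + E} = B_{≤ 2E}` (`ρ (t_i) ∈ B_{≤ d₀ η}`), of dimension `≤ H₁ (2E + 1)^r ≤ H₁ 2^r (E+1)^r`.
Now `E + 1 ≤ (r d₀ η + 1)(D + 1)`, so `H₁ 2^r (E+1)^(r-1) ≤ H₁ 2^r (r d₀ η + 1)^(r-1) (D+1)^(r-1) = D (D+1)^(r-1) < (D+1)^r`, and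
`H₁ 2^r (E+1)^r < (D+1)^r (E+1)`.  So the images are linearly dependent over `K`, and as `ρ` is injective so are the `t^α y^e`.
This is the relation `W` (non-zero since the coefficients are not all zero).

`minpoly_degree`: if `y ∈ B` and `W ∈ K[T][Y]`, `W ≠ 0`, `W(t, y) = 0`, all coefficients of `W` of total degree `≤ d`, then there is
a monic `χ ∈ K[T][Y]` with `χ(t, y) = 0`, `natDegree χ ≥ 1`, all of whose coefficients have total degree `≤ d`.
Proof: `χ = minpoly (MvPolynomial (Fin r) K) y`; the base ring is integrally closed (UFD), `B` is a domain, `y` is integral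
and `minpoly.isIntegrallyClosed_dvd` gives `W = χ * R`.  For `W ∈ K[T][Y]` let `deg_T W` be the maximum of the total degrees of the
coefficients; it is additive: `deg_T (χ R) = deg_T χ + deg_T R` (`deg_T` is the degree in an extra variable `s` of
`W(s T_1, ..., s T_r, Y)`, a polynomial in `s` over the domain `K[T][Y]`; or: take the homogeneous parts (in `T`) of top degree
of `χ` and `R`, their product is non-zero).  So `deg_T χ ≤ deg_T W ≤ d`.
-/

set_option autoImplicit false

namespace ZD85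

open MvPolynomial

/-- elements of `B` which are values at `x` of polynomials of total degree at most `D` -/
noncomputable def DegPart {K : Type*} [Field K] {B : Type*} [CommRing B] [Algebra K B] {n : ℕ} (x : Fin n → B) (D : ℕ) :
    Submodule K B :=
  (restrictTotalDegree (Fin n) K D).map (aeval x : MvPolynomial (Fin n) K →ₐ[K] B).toLinearMap

/-- auxiliary: the index map of the monomials of bounded degree -/
noncomputable def GrB_emb (m D : ℕ) :
    ({α : Fin m →₀ ℕ | (α.sum fun _ e => e) ≤ D} : Set (Fin m →₀ ℕ)) → (Fin m → Fin (D + 1)) :=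
  fun α i => ⟨α.1 i, by
    have h1 : α.1 i ≤ α.1.sum fun _ e => e := by
      rw [Finsupp.sum_fintype _ _ (fun _ => rfl)]
      exact Finset.single_le_sum (f := fun j => α.1 j) (fun _ _ => Nat.zero_le _)
        (Finset.mem_univ i)
    have h2 : (α.1.sum fun _ e => e) ≤ D := α.2
    omega⟩

theorem GrB_emb_inj (m D : ℕ) : Function.Injective (GrB_emb m D) := by
  intro α β h
  apply Subtype.ext
  ext i
  have := congrFun h i
  exact congrArg (fun z : Fin (D + 1) => (z : ℕ)) this

theorem GrB_finite (K : Type*) [Field K] (m D : ℕ) :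
    Module.Finite K (restrictTotalDegree (Fin m) K D) := by
  haveI : Finite ({α : Fin m →₀ ℕ | (α.sum fun _ e => e) ≤ D} : Set (Fin m →₀ ℕ)) :=
    Finite.of_injective _ (GrB_emb_inj m D)
  exact Module.Finite.of_basis
    (basisRestrictSupport K {α : Fin m →₀ ℕ | (α.sum fun _ e => e) ≤ D})

theorem GrB_finrank (K : Type*) [Field K] (m D : ℕ) :
    Module.finrank K (restrictTotalDegree (Fin m) K D) ≤ (D + 1) ^ m := by
  haveI : Finite ({α : Fin m →₀ ℕ | (α.sum fun _ e => e) ≤ D} : Set (Fin m →₀ ℕ)) :=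
    Finite.of_injective _ (GrB_emb_inj m D)
  have h1 : Module.finrank K (restrictTotalDegree (Fin m) K D) =
      Nat.card ({α : Fin m →₀ ℕ | (α.sum fun _ e => e) ≤ D} : Set (Fin m →₀ ℕ)) :=
    Module.finrank_eq_nat_card_basis
      (basisRestrictSupport K {α : Fin m →₀ ℕ | (α.sum fun _ e => e) ≤ D})
  rw [h1]
  have h2 := Nat.card_le_card_of_injective _ (GrB_emb_inj m D)
  rw [Nat.card_eq_fintype_card (α := Fin m → Fin (D + 1)), Fintype.card_fun, Fintype.card_fin,
    Fintype.card_fin] at h2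
  exact h2

section deg

variable {K : Type*} [Field K] {B : Type*} [CommRing B] [Algebra K B] {n : ℕ} (x : Fin n → B)

theorem GrB_mem {D : ℕ} {z : B} : z ∈ DegPart (K := K) x D ↔
    ∃ P : MvPolynomial (Fin n) K, P.totalDegree ≤ D ∧ aeval x P = z := by
  unfold DegPart
  rw [Submodule.mem_map]
  constructor
  · rintro ⟨P, hP, rfl⟩
    exact ⟨P, (mem_restrictTotalDegree _ _ _).1 hP, rfl⟩
  · rintro ⟨P, hP, rfl⟩
    exact ⟨P, (mem_restrictTotalDegree _ _ _).2 hP, rfl⟩

theorem GrB_fin (D : ℕ) : Module.Finite K (DegPart (K := K) x D) := by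
  haveI := GrB_finite K n D
  unfold DegPart
  exact Module.Finite.map _ _

theorem GrB_mono {D D' : ℕ} (h : D ≤ D') {z : B} (hz : z ∈ DegPart (K := K) x D) :
    z ∈ DegPart (K := K) x D' := by
  rw [GrB_mem] at hz ⊢
  obtain ⟨P, hP, rfl⟩ := hz
  exact ⟨P, hP.trans h, rfl⟩

theorem GrB_one (D : ℕ) : (1 : B) ∈ DegPart (K := K) x D := by
  rw [GrB_mem]
  exact ⟨1, by simp, by simp⟩

theorem GrB_mul {D D' : ℕ} {z z' : B} (hz : z ∈ DegPart (K := K) x D)
    (hz' : z' ∈ DegPart (K := K) x D') : z * z' ∈ DegPart (K := K) x (D + D') := by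
  rw [GrB_mem] at hz hz' ⊢
  obtain ⟨P, hP, rfl⟩ := hz
  obtain ⟨P', hP', rfl⟩ := hz'
  exact ⟨P * P', (totalDegree_mul _ _).trans (add_le_add hP hP'), map_mul _ _ _⟩

theorem GrB_pow {D : ℕ} {z : B} (hz : z ∈ DegPart (K := K) x D) (k : ℕ) :
    z ^ k ∈ DegPart (K := K) x (k * D) := by
  induction k with
  | zero => rw [pow_zero]; exact GrB_one x _
  | succ k ih =>
    rw [pow_succ]
    exact GrB_mono x (le_of_eq (by ring)) (GrB_mul x ih hz)

theorem GrB_prod {ι : Type*} (s : Finset ι) (f : ι → B) (c : ι → ℕ)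
    (h : ∀ i ∈ s, f i ∈ DegPart (K := K) x (c i)) :
    ∏ i ∈ s, f i ∈ DegPart (K := K) x (∑ i ∈ s, c i) := by
  classical
  induction s using Finset.induction_on with
  | empty => rw [Finset.prod_empty]; exact GrB_one x _
  | insert a s ha ih =>
    rw [Finset.prod_insert ha, Finset.sum_insert ha]
    exact GrB_mul x (h a (Finset.mem_insert_self _ _))
      (ih fun i hi => h i (Finset.mem_insert_of_mem hi))

theorem GrB_comp (ρ : B →ₐ[K] B) {η : ℕ} (hρx : ∀ i, ρ (x i) ∈ DegPart (K := K) x η) {d : ℕ}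
    {t : B} (ht : t ∈ DegPart (K := K) x d) : ρ t ∈ DegPart (K := K) x (d * η) := by
  obtain ⟨P, hP, rfl⟩ := (GrB_mem x).1 ht
  rw [comp_aeval_apply, aeval_def, eval₂_eq']
  refine Submodule.sum_mem _ fun m hm => ?_
  rw [← Algebra.smul_def]
  refine Submodule.smul_mem _ _ ?_
  refine GrB_mono x ?_ (GrB_prod x Finset.univ (fun i => ρ (x i) ^ m i) (fun i => m i * η)
    (fun i _ => GrB_pow x (hρx i) (m i)))
  rw [← Finset.sum_mul]
  refine Nat.mul_le_mul_right _ (le_trans (le_of_eq ?_) ((le_totalDegree hm).trans hP))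
  rw [Finsupp.sum_fintype _ _ (fun _ => rfl)]

end deg

theorem dim_bound {K : Type*} [Field K] {B : Type*} [CommRing B] [IsDomain B] [Algebra K B] {n r : ℕ}
    (x : Fin n → B) (hx : Algebra.adjoin K (Set.range x) = ⊤)
    (ι : MvPolynomial (Fin r) K →ₐ[K] B) (hι : Function.Injective ι) (hfin : ι.toRingHom.Finite) :
    ∃ H₁ : ℕ, 1 ≤ H₁ ∧ ∀ D : ℕ, Module.finrank K (DegPart (K := K) x D) ≤ H₁ * (D + 1) ^ r := by
  classical
  have hrep : ∃ (M : ℕ) (b : Fin M → B), ∀ z : B, ∃ c : Fin M → MvPolynomial (Fin r) K,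
      z = ∑ l, ι (c l) * b l := by
    letI : Algebra (MvPolynomial (Fin r) K) B := ι.toRingHom.toAlgebra
    haveI : Module.Finite (MvPolynomial (Fin r) K) B := hfin
    obtain ⟨M, b, hb⟩ := Module.Finite.exists_fin (R := MvPolynomial (Fin r) K) (M := B)
    refine ⟨M, b, fun z => ?_⟩
    have hz : z ∈ Submodule.span (MvPolynomial (Fin r) K) (Set.range b) := by
      rw [hb]; exact Submodule.mem_top
    obtain ⟨c, hc⟩ := (Submodule.mem_span_range_iff_exists_fun _).1 hz
    refine ⟨c, ?_⟩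
    rw [← hc]
    rfl
  obtain ⟨M, b, hrep⟩ := hrep
  choose a ha using fun (i : Fin n) (k : Fin M) => hrep (x i * b k)
  obtain ⟨c1, hc1⟩ := hrep 1
  obtain ⟨e, he0, he1, hea⟩ : ∃ e : ℕ, 1 ≤ e ∧ (∀ l, (c1 l).totalDegree ≤ e) ∧
      ∀ i k l, (a i k l).totalDegree ≤ e := by
    refine ⟨1 + (∑ l, (c1 l).totalDegree) + ∑ i, ∑ k, ∑ l, (a i k l).totalDegree, by omega,
      fun l => ?_, fun i k l => ?_⟩
    · have := Finset.single_le_sum (f := fun l => (c1 l).totalDegree) (s := Finset.univ)
        (fun _ _ => Nat.zero_le _) (Finset.mem_univ l)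
      omega
    · have h1 := Finset.single_le_sum (f := fun l => (a i k l).totalDegree) (s := Finset.univ)
        (fun _ _ => Nat.zero_le _) (Finset.mem_univ l)
      have h2 := Finset.single_le_sum (f := fun k => ∑ l, (a i k l).totalDegree)
        (s := Finset.univ) (fun _ _ => Nat.zero_le _) (Finset.mem_univ k)
      have h3 := Finset.single_le_sum (f := fun i => ∑ k, ∑ l, (a i k l).totalDegree)
        (s := Finset.univ) (fun _ _ => Nat.zero_le _) (Finset.mem_univ i)
      omega
  -- the monomials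
  have hU : ∀ (D : ℕ) (α : Fin n →₀ ℕ), (∑ i, α i) ≤ D →
      ∃ c : Fin M → MvPolynomial (Fin r) K, (∀ l, (c l).totalDegree ≤ e * (D + 1)) ∧
        aeval x (monomial α (1 : K)) = ∑ l, ι (c l) * b l := by
    intro D
    induction D with
    | zero =>
      intro α hα
      have h0 : α = 0 := by
        ext i
        have := Finset.single_le_sum (f := fun i => α i) (s := Finset.univ)
          (fun _ _ => Nat.zero_le _) (Finset.mem_univ i)
        rw [Finsupp.zero_apply]
        omega
      refine ⟨c1, fun l => by simpa using he1 l, ?_⟩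
      rw [h0, ← hc1]
      simp
    | succ D ih =>
      intro α hα
      by_cases h0 : α = 0
      · refine ⟨c1, fun l => (he1 l).trans ?_, ?_⟩
        · exact Nat.le_mul_of_pos_right _ (Nat.succ_pos _)
        · rw [h0, ← hc1]
          simp
      · obtain ⟨i, hi⟩ := Finsupp.ne_iff.1 h0
        have hi1 : Finsupp.single i 1 ≤ α := by
          rw [Finsupp.single_le_iff]
          exact Nat.one_le_iff_ne_zero.2 hi
        obtain ⟨β, hdec⟩ : ∃ β : Fin n →₀ ℕ, Finsupp.single i 1 + β = α :=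
          ⟨α - Finsupp.single i 1, add_tsub_cancel_of_le hi1⟩
        have hsum : (∑ j, β j) ≤ D := by
          have h1 : ∑ j, α j = ∑ j, (Finsupp.single i 1 : Fin n →₀ ℕ) j +
              ∑ j, β j := by
            rw [← Finset.sum_add_distrib]
            refine Finset.sum_congr rfl fun j _ => ?_
            rw [← Finsupp.add_apply, hdec]
          have h2 : ∑ j, (Finsupp.single i 1 : Fin n →₀ ℕ) j = 1 := by
            rw [Finset.sum_eq_single i]
            · simp
            · intro j _ hj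
              exact Finsupp.single_eq_of_ne hj
            · intro hc; exact absurd (Finset.mem_univ _) hc
          omega
        obtain ⟨c, hc, hce⟩ := ih _ hsum
        refine ⟨fun l => ∑ k, c k * a i k l, fun l => ?_, ?_⟩
        · refine totalDegree_finsetSum_le fun k _ => ?_
          refine (totalDegree_mul _ _).trans ?_
          refine (add_le_add (hc k) (hea i k l)).trans (le_of_eq ?_)
          ring
        · have h1 : (monomial α (1 : K) : MvPolynomial (Fin n) K) =
              X i * monomial β 1 := by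
            rw [X, monomial_mul, hdec, one_mul]
          rw [h1, map_mul, aeval_X, hce, Finset.mul_sum]
          have h2 : ∀ k, x i * (ι (c k) * b k) = ∑ l, ι (c k) * (ι (a i k l) * b l) := by
            intro k
            rw [← Finset.mul_sum, ← ha i k]
            ring
          rw [Finset.sum_congr rfl fun k _ => h2 k, Finset.sum_comm]
          refine Finset.sum_congr rfl fun l _ => ?_
          rw [map_sum, Finset.sum_mul]
          refine Finset.sum_congr rfl fun k _ => ?_
          rw [map_mul]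
          ring
  -- the bound
  refine ⟨M * (2 * e) ^ r + 1, by omega, fun D => ?_⟩
  let Ψ : (Fin M → restrictTotalDegree (Fin r) K (e * (D + 1))) →ₗ[K] B :=
    ∑ l, (LinearMap.mulRight K (b l)) ∘ₗ ι.toLinearMap ∘ₗ
      (Submodule.subtype (restrictTotalDegree (Fin r) K (e * (D + 1)))) ∘ₗ LinearMap.proj l
  have hΨ : ∀ f, Ψ f = ∑ l, ι (f l : MvPolynomial (Fin r) K) * b l := by
    intro f
    simp only [Ψ, LinearMap.sum_apply]
    rfl
  have hle : DegPart (K := K) x D ≤ LinearMap.range Ψ := by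
    intro z hz
    obtain ⟨P, hP, rfl⟩ := (GrB_mem x).1 hz
    rw [P.as_sum, map_sum]
    refine Submodule.sum_mem _ fun m hm => ?_
    have h1 : (monomial m (coeff m P) : MvPolynomial (Fin n) K) =
        coeff m P • monomial m 1 := by
      rw [smul_monomial, smul_eq_mul, mul_one]
    rw [h1, map_smul]
    refine Submodule.smul_mem _ _ ?_
    have h2 : (∑ i, m i) ≤ D := by
      refine le_trans (le_of_eq ?_) ((le_totalDegree hm).trans hP)
      rw [Finsupp.sum_fintype _ _ (fun _ => rfl)]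
    obtain ⟨c, hc, hce⟩ := hU D m h2
    refine ⟨fun l => ⟨c l, (mem_restrictTotalDegree _ _ _).2 (hc l)⟩, ?_⟩
    rw [hΨ, hce]
  haveI := GrB_finite K r (e * (D + 1))
  have h1 : Module.finrank K (DegPart (K := K) x D) ≤ Module.finrank K (LinearMap.range Ψ) :=
    Submodule.finrank_mono hle
  have h2 := LinearMap.finrank_range_le Ψ
  have h3 : Module.finrank K (Fin M → restrictTotalDegree (Fin r) K (e * (D + 1))) =
      M * Module.finrank K (restrictTotalDegree (Fin r) K (e * (D + 1))) := by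
    rw [Module.finrank_pi_fintype, Finset.sum_const, Finset.card_univ, Fintype.card_fin,
      smul_eq_mul]
  have h4 := GrB_finrank K r (e * (D + 1))
  calc Module.finrank K (DegPart (K := K) x D)
      ≤ M * Module.finrank K (restrictTotalDegree (Fin r) K (e * (D + 1))) := by
        rw [← h3]; exact h1.trans h2
    _ ≤ M * (e * (D + 1) + 1) ^ r := Nat.mul_le_mul_left _ h4
    _ ≤ M * (2 * e * (D + 1)) ^ r := by
        refine Nat.mul_le_mul_left _ (Nat.pow_le_pow_left ?_ _)
        have : 1 ≤ e * (D + 1) := Nat.mul_pos he0 (Nat.succ_pos _)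
        nlinarith
    _ = M * (2 * e) ^ r * (D + 1) ^ r := by rw [mul_pow, mul_assoc]
    _ ≤ (M * (2 * e) ^ r + 1) * (D + 1) ^ r := Nat.mul_le_mul_right _ (Nat.le_succ _)

theorem GrB_num {r H₁ d₀ η D E : ℕ} (hr : 1 ≤ r)
    (hD : D = H₁ * 2 ^ r * (r * d₀ * η + 1) ^ (r - 1)) (hE : E = r * D * d₀ * η) :
    H₁ * (2 * E + 1) ^ r < (D + 1) ^ r * (E + 1) := by
  obtain ⟨s, rfl⟩ : ∃ s, r = s + 1 := ⟨r - 1, by omega⟩
  rw [Nat.add_sub_cancel] at hD
  set q := (s + 1) * d₀ * η with hq
  have hE' : E = D * q := by rw [hE, hq]; ring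
  have h1 : E + 1 ≤ (q + 1) * (D + 1) := by rw [hE']; nlinarith
  calc H₁ * (2 * E + 1) ^ (s + 1) ≤ H₁ * (2 * (E + 1)) ^ (s + 1) :=
        Nat.mul_le_mul_left _ (Nat.pow_le_pow_left (by omega) _)
    _ = H₁ * 2 ^ (s + 1) * (E + 1) ^ s * (E + 1) := by rw [mul_pow]; ring
    _ ≤ H₁ * 2 ^ (s + 1) * ((q + 1) * (D + 1)) ^ s * (E + 1) :=
        Nat.mul_le_mul_right _ (Nat.mul_le_mul_left _ (Nat.pow_le_pow_left h1 _))
    _ = (H₁ * 2 ^ (s + 1) * (q + 1) ^ s) * (D + 1) ^ s * (E + 1) := by rw [mul_pow]; ring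
    _ = D * (D + 1) ^ s * (E + 1) := by rw [← hD]
    _ < (D + 1) * (D + 1) ^ s * (E + 1) := by
        refine Nat.mul_lt_mul_of_pos_right ?_ (Nat.succ_pos _)
        exact Nat.mul_lt_mul_of_pos_right (Nat.lt_succ_self _) (pow_pos (Nat.succ_pos _) _)
    _ = (D + 1) ^ (s + 1) * (E + 1) := by ring

theorem small_relation {K : Type*} [Field K] {B : Type*} [CommRing B] [IsDomain B] [Algebra K B] {n r : ℕ}
    (hr : 1 ≤ r) (x : Fin n → B) (t : Fin r → B) (H₁ d₀ η : ℕ) (hH : 1 ≤ H₁) (hη : 1 ≤ η) (hd : 1 ≤ d₀)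
    (hdim : ∀ D : ℕ, Module.finrank K (DegPart (K := K) x D) ≤ H₁ * (D + 1) ^ r)
    (ht : ∀ i, t i ∈ DegPart (K := K) x d₀)
    (ρ : B →ₐ[K] B) (hρ : Function.Injective ρ) (hρx : ∀ i, ρ (x i) ∈ DegPart (K := K) x η)
    (y z : B) (hy : ρ y = z) (hz : z ∈ DegPart (K := K) x 1) :
    ∃ W : Polynomial (MvPolynomial (Fin r) K), W ≠ 0 ∧
      Polynomial.eval₂ (aeval t : MvPolynomial (Fin r) K →ₐ[K] B).toRingHom y W = 0 ∧
      ∀ k, (W.coeff k).totalDegree ≤ r * (H₁ * 2 ^ r * (r * d₀ * η + 1) ^ (r - 1)) := by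
  classical
  obtain ⟨D, hD⟩ : ∃ D, D = H₁ * 2 ^ r * (r * d₀ * η + 1) ^ (r - 1) := ⟨_, rfl⟩
  obtain ⟨E, hE⟩ : ∃ E, E = r * D * d₀ * η := ⟨_, rfl⟩
  rw [← hD]
  let v : ((Fin r → Fin (D + 1)) × Fin (E + 1)) → B :=
    fun p => (∏ i, t i ^ (p.1 i : ℕ)) * y ^ (p.2 : ℕ)
  have hmem : ∀ p, ρ (v p) ∈ DegPart (K := K) x (2 * E) := by
    intro p
    simp only [v]
    rw [map_mul, map_pow, map_prod, hy]
    have h1 : ∏ i, ρ (t i ^ (p.1 i : ℕ)) ∈ DegPart (K := K) x E := by
      refine GrB_mono x ?_ (GrB_prod x Finset.univ _ (fun i => (p.1 i : ℕ) * (d₀ * η))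
        (fun i _ => ?_))
      · rw [← Finset.sum_mul]
        have h2 : ∑ i, (p.1 i : ℕ) ≤ r * D := by
          refine (Finset.sum_le_card_nsmul _ _ D fun i _ => ?_).trans (le_of_eq ?_)
          · exact Nat.lt_succ_iff.1 (p.1 i).2
          · rw [Finset.card_univ, Fintype.card_fin, smul_eq_mul]
        refine (Nat.mul_le_mul_right _ h2).trans (le_of_eq ?_)
        rw [hE]
        ring
      · rw [map_pow]
        exact GrB_pow x (GrB_comp x ρ hρx (ht i)) _
    have h3 : z ^ (p.2 : ℕ) ∈ DegPart (K := K) x E := by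
      refine GrB_mono x ?_ (GrB_pow x hz _)
      rw [mul_one]
      exact Nat.lt_succ_iff.1 p.2.2
    rw [two_mul]
    exact GrB_mul x h1 h3
  have hnot : ¬ LinearIndependent K v := by
    intro hv
    have hv' : LinearIndependent K (ρ.toLinearMap ∘ v) :=
      hv.map' ρ.toLinearMap (LinearMap.ker_eq_bot.2 hρ)
    let w : ((Fin r → Fin (D + 1)) × Fin (E + 1)) → DegPart (K := K) x (2 * E) :=
      fun p => ⟨ρ (v p), hmem p⟩
    have hw : LinearIndependent K w :=
      LinearIndependent.of_comp (Submodule.subtype (DegPart (K := K) x (2 * E))) hv'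
    haveI := GrB_fin (K := K) x (2 * E)
    have hcard := hw.fintype_card_le_finrank
    rw [Fintype.card_prod, Fintype.card_fun, Fintype.card_fin, Fintype.card_fin,
      Fintype.card_fin] at hcard
    have h1 := hcard.trans (hdim _)
    have h2 := GrB_num (η := η) (d₀ := d₀) hr hD hE
    omega
  rw [Fintype.not_linearIndependent_iff] at hnot
  obtain ⟨g, hg, p0, hp0⟩ := hnot
  let ex : (Fin r → Fin (D + 1)) → (Fin r →₀ ℕ) :=
    fun α => Finsupp.equivFunOnFinite.symm (fun i => (α i : ℕ))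
  have hex : ∀ α i, ex α i = (α i : ℕ) := fun α i => rfl
  have hexinj : Function.Injective ex := by
    intro α β h
    funext i
    apply Fin.ext
    rw [← hex, ← hex, h]
  refine ⟨∑ p : (Fin r → Fin (D + 1)) × Fin (E + 1),
    Polynomial.monomial (p.2 : ℕ) (monomial (ex p.1) (g p)), ?_, ?_, ?_⟩
  · intro h0
    have h1 := congrArg (fun W : Polynomial (MvPolynomial (Fin r) K) =>
      coeff (ex p0.1) (W.coeff (p0.2 : ℕ))) h0
    simp only [Polynomial.finsetSum_coeff, coeff_sum, Polynomial.coeff_zero, coeff_zero] at h1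
    rw [Finset.sum_eq_single p0] at h1
    · rw [Polynomial.coeff_monomial, if_pos rfl, coeff_monomial, if_pos rfl] at h1
      exact hp0 h1
    · intro p _ hp
      rw [Polynomial.coeff_monomial]
      split_ifs with h2
      · rw [coeff_monomial, if_neg]
        intro h3
        exact hp (Prod.ext (hexinj h3) (Fin.ext h2))
      · exact coeff_zero _
    · intro hc
      exact absurd (Finset.mem_univ _) hc
  · rw [Polynomial.eval₂_finsetSum, ← hg]
    refine Finset.sum_congr rfl fun p _ => ?_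
    rw [Polynomial.eval₂_monomial]
    have h1 : (aeval t : MvPolynomial (Fin r) K →ₐ[K] B).toRingHom (monomial (ex p.1) (g p)) =
        algebraMap K B (g p) * ∏ i, t i ^ (p.1 i : ℕ) := by
      change aeval t (monomial (ex p.1) (g p)) = _
      rw [aeval_monomial, Finsupp.prod_fintype _ _ (fun i => pow_zero _)]
      rfl
    rw [h1, Algebra.smul_def, mul_assoc]
  · intro k
    rw [Polynomial.finsetSum_coeff]
    refine totalDegree_finsetSum_le fun p _ => ?_
    rw [Polynomial.coeff_monomial]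
    split_ifs with h2
    · refine (totalDegree_monomial_le _ _).trans ?_
      rw [Finsupp.sum_fintype _ _ (fun _ => rfl)]
      refine (Finset.sum_le_card_nsmul _ _ D fun i _ => ?_).trans (le_of_eq ?_)
      · exact Nat.lt_succ_iff.1 (p.1 i).2
      · rw [Finset.card_univ, Fintype.card_fin, smul_eq_mul]
    · rw [totalDegree_zero]
      exact Nat.zero_le _

/-- auxiliary: the top-degree argument -/
theorem GrB_tdeg {K : Type*} [Field K] {r : ℕ}
    (χ R : Polynomial (MvPolynomial (Fin r) K)) (hne : χ * R ≠ 0) (d : ℕ)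
    (hd : ∀ k, ((χ * R).coeff k).totalDegree ≤ d) : ∀ k, (χ.coeff k).totalDegree ≤ d := by
  classical
  have hχ : χ ≠ 0 := left_ne_zero_of_mul hne
  have hR : R ≠ 0 := right_ne_zero_of_mul hne
  have htop : ∀ P : Polynomial (MvPolynomial (Fin r) K), P ≠ 0 →
      ∃ (D j : ℕ), P.coeff j ≠ 0 ∧ (P.coeff j).totalDegree = D ∧
        (∀ k, (P.coeff k).totalDegree ≤ D) ∧
        (∀ k, j < k → P.coeff k = 0 ∨ (P.coeff k).totalDegree < D) := by
    intro P hP
    have hPne : P.support.Nonempty := Polynomial.support_nonempty.2 hP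
    obtain ⟨j0, hj0, hj0D⟩ := Finset.exists_mem_eq_sup P.support hPne
      (fun k => (P.coeff k).totalDegree)
    obtain ⟨D, hD⟩ : ∃ D, D = P.support.sup (fun k => (P.coeff k).totalDegree) := ⟨_, rfl⟩
    have hall : ∀ k, (P.coeff k).totalDegree ≤ D := by
      intro k
      by_cases hk : k ∈ P.support
      · rw [hD]
        exact Finset.le_sup (f := fun k => (P.coeff k).totalDegree) hk
      · rw [Polynomial.notMem_support_iff.1 hk, totalDegree_zero]
        exact Nat.zero_le _
    have hS : (P.support.filter (fun k => (P.coeff k).totalDegree = D)).Nonempty :=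
      ⟨j0, Finset.mem_filter.2 ⟨hj0, by rw [hD, hj0D]⟩⟩
    have hmax := Finset.mem_filter.1 (Finset.max'_mem _ hS)
    refine ⟨D, _, Polynomial.mem_support_iff.1 hmax.1, hmax.2, hall, ?_⟩
    intro k hk
    by_cases hk0 : P.coeff k = 0
    · exact Or.inl hk0
    · right
      refine lt_of_le_of_ne (hall k) fun hc => ?_
      have := Finset.le_max' (P.support.filter (fun k => (P.coeff k).totalDegree = D)) k
        (Finset.mem_filter.2 ⟨Polynomial.mem_support_iff.2 hk0, hc⟩)
      omega
  intro k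
  obtain ⟨D, j, hj, hjD, hle, hgt⟩ := htop χ hχ
  obtain ⟨D', j', hj', hjD', hle', hgt'⟩ := htop R hR
  refine (hle k).trans ?_
  by_cases hD0 : D = 0
  · omega
  have h1 : (χ * R).coeff (j + j') = χ.coeff j * R.coeff j' +
      ∑ p ∈ (Finset.HasAntidiagonal.antidiagonal (j + j')).erase (j, j'),
        χ.coeff p.1 * R.coeff p.2 := by
    have hm : (j, j') ∈ Finset.HasAntidiagonal.antidiagonal (j + j') :=
      Finset.HasAntidiagonal.mem_antidiagonal.2 rfl
    rw [Polynomial.coeff_mul, ← Finset.add_sum_erase _ _ hm]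
  have h2 : (∑ p ∈ (Finset.HasAntidiagonal.antidiagonal (j + j')).erase (j, j'),
      χ.coeff p.1 * R.coeff p.2).totalDegree < D + D' := by
    refine lt_of_le_of_lt (totalDegree_finsetSum _ _) ?_
    rw [Finset.sup_lt_iff (by simpa using Nat.pos_of_ne_zero (by omega : D + D' ≠ 0))]
    rintro ⟨p, q⟩ hpq
    rw [Finset.mem_erase, Finset.HasAntidiagonal.mem_antidiagonal] at hpq
    obtain ⟨hne', hsum⟩ := hpq
    simp only at hsum ⊢
    rcases lt_trichotomy p j with hlt | heq | hlt
    · have hq : j' < q := by omega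
      have h3 := hle p
      rcases hgt' q hq with h4 | h4
      · rw [h4, mul_zero, totalDegree_zero]
        omega
      · exact lt_of_le_of_lt (totalDegree_mul _ _) (by omega)
    · exfalso
      apply hne'
      rw [heq] at hsum ⊢
      rw [show q = j' by omega]
    · have h3 := hle' q
      rcases hgt p hlt with h4 | h4
      · rw [h4, zero_mul, totalDegree_zero]
        omega
      · exact lt_of_le_of_lt (totalDegree_mul _ _) (by omega)
  have h3 : (χ.coeff j * R.coeff j').totalDegree = D + D' := by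
    rw [totalDegree_mul_of_isDomain hj hj', hjD, hjD']
  have h4 : ((χ * R).coeff (j + j')).totalDegree = D + D' := by
    rw [h1, totalDegree_add_eq_left_of_totalDegree_lt (by rw [h3]; exact h2), h3]
  have := hd (j + j')
  omega

theorem minpoly_degree {K : Type*} [Field K] {B : Type*} [CommRing B] [IsDomain B] [Algebra K B] {r : ℕ}
    (ι : MvPolynomial (Fin r) K →ₐ[K] B) (hι : Function.Injective ι) (hfin : ι.toRingHom.Finite)
    (y : B) (W : Polynomial (MvPolynomial (Fin r) K)) (hW : W ≠ 0)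
    (hWy : Polynomial.eval₂ ι.toRingHom y W = 0) (d : ℕ) (hd : ∀ k, (W.coeff k).totalDegree ≤ d) :
    ∃ χ : Polynomial (MvPolynomial (Fin r) K), χ.Monic ∧ 1 ≤ χ.natDegree ∧
      Polynomial.eval₂ ι.toRingHom y χ = 0 ∧ ∀ k, (χ.coeff k).totalDegree ≤ d := by
  letI : Algebra (MvPolynomial (Fin r) K) B := ι.toRingHom.toAlgebra
  haveI : Module.Finite (MvPolynomial (Fin r) K) B := hfin
  haveI : FaithfulSMul (MvPolynomial (Fin r) K) B :=
    (faithfulSMul_iff_algebraMap_injective _ _).2 hι
  haveI : Module.IsTorsionFree (MvPolynomial (Fin r) K) B := inferInstance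
  have hint : IsIntegral (MvPolynomial (Fin r) K) y := Algebra.IsIntegral.isIntegral y
  obtain ⟨R, hR⟩ := minpoly.isIntegrallyClosed_dvd hint (p := W)
    (by rw [Polynomial.aeval_def]; exact hWy)
  refine ⟨minpoly (MvPolynomial (Fin r) K) y, minpoly.monic hint, minpoly.natDegree_pos hint,
    ?_, ?_⟩
  · have := minpoly.aeval (MvPolynomial (Fin r) K) y
    rwa [Polynomial.aeval_def] at this
  · rw [hR] at hW hd
    exact GrB_tdeg _ R hW d hd

end ZD85
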