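import Pool.Agent.H85.ZD.GrA
import Pool.Agent.H85.ZD.GrB

/-!
# ZD GrC : growth forces the codimension of the orbit closure to be at most one (row `GrC`)

`codim_of_growth`.  Two-sided growth `exp(c θ^m) ≤ max_i v(x_m i)`, `v(x_m i) ≤ exp(C θ^m)` for the points `x_m = orb σ P m`;
the degrees of the iterates of the inverse satisfy `deg σ^{-j} ≤ D₀ η^j`, `η ≥ 1`, `η^(n-3) < θ`, `n ≥ 2`.  Then for some `j` no
non-zero polynomial in the variables `≠ j` vanishes on the orbit.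

Proof.  Suppose not.  Let `I` = ideal of the orbit (built by hand), `s, 𝔭` from `exists_prime`, `B = MvPolynomial (Fin n) K ⧸ 𝔭`,
a domain, `x_i` = class of `X i`, and `τ : B ≃ₐ B` induced by `σ^s` (`Ideal.quotientEquivAlg` or `Ideal.Quotient.liftₐ`, both for
`σ^s` and its inverse).  `ev_m : B → K` = evaluation at `orb σ P (s m)` (`Ideal.Quotient.liftₐ`);
`ev_m (τ^j b) = ev_{m+j} b`.
Noether normalisation (`exists_integral_inj_algHom_of_fg` in Mathlib): `r` and `ι : MvPolynomial (Fin r) K → B` injective and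
integral, hence finite (`B` is a finitely generated algebra: `Algebra.IsIntegral` + finite type ⇒ finite).
`r ≤ n - 2` by `trdeg_le` (`r = trdeg K B`: `r ≤ trdeg` suffices, `ι` injective gives `r` independent elements,
`AlgebraicIndependent.lift_cardinalMk_le_trdeg`).
`t_i = ι (X i)`, `t_i ∈ DegPart x d₀` for some `d₀ ≥ 1` (every element of `B` is in some `DegPart`), `H₁` from `dim_bound`.
Let `X_m = max 1 (max_i v(x_{sm} i))`, `log X_m ≤ C⁺ θ^(sm)`, `C⁺ = max C 1`; `v(t_i(m)) ≤ κ' X_m^d₀` with `t_i(m) = ev_m t_i`.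

Case `r = 0`: every `x_l` satisfies a monic equation over `K`, so `v(ev_m x_l)` is bounded independently of `m`, against the lower
bound.

Case `r ≥ 1`.  Let `j ≥ 0`, `η_j = max 1 ⌊D₀ η^(sj)⌋` (natural number), so `((σ⁻¹)^(sj)) (X i)` has total degree `≤ η_j`.  For each `l`
apply `small_relation` to `ρ = τ^{-j}`, `y = τ^j x_l`, `z = x_l`, and `minpoly_degree`: a monic `χ ∈ K[T][Y]`, `χ(t, y) = 0`, with
coefficients of total degree `≤ d_j = r H₁ 2^r (r d₀ η_j + 1)^(r-1) ≤ C₂ η^(s j (r-1))`, `C₂` independent of `j` (and of `l`).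
Apply `ev_m`: `Y = ev_m y = x_{s(m+j)} l` satisfies a monic equation with coefficients `a_e(t(m))`, so
`v(Y) ≤ max 1 (max_e v(a_e(t(m)))) ≤ κ_j (κ' X_m^d₀)^{d_j}` with `κ_j ≥ 1` independent of `m` (take the maximum over `l`), `κ' ≥ 1`.
With the lower bound at time `s(m+j)`: `c θ^(s(m+j)) ≤ log κ_j + d_j log κ' + d_j d₀ C⁺ θ^(sm)` for all `m`.  Divide by `θ^(sm)` and let
`m → ∞`: `c θ^(sj) ≤ d_j d₀ C⁺ ≤ C₃ η^(s j (r-1)) ≤ C₃ (η^(n-3))^(sj)` for all `j` (as `r - 1 ≤ n - 3`, `η ≥ 1`).  Since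
`θ > η^(n-3)` this fails for large `j`.
-/

set_option autoImplicit false

namespace ZD85

open MvPolynomial

theorem GrC_root {K : Type*} [Field K] (v : Valuation K NNReal) (Q : Polynomial K) (hQ : Q.Monic)
    (Y : K) (h : Q.eval Y = 0) (M : ℝ) (hM : 1 ≤ M) (hc : ∀ e, (v (Q.coeff e) : ℝ) ≤ M) :
    (v Y : ℝ) ≤ M := by
  by_contra hlt
  push Not at hlt
  have hY1 : 1 < (v Y : ℝ) := lt_of_le_of_lt hM hlt
  have h1 : Y ^ Q.natDegree = - ∑ e ∈ Finset.range Q.natDegree, Q.coeff e * Y ^ e := by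
    have h2 := Polynomial.eval_eq_sum_range (p := Q) Y
    rw [h, Finset.sum_range_succ, hQ.coeff_natDegree, one_mul] at h2
    linear_combination -h2
  have h2 : v (∑ e ∈ Finset.range Q.natDegree, Q.coeff e * Y ^ e) < v (Y ^ Q.natDegree) := by
    apply v.map_sum_lt
    · rw [map_pow]
      apply pow_ne_zero
      intro h0
      rw [h0, NNReal.coe_zero] at hY1
      linarith
    · intro e he
      rw [Finset.mem_range] at he
      rw [map_mul, map_pow, map_pow, ← NNReal.coe_lt_coe, NNReal.coe_mul, NNReal.coe_pow,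
        NNReal.coe_pow]
      have hp : 0 < (v Y : ℝ) ^ e := pow_pos (by linarith) e
      calc (v (Q.coeff e) : ℝ) * (v Y : ℝ) ^ e ≤ M * (v Y : ℝ) ^ e :=
            mul_le_mul_of_nonneg_right (hc e) hp.le
        _ < (v Y : ℝ) * (v Y : ℝ) ^ e := mul_lt_mul_of_pos_right hlt hp
        _ = (v Y : ℝ) ^ (e + 1) := by rw [pow_succ, mul_comm]
        _ ≤ (v Y : ℝ) ^ Q.natDegree := pow_le_pow_right₀ hY1.le he
  rw [h1, v.map_neg] at h2
  exact lt_irrefl _ h2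

theorem GrC_poly {K : Type*} [Field K] (v : Valuation K NNReal) {ι : Type*} (F : MvPolynomial ι K)
    (d : ℕ) (hd : F.totalDegree ≤ d) :
    ∃ κ : ℝ, 1 ≤ κ ∧ ∀ (t : ι → K) (T : ℝ), 1 ≤ T → (∀ i, (v (t i) : ℝ) ≤ T) →
      (v (eval t F) : ℝ) ≤ κ * T ^ d := by
  classical
  have hs : 0 ≤ ∑ s ∈ F.support, (v (coeff s F) : ℝ) := Finset.sum_nonneg fun s _ => NNReal.coe_nonneg _
  refine ⟨1 + ∑ s ∈ F.support, (v (coeff s F) : ℝ), by linarith, fun t T hT ht => ?_⟩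
  have hTd : 1 ≤ T ^ d := one_le_pow₀ hT
  have hnn : 0 ≤ (1 + ∑ s ∈ F.support, (v (coeff s F) : ℝ)) * T ^ d :=
    mul_nonneg (by linarith) (by linarith)
  rw [← Real.le_toNNReal_iff_coe_le hnn, eval_eq]
  apply v.map_sum_le
  intro s hs'
  rw [Real.le_toNNReal_iff_coe_le hnn, map_mul, map_prod, NNReal.coe_mul, NNReal.coe_prod]
  have h1 : (v (coeff s F) : ℝ) ≤ 1 + ∑ s ∈ F.support, (v (coeff s F) : ℝ) := by
    have := Finset.single_le_sum (f := fun s => (v (coeff s F) : ℝ)) (fun s _ => NNReal.coe_nonneg _) hs'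
    linarith
  have h2 : ∏ i ∈ s.support, ((v (t i ^ s i) : NNReal) : ℝ) ≤ T ^ d := by
    calc ∏ i ∈ s.support, ((v (t i ^ s i) : NNReal) : ℝ) ≤ ∏ i ∈ s.support, T ^ s i := by
          apply Finset.prod_le_prod
          · intro i _
            exact NNReal.coe_nonneg _
          · intro i _
            rw [map_pow, NNReal.coe_pow]
            exact pow_le_pow_left₀ (NNReal.coe_nonneg _) (ht i) _
      _ = T ^ (∑ i ∈ s.support, s i) := by rw [Finset.prod_pow_eq_pow_sum]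
      _ ≤ T ^ d := pow_le_pow_right₀ hT ((le_totalDegree hs').trans hd)
  exact mul_le_mul h1 h2 (Finset.prod_nonneg fun i _ => NNReal.coe_nonneg _) (by linarith)

theorem GrC_lim (q : ℝ) (hq : 1 < q) (a b A : ℝ) (h : ∀ m : ℕ, a * q ^ m ≤ A + b * q ^ m) :
    a ≤ b := by
  by_contra hab
  push Not at hab
  obtain ⟨m, hm⟩ := pow_unbounded_of_one_lt (A / (a - b)) hq
  rw [div_lt_iff₀ (by linarith)] at hm
  have := h m
  nlinarith

theorem GrC_lim2 (c C u w : ℝ) (hc : 0 < c) (hw : 0 < w) (huw : w < u)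
    (h : ∀ j : ℕ, c * u ^ j ≤ C * w ^ j) : False := by
  have hq : 1 < u / w := (one_lt_div hw).2 huw
  obtain ⟨m, hm⟩ := pow_unbounded_of_one_lt (C / c) hq
  rw [div_lt_iff₀ hc, div_pow] at hm
  have h1 := h m
  have hp : 0 < w ^ m := pow_pos hw m
  have h2 : u ^ m / w ^ m * c * w ^ m = c * u ^ m := by
    field_simp
  have h3 := mul_lt_mul_of_pos_right hm hp
  rw [h2] at h3
  linarith


theorem GrC_deg {K : Type*} [Field K] {B : Type*} [CommRing B] [Algebra K B] {n : ℕ} (x : Fin n → B)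
    (F : MvPolynomial (Fin n) K) (D : ℕ) (h : F.totalDegree ≤ D) :
    aeval x F ∈ DegPart (K := K) x D :=
  ⟨F, (mem_restrictTotalDegree _ _ _).2 h, rfl⟩

theorem GrC_mk {K : Type*} [Field K] {n : ℕ} (𝔭 : Ideal (MvPolynomial (Fin n) K))
    (F : MvPolynomial (Fin n) K) :
    aeval (fun i => Ideal.Quotient.mk 𝔭 (X i)) F = Ideal.Quotient.mk 𝔭 F := by
  have h : (aeval (fun i => Ideal.Quotient.mk 𝔭 (X i)) :
      MvPolynomial (Fin n) K →ₐ[K] (MvPolynomial (Fin n) K ⧸ 𝔭)) = Ideal.Quotient.mkₐ K 𝔭 := by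
    apply MvPolynomial.algHom_ext
    intro i
    rw [aeval_X]
    rfl
  exact congrArg (fun g : MvPolynomial (Fin n) K →ₐ[K] (MvPolynomial (Fin n) K ⧸ 𝔭) => g F) h

theorem GrC_inv {K : Type*} [Field K] {n : ℕ} (σ : PAut K n)
    (𝔭 : Ideal (MvPolynomial (Fin n) K)) (s : ℕ) (hs : ∀ F, (σ ^ s) F ∈ 𝔭 ↔ F ∈ 𝔭) (j : ℕ)
    (F : MvPolynomial (Fin n) K) : ((σ⁻¹) ^ (s * j)) F ∈ 𝔭 ↔ F ∈ 𝔭 := by
  have h1 : ∀ (j : ℕ) (F : MvPolynomial (Fin n) K), (σ ^ (s * j)) F ∈ 𝔭 ↔ F ∈ 𝔭 := by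
    intro j
    induction j with
    | zero =>
      intro F
      rw [mul_zero, pow_zero]
      rfl
    | succ j ih =>
      intro F
      rw [mul_add, mul_one, pow_add]
      exact (ih ((σ ^ s) F)).trans (hs F)
  have h2 := h1 j (((σ⁻¹) ^ (s * j)) F)
  have h3 : (σ ^ (s * j)) (((σ⁻¹) ^ (s * j)) F) = F := by
    have h4 : (σ ^ (s * j)) * ((σ⁻¹) ^ (s * j)) = 1 := by
      rw [inv_pow, mul_inv_cancel]
    exact congrArg (fun g : PAut K n => g F) h4
  rw [h3] at h2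
  exact h2.symm

theorem GrC_key {K : Type*} [Field K] {n r : ℕ} (hr : 1 ≤ r) (σ : PAut K n)
    (𝔭 : Ideal (MvPolynomial (Fin n) K)) [𝔭.IsPrime] (s : ℕ)
    (hs : ∀ F, (σ ^ s) F ∈ 𝔭 ↔ F ∈ 𝔭)
    (ι : MvPolynomial (Fin r) K →ₐ[K] (MvPolynomial (Fin n) K ⧸ 𝔭)) (hι : Function.Injective ι)
    (hfin : ι.toRingHom.Finite) (d₀ : ℕ) (hd₀ : 1 ≤ d₀) (F : Fin r → MvPolynomial (Fin n) K)
    (hF : ∀ i, ι (X i) = Ideal.Quotient.mk 𝔭 (F i)) (hFd : ∀ i, (F i).totalDegree ≤ d₀) :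
    ∃ H₁ : ℕ, 1 ≤ H₁ ∧ ∀ (j η : ℕ), 1 ≤ η →
      (∀ i : Fin n, (((σ⁻¹) ^ (s * j)) (X i)).totalDegree ≤ η) → ∀ l : Fin n,
      ∃ χ : Polynomial (MvPolynomial (Fin r) K), χ.Monic ∧
        Polynomial.eval₂ ι.toRingHom (Ideal.Quotient.mk 𝔭 ((σ ^ (s * j)) (X l))) χ = 0 ∧
        ∀ k, (χ.coeff k).totalDegree ≤ r * (H₁ * 2 ^ r * (r * d₀ * η + 1) ^ (r - 1)) := by
  have hx : Algebra.adjoin K (Set.range fun i : Fin n => Ideal.Quotient.mk 𝔭 (X i)) = ⊤ := by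
    rw [Algebra.adjoin_range_eq_range_aeval, AlgHom.range_eq_top]
    intro b
    obtain ⟨G, rfl⟩ := Ideal.Quotient.mk_surjective b
    exact ⟨G, GrC_mk 𝔭 G⟩
  obtain ⟨H₁, hH, hdim⟩ := dim_bound (fun i : Fin n => Ideal.Quotient.mk 𝔭 (X i)) hx ι hι hfin
  refine ⟨H₁, hH, fun j η hη hdeg l => ?_⟩
  have ht : ∀ i, ι (X i) ∈ DegPart (K := K) (fun i : Fin n => Ideal.Quotient.mk 𝔭 (X i)) d₀ := by
    intro i
    rw [hF i, ← GrC_mk]
    exact GrC_deg _ _ _ (hFd i)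
  let ρ : (MvPolynomial (Fin n) K ⧸ 𝔭) →ₐ[K] (MvPolynomial (Fin n) K ⧸ 𝔭) :=
    Ideal.Quotient.liftₐ 𝔭 ((Ideal.Quotient.mkₐ K 𝔭).comp ((σ⁻¹) ^ (s * j) : PAut K n).toAlgHom)
      (fun G hG => Ideal.Quotient.eq_zero_iff_mem.2 ((GrC_inv σ 𝔭 s hs j G).2 hG))
  have hρ : ∀ G : MvPolynomial (Fin n) K, ρ (Ideal.Quotient.mk 𝔭 G) =
      Ideal.Quotient.mk 𝔭 (((σ⁻¹) ^ (s * j)) G) := fun G => rfl
  have hρi : Function.Injective ρ := by
    rw [injective_iff_map_eq_zero]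
    intro b hb
    obtain ⟨G, rfl⟩ := Ideal.Quotient.mk_surjective b
    rw [hρ, Ideal.Quotient.eq_zero_iff_mem, GrC_inv σ 𝔭 s hs j G] at hb
    exact Ideal.Quotient.eq_zero_iff_mem.2 hb
  have hρx : ∀ i, ρ (Ideal.Quotient.mk 𝔭 (X i)) ∈
      DegPart (K := K) (fun i : Fin n => Ideal.Quotient.mk 𝔭 (X i)) η := by
    intro i
    rw [hρ, ← GrC_mk]
    exact GrC_deg _ _ _ (hdeg i)
  have hy : ρ (Ideal.Quotient.mk 𝔭 ((σ ^ (s * j)) (X l))) = Ideal.Quotient.mk 𝔭 (X l) := by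
    rw [hρ]
    have h4 : ((σ⁻¹) ^ (s * j)) * (σ ^ (s * j)) = 1 := by
      rw [inv_pow, inv_mul_cancel]
    have h5 : ((σ⁻¹) ^ (s * j)) ((σ ^ (s * j)) (X l)) = X l :=
      congrArg (fun g : PAut K n => g (X l)) h4
    rw [h5]
  have hz : Ideal.Quotient.mk 𝔭 (X l) ∈
      DegPart (K := K) (fun i : Fin n => Ideal.Quotient.mk 𝔭 (X i)) 1 := by
    rw [← GrC_mk]
    exact GrC_deg _ _ _ (totalDegree_X _).le
  obtain ⟨W, hW, hWy, hWd⟩ := small_relation hr _ (fun i => ι (X i)) H₁ d₀ η hH hη hd₀ hdim ht ρ hρi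
    hρx _ _ hy hz
  have hιt : (aeval (fun i => ι (X i)) : MvPolynomial (Fin r) K →ₐ[K] _) = ι := by
    apply MvPolynomial.algHom_ext
    intro i
    rw [aeval_X]
  rw [hιt] at hWy
  obtain ⟨χ, h1, _, h3, h4⟩ := minpoly_degree ι hι hfin _ W hW hWy _ hWd
  exact ⟨χ, h1, h3, h4⟩

theorem GrC_ev {K : Type*} [Field K] {n r : ℕ} (v : Valuation K NNReal)
    (𝔭 : Ideal (MvPolynomial (Fin n) K))
    (ι : MvPolynomial (Fin r) K →ₐ[K] (MvPolynomial (Fin n) K ⧸ 𝔭))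
    (F : Fin r → MvPolynomial (Fin n) K) (hF : ∀ i, ι (X i) = Ideal.Quotient.mk 𝔭 (F i))
    (G : MvPolynomial (Fin n) K) (χ : Polynomial (MvPolynomial (Fin r) K)) (hχ : χ.Monic)
    (h0 : Polynomial.eval₂ ι.toRingHom (Ideal.Quotient.mk 𝔭 G) χ = 0) (d : ℕ)
    (hd : ∀ k, (χ.coeff k).totalDegree ≤ d) :
    ∃ κ : ℝ, 1 ≤ κ ∧ ∀ Q : Fin n → K, (∀ H ∈ 𝔭, eval Q H = 0) → ∀ T : ℝ, 1 ≤ T →
      (∀ i, (v (eval Q (F i)) : ℝ) ≤ T) → (v (eval Q G) : ℝ) ≤ κ * T ^ d := by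
  choose κ hκ1 hκ using fun k => GrC_poly v (χ.coeff k) d (hd k)
  have hsum : ∀ k, k ≤ χ.natDegree → κ k ≤ ∑ e ∈ Finset.range (χ.natDegree + 1), κ e := by
    intro k hk
    exact Finset.single_le_sum (f := κ) (fun e _ => by linarith [hκ1 e])
      (Finset.mem_range.2 (by omega))
  have hK1 : 1 ≤ ∑ e ∈ Finset.range (χ.natDegree + 1), κ e :=
    (hκ1 0).trans (hsum 0 (Nat.zero_le _))
  refine ⟨∑ e ∈ Finset.range (χ.natDegree + 1), κ e, hK1, fun Q hQ T hT hTi => ?_⟩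
  have hTd : 1 ≤ T ^ d := one_le_pow₀ hT
  let ev : (MvPolynomial (Fin n) K ⧸ 𝔭) →+* K := Ideal.Quotient.lift 𝔭 (eval Q) hQ
  have hev : ∀ H, ev (Ideal.Quotient.mk 𝔭 H) = eval Q H := fun H => rfl
  have hcomp : ev.comp ι.toRingHom = eval fun i => eval Q (F i) := by
    apply MvPolynomial.ringHom_ext
    · intro a
      have h1 : ι (C a) = Ideal.Quotient.mk 𝔭 (C a) := by
        have h2 := ι.commutes a
        rw [MvPolynomial.algebraMap_eq] at h2
        rw [h2]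
        rfl
      show ev (ι (C a)) = _
      rw [h1, hev, eval_C, eval_C]
    · intro i
      show ev (ι (X i)) = _
      rw [hF i, hev, eval_X]
  have hroot : (χ.map (ev.comp ι.toRingHom)).eval (eval Q G) = 0 := by
    rw [Polynomial.eval_map, ← hev G, ← Polynomial.hom_eval₂, h0, map_zero]
  refine GrC_root v _ (hχ.map _) _ hroot _ (one_le_mul_of_one_le_of_one_le hK1 hTd) fun e => ?_
  rw [Polynomial.coeff_map, hcomp]
  by_cases he : e ≤ χ.natDegree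
  · refine (hκ e _ T hT hTi).trans ?_
    exact mul_le_mul_of_nonneg_right (hsum e he) (by linarith)
  · rw [Polynomial.coeff_eq_zero_of_natDegree_lt (by omega), map_zero, map_zero, NNReal.coe_zero]
    exact mul_nonneg (by linarith) (by linarith)

theorem GrC_fin {K : Type*} [Field K] {n r : ℕ} (𝔭 : Ideal (MvPolynomial (Fin n) K))
    (ι : MvPolynomial (Fin r) K →ₐ[K] (MvPolynomial (Fin n) K ⧸ 𝔭)) :
    ∃ (d₀ : ℕ) (F : Fin r → MvPolynomial (Fin n) K), 1 ≤ d₀ ∧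
      (∀ i, ι (X i) = Ideal.Quotient.mk 𝔭 (F i)) ∧ ∀ i, (F i).totalDegree ≤ d₀ := by
  have h : ∀ i, ∃ F : MvPolynomial (Fin n) K, Ideal.Quotient.mk 𝔭 F = ι (X i) := fun i =>
    Ideal.Quotient.mk_surjective _
  choose F hF using h
  refine ⟨1 + ∑ i, (F i).totalDegree, F, by omega, fun i => (hF i).symm, fun i => ?_⟩
  have := Finset.single_le_sum (f := fun i => (F i).totalDegree) (fun i _ => Nat.zero_le _)
    (Finset.mem_univ i)
  omega

theorem GrC_card {K : Type*} [Field K] {n r : ℕ} (𝔭 : Ideal (MvPolynomial (Fin n) K))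
    [𝔭.IsPrime] (h : Algebra.trdeg K (MvPolynomial (Fin n) K ⧸ 𝔭) + 2 ≤ n)
    (ι : MvPolynomial (Fin r) K →ₐ[K] (MvPolynomial (Fin n) K ⧸ 𝔭)) (hι : Function.Injective ι) :
    r + 2 ≤ n := by
  have hιt : (aeval (fun i => ι (X i)) : MvPolynomial (Fin r) K →ₐ[K] _) = ι := by
    apply MvPolynomial.algHom_ext
    intro i
    rw [aeval_X]
  have h1 : AlgebraicIndependent K fun i : Fin r => ι (X i) := by
    rw [algebraicIndependent_iff_injective_aeval, hιt]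
    exact hι
  have h2 := h1.lift_cardinalMk_le_trdeg
  rw [Cardinal.mk_fin, Cardinal.lift_natCast, Cardinal.lift_id'] at h2
  have h3 : (r : Cardinal) + 2 ≤ n := (add_le_add_left h2 2).trans h
  exact_mod_cast h3

theorem codim_of_growth {K : Type*} [Field K] {n : ℕ} (hn : 2 ≤ n) (σ : PAut K n) (P : Fin n → K)
    (v : Valuation K NNReal) (c C θ η D₀ : ℝ) (hc : 0 < c) (hθ : 1 < θ) (hη : 1 ≤ η)
    (hηθ : η ^ (n - 3) < θ)
    (hdeg : ∀ (j : ℕ) (i : Fin n), (((((σ⁻¹) ^ j) (X i)).totalDegree : ℕ) : ℝ) ≤ D₀ * η ^ j)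
    (hlow : ∀ m : ℕ, ∃ i : Fin n, Real.exp (c * θ ^ m) ≤ (v (orb σ P m i) : ℝ))
    (hup : ∀ (m : ℕ) (i : Fin n), (v (orb σ P m i) : ℝ) ≤ Real.exp (C * θ ^ m)) :
    ∃ j : Fin n, ∀ G : MvPolynomial {i : Fin n // i ≠ j} K, G ≠ 0 →
      ∃ m : ℕ, eval (orb σ P m) (rename Subtype.val G) ≠ 0 := by
  by_contra hcon
  push Not at hcon
  obtain ⟨I, hI⟩ : ∃ I : Ideal (MvPolynomial (Fin n) K), ∀ F : MvPolynomial (Fin n) K,
      F ∈ I ↔ ∀ m : ℕ, eval (orb σ P m) F = 0 := by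
    refine ⟨⨅ m, RingHom.ker (eval (orb σ P m)), fun F => ?_⟩
    rw [Ideal.mem_iInf]
    rfl
  obtain ⟨s, 𝔭, hs1, hprime, hI𝔭, hs, hvan⟩ := exists_prime σ P I hI
  have htr := trdeg_le (by omega) 𝔭 fun j => by
    obtain ⟨G, hG, hG2⟩ := hcon j
    exact ⟨G, hG, hI𝔭 ((hI _).2 hG2)⟩
  obtain ⟨r, ι, hι, hfin⟩ := exists_finite_inj_algHom_of_fg K (MvPolynomial (Fin n) K ⧸ 𝔭)
  have hrn := GrC_card 𝔭 htr ι hι
  obtain ⟨d₀, F, hd₀, hF, hFd⟩ := GrC_fin 𝔭 ι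
  have hθs : 1 < θ ^ s := one_lt_pow₀ hθ (by omega)
  -- the evaluation of sigma^(s j) (X l) at time s m
  have hev : ∀ (m j : ℕ) (l : Fin n), eval (orb σ P (s * m)) ((σ ^ (s * j)) (X l)) =
      orb σ P (s * m + s * j) l := by
    intro m j l
    rw [← orb_add, eval_X]
  rcases Nat.eq_zero_or_pos r with hr | hr
  · subst hr
    have hint : ∀ l : Fin n, ∃ κ : ℝ, ∀ m : ℕ, (v (orb σ P (s * m) l) : ℝ) ≤ κ := by
      intro l
      have hi : ι.toRingHom.IsIntegral := hfin.to_isIntegral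
      obtain ⟨χ, hχ, h0⟩ := hi (Ideal.Quotient.mk 𝔭 (X l))
      obtain ⟨κ, _, hκ⟩ := GrC_ev v 𝔭 ι F hF (X l) χ hχ h0
        (∑ e ∈ Finset.range (χ.natDegree + 1), (χ.coeff e).totalDegree) (fun k => by
          by_cases hk : k ≤ χ.natDegree
          · exact Finset.single_le_sum (f := fun e => (χ.coeff e).totalDegree)
              (fun e _ => Nat.zero_le _) (Finset.mem_range.2 (by omega))
          · rw [Polynomial.coeff_eq_zero_of_natDegree_lt (by omega), totalDegree_zero]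
            exact Nat.zero_le _)
      refine ⟨κ, fun m => ?_⟩
      have h1 := hκ (orb σ P (s * m)) (fun H hH => hvan H hH m) 1 le_rfl (fun i => i.elim0)
      rw [one_pow, mul_one, eval_X] at h1
      exact h1
    choose κ hκ using hint
    have hb : ∀ m : ℕ, c * (θ ^ s) ^ m ≤ (∑ l, |κ l|) + 0 * (θ ^ s) ^ m := by
      intro m
      obtain ⟨l, hl⟩ := hlow (s * m)
      have h1 := (hl.trans (hκ l m)).trans (le_abs_self _)
      have h2 : |κ l| ≤ ∑ l, |κ l| :=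
        Finset.single_le_sum (f := fun l => |κ l|) (fun l _ => abs_nonneg _) (Finset.mem_univ l)
      have h3 := Real.add_one_le_exp (c * θ ^ (s * m))
      rw [← pow_mul]
      linarith
    have := GrC_lim _ hθs _ _ _ hb
    linarith
  · obtain ⟨H₁, hH1, hkey⟩ := GrC_key hr σ 𝔭 s hs ι hι hfin d₀ hd₀ F hF hFd
    -- the bound for the generators
    choose κ' hκ1' hκ' using fun i => GrC_poly v (F i) d₀ (hFd i)
    obtain ⟨C', hC'⟩ : ∃ C' : ℝ, C' = max C 1 := ⟨_, rfl⟩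
    have hC1 : 1 ≤ C' := by rw [hC']; exact le_max_right _ _
    have hCC : C ≤ C' := by rw [hC']; exact le_max_left _ _
    obtain ⟨D₁, hD₁⟩ : ∃ D₁ : ℝ, D₁ = max D₀ 1 := ⟨_, rfl⟩
    have hD1 : 1 ≤ D₁ := by rw [hD₁]; exact le_max_right _ _
    have hDD : D₀ ≤ D₁ := by rw [hD₁]; exact le_max_left _ _
    obtain ⟨κs, hκs⟩ : ∃ κs : ℝ, κs = ∑ i, κ' i := ⟨_, rfl⟩
    have hκle : ∀ i, κ' i ≤ κs := fun i => by
      rw [hκs]
      exact Finset.single_le_sum (f := κ') (fun e _ => by linarith [hκ1' e]) (Finset.mem_univ i)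
    have hκs1 : 1 ≤ κs := (hκ1' ⟨0, hr⟩).trans (hκle _)
    -- the size of the generators at time s m
    have hgen : ∀ (m : ℕ) (i : Fin r), (v (eval (orb σ P (s * m)) (F i)) : ℝ) ≤
        κs * Real.exp (C' * θ ^ (s * m)) ^ d₀ := by
      intro m i
      have hθm : 0 < θ ^ (s * m) := pow_pos (by linarith) _
      have hX1 : 1 ≤ Real.exp (C' * θ ^ (s * m)) := Real.one_le_exp (by positivity)
      refine (hκ' i _ _ hX1 fun l => (hup _ l).trans
        (Real.exp_le_exp.2 (mul_le_mul_of_nonneg_right hCC hθm.le))).trans ?_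
      exact mul_le_mul_of_nonneg_right (hκle i) (by positivity)
    have hmain : ∀ (j N : ℕ), 1 ≤ N →
        (∀ i : Fin n, (((σ⁻¹) ^ (s * j)) (X i)).totalDegree ≤ N) →
        c * θ ^ (s * j) ≤ ((r * (H₁ * 2 ^ r * (r * d₀ * N + 1) ^ (r - 1)) : ℕ) : ℝ) * (d₀ * C') := by
      intro j N hN hNd
      obtain ⟨d, hd⟩ : ∃ d : ℕ, d = r * (H₁ * 2 ^ r * (r * d₀ * N + 1) ^ (r - 1)) := ⟨_, rfl⟩
      rw [← hd]
      have hl : ∀ l : Fin n, ∃ κ : ℝ, 1 ≤ κ ∧ ∀ m : ℕ, (v (orb σ P (s * m + s * j) l) : ℝ) ≤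
          κ * (κs * Real.exp (C' * θ ^ (s * m)) ^ d₀) ^ d := by
        intro l
        obtain ⟨χ, hχ, h0, hχd⟩ := hkey j N hN hNd l
        rw [← hd] at hχd
        obtain ⟨κ, hκ1, hκ⟩ := GrC_ev v 𝔭 ι F hF _ χ hχ h0 d hχd
        refine ⟨κ, hκ1, fun m => ?_⟩
        have hX1 : 1 ≤ Real.exp (C' * θ ^ (s * m)) := Real.one_le_exp (by positivity)
        have h1 := hκ (orb σ P (s * m)) (fun H hH => hvan H hH m) _
          (one_le_mul_of_one_le_of_one_le hκs1 (one_le_pow₀ hX1)) (hgen m)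
        rw [hev] at h1
        exact h1
      choose κ hκ1 hκ using hl
      refine GrC_lim (θ ^ s) hθs _ _ (∑ l, Real.log (κ l) + d * Real.log κs) fun m => ?_
      obtain ⟨l, hl⟩ := hlow (s * m + s * j)
      have h1 := hl.trans (hκ l m)
      have hk0 : 0 < κ l := by linarith [hκ1 l]
      have hks0 : 0 < κs := by linarith
      have h2 := Real.log_le_log (Real.exp_pos _) h1
      rw [Real.log_exp, Real.log_mul hk0.ne' (by positivity), Real.log_pow,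
        Real.log_mul hks0.ne' (by positivity), Real.log_pow, Real.log_exp] at h2
      have h3 : Real.log (κ l) ≤ ∑ l, Real.log (κ l) :=
        Finset.single_le_sum (f := fun l => Real.log (κ l)) (fun l _ => Real.log_nonneg (hκ1 l))
          (Finset.mem_univ l)
      rw [← pow_mul]
      rw [pow_add] at h2
      nlinarith [h2, h3]
    -- the contradiction
    have hw : η ^ (n - 3) ≥ 1 := one_le_pow₀ hη
    refine GrC_lim2 c ((r * (H₁ * 2 ^ r * (r * d₀ * D₁ + 1) ^ (r - 1)) : ℝ) * (d₀ * C'))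
      (θ ^ s) ((η ^ (n - 3)) ^ s) hc (by positivity)
      (pow_lt_pow_left₀ hηθ (by positivity) (by omega)) fun j => ?_
    have hηj : 1 ≤ η ^ (s * j) := one_le_pow₀ hη
    obtain ⟨N, hNd⟩ : ∃ N : ℕ, N = max 1 ⌊D₀ * η ^ (s * j)⌋₊ := ⟨_, rfl⟩
    have hN1 : 1 ≤ N := by rw [hNd]; exact le_max_left _ _
    have hNle : (N : ℝ) ≤ D₁ * η ^ (s * j) := by
      rw [hNd, Nat.cast_max, Nat.cast_one]
      refine max_le (one_le_mul_of_one_le_of_one_le hD1 hηj) ?_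
      rcases le_or_gt 0 (D₀ * η ^ (s * j)) with h0 | h0
      · exact (Nat.floor_le h0).trans (mul_le_mul_of_nonneg_right hDD (by positivity))
      · rw [Nat.floor_of_nonpos h0.le, Nat.cast_zero]
        positivity
    have h1 := hmain j N hN1 fun i => by
      have h2 := hdeg (s * j) i
      rw [hNd]
      exact le_max_of_le_right (Nat.le_floor h2)
    rw [← pow_mul]
    refine h1.trans ?_
    rw [← pow_mul, ← pow_mul]
    push_cast
    have h4 : ((r : ℝ) * d₀ * N + 1) ^ (r - 1) ≤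
        (r * d₀ * D₁ + 1) ^ (r - 1) * η ^ ((n - 3) * s * j) := by
      have h5 : (r : ℝ) * d₀ * N + 1 ≤ (r * d₀ * D₁ + 1) * η ^ (s * j) := by
        have h6 : (r : ℝ) * d₀ * N ≤ r * d₀ * (D₁ * η ^ (s * j)) :=
          mul_le_mul_of_nonneg_left hNle (by positivity)
        nlinarith
      calc ((r : ℝ) * d₀ * N + 1) ^ (r - 1) ≤ ((r * d₀ * D₁ + 1) * η ^ (s * j)) ^ (r - 1) :=
            pow_le_pow_left₀ (by positivity) h5 _
        _ = (r * d₀ * D₁ + 1) ^ (r - 1) * η ^ (s * j * (r - 1)) := by rw [mul_pow, ← pow_mul]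
        _ ≤ (r * d₀ * D₁ + 1) ^ (r - 1) * η ^ ((n - 3) * s * j) := by
            refine mul_le_mul_of_nonneg_left (pow_le_pow_right₀ hη ?_) (by positivity)
            have : r - 1 ≤ n - 3 := by omega
            calc s * j * (r - 1) ≤ s * j * (n - 3) := Nat.mul_le_mul_left _ this
              _ = (n - 3) * s * j := by ring
    have h7 : (r : ℝ) * (H₁ * 2 ^ r * (r * d₀ * N + 1) ^ (r - 1)) ≤
        r * (H₁ * 2 ^ r * ((r * d₀ * D₁ + 1) ^ (r - 1) * η ^ ((n - 3) * s * j))) :=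
      mul_le_mul_of_nonneg_left (mul_le_mul_of_nonneg_left h4 (by positivity)) (by positivity)
    calc (r : ℝ) * (H₁ * 2 ^ r * (r * d₀ * N + 1) ^ (r - 1)) * (d₀ * C') ≤
        r * (H₁ * 2 ^ r * ((r * d₀ * D₁ + 1) ^ (r - 1) * η ^ ((n - 3) * s * j))) * (d₀ * C') :=
          mul_le_mul_of_nonneg_right h7 (by positivity)
      _ = _ := by ring

end ZD85
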