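import Pool.Agent.H85.ZD.Defs

/-!
# ZD GradInd : weights and algebraic independence (row `GradInd`)

`R = F[x_1, x_2, x_3]`, `Q` its fraction field, `μ : Fin 3 → ℝ` weights, homogeneous = `IsWeightedHomogeneous μ`.

`const_of_algebraic`: if `F` is algebraically closed and `z/z' ∈ Q` (`z' ≠ 0`) is algebraic over `F` then `z = C κ * z'`.
(An algebraic element of `Q` over the algebraically closed `F` is in `F`: `IsAlgClosed.algebraMap_bijective_of_isIntegral`
for `F[z/z']` a field/domain, or `IsAlgClosed.splits` of the minimal polynomial.)  Contrapositive: `z/z'` not constant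
is transcendental.

`gi_three`: `z, z'` homogeneous of the same weight, `z' ≠ 0`, `z/z'` transcendental; `y₁, y₂ ≠ 0` homogeneous of weights
`d₁, d₂`, linearly independent over `ℤ`.  Then `z/z', y₁, y₂` are algebraically independent.
Proof: suppose `∑_{i,j} Q_{ij}(z/z') y₁^i y₂^j = 0`, `Q_{ij} ∈ F[U]` not all zero, `N ≥` all degrees.  Multiply by `z'^N`:
`z'^N Q_{ij}(z/z')` is a homogeneous polynomial of weight `N d`, so the `(i,j)` summand is homogeneous of weight
`N d + i d₁ + j d₂`, pairwise different weights; hence every summand is zero (take homogeneous components), so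
`Q_{ij}(z/z') = 0`, and `Q_{ij} = 0` as `z/z'` is transcendental.  Contradiction.

`gi_pair`: `z/z'`, `s/s'` quotients of homogeneous elements of equal weights, algebraically independent over `F`; `y ≠ 0`
homogeneous of weight `d ≠ 0`.  Then `z/z', s/s', y` are algebraically independent.  Same proof with `z'^N s'^N`.

`gi_two`: `z/z'` transcendental as before and `y ≠ 0` homogeneous of weight `d ≠ 0` are algebraically independent (not
needed elsewhere if inconvenient - but it is the same proof).

`dep_three`: `G` an endomorphism of `R` with `G Ψ = 0` for some `Ψ ≠ 0`: any three elements of the subfield of `Q`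
generated by the `G (X i)` are algebraically dependent over `F`.
Proof: the three elements `G (X 0), G (X 1), G (X 2)` are algebraically dependent (`Ψ`), so a maximal algebraically
independent subfamily has at most two elements and is a transcendence basis of the subfield they generate:
its transcendence degree is `≤ 2` (`exists_isTranscendenceBasis_subset`, `IsTranscendenceBasis.cardinalMk_eq_trdeg`,
`AlgebraicIndependent.cardinalMk_le_trdeg`).
-/

set_option autoImplicit false

namespace ZD85

open MvPolynomial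

variable {F : Type*} [Field F]

section gen

variable {σ τ : Type} [Fintype σ] [Fintype τ]

/-- numerator of a monomial in the quotients and the `y`. -/
noncomputable def GradInd_T (z z' : σ → MvPolynomial (Fin 3) F) (y : τ → MvPolynomial (Fin 3) F)
    (N : ℕ) (m : σ ⊕ τ →₀ ℕ) : MvPolynomial (Fin 3) F :=
  (∏ s, z s ^ m (Sum.inl s) * z' s ^ (N - m (Sum.inl s))) * ∏ t, y t ^ m (Sum.inr t)

theorem GradInd_T_hom (μ : Fin 3 → ℝ) (z z' : σ → MvPolynomial (Fin 3) F)
    (y : τ → MvPolynomial (Fin 3) F) (d : σ → ℝ) (e : τ → ℝ)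
    (hz : ∀ s, (z s).IsWeightedHomogeneous μ (d s)) (hz' : ∀ s, (z' s).IsWeightedHomogeneous μ (d s))
    (hy : ∀ t, (y t).IsWeightedHomogeneous μ (e t)) (N : ℕ) (m : σ ⊕ τ →₀ ℕ)
    (hN : ∀ s, m (Sum.inl s) ≤ N) :
    (GradInd_T z z' y N m).IsWeightedHomogeneous μ
      ((∑ s, (N : ℝ) * d s) + ∑ t, (m (Sum.inr t) : ℝ) * e t) := by
  unfold GradInd_T
  refine IsWeightedHomogeneous.mul ?_ ?_
  · refine IsWeightedHomogeneous.prod _ _ _ fun s _ => ?_
    have h := ((hz s).pow (m (Sum.inl s))).mul ((hz' s).pow (N - m (Sum.inl s)))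
    have e1 : m (Sum.inl s) • d s + (N - m (Sum.inl s)) • d s = (N : ℝ) * d s := by
      rw [← add_smul, Nat.add_sub_cancel' (hN s), nsmul_eq_mul]
    rw [← e1]
    exact h
  · refine IsWeightedHomogeneous.prod _ _ _ fun t _ => ?_
    have h := (hy t).pow (m (Sum.inr t))
    rw [nsmul_eq_mul] at h
    exact h

theorem GradInd_gen (μ : Fin 3 → ℝ) (z z' : σ → MvPolynomial (Fin 3) F)
    (y : τ → MvPolynomial (Fin 3) F) (d : σ → ℝ) (e : τ → ℝ)
    (hz : ∀ s, (z s).IsWeightedHomogeneous μ (d s)) (hz' : ∀ s, (z' s).IsWeightedHomogeneous μ (d s))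
    (hz'0 : ∀ s, z' s ≠ 0)
    (hy : ∀ t, (y t).IsWeightedHomogeneous μ (e t)) (hy0 : ∀ t, y t ≠ 0)
    (he : ∀ n n' : τ → ℕ, ∑ t, (n t : ℝ) * e t = ∑ t, (n' t : ℝ) * e t → n = n')
    (x : σ → FractionRing (MvPolynomial (Fin 3) F))
    (hx : ∀ s, x s = algebraMap (MvPolynomial (Fin 3) F) (FractionRing (MvPolynomial (Fin 3) F)) (z s) /
      algebraMap (MvPolynomial (Fin 3) F) (FractionRing (MvPolynomial (Fin 3) F)) (z' s))
    (ht : AlgebraicIndependent F x) :
    AlgebraicIndependent F (Sum.elim x (fun t =>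
      algebraMap (MvPolynomial (Fin 3) F) (FractionRing (MvPolynomial (Fin 3) F)) (y t))) := by
  classical
  rw [algebraicIndependent_iff]
  intro p hp
  by_contra hne
  obtain ⟨m0, hm0⟩ := MvPolynomial.ne_zero_iff.1 hne
  set N := Finset.univ.sup (fun i => degreeOf i p) with hNd
  have hN : ∀ m ∈ p.support, ∀ i, m i ≤ N := fun m hm i =>
    (monomial_le_degreeOf i hm).trans (Finset.le_sup (f := fun i => degreeOf i p) (Finset.mem_univ i))
  have hinj : Function.Injective (algebraMap (MvPolynomial (Fin 3) F)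
      (FractionRing (MvPolynomial (Fin 3) F))) := IsFractionRing.injective _ _
  set A := algebraMap (MvPolynomial (Fin 3) F) (FractionRing (MvPolynomial (Fin 3) F)) with hA
  have hA0 : ∀ s, A (z' s) ≠ 0 := fun s h => hz'0 s (hinj (by rw [h, map_zero]))
  have hAy : ∀ t, A (y t) ≠ 0 := fun t h => hy0 t (hinj (by rw [h, map_zero]))
  have hAC : ∀ c : F, A (C c) = algebraMap F (FractionRing (MvPolynomial (Fin 3) F)) c := by
    intro c
    rw [hA, ← MvPolynomial.algebraMap_eq, ← IsScalarTower.algebraMap_apply]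
  have hT : ∀ m ∈ p.support, A (GradInd_T z z' y N m) =
      (∏ s, A (z' s) ^ N) * ((∏ s, x s ^ m (Sum.inl s)) * ∏ t, A (y t) ^ m (Sum.inr t)) := by
    intro m hm
    unfold GradInd_T
    rw [map_mul, map_prod, map_prod, ← mul_assoc, ← Finset.prod_mul_distrib]
    congr 1
    · refine Finset.prod_congr rfl fun s _ => ?_
      rw [map_mul, map_pow, map_pow, hx s, div_pow]
      have hle := hN m hm (Sum.inl s)
      have h0 := hA0 s
      rw [mul_div_assoc', eq_div_iff (pow_ne_zero _ h0), mul_assoc, ← pow_add,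
        Nat.sub_add_cancel hle, mul_comm]
    · refine Finset.prod_congr rfl fun t _ => ?_
      rw [map_pow]
  have hp' : ∑ m ∈ p.support, algebraMap F (FractionRing (MvPolynomial (Fin 3) F)) (coeff m p) *
      ((∏ s, x s ^ m (Sum.inl s)) * ∏ t, A (y t) ^ m (Sum.inr t)) = 0 := by
    rw [MvPolynomial.aeval_def, MvPolynomial.eval₂_eq'] at hp
    rw [← hp]
    refine Finset.sum_congr rfl fun m _ => ?_
    rw [Fintype.prod_sum_type]
    rfl
  have hS : ∑ m ∈ p.support, C (coeff m p) * GradInd_T z z' y N m = 0 := by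
    apply hinj
    rw [map_zero, map_sum]
    have : ∑ m ∈ p.support, A (C (coeff m p) * GradInd_T z z' y N m) =
        (∏ s, A (z' s) ^ N) * ∑ m ∈ p.support,
          algebraMap F (FractionRing (MvPolynomial (Fin 3) F)) (coeff m p) *
          ((∏ s, x s ^ m (Sum.inl s)) * ∏ t, A (y t) ^ m (Sum.inr t)) := by
      rw [Finset.mul_sum]
      refine Finset.sum_congr rfl fun m hm => ?_
      rw [map_mul, hT m hm, hAC]
      ring
    rw [this, hp', mul_zero]
  -- the component
  have hm0s : m0 ∈ p.support := MvPolynomial.mem_support_iff.2 hm0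
  set w0 : ℝ := (∑ s, (N : ℝ) * d s) + ∑ t, (m0 (Sum.inr t) : ℝ) * e t with hw0
  have hcomp : ∀ m ∈ p.support, weightedHomogeneousComponent μ w0
      (C (coeff m p) * GradInd_T z z' y N m) =
      if (fun t => m (Sum.inr t)) = (fun t => m0 (Sum.inr t)) then
        C (coeff m p) * GradInd_T z z' y N m else 0 := by
    intro m hm
    have hh := (GradInd_T_hom μ z z' y d e hz hz' hy N m (fun s => hN m hm (Sum.inl s)))
    have hh2 := (isWeightedHomogeneous_C μ (coeff m p)).mul hh
    rw [zero_add] at hh2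
    rw [weightedHomogeneousComponent_of_mem
      ((mem_weightedHomogeneousSubmodule F μ _ _).2 hh2)]
    by_cases hq : (fun t => m (Sum.inr t)) = (fun t => m0 (Sum.inr t))
    · rw [if_pos hq, if_pos]
      rw [hw0]
      congr 1
      refine Finset.sum_congr rfl fun t _ => ?_
      rw [congrFun hq t]
    · rw [if_neg hq, if_neg]
      intro h
      apply hq
      rw [hw0] at h
      exact (he _ _ (add_left_cancel h)).symm
  have hS2 : ∑ m ∈ p.support, (if (fun t => m (Sum.inr t)) = (fun t => m0 (Sum.inr t)) then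
        C (coeff m p) * GradInd_T z z' y N m else 0) = 0 := by
    rw [← Finset.sum_congr rfl hcomp, ← map_sum, hS, map_zero]
  rw [← Finset.sum_filter] at hS2
  have hS3 : ∑ m ∈ p.support.filter (fun m => (fun t => m (Sum.inr t)) = (fun t => m0 (Sum.inr t))),
      algebraMap F (FractionRing (MvPolynomial (Fin 3) F)) (coeff m p) *
        (∏ s, x s ^ m (Sum.inl s)) = 0 := by
    have h1 := congrArg A hS2
    rw [map_sum, map_zero] at h1
    have h2 : ∑ m ∈ p.support.filter (fun m => (fun t => m (Sum.inr t)) = (fun t => m0 (Sum.inr t))),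
        A (C (coeff m p) * GradInd_T z z' y N m) =
        ((∏ s, A (z' s) ^ N) * ∏ t, A (y t) ^ m0 (Sum.inr t)) *
        ∑ m ∈ p.support.filter (fun m => (fun t => m (Sum.inr t)) = (fun t => m0 (Sum.inr t))),
          algebraMap F (FractionRing (MvPolynomial (Fin 3) F)) (coeff m p) *
          (∏ s, x s ^ m (Sum.inl s)) := by
      rw [Finset.mul_sum]
      refine Finset.sum_congr rfl fun m hm => ?_
      obtain ⟨hm1, hm2⟩ := Finset.mem_filter.1 hm
      rw [map_mul, hT m hm1, hAC]
      have h3 : ∏ t, A (y t) ^ m (Sum.inr t) = ∏ t, A (y t) ^ m0 (Sum.inr t) :=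
        Finset.prod_congr rfl fun t _ => by rw [congrFun hm2 t]
      rw [h3]
      ring
    rw [h2] at h1
    refine (mul_eq_zero.1 h1).resolve_left (mul_ne_zero ?_ ?_)
    · exact Finset.prod_ne_zero_iff.2 fun s _ => pow_ne_zero _ (hA0 s)
    · exact Finset.prod_ne_zero_iff.2 fun t _ => pow_ne_zero _ (hAy t)
  set g : (σ ⊕ τ →₀ ℕ) → (σ →₀ ℕ) := fun m => Finsupp.equivFunOnFinite.symm (fun s => m (Sum.inl s))
    with hg
  set q : MvPolynomial σ F :=
    ∑ m ∈ p.support.filter (fun m => (fun t => m (Sum.inr t)) = (fun t => m0 (Sum.inr t))),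
      monomial (g m) (coeff m p) with hq
  have hq0 : aeval x q = 0 := by
    rw [hq, map_sum, ← hS3]
    refine Finset.sum_congr rfl fun m _ => ?_
    rw [aeval_monomial, Finsupp.prod_fintype _ _ (fun i => pow_zero _)]
    rfl
  have hq1 : q = 0 := ht.eq_zero_of_aeval_eq_zero q hq0
  have hq2 : coeff (g m0) q = coeff m0 p := by
    rw [hq, coeff_sum, Finset.sum_eq_single m0]
    · rw [coeff_monomial, if_pos rfl]
    · intro m hm hne'
      obtain ⟨hm1, hm2⟩ := Finset.mem_filter.1 hm
      rw [coeff_monomial, if_neg]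
      intro hgm
      apply hne'
      ext i
      rcases i with s | t
      · have := DFunLike.congr_fun hgm s
        simpa [hg] using this
      · exact congrFun hm2 t
    · intro h
      exact (h (by rw [Finset.mem_filter]; exact ⟨hm0s, rfl⟩)).elim
  rw [hq1, coeff_zero] at hq2
  exact hm0 hq2.symm

end gen

theorem const_of_algebraic [IsAlgClosed F] (z z' : MvPolynomial (Fin 3) F) (hz' : z' ≠ 0)
    (h : IsAlgebraic F (algebraMap (MvPolynomial (Fin 3) F) (FractionRing (MvPolynomial (Fin 3) F)) z /
      algebraMap (MvPolynomial (Fin 3) F) (FractionRing (MvPolynomial (Fin 3) F)) z')) :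
    ∃ κ : F, z = C κ * z' := by
  have hinj : Function.Injective (algebraMap (MvPolynomial (Fin 3) F)
      (FractionRing (MvPolynomial (Fin 3) F))) := IsFractionRing.injective _ _
  have h1 := IsAlgClosed.degree_eq_one_of_irreducible F (minpoly.irreducible h.isIntegral)
  obtain ⟨κ, hκ⟩ := minpoly.mem_range_of_degree_eq_one F _ h1
  refine ⟨κ, hinj ?_⟩
  have h0 : algebraMap (MvPolynomial (Fin 3) F) (FractionRing (MvPolynomial (Fin 3) F)) z' ≠ 0 :=
    fun h => hz' (hinj (by rw [h, map_zero]))
  rw [map_mul, ← MvPolynomial.algebraMap_eq, ← IsScalarTower.algebraMap_apply, hκ,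
    div_mul_cancel₀ _ h0]

theorem gi_three (μ : Fin 3 → ℝ) (z z' y₁ y₂ : MvPolynomial (Fin 3) F) (d d₁ d₂ : ℝ)
    (hz : z.IsWeightedHomogeneous μ d) (hz' : z'.IsWeightedHomogeneous μ d) (hz'0 : z' ≠ 0)
    (hy₁ : y₁.IsWeightedHomogeneous μ d₁) (hy₂ : y₂.IsWeightedHomogeneous μ d₂) (h1 : y₁ ≠ 0) (h2 : y₂ ≠ 0)
    (hd : ∀ i j : ℤ, (i : ℝ) * d₁ + j * d₂ = 0 → i = 0 ∧ j = 0)
    (ht : Transcendental F (algebraMap (MvPolynomial (Fin 3) F) (FractionRing (MvPolynomial (Fin 3) F)) z /
      algebraMap (MvPolynomial (Fin 3) F) (FractionRing (MvPolynomial (Fin 3) F)) z')) :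
    AlgebraicIndependent F
      ![algebraMap (MvPolynomial (Fin 3) F) (FractionRing (MvPolynomial (Fin 3) F)) z /
          algebraMap (MvPolynomial (Fin 3) F) (FractionRing (MvPolynomial (Fin 3) F)) z',
        algebraMap (MvPolynomial (Fin 3) F) (FractionRing (MvPolynomial (Fin 3) F)) y₁,
        algebraMap (MvPolynomial (Fin 3) F) (FractionRing (MvPolynomial (Fin 3) F)) y₂] := by
  have ht' : AlgebraicIndependent F (fun _ : Fin 1 =>
      (algebraMap (MvPolynomial (Fin 3) F) (FractionRing (MvPolynomial (Fin 3) F)) z /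
      algebraMap (MvPolynomial (Fin 3) F) (FractionRing (MvPolynomial (Fin 3) F)) z')) :=
    (algebraicIndependent_unique_type_iff).2 ht
  have key := GradInd_gen (σ := Fin 1) (τ := Fin 2) μ (fun _ => z) (fun _ => z') ![y₁, y₂]
    (fun _ => d) ![d₁, d₂] (fun _ => hz) (fun _ => hz') (fun _ => hz'0)
    (by intro t; fin_cases t <;> simp [hy₁, hy₂]) (by intro t; fin_cases t <;> simp [h1, h2])
    (by
      intro n n' h
      rw [Fin.sum_univ_two, Fin.sum_univ_two] at h
      simp only [Matrix.cons_val_zero, Matrix.cons_val_one] at h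
      have := hd ((n 0 : ℤ) - n' 0) ((n 1 : ℤ) - n' 1) (by push_cast; linarith)
      funext t
      fin_cases t
      · have := this.1
        simp only [Fin.zero_eta]
        omega
      · have := this.2
        simp only [Fin.mk_one]
        omega)
    _ (fun _ => rfl) ht'
  refine (algebraicIndependent_equiv' (finSumFinEquiv (m := 1) (n := 2)) ?_).1 key
  funext i
  rcases i with s | t
  · fin_cases s
    rfl
  · fin_cases t <;> rfl

theorem gi_pair (μ : Fin 3 → ℝ) (z z' s s' y : MvPolynomial (Fin 3) F) (d d' e : ℝ)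
    (hz : z.IsWeightedHomogeneous μ d) (hz' : z'.IsWeightedHomogeneous μ d) (hz'0 : z' ≠ 0)
    (hs : s.IsWeightedHomogeneous μ d') (hs' : s'.IsWeightedHomogeneous μ d') (hs'0 : s' ≠ 0)
    (hy : y.IsWeightedHomogeneous μ e) (hy0 : y ≠ 0) (he : e ≠ 0)
    (ht : AlgebraicIndependent F
      ![algebraMap (MvPolynomial (Fin 3) F) (FractionRing (MvPolynomial (Fin 3) F)) z /
          algebraMap (MvPolynomial (Fin 3) F) (FractionRing (MvPolynomial (Fin 3) F)) z',
        algebraMap (MvPolynomial (Fin 3) F) (FractionRing (MvPolynomial (Fin 3) F)) s /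
          algebraMap (MvPolynomial (Fin 3) F) (FractionRing (MvPolynomial (Fin 3) F)) s']) :
    AlgebraicIndependent F
      ![algebraMap (MvPolynomial (Fin 3) F) (FractionRing (MvPolynomial (Fin 3) F)) z /
          algebraMap (MvPolynomial (Fin 3) F) (FractionRing (MvPolynomial (Fin 3) F)) z',
        algebraMap (MvPolynomial (Fin 3) F) (FractionRing (MvPolynomial (Fin 3) F)) s /
          algebraMap (MvPolynomial (Fin 3) F) (FractionRing (MvPolynomial (Fin 3) F)) s',
        algebraMap (MvPolynomial (Fin 3) F) (FractionRing (MvPolynomial (Fin 3) F)) y] := by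
  have key := GradInd_gen (σ := Fin 2) (τ := Fin 1) μ ![z, s] ![z', s'] (fun _ => y)
    ![d, d'] (fun _ => e) (by intro t; fin_cases t <;> simp [hz, hs])
    (by intro t; fin_cases t <;> simp [hz', hs']) (by intro t; fin_cases t <;> simp [hz'0, hs'0])
    (fun _ => hy) (fun _ => hy0)
    (by
      intro n n' h
      rw [Fin.sum_univ_one, Fin.sum_univ_one] at h
      have h3 := mul_right_cancel₀ he h
      funext t
      fin_cases t
      exact_mod_cast h3)
    _ (by intro t; fin_cases t <;> rfl) ht
  refine (algebraicIndependent_equiv' (finSumFinEquiv (m := 2) (n := 1)) ?_).1 key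
  funext i
  rcases i with s | t
  · fin_cases s <;> rfl
  · fin_cases t
    rfl

theorem dep_three (G : MvPolynomial (Fin 3) F →ₐ[F] MvPolynomial (Fin 3) F)
    (hΨ : ∃ Ψ : MvPolynomial (Fin 3) F, Ψ ≠ 0 ∧ G Ψ = 0)
    (h : Fin 3 → FractionRing (MvPolynomial (Fin 3) F))
    (hh : ∀ i, h i ∈ IntermediateField.adjoin F (Set.range fun k : Fin 3 =>
      algebraMap (MvPolynomial (Fin 3) F) (FractionRing (MvPolynomial (Fin 3) F)) (G (X k)))) :
    ¬ AlgebraicIndependent F h := by
  intro hind
  obtain ⟨Ψ, hΨ0, hG⟩ := hΨ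
  set g : Fin 3 → FractionRing (MvPolynomial (Fin 3) F) := fun k =>
    algebraMap (MvPolynomial (Fin 3) F) (FractionRing (MvPolynomial (Fin 3) F)) (G (X k)) with hg
  have hng : ¬ AlgebraicIndependent F g := by
    intro hgi
    apply hΨ0
    apply hgi.eq_zero_of_aeval_eq_zero
    have e1 : (aeval g : MvPolynomial (Fin 3) F →ₐ[F] FractionRing (MvPolynomial (Fin 3) F)) =
        (IsScalarTower.toAlgHom F (MvPolynomial (Fin 3) F)
          (FractionRing (MvPolynomial (Fin 3) F))).comp G := by
      apply MvPolynomial.algHom_ext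
      intro i
      rw [aeval_X]
      rfl
    rw [e1, AlgHom.comp_apply, hG, map_zero]
  let M := AlgebraicIndependent.matroid F (FractionRing (MvPolynomial (Fin 3) F))
  have hcl : Set.range h ⊆ M.closure (Set.range g) := by
    rw [AlgebraicIndependent.matroid_closure_eq]
    rintro _ ⟨i, rfl⟩
    obtain ⟨r, hr, s, hs, hrs⟩ := IntermediateField.mem_adjoin_iff_div.1 (hh i)
    rw [SetLike.mem_coe, Subalgebra.mem_algebraicClosure, hrs]
    have hr' : IsAlgebraic (Algebra.adjoin F (Set.range g)) r :=
      isAlgebraic_algebraMap (⟨r, hr⟩ : Algebra.adjoin F (Set.range g))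
    have hs' : IsAlgebraic (Algebra.adjoin F (Set.range g)) s :=
      isAlgebraic_algebraMap (⟨s, hs⟩ : Algebra.adjoin F (Set.range g))
    rw [div_eq_mul_inv]
    exact hr'.mul hs'.inv
  have hindM : M.Indep (Set.range h) :=
    AlgebraicIndependent.matroid_indep_iff.2 hind.to_subtype_range
  have h3 : (Set.range h).encard = 3 := by
    rw [← Set.image_univ, hind.injective.encard_image, Set.encard_univ]
    simp
  have h4 : (3 : ℕ∞) ≤ M.eRk (Set.range g) := by
    rw [← h3, ← M.eRk_closure_eq]
    exact hindM.encard_le_eRk_of_subset hcl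
  have h5 : (Set.range g).encard ≤ 3 := by
    rw [← Set.image_univ]
    refine (Set.encard_image_le _ _).trans ?_
    rw [Set.encard_univ]
    simp
  have h6 : (Set.range g).encard = 3 := le_antisymm h5 (h4.trans (M.eRk_le_encard _))
  have h7 : M.Indep (Set.range g) := by
    obtain ⟨I, hI1, hI2, hI3⟩ := Matroid.le_eRk_iff.1 h4
    have : I = Set.range g := by
      refine Set.Finite.eq_of_subset_of_encard_le ((Set.finite_range g).subset hI1) hI1 ?_
      rw [hI3, h6]
    rw [← this]
    exact hI2
  have h8 : Function.Injective g := by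
    have hc : Set.ncard (Set.range g) = 3 := by
      rw [Set.ncard, h6]
      rfl
    have : Function.Injective g := by
      rw [← Set.injOn_univ]
      refine Set.injOn_of_ncard_image_eq ?_ Set.finite_univ
      rw [Set.image_univ, hc, Set.ncard_univ]
      simp
    exact this
  apply hng
  exact (algebraicIndependent_subtype_range h8).1 (AlgebraicIndependent.matroid_indep_iff.1 h7)

end ZD85
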