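import Pool.Agent.H85.ZD.Crit
import Pool.Agent.H85.ZD.Val

/-!
# ZD Henon : Hénon base (row `Henon`)

`f(x, y, z) = (a x + P(z, y), b z + Q(y), c y + d)`, `q = Q.natDegree ≥ 2`.

Proof.  Units `E` = {`a`, `b`, `c`} ∪ ({`d`} if `d ≠ 0`) ∪ {non-zero coefficients of `Q`}; `p, v` from `exists_val`,
`g = v(p)⁻¹ > 1`.  `y_m = orb σ P m 1`, `z_m = orb σ P m 2`: `y_{m+1} = b z_m + Q(y_m)`, `z_{m+1} = c y_m + d`.
`S_0 = univ`, `S_1 = {y | g ≤ v y}`, `S_2 = {z | v z ≤ 1}`; infinite sets (`univ` is infinite as it contains a ball;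
`S_1` contains the ball of centre `p⁻¹` and radius `g`).
Claim: `g ≤ v(y_m)` and `v(z_m) ≤ v(y_m)`, `v(y_{m+1}) = v(y_m)^q`.  Indeed the leading term of `Q(y_m)` has value
`Y^q`, `Y = v(y_m) > 1`, the lower ones `≤ Y^(q-1)` and `v(b z_m) ≤ Y < Y^q`; `v(z_{m+1}) ≤ max Y 1 = Y ≤ Y^q`.
So `v(y_m) = v(y_0)^(q^m) ≥ g^(q^m) = exp(log g * q^m)`: `FastPt`.  `zdo_of_fast_prod`.
-/

set_option autoImplicit false

namespace ZD85

open MvPolynomial

private theorem henon_step {K : Type*} [Field K] (v : Valuation K NNReal) (b c d : K) (Q : Polynomial K)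
    (hq : 2 ≤ Q.natDegree) (vb : v b = 1) (vc : v c = 1) (vd : v d ≤ 1)
    (vQ : ∀ k, Q.coeff k ≠ 0 → v (Q.coeff k) = 1) (y z : K) (hy : 1 < v y) (hz : v z ≤ v y) :
    v (b * z + Polynomial.eval y Q) = v y ^ Q.natDegree ∧ v (c * y + d) ≤ v y := by
  have hq0 : 1 ≤ v y := hy.le
  constructor
  · rw [Polynomial.eval_eq_sum_range, Finset.sum_range_succ, ← add_assoc]
    have hQ0 : Q ≠ 0 := by
      rintro rfl
      simp at hq
    have hlead : v (Q.coeff Q.natDegree * y ^ Q.natDegree) = v y ^ Q.natDegree := by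
      rw [map_mul, map_pow, vQ _ (by
        rw [Polynomial.coeff_natDegree]
        exact Polynomial.leadingCoeff_ne_zero.2 hQ0), one_mul]
    have h1 : v (b * z) < v y ^ Q.natDegree := by
      rw [map_mul, vb, one_mul]
      calc v z ≤ v y := hz
        _ = v y ^ 1 := (pow_one _).symm
        _ < v y ^ Q.natDegree := pow_lt_pow_right₀ hy (by omega)
    have h2 : v (∑ i ∈ Finset.range Q.natDegree, Q.coeff i * y ^ i) < v y ^ Q.natDegree := by
      refine Valuation.map_sum_lt v (pow_ne_zero _ (ne_of_gt (lt_trans zero_lt_one hy))) (fun i hi => ?_)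
      rw [Finset.mem_range] at hi
      by_cases hc0 : Q.coeff i = 0
      · rw [hc0, zero_mul, map_zero]
        exact pow_pos (lt_trans zero_lt_one hy) _
      · rw [map_mul, map_pow, vQ i hc0, one_mul]
        exact pow_lt_pow_right₀ hy hi
    have h3 : v (b * z + ∑ i ∈ Finset.range Q.natDegree, Q.coeff i * y ^ i) <
        v (Q.coeff Q.natDegree * y ^ Q.natDegree) := by
      rw [hlead]
      exact Valuation.map_add_lt v h1 h2
    rw [Valuation.map_add_eq_of_lt_right v h3, hlead]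
  · refine (Valuation.map_add v _ _).trans (max_le ?_ (vd.trans hq0))
    rw [map_mul, vc, one_mul]

theorem henon_zdo {K : Type*} [Field K] [CharZero K] (σ : PAut K 3) (a b c d : K)
    (ha : a ≠ 0) (hb : b ≠ 0) (hc : c ≠ 0)
    (P : MvPolynomial (Fin 2) K) (Q : Polynomial K) (hq : 2 ≤ Q.natDegree)
    (h0 : σ (X 0) = C a * X 0 + aeval ![X 2, X 1] P)
    (h1 : σ (X 1) = C b * X 2 + Polynomial.aeval (X 1) Q) (h2 : σ (X 2) = C c * X 1 + C d) : Zdo σ := by
  classical
  obtain ⟨p, v, hp, hvp, hE, -⟩ := exists_val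
    (({b, c, d} ∪ (Finset.range (Q.natDegree + 1)).image Q.coeff : Finset K).erase 0)
    (Finset.notMem_erase 0 _)
  have vb : v b = 1 := hE b (Finset.mem_erase.2 ⟨hb, by simp⟩)
  have vc : v c = 1 := hE c (Finset.mem_erase.2 ⟨hc, by simp⟩)
  have vd : v d ≤ 1 := by
    by_cases hd : d = 0
    · rw [hd, map_zero]; exact zero_le_one
    · exact (hE d (Finset.mem_erase.2 ⟨hd, by simp⟩)).le
  have vQ : ∀ k, Q.coeff k ≠ 0 → v (Q.coeff k) = 1 := by
    intro k hk
    refine hE _ (Finset.mem_erase.2 ⟨hk, Finset.mem_union_right _ (Finset.mem_image.2 ⟨k, ?_, rfl⟩)⟩)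
    rw [Finset.mem_range]
    have := Polynomial.le_natDegree_of_ne_zero hk
    omega
  have hp0 : (p : K) ≠ 0 := Nat.cast_ne_zero.2 hp.ne_zero
  have hvp0 : 0 < v (p : K) := (Valuation.pos_iff v).2 hp0
  set g : NNReal := (v (p : K))⁻¹ with hg
  have hg1 : 1 < g := (one_lt_inv₀ hvp0).2 hvp
  have hvpi : v ((p : K)⁻¹) = g := map_inv₀ v _
  refine zdo_of_fast_prod σ ![Set.univ, {y | g ≤ v y}, {z | v z ≤ 1}] ?_ ?_
  · intro i
    fin_cases i
    · exact (ball_infinite v (p : K) hp0 hvp 0 1 one_pos).mono (Set.subset_univ _)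
    · refine (ball_infinite v (p : K) hp0 hvp (p : K)⁻¹ g (lt_trans zero_lt_one hg1)).mono ?_
      intro y hy
      change v (y - (p : K)⁻¹) < g at hy
      change g ≤ v y
      have h3 : v (y - (p : K)⁻¹ + (p : K)⁻¹) = v ((p : K)⁻¹) :=
        Valuation.map_add_eq_of_lt_right v (by rw [hvpi]; exact hy)
      rw [sub_add_cancel, hvpi] at h3
      exact h3.ge
    · refine (ball_infinite v (p : K) hp0 hvp 0 1 one_pos).mono ?_
      intro z hz
      change v (z - 0) < 1 at hz
      rw [sub_zero] at hz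
      exact hz.le
  · intro R hR
    have hR1 : g ≤ v (R 1) := hR 1
    have hR2 : v (R 2) ≤ 1 := hR 2
    have ey : ∀ m, orb σ R (m + 1) 1 = b * orb σ R m 2 + Polynomial.eval (orb σ R m 1) Q := by
      intro m
      rw [orb_succ_apply, h1, map_add, map_mul, eval_C, eval_X]
      congr 1
      have h4 : (MvPolynomial.eval (orb σ R m)) (Polynomial.aeval (X 1 : MvPolynomial (Fin 3) K) Q) =
          Polynomial.eval₂ ((MvPolynomial.eval (orb σ R m)).comp (algebraMap K _))
            ((MvPolynomial.eval (orb σ R m)) (X 1)) Q := by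
        rw [Polynomial.aeval_def, Polynomial.hom_eval₂]
      rw [h4, eval_X]
      have h5 : (MvPolynomial.eval (orb σ R m)).comp (algebraMap K (MvPolynomial (Fin 3) K)) =
          RingHom.id K := by
        ext x
        simp [MvPolynomial.algebraMap_eq]
      rw [h5]
      rfl
    have ez : ∀ m, orb σ R (m + 1) 2 = c * orb σ R m 1 + d := by
      intro m
      rw [orb_succ_apply, h2, map_add, map_mul, eval_C, eval_X, eval_C]
    have key : ∀ m, v (orb σ R m 2) ≤ v (orb σ R m 1) ∧ g ^ (Q.natDegree ^ m) ≤ v (orb σ R m 1) := by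
      intro m
      induction m with
      | zero =>
        rw [orb_zero, pow_zero, pow_one]
        exact ⟨hR2.trans (hg1.le.trans hR1), hR1⟩
      | succ m ih =>
        obtain ⟨ih1, ih2⟩ := ih
        have hqm : 1 ≤ Q.natDegree ^ m := Nat.one_le_pow _ _ (by omega)
        have hY : 1 < v (orb σ R m 1) :=
          lt_of_lt_of_le (one_lt_pow₀ hg1 (by omega)) ih2
        obtain ⟨h3, h4⟩ := henon_step v b c d Q hq vb vc vd vQ (orb σ R m 1) (orb σ R m 2) hY ih1
        rw [← ey] at h3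
        rw [← ez] at h4
        rw [h3]
        constructor
        · refine h4.trans ?_
          calc v (orb σ R m 1) = v (orb σ R m 1) ^ 1 := (pow_one _).symm
            _ ≤ v (orb σ R m 1) ^ Q.natDegree := pow_le_pow_right₀ hY.le (by omega)
        · rw [pow_succ, pow_mul]
          exact pow_le_pow_left₀ (by positivity) ih2 _
    refine ⟨v, Real.log g, Q.natDegree, Real.log_pos (by exact_mod_cast hg1), by exact_mod_cast hq, fun m => ⟨1, ?_⟩⟩
    have h3 := (key m).2
    have h4 : Real.exp (Real.log g * (Q.natDegree : ℝ) ^ m) = ((g : ℝ)) ^ (Q.natDegree ^ m) := by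
      have : (Q.natDegree : ℝ) ^ m = ((Q.natDegree ^ m : ℕ) : ℝ) := by push_cast; rfl
      rw [this, mul_comm, Real.exp_nat_mul, Real.exp_log (by exact_mod_cast (lt_trans zero_lt_one hg1))]
    rw [h4]
    exact_mod_cast h3

end ZD85
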