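import Pool.Agent.H85.ZD.Defs

/-!
# ZD Indep : exponential polynomials (row `Indep`)

`characters`: distinct characters `m ↦ a_i^m` are linearly independent (Dedekind).

`indep_two`: `λ₁, λ₂` multiplicatively independent, `κ₁, κ₂ ≠ 0`; a polynomial `G ∈ K[T][Y]` with
`G(T = λ₁^m κ₁, Y = λ₂^m κ₂) = 0` for all `m` is zero.
Proof: `G = ∑ g_{ab} T^a Y^b`; the value is `∑ g_{ab} κ₁^a κ₂^b (λ₁^a λ₂^b)^m`, and the numbers `λ₁^a λ₂^b` are pairwise
different (`λ₁, λ₂ ≠ 0`).

`expPoly_zero`: `λ` not a root of unity, `λ ≠ 0`; `q_s ∈ K[X]`, `s ∈ S` finite set of naturals, with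
`∑_{s ∈ S} λ^(m s) q_s(m) = 0` for all `m : ℕ`; then all `q_s = 0` (characteristic 0).
Proof: induction on `∑_{s ∈ S} (1 + natDegree q_s)` (over the `s` with `q_s ≠ 0`).  If some `q_s ≠ 0` take such an `s₀`
and form `u(m+1) - λ^{s₀} u(m)` for `u(m) = ∑ λ^(m s) q_s(m) = 0`:
`∑_s λ^(m s) (λ^s q_s(m+1) - λ^{s₀} q_s(m)) = 0`.  For `s = s₀` the new coefficient is
`λ^{s₀}(q(X+1) - q)`, which is zero if `q` is constant and has smaller degree otherwise; for `s ≠ s₀` the degree is kept
(leading coefficient times `λ^s - λ^{s₀} ≠ 0`).  By induction all new coefficients vanish; so all `q_s = 0` for `s ≠ s₀`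
and `q_{s₀}` is constant `= κ` (as `q(X+1) = q` in characteristic 0 means constant); finally `λ^(m s₀) κ = 0`, `κ = 0`.

`indep_jordan₁`: `λ ≠ 0` not a root of unity, `κ ≠ 0`, `κ' ∈ K`, `ρ ≠ 0`.  A polynomial `G ∈ K[T][Y]` with
`G(T = λ^m κ, Y = λ^m (κ' + m ρ)) = 0` for all `m` is zero.
Proof: the value is `∑_s λ^(m s) q_s(m)`, `q_s(X) = ∑_{a + b = s} g_{ab} κ^a (κ' + ρ X)^b`; so `q_s = 0`, and the powers
`(κ' + ρ X)^b` have different degrees, so all `g_{ab} = 0`.

`indep_jordan₂`: `λ ≠ 0` not a root of unity, `κ ≠ 0`, `ρ ≠ 0`, `r ≥ 1`.  A polynomial `G` with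
`G(T = λ^(r m) κ, Y = κ' + m ρ) = 0` for all `m` is zero.  Same proof with `λ^r` (not a root of unity either),
`q_a(X) = κ^a ∑_b g_{ab} (κ' + ρ X)^b`.

(`evalEval x y G`: inner variable `T = x`, outer variable `Y = y`.)
-/

set_option autoImplicit false

namespace ZD85

theorem characters {K : Type*} [Field K] {ι : Type*} (s : Finset ι) (a c : ι → K)
    (ha : Set.InjOn a s) (h : ∀ m : ℕ, ∑ i ∈ s, c i * a i ^ m = 0) : ∀ i ∈ s, c i = 0 := by
  intro i hi
  have li : LinearIndependent K
      (fun i : s => ((powersHom K (a i) : Multiplicative ℕ →* K) : Multiplicative ℕ → K)) := by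
    refine (linearIndependent_monoidHom (Multiplicative ℕ) K).comp
      (fun i : s => (powersHom K (a i) : Multiplicative ℕ →* K)) ?_
    intro x y hxy
    have h1 : (powersHom K (a x) : Multiplicative ℕ →* K) (Multiplicative.ofAdd 1) =
        (powersHom K (a y) : Multiplicative ℕ →* K) (Multiplicative.ofAdd 1) := by
      simp only at hxy; rw [hxy]
    simp only [powersHom_apply, toAdd_ofAdd, pow_one] at h1
    exact Subtype.ext (ha x.2 y.2 h1)
  have h2 := Fintype.linearIndependent_iff.1 li (fun i => c i) (by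
    ext m
    have := h m.toAdd
    rw [← Finset.sum_coe_sort] at this
    simpa [powersHom_apply] using this) ⟨i, hi⟩
  exact h2

/-- expansion of `evalEval` on a large square of exponents. -/
theorem Indep_expand {K : Type*} [Field K] (G : Polynomial (Polynomial K)) :
    ∃ N : ℕ, (∀ a b : ℕ, (G.coeff b).coeff a ≠ 0 → a < N ∧ b < N) ∧
      ∀ x y : K, Polynomial.evalEval x y G =
        ∑ p ∈ Finset.range N ×ˢ Finset.range N, (G.coeff p.2).coeff p.1 * x ^ p.1 * y ^ p.2 := by
  set N : ℕ := G.natDegree + 1 + ∑ b ∈ Finset.range (G.natDegree + 1), ((G.coeff b).natDegree + 1)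
    with hN
  have hG : G.natDegree < N := by omega
  have hc : ∀ b, (G.coeff b).natDegree < N := by
    intro b
    by_cases hb : b < G.natDegree + 1
    · have : (G.coeff b).natDegree + 1 ≤
          ∑ b ∈ Finset.range (G.natDegree + 1), ((G.coeff b).natDegree + 1) :=
        Finset.single_le_sum (f := fun b => (G.coeff b).natDegree + 1) (fun _ _ => Nat.zero_le _)
          (Finset.mem_range.2 hb)
      omega
    · have : G.coeff b = 0 := Polynomial.coeff_eq_zero_of_natDegree_lt (by omega)
      rw [this, Polynomial.natDegree_zero]; omega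
  refine ⟨N, ?_, ?_⟩
  · intro a b hab
    constructor
    · by_contra hcon
      exact hab (Polynomial.coeff_eq_zero_of_natDegree_lt (lt_of_lt_of_le (hc b) (not_lt.1 hcon)))
    · by_contra hcon
      apply hab
      rw [Polynomial.coeff_eq_zero_of_natDegree_lt (lt_of_lt_of_le hG (not_lt.1 hcon))]
      simp
  · intro x y
    unfold Polynomial.evalEval
    rw [Polynomial.eval_eq_sum_range' hG, Polynomial.eval_finsetSum, Finset.sum_product_right]
    refine Finset.sum_congr rfl fun b _ => ?_
    rw [Polynomial.eval_mul, Polynomial.eval_pow, Polynomial.eval_C,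
      Polynomial.eval_eq_sum_range' (hc b), Finset.sum_mul]

theorem Indep_zero {K : Type*} [Field K] (G : Polynomial (Polynomial K)) (N : ℕ)
    (hN : ∀ a b : ℕ, (G.coeff b).coeff a ≠ 0 → a < N ∧ b < N)
    (h : ∀ a b : ℕ, a < N → b < N → (G.coeff b).coeff a = 0) : G = 0 := by
  ext b a
  simp only [Polynomial.coeff_zero]
  by_contra hcon
  obtain ⟨h1, h2⟩ := hN a b hcon
  exact hcon (h a b h1 h2)

theorem indep_two {K : Type*} [Field K] (l₁ l₂ k₁ k₂ : K) (h1 : l₁ ≠ 0) (h2 : l₂ ≠ 0)
    (hk1 : k₁ ≠ 0) (hk2 : k₂ ≠ 0) (hind : ∀ a b : ℤ, l₁ ^ a * l₂ ^ b = 1 → a = 0 ∧ b = 0)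
    (G : Polynomial (Polynomial K)) (hG : ∀ m : ℕ, Polynomial.evalEval (l₁ ^ m * k₁) (l₂ ^ m * k₂) G = 0) :
    G = 0 := by
  obtain ⟨N, hN, he⟩ := Indep_expand G
  have key := characters (Finset.range N ×ˢ Finset.range N) (fun p : ℕ × ℕ => l₁ ^ p.1 * l₂ ^ p.2)
    (fun p => (G.coeff p.2).coeff p.1 * k₁ ^ p.1 * k₂ ^ p.2) ?_ ?_
  · refine Indep_zero G N hN fun a b ha hb => ?_
    have := key (a, b) (Finset.mk_mem_product (Finset.mem_range.2 ha) (Finset.mem_range.2 hb))
    simp only [mul_eq_zero, pow_eq_zero_iff', hk1, hk2, false_and, or_false] at this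
    exact this
  · rintro ⟨a, b⟩ _ ⟨a', b'⟩ _ hab
    simp only at hab
    have h3 : l₁ ^ ((a : ℤ) - a') * l₂ ^ ((b : ℤ) - b') = 1 := by
      rw [zpow_sub₀ h1, zpow_sub₀ h2]
      simp only [zpow_natCast]
      have := pow_ne_zero a' h1
      have := pow_ne_zero b' h2
      field_simp
      exact hab
    obtain ⟨h4, h5⟩ := hind _ _ h3
    ext
    · simp only; omega
    · simp only; omega
  · intro m
    rw [← hG m, he]
    refine Finset.sum_congr rfl fun p _ => ?_
    rw [mul_pow, mul_pow, mul_pow, ← pow_mul, ← pow_mul, ← pow_mul, ← pow_mul, mul_comm p.1 m,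
      mul_comm p.2 m]
    ring

/-- the measure of the induction. -/
noncomputable def IndepMu {K : Type*} [Field K] (S : Finset ℕ) (q : ℕ → Polynomial K) : ℕ :=
  open Classical in ∑ s ∈ S, if q s = 0 then 0 else 1 + (q s).natDegree

theorem Indep_inj {K : Type*} [Field K] (l : K) (hl : l ≠ 0) (hr : ∀ k : ℕ, 1 ≤ k → l ^ k ≠ 1)
    (s t : ℕ) (h : l ^ s = l ^ t) : s = t := by
  wlog hst : s ≤ t generalizing s t
  · exact (this t s h.symm (by omega)).symm
  by_contra hne
  have h1 : l ^ t = l ^ s * l ^ (t - s) := by rw [← pow_add]; congr 1; omega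
  have h2 := pow_ne_zero s hl
  have h3 : l ^ (t - s) = 1 := by
    have : l ^ s * l ^ (t - s) = l ^ s * 1 := by rw [← h1, mul_one, h]
    exact mul_left_cancel₀ h2 this
  exact hr (t - s) (by omega) h3

theorem Indep_const {K : Type*} [Field K] [CharZero K] (q : Polynomial K)
    (h : Polynomial.taylor 1 q = q) : q = Polynomial.C (q.eval 0) := by
  have h1 : ∀ m : ℕ, q.eval (m : K) = q.eval 0 := by
    intro m
    induction m with
    | zero => simp
    | succ m ih =>
      rw [← ih]
      conv_rhs => rw [← h]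
      rw [Polynomial.taylor_eval]
      push_cast
      rfl
  apply Polynomial.eq_of_infinite_eval_eq
  refine Set.Infinite.mono ?_ (Set.infinite_range_of_injective (Nat.cast_injective (R := K)))
  rintro _ ⟨m, rfl⟩
  simp [h1 m]

theorem expPoly_zero {K : Type*} [Field K] [CharZero K] (l : K) (hl : l ≠ 0) (hr : ∀ k : ℕ, 1 ≤ k → l ^ k ≠ 1)
    (S : Finset ℕ) (q : ℕ → Polynomial K)
    (h : ∀ m : ℕ, ∑ s ∈ S, l ^ (m * s) * (q s).eval (m : K) = 0) : ∀ s ∈ S, q s = 0 := by
  classical
  induction hn : IndepMu S q using Nat.strong_induction_on generalizing q with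
  | _ n ih =>
    subst hn
    by_contra hcon
    push Not at hcon
    obtain ⟨s0, hs0, hq0⟩ := hcon
    set q' : ℕ → Polynomial K := fun s => Polynomial.C (l ^ s) * Polynomial.taylor 1 (q s) -
      Polynomial.C (l ^ s0) * q s with hq'
    have hsum : ∀ m : ℕ, ∑ s ∈ S, l ^ (m * s) * (q' s).eval (m : K) = 0 := by
      intro m
      have e1 := h (m + 1)
      have e2 := h m
      have : ∑ s ∈ S, l ^ (m * s) * (q' s).eval (m : K) =
          ∑ s ∈ S, l ^ ((m + 1) * s) * (q s).eval ((m + 1 : ℕ) : K) -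
            l ^ s0 * ∑ s ∈ S, l ^ (m * s) * (q s).eval (m : K) := by
        rw [Finset.mul_sum, ← Finset.sum_sub_distrib]
        refine Finset.sum_congr rfl fun s _ => ?_
        simp only [hq', Polynomial.eval_sub, Polynomial.eval_mul, Polynomial.eval_C,
          Polynomial.taylor_eval]
        push_cast
        ring
      rw [this, e1, e2]; simp
    have hdeg : ∀ s, (q' s).natDegree ≤ (q s).natDegree := by
      intro s
      refine (Polynomial.natDegree_sub_le _ _).trans (max_le ?_ ?_)
      · refine (Polynomial.natDegree_C_mul_le _ _).trans ?_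
        rw [Polynomial.natDegree_taylor]
      · exact Polynomial.natDegree_C_mul_le _ _
    have hcoef : ∀ s, (q' s).coeff (q s).natDegree = (l ^ s - l ^ s0) * (q s).leadingCoeff := by
      intro s
      simp only [hq', Polynomial.coeff_sub, Polynomial.coeff_C_mul]
      rw [Polynomial.coeff_taylor_natDegree]
      rw [Polynomial.leadingCoeff]
      ring
    have hz : ∀ s, q s = 0 → q' s = 0 := by
      intro s hs
      simp [hq', hs]
    have hnz : ∀ s, s ≠ s0 → q' s = 0 → q s = 0 := by
      intro s hs hs'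
      by_contra hqs
      have h1 := hcoef s
      rw [hs', Polynomial.coeff_zero] at h1
      rcases mul_eq_zero.1 h1.symm with h2 | h2
      · exact hs (Indep_inj l hl hr s s0 (sub_eq_zero.1 h2))
      · exact hqs (Polynomial.leadingCoeff_eq_zero.1 h2)
    have hlt : IndepMu S q' < IndepMu S q := by
      unfold IndepMu
      apply Finset.sum_lt_sum
      · intro s _
        by_cases h1 : q s = 0
        · rw [if_pos h1, if_pos (hz s h1)]
        · rw [if_neg h1]
          split_ifs with h2
          · omega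
          · have := hdeg s; omega
      · refine ⟨s0, hs0, ?_⟩
        rw [if_neg hq0]
        split_ifs with h2
        · omega
        · have h3 := hdeg s0
          have h4 := hcoef s0
          rw [sub_self, zero_mul] at h4
          have h5 : (q' s0).natDegree ≠ (q s0).natDegree := by
            intro h6
            rw [← h6] at h4
            exact h2 (Polynomial.leadingCoeff_eq_zero.1 h4)
          omega
    have hall := ih _ hlt q' hsum rfl
    have hother : ∀ s ∈ S, s ≠ s0 → q s = 0 := fun s hs hne => hnz s hne (hall s hs)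
    have hT : Polynomial.taylor 1 (q s0) = q s0 := by
      have h1 := hall s0 hs0
      simp only [hq'] at h1
      rw [← mul_sub] at h1
      rcases mul_eq_zero.1 h1 with h2 | h2
      · exact absurd (Polynomial.C_eq_zero.1 h2) (pow_ne_zero _ hl)
      · exact sub_eq_zero.1 h2
    have hC := Indep_const _ hT
    have h0 := h 0
    rw [Finset.sum_eq_single s0] at h0
    · simp only [zero_mul, pow_zero, one_mul, Nat.cast_zero] at h0
      apply hq0
      rw [hC, h0, Polynomial.C_0]
    · intro s hs hne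
      rw [hother s hs hne]; simp
    · intro hcon; exact absurd hs0 hcon

/-- powers of an affine polynomial are independent. -/
theorem Indep_aff {K : Type*} [Field K] (k' ρ : K) (hρ : ρ ≠ 0) {ι : Type*} (B : Finset ι)
    (e : ι → ℕ) (he : Set.InjOn e B) (c : ι → K)
    (h : ∑ i ∈ B, Polynomial.C (c i) * (Polynomial.C k' + Polynomial.C ρ * Polynomial.X) ^ e i = 0) :
    ∀ i ∈ B, c i = 0 := by
  intro i hi
  have h1 := congrArg (fun p : Polynomial K =>
    p.comp (Polynomial.C ρ⁻¹ * (Polynomial.X - Polynomial.C k'))) h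
  have h2 : (Polynomial.C k' + Polynomial.C ρ * Polynomial.X : Polynomial K).comp
      (Polynomial.C ρ⁻¹ * (Polynomial.X - Polynomial.C k')) = Polynomial.X := by
    simp only [Polynomial.add_comp, Polynomial.C_comp, Polynomial.mul_comp, Polynomial.X_comp]
    rw [← mul_assoc, ← Polynomial.C_mul, mul_inv_cancel₀ hρ, Polynomial.C_1]
    ring
  simp only [Polynomial.sum_comp, Polynomial.mul_comp, Polynomial.C_comp,
    Polynomial.pow_comp, h2, Polynomial.zero_comp] at h1
  have h3 := congrArg (fun p : Polynomial K => p.coeff (e i)) h1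
  simp only [Polynomial.finsetSum_coeff, Polynomial.coeff_C_mul, Polynomial.coeff_X_pow,
    Polynomial.coeff_zero] at h3
  rw [Finset.sum_eq_single i] at h3
  · simpa using h3
  · intro j hj hne
    rw [if_neg (fun hh : e i = e j => hne (he hj hi hh.symm)), mul_zero]
  · intro hcon; exact absurd hi hcon

theorem indep_jordan₁ {K : Type*} [Field K] [CharZero K] (l : K) (hl : l ≠ 0)
    (hr : ∀ k : ℕ, 1 ≤ k → l ^ k ≠ 1) (k k' ρ : K) (hk : k ≠ 0) (hρ : ρ ≠ 0)
    (G : Polynomial (Polynomial K))
    (hG : ∀ m : ℕ, Polynomial.evalEval (l ^ m * k) (l ^ m * (k' + m * ρ)) G = 0) : G = 0 := by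
  classical
  obtain ⟨N, hN, he⟩ := Indep_expand G
  set P : Finset (ℕ × ℕ) := Finset.range N ×ˢ Finset.range N with hP
  set q : ℕ → Polynomial K := fun s => ∑ p ∈ P with p.1 + p.2 = s,
    Polynomial.C ((G.coeff p.2).coeff p.1 * k ^ p.1) *
      (Polynomial.C k' + Polynomial.C ρ * Polynomial.X) ^ p.2 with hq
  have key := expPoly_zero l hl hr (Finset.range (2 * N)) q ?_
  · refine Indep_zero G N hN fun a b ha hb => ?_
    have h1 := key (a + b) (Finset.mem_range.2 (by omega))
    have h2 := Indep_aff k' ρ hρ (P.filter fun p => p.1 + p.2 = a + b) (fun p => p.2) ?_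
      (fun p => (G.coeff p.2).coeff p.1 * k ^ p.1) h1 (a, b) ?_
    · simp only [mul_eq_zero, pow_eq_zero_iff', hk, false_and, or_false] at h2
      exact h2
    · intro x hx y hy hxy
      simp only [Finset.coe_filter, Set.mem_ofPred_eq] at hx hy
      simp only at hxy
      ext
      · omega
      · exact hxy
    · simp [hP, ha, hb]
  · intro m
    rw [← hG m, he]
    have hmaps : ∀ p ∈ P, p.1 + p.2 ∈ Finset.range (2 * N) := by
      intro p hp
      simp only [hP, Finset.mem_product, Finset.mem_range] at hp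
      exact Finset.mem_range.2 (by omega)
    rw [← Finset.sum_fiberwise_of_maps_to hmaps]
    refine Finset.sum_congr rfl fun s _ => ?_
    simp only [hq, Polynomial.eval_finsetSum, Finset.mul_sum]
    refine Finset.sum_congr rfl fun p hp => ?_
    have hps := (Finset.mem_filter.1 hp).2
    rw [← hps]
    simp only [Polynomial.eval_mul, Polynomial.eval_C, Polynomial.eval_pow, Polynomial.eval_add,
      Polynomial.eval_X]
    rw [mul_pow, mul_pow, ← pow_mul, ← pow_mul, mul_add, pow_add, mul_comm (m : K) ρ]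
    ring

theorem indep_jordan₂ {K : Type*} [Field K] [CharZero K] (l : K) (hl : l ≠ 0)
    (hr : ∀ k : ℕ, 1 ≤ k → l ^ k ≠ 1) (k k' ρ : K) (hk : k ≠ 0) (hρ : ρ ≠ 0) (r : ℕ) (hr1 : 1 ≤ r)
    (G : Polynomial (Polynomial K))
    (hG : ∀ m : ℕ, Polynomial.evalEval (l ^ (r * m) * k) (k' + m * ρ) G = 0) : G = 0 := by
  obtain ⟨N, hN, he⟩ := Indep_expand G
  set q : ℕ → Polynomial K := fun a => ∑ b ∈ Finset.range N,
    Polynomial.C ((G.coeff b).coeff a * k ^ a) *
      (Polynomial.C k' + Polynomial.C ρ * Polynomial.X) ^ b with hq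
  have key := expPoly_zero (l ^ r) (pow_ne_zero _ hl)
    (fun k hk => by rw [← pow_mul]; exact hr _ (Nat.mul_pos hr1 hk)) (Finset.range N) q ?_
  · refine Indep_zero G N hN fun a b ha hb => ?_
    have h1 := key a (Finset.mem_range.2 ha)
    have h2 := Indep_aff k' ρ hρ (Finset.range N) (fun b => b) (fun x _ y _ h => h)
      (fun b => (G.coeff b).coeff a * k ^ a) h1 b (Finset.mem_range.2 hb)
    simp only [mul_eq_zero, pow_eq_zero_iff', hk, false_and, or_false] at h2
    exact h2
  · intro m
    rw [← hG m, he, Finset.sum_product]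
    refine Finset.sum_congr rfl fun a _ => ?_
    simp only [hq, Polynomial.eval_finsetSum, Finset.mul_sum]
    refine Finset.sum_congr rfl fun b hp => ?_
    simp only [Polynomial.eval_mul, Polynomial.eval_C, Polynomial.eval_pow, Polynomial.eval_add,
      Polynomial.eval_X]
    rw [mul_pow, ← pow_mul, ← pow_mul, mul_comm (m : K) ρ, mul_assoc r m a]
    ring

end ZD85
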