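import Pool.Agent.H85.ZD.Defs

/-!
# ZD Lead : leading forms with respect to real weights (row `Lead`)

`μ : Fin n → ℝ` weights, `Finsupp.weight μ α = ∑ α_i μ_i`.  `DegLe μ θ σ`: all monomials of `σ (X i)` have weight
`≤ θ μ_i`.  `lead μ θ σ` is the algebra endomorphism sending `X i` to the part of `σ (X i)` of weight exactly `θ μ_i`.

`lead_comp` (`θ > 0`): if all monomials of `F` have weight `≤ D` then those of `σ F` have weight `≤ θ D` and the part of
weight `θ D` of `σ F` is `lead` of the part of weight `D` of `F`.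
Proof: by linearity for a monomial `x^α`, `w = weight α ≤ D`.  `σ (x^α) = ∏ (σ X_i)^{α_i}`, where
`σ X_i = g_i + (terms of weight < θ μ_i)`; so all monomials have weight `≤ θ w` and the part of weight `θ w` is
`∏ g_i^{α_i}` (the rule: if `F, F'` have weights `≤ D, D'` then `F F'` has weights `≤ D + D'` and the `(D+D')`-part of
`F F'` is the product of the parts; powers and products by induction).  If `w = D` we are done; if `w < D` then
`θ w < θ D`, the `θ D`-part of `σ(x^α)` is `0` and the `D`-part of `x^α` is `0`.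

`lead_iter`: by induction with `F = (σ^m)(X i)`, `D = θ^m μ_i`.  (`σ^(m+1) = σ * σ^m`.)

`lead_homog`: `lead (X i)` is weighted homogeneous of weight `θ μ_i`; `lead_iter_homog`: `(lead)^m (X i)` is weighted
homogeneous of weight `θ^m μ_i`.

`lead_not_inj` (`μ_i ≥ 0`, some `μ_i > 0`, `θ > 1`): there is `Ψ ≠ 0` with `lead Ψ = 0`.
Proof.  Write `deg F = max` of the weights of the monomials of `F ≠ 0`.  If `lead` were injective, then
`deg (σ F) = θ deg F` for all `F ≠ 0` (`lead_comp` with `D = deg F`: the `θ D`-part of `σ F` is `lead (D-part of F) ≠ 0`).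
Take `i` with `μ_i > 0` and `F_m = (σ⁻¹)^m (X i)`; `θ^m deg F_m = deg (X i) = μ_i`, so `deg F_m = μ_i / θ^m > 0`.  But a
positive weight `∑ α_j μ_j` is at least the smallest positive `μ_j`: contradiction for large `m`.
-/

set_option autoImplicit false

namespace ZD85

open MvPolynomial

def DegLe {K : Type*} [Field K] {n : ℕ} (μ : Fin n → ℝ) (θ : ℝ) (σ : PAut K n) : Prop :=
  ∀ i, ∀ α ∈ (σ (X i)).support, Finsupp.weight μ α ≤ θ * μ i

noncomputable def lead {K : Type*} [Field K] {n : ℕ} (μ : Fin n → ℝ) (θ : ℝ) (σ : PAut K n) :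
    MvPolynomial (Fin n) K →ₐ[K] MvPolynomial (Fin n) K :=
  aeval (fun i => weightedHomogeneousComponent μ (θ * μ i) (σ (X i)))

section Lead_aux
variable {K : Type*} [Field K] {n : ℕ}

/-- weights at most `E` and `E`-part equal to `L`. -/
def Lead_P (μ : Fin n → ℝ) (E : ℝ) (G L : MvPolynomial (Fin n) K) : Prop :=
  (∀ α ∈ G.support, Finsupp.weight μ α ≤ E) ∧ weightedHomogeneousComponent μ E G = L

theorem Lead_mul {μ : Fin n → ℝ} {E E' : ℝ} {G G' L L' : MvPolynomial (Fin n) K}
    (h : Lead_P μ E G L) (h' : Lead_P μ E' G' L') : Lead_P μ (E + E') (G * G') (L * L') := by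
  classical
  obtain ⟨h1, rfl⟩ := h
  obtain ⟨h2, rfl⟩ := h'
  have z1 : ∀ α, E < Finsupp.weight μ α → coeff α G = 0 := fun α hα => by
    by_contra hne
    exact absurd (h1 α (mem_support_iff.2 hne)) (not_le.2 hα)
  have z2 : ∀ α, E' < Finsupp.weight μ α → coeff α G' = 0 := fun α hα => by
    by_contra hne
    exact absurd (h2 α (mem_support_iff.2 hne)) (not_le.2 hα)
  constructor
  · intro γ hγ
    have hm := support_mul G G' hγ
    rw [Finset.mem_add] at hm
    obtain ⟨a, ha, b, hb, rfl⟩ := hm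
    rw [map_add]
    exact add_le_add (h1 a ha) (h2 b hb)
  · ext γ
    rw [coeff_weightedHomogeneousComponent]
    split_ifs with hw
    · rw [coeff_mul, coeff_mul]
      refine Finset.sum_congr rfl fun p hp => ?_
      rw [Finset.HasAntidiagonal.mem_antidiagonal] at hp
      rw [coeff_weightedHomogeneousComponent, coeff_weightedHomogeneousComponent]
      have hs : Finsupp.weight μ p.1 + Finsupp.weight μ p.2 = E + E' := by
        rw [← map_add, hp, hw]
      by_cases e1 : Finsupp.weight μ p.1 = E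
      · have e2 : Finsupp.weight μ p.2 = E' := by linarith
        rw [if_pos e1, if_pos e2]
      · rw [if_neg e1, zero_mul]
        rcases lt_or_gt_of_ne e1 with hl | hl
        · rw [z2 p.2 (by linarith), mul_zero]
        · rw [z1 p.1 hl, zero_mul]
    · have hh := (weightedHomogeneousComponent_isWeightedHomogeneous (w := μ) E G).mul
        (weightedHomogeneousComponent_isWeightedHomogeneous (w := μ) E' G')
      exact (hh.coeff_eq_zero γ hw).symm

theorem Lead_one (μ : Fin n → ℝ) : Lead_P μ 0 (1 : MvPolynomial (Fin n) K) 1 := by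
  classical
  constructor
  · intro α hα
    have : α = 0 := by
      by_contra hne
      rw [mem_support_iff, coeff_one, if_neg (Ne.symm hne)] at hα
      exact hα rfl
    rw [this, map_zero]
  · exact (isWeightedHomogeneous_one K μ).weightedHomogeneousComponent_same

theorem Lead_pow {μ : Fin n → ℝ} {E : ℝ} {G L : MvPolynomial (Fin n) K}
    (h : Lead_P μ E G L) (k : ℕ) : Lead_P μ (k * E) (G ^ k) (L ^ k) := by
  induction k with
  | zero => simpa using Lead_one (K := K) μ
  | succ k ih =>
    rw [pow_succ, pow_succ]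
    have := Lead_mul ih h
    rwa [show ((k + 1 : ℕ) : ℝ) * E = k * E + E by push_cast; ring]

theorem Lead_prod {ι : Type*} (s : Finset ι) {μ : Fin n → ℝ} (E : ι → ℝ)
    (G L : ι → MvPolynomial (Fin n) K) (h : ∀ i ∈ s, Lead_P μ (E i) (G i) (L i)) :
    Lead_P μ (∑ i ∈ s, E i) (∏ i ∈ s, G i) (∏ i ∈ s, L i) := by
  classical
  induction s using Finset.induction_on with
  | empty => simpa using Lead_one (K := K) μ
  | insert a s ha ih =>
    rw [Finset.sum_insert ha, Finset.prod_insert ha, Finset.prod_insert ha]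
    exact Lead_mul (h a (Finset.mem_insert_self _ _)) (ih fun i hi => h i (Finset.mem_insert_of_mem hi))

theorem Lead_add {μ : Fin n → ℝ} {E : ℝ} {G G' L L' : MvPolynomial (Fin n) K}
    (h : Lead_P μ E G L) (h' : Lead_P μ E G' L') : Lead_P μ E (G + G') (L + L') := by
  classical
  refine ⟨fun α hα => ?_, by rw [map_add, h.2, h'.2]⟩
  rcases Finset.mem_union.1 (support_add hα) with h1 | h1
  · exact h.1 α h1
  · exact h'.1 α h1

theorem Lead_zero (μ : Fin n → ℝ) (E : ℝ) : Lead_P μ E (0 : MvPolynomial (Fin n) K) 0 :=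
  ⟨fun α hα => by simp at hα, map_zero _⟩

theorem Lead_smul {μ : Fin n → ℝ} {E : ℝ} {G L : MvPolynomial (Fin n) K}
    (h : Lead_P μ E G L) (c : K) : Lead_P μ E (c • G) (c • L) := by
  refine ⟨fun α hα => ?_, by rw [map_smul, h.2]⟩
  exact h.1 α (support_smul hα)

theorem Lead_sum {ι : Type*} (s : Finset ι) {μ : Fin n → ℝ} (E : ℝ)
    (G L : ι → MvPolynomial (Fin n) K) (h : ∀ i ∈ s, Lead_P μ E (G i) (L i)) :
    Lead_P μ E (∑ i ∈ s, G i) (∑ i ∈ s, L i) := by
  classical
  induction s using Finset.induction_on with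
  | empty => simpa using Lead_zero (K := K) μ E
  | insert a s ha ih =>
    rw [Finset.sum_insert ha, Finset.sum_insert ha]
    exact Lead_add (h a (Finset.mem_insert_self _ _)) (ih fun i hi => h i (Finset.mem_insert_of_mem hi))

theorem Lead_lt {μ : Fin n → ℝ} {E E' : ℝ} {G L : MvPolynomial (Fin n) K}
    (h : Lead_P μ E G L) (hE : E < E') : Lead_P μ E' G 0 := by
  classical
  refine ⟨fun α hα => (h.1 α hα).trans hE.le, ?_⟩
  ext α
  rw [coeff_weightedHomogeneousComponent, coeff_zero]
  split_ifs with hw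
  · by_contra hne
    have := h.1 α (mem_support_iff.2 hne)
    linarith
  · rfl

theorem Lead_weight (μ : Fin n → ℝ) (α : Fin n →₀ ℕ) : Finsupp.weight μ α = ∑ i, (α i : ℝ) * μ i := by
  rw [Finsupp.weight_apply, Finsupp.sum_fintype]
  · simp
  · simp

theorem Lead_monomial (α : Fin n →₀ ℕ) (c : K) :
    (monomial α c : MvPolynomial (Fin n) K) = c • ∏ i, X i ^ α i := by
  rw [monomial_eq, smul_eq_C_mul, Finsupp.prod_fintype]
  simp

/-- leading part of the image of a monomial. -/
theorem Lead_mon (μ : Fin n → ℝ) (θ : ℝ) (σ : PAut K n) (h : DegLe μ θ σ) (α : Fin n →₀ ℕ) (c : K) :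
    Lead_P μ (θ * Finsupp.weight μ α) (σ (monomial α c)) (lead μ θ σ (monomial α c)) := by
  have h1 : Lead_P μ (∑ i, (α i : ℝ) * (θ * μ i)) (∏ i, σ (X i) ^ α i)
      (∏ i, (weightedHomogeneousComponent μ (θ * μ i) (σ (X i))) ^ α i) :=
    Lead_prod Finset.univ (fun i => (α i : ℝ) * (θ * μ i)) _ _ fun i _ => Lead_pow ⟨h i, rfl⟩ (α i)
  have h2 : ∑ i, (α i : ℝ) * (θ * μ i) = θ * Finsupp.weight μ α := by
    rw [Lead_weight, Finset.mul_sum]
    exact Finset.sum_congr rfl fun i _ => by ring
  rw [h2] at h1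
  rw [Lead_monomial, map_smul, map_smul, map_prod, map_prod]
  simp only [map_pow]
  have h3 : ∀ i, lead μ θ σ (X i) = weightedHomogeneousComponent μ (θ * μ i) (σ (X i)) := fun i => by
    unfold lead
    rw [aeval_X]
  simp only [h3]
  exact Lead_smul h1 c

end Lead_aux

theorem lead_comp {K : Type*} [Field K] {n : ℕ} (μ : Fin n → ℝ) (θ : ℝ) (hθ : 0 < θ) (σ : PAut K n)
    (h : DegLe μ θ σ) (D : ℝ) (F : MvPolynomial (Fin n) K) (hF : ∀ α ∈ F.support, Finsupp.weight μ α ≤ D) :
    (∀ α ∈ (σ F).support, Finsupp.weight μ α ≤ θ * D) ∧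
      weightedHomogeneousComponent μ (θ * D) (σ F) = lead μ θ σ (weightedHomogeneousComponent μ D F) := by
  classical
  have key : Lead_P μ (θ * D) (∑ α ∈ F.support, σ (monomial α (coeff α F)))
      (∑ α ∈ F.support, lead μ θ σ (weightedHomogeneousComponent μ D (monomial α (coeff α F)))) := by
    refine Lead_sum _ _ _ _ fun α hα => ?_
    have hm := Lead_mon μ θ σ h α (coeff α F)
    rcases (hF α hα).lt_or_eq with hlt | heq
    · have : weightedHomogeneousComponent μ D (monomial α (coeff α F)) = 0 :=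
        (isWeightedHomogeneous_monomial μ α (coeff α F) rfl).weightedHomogeneousComponent_ne D hlt.ne'
      rw [this, map_zero]
      exact Lead_lt hm (mul_lt_mul_of_pos_left hlt hθ)
    · have : weightedHomogeneousComponent μ D (monomial α (coeff α F)) = monomial α (coeff α F) :=
        (isWeightedHomogeneous_monomial μ α (coeff α F) heq).weightedHomogeneousComponent_same
      rw [this]
      rwa [heq] at hm
  rw [← map_sum, ← map_sum, ← map_sum, support_sum_monomial_coeff] at key
  exact key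

theorem lead_iter {K : Type*} [Field K] {n : ℕ} (μ : Fin n → ℝ) (θ : ℝ) (hθ : 0 < θ) (σ : PAut K n)
    (h : DegLe μ θ σ) (m : ℕ) (i : Fin n) :
    (∀ α ∈ ((σ ^ m) (X i)).support, Finsupp.weight μ α ≤ θ ^ m * μ i) ∧
      weightedHomogeneousComponent μ (θ ^ m * μ i) ((σ ^ m) (X i)) = (lead μ θ σ)^[m] (X i) := by
  classical
  induction m with
  | zero =>
    have hX := isWeightedHomogeneous_X K μ i
    simp only [pow_zero, one_mul, AlgEquiv.one_apply, Function.iterate_zero, id_eq]
    refine ⟨fun α hα => (hX (mem_support_iff.1 hα)).le, hX.weightedHomogeneousComponent_same⟩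
  | succ m ih =>
    have := lead_comp μ θ hθ σ h (θ ^ m * μ i) ((σ ^ m) (X i)) ih.1
    rw [ih.2, ← Function.iterate_succ_apply' (lead μ θ σ) m, ← mul_assoc, ← pow_succ'] at this
    rw [pow_succ' σ m]
    exact this

theorem lead_iter_homog {K : Type*} [Field K] {n : ℕ} (μ : Fin n → ℝ) (θ : ℝ) (σ : PAut K n)
    (m : ℕ) (i : Fin n) : ((lead μ θ σ)^[m] (X i)).IsWeightedHomogeneous μ (θ ^ m * μ i) := by
  classical
  have key : ∀ (D : ℝ) (F : MvPolynomial (Fin n) K), F.IsWeightedHomogeneous μ D →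
      (lead μ θ σ F).IsWeightedHomogeneous μ (θ * D) := by
    intro D F hF
    rw [← support_sum_monomial_coeff F, map_sum]
    refine IsWeightedHomogeneous.sum _ _ _ fun α hα => ?_
    rw [Lead_monomial, map_smul, map_prod, smul_eq_C_mul]
    refine IsWeightedHomogeneous.C_mul ?_ _
    have hp := IsWeightedHomogeneous.prod (w := μ) Finset.univ
      (fun j => lead μ θ σ (X j ^ α j)) (fun j => α j • (θ * μ j)) fun j _ => by
        rw [map_pow]
        refine IsWeightedHomogeneous.pow ?_ _
        unfold lead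
        rw [aeval_X]
        exact weightedHomogeneousComponent_isWeightedHomogeneous _ _
    have hs : ∑ j, α j • (θ * μ j) = θ * D := by
      rw [← hF (mem_support_iff.1 hα), Lead_weight, Finset.mul_sum]
      refine Finset.sum_congr rfl fun j _ => ?_
      rw [nsmul_eq_mul]
      ring
    rwa [hs] at hp
  induction m with
  | zero =>
    simpa using isWeightedHomogeneous_X K μ i
  | succ m ih =>
    rw [Function.iterate_succ_apply', pow_succ', mul_assoc]
    exact key _ _ ih

theorem lead_not_inj {K : Type*} [Field K] {n : ℕ} (μ : Fin n → ℝ) (hμ : ∀ i, 0 ≤ μ i)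
    (hW : ∃ i, 0 < μ i) (θ : ℝ) (hθ : 1 < θ) (σ : PAut K n) (h : DegLe μ θ σ) :
    ∃ Ψ : MvPolynomial (Fin n) K, Ψ ≠ 0 ∧ lead μ θ σ Ψ = 0 := by
  classical
  by_contra hcon
  push Not at hcon
  have hθ0 : 0 < θ := by linarith
  -- degree relation
  let Dg : MvPolynomial (Fin n) K → ℝ → Prop := fun F D =>
    (∀ α ∈ F.support, Finsupp.weight μ α ≤ D) ∧ ∃ α ∈ F.support, Finsupp.weight μ α = D
  have ex : ∀ F : MvPolynomial (Fin n) K, F ≠ 0 → ∃ D, Dg F D := by
    intro F hF
    have hne : F.support.Nonempty := by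
      rwa [Finset.nonempty_iff_ne_empty, Ne, support_eq_empty]
    obtain ⟨α, hα, hmax⟩ := Finset.exists_max_image F.support (fun α => Finsupp.weight μ α) hne
    exact ⟨Finsupp.weight μ α, hmax, α, hα, rfl⟩
  have uniq : ∀ (F : MvPolynomial (Fin n) K) (D D' : ℝ), Dg F D → Dg F D' → D = D' := by
    rintro F D D' ⟨h1, α, hα, rfl⟩ ⟨h2, β, hβ, rfl⟩
    exact le_antisymm (h2 α hα) (h1 β hβ)
  have step : ∀ (F : MvPolynomial (Fin n) K) (D : ℝ), Dg F D → Dg (σ F) (θ * D) := by
    rintro F D ⟨h1, α, hα, rfl⟩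
    obtain ⟨g1, g2⟩ := lead_comp μ θ hθ0 σ h _ F h1
    refine ⟨g1, ?_⟩
    have hne : weightedHomogeneousComponent μ (Finsupp.weight μ α) F ≠ 0 := by
      intro h0
      have := congrArg (coeff α) h0
      rw [coeff_weightedHomogeneousComponent, if_pos rfl, coeff_zero] at this
      exact mem_support_iff.1 hα this
    have hne2 := hcon _ hne
    rw [← g2] at hne2
    obtain ⟨β, hβ⟩ := exists_coeff_ne_zero hne2
    rw [coeff_weightedHomogeneousComponent] at hβ
    by_cases hw : Finsupp.weight μ β = θ * Finsupp.weight μ α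
    · rw [if_pos hw] at hβ
      exact ⟨β, mem_support_iff.2 hβ, hw⟩
    · rw [if_neg hw] at hβ
      exact absurd rfl hβ
  have steps : ∀ (m : ℕ) (F : MvPolynomial (Fin n) K) (D : ℝ), Dg F D →
      Dg ((σ ^ m) F) (θ ^ m * D) := by
    intro m F D hD
    induction m with
    | zero => simpa using hD
    | succ m ih =>
      have := step _ _ ih
      rw [← mul_assoc, ← pow_succ'] at this
      rw [pow_succ' σ m]
      exact this
  -- smallest positive weight
  obtain ⟨i, hi⟩ := hW
  have hne : (Finset.univ.filter (fun j => 0 < μ j)).Nonempty := ⟨i, by simp [hi]⟩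
  obtain ⟨j0, hj0, hmin⟩ := Finset.exists_min_image _ μ hne
  rw [Finset.mem_filter] at hj0
  have hc : ∀ α : Fin n →₀ ℕ, 0 < Finsupp.weight μ α → μ j0 ≤ Finsupp.weight μ α := by
    intro α hα
    rw [Lead_weight] at hα ⊢
    have : ∃ j, 0 < (α j : ℝ) * μ j := by
      by_contra hno
      push Not at hno
      have := Finset.sum_nonpos fun j (_ : j ∈ (Finset.univ : Finset (Fin n))) => hno j
      linarith
    obtain ⟨j, hj⟩ := this
    have hμj : 0 < μ j := by
      rcases (hμ j).lt_or_eq with h1 | h1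
      · exact h1
      · rw [← h1, mul_zero] at hj
        exact absurd hj (lt_irrefl _)
    have hαj : (1 : ℝ) ≤ α j := by
      have : α j ≠ 0 := by
        intro h0
        rw [h0, Nat.cast_zero, zero_mul] at hj
        exact absurd hj (lt_irrefl _)
      exact_mod_cast Nat.one_le_iff_ne_zero.2 this
    calc μ j0 ≤ μ j := hmin j (by simp [hμj])
      _ ≤ (α j : ℝ) * μ j := le_mul_of_one_le_left hμj.le hαj
      _ ≤ ∑ j, (α j : ℝ) * μ j :=
        Finset.single_le_sum (f := fun j => (α j : ℝ) * μ j)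
          (fun j _ => mul_nonneg (Nat.cast_nonneg _) (hμ j)) (Finset.mem_univ j)
  have hX : Dg (X i) (μ i) := by
    have hX := isWeightedHomogeneous_X K μ i
    refine ⟨fun α hα => (hX (mem_support_iff.1 hα)).le, Finsupp.single i 1, ?_, ?_⟩
    · rw [mem_support_iff, coeff_X, if_pos rfl]
      exact one_ne_zero
    · refine hX ?_
      rw [coeff_X, if_pos rfl]
      exact one_ne_zero
  -- contradiction
  obtain ⟨m, hm⟩ := pow_unbounded_of_one_lt (μ i / μ j0) hθ
  have hF0 : ((σ ^ m)⁻¹ : PAut K n) (X i) ≠ 0 := by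
    intro h0
    have h1 := congrArg (σ ^ m : PAut K n) h0
    rw [← AlgEquiv.mul_apply, mul_inv_cancel, map_zero] at h1
    exact X_ne_zero i h1
  obtain ⟨D, hD⟩ := ex _ hF0
  have h1 := steps m _ _ hD
  rw [← AlgEquiv.mul_apply, mul_inv_cancel] at h1
  have h2 := uniq _ _ _ h1 hX
  have hpm : 0 < θ ^ m := pow_pos hθ0 m
  have hDpos : 0 < D := by
    by_contra hneg
    push Not at hneg
    have : θ ^ m * D ≤ 0 := mul_nonpos_of_nonneg_of_nonpos hpm.le hneg
    linarith
  obtain ⟨_, α, _, hα⟩ := hD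
  have h3 := hc α (by rw [hα]; exact hDpos)
  rw [hα] at h3
  rw [div_lt_iff₀ hj0.2] at hm
  have : θ ^ m * μ j0 ≤ θ ^ m * D := mul_le_mul_of_nonneg_left h3 hpm.le
  linarith

end ZD85
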