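import Pool.Agent.H85.ZD.Crit
import Pool.Agent.H85.ZD.Indep

/-!
# ZD LfA : two independent eigenfunctions, or an eigenfunction and a Jordan block (row `LfA`)

`zdo_eig_two`: `σ F_i = C l_i * F_i`, `F_i ≠ 0`, `l₁, l₂` multiplicatively independent.  Then `Zdo σ`.
Proof: `thmA3`.  Given `H ≠ 0` choose `P` with `(H F₁ F₂)(P) ≠ 0` (`K` is infinite, `MvPolynomial.funext`).
The value of `F_i` at `orb σ P m` is `l_i^m F_i(P)` (`eval_orb_succ`, induction).  `l_i ≠ 0` since `σ F_i ≠ 0`.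
`indep_two` and `pairInd_of_indep` give `PairInd σ P`.

`zdo_eig_jordan`: `σ F₁ = C l₁ * F₁`, `F₁ ≠ 0`, `l₁` not a root of unity, and `σ F' = C l * F'`, `F' ≠ 0`,
`σ F = C l * F + F'`.  Then `Zdo σ`.
Proof: choose `P` with `(H F₁ F')(P) ≠ 0`; let `κ = F'(P) ≠ 0`, `κ' = F(P)`.  Values at `orb m`: `F' ↦ l^m κ`,
`F ↦ l^m κ' + m l^(m-1) κ = l^m (κ' + m (κ / l))`.
Case `l` is not a root of unity: `indep_jordan₁` for the pair `(F', F)`.
Case `l^r = 1`, `r ≥ 1`: consider `m = r m'`: `F ↦ κ' + m' (r κ / l)`, `F₁ ↦ l₁^(r m') F₁(P)`; `indep_jordan₂`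
(`ρ = r κ / l ≠ 0` in characteristic 0).
In both cases `pairInd_of_indep` gives `PairInd σ P`; conclude with `thmA3`.
-/

set_option autoImplicit false

namespace ZD85

open MvPolynomial

theorem LfA_eval {K : Type*} [Field K] (σ : PAut K 3) (P : Fin 3 → K) (F : MvPolynomial (Fin 3) K)
    (l : K) (h : σ F = C l * F) (m : ℕ) : eval (orb σ P m) F = l ^ m * eval P F := by
  induction m with
  | zero => simp [orb_zero]
  | succ m ih => rw [eval_orb_succ, h, map_mul, eval_C, ih, pow_succ]; ring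

theorem LfA_ne {K : Type*} [Field K] (σ : PAut K 3) (F : MvPolynomial (Fin 3) K) (hF : F ≠ 0)
    (l : K) (h : σ F = C l * F) : l ≠ 0 := by
  rintro rfl
  rw [C_0, zero_mul] at h
  exact hF ((map_eq_zero_iff σ σ.injective).1 h)

theorem LfA_pt {K : Type*} [Field K] [CharZero K] (Q : MvPolynomial (Fin 3) K) (hQ : Q ≠ 0) :
    ∃ P : Fin 3 → K, eval P Q ≠ 0 := by
  by_contra h
  push Not at h
  exact hQ (MvPolynomial.funext fun x => by rw [h x, map_zero])

theorem LfA_jordan {K : Type*} [Field K] (σ : PAut K 3) (P : Fin 3 → K)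
    (F F' : MvPolynomial (Fin 3) K) (l : K) (hl : l ≠ 0) (h' : σ F' = C l * F')
    (hF : σ F = C l * F + F') (m : ℕ) :
    eval (orb σ P m) F = l ^ m * (eval P F + m * (eval P F' / l)) := by
  induction m with
  | zero => simp [orb_zero]
  | succ m ih =>
    rw [eval_orb_succ, hF, map_add, map_mul, eval_C, ih, LfA_eval σ P F' l h' m, pow_succ]
    push_cast
    field_simp
    ring

theorem zdo_eig_two {K : Type*} [Field K] [CharZero K] (σ : PAut K 3)
    (F₁ F₂ : MvPolynomial (Fin 3) K) (l₁ l₂ : K) (hF1 : F₁ ≠ 0) (hF2 : F₂ ≠ 0)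
    (h1 : σ F₁ = C l₁ * F₁) (h2 : σ F₂ = C l₂ * F₂)
    (hind : ∀ a b : ℤ, l₁ ^ a * l₂ ^ b = 1 → a = 0 ∧ b = 0) : Zdo σ := by
  apply thmA3
  intro H hH
  obtain ⟨P, hP⟩ := LfA_pt (H * F₁ * F₂) (mul_ne_zero (mul_ne_zero hH hF1) hF2)
  rw [map_mul, map_mul] at hP
  have hP2 := right_ne_zero_of_mul hP
  have hP1 := right_ne_zero_of_mul (left_ne_zero_of_mul hP)
  have hP0 := left_ne_zero_of_mul (left_ne_zero_of_mul hP)
  refine ⟨P, hP0, pairInd_of_indep σ P F₁ F₂ ?_⟩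
  intro G hG
  by_contra hcon
  push Not at hcon
  apply hG
  refine indep_two l₁ l₂ (eval P F₁) (eval P F₂) (LfA_ne σ F₁ hF1 l₁ h1) (LfA_ne σ F₂ hF2 l₂ h2)
    hP1 hP2 hind G ?_
  intro m
  rw [← LfA_eval σ P F₁ l₁ h1 m, ← LfA_eval σ P F₂ l₂ h2 m]
  exact hcon m

theorem zdo_eig_jordan {K : Type*} [Field K] [CharZero K] (σ : PAut K 3)
    (F₁ F F' : MvPolynomial (Fin 3) K) (l₁ l : K) (hF1 : F₁ ≠ 0) (hF' : F' ≠ 0)
    (h1 : σ F₁ = C l₁ * F₁) (hl1 : ∀ k : ℕ, 1 ≤ k → l₁ ^ k ≠ 1)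
    (h' : σ F' = C l * F') (hF : σ F = C l * F + F') : Zdo σ := by
  have hl := LfA_ne σ F' hF' l h'
  have hl1' := LfA_ne σ F₁ hF1 l₁ h1
  apply thmA3
  intro H hH
  obtain ⟨P, hP⟩ := LfA_pt (H * F₁ * F') (mul_ne_zero (mul_ne_zero hH hF1) hF')
  rw [map_mul, map_mul] at hP
  have hP2 := right_ne_zero_of_mul hP
  have hP1 := right_ne_zero_of_mul (left_ne_zero_of_mul hP)
  have hP0 := left_ne_zero_of_mul (left_ne_zero_of_mul hP)
  refine ⟨P, hP0, ?_⟩
  by_cases hroot : ∀ k : ℕ, 1 ≤ k → l ^ k ≠ 1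
  · refine pairInd_of_indep σ P F' F ?_
    intro G hG
    by_contra hcon
    push Not at hcon
    apply hG
    refine indep_jordan₁ l hl hroot (eval P F') (eval P F) (eval P F' / l) hP2
      (div_ne_zero hP2 hl) G ?_
    intro m
    rw [← LfA_eval σ P F' l h' m, ← LfA_jordan σ P F F' l hl h' hF m]
    exact hcon m
  · push Not at hroot
    obtain ⟨r, hr1, hr⟩ := hroot
    refine pairInd_of_indep σ P F₁ F ?_
    intro G hG
    by_contra hcon
    push Not at hcon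
    apply hG
    have hr0 : (r : K) ≠ 0 := Nat.cast_ne_zero.2 (by omega)
    refine indep_jordan₂ l₁ hl1' hl1 (eval P F₁) (eval P F) (r * (eval P F' / l)) hP1
      (mul_ne_zero hr0 (div_ne_zero hP2 hl)) r hr1 G ?_
    intro m
    have e1 := LfA_eval σ P F₁ l₁ h1 (r * m)
    have e2 := LfA_jordan σ P F F' l hl h' hF (r * m)
    rw [pow_mul, hr, one_pow, one_mul] at e2
    have e3 : eval P F + (m : K) * (r * (eval P F' / l)) =
        eval P F + ((r * m : ℕ) : K) * (eval P F' / l) := by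
      push_cast
      ring
    rw [← e1, e3, ← e2]
    exact hcon (r * m)

end ZD85
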