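import Pool.Agent.H85.ZD.Defs

/-!
# ZD LfB : invariants of locally finite automorphisms (row `LfB`)

`V` a finite-dimensional `σ`-stable space of polynomials containing `1` and the coordinates.

`hasInv_semisimple`: `V` (or just a subspace `W` spanned by eigenvectors and containing the coordinates `X 0, X 1, X 2`)
and any two eigenvalues are multiplicatively dependent.  Precisely: `T` is a set of polynomials `F ≠ 0` with
`σ F = C (l F) * F`, the coordinates lie in the `K`-span of `T`, and for `F, G ∈ T` there is `(a, b) ≠ (0, 0)` in `ℤ²` with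
`(l F)^a * (l G)^b = 1`.  Then `HasInv σ`.
Proof: `T` generates the algebra `MvPolynomial (Fin 3) K`, so it contains a transcendence basis
(`exists_isTranscendenceBasis_subset`), which has `3 ≥ 2` elements; take two of them, `F ≠ G`, algebraically independent.
With `a, b` as above let `A = F^{a⁺} G^{b⁺}`, `B = F^{a⁻} G^{b⁻}` (positive and negative parts, as naturals).
`σ A * B = C((l F)^{a⁺} (l G)^{b⁺}) A B`, `A * σ B = C((l F)^{a⁻} (l G)^{b⁻}) A B`, equal constants.
`A ≠ C c * B` for all `c`: otherwise a non-trivial relation between `F` and `G` (two different monomials as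
`(a, b) ≠ 0`; or `c = 0` and `A = 0`).

`hasInv_roots`: all eigenvalues of `σ` on `V` are roots of unity (`V` finite-dimensional, `σ V ⊆ V`, `1 ∈ V`,
coordinates in `V`, `K` algebraically closed of characteristic 0).  Then `HasInv σ`.
Proof.  (i) If `V` contains a non-constant eigenvector `F`, `σ F = C l * F`, `l^k = 1`, `k ≥ 1`, then `F^k` is invariant
and not constant: `A = F^k`, `B = 1`.  (ii) Otherwise all eigenvectors in `V` are constants, so the only eigenvalue is
`1` (`σ c = c`), `σ - 1` is nilpotent on `V` (`K` algebraically closed; `Module.End.iSup_maxGenEigenspace_eq_top`, all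
generalised eigenspaces for `μ ≠ 1` are zero) and `ker (σ - 1) ∩ V = K`.  Take a coordinate `X 0 ∈ V`, not constant, and
`k ≥ 2` minimal with `(σ - 1)^k X 0 = 0`; `G = (σ - 1)^{k-2} X 0` has `(σ-1) G = c ≠ 0` constant.  `t = C c⁻¹ * G`,
`σ t = t + 1`.
(iii) Claim: every `F ∈ V` is a polynomial in `t`, or `HasInv σ`.  Induction on `k` with `(σ - 1)^k F = 0`:
`(σ - 1) F = aeval t q` for some `q ∈ K[X]`; there is `Q ∈ K[X]` with `Q(X + 1) - Q(X) = q` (characteristic 0; prove by
strong induction on the degree: `(X+1)^{d+1} - X^{d+1}` has leading term `(d+1) X^d`).  `F - aeval t Q` is `σ`-invariant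
(`σ (aeval t Q) = aeval (t+1) Q`).  If it is not constant we are done (`B = 1`); else `F = aeval t (Q + C c)`.
(iv) So `X 0` and `X 1` are both polynomials in `t`, so they are algebraically dependent over `K`
(transcendence degree of `Algebra.adjoin K {t}` is `≤ 1`; or: the range of `Polynomial K → MvPolynomial (Fin 3) K`;
two polynomials `q₀, q₁` in one variable are algebraically dependent), against the independence of `X 0, X 1`.
-/

set_option autoImplicit false

namespace ZD85

open MvPolynomial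

section part1

theorem LfB_mon {K : Type*} [Field K] (F G : MvPolynomial (Fin 3) K)
    (hFG : AlgebraicIndependent K ![F, G]) (a b a' b' : ℕ) (c : K)
    (h : F ^ a * G ^ b = C c * (F ^ a' * G ^ b')) : a = a' ∧ b = b' := by
  classical
  by_contra hne
  let P : MvPolynomial (Fin 2) K := monomial (Finsupp.single 0 a + Finsupp.single 1 b) 1 -
    C c * monomial (Finsupp.single 0 a' + Finsupp.single 1 b') 1
  have hm : ∀ p q : ℕ, aeval ![F, G] (monomial (Finsupp.single (0 : Fin 2) p + Finsupp.single 1 q)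
      (1 : K)) = F ^ p * G ^ q := by
    intro p q
    rw [aeval_monomial, map_one, one_mul, Finsupp.prod_add_index' (by simp) (by intro i m n; rw [pow_add]),
      Finsupp.prod_single_index (by simp), Finsupp.prod_single_index (by simp)]
    simp
  have hP : aeval ![F, G] P = 0 := by
    show aeval ![F, G] (monomial (Finsupp.single 0 a + Finsupp.single 1 b) (1 : K) -
      C c * monomial (Finsupp.single 0 a' + Finsupp.single 1 b') 1) = 0
    rw [map_sub, map_mul, hm, hm, h]
    simp [algebraMap_eq]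
  have hP0 : P = 0 := (algebraicIndependent_iff.1 hFG) P hP
  have h1 : coeff (Finsupp.single 0 a + Finsupp.single 1 b) P = 1 := by
    show coeff _ (monomial (Finsupp.single (0 : Fin 2) a + Finsupp.single 1 b) (1 : K) -
      C c * monomial (Finsupp.single 0 a' + Finsupp.single 1 b') 1) = 1
    rw [coeff_sub, coeff_C_mul, coeff_monomial, coeff_monomial, if_pos rfl, if_neg, mul_zero, sub_zero]
    intro h2
    apply hne
    have e0 := DFunLike.congr_fun h2 (0 : Fin 2)
    have e1 := DFunLike.congr_fun h2 (1 : Fin 2)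
    simp at e0 e1
    exact ⟨e0.symm, e1.symm⟩
  rw [hP0] at h1
  simp at h1

theorem LfB_pair {K : Type*} [Field K] (T : Set (MvPolynomial (Fin 3) K))
    (hX : ∀ i : Fin 3, (X i : MvPolynomial (Fin 3) K) ∈ Submodule.span K T) :
    ∃ F ∈ T, ∃ G ∈ T, AlgebraicIndependent K ![F, G] := by
  classical
  have htop : Algebra.adjoin K T = ⊤ := by
    rw [eq_top_iff, ← MvPolynomial.adjoin_range_X]
    apply Algebra.adjoin_le
    rintro _ ⟨i, rfl⟩
    exact Algebra.span_le_adjoin K T (hX i)
  haveI : Algebra.IsAlgebraic (Algebra.adjoin K T) (MvPolynomial (Fin 3) K) := by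
    constructor
    intro x
    have hx : x ∈ Algebra.adjoin K T := by rw [htop]; trivial
    exact isAlgebraic_algebraMap (⟨x, hx⟩ : Algebra.adjoin K T)
  obtain ⟨t, htT, hb⟩ := exists_isTranscendenceBasis_subset (R := K) T
  have hc := hb.cardinalMk_eq_trdeg
  rw [MvPolynomial.trdeg_of_isDomain] at hc
  have hnt : Nontrivial t := by
    rw [← Cardinal.one_lt_iff_nontrivial, hc]
    simp
  obtain ⟨F, G, hne⟩ := hnt
  refine ⟨F.1, htT F.2, G.1, htT G.2, ?_⟩
  have h1 := hb.1.comp ![F, G] (by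
    intro i j hij
    fin_cases i <;> fin_cases j <;> simp_all)
  have h2 : (Subtype.val ∘ ![F, G] : Fin 2 → MvPolynomial (Fin 3) K) = ![F.1, G.1] := by
    ext i
    fin_cases i <;> rfl
  rw [h2] at h1
  exact h1

end part1

theorem hasInv_semisimple {K : Type*} [Field K] (σ : PAut K 3)
    (T : Set (MvPolynomial (Fin 3) K)) (l : MvPolynomial (Fin 3) K → K)
    (h0 : ∀ F ∈ T, F ≠ 0) (h1 : ∀ F ∈ T, σ F = C (l F) * F)
    (hX : ∀ i : Fin 3, (X i : MvPolynomial (Fin 3) K) ∈ Submodule.span K T)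
    (hdep : ∀ F ∈ T, ∀ G ∈ T, ∃ a b : ℤ, (a, b) ≠ (0, 0) ∧ (l F) ^ a * (l G) ^ b = 1) :
    HasInv σ := by
  obtain ⟨F, hF, G, hG, hFG⟩ := LfB_pair T hX
  obtain ⟨a, b, hab, hl⟩ := hdep F hF G hG
  have hlF : ∀ F ∈ T, l F ≠ 0 := by
    intro F hF hz
    have h2 := h1 F hF
    rw [hz, C_0, zero_mul] at h2
    exact h0 F hF (by
      have := σ.injective (a₁ := F) (a₂ := 0) (by rw [h2, map_zero])
      exact this)
  have hF0 := h0 F hF
  have hG0 := h0 G hG
  have hlF0 := hlF F hF
  have hlG0 := hlF G hG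
  refine ⟨F ^ a.toNat * G ^ b.toNat, F ^ (-a).toNat * G ^ (-b).toNat,
    mul_ne_zero (pow_ne_zero _ hF0) (pow_ne_zero _ hG0), ?_, ?_⟩
  · intro c hc
    have h2 := LfB_mon F G hFG _ _ _ _ c hc
    apply hab
    have e1 : a = 0 := by omega
    have e2 : b = 0 := by omega
    rw [e1, e2]
  · have h2 : (l F) ^ a.toNat * (l G) ^ b.toNat = (l F) ^ (-a).toNat * (l G) ^ (-b).toNat := by
      have e1 : (l F) ^ a = (l F) ^ a.toNat / (l F) ^ (-a).toNat := by
        rw [← zpow_natCast, ← zpow_natCast, ← zpow_sub₀ hlF0]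
        congr 1
        omega
      have e2 : (l G) ^ b = (l G) ^ b.toNat / (l G) ^ (-b).toNat := by
        rw [← zpow_natCast, ← zpow_natCast, ← zpow_sub₀ hlG0]
        congr 1
        omega
      rw [e1, e2] at hl
      field_simp at hl
      exact hl
    have h3 : (C (l F) : MvPolynomial (Fin 3) K) ^ a.toNat * C (l G) ^ b.toNat =
        C (l F) ^ (-a).toNat * C (l G) ^ (-b).toNat := by
      rw [← C_pow, ← C_pow, ← C_mul, h2, C_mul, C_pow, C_pow]
    rw [map_mul, map_mul, map_pow, map_pow, map_pow, map_pow, h1 F hF, h1 G hG, mul_pow, mul_pow,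
      mul_pow, mul_pow]
    linear_combination (F ^ a.toNat * G ^ b.toNat * (F ^ (-a).toNat * G ^ (-b).toNat)) * h3

/-- sums of polynomials in one variable, characteristic zero -/
theorem LfB_sum {K : Type*} [Field K] [CharZero K] (n : ℕ) :
    ∀ q : Polynomial K, q.degree < n →
      ∃ Q : Polynomial K, Q.comp (Polynomial.X + 1) - Q = q := by
  induction n with
  | zero =>
    intro q hq
    refine ⟨0, ?_⟩
    have h1 : q = 0 := by
      rw [← Polynomial.degree_eq_bot]
      by_contra h
      have h2 : q ≠ 0 := fun h3 => h (by rw [h3, Polynomial.degree_zero])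
      rw [Polynomial.degree_eq_natDegree h2] at hq
      exact absurd (WithBot.coe_lt_coe.1 hq) (Nat.not_lt_zero _)
    rw [h1]
    simp
  | succ n ih =>
    intro q hq
    obtain ⟨a, ha⟩ : ∃ a : K, a = q.coeff n / (n + 1) := ⟨_, rfl⟩
    have hn : ((n : K) + 1) ≠ 0 := by exact_mod_cast Nat.succ_ne_zero n
    obtain ⟨Q, hQ⟩ := ih (q - Polynomial.C a *
        ((Polynomial.X + 1) ^ (n + 1) - Polynomial.X ^ (n + 1))) (by
      rw [Polynomial.degree_lt_iff_coeff_zero]
      intro m hm
      rw [Polynomial.coeff_sub, Polynomial.coeff_C_mul, Polynomial.coeff_sub,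
        Polynomial.coeff_X_add_one_pow, Polynomial.coeff_X_pow]
      rcases Nat.eq_or_lt_of_le hm with h | h
      · subst h
        rw [if_neg (by omega), Nat.choose_succ_self_right, ha]
        push_cast
        field_simp
        ring
      · have h1 : q.coeff m = 0 := Polynomial.coeff_eq_zero_of_degree_lt (lt_of_lt_of_le hq (by
          exact_mod_cast h))
        rw [h1]
        rcases Nat.eq_or_lt_of_le (Nat.succ_le_of_lt h) with h2 | h2
        · have h3 : m = n + 1 := h2.symm
          subst h3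
          simp
        · rw [if_neg (by omega), Nat.choose_eq_zero_of_lt (by omega)]
          simp)
    refine ⟨Q + Polynomial.C a * Polynomial.X ^ (n + 1), ?_⟩
    have h4 : (Q + Polynomial.C a * Polynomial.X ^ (n + 1)).comp (Polynomial.X + 1) =
        Q.comp (Polynomial.X + 1) + Polynomial.C a * (Polynomial.X + 1) ^ (n + 1) := by
      simp
    rw [h4]
    linear_combination hQ

theorem LfB_const {K : Type*} [Field K] (F : MvPolynomial (Fin 3) K) (k : ℕ) (hk : 1 ≤ k) (c : K)
    (h : F ^ k = C c) : ∃ d : K, F = C d := by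
  by_cases hc : c = 0
  · refine ⟨0, ?_⟩
    rw [hc, C_0] at h
    rw [C_0]
    exact pow_eq_zero_iff (by omega) |>.1 h
  · have h1 : IsUnit (F ^ k) := by
      rw [h]
      exact (isUnit_iff_ne_zero.2 hc).map C
    have h2 : IsUnit F := (isUnit_pow_iff (by omega)).1 h1
    obtain ⟨r, _, hr⟩ := MvPolynomial.isUnit_iff_eq_C_of_isReduced.1 h2
    exact ⟨r, hr⟩

/-- no two coordinates are polynomials in one element -/
theorem LfB_indep {K : Type*} [Field K] (t : MvPolynomial (Fin 3) K) (q0 q1 : Polynomial K)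
    (h0 : Polynomial.aeval t q0 = (X 0 : MvPolynomial (Fin 3) K))
    (h1 : Polynomial.aeval t q1 = (X 1 : MvPolynomial (Fin 3) K)) : False := by
  have hX : AlgebraicIndependent K (X : Fin 3 → MvPolynomial (Fin 3) K) :=
    algebraicIndependent_X (Fin 3) K
  have h2 := hX.comp ![0, 1] (by
    intro i j hij
    fin_cases i <;> fin_cases j <;> simp_all)
  have h3 : ((Polynomial.aeval t : Polynomial K →ₐ[K] MvPolynomial (Fin 3) K) ∘ ![q0, q1]) =
      (X ∘ ![0, 1] : Fin 2 → MvPolynomial (Fin 3) K) := by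
    ext i
    fin_cases i
    · simp [h0]
    · simp [h1]
  rw [← h3] at h2
  have h4 : AlgebraicIndependent K ![q0, q1] := AlgebraicIndependent.of_comp _ h2
  have h5 := h4.lift_cardinalMk_le_trdeg
  rw [Polynomial.trdeg_of_isDomain] at h5
  simp at h5

section part2
variable {K : Type*} [Field K] (σ : PAut K 3)

/-- `σ - 1` -/
noncomputable def LfB_D : MvPolynomial (Fin 3) K →ₗ[K] MvPolynomial (Fin 3) K :=
  σ.toLinearMap - LinearMap.id

theorem LfB_D_apply (F : MvPolynomial (Fin 3) K) : LfB_D σ F = σ F - F := rfl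

theorem LfB_D_mem (V : Submodule K (MvPolynomial (Fin 3) K)) (hσ : ∀ F ∈ V, σ F ∈ V)
    (F : MvPolynomial (Fin 3) K) (hF : F ∈ V) : LfB_D σ F ∈ V := by
  rw [LfB_D_apply]
  exact V.sub_mem (hσ F hF) hF

theorem LfB_D_pow_mem (V : Submodule K (MvPolynomial (Fin 3) K)) (hσ : ∀ F ∈ V, σ F ∈ V) (k : ℕ)
    (F : MvPolynomial (Fin 3) K) (hF : F ∈ V) : (LfB_D σ ^ k) F ∈ V := by
  induction k with
  | zero => simpa using hF
  | succ k ih =>
    rw [pow_succ', Module.End.mul_apply]
    exact LfB_D_mem σ V hσ _ ih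

theorem LfB_nil [IsAlgClosed K] (V : Submodule K (MvPolynomial (Fin 3) K))
    (hV : FiniteDimensional K V) (hσ : ∀ F ∈ V, σ F ∈ V)
    (hc : ∀ F ∈ V, F ≠ 0 → ∀ l : K, σ F = C l * F → ∃ c : K, F = C c)
    (F : MvPolynomial (Fin 3) K) (hF : F ∈ V) : ∃ k : ℕ, (LfB_D σ ^ k) F = 0 := by
  classical
  let s : Module.End K V := σ.toLinearMap.restrict hσ
  have hs : ∀ v : V, ((s v : V) : MvPolynomial (Fin 3) K) = σ v.1 := fun v => rfl
  have hbot : ∀ μ : K, μ ≠ 1 → s.maxGenEigenspace μ = ⊥ := by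
    intro μ hμ
    rw [eq_bot_iff]
    intro v hv
    rw [Module.End.mem_maxGenEigenspace] at hv
    by_contra hv0
    have hv0' : v ≠ 0 := fun h => hv0 (by rw [h]; exact Submodule.zero_mem _)
    have hfind := Nat.find_spec hv
    have hpos : Nat.find hv ≠ 0 := by
      intro h
      rw [h] at hfind
      simp at hfind
      exact hv0' hfind
    obtain ⟨m, hm⟩ := Nat.exists_eq_succ_of_ne_zero hpos
    have hw0 : ((s - μ • 1) ^ m) v ≠ 0 := Nat.find_min hv (by omega)
    rw [hm, Nat.succ_eq_add_one, pow_succ', Module.End.mul_apply] at hfind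
    obtain ⟨w, hw⟩ : ∃ w : V, w = ((s - μ • 1) ^ m) v := ⟨_, rfl⟩
    rw [← hw] at hfind hw0
    have hw1 : σ w.1 = C μ * w.1 := by
      have h2 := congrArg (fun z : V => (z : MvPolynomial (Fin 3) K)) hfind
      simp only [LinearMap.sub_apply, LinearMap.smul_apply, Module.End.one_apply,
        Submodule.coe_sub, Submodule.coe_smul, Submodule.coe_zero] at h2
      rw [hs] at h2
      rw [← MvPolynomial.smul_eq_C_mul]
      exact sub_eq_zero.1 h2
    have hw2 : w.1 ≠ 0 := fun h => hw0 (Subtype.ext h)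
    obtain ⟨c, hcc⟩ := hc w.1 w.2 hw2 μ hw1
    rw [hcc] at hw1 hw2
    have h3 : σ (C c : MvPolynomial (Fin 3) K) = C c := σ.commutes c
    rw [h3] at hw1
    apply hμ
    have h4 : (C (μ - 1) : MvPolynomial (Fin 3) K) * C c = 0 := by
      rw [C_sub, C_1]
      linear_combination -hw1
    rcases mul_eq_zero.1 h4 with h5 | h5
    · have h6 : μ - 1 = 0 := by
        have := C_injective (Fin 3) K (h5.trans C_0.symm)
        exact this
      exact sub_eq_zero.1 h6
    · exact absurd h5 hw2
  have htop := Module.End.iSup_maxGenEigenspace_eq_top s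
  have h1 : s.maxGenEigenspace 1 = ⊤ := by
    rw [← htop]
    apply le_antisymm
    · exact le_iSup (fun μ => s.maxGenEigenspace μ) 1
    · apply iSup_le
      intro μ
      by_cases h : μ = 1
      · rw [h]
      · rw [hbot μ h]
        exact bot_le
  have h2 : (⟨F, hF⟩ : V) ∈ s.maxGenEigenspace 1 := by rw [h1]; trivial
  rw [Module.End.mem_maxGenEigenspace] at h2
  obtain ⟨k, hk⟩ := h2
  refine ⟨k, ?_⟩
  have h3 : ∀ (j : ℕ) (v : V), ((((s - (1 : K) • 1) ^ j) v : V) : MvPolynomial (Fin 3) K) =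
      (LfB_D σ ^ j) v.1 := by
    intro j
    induction j with
    | zero => intro v; simp
    | succ j ih =>
      intro v
      rw [pow_succ, Module.End.mul_apply, ih, pow_succ, Module.End.mul_apply]
      congr 1
      rw [LfB_D_apply]
      simp only [LinearMap.sub_apply, LinearMap.smul_apply, Module.End.one_apply, one_smul,
        Submodule.coe_sub]
      rw [hs]
  have h4 := h3 k ⟨F, hF⟩
  rw [hk] at h4
  exact h4.symm

theorem LfB_poly [CharZero K] (V : Submodule K (MvPolynomial (Fin 3) K))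
    (hσ : ∀ F ∈ V, σ F ∈ V) (hinv : ¬ HasInv σ) (t : MvPolynomial (Fin 3) K) (ht : σ t = t + 1)
    (k : ℕ) : ∀ F ∈ V, (LfB_D σ ^ k) F = 0 → ∃ q : Polynomial K, F = Polynomial.aeval t q := by
  induction k with
  | zero =>
    intro F _ h
    refine ⟨0, ?_⟩
    simpa using h
  | succ k ih =>
    intro F hF h
    rw [pow_succ, Module.End.mul_apply] at h
    obtain ⟨q, hq⟩ := ih (LfB_D σ F) (LfB_D_mem σ V hσ F hF) h
    obtain ⟨Q, hQ⟩ := LfB_sum (q.natDegree + 1) q (by
      refine lt_of_le_of_lt Polynomial.degree_le_natDegree ?_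
      exact_mod_cast Nat.lt_succ_self _)
    have h1 : σ (Polynomial.aeval t Q) = Polynomial.aeval t (Q.comp (Polynomial.X + 1)) := by
      have h2 : σ (Polynomial.aeval t Q) = Polynomial.aeval (σ t) Q := by
        have := Polynomial.aeval_algHom_apply (σ : MvPolynomial (Fin 3) K →ₐ[K] MvPolynomial (Fin 3) K) t Q
        exact this.symm
      rw [h2, ht, Polynomial.aeval_comp]
      simp
    have h3 : σ (F - Polynomial.aeval t Q) = F - Polynomial.aeval t Q := by
      rw [map_sub, h1]
      have h4 : σ F = F + Polynomial.aeval t q := by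
        rw [← hq, LfB_D_apply]
        ring
      have h5 : Polynomial.aeval t (Q.comp (Polynomial.X + 1)) =
          Polynomial.aeval t Q + Polynomial.aeval t q := by
        rw [← hQ, map_sub]
        ring
      rw [h4, h5]
      ring
    by_cases hcst : ∃ c : K, F - Polynomial.aeval t Q = C c
    · obtain ⟨c, hc⟩ := hcst
      refine ⟨Q + Polynomial.C c, ?_⟩
      rw [map_add, Polynomial.aeval_C, MvPolynomial.algebraMap_eq]
      rw [← hc]
      ring
    · exfalso
      apply hinv
      refine ⟨F - Polynomial.aeval t Q, 1, one_ne_zero, ?_, ?_⟩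
      · intro c hc
        exact hcst ⟨c, by rw [hc, mul_one]⟩
      · rw [h3, map_one]

end part2

theorem hasInv_roots {K : Type*} [Field K] [CharZero K] [IsAlgClosed K] (σ : PAut K 3)
    (V : Submodule K (MvPolynomial (Fin 3) K)) (hV : FiniteDimensional K V)
    (hσ : ∀ F ∈ V, σ F ∈ V) (h1 : (1 : MvPolynomial (Fin 3) K) ∈ V)
    (hX : ∀ i : Fin 3, (X i : MvPolynomial (Fin 3) K) ∈ V)
    (hroot : ∀ F ∈ V, F ≠ 0 → ∀ l : K, σ F = C l * F → ∃ k : ℕ, 1 ≤ k ∧ l ^ k = 1) :
    HasInv σ := by
  classical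
  by_contra hinv
  -- (i)
  have hc : ∀ F ∈ V, F ≠ 0 → ∀ l : K, σ F = C l * F → ∃ c : K, F = C c := by
    intro F hF hF0 l hl
    by_contra hcst
    obtain ⟨k, hk, hlk⟩ := hroot F hF hF0 l hl
    apply hinv
    refine ⟨F ^ k, 1, one_ne_zero, ?_, ?_⟩
    · intro c hc
      rw [mul_one] at hc
      exact hcst (LfB_const F k hk c hc)
    · rw [map_pow, hl, mul_pow, ← C_pow, hlk, C_1, map_one]
      ring
  have hX0 : ¬ ∃ c : K, (X 0 : MvPolynomial (Fin 3) K) = C c := by
    rintro ⟨c, hcc⟩
    have h2 := congrArg totalDegree hcc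
    rw [totalDegree_X, totalDegree_C] at h2
    exact one_ne_zero h2
  have hker : ∀ F ∈ V, LfB_D σ F = 0 → ∃ c : K, F = C c := by
    intro F hF h
    by_cases hF0 : F = 0
    · exact ⟨0, by rw [hF0, C_0]⟩
    · refine hc F hF hF0 1 ?_
      rw [LfB_D_apply] at h
      rw [C_1, one_mul]
      exact sub_eq_zero.1 h
  -- (ii)
  have hnil := LfB_nil σ V hV hσ hc (X 0) (hX 0)
  have hfind := Nat.find_spec hnil
  have hk0 : Nat.find hnil ≠ 0 := by
    intro h
    rw [h] at hfind
    simp at hfind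
  have hk1 : Nat.find hnil ≠ 1 := by
    intro h
    rw [h, pow_one] at hfind
    exact hX0 (hker _ (hX 0) hfind)
  obtain ⟨m, hm⟩ : ∃ m, Nat.find hnil = m + 2 := ⟨Nat.find hnil - 2, by omega⟩
  rw [hm] at hfind
  have hmin : (LfB_D σ ^ (m + 1)) (X 0) ≠ 0 := Nat.find_min hnil (by omega)
  obtain ⟨G, hGd⟩ : ∃ G, G = (LfB_D σ ^ m) (X 0) := ⟨_, rfl⟩
  have hGV : G ∈ V := by
    rw [hGd]
    exact LfB_D_pow_mem σ V hσ m _ (hX 0)
  have hDG : LfB_D σ G = (LfB_D σ ^ (m + 1)) (X 0) := by
    rw [hGd, pow_succ' _ m, Module.End.mul_apply]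
  have hDDG : LfB_D σ (LfB_D σ G) = 0 := by
    rw [hDG, ← hfind, pow_succ' _ (m + 1), Module.End.mul_apply]
  obtain ⟨c, hcc⟩ := hker _ (LfB_D_mem σ V hσ G hGV) hDDG
  have hc0 : c ≠ 0 := by
    intro h
    rw [h, C_0, hDG] at hcc
    exact hmin hcc
  have ht : σ (C c⁻¹ * G) = C c⁻¹ * G + 1 := by
    have h2 : σ G = G + C c := by
      rw [← hcc, LfB_D_apply]
      ring
    have h3 : σ (C c⁻¹ : MvPolynomial (Fin 3) K) = C c⁻¹ := σ.commutes _
    rw [map_mul, h3, h2, mul_add, ← C_mul, inv_mul_cancel₀ hc0, C_1]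
  have hall : ∀ F ∈ V, ∃ q : Polynomial K, F = Polynomial.aeval (C c⁻¹ * G) q := by
    intro F hF
    obtain ⟨k, hk⟩ := LfB_nil σ V hV hσ hc F hF
    exact LfB_poly σ V hσ hinv _ ht k F hF hk
  obtain ⟨q0, hq0⟩ := hall (X 0) (hX 0)
  obtain ⟨q1, hq1⟩ := hall (X 1) (hX 1)
  exact LfB_indep _ q0 q1 hq0.symm hq1.symm

end ZD85
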