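import Pool.Agent.H85.ZD.Crit
import Pool.Agent.H85.ZD.Approx

/-!
# ZD Lift : fast points from an orbit of the leading form (row `Lift`)

Data.  `τ` an automorphism, weights `μ_i ≥ 0`, `Θ > 1`, `weight α ≤ Θ μ_i` for the monomials `α` of `τ (X i)`
(`weight α = ∑ α_k μ_k = Finsupp.weight μ α`).  `J ⊆ {0,1,2}`: for `i ∉ J` all monomials of `τ (X i)` have weight
`< Θ μ_i` and `μ_i > 0`; for `j ∈ J` some monomial of `τ (X j)` of weight `Θ μ_j` is supported in `J`.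
`v` with `v ϖ > 1`; all coefficients of the `τ (X i)` have `v = 1`.
`e m : Fin 3 → K` (`m ≥ 0`) with `v (e m i) ≤ 1`, `e m i = 0` for `i ∉ J`, and for `j ∈ J`
`e (m+1) j ≡ ∑ (coefficients c_α of τ (X j), weight α = Θ μ_j) c_α ∏ (e m k)^(α_k)` modulo `{v < 1}`;
for every `m` some `j` with `μ_j > 0`, `j ∈ J`, has `v (e m j) = 1`.
Conclusion: the fast points of `τ` are Zariski dense.

Proof.  Constants.  Let `w(α) = weight α`.  Choose `δ ∈ (0, 1/2)` such that for all `i ∉ J` and all `α ∈ supp τ(X i)`: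
`w(α) (1 + δ) ≤ (1 - δ) Θ μ_i` (finitely many strict inequalities `w(α) < Θ μ_i`, `Θ μ_i > 0`).
Choose `ε ∈ (0, δ)` such that (a) `(1 + ε) w(α) < (1 - ε) Θ μ_j` for all `j ∈ J` and `α ∈ supp τ(X j)` with
`w(α) < Θ μ_j`; (b) for all `j ∈ J`, `α ∈ supp τ(X j)` with `w(α) = Θ μ_j` not supported in `J`:
`2 ε S < (δ - ε) S'` where `S = ∑_{k ∈ J} α_k μ_k`, `S' = ∑_{k ∉ J} α_k μ_k > 0`.
Apply `approx_weights` to `μ` restricted to `J` (or to `μ` itself) with `ε`: `T > 0`, `k : J → ℤ` with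
`|k_j - T μ_j| ≤ ε T μ_j`, and `k` satisfies all integral relations of `(μ_j)_{j ∈ J}`.
For `j ∈ J` fix `α^j ∈ supp τ(X j)` of weight `Θ μ_j` supported in `J`.  Define `K_m : J → ℤ` by `K_0 = k`,
`K_{m+1} j = ∑_{i ∈ J} α^j_i K_m i`.
(1) `(1 - ε) T Θ^m μ_j ≤ K_m j ≤ (1 + ε) T Θ^m μ_j` (induction, `α^j ≥ 0`, `∑ α^j_i μ_i = Θ μ_j`).
(2) `K_m` satisfies all integral relations of `(μ_j)_{j ∈ J}`: if `∑ r_j μ_j = 0` then
`∑ r_j K_{m+1} j = ∑_i (∑_j r_j α^j_i) K_m i` and `∑_i (∑_j r_j α^j_i) μ_i = ∑_j r_j Θ μ_j = 0`.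
(3) Hence for EVERY `α ∈ supp τ(X j)` of weight `Θ μ_j` supported in `J`: `∑_i α_i K_m i = K_{m+1} j`.
Points: `S_i` for `i ∈ J`: `{x | v (x / ϖ^(k i) - e 0 i) < 1}` (zpow); for `i ∉ J`: `{x | v x ≤ 1}`.  These are infinite:
they contain balls (`ball_infinite`, `ϖ⁻¹`).  (`v ϖ > 1` gives `0 < v ϖ⁻¹ < 1`.)
Claim for `P i ∈ S_i`, with `x_m i = orb τ P m i` and `g = v ϖ > 1` (real powers):
 (A) `v (x_m j / ϖ^(K_m j) - e m j) < 1` for `j ∈ J`;
 (B) `v (x_m i) ≤ g^((1 - δ) T Θ^m μ_i)` for `i ∉ J`.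
Induction.  (A) implies `v (x_m j) ≤ g^(K_m j) ≤ g^((1+ε) T Θ^m μ_j)`.
`x_{m+1} i = ∑_{α ∈ supp τ(X i)} c_α ∏ (x_m k)^(α_k)`.
 For `i ∉ J`: every term has `v ≤ g^((1+ε) T Θ^m w(α)) ≤ g^((1-δ) T Θ^{m+1} μ_i)` (using `1 - δ ≤ 1 + ε` for the factors
 with index outside `J`, and `ε < δ`).
 For `j ∈ J`, divide by `ϖ^(K_{m+1} j)`.  Terms `α` of weight `Θ μ_j` supported in `J`: by (3) they become
 `c_α ∏ (x_m k / ϖ^(K_m k))^(α_k) ≡ c_α ∏ (e m k)^(α_k)`.  Terms `α` of weight `Θ μ_j` not supported in `J`: `v < 1`, since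
 `(1+ε) S + (1-δ) S' < (1-ε)(S + S')` by (b), and `g^((1-ε) T Θ^{m+1} μ_j) ≤ g^(K_{m+1} j)`, `Θ μ_j = S + S'`; and
 `c_α ∏ (e m k)^(α_k) = 0` as `e m k = 0` for `k ∉ J`.  Terms with `w(α) < Θ μ_j`: `v < 1` by (a) (here `μ_j > 0`
 automatically, since `w(α) ≥ 0`).  So the quotient is `≡ ∑_{weight Θ μ_j} c_α ∏ (e m k)^(α_k) ≡ e (m+1) j`.
Fast: for given `m` take `j` with `v (e m j) = 1`, `μ_j > 0`: `v (x_m j) = g^(K_m j) ≥ g^((1-ε) T Θ^m μ_j)
≥ exp(c Θ^m)` with `c = (1 - ε) T μ_min log g`, `μ_min` the smallest positive weight.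
Then for `H ≠ 0` use `exists_eval_ne_zero`.
-/

set_option autoImplicit false

namespace ZD85

open MvPolynomial

theorem Lift_w (μ : Fin 3 → ℝ) (α : Fin 3 →₀ ℕ) :
    Finsupp.weight μ α = ∑ k, (α k : ℝ) * μ k := by
  rw [Finsupp.weight_apply, Finsupp.sum_fintype _ _ (by simp)]
  simp [nsmul_eq_mul]

/-- part of the weight in `J`. -/
noncomputable def Lift_SJ (μ : Fin 3 → ℝ) (J : Finset (Fin 3)) (α : Fin 3 →₀ ℕ) : ℝ :=
  ∑ k, if k ∈ J then (α k : ℝ) * μ k else 0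

/-- part of the weight outside `J`. -/
noncomputable def Lift_SN (μ : Fin 3 → ℝ) (J : Finset (Fin 3)) (α : Fin 3 →₀ ℕ) : ℝ :=
  ∑ k, if k ∈ J then 0 else (α k : ℝ) * μ k

theorem Lift_split (μ : Fin 3 → ℝ) (J : Finset (Fin 3)) (α : Fin 3 →₀ ℕ) :
    Finsupp.weight μ α = Lift_SJ μ J α + Lift_SN μ J α := by
  rw [Lift_w, Lift_SJ, Lift_SN, ← Finset.sum_add_distrib]
  refine Finset.sum_congr rfl (fun k _ => ?_)
  split_ifs
  · rw [add_zero]
  · rw [zero_add]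

theorem Lift_SJ0 (μ : Fin 3 → ℝ) (hμ : ∀ i, 0 ≤ μ i) (J : Finset (Fin 3)) (α : Fin 3 →₀ ℕ) :
    0 ≤ Lift_SJ μ J α := by
  refine Finset.sum_nonneg (fun k _ => ?_)
  split_ifs
  · exact mul_nonneg (Nat.cast_nonneg _) (hμ k)
  · exact le_rfl

theorem Lift_SN0 (μ : Fin 3 → ℝ) (hμ : ∀ i, 0 ≤ μ i) (J : Finset (Fin 3)) (α : Fin 3 →₀ ℕ) :
    0 ≤ Lift_SN μ J α := by
  refine Finset.sum_nonneg (fun k _ => ?_)
  split_ifs
  · exact le_rfl
  · exact mul_nonneg (Nat.cast_nonneg _) (hμ k)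

theorem Lift_SNpos (μ : Fin 3 → ℝ) (hμ : ∀ i, 0 ≤ μ i) (J : Finset (Fin 3))
    (hJ0 : ∀ i ∉ J, 0 < μ i) (α : Fin 3 →₀ ℕ) (h : ∃ i, i ∉ J ∧ α i ≠ 0) :
    0 < Lift_SN μ J α := by
  obtain ⟨i, hi, hα⟩ := h
  refine Finset.sum_pos' (fun k _ => ?_) ⟨i, Finset.mem_univ i, ?_⟩
  · split_ifs
    · exact le_rfl
    · exact mul_nonneg (Nat.cast_nonneg _) (hμ k)
  · rw [if_neg hi]
    exact mul_pos (Nat.cast_pos.mpr (Nat.pos_of_ne_zero hα)) (hJ0 i hi)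

open Filter Topology in
theorem Lift_ev (f g : ℝ → ℝ) (hf : Continuous f) (hg : Continuous g) (h : f 0 < g 0) :
    ∀ᶠ x in 𝓝 (0 : ℝ), f x < g x :=
  (hf.tendsto 0).eventually_lt (hg.tendsto 0) h

open Filter Topology in
theorem Lift_const (μ : Fin 3 → ℝ) (hμ : ∀ i, 0 ≤ μ i) (Θ : ℝ)
    (A : Fin 3 → Finset (Fin 3 →₀ ℕ)) (J : Finset (Fin 3)) (hJ0 : ∀ i ∉ J, 0 < μ i)
    (hJ : ∀ i ∉ J, ∀ α ∈ A i, Finsupp.weight μ α < Θ * μ i) :
    ∃ δ ε : ℝ, 0 < δ ∧ δ < 1 / 2 ∧ 0 < ε ∧ ε < δ ∧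
      (∀ i ∉ J, ∀ α ∈ A i, (1 + ε) * Lift_SJ μ J α + (1 - δ) * Lift_SN μ J α ≤
        (1 - δ) * (Θ * μ i)) ∧
      (∀ j ∈ J, ∀ α ∈ A j, (Finsupp.weight μ α < Θ * μ j ∨
        (Finsupp.weight μ α = Θ * μ j ∧ ∃ i, i ∉ J ∧ α i ≠ 0)) →
        (1 + ε) * Lift_SJ μ J α + (1 - δ) * Lift_SN μ J α < (1 - ε) * (Θ * μ j)) := by
  have h1 : ∀ᶠ δ in 𝓝 (0 : ℝ), ∀ i, ∀ α ∈ A i, i ∉ J →
      Finsupp.weight μ α * (1 + δ) < (1 - δ) * (Θ * μ i) := by
    rw [eventually_all]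
    intro i
    rw [eventually_all_finset]
    intro α hα
    by_cases hi : i ∈ J
    · exact Eventually.of_forall (fun _ h => absurd hi h)
    · have h2 := Lift_ev (fun δ => Finsupp.weight μ α * (1 + δ)) (fun δ => (1 - δ) * (Θ * μ i))
        (by fun_prop) (by fun_prop) (by simpa using hJ i hi α hα)
      exact h2.mono (fun δ h _ => h)
  obtain ⟨δ, hδ, hδ0, hδ1⟩ : ∃ δ : ℝ, (∀ i, ∀ α ∈ A i, i ∉ J →
      Finsupp.weight μ α * (1 + δ) < (1 - δ) * (Θ * μ i)) ∧ 0 < δ ∧ δ < 1 / 2 := by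
    have h3 : ∀ᶠ δ in 𝓝[>] (0 : ℝ), δ ∈ Set.Ioo (0 : ℝ) (1 / 2) :=
      Ioo_mem_nhdsGT (by norm_num)
    obtain ⟨δ, h4, h5⟩ := ((h1.filter_mono nhdsWithin_le_nhds).and h3).exists
    exact ⟨δ, h4, h5.1, h5.2⟩
  have h6 : ∀ᶠ ε in 𝓝 (0 : ℝ), ∀ j, ∀ α ∈ A j, (Finsupp.weight μ α < Θ * μ j ∨
        (Finsupp.weight μ α = Θ * μ j ∧ ∃ i, i ∉ J ∧ α i ≠ 0)) →
        (1 + ε) * Lift_SJ μ J α + (1 - δ) * Lift_SN μ J α < (1 - ε) * (Θ * μ j) := by
    rw [eventually_all]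
    intro j
    rw [eventually_all_finset]
    intro α hα
    by_cases hc : (Finsupp.weight μ α < Θ * μ j ∨
        (Finsupp.weight μ α = Θ * μ j ∧ ∃ i, i ∉ J ∧ α i ≠ 0))
    · have h7 := Lift_ev (fun ε => (1 + ε) * Lift_SJ μ J α + (1 - δ) * Lift_SN μ J α)
        (fun ε => (1 - ε) * (Θ * μ j)) (by fun_prop) (by fun_prop) (by
          have h8 := Lift_split μ J α
          have h9 := Lift_SN0 μ hμ J α
          have h10 := mul_nonneg hδ0.le h9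
          simp only [add_zero, sub_zero, one_mul]
          rcases hc with hc | hc
          · linarith
          · have h11 := mul_pos hδ0 (Lift_SNpos μ hμ J hJ0 α hc.2)
            have h12 := hc.1
            linarith)
      exact h7.mono (fun δ h _ => h)
    · exact Eventually.of_forall (fun _ h => absurd h hc)
  obtain ⟨ε, hε, hε0, hε1⟩ : ∃ ε : ℝ, (∀ j, ∀ α ∈ A j, (Finsupp.weight μ α < Θ * μ j ∨
        (Finsupp.weight μ α = Θ * μ j ∧ ∃ i, i ∉ J ∧ α i ≠ 0)) →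
        (1 + ε) * Lift_SJ μ J α + (1 - δ) * Lift_SN μ J α < (1 - ε) * (Θ * μ j)) ∧
        0 < ε ∧ ε < δ := by
    have h3 : ∀ᶠ ε in 𝓝[>] (0 : ℝ), ε ∈ Set.Ioo (0 : ℝ) δ := Ioo_mem_nhdsGT hδ0
    obtain ⟨ε, h4, h5⟩ := ((h6.filter_mono nhdsWithin_le_nhds).and h3).exists
    exact ⟨ε, h4, h5.1, h5.2⟩
  refine ⟨δ, ε, hδ0, hδ1, hε0, hε1, ?_, fun j _ α hα hc => hε j α hα hc⟩
  intro i hi α hα
  have h7 := hδ i α hα hi
  have h8 := Lift_split μ J α
  have h9 := Lift_SN0 μ hμ J α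
  have h10 := Lift_SJ0 μ hμ J α
  have h11 : (1 + ε) * Lift_SJ μ J α ≤ (1 + δ) * Lift_SJ μ J α :=
    mul_le_mul_of_nonneg_right (by linarith) h10
  have h12 : (1 - δ) * Lift_SN μ J α ≤ (1 + δ) * Lift_SN μ J α :=
    mul_le_mul_of_nonneg_right (by linarith) h9
  have h13 : Finsupp.weight μ α * (1 + δ) =
      (1 + δ) * Lift_SJ μ J α + (1 + δ) * Lift_SN μ J α := by rw [h8]; ring
  linarith

section
variable {K : Type*} [Field K] (v : Valuation K NNReal)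

theorem Lift_mul {a b c d : K} (h1 : v a ≤ 1 ∧ v b ≤ 1 ∧ v (a - b) < 1)
    (h2 : v c ≤ 1 ∧ v d ≤ 1 ∧ v (c - d) < 1) :
    v (a * c) ≤ 1 ∧ v (b * d) ≤ 1 ∧ v (a * c - b * d) < 1 := by
  refine ⟨?_, ?_, ?_⟩
  · rw [map_mul]
    exact mul_le_one' h1.1 h2.1
  · rw [map_mul]
    exact mul_le_one' h1.2.1 h2.2.1
  · have h3 : a * c - b * d = (a - b) * c + b * (c - d) := by ring
    rw [h3]
    refine lt_of_le_of_lt (v.map_add _ _) (max_lt ?_ ?_)
    · rw [map_mul]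
      exact lt_of_le_of_lt (mul_le_mul' le_rfl h2.1) (by rw [mul_one]; exact h1.2.2)
    · rw [map_mul]
      exact lt_of_le_of_lt (mul_le_mul' h1.2.1 le_rfl) (by rw [one_mul]; exact h2.2.2)

theorem Lift_pow {a b : K} (h : v a ≤ 1 ∧ v b ≤ 1 ∧ v (a - b) < 1) (n : ℕ) :
    v (a ^ n) ≤ 1 ∧ v (b ^ n) ≤ 1 ∧ v (a ^ n - b ^ n) < 1 := by
  induction n with
  | zero => simp
  | succ n ih =>
    rw [pow_succ, pow_succ]
    exact Lift_mul v ih h

theorem Lift_prod (a b : Fin 3 → K) (α : Fin 3 →₀ ℕ)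
    (h : ∀ k, α k ≠ 0 → v (a k) ≤ 1 ∧ v (b k) ≤ 1 ∧ v (a k - b k) < 1) :
    v (∏ k, a k ^ α k - ∏ k, b k ^ α k) < 1 := by
  have h1 : ∀ k, v (a k ^ α k) ≤ 1 ∧ v (b k ^ α k) ≤ 1 ∧ v (a k ^ α k - b k ^ α k) < 1 := by
    intro k
    by_cases hk : α k = 0
    · rw [hk]
      simp
    · exact Lift_pow v (h k hk) _
  rw [Fin.prod_univ_three, Fin.prod_univ_three]
  exact (Lift_mul v (Lift_mul v (h1 0) (h1 1)) (h1 2)).2.2

/-- size of a monomial. -/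
theorem Lift_term (g : NNReal) (hg : 1 < g) (x : Fin 3 → K) (E : Fin 3 → ℝ)
    (h : ∀ k, v (x k) ≤ g ^ (E k)) (c : K) (hc : v c = 1) (α : Fin 3 →₀ ℕ) :
    v (c * ∏ k, x k ^ α k) ≤ g ^ (∑ k, (α k : ℝ) * E k) := by
  have hg0 : g ≠ 0 := (lt_trans zero_lt_one hg).ne'
  have h1 : ∀ k, v (x k ^ α k) ≤ g ^ ((α k : ℝ) * E k) := by
    intro k
    rw [map_pow, mul_comm, NNReal.rpow_mul, NNReal.rpow_natCast]
    exact pow_le_pow_left' (h k) _
  rw [map_mul, hc, one_mul, Fin.prod_univ_three, Fin.sum_univ_three, map_mul, map_mul,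
    NNReal.rpow_add hg0, NNReal.rpow_add hg0]
  exact mul_le_mul' (mul_le_mul' (h1 0) (h1 1)) (h1 2)

end

theorem Lift_sumE (μ : Fin 3 → ℝ) (J : Finset (Fin 3)) (s δ ε : ℝ) (α : Fin 3 →₀ ℕ) :
    ∑ k, (α k : ℝ) * (if k ∈ J then (1 + ε) * (s * μ k) else (1 - δ) * (s * μ k)) =
      s * ((1 + ε) * Lift_SJ μ J α + (1 - δ) * Lift_SN μ J α) := by
  unfold Lift_SJ Lift_SN
  rw [Finset.mul_sum, Finset.mul_sum, ← Finset.sum_add_distrib, Finset.mul_sum]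
  refine Finset.sum_congr rfl (fun k _ => ?_)
  split_ifs <;> ring

theorem Lift_K (μ : Fin 3 → ℝ) (Θ : ℝ) (J : Finset (Fin 3)) (T ε : ℝ)
    (A : Fin 3 → (Fin 3 →₀ ℕ)) (hA2 : ∀ j ∈ J, ∀ i ∉ J, A j i = 0)
    (hA3 : ∀ j ∈ J, Finsupp.weight μ (A j) = Θ * μ j) (k : Fin 3 → ℤ)
    (hk : ∀ i, |(k i : ℝ) - T * μ i| ≤ ε * T * μ i)
    (hrel : ∀ r : Fin 3 → ℤ, ∑ i, (r i : ℝ) * μ i = 0 → ∑ i, r i * k i = 0) :
    ∃ Kf : ℕ → Fin 3 → ℤ, Kf 0 = k ∧
      (∀ m, ∀ j ∈ J, (1 - ε) * (T * Θ ^ m * μ j) ≤ (Kf m j : ℝ) ∧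
        (Kf m j : ℝ) ≤ (1 + ε) * (T * Θ ^ m * μ j)) ∧
      (∀ m, ∀ j ∈ J, ∀ α : Fin 3 →₀ ℕ, (∀ i ∉ J, α i = 0) → Finsupp.weight μ α = Θ * μ j →
        ∑ i, (α i : ℤ) * Kf m i = Kf (m + 1) j) := by
  obtain ⟨Kf, hK0, hKs⟩ : ∃ Kf : ℕ → Fin 3 → ℤ, Kf 0 = k ∧
      ∀ m j, Kf (m + 1) j = ∑ i, (A j i : ℤ) * Kf m i :=
    ⟨fun m => Nat.rec k (fun _ q j => ∑ i, (A j i : ℤ) * q i) m, rfl, fun m j => rfl⟩
  have hR : ∀ m, ∀ r : Fin 3 → ℤ, (∀ i ∉ J, r i = 0) → ∑ i, (r i : ℝ) * μ i = 0 →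
      ∑ i, r i * Kf m i = 0 := by
    intro m
    induction m with
    | zero =>
      intro r _ hr
      rw [hK0]
      exact hrel r hr
    | succ m ih =>
      intro r hr0 hr
      have h1 := ih (fun i => ∑ j, r j * (A j i : ℤ)) (by
        intro i hi
        refine Finset.sum_eq_zero (fun j _ => ?_)
        by_cases hj : j ∈ J
        · rw [hA2 j hj i hi]
          simp
        · rw [hr0 j hj, zero_mul]) (by
        have e1 : ∀ i, ((∑ j, r j * (A j i : ℤ) : ℤ) : ℝ) * μ i =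
            ∑ j, (r j : ℝ) * ((A j i : ℝ) * μ i) := by
          intro i
          push_cast
          rw [Finset.sum_mul]
          exact Finset.sum_congr rfl (fun j _ => by ring)
        simp only [e1]
        rw [Finset.sum_comm]
        have e2 : ∀ j, ∑ i, (r j : ℝ) * ((A j i : ℝ) * μ i) = Θ * ((r j : ℝ) * μ j) := by
          intro j
          rw [← Finset.mul_sum, ← Lift_w]
          by_cases hj : j ∈ J
          · rw [hA3 j hj]
            ring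
          · rw [hr0 j hj]
            simp
        simp only [e2]
        rw [← Finset.mul_sum, hr, mul_zero])
      have e3 : ∑ j, r j * Kf (m + 1) j = ∑ i, (∑ j, r j * (A j i : ℤ)) * Kf m i := by
        simp only [hKs, Finset.mul_sum, Finset.sum_mul]
        rw [Finset.sum_comm]
        exact Finset.sum_congr rfl (fun i _ => Finset.sum_congr rfl (fun j _ => by ring))
      rw [e3]
      exact h1
  refine ⟨Kf, hK0, ?_, ?_⟩
  · intro m
    induction m with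
    | zero =>
      intro j _
      rw [hK0]
      have h1 := abs_le.mp (hk j)
      rw [pow_zero, mul_one]
      constructor
      · have h2 := h1.1
        have h3 : (1 - ε) * (T * μ j) = T * μ j - ε * T * μ j := by ring
        rw [h3]
        linarith
      · have h2 := h1.2
        have h3 : (1 + ε) * (T * μ j) = T * μ j + ε * T * μ j := by ring
        rw [h3]
        linarith
    | succ m ih =>
      intro j hj
      have e1 : (Kf (m + 1) j : ℝ) = ∑ i, (A j i : ℝ) * (Kf m i : ℝ) := by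
        rw [hKs]
        push_cast
        rfl
      have e2 : ∀ c : ℝ, ∑ i, (A j i : ℝ) * (c * (T * Θ ^ m * μ i)) =
          c * (T * Θ ^ (m + 1) * μ j) := by
        intro c
        have e3 : ∑ i, (A j i : ℝ) * (c * (T * Θ ^ m * μ i)) =
            c * (T * Θ ^ m) * ∑ i, (A j i : ℝ) * μ i := by
          rw [Finset.mul_sum]
          exact Finset.sum_congr rfl (fun i _ => by ring)
        rw [e3, ← Lift_w, hA3 j hj]
        ring
      rw [e1, ← e2, ← e2]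
      constructor
      · refine Finset.sum_le_sum (fun i _ => ?_)
        by_cases hi : i ∈ J
        · exact mul_le_mul_of_nonneg_left (ih i hi).1 (Nat.cast_nonneg _)
        · rw [hA2 j hj i hi]
          simp
      · refine Finset.sum_le_sum (fun i _ => ?_)
        by_cases hi : i ∈ J
        · exact mul_le_mul_of_nonneg_left (ih i hi).2 (Nat.cast_nonneg _)
        · rw [hA2 j hj i hi]
          simp
  · intro m j hj α hα hw
    have h1 := hR m (fun i => (α i : ℤ) - (A j i : ℤ)) (by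
      intro i hi
      show (α i : ℤ) - (A j i : ℤ) = 0
      rw [hα i hi, hA2 j hj i hi]
      simp) (by
      have e1 : ∀ i, (((α i : ℤ) - (A j i : ℤ) : ℤ) : ℝ) * μ i =
          (α i : ℝ) * μ i - (A j i : ℝ) * μ i := by
        intro i
        push_cast
        ring
      simp only [e1]
      rw [Finset.sum_sub_distrib, ← Lift_w, ← Lift_w, hw, hA3 j hj, sub_self])
    rw [hKs]
    have e2 : ∑ i, ((α i : ℤ) - (A j i : ℤ)) * Kf m i =
        ∑ i, (α i : ℤ) * Kf m i - ∑ i, (A j i : ℤ) * Kf m i := by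
      rw [← Finset.sum_sub_distrib]
      exact Finset.sum_congr rfl (fun i _ => by ring)
    rw [e2] at h1
    linarith

/-- the invariant of the orbit. -/
def Lift_inv {K : Type*} [Field K] (v : Valuation K NNReal) (ϖ : K) (μ : Fin 3 → ℝ)
    (J : Finset (Fin 3)) (Kf : Fin 3 → ℤ) (e : Fin 3 → K) (s δ : ℝ) (x : Fin 3 → K) : Prop :=
  (∀ j ∈ J, v (x j / ϖ ^ (Kf j) - e j) < 1) ∧
    (∀ i ∉ J, v (x i) ≤ (v ϖ) ^ ((1 - δ) * (s * μ i)))

theorem Lift_up {K : Type*} [Field K] (v : Valuation K NNReal) (ϖ : K) (hϖ : 1 < v ϖ)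
    (μ : Fin 3 → ℝ)
    (J : Finset (Fin 3)) (Kf : Fin 3 → ℤ) (e : Fin 3 → K) (he : ∀ i, v (e i) ≤ 1) (s δ ε : ℝ)
    (x : Fin 3 → K) (hK : ∀ j ∈ J, (Kf j : ℝ) ≤ (1 + ε) * (s * μ j))
    (h : Lift_inv v ϖ μ J Kf e s δ x) (k : Fin 3) :
    v (x k) ≤ (v ϖ) ^ (if k ∈ J then (1 + ε) * (s * μ k) else (1 - δ) * (s * μ k)) := by
  have hϖ0 : ϖ ≠ 0 := by
    rintro rfl
    rw [map_zero] at hϖ
    exact absurd hϖ (by simp)
  by_cases hk : k ∈ J
  · rw [if_pos hk]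
    have h1 : v (x k / ϖ ^ (Kf k)) ≤ 1 := by
      have e1 : x k / ϖ ^ (Kf k) = (x k / ϖ ^ (Kf k) - e k) + e k := by ring
      rw [e1]
      exact v.map_add_le (h.1 k hk).le (he k)
    rw [map_div₀, map_zpow₀] at h1
    have hg : 0 < (v ϖ) ^ (Kf k) := zpow_pos (lt_trans zero_lt_one hϖ) _
    rw [div_le_one hg] at h1
    refine h1.trans ?_
    rw [← NNReal.rpow_intCast]
    exact NNReal.rpow_le_rpow_of_exponent_le hϖ.le (hK k hk)
  · rw [if_neg hk]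
    exact h.2 k hk

theorem Lift_eval_whc {K : Type*} [Field K] (μ : Fin 3 → ℝ) (c : ℝ) (F : MvPolynomial (Fin 3) K)
    (e : Fin 3 → K) :
    eval e (weightedHomogeneousComponent μ c F) =
      ∑ α ∈ F.support, if Finsupp.weight μ α = c then F.coeff α * ∏ k, e k ^ α k else 0 := by
  classical
  rw [weightedHomogeneousComponent_apply, map_sum, Finset.sum_filter]
  refine Finset.sum_congr rfl (fun α _ => ?_)
  split_ifs
  · rw [eval_monomial, Finsupp.prod_pow]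
  · rfl

theorem Lift_step {K : Type*} [Field K] (μ : Fin 3 → ℝ) (hμ : ∀ i, 0 ≤ μ i)
    (Θ : ℝ) (J : Finset (Fin 3))
    (v : Valuation K NNReal) (ϖ : K) (hϖ : 1 < v ϖ) (F : Fin 3 → MvPolynomial (Fin 3) K)
    (hdeg : ∀ i, ∀ α ∈ (F i).support, Finsupp.weight μ α ≤ Θ * μ i)
    (hunit : ∀ i, ∀ α ∈ (F i).support, v ((F i).coeff α) = 1)
    (δ ε : ℝ) (hc1 : ∀ i ∉ J, ∀ α ∈ (F i).support,
      (1 + ε) * Lift_SJ μ J α + (1 - δ) * Lift_SN μ J α ≤ (1 - δ) * (Θ * μ i))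
    (hc2 : ∀ j ∈ J, ∀ α ∈ (F j).support, (Finsupp.weight μ α < Θ * μ j ∨
        (Finsupp.weight μ α = Θ * μ j ∧ ∃ i, i ∉ J ∧ α i ≠ 0)) →
        (1 + ε) * Lift_SJ μ J α + (1 - δ) * Lift_SN μ J α < (1 - ε) * (Θ * μ j))
    (Kf Kf' : Fin 3 → ℤ) (e e' : Fin 3 → K) (he : ∀ i, v (e i) ≤ 1) (he0 : ∀ i ∉ J, e i = 0)
    (hstep : ∀ j ∈ J, v (e' j -
      eval e (weightedHomogeneousComponent μ (Θ * μ j) (F j))) < 1)
    (s : ℝ) (hs : 0 < s) (x : Fin 3 → K)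
    (hK : ∀ j ∈ J, (Kf j : ℝ) ≤ (1 + ε) * (s * μ j))
    (hK' : ∀ j ∈ J, (1 - ε) * (s * Θ * μ j) ≤ (Kf' j : ℝ))
    (hKK : ∀ j ∈ J, ∀ α : Fin 3 →₀ ℕ, (∀ i ∉ J, α i = 0) → Finsupp.weight μ α = Θ * μ j →
        ∑ i, (α i : ℤ) * Kf i = Kf' j)
    (h : Lift_inv v ϖ μ J Kf e s δ x) :
    Lift_inv v ϖ μ J Kf' e' (s * Θ) δ (fun i => eval x (F i)) := by
  have hg0 : v ϖ ≠ 0 := (lt_trans zero_lt_one hϖ).ne'
  have hϖ0 : ϖ ≠ 0 := by
    rintro rfl
    rw [map_zero] at hϖ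
    exact absurd hϖ (by simp)
  have hup := Lift_up v ϖ hϖ μ J Kf e he s δ ε x hK h
  have hterm : ∀ i, ∀ α ∈ (F i).support, v ((F i).coeff α * ∏ k, x k ^ α k) ≤
      (v ϖ) ^ (s * ((1 + ε) * Lift_SJ μ J α + (1 - δ) * Lift_SN μ J α)) := by
    intro i α hα
    have h1 := Lift_term v (v ϖ) hϖ x _ hup ((F i).coeff α) (hunit i α hα) α
    rw [Lift_sumE] at h1
    exact h1
  constructor
  · intro j hj
    show v (eval x (F j) / ϖ ^ (Kf' j) - e' j) < 1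
    have e1 : eval x (F j) / ϖ ^ (Kf' j) - e' j =
        (∑ α ∈ (F j).support, ((F j).coeff α * (∏ k, x k ^ α k) / ϖ ^ (Kf' j) -
          if Finsupp.weight μ α = Θ * μ j then (F j).coeff α * ∏ k, e k ^ α k else 0)) -
        (e' j - eval e (weightedHomogeneousComponent μ (Θ * μ j) (F j))) := by
      rw [Finset.sum_sub_distrib, ← Finset.sum_div, ← eval_eq', ← Lift_eval_whc]
      ring
    rw [e1]
    refine v.map_sub_lt (v.map_sum_lt one_ne_zero (fun α hα => ?_)) (hstep j hj)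
    by_cases hc : (Finsupp.weight μ α < Θ * μ j ∨
        (Finsupp.weight μ α = Θ * μ j ∧ ∃ i, i ∉ J ∧ α i ≠ 0))
    · have e2 : (if Finsupp.weight μ α = Θ * μ j then (F j).coeff α * ∏ k, e k ^ α k else 0) = 0 := by
        rcases hc with hc | ⟨hc, i, hi, hαi⟩
        · rw [if_neg hc.ne]
        · rw [if_pos hc]
          have e3 : ∏ k, e k ^ α k = 0 := by
            refine Finset.prod_eq_zero (Finset.mem_univ i) ?_
            rw [he0 i hi]
            exact zero_pow hαi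
          rw [e3, mul_zero]
      rw [e2, sub_zero, map_div₀, map_zpow₀]
      have hg : 0 < (v ϖ) ^ (Kf' j) := zpow_pos (lt_trans zero_lt_one hϖ) _
      rw [div_lt_one hg]
      refine lt_of_le_of_lt (hterm j α hα) ?_
      rw [← NNReal.rpow_intCast]
      refine NNReal.rpow_lt_rpow_of_exponent_lt hϖ (lt_of_lt_of_le ?_ (hK' j hj))
      have h2 := mul_lt_mul_of_pos_left (hc2 j hj α hα hc) hs
      have e4 : (1 - ε) * (s * Θ * μ j) = s * ((1 - ε) * (Θ * μ j)) := by ring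
      rw [e4]
      exact h2
    · push Not at hc
      have hw : Finsupp.weight μ α = Θ * μ j := le_antisymm (hdeg j α hα) hc.1
      have hα0 : ∀ i ∉ J, α i = 0 := hc.2 hw
      rw [if_pos hw]
      have e5 : ϖ ^ (Kf' j) = ∏ k, (ϖ ^ (Kf k)) ^ α k := by
        rw [← hKK j hj α hα0 hw, Fin.prod_univ_three, Fin.sum_univ_three, zpow_add₀ hϖ0,
          zpow_add₀ hϖ0]
        have e6 : ∀ k, ϖ ^ ((α k : ℤ) * Kf k) = (ϖ ^ (Kf k)) ^ α k := by
          intro k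
          rw [mul_comm, zpow_mul, zpow_natCast]
        rw [e6, e6, e6]
      have e7 : (F j).coeff α * (∏ k, x k ^ α k) / ϖ ^ (Kf' j) - (F j).coeff α * ∏ k, e k ^ α k =
          (F j).coeff α * ((∏ k, (x k / ϖ ^ (Kf k)) ^ α k) - ∏ k, e k ^ α k) := by
        have e8 : (∏ k, (x k / ϖ ^ (Kf k)) ^ α k) = (∏ k, x k ^ α k) / ϖ ^ (Kf' j) := by
          rw [e5, ← Finset.prod_div_distrib]
          exact Finset.prod_congr rfl (fun k _ => div_pow _ _ _)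
        rw [e8]
        ring
      rw [e7, map_mul, hunit j α hα, one_mul]
      refine Lift_prod v _ _ α (fun k hk => ?_)
      have hkJ : k ∈ J := by
        by_contra hkJ
        exact hk (hα0 k hkJ)
      have h3 := h.1 k hkJ
      refine ⟨?_, he k, h3⟩
      have e9 : x k / ϖ ^ (Kf k) = (x k / ϖ ^ (Kf k) - e k) + e k := by ring
      rw [e9]
      exact v.map_add_le h3.le (he k)
  · intro i hi
    show v (eval x (F i)) ≤ _
    rw [eval_eq']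
    refine v.map_sum_le (fun α hα => (hterm i α hα).trans ?_)
    refine NNReal.rpow_le_rpow_of_exponent_le hϖ.le ?_
    have h2 := mul_le_mul_of_nonneg_left (hc1 i hi α hα) hs.le
    have e4 : (1 - δ) * (s * Θ * μ i) = s * ((1 - δ) * (Θ * μ i)) := by ring
    rw [e4]
    exact h2

theorem Lift_ball {K : Type*} [Field K] (v : Valuation K NNReal) (ϖ : K) (hϖ : 1 < v ϖ)
    (a : K) (r : NNReal) (hr : 0 < r) : {x : K | v (x - a) < r}.Infinite := by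
  have hϖ0 : ϖ ≠ 0 := by
    rintro rfl
    rw [map_zero] at hϖ
    exact absurd hϖ (by simp)
  refine ball_infinite v ϖ⁻¹ (inv_ne_zero hϖ0) ?_ a r hr
  rw [map_inv₀]
  exact inv_lt_one_of_one_lt₀ hϖ

theorem lift_fast {K : Type*} [Field K] (τ : PAut K 3) (μ : Fin 3 → ℝ) (hμ : ∀ i, 0 ≤ μ i)
    (Θ : ℝ) (hΘ : 1 < Θ)
    (hdeg : ∀ i, ∀ α ∈ (τ (X i)).support, Finsupp.weight μ α ≤ Θ * μ i)
    (J : Finset (Fin 3)) (hJ0 : ∀ i ∉ J, 0 < μ i)
    (hJ : ∀ i ∉ J, ∀ α ∈ (τ (X i)).support, Finsupp.weight μ α < Θ * μ i)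
    (hJ1 : ∀ j ∈ J, ∃ α ∈ (τ (X j)).support, (∀ i ∉ J, α i = 0) ∧ Finsupp.weight μ α = Θ * μ j)
    (v : Valuation K NNReal) (ϖ : K) (hϖ : 1 < v ϖ)
    (hunit : ∀ i, ∀ α ∈ (τ (X i)).support, v ((τ (X i)).coeff α) = 1)
    (e : ℕ → Fin 3 → K) (he : ∀ m i, v (e m i) ≤ 1) (he0 : ∀ m, ∀ i ∉ J, e m i = 0)
    (hstep : ∀ m, ∀ j ∈ J, v (e (m + 1) j -
      eval (e m) (weightedHomogeneousComponent μ (Θ * μ j) (τ (X j)))) < 1)
    (hne : ∀ m, ∃ j ∈ J, 0 < μ j ∧ v (e m j) = 1)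
    (H : MvPolynomial (Fin 3) K) (hH : H ≠ 0) : ∃ P : Fin 3 → K, eval P H ≠ 0 ∧ FastPt τ P := by
  have hg0 : v ϖ ≠ 0 := (lt_trans zero_lt_one hϖ).ne'
  have hϖ0 : ϖ ≠ 0 := by
    rintro rfl
    rw [map_zero] at hϖ
    exact absurd hϖ (by simp)
  obtain ⟨δ, ε, hδ0, hδ1, hε0, hε1, hc1, hc2⟩ :=
    Lift_const μ hμ Θ (fun i => (τ (X i)).support) J hJ0 hJ
  obtain ⟨T, _, hT, k, hk, hrel⟩ := approx_weights μ hμ ε hε0 0
  have hAe : ∀ j, ∃ α : Fin 3 →₀ ℕ, j ∈ J → (∀ i ∉ J, α i = 0) ∧ Finsupp.weight μ α = Θ * μ j := by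
    intro j
    by_cases hj : j ∈ J
    · obtain ⟨α, _, h1, h2⟩ := hJ1 j hj
      exact ⟨α, fun _ => ⟨h1, h2⟩⟩
    · exact ⟨0, fun h => absurd h hj⟩
  choose A hA using hAe
  obtain ⟨Kf, hK0, hKb, hKK⟩ := Lift_K μ Θ J T ε A (fun j hj => (hA j hj).1)
    (fun j hj => (hA j hj).2) k hk hrel
  obtain ⟨P, hPS, hPH⟩ := exists_eval_ne_zero H hH
    (fun i => if i ∈ J then {x : K | v (x / ϖ ^ (k i) - e 0 i) < 1} else {x : K | v x ≤ 1}) (by
      intro i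
      by_cases hi : i ∈ J
      · simp only [if_pos hi]
        refine (Lift_ball v ϖ hϖ (ϖ ^ (k i) * e 0 i) (v (ϖ ^ (k i))) ?_).mono ?_
        · rw [map_zpow₀]
          exact zpow_pos (lt_trans zero_lt_one hϖ) _
        · intro x hx
          have hx' : v (x - ϖ ^ (k i) * e 0 i) < v (ϖ ^ (k i)) := hx
          show v (x / ϖ ^ (k i) - e 0 i) < 1
          have hne : ϖ ^ (k i) ≠ 0 := zpow_ne_zero _ hϖ0
          have e1 : x / ϖ ^ (k i) - e 0 i = (x - ϖ ^ (k i) * e 0 i) / ϖ ^ (k i) := by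
            field_simp
          rw [e1, map_div₀]
          have hg : 0 < v (ϖ ^ (k i)) := by
            rw [map_zpow₀]
            exact zpow_pos (lt_trans zero_lt_one hϖ) _
          rw [div_lt_one hg]
          exact hx'
      · simp only [if_neg hi]
        refine (Lift_ball v ϖ hϖ 0 1 zero_lt_one).mono ?_
        intro x hx
        have hx' : v (x - 0) < 1 := hx
        rw [sub_zero] at hx'
        exact hx'.le)
  refine ⟨P, hPH, ?_⟩
  have hinv : ∀ m, Lift_inv v ϖ μ J (Kf m) (e m) (T * Θ ^ m) δ (orb τ P m) := by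
    intro m
    induction m with
    | zero =>
      constructor
      · intro j hj
        have h1 := hPS j
        simp only [if_pos hj] at h1
        rw [hK0]
        exact h1
      · intro i hi
        have h1 := hPS i
        simp only [if_neg hi] at h1
        have h2 : v (P i) ≤ 1 := h1
        rw [orb_zero]
        refine h2.trans (NNReal.one_le_rpow hϖ.le ?_)
        rw [pow_zero, mul_one]
        exact mul_nonneg (by linarith) (mul_nonneg hT.le (hμ i))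
    | succ m ih =>
      have h1 := Lift_step μ hμ Θ J v ϖ hϖ (fun i => τ (X i)) hdeg hunit δ ε hc1 hc2 (Kf m)
        (Kf (m + 1)) (e m) (e (m + 1)) (he m) (he0 m) (hstep m) (T * Θ ^ m)
        (mul_pos hT (pow_pos (lt_trans zero_lt_one hΘ) m)) (orb τ P m)
        (fun j hj => (hKb m j hj).2)
        (fun j hj => by
          have h2 := (hKb (m + 1) j hj).1
          have e3 : T * Θ ^ m * Θ = T * Θ ^ (m + 1) := by ring
          rw [e3]
          exact h2)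
        (hKK m) ih
      have e1 : (fun i => eval (orb τ P m) (τ (X i))) = orb τ P (m + 1) := by
        funext i
        rw [orb_succ_apply]
      have e2 : T * Θ ^ m * Θ = T * Θ ^ (m + 1) := by ring
      rw [e1, e2] at h1
      exact h1
  -- the smallest positive weight
  obtain ⟨μ0, hμ0, hμ1⟩ : ∃ μ0 : ℝ, 0 < μ0 ∧ ∀ i, 0 < μ i → μ0 ≤ μ i := by
    refine ⟨min (if 0 < μ 0 then μ 0 else 1) (min (if 0 < μ 1 then μ 1 else 1)
      (if 0 < μ 2 then μ 2 else 1)), ?_, ?_⟩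
    · refine lt_min ?_ (lt_min ?_ ?_)
      · split_ifs with h
        · exact h
        · exact one_pos
      · split_ifs with h
        · exact h
        · exact one_pos
      · split_ifs with h
        · exact h
        · exact one_pos
    · intro i hi
      fin_cases i
      · refine (min_le_left _ _).trans ?_
        have hi' : 0 < μ 0 := hi
        rw [if_pos hi']
        exact le_rfl
      · refine ((min_le_right _ _).trans (min_le_left _ _)).trans ?_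
        have hi' : 0 < μ 1 := hi
        rw [if_pos hi']
        exact le_rfl
      · refine ((min_le_right _ _).trans (min_le_right _ _)).trans ?_
        have hi' : 0 < μ 2 := hi
        rw [if_pos hi']
        exact le_rfl
  have hgR : (1 : ℝ) < (v ϖ : ℝ) := by exact_mod_cast hϖ
  have hlog : 0 < Real.log (v ϖ : ℝ) := Real.log_pos hgR
  have hε2 : 0 < 1 - ε := by linarith
  refine ⟨v, Real.log (v ϖ : ℝ) * ((1 - ε) * (T * μ0)), Θ,
    mul_pos hlog (mul_pos hε2 (mul_pos hT hμ0)), hΘ, ?_⟩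
  intro m
  obtain ⟨j, hj, hμj, hvj⟩ := hne m
  refine ⟨j, ?_⟩
  have h1 : v (orb τ P m j / ϖ ^ (Kf m j)) = 1 := by
    rw [← hvj]
    apply v.map_eq_of_sub_lt
    rw [hvj]
    exact (hinv m).1 j hj
  have h2 : v (orb τ P m j) = (v ϖ) ^ (Kf m j) := by
    rw [map_div₀, map_zpow₀] at h1
    have hg : (v ϖ) ^ (Kf m j) ≠ 0 := zpow_ne_zero _ hg0
    rw [div_eq_one_iff_eq hg] at h1
    exact h1
  rw [h2, NNReal.coe_zpow, ← Real.rpow_intCast, Real.rpow_def_of_pos (lt_trans one_pos hgR)]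
  refine Real.exp_le_exp.mpr ?_
  rw [mul_assoc]
  refine mul_le_mul_of_nonneg_left ?_ hlog.le
  refine le_trans ?_ (hKb m j hj).1
  have h3 : (1 - ε) * (T * μ0) * Θ ^ m = (1 - ε) * (T * Θ ^ m) * μ0 := by ring
  have h4 : (1 - ε) * (T * Θ ^ m * μ j) = (1 - ε) * (T * Θ ^ m) * μ j := by ring
  rw [h3, h4]
  exact mul_le_mul_of_nonneg_left (hμ1 j hμj)
    (mul_nonneg hε2.le (mul_nonneg hT.le (pow_nonneg (by linarith) m)))

end ZD85
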