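import Pool.Agent.H85.ZD.Crit
import Pool.Agent.H85.ZD.ApproxL

/-!
# ZD LiftN : points of exactly known size, any dimension (row `LiftN`; adapt the proof of `Lift.lean`)

Data.  `τ` an automorphism of `K[x_1..x_n]`, weights `μ_i ≥ 0`, `Θ > 1`, `weight α ≤ Θ μ_i` for the monomials `α` of `τ (X i)`.
`J`: for `i ∉ J` all monomials of `τ (X i)` have weight `< Θ μ_i` and `μ_i > 0`; for `j ∈ J` some monomial of `τ (X j)` of
weight `Θ μ_j` is supported in `J`.  `v` with `v ϖ > 1`; all coefficients of the `τ (X i)` have `v = 1`.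
`e m : Fin n → K` with `v (e m j) = 1` for `j ∈ J`, `e m i = 0` for `i ∉ J`, and for `j ∈ J`
`e (m+1) j ≡ (part of weight Θ μ_j of τ (X j))(e m)` modulo `{v < 1}`.
Conclusion: there are `T > 0` and a `ℚ`-linear `L : ℝ → ℚ` with, for all `m` and `j ∈ J`, `L (Θ^m μ_j) ∈ ℤ` and
`T Θ^m μ_j / 2 ≤ L (Θ^m μ_j) ≤ 2 T Θ^m μ_j`, such that the set of points `P` with
 (A) `v (x_m j) = (v ϖ)^(L (Θ^m μ_j))` for all `m`, `j ∈ J` and (B) `v (x_m i) ≤ (v ϖ)^(2 T Θ^m μ_i)` for all `m`, `i`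
(`x_m = orb τ P m`) is Zariski dense.

Proof (as in `Lift.lean`).  `w(α) = weight α`.  Choose `δ ∈ (0, 1/2)` with `w(α)(1 + δ) ≤ (1 - δ) Θ μ_i` for all `i ∉ J`,
`α ∈ supp τ(X i)`; then `ε ∈ (0, δ)`, `ε ≤ 1/2`, with (a) `(1 + ε) w(α) < (1 - ε) Θ μ_j` for `j ∈ J`, `α ∈ supp τ(X j)`,
`w(α) < Θ μ_j`; (b) for `j ∈ J`, `α ∈ supp τ(X j)` with `w(α) = Θ μ_j` not supported in `J`: `2 ε S < (δ - ε) S'`,
`S = ∑_{k ∈ J} α_k μ_k`, `S' = ∑_{k ∉ J} α_k μ_k > 0`.  `approx_lin` with `μ`, `ε`: `T, L`.  `K_m j := L (Θ^m μ_j)`.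
For `j ∈ J` fix `α^j ∈ supp τ(X j)` of weight `Θ μ_j` supported in `J`: `Θ μ_j = ∑_{i ∈ J} α^j_i μ_i`, so
`K_{m+1} j = ∑_i α^j_i K_m i`; by induction `K_m j ∈ ℤ` and `(1-ε) T Θ^m μ_j ≤ K_m j ≤ (1+ε) T Θ^m μ_j`.
For every `α` supported in `J` of weight `Θ μ_j`: `∑_i α_i K_m i = L (Θ^m ∑ α_i μ_i) = K_{m+1} j`.
Points: `S_i` for `i ∈ J`: `{x | v (x / ϖ^(K_0 i) - e 0 i) < 1}`; for `i ∉ J`: `{x | v x ≤ 1}` (infinite sets, contain balls).
Claim for `P i ∈ S_i`: (A') `v (x_m j / ϖ^(K_m j) - e m j) < 1` for `j ∈ J`; (B') `v (x_m i) ≤ g^((1-δ) T Θ^m μ_i)` for `i ∉ J`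
(`g = v ϖ`).  Induction exactly as in `Lift.lean`.  (A') and `v (e m j) = 1` give (A).
Then `exists_eval_ne_zero`.
-/

set_option autoImplicit false

namespace ZD85

open MvPolynomial

variable {n : ℕ}

theorem LiftN_w (μ : Fin n → ℝ) (α : Fin n →₀ ℕ) :
    Finsupp.weight μ α = ∑ k, (α k : ℝ) * μ k := by
  rw [Finsupp.weight_apply, Finsupp.sum_fintype _ _ (by simp)]
  simp [nsmul_eq_mul]

/-- part of the weight in `J`. -/
noncomputable def LiftN_SJ (μ : Fin n → ℝ) (J : Finset (Fin n)) (α : Fin n →₀ ℕ) : ℝ :=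
  ∑ k, if k ∈ J then (α k : ℝ) * μ k else 0

/-- part of the weight outside `J`. -/
noncomputable def LiftN_SN (μ : Fin n → ℝ) (J : Finset (Fin n)) (α : Fin n →₀ ℕ) : ℝ :=
  ∑ k, if k ∈ J then 0 else (α k : ℝ) * μ k

theorem LiftN_split (μ : Fin n → ℝ) (J : Finset (Fin n)) (α : Fin n →₀ ℕ) :
    Finsupp.weight μ α = LiftN_SJ μ J α + LiftN_SN μ J α := by
  rw [LiftN_w, LiftN_SJ, LiftN_SN, ← Finset.sum_add_distrib]
  refine Finset.sum_congr rfl (fun k _ => ?_)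
  split_ifs
  · rw [add_zero]
  · rw [zero_add]

theorem LiftN_SJ0 (μ : Fin n → ℝ) (hμ : ∀ i, 0 ≤ μ i) (J : Finset (Fin n)) (α : Fin n →₀ ℕ) :
    0 ≤ LiftN_SJ μ J α := by
  refine Finset.sum_nonneg (fun k _ => ?_)
  split_ifs
  · exact mul_nonneg (Nat.cast_nonneg _) (hμ k)
  · exact le_rfl

theorem LiftN_SN0 (μ : Fin n → ℝ) (hμ : ∀ i, 0 ≤ μ i) (J : Finset (Fin n)) (α : Fin n →₀ ℕ) :
    0 ≤ LiftN_SN μ J α := by
  refine Finset.sum_nonneg (fun k _ => ?_)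
  split_ifs
  · exact le_rfl
  · exact mul_nonneg (Nat.cast_nonneg _) (hμ k)

theorem LiftN_SNpos (μ : Fin n → ℝ) (hμ : ∀ i, 0 ≤ μ i) (J : Finset (Fin n))
    (hJ0 : ∀ i ∉ J, 0 < μ i) (α : Fin n →₀ ℕ) (h : ∃ i, i ∉ J ∧ α i ≠ 0) :
    0 < LiftN_SN μ J α := by
  obtain ⟨i, hi, hα⟩ := h
  refine Finset.sum_pos' (fun k _ => ?_) ⟨i, Finset.mem_univ i, ?_⟩
  · split_ifs
    · exact le_rfl
    · exact mul_nonneg (Nat.cast_nonneg _) (hμ k)
  · rw [if_neg hi]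
    exact mul_pos (Nat.cast_pos.mpr (Nat.pos_of_ne_zero hα)) (hJ0 i hi)

open Filter Topology in
theorem LiftN_ev (f g : ℝ → ℝ) (hf : Continuous f) (hg : Continuous g) (h : f 0 < g 0) :
    ∀ᶠ x in 𝓝 (0 : ℝ), f x < g x :=
  (hf.tendsto 0).eventually_lt (hg.tendsto 0) h

open Filter Topology in
theorem LiftN_const (μ : Fin n → ℝ) (hμ : ∀ i, 0 ≤ μ i) (Θ : ℝ)
    (A : Fin n → Finset (Fin n →₀ ℕ)) (J : Finset (Fin n)) (hJ0 : ∀ i ∉ J, 0 < μ i)
    (hJ : ∀ i ∉ J, ∀ α ∈ A i, Finsupp.weight μ α < Θ * μ i) :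
    ∃ δ ε : ℝ, 0 < δ ∧ δ < 1 / 2 ∧ 0 < ε ∧ ε < δ ∧
      (∀ i ∉ J, ∀ α ∈ A i, (1 + ε) * LiftN_SJ μ J α + (1 - δ) * LiftN_SN μ J α ≤
        (1 - δ) * (Θ * μ i)) ∧
      (∀ j ∈ J, ∀ α ∈ A j, (Finsupp.weight μ α < Θ * μ j ∨
        (Finsupp.weight μ α = Θ * μ j ∧ ∃ i, i ∉ J ∧ α i ≠ 0)) →
        (1 + ε) * LiftN_SJ μ J α + (1 - δ) * LiftN_SN μ J α < (1 - ε) * (Θ * μ j)) := by
  have h1 : ∀ᶠ δ in 𝓝 (0 : ℝ), ∀ i, ∀ α ∈ A i, i ∉ J →
      Finsupp.weight μ α * (1 + δ) < (1 - δ) * (Θ * μ i) := by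
    rw [eventually_all]
    intro i
    rw [eventually_all_finset]
    intro α hα
    by_cases hi : i ∈ J
    · exact Eventually.of_forall (fun _ h => absurd hi h)
    · have h2 := LiftN_ev (fun δ => Finsupp.weight μ α * (1 + δ)) (fun δ => (1 - δ) * (Θ * μ i))
        (by fun_prop) (by fun_prop) (by simpa using hJ i hi α hα)
      exact h2.mono (fun δ h _ => h)
  obtain ⟨δ, hδ, hδ0, hδ1⟩ : ∃ δ : ℝ, (∀ i, ∀ α ∈ A i, i ∉ J →
      Finsupp.weight μ α * (1 + δ) < (1 - δ) * (Θ * μ i)) ∧ 0 < δ ∧ δ < 1 / 2 := by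
    have h3 : ∀ᶠ δ in 𝓝[>] (0 : ℝ), δ ∈ Set.Ioo (0 : ℝ) (1 / 2) :=
      Ioo_mem_nhdsGT (by norm_num)
    obtain ⟨δ, h4, h5⟩ := ((h1.filter_mono nhdsWithin_le_nhds).and h3).exists
    exact ⟨δ, h4, h5.1, h5.2⟩
  have h6 : ∀ᶠ ε in 𝓝 (0 : ℝ), ∀ j, ∀ α ∈ A j, (Finsupp.weight μ α < Θ * μ j ∨
        (Finsupp.weight μ α = Θ * μ j ∧ ∃ i, i ∉ J ∧ α i ≠ 0)) →
        (1 + ε) * LiftN_SJ μ J α + (1 - δ) * LiftN_SN μ J α < (1 - ε) * (Θ * μ j) := by
    rw [eventually_all]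
    intro j
    rw [eventually_all_finset]
    intro α hα
    by_cases hc : (Finsupp.weight μ α < Θ * μ j ∨
        (Finsupp.weight μ α = Θ * μ j ∧ ∃ i, i ∉ J ∧ α i ≠ 0))
    · have h7 := LiftN_ev (fun ε => (1 + ε) * LiftN_SJ μ J α + (1 - δ) * LiftN_SN μ J α)
        (fun ε => (1 - ε) * (Θ * μ j)) (by fun_prop) (by fun_prop) (by
          have h8 := LiftN_split μ J α
          have h9 := LiftN_SN0 μ hμ J α
          have h10 := mul_nonneg hδ0.le h9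
          simp only [add_zero, sub_zero, one_mul]
          rcases hc with hc | hc
          · linarith
          · have h11 := mul_pos hδ0 (LiftN_SNpos μ hμ J hJ0 α hc.2)
            have h12 := hc.1
            linarith)
      exact h7.mono (fun δ h _ => h)
    · exact Eventually.of_forall (fun _ h => absurd h hc)
  obtain ⟨ε, hε, hε0, hε1⟩ : ∃ ε : ℝ, (∀ j, ∀ α ∈ A j, (Finsupp.weight μ α < Θ * μ j ∨
        (Finsupp.weight μ α = Θ * μ j ∧ ∃ i, i ∉ J ∧ α i ≠ 0)) →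
        (1 + ε) * LiftN_SJ μ J α + (1 - δ) * LiftN_SN μ J α < (1 - ε) * (Θ * μ j)) ∧
        0 < ε ∧ ε < δ := by
    have h3 : ∀ᶠ ε in 𝓝[>] (0 : ℝ), ε ∈ Set.Ioo (0 : ℝ) δ := Ioo_mem_nhdsGT hδ0
    obtain ⟨ε, h4, h5⟩ := ((h6.filter_mono nhdsWithin_le_nhds).and h3).exists
    exact ⟨ε, h4, h5.1, h5.2⟩
  refine ⟨δ, ε, hδ0, hδ1, hε0, hε1, ?_, fun j _ α hα hc => hε j α hα hc⟩
  intro i hi α hα
  have h7 := hδ i α hα hi
  have h8 := LiftN_split μ J α
  have h9 := LiftN_SN0 μ hμ J α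
  have h10 := LiftN_SJ0 μ hμ J α
  have h11 : (1 + ε) * LiftN_SJ μ J α ≤ (1 + δ) * LiftN_SJ μ J α :=
    mul_le_mul_of_nonneg_right (by linarith) h10
  have h12 : (1 - δ) * LiftN_SN μ J α ≤ (1 + δ) * LiftN_SN μ J α :=
    mul_le_mul_of_nonneg_right (by linarith) h9
  have h13 : Finsupp.weight μ α * (1 + δ) =
      (1 + δ) * LiftN_SJ μ J α + (1 + δ) * LiftN_SN μ J α := by rw [h8]; ring
  linarith

section
variable {K : Type*} [Field K] (v : Valuation K NNReal)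

theorem LiftN_mul {a b c d : K} (h1 : v a ≤ 1 ∧ v b ≤ 1 ∧ v (a - b) < 1)
    (h2 : v c ≤ 1 ∧ v d ≤ 1 ∧ v (c - d) < 1) :
    v (a * c) ≤ 1 ∧ v (b * d) ≤ 1 ∧ v (a * c - b * d) < 1 := by
  refine ⟨?_, ?_, ?_⟩
  · rw [map_mul]
    exact mul_le_one' h1.1 h2.1
  · rw [map_mul]
    exact mul_le_one' h1.2.1 h2.2.1
  · have h3 : a * c - b * d = (a - b) * c + b * (c - d) := by ring
    rw [h3]
    refine lt_of_le_of_lt (v.map_add _ _) (max_lt ?_ ?_)
    · rw [map_mul]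
      exact lt_of_le_of_lt (mul_le_mul' le_rfl h2.1) (by rw [mul_one]; exact h1.2.2)
    · rw [map_mul]
      exact lt_of_le_of_lt (mul_le_mul' h1.2.1 le_rfl) (by rw [one_mul]; exact h2.2.2)

theorem LiftN_pow {a b : K} (h : v a ≤ 1 ∧ v b ≤ 1 ∧ v (a - b) < 1) (n : ℕ) :
    v (a ^ n) ≤ 1 ∧ v (b ^ n) ≤ 1 ∧ v (a ^ n - b ^ n) < 1 := by
  induction n with
  | zero => simp
  | succ n ih =>
    rw [pow_succ, pow_succ]
    exact LiftN_mul v ih h

theorem LiftN_prod (a b : Fin n → K) (α : Fin n →₀ ℕ)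
    (h : ∀ k, α k ≠ 0 → v (a k) ≤ 1 ∧ v (b k) ≤ 1 ∧ v (a k - b k) < 1) :
    v (∏ k, a k ^ α k - ∏ k, b k ^ α k) < 1 := by
  classical
  have h1 : ∀ k, v (a k ^ α k) ≤ 1 ∧ v (b k ^ α k) ≤ 1 ∧ v (a k ^ α k - b k ^ α k) < 1 := by
    intro k
    by_cases hk : α k = 0
    · rw [hk]
      simp
    · exact LiftN_pow v (h k hk) _
  have h2 : ∀ s : Finset (Fin n), v (∏ k ∈ s, a k ^ α k) ≤ 1 ∧ v (∏ k ∈ s, b k ^ α k) ≤ 1 ∧
      v (∏ k ∈ s, a k ^ α k - ∏ k ∈ s, b k ^ α k) < 1 := by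
    intro s
    induction s using Finset.induction_on with
    | empty => simp
    | insert k s hk ih =>
      rw [Finset.prod_insert hk, Finset.prod_insert hk]
      exact LiftN_mul v (h1 k) ih
  exact (h2 Finset.univ).2.2

theorem LiftN_rpow_sum (g : NNReal) (hg : g ≠ 0) (s : Finset (Fin n)) (f : Fin n → ℝ) :
    g ^ (∑ k ∈ s, f k) = ∏ k ∈ s, g ^ (f k) := by
  classical
  induction s using Finset.induction_on with
  | empty => simp
  | insert k s hk ih =>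
    rw [Finset.sum_insert hk, Finset.prod_insert hk, NNReal.rpow_add hg, ih]

/-- size of a monomial. -/
theorem LiftN_term (g : NNReal) (hg : 1 < g) (x : Fin n → K) (E : Fin n → ℝ)
    (h : ∀ k, v (x k) ≤ g ^ (E k)) (c : K) (hc : v c = 1) (α : Fin n →₀ ℕ) :
    v (c * ∏ k, x k ^ α k) ≤ g ^ (∑ k, (α k : ℝ) * E k) := by
  have hg0 : g ≠ 0 := (lt_trans zero_lt_one hg).ne'
  have h1 : ∀ k, v (x k ^ α k) ≤ g ^ ((α k : ℝ) * E k) := by
    intro k
    rw [map_pow, mul_comm, NNReal.rpow_mul, NNReal.rpow_natCast]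
    exact pow_le_pow_left' (h k) _
  rw [map_mul, hc, one_mul, map_prod, LiftN_rpow_sum g hg0]
  exact Finset.prod_le_prod' (fun k _ => h1 k)

end

theorem LiftN_sumE (μ : Fin n → ℝ) (J : Finset (Fin n)) (s δ ε : ℝ) (α : Fin n →₀ ℕ) :
    ∑ k, (α k : ℝ) * (if k ∈ J then (1 + ε) * (s * μ k) else (1 - δ) * (s * μ k)) =
      s * ((1 + ε) * LiftN_SJ μ J α + (1 - δ) * LiftN_SN μ J α) := by
  unfold LiftN_SJ LiftN_SN
  rw [Finset.mul_sum, Finset.mul_sum, ← Finset.sum_add_distrib, Finset.mul_sum]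
  refine Finset.sum_congr rfl (fun k _ => ?_)
  split_ifs <;> ring

theorem LiftN_K (μ : Fin n → ℝ) (Θ : ℝ) (J : Finset (Fin n)) (T ε : ℝ)
    (A : Fin n → (Fin n →₀ ℕ)) (hA2 : ∀ j ∈ J, ∀ i ∉ J, A j i = 0)
    (hA3 : ∀ j ∈ J, Finsupp.weight μ (A j) = Θ * μ j) (k : Fin n → ℤ)
    (hk : ∀ i, |(k i : ℝ) - T * μ i| ≤ ε * T * μ i)
    (hrel : ∀ r : Fin n → ℤ, ∑ i, (r i : ℝ) * μ i = 0 → ∑ i, r i * k i = 0) :
    ∃ Kf : ℕ → Fin n → ℤ, Kf 0 = k ∧
      (∀ m, ∀ j ∈ J, (1 - ε) * (T * Θ ^ m * μ j) ≤ (Kf m j : ℝ) ∧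
        (Kf m j : ℝ) ≤ (1 + ε) * (T * Θ ^ m * μ j)) ∧
      (∀ m, ∀ j ∈ J, ∀ α : Fin n →₀ ℕ, (∀ i ∉ J, α i = 0) → Finsupp.weight μ α = Θ * μ j →
        ∑ i, (α i : ℤ) * Kf m i = Kf (m + 1) j) := by
  obtain ⟨Kf, hK0, hKs⟩ : ∃ Kf : ℕ → Fin n → ℤ, Kf 0 = k ∧
      ∀ m j, Kf (m + 1) j = ∑ i, (A j i : ℤ) * Kf m i :=
    ⟨fun m => Nat.rec k (fun _ q j => ∑ i, (A j i : ℤ) * q i) m, rfl, fun m j => rfl⟩
  have hR : ∀ m, ∀ r : Fin n → ℤ, (∀ i ∉ J, r i = 0) → ∑ i, (r i : ℝ) * μ i = 0 →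
      ∑ i, r i * Kf m i = 0 := by
    intro m
    induction m with
    | zero =>
      intro r _ hr
      rw [hK0]
      exact hrel r hr
    | succ m ih =>
      intro r hr0 hr
      have h1 := ih (fun i => ∑ j, r j * (A j i : ℤ)) (by
        intro i hi
        refine Finset.sum_eq_zero (fun j _ => ?_)
        by_cases hj : j ∈ J
        · rw [hA2 j hj i hi]
          simp
        · rw [hr0 j hj, zero_mul]) (by
        have e1 : ∀ i, ((∑ j, r j * (A j i : ℤ) : ℤ) : ℝ) * μ i =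
            ∑ j, (r j : ℝ) * ((A j i : ℝ) * μ i) := by
          intro i
          push_cast
          rw [Finset.sum_mul]
          exact Finset.sum_congr rfl (fun j _ => by ring)
        simp only [e1]
        rw [Finset.sum_comm]
        have e2 : ∀ j, ∑ i, (r j : ℝ) * ((A j i : ℝ) * μ i) = Θ * ((r j : ℝ) * μ j) := by
          intro j
          rw [← Finset.mul_sum, ← LiftN_w]
          by_cases hj : j ∈ J
          · rw [hA3 j hj]
            ring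
          · rw [hr0 j hj]
            simp
        simp only [e2]
        rw [← Finset.mul_sum, hr, mul_zero])
      have e3 : ∑ j, r j * Kf (m + 1) j = ∑ i, (∑ j, r j * (A j i : ℤ)) * Kf m i := by
        simp only [hKs, Finset.mul_sum, Finset.sum_mul]
        rw [Finset.sum_comm]
        exact Finset.sum_congr rfl (fun i _ => Finset.sum_congr rfl (fun j _ => by ring))
      rw [e3]
      exact h1
  refine ⟨Kf, hK0, ?_, ?_⟩
  · intro m
    induction m with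
    | zero =>
      intro j _
      rw [hK0]
      have h1 := abs_le.mp (hk j)
      rw [pow_zero, mul_one]
      constructor
      · have h2 := h1.1
        have h3 : (1 - ε) * (T * μ j) = T * μ j - ε * T * μ j := by ring
        rw [h3]
        linarith
      · have h2 := h1.2
        have h3 : (1 + ε) * (T * μ j) = T * μ j + ε * T * μ j := by ring
        rw [h3]
        linarith
    | succ m ih =>
      intro j hj
      have e1 : (Kf (m + 1) j : ℝ) = ∑ i, (A j i : ℝ) * (Kf m i : ℝ) := by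
        rw [hKs]
        push_cast
        rfl
      have e2 : ∀ c : ℝ, ∑ i, (A j i : ℝ) * (c * (T * Θ ^ m * μ i)) =
          c * (T * Θ ^ (m + 1) * μ j) := by
        intro c
        have e3 : ∑ i, (A j i : ℝ) * (c * (T * Θ ^ m * μ i)) =
            c * (T * Θ ^ m) * ∑ i, (A j i : ℝ) * μ i := by
          rw [Finset.mul_sum]
          exact Finset.sum_congr rfl (fun i _ => by ring)
        rw [e3, ← LiftN_w, hA3 j hj]
        ring
      rw [e1, ← e2, ← e2]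
      constructor
      · refine Finset.sum_le_sum (fun i _ => ?_)
        by_cases hi : i ∈ J
        · exact mul_le_mul_of_nonneg_left (ih i hi).1 (Nat.cast_nonneg _)
        · rw [hA2 j hj i hi]
          simp
      · refine Finset.sum_le_sum (fun i _ => ?_)
        by_cases hi : i ∈ J
        · exact mul_le_mul_of_nonneg_left (ih i hi).2 (Nat.cast_nonneg _)
        · rw [hA2 j hj i hi]
          simp
  · intro m j hj α hα hw
    have h1 := hR m (fun i => (α i : ℤ) - (A j i : ℤ)) (by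
      intro i hi
      show (α i : ℤ) - (A j i : ℤ) = 0
      rw [hα i hi, hA2 j hj i hi]
      simp) (by
      have e1 : ∀ i, (((α i : ℤ) - (A j i : ℤ) : ℤ) : ℝ) * μ i =
          (α i : ℝ) * μ i - (A j i : ℝ) * μ i := by
        intro i
        push_cast
        ring
      simp only [e1]
      rw [Finset.sum_sub_distrib, ← LiftN_w, ← LiftN_w, hw, hA3 j hj, sub_self])
    rw [hKs]
    have e2 : ∑ i, ((α i : ℤ) - (A j i : ℤ)) * Kf m i =
        ∑ i, (α i : ℤ) * Kf m i - ∑ i, (A j i : ℤ) * Kf m i := by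
      rw [← Finset.sum_sub_distrib]
      exact Finset.sum_congr rfl (fun i _ => by ring)
    rw [e2] at h1
    linarith

/-- the invariant of the orbit. -/
def LiftN_inv {K : Type*} [Field K] (v : Valuation K NNReal) (ϖ : K) (μ : Fin n → ℝ)
    (J : Finset (Fin n)) (Kf : Fin n → ℤ) (e : Fin n → K) (s δ : ℝ) (x : Fin n → K) : Prop :=
  (∀ j ∈ J, v (x j / ϖ ^ (Kf j) - e j) < 1) ∧
    (∀ i ∉ J, v (x i) ≤ (v ϖ) ^ ((1 - δ) * (s * μ i)))

theorem LiftN_up {K : Type*} [Field K] (v : Valuation K NNReal) (ϖ : K) (hϖ : 1 < v ϖ)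
    (μ : Fin n → ℝ)
    (J : Finset (Fin n)) (Kf : Fin n → ℤ) (e : Fin n → K) (he : ∀ i, v (e i) ≤ 1) (s δ ε : ℝ)
    (x : Fin n → K) (hK : ∀ j ∈ J, (Kf j : ℝ) ≤ (1 + ε) * (s * μ j))
    (h : LiftN_inv v ϖ μ J Kf e s δ x) (k : Fin n) :
    v (x k) ≤ (v ϖ) ^ (if k ∈ J then (1 + ε) * (s * μ k) else (1 - δ) * (s * μ k)) := by
  have hϖ0 : ϖ ≠ 0 := by
    rintro rfl
    rw [map_zero] at hϖ
    exact absurd hϖ (by simp)
  by_cases hk : k ∈ J
  · rw [if_pos hk]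
    have h1 : v (x k / ϖ ^ (Kf k)) ≤ 1 := by
      have e1 : x k / ϖ ^ (Kf k) = (x k / ϖ ^ (Kf k) - e k) + e k := by ring
      rw [e1]
      exact v.map_add_le (h.1 k hk).le (he k)
    rw [map_div₀, map_zpow₀] at h1
    have hg : 0 < (v ϖ) ^ (Kf k) := zpow_pos (lt_trans zero_lt_one hϖ) _
    rw [div_le_one hg] at h1
    refine h1.trans ?_
    rw [← NNReal.rpow_intCast]
    exact NNReal.rpow_le_rpow_of_exponent_le hϖ.le (hK k hk)
  · rw [if_neg hk]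
    exact h.2 k hk

theorem LiftN_eval_whc {K : Type*} [Field K] (μ : Fin n → ℝ) (c : ℝ) (F : MvPolynomial (Fin n) K)
    (e : Fin n → K) :
    eval e (weightedHomogeneousComponent μ c F) =
      ∑ α ∈ F.support, if Finsupp.weight μ α = c then F.coeff α * ∏ k, e k ^ α k else 0 := by
  classical
  rw [weightedHomogeneousComponent_apply, map_sum, Finset.sum_filter]
  refine Finset.sum_congr rfl (fun α _ => ?_)
  split_ifs
  · rw [eval_monomial, Finsupp.prod_pow]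
  · rfl

theorem LiftN_zpow_sum {K : Type*} [Field K] {ϖ : K} (h : ϖ ≠ 0) (s : Finset (Fin n))
    (f : Fin n → ℤ) : ϖ ^ (∑ k ∈ s, f k) = ∏ k ∈ s, ϖ ^ (f k) := by
  classical
  induction s using Finset.induction_on with
  | empty => simp
  | insert k s hk ih =>
    rw [Finset.sum_insert hk, Finset.prod_insert hk, zpow_add₀ h, ih]

theorem LiftN_step {K : Type*} [Field K] (μ : Fin n → ℝ) (hμ : ∀ i, 0 ≤ μ i)
    (Θ : ℝ) (J : Finset (Fin n))
    (v : Valuation K NNReal) (ϖ : K) (hϖ : 1 < v ϖ) (F : Fin n → MvPolynomial (Fin n) K)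
    (hdeg : ∀ i, ∀ α ∈ (F i).support, Finsupp.weight μ α ≤ Θ * μ i)
    (hunit : ∀ i, ∀ α ∈ (F i).support, v ((F i).coeff α) = 1)
    (δ ε : ℝ) (hc1 : ∀ i ∉ J, ∀ α ∈ (F i).support,
      (1 + ε) * LiftN_SJ μ J α + (1 - δ) * LiftN_SN μ J α ≤ (1 - δ) * (Θ * μ i))
    (hc2 : ∀ j ∈ J, ∀ α ∈ (F j).support, (Finsupp.weight μ α < Θ * μ j ∨
        (Finsupp.weight μ α = Θ * μ j ∧ ∃ i, i ∉ J ∧ α i ≠ 0)) →
        (1 + ε) * LiftN_SJ μ J α + (1 - δ) * LiftN_SN μ J α < (1 - ε) * (Θ * μ j))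
    (Kf Kf' : Fin n → ℤ) (e e' : Fin n → K) (he : ∀ i, v (e i) ≤ 1) (he0 : ∀ i ∉ J, e i = 0)
    (hstep : ∀ j ∈ J, v (e' j -
      eval e (weightedHomogeneousComponent μ (Θ * μ j) (F j))) < 1)
    (s : ℝ) (hs : 0 < s) (x : Fin n → K)
    (hK : ∀ j ∈ J, (Kf j : ℝ) ≤ (1 + ε) * (s * μ j))
    (hK' : ∀ j ∈ J, (1 - ε) * (s * Θ * μ j) ≤ (Kf' j : ℝ))
    (hKK : ∀ j ∈ J, ∀ α : Fin n →₀ ℕ, (∀ i ∉ J, α i = 0) → Finsupp.weight μ α = Θ * μ j →
        ∑ i, (α i : ℤ) * Kf i = Kf' j)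
    (h : LiftN_inv v ϖ μ J Kf e s δ x) :
    LiftN_inv v ϖ μ J Kf' e' (s * Θ) δ (fun i => eval x (F i)) := by
  have hg0 : v ϖ ≠ 0 := (lt_trans zero_lt_one hϖ).ne'
  have hϖ0 : ϖ ≠ 0 := by
    rintro rfl
    rw [map_zero] at hϖ
    exact absurd hϖ (by simp)
  have hup := LiftN_up v ϖ hϖ μ J Kf e he s δ ε x hK h
  have hterm : ∀ i, ∀ α ∈ (F i).support, v ((F i).coeff α * ∏ k, x k ^ α k) ≤
      (v ϖ) ^ (s * ((1 + ε) * LiftN_SJ μ J α + (1 - δ) * LiftN_SN μ J α)) := by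
    intro i α hα
    have h1 := LiftN_term v (v ϖ) hϖ x _ hup ((F i).coeff α) (hunit i α hα) α
    rw [LiftN_sumE] at h1
    exact h1
  constructor
  · intro j hj
    show v (eval x (F j) / ϖ ^ (Kf' j) - e' j) < 1
    have e1 : eval x (F j) / ϖ ^ (Kf' j) - e' j =
        (∑ α ∈ (F j).support, ((F j).coeff α * (∏ k, x k ^ α k) / ϖ ^ (Kf' j) -
          if Finsupp.weight μ α = Θ * μ j then (F j).coeff α * ∏ k, e k ^ α k else 0)) -
        (e' j - eval e (weightedHomogeneousComponent μ (Θ * μ j) (F j))) := by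
      rw [Finset.sum_sub_distrib, ← Finset.sum_div, ← eval_eq', ← LiftN_eval_whc]
      ring
    rw [e1]
    refine v.map_sub_lt (v.map_sum_lt one_ne_zero (fun α hα => ?_)) (hstep j hj)
    by_cases hc : (Finsupp.weight μ α < Θ * μ j ∨
        (Finsupp.weight μ α = Θ * μ j ∧ ∃ i, i ∉ J ∧ α i ≠ 0))
    · have e2 : (if Finsupp.weight μ α = Θ * μ j then (F j).coeff α * ∏ k, e k ^ α k else 0) = 0 := by
        rcases hc with hc | ⟨hc, i, hi, hαi⟩
        · rw [if_neg hc.ne]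
        · rw [if_pos hc]
          have e3 : ∏ k, e k ^ α k = 0 := by
            refine Finset.prod_eq_zero (Finset.mem_univ i) ?_
            rw [he0 i hi]
            exact zero_pow hαi
          rw [e3, mul_zero]
      rw [e2, sub_zero, map_div₀, map_zpow₀]
      have hg : 0 < (v ϖ) ^ (Kf' j) := zpow_pos (lt_trans zero_lt_one hϖ) _
      rw [div_lt_one hg]
      refine lt_of_le_of_lt (hterm j α hα) ?_
      rw [← NNReal.rpow_intCast]
      refine NNReal.rpow_lt_rpow_of_exponent_lt hϖ (lt_of_lt_of_le ?_ (hK' j hj))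
      have h2 := mul_lt_mul_of_pos_left (hc2 j hj α hα hc) hs
      have e4 : (1 - ε) * (s * Θ * μ j) = s * ((1 - ε) * (Θ * μ j)) := by ring
      rw [e4]
      exact h2
    · push Not at hc
      have hw : Finsupp.weight μ α = Θ * μ j := le_antisymm (hdeg j α hα) hc.1
      have hα0 : ∀ i ∉ J, α i = 0 := hc.2 hw
      rw [if_pos hw]
      have e5 : ϖ ^ (Kf' j) = ∏ k, (ϖ ^ (Kf k)) ^ α k := by
        rw [← hKK j hj α hα0 hw, LiftN_zpow_sum hϖ0]
        have e6 : ∀ k, ϖ ^ ((α k : ℤ) * Kf k) = (ϖ ^ (Kf k)) ^ α k := by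
          intro k
          rw [mul_comm, zpow_mul, zpow_natCast]
        exact Finset.prod_congr rfl (fun k _ => e6 k)
      have e7 : (F j).coeff α * (∏ k, x k ^ α k) / ϖ ^ (Kf' j) - (F j).coeff α * ∏ k, e k ^ α k =
          (F j).coeff α * ((∏ k, (x k / ϖ ^ (Kf k)) ^ α k) - ∏ k, e k ^ α k) := by
        have e8 : (∏ k, (x k / ϖ ^ (Kf k)) ^ α k) = (∏ k, x k ^ α k) / ϖ ^ (Kf' j) := by
          rw [e5, ← Finset.prod_div_distrib]
          exact Finset.prod_congr rfl (fun k _ => div_pow _ _ _)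
        rw [e8]
        ring
      rw [e7, map_mul, hunit j α hα, one_mul]
      refine LiftN_prod v _ _ α (fun k hk => ?_)
      have hkJ : k ∈ J := by
        by_contra hkJ
        exact hk (hα0 k hkJ)
      have h3 := h.1 k hkJ
      refine ⟨?_, he k, h3⟩
      have e9 : x k / ϖ ^ (Kf k) = (x k / ϖ ^ (Kf k) - e k) + e k := by ring
      rw [e9]
      exact v.map_add_le h3.le (he k)
  · intro i hi
    show v (eval x (F i)) ≤ _
    rw [eval_eq']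
    refine v.map_sum_le (fun α hα => (hterm i α hα).trans ?_)
    refine NNReal.rpow_le_rpow_of_exponent_le hϖ.le ?_
    have h2 := mul_le_mul_of_nonneg_left (hc1 i hi α hα) hs.le
    have e4 : (1 - δ) * (s * Θ * μ i) = s * ((1 - δ) * (Θ * μ i)) := by ring
    rw [e4]
    exact h2

theorem LiftN_ball {K : Type*} [Field K] (v : Valuation K NNReal) (ϖ : K) (hϖ : 1 < v ϖ)
    (a : K) (r : NNReal) (hr : 0 < r) : {x : K | v (x - a) < r}.Infinite := by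
  have hϖ0 : ϖ ≠ 0 := by
    rintro rfl
    rw [map_zero] at hϖ
    exact absurd hϖ (by simp)
  refine ball_infinite v ϖ⁻¹ (inv_ne_zero hϖ0) ?_ a r hr
  rw [map_inv₀]
  exact inv_lt_one_of_one_lt₀ hϖ

theorem lift_sizes {K : Type*} [Field K] {n : ℕ} (τ : PAut K n) (μ : Fin n → ℝ) (hμ : ∀ i, 0 ≤ μ i)
    (Θ : ℝ) (hΘ : 1 < Θ)
    (hdeg : ∀ i, ∀ α ∈ (τ (X i)).support, Finsupp.weight μ α ≤ Θ * μ i)
    (J : Finset (Fin n)) (hJ0 : ∀ i ∉ J, 0 < μ i)
    (hJ : ∀ i ∉ J, ∀ α ∈ (τ (X i)).support, Finsupp.weight μ α < Θ * μ i)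
    (hJ1 : ∀ j ∈ J, ∃ α ∈ (τ (X j)).support, (∀ i ∉ J, α i = 0) ∧ Finsupp.weight μ α = Θ * μ j)
    (v : Valuation K NNReal) (ϖ : K) (hϖ : 1 < v ϖ)
    (hunit : ∀ i, ∀ α ∈ (τ (X i)).support, v ((τ (X i)).coeff α) = 1)
    (e : ℕ → Fin n → K) (he : ∀ m, ∀ j ∈ J, v (e m j) = 1) (he0 : ∀ m, ∀ i ∉ J, e m i = 0)
    (hstep : ∀ m, ∀ j ∈ J, v (e (m + 1) j -
      eval (e m) (weightedHomogeneousComponent μ (Θ * μ j) (τ (X j)))) < 1) :
    ∃ (T : ℝ) (L : ℝ →ₗ[ℚ] ℚ), 0 < T ∧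
      (∀ m : ℕ, ∀ j ∈ J, (∃ k : ℤ, L (Θ ^ m * μ j) = k) ∧
        T * Θ ^ m * μ j / 2 ≤ ((L (Θ ^ m * μ j) : ℚ) : ℝ) ∧ ((L (Θ ^ m * μ j) : ℚ) : ℝ) ≤ 2 * T * Θ ^ m * μ j) ∧
      ∀ H : MvPolynomial (Fin n) K, H ≠ 0 → ∃ P : Fin n → K, eval P H ≠ 0 ∧
        (∀ m : ℕ, ∀ j ∈ J, (v (orb τ P m j) : ℝ) = (v ϖ : ℝ) ^ ((L (Θ ^ m * μ j) : ℚ) : ℝ)) ∧
        (∀ (m : ℕ) (i : Fin n), (v (orb τ P m i) : ℝ) ≤ (v ϖ : ℝ) ^ (2 * T * Θ ^ m * μ i)) := by
  have hg0 : v ϖ ≠ 0 := (lt_trans zero_lt_one hϖ).ne'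
  have hgR : (0 : ℝ) < (v ϖ : ℝ) := by
    have := lt_trans zero_lt_one hϖ
    exact_mod_cast this
  have hϖ0 : ϖ ≠ 0 := by
    rintro rfl
    rw [map_zero] at hϖ
    exact absurd hϖ (by simp)
  have he1 : ∀ m i, v (e m i) ≤ 1 := by
    intro m i
    by_cases hi : i ∈ J
    · exact (he m i hi).le
    · rw [he0 m i hi, map_zero]
      exact zero_le_one
  obtain ⟨δ, ε, hδ0, hδ1, hε0, hε1, hc1, hc2⟩ :=
    LiftN_const μ hμ Θ (fun i => (τ (X i)).support) J hJ0 hJ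
  obtain ⟨T, L, hT, hint, hk⟩ := approx_lin μ hμ ε hε0
  choose k hLk using hint
  have hk' : ∀ i, |(k i : ℝ) - T * μ i| ≤ ε * T * μ i := by
    intro i
    have h1 := hk i
    rw [hLk i] at h1
    push_cast at h1
    exact h1
  have hrel : ∀ r : Fin n → ℤ, ∑ i, (r i : ℝ) * μ i = 0 → ∑ i, r i * k i = 0 := by
    intro r hr
    have h1 : L (∑ i, (r i : ℝ) * μ i) = ∑ i, (r i : ℚ) * (k i : ℚ) := by
      rw [map_sum]
      refine Finset.sum_congr rfl (fun i _ => ?_)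
      rw [← zsmul_eq_mul, map_zsmul, hLk i, zsmul_eq_mul]
    rw [hr, map_zero] at h1
    have h2 : ((∑ i, r i * k i : ℤ) : ℚ) = 0 := by
      push_cast
      exact h1.symm
    exact_mod_cast h2
  have hAe : ∀ j, ∃ α : Fin n →₀ ℕ, j ∈ J → (∀ i ∉ J, α i = 0) ∧ Finsupp.weight μ α = Θ * μ j := by
    intro j
    by_cases hj : j ∈ J
    · obtain ⟨α, _, h1, h2⟩ := hJ1 j hj
      exact ⟨α, fun _ => ⟨h1, h2⟩⟩
    · exact ⟨0, fun h => absurd h hj⟩
  choose A hA using hAe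
  obtain ⟨Kf, hK0, hKb, hKK⟩ := LiftN_K μ Θ J T ε A (fun j hj => (hA j hj).1)
    (fun j hj => (hA j hj).2) k hk' hrel
  have hKL : ∀ m : ℕ, ∀ j ∈ J, L (Θ ^ m * μ j) = (Kf m j : ℚ) := by
    intro m
    induction m with
    | zero =>
      intro j _
      rw [pow_zero, one_mul, hK0]
      exact hLk j
    | succ m ih =>
      intro j hj
      rw [← hKK m j hj (A j) (hA j hj).1 (hA j hj).2]
      have e1 : Θ ^ (m + 1) * μ j = ∑ i, (A j i) • (Θ ^ m * μ i) := by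
        have e2 := (hA j hj).2
        rw [LiftN_w] at e2
        rw [pow_succ, mul_assoc, ← e2, Finset.mul_sum]
        refine Finset.sum_congr rfl (fun i _ => ?_)
        rw [nsmul_eq_mul]
        ring
      rw [e1, map_sum]
      push_cast
      refine Finset.sum_congr rfl (fun i _ => ?_)
      rw [map_nsmul, nsmul_eq_mul]
      by_cases hi : i ∈ J
      · rw [ih i hi]
      · rw [(hA j hj).1 i hi]
        simp
  have hKR : ∀ m : ℕ, ∀ j ∈ J, ((L (Θ ^ m * μ j) : ℚ) : ℝ) = (Kf m j : ℝ) := by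
    intro m j hj
    rw [hKL m j hj]
    push_cast
    rfl
  have hTp : ∀ (m : ℕ) (i : Fin n), 0 ≤ T * Θ ^ m * μ i := fun m i =>
    mul_nonneg (mul_nonneg hT.le (pow_nonneg (by linarith) m)) (hμ i)
  refine ⟨T, L, hT, ?_, ?_⟩
  · intro m j hj
    have h1 := hKb m j hj
    have h2 := hTp m j
    refine ⟨⟨Kf m j, hKL m j hj⟩, ?_, ?_⟩
    · rw [hKR m j hj]
      refine le_trans ?_ h1.1
      nlinarith
    · rw [hKR m j hj]
      refine le_trans h1.2 ?_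
      nlinarith
  intro H hH
  obtain ⟨P, hPS, hPH⟩ := exists_eval_ne_zero H hH
    (fun i => if i ∈ J then {x : K | v (x / ϖ ^ (k i) - e 0 i) < 1} else {x : K | v x ≤ 1}) (by
      intro i
      by_cases hi : i ∈ J
      · simp only [if_pos hi]
        refine (LiftN_ball v ϖ hϖ (ϖ ^ (k i) * e 0 i) (v (ϖ ^ (k i))) ?_).mono ?_
        · rw [map_zpow₀]
          exact zpow_pos (lt_trans zero_lt_one hϖ) _
        · intro x hx
          have hx' : v (x - ϖ ^ (k i) * e 0 i) < v (ϖ ^ (k i)) := hx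
          show v (x / ϖ ^ (k i) - e 0 i) < 1
          have hne : ϖ ^ (k i) ≠ 0 := zpow_ne_zero _ hϖ0
          have e1 : x / ϖ ^ (k i) - e 0 i = (x - ϖ ^ (k i) * e 0 i) / ϖ ^ (k i) := by
            field_simp
          rw [e1, map_div₀]
          have hg : 0 < v (ϖ ^ (k i)) := by
            rw [map_zpow₀]
            exact zpow_pos (lt_trans zero_lt_one hϖ) _
          rw [div_lt_one hg]
          exact hx'
      · simp only [if_neg hi]
        refine (LiftN_ball v ϖ hϖ 0 1 zero_lt_one).mono ?_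
        intro x hx
        have hx' : v (x - 0) < 1 := hx
        rw [sub_zero] at hx'
        exact hx'.le)
  have hinv : ∀ m, LiftN_inv v ϖ μ J (Kf m) (e m) (T * Θ ^ m) δ (orb τ P m) := by
    intro m
    induction m with
    | zero =>
      constructor
      · intro j hj
        have h1 := hPS j
        simp only [if_pos hj] at h1
        rw [hK0]
        exact h1
      · intro i hi
        have h1 := hPS i
        simp only [if_neg hi] at h1
        have h2 : v (P i) ≤ 1 := h1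
        rw [orb_zero]
        refine h2.trans (NNReal.one_le_rpow hϖ.le ?_)
        rw [pow_zero, mul_one]
        exact mul_nonneg (by linarith) (mul_nonneg hT.le (hμ i))
    | succ m ih =>
      have h1 := LiftN_step μ hμ Θ J v ϖ hϖ (fun i => τ (X i)) hdeg hunit δ ε hc1 hc2 (Kf m)
        (Kf (m + 1)) (e m) (e (m + 1)) (he1 m) (he0 m) (hstep m) (T * Θ ^ m)
        (mul_pos hT (pow_pos (lt_trans zero_lt_one hΘ) m)) (orb τ P m)
        (fun j hj => (hKb m j hj).2)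
        (fun j hj => by
          have h2 := (hKb (m + 1) j hj).1
          have e3 : T * Θ ^ m * Θ = T * Θ ^ (m + 1) := by ring
          rw [e3]
          exact h2)
        (hKK m) ih
      have e1 : (fun i => eval (orb τ P m) (τ (X i))) = orb τ P (m + 1) := by
        funext i
        rw [orb_succ_apply]
      have e2 : T * Θ ^ m * Θ = T * Θ ^ (m + 1) := by ring
      rw [e1, e2] at h1
      exact h1
  have hsz : ∀ m : ℕ, ∀ j ∈ J, v (orb τ P m j) = (v ϖ) ^ ((Kf m j : ℤ) : ℝ) := by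
    intro m j hj
    have h1 : v (orb τ P m j / ϖ ^ (Kf m j)) = 1 := by
      rw [← he m j hj]
      apply v.map_eq_of_sub_lt
      rw [he m j hj]
      exact (hinv m).1 j hj
    rw [map_div₀, map_zpow₀] at h1
    have hg : (v ϖ) ^ (Kf m j) ≠ 0 := zpow_ne_zero _ hg0
    rw [div_eq_one_iff_eq hg] at h1
    rw [h1, NNReal.rpow_intCast]
  refine ⟨P, hPH, ?_, ?_⟩
  · intro m j hj
    rw [hKR m j hj, hsz m j hj, NNReal.coe_rpow]
  · intro m i
    have h2 := hTp m i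
    rw [← NNReal.coe_rpow, NNReal.coe_le_coe]
    by_cases hi : i ∈ J
    · rw [hsz m i hi]
      refine NNReal.rpow_le_rpow_of_exponent_le hϖ.le ?_
      refine le_trans (hKb m i hi).2 ?_
      nlinarith
    · refine ((hinv m).2 i hi).trans (NNReal.rpow_le_rpow_of_exponent_le hϖ.le ?_)
      nlinarith

end ZD85
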