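import Pool.Agent.H85.ZD.LfA
import Pool.Agent.H85.ZD.LfB

/-!
# ZD LocFin : locally finite automorphisms (row `LocFin`)

`exists_stable`: positive integral weights `μ` with `deg_μ (σ x_i) ≤ μ_i` for all `i`.  Let `D = ∑ μ_i` (or the maximum)
and `V` = the polynomials all of whose monomials `α` have weight `∑ α_j μ_j ≤ D`.  `V` is a finite-dimensional subspace
(finitely many `α`, as `μ_j ≥ 1`), contains `1` and the `X i`, and `σ V ⊆ V`: `σ (x^α) = ∏ (σ x_j)^{α_j}` has only
monomials of weight `≤ ∑ α_j μ_j` (weights of products add; `MvPolynomial.weightedTotalDegree` may help: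
`weightedTotalDegree μ`; `weightedTotalDegree` of products/sums).

`zdo_stable`: `V` as above.  `K` is algebraically closed, `s = σ` restricted to `V` is an endomorphism of the
finite-dimensional space `V`; it is injective.  Call `F ∈ V`, `F ≠ 0`, an eigenvector if `σ F = C l * F`.
Case 1: all eigenvalues are roots of unity: `hasInv_roots`.
Case 2: some eigenvalue `l₁` (eigenvector `F₁`) is not a root of unity.
 Case 2a: `s` is not semisimple, i.e. there are `l` and `F ∈ V` with `(s - l)^2 F = 0`, `F' := (s - l) F ≠ 0`: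
   `σ F = C l * F + F'`, `σ F' = C l * F'`; `zdo_eig_jordan`.
 Case 2b: otherwise every generalised eigenvector is an eigenvector (`(s - l)^k F = 0`, `k ≥ 2` minimal, would give
   `(s-l)^{k-2} F` as in 2a), so `V` is spanned by eigenvectors (`Module.End.iSup_maxGenEigenspace_eq_top`).  If two
   eigenvectors have multiplicatively independent eigenvalues: `zdo_eig_two`.  Otherwise `hasInv_semisimple` with
   `T` = all eigenvectors in `V` (`l F` by choice).

`zdo_weights` combines both.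
-/

set_option autoImplicit false

namespace ZD85

open MvPolynomial

section weights
variable {K : Type*} [Field K]

/-- weight of a monomial. -/
def LocFin_wt (μ : Fin 3 → ℕ) (α : Fin 3 →₀ ℕ) : ℕ := ∑ j, α j * μ j

/-- polynomials of weight `≤ d`. -/
def LocFin_W (K : Type*) [Field K] (μ : Fin 3 → ℕ) (d : ℕ) : Submodule K (MvPolynomial (Fin 3) K) where
  carrier := {F | ∀ α ∈ F.support, LocFin_wt μ α ≤ d}
  add_mem' := by
    classical
    intro F G hF hG α hα
    rcases Finset.mem_union.1 (MvPolynomial.support_add hα) with h | h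
    · exact hF α h
    · exact hG α h
  zero_mem' := by
    intro α hα
    simp at hα
  smul_mem' := by
    intro c F hF α hα
    exact hF α (MvPolynomial.support_smul hα)

theorem LocFin_mem (μ : Fin 3 → ℕ) (d : ℕ) (F : MvPolynomial (Fin 3) K) :
    F ∈ LocFin_W K μ d ↔ ∀ α ∈ F.support, LocFin_wt μ α ≤ d := Iff.rfl

theorem LocFin_wt_add (μ : Fin 3 → ℕ) (α β : Fin 3 →₀ ℕ) :
    LocFin_wt μ (α + β) = LocFin_wt μ α + LocFin_wt μ β := by
  unfold LocFin_wt
  simp [add_mul, Finset.sum_add_distrib]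

theorem LocFin_mul (μ : Fin 3 → ℕ) (d e : ℕ) (F G : MvPolynomial (Fin 3) K)
    (hF : F ∈ LocFin_W K μ d) (hG : G ∈ LocFin_W K μ e) : F * G ∈ LocFin_W K μ (d + e) := by
  classical
  intro α hα
  obtain ⟨β, hβ, γ, hγ, rfl⟩ := Finset.mem_add.1 (MvPolynomial.support_mul F G hα)
  rw [LocFin_wt_add]
  exact add_le_add (hF β hβ) (hG γ hγ)

theorem LocFin_C (μ : Fin 3 → ℕ) (d : ℕ) (c : K) : (C c : MvPolynomial (Fin 3) K) ∈ LocFin_W K μ d := by
  classical
  intro α hα
  rw [MvPolynomial.mem_support_iff, MvPolynomial.coeff_C] at hα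
  have : (0 : Fin 3 →₀ ℕ) = α := by
    by_contra h
    rw [if_neg h] at hα
    exact hα rfl
  rw [← this]
  unfold LocFin_wt
  simp

theorem LocFin_pow (μ : Fin 3 → ℕ) (d : ℕ) (F : MvPolynomial (Fin 3) K)
    (hF : F ∈ LocFin_W K μ d) (k : ℕ) : F ^ k ∈ LocFin_W K μ (k * d) := by
  induction k with
  | zero =>
    rw [pow_zero, ← C_1]
    exact LocFin_C μ _ 1
  | succ k ih =>
    rw [pow_succ, Nat.succ_mul]
    exact LocFin_mul μ _ _ _ _ ih hF

theorem LocFin_prod (μ : Fin 3 → ℕ) (F : Fin 3 → MvPolynomial (Fin 3) K) (d : Fin 3 → ℕ)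
    (hF : ∀ j, F j ∈ LocFin_W K μ (d j)) : ∏ j, F j ∈ LocFin_W K μ (∑ j, d j) := by
  rw [Fin.prod_univ_three, Fin.sum_univ_three]
  exact LocFin_mul μ _ _ _ _ (LocFin_mul μ _ _ _ _ (hF 0) (hF 1)) (hF 2)

theorem LocFin_mono (μ : Fin 3 → ℕ) (d e : ℕ) (h : d ≤ e) : LocFin_W K μ d ≤ LocFin_W K μ e :=
  fun _ hF α hα => (hF α hα).trans h

theorem LocFin_fin (μ : Fin 3 → ℕ) (hμ : ∀ i, 1 ≤ μ i) (d : ℕ) :
    FiniteDimensional K (LocFin_W K μ d) := by
  classical
  have hfin : {α : Fin 3 →₀ ℕ | LocFin_wt μ α ≤ d}.Finite := by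
    refine (Set.finite_Iic (Finsupp.equivFunOnFinite.symm (fun _ : Fin 3 => d))).subset ?_
    intro α hα
    rw [Set.mem_Iic]
    intro j
    have h1 : α j * μ j ≤ LocFin_wt μ α :=
      Finset.single_le_sum (f := fun j => α j * μ j) (fun _ _ => Nat.zero_le _) (Finset.mem_univ j)
    have h2 : α j ≤ α j * μ j := Nat.le_mul_of_pos_right _ (hμ j)
    exact (h2.trans h1).trans hα
  have hspan : LocFin_W K μ d ≤
      Submodule.span K ((fun α => monomial α (1:K)) '' {α : Fin 3 →₀ ℕ | LocFin_wt μ α ≤ d}) := by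
    intro F hF
    rw [F.as_sum]
    refine Submodule.sum_mem _ (fun α hα => ?_)
    have : monomial α (F.coeff α) = F.coeff α • (monomial α (1:K) : MvPolynomial (Fin 3) K) := by
      rw [MvPolynomial.smul_monomial, smul_eq_mul, mul_one]
    rw [this]
    exact Submodule.smul_mem _ _ (Submodule.subset_span ⟨α, hF α hα, rfl⟩)
  have : FiniteDimensional K (Submodule.span K
      ((fun α => monomial α (1:K)) '' {α : Fin 3 →₀ ℕ | LocFin_wt μ α ≤ d})) :=
    FiniteDimensional.span_of_finite K (hfin.image _)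
  exact Submodule.finiteDimensional_of_le hspan

end weights

theorem exists_stable {K : Type*} [Field K] (σ : PAut K 3) (μ : Fin 3 → ℕ) (hμ : ∀ i, 1 ≤ μ i)
    (h : ∀ i, ∀ α ∈ (σ (X i)).support, ∑ j, α j * μ j ≤ μ i) :
    ∃ V : Submodule K (MvPolynomial (Fin 3) K), FiniteDimensional K V ∧ (∀ F ∈ V, σ F ∈ V) ∧
      (1 : MvPolynomial (Fin 3) K) ∈ V ∧ ∀ i : Fin 3, (X i : MvPolynomial (Fin 3) K) ∈ V := by
  classical
  refine ⟨LocFin_W K μ (∑ i, μ i), LocFin_fin μ hμ _, ?_, ?_, ?_⟩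
  · intro F hF
    rw [F.as_sum, map_sum]
    refine Submodule.sum_mem _ (fun α hα => ?_)
    have h1 : σ (monomial α (F.coeff α)) = C (F.coeff α) * ∏ j, (σ (X j)) ^ (α j) := by
      rw [MvPolynomial.monomial_eq, map_mul, Finsupp.prod_fintype _ _ (fun _ => pow_zero _), map_prod]
      have h2 : σ (C (F.coeff α) : MvPolynomial (Fin 3) K) = C (F.coeff α) := σ.commutes _
      rw [h2]
      simp only [map_pow]
    rw [h1]
    refine LocFin_mono μ _ _ (hF α hα) ?_
    have h3 : ∏ j, (σ (X j)) ^ (α j) ∈ LocFin_W K μ (∑ j, α j * μ j) :=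
      LocFin_prod μ _ _ (fun j => LocFin_pow μ _ _ (h j) (α j))
    have h4 := LocFin_mul μ 0 _ _ _ (LocFin_C μ 0 (F.coeff α)) h3
    rw [zero_add] at h4
    exact h4
  · rw [← C_1]
    exact LocFin_C μ _ 1
  · intro i α hα
    rw [MvPolynomial.support_X, Finset.mem_singleton] at hα
    rw [hα]
    have h1 : LocFin_wt μ (Finsupp.single i 1) = μ i := by
      unfold LocFin_wt
      rw [Finset.sum_eq_single i]
      · simp
      · intro j _ hj
        simp [Finsupp.single_apply, hj.symm]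
      · simp
    rw [h1]
    exact Finset.single_le_sum (f := μ) (fun _ _ => Nat.zero_le _) (Finset.mem_univ i)

section stable
variable {K : Type*} [Field K] (σ : PAut K 3)

/-- `σ - l` -/
noncomputable def LocFin_D (l : K) : MvPolynomial (Fin 3) K →ₗ[K] MvPolynomial (Fin 3) K :=
  σ.toLinearMap - l • LinearMap.id

theorem LocFin_D_apply (l : K) (F : MvPolynomial (Fin 3) K) : LocFin_D σ l F = σ F - C l * F := by
  unfold LocFin_D
  rw [← MvPolynomial.smul_eq_C_mul]
  rfl

theorem LocFin_D_mem (V : Submodule K (MvPolynomial (Fin 3) K)) (hσ : ∀ F ∈ V, σ F ∈ V) (l : K)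
    (F : MvPolynomial (Fin 3) K) (hF : F ∈ V) : LocFin_D σ l F ∈ V := by
  rw [LocFin_D_apply, ← MvPolynomial.smul_eq_C_mul]
  exact V.sub_mem (hσ F hF) (V.smul_mem l hF)

theorem LocFin_pow_zero (V : Submodule K (MvPolynomial (Fin 3) K)) (hσ : ∀ F ∈ V, σ F ∈ V) (l : K)
    (hJ : ∀ F ∈ V, LocFin_D σ l (LocFin_D σ l F) = 0 → LocFin_D σ l F = 0) (k : ℕ) :
    ∀ F ∈ V, (LocFin_D σ l ^ k) F = 0 → LocFin_D σ l F = 0 := by
  induction k with
  | zero =>
    intro F _ h
    have h1 : F = 0 := by simpa using h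
    rw [h1, map_zero]
  | succ k ih =>
    intro F hF h
    rw [pow_succ, Module.End.mul_apply] at h
    exact hJ F hF (ih _ (LocFin_D_mem σ V hσ l F hF) h)

theorem LocFin_span [IsAlgClosed K] (V : Submodule K (MvPolynomial (Fin 3) K))
    (hV : FiniteDimensional K V) (hσ : ∀ F ∈ V, σ F ∈ V)
    (hJ : ∀ l : K, ∀ F ∈ V, LocFin_D σ l (LocFin_D σ l F) = 0 → LocFin_D σ l F = 0)
    (F : MvPolynomial (Fin 3) K) (hF : F ∈ V) :
    F ∈ Submodule.span K {G | G ∈ V ∧ G ≠ 0 ∧ ∃ l : K, σ G = C l * G} := by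
  classical
  let s : Module.End K V := σ.toLinearMap.restrict hσ
  have hs : ∀ v : V, ((s v : V) : MvPolynomial (Fin 3) K) = σ v.1 := fun v => rfl
  have h3 : ∀ (l : K) (j : ℕ) (v : V), ((((s - l • 1) ^ j) v : V) : MvPolynomial (Fin 3) K) =
      (LocFin_D σ l ^ j) v.1 := by
    intro l j
    induction j with
    | zero => intro v; simp
    | succ j ih =>
      intro v
      rw [pow_succ, Module.End.mul_apply, ih, pow_succ, Module.End.mul_apply]
      congr 1
  have htop := Module.End.iSup_maxGenEigenspace_eq_top s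
  have h4 : (⨆ μ : K, s.maxGenEigenspace μ).map V.subtype ≤
      Submodule.span K {G | G ∈ V ∧ G ≠ 0 ∧ ∃ l : K, σ G = C l * G} := by
    rw [Submodule.map_iSup]
    refine iSup_le (fun μ => ?_)
    rintro _ ⟨v, hv, rfl⟩
    rw [SetLike.mem_coe, Module.End.mem_maxGenEigenspace] at hv
    obtain ⟨k, hk⟩ := hv
    have h5 := h3 μ k v
    rw [hk] at h5
    have h6 := LocFin_pow_zero σ V hσ μ (hJ μ) k v.1 v.2 h5.symm
    rw [LocFin_D_apply, sub_eq_zero] at h6
    by_cases h0 : v.1 = 0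
    · change v.1 ∈ _
      rw [h0]
      exact Submodule.zero_mem _
    · exact Submodule.subset_span ⟨v.2, h0, μ, h6⟩
  rw [htop] at h4
  exact h4 ⟨⟨F, hF⟩, trivial, rfl⟩

end stable

theorem zdo_stable {K : Type*} [Field K] [CharZero K] [IsAlgClosed K] (σ : PAut K 3)
    (V : Submodule K (MvPolynomial (Fin 3) K)) (hV : FiniteDimensional K V)
    (hσ : ∀ F ∈ V, σ F ∈ V) (h1 : (1 : MvPolynomial (Fin 3) K) ∈ V)
    (hX : ∀ i : Fin 3, (X i : MvPolynomial (Fin 3) K) ∈ V) : Zdo σ := by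
  classical
  by_cases hroot : ∀ F ∈ V, F ≠ 0 → ∀ l : K, σ F = C l * F → ∃ k : ℕ, 1 ≤ k ∧ l ^ k = 1
  · exact Or.inl (hasInv_roots σ V hV hσ h1 hX hroot)
  push Not at hroot
  obtain ⟨F₁, hF₁V, hF₁, l₁, hl₁, hk⟩ := hroot
  by_cases hJ : ∀ l : K, ∀ F ∈ V, LocFin_D σ l (LocFin_D σ l F) = 0 → LocFin_D σ l F = 0
  · by_cases h2 : ∃ F G : MvPolynomial (Fin 3) K, ∃ l m : K, F ≠ 0 ∧ G ≠ 0 ∧ σ F = C l * F ∧
        σ G = C m * G ∧ ∀ a b : ℤ, l ^ a * m ^ b = 1 → a = 0 ∧ b = 0
    · obtain ⟨F, G, l, m, hF, hG, hl, hm, hind⟩ := h2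
      exact zdo_eig_two σ F G l m hF hG hl hm hind
    · left
      let L : MvPolynomial (Fin 3) K → K := fun F => if h : ∃ l : K, σ F = C l * F then h.choose else 0
      have hL : ∀ F, (∃ l : K, σ F = C l * F) → σ F = C (L F) * F := by
        intro F hF
        have : L F = hF.choose := dif_pos hF
        rw [this]
        exact hF.choose_spec
      refine hasInv_semisimple σ {G | G ∈ V ∧ G ≠ 0 ∧ ∃ l : K, σ G = C l * G} L
        (fun F hF => hF.2.1) (fun F hF => hL F hF.2.2)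
        (fun i => LocFin_span σ V hV hσ hJ (X i) (hX i)) ?_
      intro F hF G hG
      by_contra hcon
      apply h2
      refine ⟨F, G, L F, L G, hF.2.1, hG.2.1, hL F hF.2.2, hL G hG.2.2, ?_⟩
      intro a b hab
      by_contra hne
      apply hcon
      refine ⟨a, b, ?_, hab⟩
      intro h
      rw [Prod.mk.injEq] at h
      exact hne h
  · push Not at hJ
    obtain ⟨l, F, hF, hF2, hF1⟩ := hJ
    refine zdo_eig_jordan σ F₁ F (LocFin_D σ l F) l₁ l hF₁ hF1 hl₁ hk ?_ ?_
    · rw [LocFin_D_apply σ l (LocFin_D σ l F), sub_eq_zero] at hF2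
      exact hF2
    · rw [LocFin_D_apply]
      ring

theorem zdo_weights {K : Type*} [Field K] [CharZero K] [IsAlgClosed K] (σ : PAut K 3)
    (μ : Fin 3 → ℕ) (hμ : ∀ i, 1 ≤ μ i)
    (h : ∀ i, ∀ α ∈ (σ (X i)).support, ∑ j, α j * μ j ≤ μ i) : Zdo σ := by
  obtain ⟨V, hV, hσ, h1, hX⟩ := exists_stable σ μ hμ h
  exact zdo_stable σ V hV hσ h1 hX

end ZD85
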