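import Pool.Agent.H85.ZD.Henon
import Pool.Agent.H85.ZD.Base
import Pool.Agent.H85.ZD.LocFin
import Pool.Agent.H85.ZD.Conj

/-!
# ZD NfA : the normal forms with a planar or linear base (row `NfA`)

Helper `zdo_of_coords`: `u` a system of coordinates with inverse `w`.  `ψ = AlgEquiv.ofAlgHom (aeval u) (aeval w)`;
`τ = ψ⁻¹ * σ * ψ` has `τ (X i) = aeval w (σ (u i))`; use `zdo_conj` with `φ = ψ⁻¹`.

`n0_zdo` (triangular): `zdo_weights` with `μ 2 = 1`, `μ 1 = max 1 Q.natDegree`, `μ 0 = max 1 (P.totalDegree * μ 1)`.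
The monomials of `aeval ![X 1, X 2] P` come from those of `P`; weight `α 0 * μ 1 + α 1 * μ 2 ≤ P.totalDegree * μ 1`.
(General remark for all `zdo_weights` applications: the set of polynomials with all monomials of weight `≤ D` is a
`K`-subspace `W_D`, `W_D * W_{D'} ⊆ W_{D+D'}`, so `aeval` of a polynomial with the appropriate support is in it.  It may
be convenient to prove this once, e.g. in terms of `MvPolynomial.weightedTotalDegree μ` or of a submodule.)

`n1_zdo` : `f = (a y + P(x, z), b x + Q(z), c z + d)`.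
 * `z ↦ c z + d` of finite order: `hasInv_base`.
 * otherwise, if some `α ∈ supp P` has `2 ≤ α 0` or (`α 0 = 1` and `1 ≤ α 1`): `base_zdo`.
 * otherwise all `α ∈ supp P` have `α 0 = 0`, or `α 0 = 1` and `α 1 = 0`: `zdo_weights` with
   `μ = (M, M, 1)`, `M = 1 + max P.totalDegree Q.natDegree`.
   (Case distinction: `c = 1 ∧ d ≠ 0`, or no power `c^k`, `k ≥ 1`, is `1` is the infinite order case.)

`n2_zdo` : `f = (a x + P(z, y), b z + Q(y), c y + d)`: `2 ≤ Q.natDegree`: `henon_zdo`; otherwise `zdo_weights` with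
`μ = (max 1 P.totalDegree, 1, 1)`.
-/

set_option autoImplicit false

namespace ZD85

open MvPolynomial

/-- all monomials have weight at most `D` -/
def NfA_W {K : Type*} [Field K] (μ : Fin 3 → ℕ) (D : ℕ) (F : MvPolynomial (Fin 3) K) : Prop :=
  ∀ α, coeff α F ≠ 0 → ∑ j, α j * μ j ≤ D

section W
variable {K : Type*} [Field K] {μ : Fin 3 → ℕ}

theorem NfA_mono {D D' : ℕ} {F : MvPolynomial (Fin 3) K} (h : NfA_W μ D F) (hD : D ≤ D') :
    NfA_W μ D' F := fun α hα => (h α hα).trans hD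

theorem NfA_zero (D : ℕ) : NfA_W μ D (0 : MvPolynomial (Fin 3) K) := fun α hα => by
  simp at hα

theorem NfA_add {D : ℕ} {F G : MvPolynomial (Fin 3) K} (hF : NfA_W μ D F) (hG : NfA_W μ D G) :
    NfA_W μ D (F + G) := by
  intro α hα
  rw [coeff_add] at hα
  by_cases h : coeff α F = 0
  · rw [h, zero_add] at hα
    exact hG α hα
  · exact hF α h

theorem NfA_sum {ι : Type*} {D : ℕ} (s : Finset ι) (F : ι → MvPolynomial (Fin 3) K)
    (h : ∀ i ∈ s, NfA_W μ D (F i)) : NfA_W μ D (∑ i ∈ s, F i) := by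
  classical
  induction s using Finset.induction_on with
  | empty => simpa using NfA_zero D
  | insert a s ha ih =>
    rw [Finset.sum_insert ha]
    exact NfA_add (h a (Finset.mem_insert_self a s)) (ih fun i hi => h i (Finset.mem_insert_of_mem hi))

theorem NfA_mul {D D' : ℕ} {F G : MvPolynomial (Fin 3) K} (hF : NfA_W μ D F) (hG : NfA_W μ D' G) :
    NfA_W μ (D + D') (F * G) := by
  classical
  intro α hα
  rw [coeff_mul] at hα
  obtain ⟨x, hx, hne⟩ := Finset.exists_ne_zero_of_sum_ne_zero hα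
  have h1 := hF x.1 (left_ne_zero_of_mul hne)
  have h2 := hG x.2 (right_ne_zero_of_mul hne)
  have hx' : x.1 + x.2 = α := Finset.HasAntidiagonal.mem_antidiagonal.1 hx
  rw [← hx']
  calc ∑ j, (x.1 + x.2) j * μ j = ∑ j, x.1 j * μ j + ∑ j, x.2 j * μ j := by
        rw [← Finset.sum_add_distrib]
        refine Finset.sum_congr rfl fun j _ => ?_
        rw [Finsupp.add_apply, add_mul]
    _ ≤ D + D' := add_le_add h1 h2

theorem NfA_C (c : K) : NfA_W μ 0 (C c : MvPolynomial (Fin 3) K) := by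
  classical
  intro α hα
  rw [coeff_C] at hα
  split_ifs at hα with h
  · rw [← h]
    simp
  · exact absurd rfl hα

theorem NfA_X (i : Fin 3) : NfA_W μ (μ i) (X i : MvPolynomial (Fin 3) K) := by
  classical
  intro α hα
  rw [coeff_X] at hα
  split_ifs at hα with h
  · rw [← h]
    rw [Finset.sum_eq_single i]
    · simp
    · intro j _ hj
      rw [Finsupp.single_eq_of_ne hj, zero_mul]
    · intro h
      exact absurd (Finset.mem_univ i) h
  · exact absurd rfl hα

theorem NfA_pow {D : ℕ} {F : MvPolynomial (Fin 3) K} (hF : NfA_W μ D F) (k : ℕ) :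
    NfA_W μ (k * D) (F ^ k) := by
  induction k with
  | zero =>
    rw [pow_zero, zero_mul, ← C_1]
    exact NfA_C 1
  | succ k ih =>
    rw [pow_succ, add_mul, one_mul]
    exact NfA_mul ih hF

theorem NfA_CX (c : K) (i : Fin 3) : NfA_W μ (μ i) (C c * X i : MvPolynomial (Fin 3) K) := by
  have := NfA_mul (μ := μ) (NfA_C c) (NfA_X (K := K) i)
  rwa [zero_add] at this

theorem NfA_aeval2 (P : MvPolynomial (Fin 2) K) (g : Fin 2 → MvPolynomial (Fin 3) K) (D0 D1 D : ℕ)
    (h0 : NfA_W μ D0 (g 0)) (h1 : NfA_W μ D1 (g 1)) (h : ∀ α ∈ P.support, α 0 * D0 + α 1 * D1 ≤ D) :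
    NfA_W μ D (aeval g P) := by
  rw [aeval_def, eval₂_eq']
  refine NfA_sum _ _ fun α hα => ?_
  rw [Fin.prod_univ_two]
  have h2 := NfA_mul (NfA_C (μ := μ) (coeff α P)) (NfA_mul (NfA_pow h0 (α 0)) (NfA_pow h1 (α 1)))
  rw [zero_add] at h2
  exact NfA_mono h2 (h α hα)

theorem NfA_aeval1 (Q : Polynomial K) (i : Fin 3) (D : ℕ) (h : Q.natDegree * μ i ≤ D) :
    NfA_W μ D (Polynomial.aeval (X i : MvPolynomial (Fin 3) K) Q) := by
  rw [Polynomial.aeval_eq_sum_range]
  refine NfA_sum _ _ fun k hk => ?_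
  rw [smul_eq_C_mul]
  have h2 := NfA_mul (NfA_C (μ := μ) (Q.coeff k)) (NfA_pow (NfA_X (μ := μ) (K := K) i) k)
  rw [zero_add] at h2
  refine NfA_mono h2 (le_trans ?_ h)
  exact Nat.mul_le_mul_right _ (Nat.lt_succ_iff.1 (Finset.mem_range.1 hk))

theorem NfA_CXC (c d : K) (i : Fin 3) : NfA_W μ (μ i) (C c * X i + C d : MvPolynomial (Fin 3) K) :=
  NfA_add (NfA_CX c i) (NfA_mono (NfA_C d) (Nat.zero_le _))

theorem NfA_deg (P : MvPolynomial (Fin 2) K) (α : Fin 2 →₀ ℕ) (hα : α ∈ P.support) :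
    α 0 + α 1 ≤ P.totalDegree := by
  have h := le_totalDegree hα
  rw [Finsupp.sum_fintype _ _ (fun _ => rfl), Fin.sum_univ_two] at h
  exact h

end W

theorem NfA_zdo {K : Type*} [Field K] [CharZero K] [IsAlgClosed K] (σ : PAut K 3)
    (μ : Fin 3 → ℕ) (hμ : ∀ i, 1 ≤ μ i) (h : ∀ i, NfA_W μ (μ i) (σ (X i))) : Zdo σ :=
  zdo_weights σ μ hμ fun i α hα => h i α (mem_support_iff.1 hα)

theorem zdo_of_coords {K : Type*} [Field K] {n : ℕ} (σ : PAut K n) (u w : Fin n → MvPolynomial (Fin n) K)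
    (huw : ∀ i, aeval u (w i) = X i) (hwu : ∀ i, aeval w (u i) = X i)
    (h : ∀ τ : PAut K n, (∀ i, τ (X i) = aeval w (σ (u i))) → Zdo τ) : Zdo σ := by
  set ψ : PAut K n := AlgEquiv.ofAlgHom (aeval u) (aeval w)
    (by
      apply MvPolynomial.algHom_ext
      intro i
      rw [AlgHom.comp_apply, aeval_X, huw]
      rfl)
    (by
      apply MvPolynomial.algHom_ext
      intro i
      rw [AlgHom.comp_apply, aeval_X, hwu]
      rfl) with hψ
  refine zdo_conj ψ⁻¹ σ (h _ fun i => ?_)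
  have h1 : ψ (X i) = u i := by
    rw [hψ]
    simp
  have h2 : ∀ F, ψ⁻¹ F = aeval w F := fun F => rfl
  rw [inv_inv, AlgEquiv.mul_apply, AlgEquiv.mul_apply, h1, h2]

theorem n0_zdo {K : Type*} [Field K] [CharZero K] [IsAlgClosed K] (σ : PAut K 3) (a b c d : K)
    (ha : a ≠ 0) (hb : b ≠ 0) (hc : c ≠ 0) (P : MvPolynomial (Fin 2) K) (Q : Polynomial K)
    (h0 : σ (X 0) = C a * X 0 + aeval ![X 1, X 2] P)
    (h1 : σ (X 1) = C b * X 1 + Polynomial.aeval (X 2) Q) (h2 : σ (X 2) = C c * X 2 + C d) : Zdo σ := by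
  set m1 : ℕ := max 1 Q.natDegree with hm1
  set m0 : ℕ := max 1 (P.totalDegree * m1) with hm0
  have e0 : (![m0, m1, 1] : Fin 3 → ℕ) 0 = m0 := rfl
  have e1 : (![m0, m1, 1] : Fin 3 → ℕ) 1 = m1 := rfl
  have e2 : (![m0, m1, 1] : Fin 3 → ℕ) 2 = 1 := rfl
  have l1 : 1 ≤ m1 := le_max_left _ _
  have l0 : 1 ≤ m0 := le_max_left _ _
  refine NfA_zdo σ ![m0, m1, 1] ?_ ?_
  · intro i
    fin_cases i
    · exact l0
    · exact l1
    · exact le_rfl
  · have g0 : NfA_W ![m0, m1, 1] (![m0, m1, 1] (0 : Fin 3)) (σ (X 0)) := by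
      rw [h0]
      refine NfA_add (NfA_CX a 0) ?_
      refine NfA_aeval2 P _ m1 1 _ (NfA_X (μ := ![m0, m1, 1]) (1 : Fin 3))
        (NfA_X (μ := ![m0, m1, 1]) (2 : Fin 3)) fun α hα => ?_
      rw [e0]
      have h3 := NfA_deg P α hα
      calc α 0 * m1 + α 1 * 1 ≤ α 0 * m1 + α 1 * m1 :=
            Nat.add_le_add_left (Nat.mul_le_mul_left _ l1) _
        _ = (α 0 + α 1) * m1 := by ring
        _ ≤ P.totalDegree * m1 := Nat.mul_le_mul_right _ h3
        _ ≤ m0 := le_max_right _ _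
    have g1 : NfA_W ![m0, m1, 1] (![m0, m1, 1] (1 : Fin 3)) (σ (X 1)) := by
      rw [h1]
      refine NfA_add (NfA_CX b 1) (NfA_aeval1 Q 2 _ ?_)
      rw [e1, e2, mul_one]
      exact le_max_right _ _
    have g2 : NfA_W ![m0, m1, 1] (![m0, m1, 1] (2 : Fin 3)) (σ (X 2)) := by
      rw [h2]
      exact NfA_CXC c d 2
    intro i
    fin_cases i
    · exact g0
    · exact g1
    · exact g2

theorem n1_zdo {K : Type*} [Field K] [CharZero K] [IsAlgClosed K] (σ : PAut K 3) (a b c d : K)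
    (ha : a ≠ 0) (hb : b ≠ 0) (hc : c ≠ 0) (P : MvPolynomial (Fin 2) K) (Q : Polynomial K)
    (h0 : σ (X 0) = C a * X 1 + aeval ![X 0, X 2] P)
    (h1 : σ (X 1) = C b * X 0 + Polynomial.aeval (X 2) Q) (h2 : σ (X 2) = C c * X 2 + C d) : Zdo σ := by
  by_cases hinf : (c = 1 ∧ d ≠ 0) ∨ (∀ k : ℕ, 1 ≤ k → c ^ k ≠ 1)
  · by_cases hP : ∃ α ∈ P.support, 2 ≤ α 0 ∨ (α 0 = 1 ∧ 1 ≤ α 1)
    · exact base_zdo σ a b c d ha hb hc P Q h0 h1 h2 hinf hP
    · push Not at hP
      set M : ℕ := 1 + max P.totalDegree Q.natDegree with hM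
      have e0 : (![M, M, 1] : Fin 3 → ℕ) 0 = M := rfl
      have e1 : (![M, M, 1] : Fin 3 → ℕ) 1 = M := rfl
      have e2 : (![M, M, 1] : Fin 3 → ℕ) 2 = 1 := rfl
      have t1 := le_max_left P.totalDegree Q.natDegree
      have t2 := le_max_right P.totalDegree Q.natDegree
      refine NfA_zdo σ ![M, M, 1] ?_ ?_
      · intro i
        fin_cases i
        · exact Nat.le_add_right 1 _
        · exact Nat.le_add_right 1 _
        · exact le_rfl
      · have g0 : NfA_W ![M, M, 1] (![M, M, 1] (0 : Fin 3)) (σ (X 0)) := by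
          rw [h0]
          refine NfA_add (NfA_CX a 1) ?_
          refine NfA_aeval2 P _ M 1 _ (NfA_X (μ := ![M, M, 1]) (0 : Fin 3))
            (NfA_X (μ := ![M, M, 1]) (2 : Fin 3)) fun α hα => ?_
          rw [e0]
          have h3 := NfA_deg P α hα
          have h4 := hP α hα
          rcases Nat.lt_or_ge (α 0) 1 with h5 | h5
          · have : α 0 = 0 := by omega
            rw [this]
            omega
          · have h6 : α 0 = 1 := by omega
            have h7 := h4.2 h6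
            rw [h6]
            omega
        have g1 : NfA_W ![M, M, 1] (![M, M, 1] (1 : Fin 3)) (σ (X 1)) := by
          rw [h1]
          refine NfA_add (NfA_CX b 0) (NfA_aeval1 Q 2 _ ?_)
          rw [e1, e2, mul_one]
          omega
        have g2 : NfA_W ![M, M, 1] (![M, M, 1] (2 : Fin 3)) (σ (X 2)) := by
          rw [h2]
          exact NfA_CXC c d 2
        intro i
        fin_cases i
        · exact g0
        · exact g1
        · exact g2
  · push Not at hinf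
    obtain ⟨i1, k, hk, hck⟩ := hinf
    refine Or.inl (hasInv_base σ 2 c d h2 ?_)
    by_cases hc1 : c = 1
    · exact Or.inl ⟨hc1, i1 hc1⟩
    · exact Or.inr ⟨hc1, k, hk, hck⟩

theorem n2_zdo {K : Type*} [Field K] [CharZero K] [IsAlgClosed K] (σ : PAut K 3) (a b c d : K)
    (ha : a ≠ 0) (hb : b ≠ 0) (hc : c ≠ 0) (P : MvPolynomial (Fin 2) K) (Q : Polynomial K)
    (h0 : σ (X 0) = C a * X 0 + aeval ![X 2, X 1] P)
    (h1 : σ (X 1) = C b * X 2 + Polynomial.aeval (X 1) Q) (h2 : σ (X 2) = C c * X 1 + C d) : Zdo σ := by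
  by_cases hq : 2 ≤ Q.natDegree
  · exact henon_zdo σ a b c d ha hb hc P Q hq h0 h1 h2
  · set M : ℕ := max 1 P.totalDegree with hM
    have e0 : (![M, 1, 1] : Fin 3 → ℕ) 0 = M := rfl
    have e1 : (![M, 1, 1] : Fin 3 → ℕ) 1 = 1 := rfl
    have e2 : (![M, 1, 1] : Fin 3 → ℕ) 2 = 1 := rfl
    refine NfA_zdo σ ![M, 1, 1] ?_ ?_
    · intro i
      fin_cases i
      · exact le_max_left _ _
      · exact le_rfl
      · exact le_rfl
    · have g0 : NfA_W ![M, 1, 1] (![M, 1, 1] (0 : Fin 3)) (σ (X 0)) := by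
        rw [h0]
        refine NfA_add (NfA_CX a 0) ?_
        refine NfA_aeval2 P _ 1 1 _ (NfA_X (μ := ![M, 1, 1]) (2 : Fin 3))
          (NfA_X (μ := ![M, 1, 1]) (1 : Fin 3)) fun α hα => ?_
        rw [e0]
        have h3 := NfA_deg P α hα
        have h4 := le_max_right 1 P.totalDegree
        omega
      have g1 : NfA_W ![M, 1, 1] (![M, 1, 1] (1 : Fin 3)) (σ (X 1)) := by
        rw [h1]
        refine NfA_add (NfA_CX (μ := ![M, 1, 1]) b 2) (NfA_aeval1 Q 1 _ ?_)
        rw [e1]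
        omega
      have g2 : NfA_W ![M, 1, 1] (![M, 1, 1] (2 : Fin 3)) (σ (X 2)) := by
        rw [h2]
        exact NfA_CXC (μ := ![M, 1, 1]) c d 1
      intro i
      fin_cases i
      · exact g0
      · exact g1
      · exact g2

end ZD85
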