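import Pool.Agent.H85.ZD.Defs

/-!
# ZD Theta : the growth rate (row `Theta`)

`S` a finite set of pairs, `q ≥ 1`, some pair with `s.1 + s.2 q ≥ 2`.  `φ(t) = t² - max_{s ∈ S} (s.1 t + s.2 q)` is
continuous, `φ(1) ≤ 1 - 2 < 0`, `φ(t) > 0` for large `t`; so it has a zero `θ > 1` (intermediate value theorem).
(Or: `θ` = the maximum over `s ∈ S` of the positive root `(s.1 + √(s.1² + 4 s.2 q)) / 2`, and `t² - s.1 t - s.2 q ≥ 0`
for `t ≥` that root.)  Then `s.1 θ + s.2 q ≤ θ²` for all `s ∈ S` with equality for some `s`.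
If `θ` is not irrational it is a rational root of the monic integer polynomial `T² - s.1 T - s.2 q`, so an integer
(`isInteger_of_is_root_of_monic`, or `IsIntegrallyClosed ℤ`), `> 1`, so a natural number.
-/

set_option autoImplicit false

namespace ZD85

theorem Theta_root (a b : ℝ) (ha : 0 ≤ a) (hb : 0 ≤ b) :
    ∃ r : ℝ, r = (a + √(a ^ 2 + 4 * b)) / 2 ∧ r * (r - a) = b ∧ a ≤ r ∧ 0 ≤ r := by
  refine ⟨_, rfl, ?_, ?_, ?_⟩
  · have h := Real.mul_self_sqrt (show 0 ≤ a ^ 2 + 4 * b by positivity)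
    set s := √(a ^ 2 + 4 * b) with hs
    nlinarith
  · have h : a ≤ √(a ^ 2 + 4 * b) := Real.le_sqrt_of_sq_le (by linarith)
    linarith
  · have h := Real.sqrt_nonneg (a ^ 2 + 4 * b)
    linarith

theorem exists_theta (S : Finset (ℕ × ℕ)) (q : ℕ) (hq : 1 ≤ q) (h : ∃ s ∈ S, 2 ≤ s.1 + s.2 * q) :
    ∃ θ : ℝ, 1 < θ ∧ (∀ s ∈ S, (s.1 : ℝ) * θ + s.2 * q ≤ θ ^ 2) ∧
      (∃ s ∈ S, (s.1 : ℝ) * θ + s.2 * q = θ ^ 2) ∧ ((∃ N : ℕ, θ = N) ∨ Irrational θ) := by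
  obtain ⟨t, ht, ht2⟩ := h
  set R : ℕ × ℕ → ℝ := fun s => ((s.1 : ℝ) + √((s.1 : ℝ) ^ 2 + 4 * ((s.2 : ℝ) * q))) / 2 with hR
  have hroot : ∀ s : ℕ × ℕ, R s * (R s - s.1) = s.2 * q ∧ (s.1 : ℝ) ≤ R s ∧ 0 ≤ R s := by
    intro s
    obtain ⟨r, hr, h1, h2, h3⟩ := Theta_root (s.1 : ℝ) ((s.2 : ℝ) * q) (by positivity) (by positivity)
    have : R s = r := hr.symm
    rw [this]
    exact ⟨h1, h2, h3⟩
  obtain ⟨s0, hs0, hmax⟩ := S.exists_max_image R ⟨t, ht⟩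
  refine ⟨R s0, ?_, ?_, ⟨s0, hs0, ?_⟩, ?_⟩
  · refine lt_of_lt_of_le ?_ (hmax t ht)
    obtain ⟨h1, h2, h3⟩ := hroot t
    have h4 : (2 : ℝ) ≤ t.1 + t.2 * q := by exact_mod_cast ht2
    by_contra hle
    push Not at hle
    have h5 : (0 : ℝ) ≤ t.1 := Nat.cast_nonneg _
    nlinarith
  · intro s hs
    obtain ⟨h1, h2, h3⟩ := hroot s
    have h4 := hmax s hs
    nlinarith [mul_nonneg (sub_nonneg.2 h4) (show 0 ≤ R s0 - s.1 + R s by linarith)]
  · obtain ⟨h1, h2, h3⟩ := hroot s0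
    nlinarith
  · set D : ℕ := s0.1 ^ 2 + 4 * (s0.2 * q) with hD
    have hDc : (s0.1 : ℝ) ^ 2 + 4 * ((s0.2 : ℝ) * q) = (D : ℝ) := by
      rw [hD]
      push_cast
      ring
    have hRD : R s0 = ((s0.1 : ℝ) + √(D : ℝ)) / 2 := by
      rw [hR]
      simp only [hDc]
    by_cases hsq : IsSquare D
    · left
      obtain ⟨m, hm⟩ := hsq
      have hpar : ∃ N : ℕ, s0.1 + m = 2 * N := by
        have h1 : (m * m) % 2 = (s0.1 ^ 2) % 2 := by
          rw [← hm, hD]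
          omega
        have h2 : m % 2 = s0.1 % 2 := by
          rcases Nat.mod_two_eq_zero_or_one m with h | h <;>
            rcases Nat.mod_two_eq_zero_or_one s0.1 with h' | h' <;>
            simp [Nat.pow_mod, Nat.mul_mod, h, h'] at h1 ⊢
        exact ⟨(s0.1 + m) / 2, by omega⟩
      obtain ⟨N, hN⟩ := hpar
      refine ⟨N, ?_⟩
      rw [hRD, hm]
      push_cast
      rw [Real.sqrt_mul_self (Nat.cast_nonneg _)]
      have : (s0.1 : ℝ) + m = 2 * N := by exact_mod_cast hN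
      rw [this]
      ring
    · right
      have h1 : Irrational √(D : ℝ) := irrational_sqrt_natCast_iff.2 hsq
      have h2 := (h1.natCast_add s0.1).div_natCast (m := 2) (by norm_num)
      rw [hRD]
      exact_mod_cast h2

end ZD85
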