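import Pool.Agent.H85.ZD.NfA
import Pool.Agent.H85.ZD.Theta
import Pool.Agent.H85.ZD.CycI
import Pool.Agent.H85.ZD.CycII
import Pool.Agent.H85.ZD.FiveI
import Pool.Agent.H85.ZD.FiveII

/-!
# ZD NfB : the remaining normal forms (row `NfB`)

`cyc_zdo` : `f = (y, z, e x + R(y, z))`.  If all `α ∈ supp R` have `α 0 + α 1 ≤ 1`: `zdo_weights` with `μ = 1`.
Otherwise `exists_theta` with `S = {(α 1, α 0) : α ∈ supp R}`, `q = 1`; then `cyc_int` (`θ = N`, `N ≥ 2`) or `cyc_irr`.

`five_zdo` : `f = (a z + P(x, y), b y + Q(x), x)`, `q = Q.natDegree ≥ 1`.  If all `α ∈ supp P` have `α 0 + α 1 q ≤ 1`: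
`zdo_weights` with `μ = (1, q, 1)`.  Otherwise `exists_theta` with `S = {(α 0, α 1) : α ∈ supp P}`; then `five_int` or
`five_irr`.

`n3_zdo` : `f = (a y + P(z, x), b z + Q(x), c x + d)`.  New coordinates (`zdo_of_coords`)
`u 2 = X 0`, `u 1 = C c⁻¹ * (X 2 - C d)`, `u 0 = C c⁻¹ * (C b⁻¹ * (X 1 - Q(u 1)) - C d)`; inverse
`w 0 = X 2`, `w 2 = C c * X 1 + C d`, `w 1 = C b * (C c * X 0 + C d) + Q(X 1)`.
`σ (u 0) = u 1`, `σ (u 1) = u 2`, `σ (u 2) = C (a b c) * u 0 + R(u 1, u 2)` with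
`R(s, t) = a b d + a Q(s) + P(c s + d, t)`.  Apply `cyc_zdo`.

`n4_zdo` : `f = (a z + P(x, y), b x + Q(y), c y + d)`.  `u 0 = C c⁻¹ * (X 2 - C d)`, `u 1 = X 1`,
`u 2 = C b * X 0 + Q(X 1)`; inverse `w 0 = C b⁻¹ * (X 2 - Q(X 1))`, `w 1 = X 1`, `w 2 = C c * X 0 + C d`.
`σ (u 0) = u 1`, `σ (u 1) = u 2`, `σ (u 2) = C (a b c) * u 0 + R(u 1, u 2)` with
`R(s, t) = a b d + b P((t - Q(s)) / b, s) + Q(t)`.  Apply `cyc_zdo`.

`n5_zdo` : `f = (a z + P(y, x), b y + Q(x), c x + d)`.  First `u 0 = X 0`, `u 1 = X 1`, `u 2 = C c⁻¹ * (X 2 - C d)`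
(inverse `w 2 = C c * X 2 + C d`) brings it to `(a c z + P'(x, y), b y + Q(x), x)`, `P'(x, y) = a d + P(y, x)`.
If `Q.natDegree ≥ 1`: `five_zdo`.  If `Q = C q₀`: with the coordinates `u = ![X 0, X 2, X 1]` it becomes the form of
`n1_zdo` with `(a, b, c, d) := (a c, 1, b, q₀)`, `P := P'`, `Q := 0`.
-/

set_option autoImplicit false

namespace ZD85

open MvPolynomial

/-- all monomials of `F` have weight at most `D` -/
def NfB_W {K : Type*} [Field K] (μ : Fin 3 → ℕ) (D : ℕ) (F : MvPolynomial (Fin 3) K) : Prop :=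
  ∀ α ∈ F.support, ∑ j, α j * μ j ≤ D

theorem NfB_mono {K : Type*} [Field K] {μ : Fin 3 → ℕ} {D E : ℕ} {F : MvPolynomial (Fin 3) K}
    (h : NfB_W μ D F) (hDE : D ≤ E) : NfB_W μ E F := fun α hα => (h α hα).trans hDE

theorem NfB_C {K : Type*} [Field K] (μ : Fin 3 → ℕ) (D : ℕ) (a : K) :
    NfB_W μ D (C a : MvPolynomial (Fin 3) K) := by
  intro α hα
  rw [mem_support_iff, coeff_C] at hα
  by_cases h : 0 = α
  · subst h; simp
  · rw [if_neg h] at hα; exact absurd rfl hα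

theorem NfB_X {K : Type*} [Field K] (μ : Fin 3 → ℕ) (i : Fin 3) :
    NfB_W μ (μ i) (X i : MvPolynomial (Fin 3) K) := by
  intro α hα
  rw [support_X, Finset.mem_singleton] at hα
  subst hα
  rw [Finset.sum_eq_single i]
  · simp
  · intro j _ hj
    rw [Finsupp.single_eq_of_ne hj]; simp
  · intro h; exact absurd (Finset.mem_univ i) h

theorem NfB_add {K : Type*} [Field K] {μ : Fin 3 → ℕ} {D : ℕ} {F G : MvPolynomial (Fin 3) K}
    (hF : NfB_W μ D F) (hG : NfB_W μ D G) : NfB_W μ D (F + G) := by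
  classical
  intro α hα
  rcases Finset.mem_union.1 (support_add hα) with h | h
  · exact hF α h
  · exact hG α h

theorem NfB_mul {K : Type*} [Field K] {μ : Fin 3 → ℕ} {D E : ℕ} {F G : MvPolynomial (Fin 3) K}
    (hF : NfB_W μ D F) (hG : NfB_W μ E G) : NfB_W μ (D + E) (F * G) := by
  classical
  intro α hα
  obtain ⟨β, hβ, γ, hγ, rfl⟩ := Finset.mem_add.1 (support_mul F G hα)
  have h1 := hF β hβ
  have h2 := hG γ hγ
  have : ∑ j, (β + γ) j * μ j = ∑ j, β j * μ j + ∑ j, γ j * μ j := by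
    rw [← Finset.sum_add_distrib]
    apply Finset.sum_congr rfl
    intro j _
    rw [Finsupp.add_apply, add_mul]
  omega

theorem NfB_pow {K : Type*} [Field K] {μ : Fin 3 → ℕ} {D : ℕ} {F : MvPolynomial (Fin 3) K}
    (hF : NfB_W μ D F) (n : ℕ) : NfB_W μ (n * D) (F ^ n) := by
  induction n with
  | zero => rw [pow_zero, ← C_1]; exact NfB_C μ _ 1
  | succ n ih =>
    rw [pow_succ, Nat.succ_mul]
    exact NfB_mul ih hF

theorem NfB_sum {K : Type*} [Field K] {μ : Fin 3 → ℕ} {D : ℕ} {ι : Type*} (s : Finset ι)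
    (F : ι → MvPolynomial (Fin 3) K) (h : ∀ i ∈ s, NfB_W μ D (F i)) : NfB_W μ D (∑ i ∈ s, F i) := by
  classical
  induction s using Finset.induction_on with
  | empty => rw [Finset.sum_empty, ← C_0]; exact NfB_C μ _ 0
  | insert a s ha ih =>
    rw [Finset.sum_insert ha]
    exact NfB_add (h a (Finset.mem_insert_self a s))
      (ih fun i hi => h i (Finset.mem_insert_of_mem hi))

theorem NfB_aeval {K : Type*} [Field K] {μ : Fin 3 → ℕ} {D : ℕ} {p q : MvPolynomial (Fin 3) K} {s t : ℕ}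
    (hp : NfB_W μ s p) (hq : NfB_W μ t q) (P : MvPolynomial (Fin 2) K)
    (h : ∀ α ∈ P.support, α 0 * s + α 1 * t ≤ D) :
    NfB_W μ D (aeval ![p, q] P : MvPolynomial (Fin 3) K) := by
  rw [aeval_def, eval₂_eq']
  apply NfB_sum
  intro α hα
  have h1 := h α hα
  rw [Fin.prod_univ_two]
  have h2 := NfB_mul (NfB_C μ 0 (P.coeff α)) (NfB_mul (NfB_pow hp (α 0)) (NfB_pow hq (α 1)))
  refine NfB_mono h2 ?_
  omega

theorem NfB_paeval {K : Type*} [Field K] {μ : Fin 3 → ℕ} {p : MvPolynomial (Fin 3) K} {s : ℕ}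
    (hp : NfB_W μ s p) (Q : Polynomial K) :
    NfB_W μ (Q.natDegree * s) (Polynomial.aeval p Q : MvPolynomial (Fin 3) K) := by
  rw [Polynomial.aeval_eq_sum_range]
  apply NfB_sum
  intro i hi
  rw [smul_eq_C_mul]
  have h2 := NfB_mul (NfB_C μ 0 (Q.coeff i)) (NfB_pow hp i)
  refine NfB_mono h2 ?_
  have hi' : i ≤ Q.natDegree := Nat.lt_succ_iff.1 (Finset.mem_range.1 hi)
  have := Nat.mul_le_mul_right s hi'
  omega

theorem NfB_map2 {K A B : Type*} [Field K] [CommRing A] [CommRing B] [Algebra K A] [Algebra K B]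
    (φ : A →ₐ[K] B) (p q : A) (P : MvPolynomial (Fin 2) K) :
    φ (aeval ![p, q] P) = aeval ![φ p, φ q] P := by
  have h : (fun i => φ (![p, q] i)) = ![φ p, φ q] := by
    funext i; fin_cases i <;> rfl
  rw [← h, comp_aeval_apply]

theorem NfB_map2' {K : Type*} [Field K] (φ : PAut K 3) (p q : MvPolynomial (Fin 3) K)
    (P : MvPolynomial (Fin 2) K) :
    φ (aeval ![p, q] P) = aeval ![φ p, φ q] P := NfB_map2 φ.toAlgHom p q P

theorem NfB_map1 {K A B : Type*} [Field K] [CommRing A] [CommRing B] [Algebra K A] [Algebra K B]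
    (φ : A →ₐ[K] B) (p : A) (Q : Polynomial K) :
    φ (Polynomial.aeval p Q) = Polynomial.aeval (φ p) Q := (Polynomial.aeval_algHom_apply φ p Q).symm

theorem NfB_map1' {K : Type*} [Field K] (φ : PAut K 3) (p : MvPolynomial (Fin 3) K)
    (Q : Polynomial K) : φ (Polynomial.aeval p Q) = Polynomial.aeval (φ p) Q := NfB_map1 φ.toAlgHom p Q

theorem NfB_mapC' {K : Type*} [Field K] (φ : PAut K 3) (c : K) : φ (C c) = C c := by
  have := φ.commutes c
  simpa [algebraMap_eq] using this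

theorem NfB_aevC {K A : Type*} [Field K] [CommRing A] [Algebra K A] (g : Fin 2 → A) (c : K) :
    aeval g (C c : MvPolynomial (Fin 2) K) = algebraMap K A c := aeval_C g c

theorem cyc_zdo {K : Type*} [Field K] [CharZero K] [IsAlgClosed K] (σ : PAut K 3) (e : K) (he : e ≠ 0)
    (R : MvPolynomial (Fin 2) K) (h0 : σ (X 0) = X 1) (h1 : σ (X 1) = X 2)
    (h2 : σ (X 2) = C e * X 0 + aeval ![X 1, X 2] R) : Zdo σ := by
  classical
  by_cases hR : ∀ α ∈ R.support, α 0 + α 1 ≤ 1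
  · have hμ : ∀ j : Fin 3, NfB_W (fun _ => 1) 1 (X j : MvPolynomial (Fin 3) K) := fun j =>
      NfB_X (fun _ => 1) j
    refine zdo_weights σ (fun _ => 1) (fun _ => le_refl 1) ?_
    intro i
    fin_cases i
    · show NfB_W (fun _ => 1) 1 (σ (X 0)); rw [h0]; exact hμ 1
    · show NfB_W (fun _ => 1) 1 (σ (X 1)); rw [h1]; exact hμ 2
    · show NfB_W (fun _ => 1) 1 (σ (X 2)); rw [h2]
      refine NfB_add ?_ ?_
      · have := NfB_mul (NfB_C (fun _ => 1) 0 e) (hμ 0)
        simpa using this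
      · exact NfB_aeval (hμ 1) (hμ 2) R (fun α hα => by have := hR α hα; omega)
  · push Not at hR
    obtain ⟨β, hβ, hβ2⟩ := hR
    obtain ⟨θ, hθ, hle, ⟨s, hs, heq⟩, hcase⟩ := exists_theta (R.support.image fun α => (α 1, α 0)) 1 le_rfl
      ⟨(β 1, β 0), Finset.mem_image_of_mem _ hβ, by simp only; omega⟩
    obtain ⟨γ, hγ, rfl⟩ := Finset.mem_image.1 hs
    have hle' : ∀ α ∈ R.support, (α 0 : ℝ) + α 1 * θ ≤ θ ^ 2 := by
      intro α hα
      have := hle _ (Finset.mem_image_of_mem (fun α : Fin 2 →₀ ℕ => (α 1, α 0)) hα)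
      simp only [Nat.cast_one, mul_one] at this
      linarith
    have heq' : (γ 0 : ℝ) + γ 1 * θ = θ ^ 2 := by
      simp only [Nat.cast_one, mul_one] at heq
      linarith
    rcases hcase with ⟨N, hN⟩ | hirr
    · subst hN
      have hN2 : 2 ≤ N := by
        have : (1:ℝ) < N := hθ
        exact_mod_cast this
      refine cyc_int σ e he R h0 h1 h2 N hN2 ?_ ⟨γ, hγ, ?_⟩
      · intro α hα
        exact_mod_cast hle' α hα
      · exact_mod_cast heq'
    · exact cyc_irr σ e he R h0 h1 h2 θ hθ hirr hle' ⟨γ, hγ, heq'⟩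

theorem five_zdo {K : Type*} [Field K] [CharZero K] [IsAlgClosed K] (σ : PAut K 3) (a b : K)
    (ha : a ≠ 0) (hb : b ≠ 0) (P : MvPolynomial (Fin 2) K) (Q : Polynomial K) (hq : 1 ≤ Q.natDegree)
    (h0 : σ (X 0) = C a * X 2 + aeval ![X 0, X 1] P)
    (h1 : σ (X 1) = C b * X 1 + Polynomial.aeval (X 0) Q) (h2 : σ (X 2) = X 0) : Zdo σ := by
  classical
  by_cases hP : ∀ α ∈ P.support, α 0 + α 1 * Q.natDegree ≤ 1
  · set μ : Fin 3 → ℕ := ![1, Q.natDegree, 1] with hμdef
    have hX0 : NfB_W μ 1 (X 0 : MvPolynomial (Fin 3) K) := NfB_X μ 0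
    have hX1 : NfB_W μ Q.natDegree (X 1 : MvPolynomial (Fin 3) K) := NfB_X μ 1
    have hX2 : NfB_W μ 1 (X 2 : MvPolynomial (Fin 3) K) := NfB_X μ 2
    refine zdo_weights σ μ ?_ ?_
    · intro i; fin_cases i
      · exact le_refl 1
      · exact hq
      · exact le_refl 1
    · intro i
      fin_cases i
      · show NfB_W μ 1 (σ (X 0)); rw [h0]
        refine NfB_add ?_ ?_
        · have := NfB_mul (NfB_C μ 0 a) hX2
          simpa using this
        · exact NfB_aeval hX0 hX1 P (fun α hα => by have := hP α hα; omega)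
      · show NfB_W μ Q.natDegree (σ (X 1)); rw [h1]
        refine NfB_add ?_ ?_
        · have := NfB_mul (NfB_C μ 0 b) hX1
          simpa using this
        · have := NfB_paeval hX0 Q
          simpa using this
      · show NfB_W μ 1 (σ (X 2)); rw [h2]; exact hX0
  · push Not at hP
    obtain ⟨β, hβ, hβ2⟩ := hP
    obtain ⟨θ, hθ, hle, ⟨s, hs, heq⟩, hcase⟩ := exists_theta (P.support.image fun α => (α 0, α 1))
      Q.natDegree hq ⟨(β 0, β 1), Finset.mem_image_of_mem _ hβ, by simp only; omega⟩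
    obtain ⟨γ, hγ, rfl⟩ := Finset.mem_image.1 hs
    have hle' : ∀ α ∈ P.support, (α 0 : ℝ) * θ + α 1 * Q.natDegree ≤ θ ^ 2 := by
      intro α hα
      exact hle _ (Finset.mem_image_of_mem (fun α : Fin 2 →₀ ℕ => (α 0, α 1)) hα)
    have heq' : (γ 0 : ℝ) * θ + γ 1 * Q.natDegree = θ ^ 2 := heq
    rcases hcase with ⟨N, hN⟩ | hirr
    · subst hN
      have hN2 : 2 ≤ N := by
        have : (1:ℝ) < N := hθ
        exact_mod_cast this
      refine five_int σ a b ha hb P Q hq h0 h1 h2 N hN2 ?_ ⟨γ, hγ, ?_⟩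
      · intro α hα
        exact_mod_cast hle' α hα
      · exact_mod_cast heq'
    · exact five_irr σ a b ha hb P Q hq h0 h1 h2 θ hθ hirr hle' ⟨γ, hγ, heq'⟩

theorem NfB_CC {K : Type*} [Field K] {n : ℕ} {c : K} (hc : c ≠ 0) :
    (C c⁻¹ : MvPolynomial (Fin n) K) * C c = 1 := by
  rw [← C_mul, inv_mul_cancel₀ hc, C_1]

theorem n3_zdo {K : Type*} [Field K] [CharZero K] [IsAlgClosed K] (σ : PAut K 3) (a b c d : K)
    (ha : a ≠ 0) (hb : b ≠ 0) (hc : c ≠ 0) (P : MvPolynomial (Fin 2) K) (Q : Polynomial K)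
    (h0 : σ (X 0) = C a * X 1 + aeval ![X 2, X 0] P)
    (h1 : σ (X 1) = C b * X 2 + Polynomial.aeval (X 0) Q) (h2 : σ (X 2) = C c * X 0 + C d) : Zdo σ := by
  have hcc := NfB_CC (n := 3) hc
  have hbb := NfB_CC (n := 3) hb
  set u1 : MvPolynomial (Fin 3) K := C c⁻¹ * (X 2 - C d) with hu1
  set u0 : MvPolynomial (Fin 3) K := C c⁻¹ * (C b⁻¹ * (X 1 - Polynomial.aeval u1 Q) - C d) with hu0
  set w2 : MvPolynomial (Fin 3) K := C c * X 1 + C d with hw2
  set w1 : MvPolynomial (Fin 3) K := C b * (C c * X 0 + C d) + Polynomial.aeval (X 1) Q with hw1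
  have e1 : aeval ![u0, u1, X 0] w2 = (X 2 : MvPolynomial (Fin 3) K) := by
    rw [hw2]
    simp only [map_add, map_mul, aeval_X, aeval_C, algebraMap_eq, Matrix.cons_val_one, Matrix.cons_val_zero]
    rw [hu1]
    linear_combination (X 2 - C d) * hcc
  have e2 : aeval ![u0, u1, X 0] w1 = (X 1 : MvPolynomial (Fin 3) K) := by
    rw [hw1]
    simp only [map_add, map_mul, aeval_X, aeval_C, algebraMap_eq, Matrix.cons_val_zero, NfB_map1,
      Matrix.cons_val_one]
    rw [hu0]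
    linear_combination (C b * (C b⁻¹ * (X 1 - Polynomial.aeval u1 Q) - C d)) * hcc
      + (X 1 - Polynomial.aeval u1 Q) * hbb
  have e3 : aeval ![X 2, w1, w2] u1 = (X 1 : MvPolynomial (Fin 3) K) := by
    rw [hu1]
    simp only [map_sub, map_mul, aeval_X, aeval_C, algebraMap_eq, Matrix.cons_val]
    rw [hw2]
    linear_combination (X 1) * hcc
  have e4 : aeval ![X 2, w1, w2] u0 = (X 0 : MvPolynomial (Fin 3) K) := by
    rw [hu0]
    simp only [map_sub, map_mul, aeval_X, aeval_C, algebraMap_eq, Matrix.cons_val, NfB_map1, e3]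
    rw [hw1]
    linear_combination (C c⁻¹ * (C c * X 0 + C d)) * hbb + (X 0) * hcc
  refine zdo_of_coords σ ![u0, u1, X 0] ![X 2, w1, w2] ?_ ?_ ?_
  · intro i
    fin_cases i
    · show aeval ![u0, u1, X 0] (X 2) = X 0
      simp
    · exact e2
    · exact e1
  · intro i
    fin_cases i
    · exact e4
    · exact e3
    · show aeval ![X 2, w1, w2] (X 0) = X 2
      simp
  · intro τ hτ
    have s1 : σ u1 = X 0 := by
      rw [hu1, map_mul, map_sub, NfB_mapC', NfB_mapC', h2]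
      linear_combination (X 0) * hcc
    have s0 : σ u0 = u1 := by
      rw [hu0, map_mul, map_sub, map_mul, map_sub, NfB_mapC', NfB_mapC', NfB_mapC', NfB_map1', s1, h1, hu1]
      linear_combination (C c⁻¹ * X 2) * hbb
    refine cyc_zdo τ (a * b * c) (mul_ne_zero (mul_ne_zero ha hb) hc)
      (C (a * b * d) + C a * Polynomial.aeval (X 0) Q + aeval ![C c * X 0 + C d, X 1] P) ?_ ?_ ?_
    · rw [hτ 0]
      show aeval ![X 2, w1, w2] (σ u0) = X 1
      rw [s0, e3]
    · rw [hτ 1]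
      show aeval ![X 2, w1, w2] (σ u1) = X 2
      rw [s1]; simp
    · rw [hτ 2]
      show aeval ![X 2, w1, w2] (σ (X 0)) = _
      rw [h0]
      simp only [map_add, map_mul, aeval_X, aeval_C, algebraMap_eq, NfB_map2, NfB_map1, Matrix.cons_val]
      rw [hw1, hw2]
      ring

theorem n4_zdo {K : Type*} [Field K] [CharZero K] [IsAlgClosed K] (σ : PAut K 3) (a b c d : K)
    (ha : a ≠ 0) (hb : b ≠ 0) (hc : c ≠ 0) (P : MvPolynomial (Fin 2) K) (Q : Polynomial K)
    (h0 : σ (X 0) = C a * X 2 + aeval ![X 0, X 1] P)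
    (h1 : σ (X 1) = C b * X 0 + Polynomial.aeval (X 1) Q) (h2 : σ (X 2) = C c * X 1 + C d) : Zdo σ := by
  have hcc := NfB_CC (n := 3) hc
  have hbb := NfB_CC (n := 3) hb
  set u0 : MvPolynomial (Fin 3) K := C c⁻¹ * (X 2 - C d) with hu0
  set u2 : MvPolynomial (Fin 3) K := C b * X 0 + Polynomial.aeval (X 1) Q with hu2
  set w0 : MvPolynomial (Fin 3) K := C b⁻¹ * (X 2 - Polynomial.aeval (X 1) Q) with hw0
  set w2 : MvPolynomial (Fin 3) K := C c * X 0 + C d with hw2
  have e1 : aeval ![u0, X 1, u2] w0 = (X 0 : MvPolynomial (Fin 3) K) := by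
    rw [hw0]
    simp only [map_sub, map_mul, aeval_X, aeval_C, algebraMap_eq, Matrix.cons_val, NfB_map1]
    rw [hu2]
    linear_combination (X 0) * hbb
  have e2 : aeval ![u0, X 1, u2] w2 = (X 2 : MvPolynomial (Fin 3) K) := by
    rw [hw2]
    simp only [map_add, map_mul, aeval_X, aeval_C, algebraMap_eq, Matrix.cons_val]
    rw [hu0]
    linear_combination (X 2 - C d) * hcc
  have e3 : aeval ![w0, X 1, w2] u0 = (X 0 : MvPolynomial (Fin 3) K) := by
    rw [hu0]
    simp only [map_sub, map_mul, aeval_X, aeval_C, algebraMap_eq, Matrix.cons_val]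
    rw [hw2]
    linear_combination (X 0) * hcc
  have e4 : aeval ![w0, X 1, w2] u2 = (X 2 : MvPolynomial (Fin 3) K) := by
    rw [hu2]
    simp only [map_add, map_mul, aeval_X, aeval_C, algebraMap_eq, Matrix.cons_val, NfB_map1]
    rw [hw0]
    linear_combination (X 2 - Polynomial.aeval (X 1) Q) * hbb
  refine zdo_of_coords σ ![u0, X 1, u2] ![w0, X 1, w2] ?_ ?_ ?_
  · intro i
    fin_cases i
    · exact e1
    · show aeval ![u0, X 1, u2] (X 1) = X 1
      simp
    · exact e2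
  · intro i
    fin_cases i
    · exact e3
    · show aeval ![w0, X 1, w2] (X 1) = X 1
      simp
    · exact e4
  · intro τ hτ
    have s0 : σ u0 = X 1 := by
      rw [hu0, map_mul, map_sub, NfB_mapC', NfB_mapC', h2]
      linear_combination (X 1) * hcc
    have s2 : σ u2 = C b * (C a * X 2 + aeval ![X 0, X 1] P) + Polynomial.aeval u2 Q := by
      rw [hu2, map_add, map_mul, NfB_mapC', NfB_map1', h0, h1]
    refine cyc_zdo τ (a * b * c) (mul_ne_zero (mul_ne_zero ha hb) hc)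
      (C (a * b * d) + C b * aeval ![C b⁻¹ * (X 1 - Polynomial.aeval (X 0) Q), X 0] P
        + Polynomial.aeval (X 1) Q) ?_ ?_ ?_
    · rw [hτ 0]
      show aeval ![w0, X 1, w2] (σ u0) = X 1
      rw [s0]; simp
    · rw [hτ 1]
      show aeval ![w0, X 1, w2] (σ (X 1)) = X 2
      rw [h1]; exact e4
    · rw [hτ 2]
      show aeval ![w0, X 1, w2] (σ u2) = _
      rw [s2]
      simp only [map_add, map_mul, map_sub, aeval_X, aeval_C, algebraMap_eq, NfB_map2, NfB_map1,
        Matrix.cons_val, e4]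
      rw [hw0, hw2]
      ring

theorem n5_zdo {K : Type*} [Field K] [CharZero K] [IsAlgClosed K] (σ : PAut K 3) (a b c d : K)
    (ha : a ≠ 0) (hb : b ≠ 0) (hc : c ≠ 0) (P : MvPolynomial (Fin 2) K) (Q : Polynomial K)
    (h0 : σ (X 0) = C a * X 2 + aeval ![X 1, X 0] P)
    (h1 : σ (X 1) = C b * X 1 + Polynomial.aeval (X 0) Q) (h2 : σ (X 2) = C c * X 0 + C d) : Zdo σ := by
  have hcc := NfB_CC (n := 3) hc
  refine zdo_of_coords σ ![X 0, X 1, C c⁻¹ * (X 2 - C d)] ![X 0, X 1, C c * X 2 + C d] ?_ ?_ ?_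
  · intro i
    fin_cases i
    · show aeval ![X 0, X 1, C c⁻¹ * (X 2 - C d)] (X 0) = X 0
      simp
    · show aeval ![X 0, X 1, C c⁻¹ * (X 2 - C d)] (X 1) = X 1
      simp
    · show aeval ![X 0, X 1, C c⁻¹ * (X 2 - C d)] (C c * X 2 + C d) = X 2
      simp only [map_add, map_mul, aeval_X, aeval_C, algebraMap_eq, Matrix.cons_val]
      linear_combination (X 2 - C d) * hcc
  · intro i
    fin_cases i
    · show aeval ![X 0, X 1, C c * X 2 + C d] (X 0) = X 0
      simp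
    · show aeval ![X 0, X 1, C c * X 2 + C d] (X 1) = X 1
      simp
    · show aeval ![X 0, X 1, C c * X 2 + C d] (C c⁻¹ * (X 2 - C d)) = X 2
      simp only [map_sub, map_mul, aeval_X, aeval_C, algebraMap_eq, Matrix.cons_val]
      linear_combination (X 2) * hcc
  · intro τ hτ
    have t0 : τ (X 0) = C (a * c) * X 2 + aeval ![X 0, X 1] (C (a * d) + aeval ![X 1, X 0] P) := by
      rw [hτ 0]
      show aeval ![X 0, X 1, C c * X 2 + C d] (σ (X 0)) = _
      rw [h0]
      simp only [map_add, map_mul, aeval_X, aeval_C, algebraMap_eq, NfB_map2, Matrix.cons_val]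
      ring
    have t1 : τ (X 1) = C b * X 1 + Polynomial.aeval (X 0) Q := by
      rw [hτ 1]
      show aeval ![X 0, X 1, C c * X 2 + C d] (σ (X 1)) = _
      rw [h1]
      simp only [map_add, map_mul, aeval_X, aeval_C, algebraMap_eq, NfB_map1, Matrix.cons_val]
    have t2 : τ (X 2) = X 0 := by
      rw [hτ 2]
      show aeval ![X 0, X 1, C c * X 2 + C d] (σ (C c⁻¹ * (X 2 - C d))) = _
      rw [map_mul, map_sub, NfB_mapC', NfB_mapC', h2]
      simp only [map_add, map_sub, map_mul, aeval_X, aeval_C, algebraMap_eq, Matrix.cons_val]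
      linear_combination (X 0) * hcc
    by_cases hq : 1 ≤ Q.natDegree
    · exact five_zdo τ (a * c) b (mul_ne_zero ha hc) hb _ Q hq t0 t1 t2
    · have hQ : Q = Polynomial.C (Q.coeff 0) := Polynomial.eq_C_of_natDegree_le_zero (by omega)
      refine zdo_of_coords τ ![X 0, X 2, X 1] ![X 0, X 2, X 1] ?_ ?_ ?_
      · intro i
        fin_cases i <;> simp
      · intro i
        fin_cases i <;> simp
      · intro ρ hρ
        refine n1_zdo ρ (a * c) 1 b (Q.coeff 0) (mul_ne_zero ha hc) one_ne_zero hb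
          (C (a * d) + aeval ![X 1, X 0] P) 0 ?_ ?_ ?_
        · rw [hρ 0]
          show aeval ![X 0, X 2, X 1] (τ (X 0)) = _
          rw [t0]
          simp only [map_add, map_mul, aeval_X, aeval_C, algebraMap_eq, NfB_map2, Matrix.cons_val]
        · rw [hρ 1]
          show aeval ![X 0, X 2, X 1] (τ (X 2)) = _
          rw [t2]
          simp
        · rw [hρ 2]
          show aeval ![X 0, X 2, X 1] (τ (X 1)) = _
          rw [t1, hQ]
          simp [algebraMap_eq]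

end ZD85
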