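import Pool.Agent.H85.ZD.Defs
import Pool.Agent.H85.ZD.FinRelM

/-!
# ZD Rank : sizes force algebraic independence (row `Rank`)

Common data: an automorphism `τ`, a point `P`, a valuation `v`, `g > 1` real, `Θ > 1`, `L : ℝ → ℚ` linear, and indices
`a : Fin ρ → Fin n` with `v(x_m (a l)) = g^{L(Θ^m μ_{a l})}` for all `m` (`x_m = orb τ P m`), the numbers `μ_{a l}` linearly
independent over `ℚ`.  `M ⊂ ℝ` an additive subgroup containing all the `μ_{a l}`, with `Θ M ⊆ M`, and (`hgap`) for every finite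
`Z ⊂ M \ {0}` and all `D, m₀` there is `m ≥ m₀` with `|L(Θ^m z)| ≥ D` for all `z ∈ Z`.

`dom_lemma`: let `S` be a finite set, `c_s ∈ K` not all zero, `z_s ∈ M` pairwise different, `f_s : ℕ → K` with
`v(f_s m) = g^{L(Θ^m z_s)}` for all `m ≥ m₁`.  Then `∑_s c_s f_s(m) ≠ 0` for some `m ≥ m₁`.
Proof: we may assume that all `c_s ≠ 0` (restrict `S`).  Choose `D` with `g^D > max v(c_s) / min v(c_s)` and apply `hgap` to
`Z = {z_s - z_{s'} : s ≠ s'}`: for the resulting `m` the values `L(Θ^m z_s)` are pairwise at distance `≥ D`; the term with the largest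
one strictly dominates: `v(c_s f_s) = v(c_s) g^{..}`.

`indep_of_sizes`: every non-zero `G ∈ K[T_1..T_ρ]` satisfies `G(x_m (a 0), ..., x_m (a (ρ-1))) ≠ 0` for some `m ≥ m₀`.
Proof: `dom_lemma` for the monomials `T^β` of `G`: `z_β = ∑ β_l μ_{a l}`, pairwise different by linear independence.

`indep_of_nonunit`: `a` injective, `ρ + 2 = n`, `Θ⁻¹` not integral over `ℤ`, `ρ ≥ 1`.  Then there is `j : Fin n` such that no non-zero
polynomial in the variables `≠ j` vanishes on the orbit.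
Proof.  Let `b ≠ b'` be the two indices not in the range of `a`.  Suppose the conclusion is false.  For `j = b'` there is a non-zero
polynomial in the variables `x_{a l}, x_b` vanishing on the orbit, similarly with `x_{b'}` (`j = b`).  Let `A = K[x]/I`, `I` the ideal of
the orbit, `t_l` = class of `X (a l)`: algebraically independent by `indep_of_sizes`.  `hdep` of `fin_rel_mv` holds for `b, b'` by the
above and for `a l` trivially (`Y - T_l`).  Let `N` be as in `fin_rel_mv`.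
The set of cosets `{Θ^{-j} μ_{a 0} + M_I : j ≥ 0}`, `M_I = ∑ ℤ μ_{a l}`, is infinite: otherwise the subgroup generated by all
`Θ^{-j} μ_{a 0}` is contained in a finitely generated group, so it is finitely generated, and it is stable under multiplication by
`Θ⁻¹` and non-zero; so `Θ⁻¹` is integral over `ℤ` (`isIntegral_of_smul_mem_submodule` or Cayley-Hamilton).  So there are
`j_0, ..., j_N` with pairwise different cosets; let `j*` be their maximum.  Apply `fin_rel_mv` to `z_k` = class of `(τ⁻¹)^{j_k} (X (a 0))`: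
`∑_k q_k(t) z_k = 0`, `q_k` not all zero.  Evaluate at the point `x_{m + j*}`, `m ≥ 0`: the value of `z_k` there is
`x_{m + j* - j_k} (a 0)`, of size `g^{L(Θ^m Θ^{j* - j_k} μ_{a 0})}`, and the value of the monomial `t^β` has size
`g^{L(Θ^m Θ^{j*} ∑ β_l μ_{a l})}`.  So `∑_k ∑_β q_{k,β} f_{k,β}(m) = 0` for all `m`, with
`z_{k,β} = Θ^{j*} ∑ β_l μ_{a l} + Θ^{j* - j_k} μ_{a 0} ∈ M`, pairwise different (same `k`: linear independence; different `k`: the
cosets are different).  `dom_lemma` gives a contradiction.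
-/

set_option autoImplicit false

namespace ZD85

open MvPolynomial

theorem dom_lemma {K : Type*} [Field K] (v : Valuation K NNReal) (g : ℝ) (hg : 1 < g) (Θ : ℝ)
    (L : ℝ →ₗ[ℚ] ℚ) (M : AddSubgroup ℝ)
    (hgap : ∀ Z : Finset ℝ, (∀ z ∈ Z, z ∈ M ∧ z ≠ 0) → ∀ (D : ℚ) (m₀ : ℕ), ∃ m : ℕ, m₀ ≤ m ∧
      ∀ z ∈ Z, D ≤ |L (Θ ^ m * z)|)
    {ι : Type*} (S : Finset ι) (c : ι → K) (hc : ∃ s ∈ S, c s ≠ 0) (z : ι → ℝ) (hz : ∀ s ∈ S, z s ∈ M)
    (hinj : Set.InjOn z S) (f : ι → ℕ → K) (m₁ : ℕ)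
    (hf : ∀ s ∈ S, ∀ m, m₁ ≤ m → (v (f s m) : ℝ) = g ^ ((L (Θ ^ m * z s) : ℚ) : ℝ)) :
    ∃ m, m₁ ≤ m ∧ ∑ s ∈ S, c s * f s m ≠ 0 := by
  classical
  set S' := S.filter (fun s => c s ≠ 0) with hS'
  have hne : S'.Nonempty := by
    obtain ⟨s, hs, hcs⟩ := hc
    exact ⟨s, Finset.mem_filter.2 ⟨hs, hcs⟩⟩
  have hS'S : ∀ s ∈ S', s ∈ S ∧ c s ≠ 0 := fun s hs => Finset.mem_filter.1 hs
  obtain ⟨smax, hsmax, hmax⟩ := Finset.exists_max_image S' (fun s => (v (c s) : ℝ)) hne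
  obtain ⟨smin, hsmin, hmin⟩ := Finset.exists_min_image S' (fun s => (v (c s) : ℝ)) hne
  have hpos : ∀ s ∈ S', (0 : ℝ) < v (c s) := by
    intro s hs
    have h1 : v (c s) ≠ 0 := (v.ne_zero_iff).2 (hS'S s hs).2
    exact_mod_cast pos_iff_ne_zero.2 h1
  have hg0 : 0 < g := by linarith
  obtain ⟨D, hD⟩ := pow_unbounded_of_one_lt ((v (c smax) : ℝ) / v (c smin)) hg
  obtain ⟨m, hm, hgm⟩ := hgap (((S' ×ˢ S').filter (fun q => q.1 ≠ q.2)).image
    (fun q => z q.1 - z q.2)) (by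
      intro w hw
      obtain ⟨q, hq, rfl⟩ := Finset.mem_image.1 hw
      obtain ⟨hq1, hq2⟩ := Finset.mem_filter.1 hq
      obtain ⟨hq3, hq4⟩ := Finset.mem_product.1 hq1
      refine ⟨M.sub_mem (hz _ (hS'S _ hq3).1) (hz _ (hS'S _ hq4).1), ?_⟩
      intro h
      exact hq2 (hinj (hS'S _ hq3).1 (hS'S _ hq4).1 (sub_eq_zero.1 h))) (D : ℚ) m₁
  refine ⟨m, hm, ?_⟩
  have hsum : ∑ s ∈ S, c s * f s m = ∑ s ∈ S', c s * f s m := by
    rw [hS', Finset.sum_filter]
    refine Finset.sum_congr rfl (fun s _ => ?_)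
    split_ifs with h
    · rfl
    · rw [not_not.1 h, zero_mul]
  rw [hsum]
  obtain ⟨s0, hs0, h0⟩ := Finset.exists_max_image S' (fun s => L (Θ ^ m * z s)) hne
  have hlt : ∀ s ∈ S'.erase s0, v (c s * f s m) < v (c s0 * f s0 m) := by
    intro s hs
    obtain ⟨hss, hs⟩ := Finset.mem_erase.1 hs
    have h1 : (D : ℚ) ≤ L (Θ ^ m * z s0) - L (Θ ^ m * z s) := by
      have h2 := hgm (z s0 - z s) (Finset.mem_image.2 ⟨(s0, s), Finset.mem_filter.2
        ⟨Finset.mem_product.2 ⟨hs0, hs⟩, fun h => hss h.symm⟩, rfl⟩)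
      rw [mul_sub, map_sub, abs_of_nonneg (sub_nonneg.2 (h0 s hs))] at h2
      exact h2
    have h2 : ((D : ℕ) : ℝ) ≤ ((L (Θ ^ m * z s0) : ℚ) : ℝ) - ((L (Θ ^ m * z s) : ℚ) : ℝ) := by
      have h3 : (((D : ℕ) : ℚ) : ℝ) ≤ ((L (Θ ^ m * z s0) - L (Θ ^ m * z s) : ℚ) : ℝ) :=
        Rat.cast_le.2 h1
      push_cast at h3
      exact h3
    have h3 : (v (c s * f s m) : ℝ) < (v (c s0 * f s0 m) : ℝ) := by
      rw [map_mul, map_mul, NNReal.coe_mul, NNReal.coe_mul, hf s (hS'S s hs).1 m hm,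
        hf s0 (hS'S s0 hs0).1 m hm]
      set A : ℝ := ((L (Θ ^ m * z s0) : ℚ) : ℝ)
      set B : ℝ := ((L (Θ ^ m * z s) : ℚ) : ℝ)
      have hB : g ^ B * g ^ D ≤ g ^ A := by
        rw [← Real.rpow_natCast g D, ← Real.rpow_add hg0]
        exact Real.rpow_le_rpow_of_exponent_le hg.le (by linarith)
      have hgB : 0 < g ^ B := Real.rpow_pos_of_pos hg0 _
      have h4 : (v (c smax) : ℝ) < g ^ D * v (c smin) := by
        rw [div_lt_iff₀ (hpos smin hsmin)] at hD
        exact hD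
      calc (v (c s) : ℝ) * g ^ B ≤ v (c smax) * g ^ B := by
            exact mul_le_mul_of_nonneg_right (hmax s hs) hgB.le
        _ < (g ^ D * v (c smin)) * g ^ B := mul_lt_mul_of_pos_right h4 hgB
        _ = v (c smin) * (g ^ B * g ^ D) := by ring
        _ ≤ v (c s0) * g ^ A := by
            apply mul_le_mul (hmin s0 hs0) hB (by positivity) (hpos s0 hs0).le
    exact_mod_cast h3
  have hv0 : v (c s0 * f s0 m) ≠ 0 := by
    intro h
    have h1 : (v (c s0 * f s0 m) : ℝ) = 0 := by rw [h]; rfl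
    rw [map_mul, NNReal.coe_mul, hf s0 (hS'S s0 hs0).1 m hm] at h1
    have h2 : (0 : ℝ) < v (c s0) * g ^ ((L (Θ ^ m * z s0) : ℚ) : ℝ) :=
      mul_pos (hpos s0 hs0) (Real.rpow_pos_of_pos hg0 _)
    linarith
  have hrest : v (∑ s ∈ S'.erase s0, c s * f s m) < v (c s0 * f s0 m) :=
    v.map_sum_lt hv0 hlt
  intro h
  rw [← Finset.add_sum_erase S' _ hs0] at h
  have h1 : c s0 * f s0 m = -∑ s ∈ S'.erase s0, c s * f s m := eq_neg_of_add_eq_zero_left h
  rw [h1, Valuation.map_neg] at hrest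
  exact lt_irrefl _ hrest

theorem Rank_mono {K : Type*} [Field K] {n ρ : ℕ} (τ : PAut K n) (P : Fin n → K)
    (v : Valuation K NNReal) (g : ℝ) (hg : 1 < g) (Θ : ℝ) (L : ℝ →ₗ[ℚ] ℚ) (μ : Fin n → ℝ)
    (a : Fin ρ → Fin n)
    (hsize : ∀ (m : ℕ) (l : Fin ρ), (v (orb τ P m (a l)) : ℝ) = g ^ ((L (Θ ^ m * μ (a l)) : ℚ) : ℝ))
    (m : ℕ) (β : Fin ρ →₀ ℕ) :
    (v (∏ l, orb τ P m (a l) ^ β l) : ℝ) =
      g ^ ((L (Θ ^ m * ∑ l, (β l : ℝ) * μ (a l)) : ℚ) : ℝ) := by
  have hg0 : 0 < g := by linarith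
  rw [map_prod, NNReal.coe_prod]
  have h1 : ∀ l, ((v (orb τ P m (a l) ^ β l) : NNReal) : ℝ) =
      g ^ (((β l : ℚ) * L (Θ ^ m * μ (a l)) : ℚ) : ℝ) := by
    intro l
    rw [map_pow, NNReal.coe_pow, hsize m l, ← Real.rpow_natCast, ← Real.rpow_mul hg0.le]
    congr 1
    push_cast
    ring
  rw [Finset.prod_congr rfl (fun l _ => h1 l), ← Real.rpow_sum_of_pos hg0]
  congr 1
  rw [← Rat.cast_sum]
  congr 1
  rw [Finset.mul_sum, map_sum]
  refine Finset.sum_congr rfl (fun l _ => ?_)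
  have h2 : Θ ^ m * ((β l : ℝ) * μ (a l)) = (β l : ℚ) • (Θ ^ m * μ (a l)) := by
    rw [Rat.smul_def]
    push_cast
    ring
  rw [h2, map_smul, smul_eq_mul]

theorem Rank_inj {n ρ : ℕ} (μ : Fin n → ℝ) (a : Fin ρ → Fin n)
    (hlin : LinearIndependent ℚ (fun l => μ (a l))) (β β' : Fin ρ →₀ ℕ)
    (h : ∑ l, (β l : ℝ) * μ (a l) = ∑ l, (β' l : ℝ) * μ (a l)) : β = β' := by
  have h1 : ∑ l, ((β l : ℚ) - (β' l : ℚ)) • μ (a l) = 0 := by
    have h2 : ∑ l, ((β l : ℚ) - (β' l : ℚ)) • μ (a l) =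
        ∑ l, (β l : ℝ) * μ (a l) - ∑ l, (β' l : ℝ) * μ (a l) := by
      rw [← Finset.sum_sub_distrib]
      refine Finset.sum_congr rfl (fun l _ => ?_)
      rw [Rat.smul_def]
      push_cast
      ring
    rw [h2, h, sub_self]
  have h3 := Fintype.linearIndependent_iff.1 hlin _ h1
  ext l
  have h4 := sub_eq_zero.1 (h3 l)
  exact_mod_cast h4

theorem indep_of_sizes {K : Type*} [Field K] {n ρ : ℕ} (τ : PAut K n) (P : Fin n → K)
    (v : Valuation K NNReal) (g : ℝ) (hg : 1 < g) (Θ : ℝ) (L : ℝ →ₗ[ℚ] ℚ) (μ : Fin n → ℝ)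
    (a : Fin ρ → Fin n) (hlin : LinearIndependent ℚ (fun l => μ (a l)))
    (hsize : ∀ (m : ℕ) (l : Fin ρ), (v (orb τ P m (a l)) : ℝ) = g ^ ((L (Θ ^ m * μ (a l)) : ℚ) : ℝ))
    (M : AddSubgroup ℝ) (hM : ∀ l, μ (a l) ∈ M)
    (hgap : ∀ Z : Finset ℝ, (∀ z ∈ Z, z ∈ M ∧ z ≠ 0) → ∀ (D : ℚ) (m₀ : ℕ), ∃ m : ℕ, m₀ ≤ m ∧
      ∀ z ∈ Z, D ≤ |L (Θ ^ m * z)|)
    (m₀ : ℕ) (G : MvPolynomial (Fin ρ) K) (hG : G ≠ 0) :
    ∃ m, m₀ ≤ m ∧ eval (fun l => orb τ P m (a l)) G ≠ 0 := by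
  classical
  have hz : ∀ β ∈ G.support, (∑ l, (β l : ℝ) * μ (a l)) ∈ M := by
    intro β _
    refine M.sum_mem (fun l _ => ?_)
    rw [← nsmul_eq_mul]
    exact M.nsmul_mem (hM l) _
  have hinj : Set.InjOn (fun β : Fin ρ →₀ ℕ => ∑ l, (β l : ℝ) * μ (a l)) G.support := by
    intro β _ β' _ h
    exact Rank_inj μ a hlin β β' h
  obtain ⟨m, hm, h⟩ := dom_lemma v g hg Θ L M hgap G.support (fun β => G.coeff β)
    (by
      obtain ⟨β, hβ⟩ := MvPolynomial.support_nonempty.2 hG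
      exact ⟨β, hβ, MvPolynomial.mem_support_iff.1 hβ⟩)
    (fun β : Fin ρ →₀ ℕ => ∑ l, (β l : ℝ) * μ (a l)) hz hinj
    (fun β m => ∏ l, orb τ P m (a l) ^ β l) m₀
    (fun β _ m _ => Rank_mono τ P v g hg Θ L μ a hsize m β)
  exact ⟨m, hm, by rw [eval_eq']; exact h⟩

theorem Rank_cosets (Θ : ℝ) (hΘ : Θ ≠ 0) (hint : ¬ IsIntegral ℤ (Θ⁻¹)) (μ0 : ℝ) (h0 : μ0 ≠ 0)
    (H : Submodule ℤ ℝ) (hH : H.FG) (N : ℕ) :
    ∃ j : Fin (N + 1) → ℕ, ∀ k k', (Θ⁻¹) ^ (j k) * μ0 - (Θ⁻¹) ^ (j k') * μ0 ∈ H → k = k' := by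
  classical
  set f : ℕ → ℝ ⧸ H := fun j => Submodule.Quotient.mk ((Θ⁻¹) ^ j * μ0) with hf
  by_cases hinf : (Set.range f).Infinite
  · obtain ⟨t, ht, htc⟩ := hinf.exists_subset_card_eq (N + 1)
    have hch : ∀ y : t, ∃ j, f j = y.1 := fun y => ht y.2
    choose J hJ using hch
    refine ⟨fun k => J (t.equivFinOfCardEq htc |>.symm k), fun k k' h => ?_⟩
    have h1 : f (J ((t.equivFinOfCardEq htc).symm k)) = f (J ((t.equivFinOfCardEq htc).symm k')) :=
      (Submodule.Quotient.eq H).2 h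
    rw [hJ, hJ] at h1
    exact (t.equivFinOfCardEq htc).symm.injective (Subtype.ext h1)
  · exfalso
    rw [Set.not_infinite] at hinf
    obtain ⟨J, hJ⟩ : ∃ J : Finset ℕ, ∀ j, ∃ j' ∈ J, f j = f j' := by
      have hch : ∀ y : Set.range f, ∃ j, f j = y.1 := fun y => y.2
      choose g hg using hch
      have : Fintype (Set.range f) := hinf.fintype
      refine ⟨Finset.univ.image g, fun j => ⟨g ⟨f j, j, rfl⟩, Finset.mem_image_of_mem _
        (Finset.mem_univ _), ?_⟩⟩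
      exact (hg ⟨f j, j, rfl⟩).symm
    set H' : Submodule ℤ ℝ := Submodule.span ℤ (Set.range fun j : ℕ => (Θ⁻¹) ^ j * μ0) with hH'
    set H'' : Submodule ℤ ℝ := H ⊔ Submodule.span ℤ (J.image fun j : ℕ => (Θ⁻¹) ^ j * μ0 : Finset ℝ)
      with hH''
    have hfg : H''.FG := hH.sup ⟨_, rfl⟩
    have hle : H' ≤ H'' := by
      rw [hH', Submodule.span_le]
      rintro _ ⟨j, rfl⟩
      obtain ⟨j', hj', hjj⟩ := hJ j
      have h1 : (Θ⁻¹) ^ j * μ0 - (Θ⁻¹) ^ j' * μ0 ∈ H := (Submodule.Quotient.eq H).1 hjj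
      have h2 : (Θ⁻¹) ^ j' * μ0 ∈ H'' := by
        refine Submodule.mem_sup_right (Submodule.subset_span ?_)
        exact Finset.mem_coe.2 (Finset.mem_image_of_mem _ hj')
      have h3 := H''.add_mem (Submodule.mem_sup_left h1) h2
      rwa [sub_add_cancel] at h3
    have hnoeth : IsNoetherian ℤ H'' := isNoetherian_of_fg_of_noetherian H'' hfg
    have hfg' : H'.FG := (isNoetherian_submodule.1 hnoeth) H' hle
    apply hint
    refine isIntegral_of_smul_mem_submodule (M := ℝ) H' ?_ hfg' (Θ⁻¹) ?_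
    · intro h
      have h1 : (Θ⁻¹) ^ 0 * μ0 ∈ H' := Submodule.subset_span ⟨0, rfl⟩
      rw [h, Submodule.mem_bot, pow_zero, one_mul] at h1
      exact h0 h1
    · intro y hy
      induction hy using Submodule.span_induction with
      | mem y hy =>
        obtain ⟨j, rfl⟩ := hy
        refine Submodule.subset_span ⟨j + 1, ?_⟩
        show (Θ⁻¹) ^ (j + 1) * μ0 = Θ⁻¹ • ((Θ⁻¹) ^ j * μ0)
        rw [smul_eq_mul, pow_succ]
        ring
      | zero => rw [smul_zero]; exact H'.zero_mem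
      | add y z _ _ hy hz => rw [smul_add]; exact H'.add_mem hy hz
      | smul r y _ hy => rw [smul_comm]; exact H'.smul_mem r hy

theorem Rank_opt {K : Type*} [Field K] {A : Type*} [CommRing A] [Algebra K A] {n ρ : ℕ}
    (hn : ρ + 2 = n) (x : Fin n → A) (a : Fin ρ → Fin n) (ha : Function.Injective a) (i j : Fin n)
    (hi : ∀ l, a l ≠ i) (hj : ∀ l, a l ≠ j) (hij : i ≠ j)
    (G : MvPolynomial {i' : Fin n // i' ≠ j} K) (hG : G ≠ 0)
    (h : aeval x (rename Subtype.val G) = 0) :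
    ∃ G' : Polynomial (MvPolynomial (Fin ρ) K), G' ≠ 0 ∧
      Polynomial.eval₂ (aeval (fun l => x (a l)) : MvPolynomial (Fin ρ) K →ₐ[K] A).toRingHom
        (x i) G' = 0 := by
  classical
  set e' : Option (Fin ρ) → {i' : Fin n // i' ≠ j} :=
    fun o => o.elim ⟨i, hij⟩ (fun l => ⟨a l, hj l⟩) with he'
  have hinj : Function.Injective e' := by
    intro o o' hoo
    cases o with
    | none =>
      cases o' with
      | none => rfl
      | some l =>
        exfalso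
        exact hi l (congrArg Subtype.val hoo).symm
    | some l =>
      cases o' with
      | none =>
        exfalso
        exact hi l (congrArg Subtype.val hoo)
      | some l' =>
        have := ha (congrArg Subtype.val hoo)
        rw [this]
  have hbij : Function.Bijective e' := by
    rw [Fintype.bijective_iff_injective_and_card]
    refine ⟨hinj, ?_⟩
    rw [Fintype.card_option, Fintype.card_fin, Fintype.card_subtype_compl,
      Fintype.card_fin, Fintype.card_subtype_eq]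
    omega
  set e := Equiv.ofBijective e' hbij with he
  refine ⟨optionEquivLeft K (Fin ρ) (rename e.symm G), ?_, ?_⟩
  · intro h0
    apply hG
    have h1 : rename e.symm G = 0 := by
      apply (optionEquivLeft K (Fin ρ)).injective
      rw [h0, map_zero]
    exact (rename_injective _ e.symm.injective) (by rw [h1, map_zero])
  · have key : ∀ Q : MvPolynomial (Option (Fin ρ)) K,
        Polynomial.eval₂ (aeval (fun l => x (a l)) : MvPolynomial (Fin ρ) K →ₐ[K] A).toRingHom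
          (x i) (optionEquivLeft K (Fin ρ) Q) = aeval (fun o => x (e' o).1) Q := by
      intro Q
      induction Q using MvPolynomial.induction_on with
      | C r =>
        rw [optionEquivLeft_C, Polynomial.eval₂_C]
        show aeval (fun l => x (a l)) (C r) = _
        rw [aeval_C, aeval_C]
      | add p q hp hq => rw [map_add, Polynomial.eval₂_add, hp, hq, map_add]
      | mul_X p o hp =>
        rw [map_mul, Polynomial.eval₂_mul, hp, map_mul, aeval_X]
        congr 1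
        cases o with
        | none => rw [optionEquivLeft_X_none, Polynomial.eval₂_X]; rfl
        | some l =>
          rw [optionEquivLeft_X_some, Polynomial.eval₂_C]
          show aeval (fun l => x (a l)) (X l) = _
          rw [aeval_X]; rfl
    rw [key, aeval_rename]
    have h2 : (fun o => x (e' o).1) ∘ e.symm = x ∘ Subtype.val := by
      funext q
      have h3 : e' (e.symm q) = q := e.apply_symm_apply q
      show x (e' (e.symm q)).1 = x q.1
      rw [h3]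
    rw [h2, ← aeval_rename]
    exact h

theorem indep_of_nonunit {K : Type*} [Field K] {n ρ : ℕ} (hρ : 1 ≤ ρ) (hn : ρ + 2 = n)
    (τ : PAut K n) (P : Fin n → K)
    (v : Valuation K NNReal) (g : ℝ) (hg : 1 < g) (Θ : ℝ) (hΘ : 1 < Θ) (L : ℝ →ₗ[ℚ] ℚ) (μ : Fin n → ℝ)
    (a : Fin ρ → Fin n) (ha : Function.Injective a) (hlin : LinearIndependent ℚ (fun l => μ (a l)))
    (hsize : ∀ (m : ℕ) (l : Fin ρ), (v (orb τ P m (a l)) : ℝ) = g ^ ((L (Θ ^ m * μ (a l)) : ℚ) : ℝ))
    (M : AddSubgroup ℝ) (hM : ∀ l, μ (a l) ∈ M) (hMΘ : ∀ x ∈ M, Θ * x ∈ M)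
    (hgap : ∀ Z : Finset ℝ, (∀ z ∈ Z, z ∈ M ∧ z ≠ 0) → ∀ (D : ℚ) (m₀ : ℕ), ∃ m : ℕ, m₀ ≤ m ∧
      ∀ z ∈ Z, D ≤ |L (Θ ^ m * z)|)
    (hint : ¬ IsIntegral ℤ (Θ⁻¹)) :
    ∃ j : Fin n, ∀ G : MvPolynomial {i : Fin n // i ≠ j} K, G ≠ 0 →
      ∃ m : ℕ, eval (orb τ P m) (rename Subtype.val G) ≠ 0 := by
  classical
  have hΘ0 : Θ ≠ 0 := by linarith
  by_contra hcon
  push Not at hcon
  -- the ideal of the orbit
  set I : Ideal (MvPolynomial (Fin n) K) := ⨅ m : ℕ, RingHom.ker (eval (orb τ P m)) with hI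
  have hmemI : ∀ F, F ∈ I ↔ ∀ m, eval (orb τ P m) F = 0 := by
    intro F
    rw [hI, Ideal.mem_iInf]
    exact Iff.rfl
  set x : Fin n → MvPolynomial (Fin n) K ⧸ I := fun i => Ideal.Quotient.mk I (X i) with hx
  have haev : ∀ F : MvPolynomial (Fin n) K, aeval x F = Ideal.Quotient.mk I F := by
    intro F
    have h1 : (aeval x : MvPolynomial (Fin n) K →ₐ[K] MvPolynomial (Fin n) K ⧸ I) =
        Ideal.Quotient.mkₐ K I := by
      apply MvPolynomial.algHom_ext
      intro i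
      rw [aeval_X]
      rfl
    rw [h1]
    rfl
  have hgen : Algebra.adjoin K (Set.range x) = ⊤ := by
    rw [eq_top_iff]
    intro y _
    obtain ⟨F, rfl⟩ := Ideal.Quotient.mk_surjective y
    rw [← haev, MvPolynomial.aeval_def]
    have h1 : aeval x F ∈ Algebra.adjoin K (Set.range x) := by
      rw [Algebra.adjoin_range_eq_range_aeval]
      exact ⟨F, rfl⟩
    exact h1
  set t : Fin ρ → MvPolynomial (Fin n) K ⧸ I := fun l => x (a l) with ht
  have haevt : ∀ F : MvPolynomial (Fin ρ) K, aeval t F = Ideal.Quotient.mk I (rename a F) := by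
    intro F
    rw [← haev, aeval_rename]
    rfl
  have htinj : Function.Injective (aeval t : MvPolynomial (Fin ρ) K →ₐ[K] _) := by
    rw [injective_iff_map_eq_zero]
    intro F hF
    rw [haevt, Ideal.Quotient.eq_zero_iff_mem, hmemI] at hF
    by_contra hF0
    obtain ⟨m, -, hm⟩ := indep_of_sizes τ P v g hg Θ L μ a hlin hsize M hM hgap 0 F hF0
    apply hm
    have h1 := hF m
    rw [eval_rename] at h1
    exact h1
  have hdep : ∀ i, ∃ G : Polynomial (MvPolynomial (Fin ρ) K), G ≠ 0 ∧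
      Polynomial.eval₂ (MvPolynomial.aeval t : MvPolynomial (Fin ρ) K →ₐ[K] _).toRingHom (x i) G
        = 0 := by
    intro i
    by_cases hi : ∃ l, a l = i
    · obtain ⟨l, rfl⟩ := hi
      refine ⟨Polynomial.X - Polynomial.C (X l), Polynomial.X_sub_C_ne_zero _, ?_⟩
      rw [Polynomial.eval₂_sub, Polynomial.eval₂_X, Polynomial.eval₂_C]
      show x (a l) - aeval t (X l) = 0
      rw [aeval_X, sub_self]
    · push Not at hi
      obtain ⟨j, hij, hj⟩ : ∃ j : Fin n, i ≠ j ∧ ∀ l, a l ≠ j := by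
        by_contra hc
        push Not at hc
        have h1 : (Finset.univ : Finset (Fin n)) ⊆ insert i (Finset.univ.image a) := by
          intro j _
          by_cases hij : i = j
          · rw [hij]; exact Finset.mem_insert_self _ _
          · obtain ⟨l, hl⟩ := hc j hij
            exact Finset.mem_insert_of_mem (Finset.mem_image.2 ⟨l, Finset.mem_univ _, hl⟩)
        have h2 := Finset.card_le_card h1
        have h3 := Finset.card_insert_le i (Finset.univ.image a)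
        have h4 : (Finset.univ.image a).card ≤ ρ := by
          refine Finset.card_image_le.trans ?_
          rw [Finset.card_univ, Fintype.card_fin]
        rw [Finset.card_univ, Fintype.card_fin] at h2
        omega
      obtain ⟨G, hG, hG0⟩ := hcon j
      refine Rank_opt hn x a ha i j hi hj hij G hG ?_
      rw [haev, Ideal.Quotient.eq_zero_iff_mem, hmemI]
      exact hG0
  obtain ⟨N, hN⟩ := fin_rel_mv x hgen t htinj hdep
  -- cosets
  set l0 : Fin ρ := ⟨0, hρ⟩ with hl0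
  have hμ0 : μ (a l0) ≠ 0 := hlin.ne_zero l0
  set H : Submodule ℤ ℝ := Submodule.span ℤ (Set.range fun l => μ (a l)) with hH
  have hHfg : H.FG := by
    rw [hH]
    exact Submodule.fg_span (Set.finite_range _)
  obtain ⟨j, hj⟩ := Rank_cosets Θ hΘ0 hint (μ (a l0)) hμ0 H hHfg N
  set J : ℕ := Finset.univ.sup j with hJ
  have hjJ : ∀ k, j k ≤ J := fun k => Finset.le_sup (f := j) (Finset.mem_univ k)
  obtain ⟨q, hq0, hq⟩ := hN (fun k => Ideal.Quotient.mk I (((τ⁻¹) ^ (j k)) (X (a l0))))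
  have hR : ∀ m, ∑ k, eval (orb τ P (m + J)) (rename a (q k)) *
      orb τ P (m + J - j k) (a l0) = 0 := by
    intro m
    have h1 : (∑ k, rename a (q k) * ((τ⁻¹) ^ (j k)) (X (a l0))) ∈ I := by
      rw [← Ideal.Quotient.eq_zero_iff_mem, map_sum, ← hq]
      refine Finset.sum_congr rfl (fun k _ => ?_)
      rw [map_mul, haevt]
    have h2 := (hmemI _).1 h1 (m + J)
    rw [map_sum] at h2
    rw [← h2]
    refine Finset.sum_congr rfl (fun k _ => ?_)
    rw [map_mul]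
    congr 1
    rw [eval_orb]
    have h3 : (τ ^ (m + J)) (((τ⁻¹) ^ (j k)) (X (a l0))) = (τ ^ (m + J - j k)) (X (a l0)) := by
      have h4 : τ ^ (m + J) * (τ⁻¹) ^ (j k) = τ ^ (m + J - j k) := by
        have h5 : m + J = (m + J - j k) + j k := by
          have := hjJ k
          omega
        rw [inv_pow]
        nth_rewrite 1 [h5]
        rw [pow_add, mul_inv_cancel_right]
      rw [← h4]
      rfl
    rw [h3, ← eval_orb, eval_X]
  -- domination
  have hMpow : ∀ (e : ℕ) (y : ℝ), y ∈ M → Θ ^ e * y ∈ M := by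
    intro e y hy
    induction e with
    | zero => rwa [pow_zero, one_mul]
    | succ e ih =>
      rw [pow_succ', mul_assoc]
      exact hMΘ _ ih
  have hMsum : ∀ β : Fin ρ →₀ ℕ, (∑ l, (β l : ℝ) * μ (a l)) ∈ M := by
    intro β
    refine M.sum_mem (fun l _ => ?_)
    rw [← nsmul_eq_mul]
    exact M.nsmul_mem (hM l) _
  have hHsum : ∀ β : Fin ρ →₀ ℕ, (∑ l, (β l : ℝ) * μ (a l)) ∈ H := by
    intro β
    refine H.sum_mem (fun l _ => ?_)
    rw [← nsmul_eq_mul]
    exact H.nsmul_mem (Submodule.subset_span ⟨l, rfl⟩) _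
  set S : Finset (Σ _ : Fin (N + 1), Fin ρ →₀ ℕ) := Finset.univ.sigma (fun k => (q k).support)
    with hS
  obtain ⟨m, -, hm⟩ := dom_lemma v g hg Θ L M hgap S (fun s => (q s.1).coeff s.2)
    (by
      obtain ⟨k, hk⟩ := Function.ne_iff.1 hq0
      obtain ⟨β, hβ⟩ := MvPolynomial.support_nonempty.2 hk
      exact ⟨⟨k, β⟩, Finset.mem_sigma.2 ⟨Finset.mem_univ _, hβ⟩, MvPolynomial.mem_support_iff.1 hβ⟩)
    (fun s => Θ ^ J * (∑ l, (s.2 l : ℝ) * μ (a l)) + Θ ^ (J - j s.1) * μ (a l0))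
    (fun s _ => M.add_mem (hMpow _ _ (hMsum s.2)) (hMpow _ _ (hM l0)))
    (by
      rintro ⟨k, β⟩ _ ⟨k', β'⟩ _ h
      have hdiv : ∀ k, Θ ^ (J - j k) = Θ ^ J * (Θ⁻¹) ^ (j k) := by
        intro k
        rw [pow_sub₀ Θ hΘ0 (hjJ k), inv_pow]
      have h1 : Θ ^ J * ((∑ l, (β l : ℝ) * μ (a l)) + (Θ⁻¹) ^ (j k) * μ (a l0)) =
          Θ ^ J * ((∑ l, (β' l : ℝ) * μ (a l)) + (Θ⁻¹) ^ (j k') * μ (a l0)) := by
        have h2 : Θ ^ J * (∑ l, (β l : ℝ) * μ (a l)) + Θ ^ (J - j k) * μ (a l0) =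
          Θ ^ J * (∑ l, (β' l : ℝ) * μ (a l)) + Θ ^ (J - j k') * μ (a l0) := h
        rw [hdiv, hdiv] at h2
        linarith
      have h3 := mul_left_cancel₀ (pow_ne_zero J hΘ0) h1
      have h4 : k = k' := by
        apply hj
        have h5 : (Θ⁻¹) ^ (j k) * μ (a l0) - (Θ⁻¹) ^ (j k') * μ (a l0) =
            (∑ l, (β' l : ℝ) * μ (a l)) - (∑ l, (β l : ℝ) * μ (a l)) := by linarith
        rw [h5]
        exact H.sub_mem (hHsum β') (hHsum β)
      subst h4
      have h6 : (∑ l, (β l : ℝ) * μ (a l)) = ∑ l, (β' l : ℝ) * μ (a l) := by linarith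
      have h7 := Rank_inj μ a hlin β β' h6
      rw [h7])
    (fun s m => (∏ l, orb τ P (m + J) (a l) ^ s.2 l) * orb τ P (m + J - j s.1) (a l0)) 0
    (by
      rintro ⟨k, β⟩ _ m _
      have hg0 : 0 < g := by linarith
      show (v ((∏ l, orb τ P (m + J) (a l) ^ β l) * orb τ P (m + J - j k) (a l0)) : ℝ) = _
      rw [map_mul, NNReal.coe_mul, Rank_mono τ P v g hg Θ L μ a hsize, hsize,
        ← Real.rpow_add hg0, ← Rat.cast_add, ← map_add]
      congr 3
      have h1 : m + J - j k = m + (J - j k) := by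
        have := hjJ k
        omega
      rw [h1, pow_add, pow_add]
      ring)
  apply hm
  rw [← hR m, hS, Finset.sum_sigma]
  refine Finset.sum_congr rfl (fun k _ => ?_)
  rw [eval_rename, eval_eq', Finset.sum_mul]
  refine Finset.sum_congr rfl (fun β _ => ?_)
  simp only [Function.comp_apply]
  ring

end ZD85
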