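import Pool.Agent.H85.ZD.Defs

/-!
# ZD Rel : `n + 1` semi-invariants give an invariant rational function (row `Rel`)

Data: `F_0, ..., F_n` non-zero polynomials in `n` variables with `σ F_i = c_i F_i`, points `P_0, ..., P_n` with
`F_k(P_k) = 0` and `F_i(P_k) ≠ 0` for `i < k`.

Proof.
(1) For `α : Fin (n+1) →₀ ℕ` put `F^α = ∏ F_i ^ α_i` and `c^α = ∏ c_i ^ α_i`; `σ (F^α) = C (c^α) * F^α`;
`F^α ≠ 0`.
(2) The `n + 1` polynomials `F_i` are algebraically dependent over `K` (transcendence degree of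
`MvPolynomial (Fin n) K` is `n`: `MvPolynomial.trdeg_of_isDomain`, `AlgebraicIndependent.lift_cardinalMk_le_trdeg`),
so there is `a : MvPolynomial (Fin (n+1)) K`, `a ≠ 0`, with `aeval F a = 0`.  Choose such `a` with
`a.support.card` minimal.
(3) All `c^α`, `α ∈ a.support`, are equal: fix `α₀ ∈ a.support`; the polynomial `a'` with coefficients
`(c^α - c^{α₀}) a_α` satisfies `aeval F a' = σ (aeval F a) - C (c^{α₀}) * aeval F a = 0` and has smaller support, so
`a' = 0`.
(4) `a.support` has at least two elements (one monomial `a_α F^α` is not zero).  Take `α ≠ β` in it.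
`A = F^α`, `B = F^β`: `σ A * B = C (c^α) * A * B = A * σ B`, `B ≠ 0`.
(5) `A ≠ C c * B` for all `c`: suppose `F^α = C c * F^β`; `c ≠ 0` as `F^α ≠ 0`.  Let `k` be the largest index with
`α_k ≠ β_k`; if `α_k < β_k` exchange the roles (divide by `c`).  So `α_k > β_k` (wlog).  Cancel the equal factors with
index `> k` and `F_k ^ β_k`: `F_k ^ (α_k - β_k) * ∏_{i<k} F_i ^ α_i = C c * ∏_{i<k} F_i ^ β_i`.  Evaluate at `P_k`:
the left side is `0`, the right side is `c * ∏_{i<k} F_i(P_k) ^ β_i ≠ 0`.  Contradiction.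
-/

set_option autoImplicit false

namespace ZD85

open MvPolynomial

private theorem Rel_aux {K : Type*} [Field K] {n : ℕ}
    (F : Fin (n + 1) → MvPolynomial (Fin n) K) (P : Fin (n + 1) → (Fin n → K))
    (hF : ∀ i, F i ≠ 0)
    (h0 : ∀ k, eval (P k) (F k) = 0) (h1 : ∀ i k, i < k → eval (P k) (F i) ≠ 0)
    (a b : Fin (n + 1) → ℕ) (k : Fin (n + 1)) (hk : b k < a k) (hgt : ∀ i, k < i → a i = b i)
    (c : K) : ∏ i, F i ^ a i ≠ C c * ∏ i, F i ^ b i := by
  intro heq
  have hne : ∀ e : Fin (n + 1) → ℕ, ∏ i, F i ^ e i ≠ 0 := fun e =>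
    Finset.prod_ne_zero_iff.2 fun i _ => pow_ne_zero _ (hF i)
  have ha : ∏ i, F i ^ a i = (∏ i, F i ^ (if i < k then 0 else b i)) *
      ((∏ i, F i ^ (if i = k then a k - b k else 0)) * ∏ i, F i ^ (if i < k then a i else 0)) := by
    rw [← Finset.prod_mul_distrib, ← Finset.prod_mul_distrib]
    apply Finset.prod_congr rfl
    intro i _
    rw [← pow_add, ← pow_add]
    congr 1
    rcases lt_trichotomy i k with h | h | h
    · simp [h, h.ne]
    · subst h
      simp
      omega
    · rw [if_neg (not_lt.2 h.le), if_neg h.ne', if_neg (not_lt.2 h.le), hgt i h]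
      simp
  have hb : ∏ i, F i ^ b i = (∏ i, F i ^ (if i < k then 0 else b i)) *
      ∏ i, F i ^ (if i < k then b i else 0) := by
    rw [← Finset.prod_mul_distrib]
    apply Finset.prod_congr rfl
    intro i _
    rw [← pow_add]
    congr 1
    split_ifs <;> simp
  rw [ha, hb, mul_left_comm (C c)] at heq
  have h2 := mul_left_cancel₀ (hne _) heq
  have h3 := congrArg (eval (P k)) h2
  rw [map_mul, map_mul, eval_C, map_prod, map_prod, map_prod] at h3
  have h4 : ∏ i, eval (P k) (F i ^ (if i = k then a k - b k else 0)) = 0 := by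
    apply Finset.prod_eq_zero (Finset.mem_univ k)
    rw [if_pos rfl, map_pow, h0, zero_pow]
    omega
  have h5 : ∏ i, eval (P k) (F i ^ (if i < k then b i else 0)) ≠ 0 := by
    refine Finset.prod_ne_zero_iff.2 fun i _ => ?_
    rw [map_pow]
    by_cases h : i < k
    · exact pow_ne_zero _ (h1 i k h)
    · rw [if_neg h, pow_zero]; exact one_ne_zero
  rw [h4, zero_mul] at h3
  have h6 : c = 0 := by
    rcases mul_eq_zero.1 h3.symm with h | h
    · exact h
    · exact absurd h h5
  rw [h6, C_0, zero_mul, mul_eq_zero] at h2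
  rcases h2 with h | h
  · exact hne _ h
  · exact hne _ h

private theorem Rel_ne {K : Type*} [Field K] {n : ℕ}
    (F : Fin (n + 1) → MvPolynomial (Fin n) K) (P : Fin (n + 1) → (Fin n → K))
    (hF : ∀ i, F i ≠ 0)
    (h0 : ∀ k, eval (P k) (F k) = 0) (h1 : ∀ i k, i < k → eval (P k) (F i) ≠ 0)
    (a b : Fin (n + 1) → ℕ) (hab : a ≠ b) (c : K) :
    ∏ i, F i ^ a i ≠ C c * ∏ i, F i ^ b i := by
  intro heq
  have hne : ∀ e : Fin (n + 1) → ℕ, ∏ i, F i ^ e i ≠ 0 := fun e =>
    Finset.prod_ne_zero_iff.2 fun i _ => pow_ne_zero _ (hF i)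
  have hex : (Finset.univ.filter fun i => a i ≠ b i).Nonempty := by
    obtain ⟨i, hi⟩ := Function.ne_iff.1 hab
    exact ⟨i, Finset.mem_filter.2 ⟨Finset.mem_univ _, hi⟩⟩
  set k := (Finset.univ.filter fun i => a i ≠ b i).max' hex with hkdef
  have hk : a k ≠ b k := (Finset.mem_filter.1 (Finset.max'_mem _ hex)).2
  have hgt : ∀ i, k < i → a i = b i := by
    intro i hi
    by_contra hcon
    have hmem : i ∈ Finset.univ.filter fun i => a i ≠ b i :=
      Finset.mem_filter.2 ⟨Finset.mem_univ _, hcon⟩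
    exact absurd hi (not_lt.2 (Finset.le_max' _ i hmem))
  rcases lt_or_gt_of_ne hk with h | h
  · have hc : c ≠ 0 := by
      rintro rfl
      rw [C_0, zero_mul] at heq
      exact hne _ heq
    refine Rel_aux F P hF h0 h1 b a k h (fun i hi => (hgt i hi).symm) c⁻¹ ?_
    rw [heq, ← mul_assoc, ← C_mul, inv_mul_cancel₀ hc, C_1, one_mul]
  · exact Rel_aux F P hF h0 h1 a b k h hgt c heq

private theorem Rel_dep {K : Type*} [Field K] {n : ℕ} (F : Fin (n + 1) → MvPolynomial (Fin n) K) :
    ¬ AlgebraicIndependent K F := by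
  intro h
  have h1 := h.lift_cardinalMk_le_trdeg
  rw [MvPolynomial.trdeg_of_isDomain] at h1
  simp at h1

theorem hasInv_of_semi {K : Type*} [Field K] {n : ℕ} (σ : PAut K n)
    (F : Fin (n + 1) → MvPolynomial (Fin n) K) (c : Fin (n + 1) → K) (P : Fin (n + 1) → (Fin n → K))
    (hF : ∀ i, F i ≠ 0) (hσ : ∀ i, σ (F i) = C (c i) * F i)
    (h0 : ∀ k, eval (P k) (F k) = 0) (h1 : ∀ i k, i < k → eval (P k) (F i) ≠ 0) :
    HasInv σ := by
  classical
  have hne : ∀ e : Fin (n + 1) → ℕ, ∏ i, F i ^ e i ≠ 0 := fun e =>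
    Finset.prod_ne_zero_iff.2 fun i _ => pow_ne_zero _ (hF i)
  have hσM : ∀ e : Fin (n + 1) → ℕ, σ (∏ i, F i ^ e i) = C (∏ i, c i ^ e i) * ∏ i, F i ^ e i := by
    intro e
    rw [map_prod, map_prod, ← Finset.prod_mul_distrib]
    apply Finset.prod_congr rfl
    intro i _
    rw [map_pow, hσ, mul_pow, map_pow]
  have hae : ∀ b : MvPolynomial (Fin (n + 1)) K,
      aeval F b = ∑ d ∈ b.support, C (b.coeff d) * ∏ i, F i ^ d i := by
    intro b
    rw [aeval_def, eval₂_eq']
    rfl
  -- minimal relation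
  have hex : ∃ m : ℕ, ∃ a : MvPolynomial (Fin (n + 1)) K, a ≠ 0 ∧ aeval F a = 0 ∧
      a.support.card = m := by
    have h2 := Rel_dep F
    rw [algebraicIndependent_iff] at h2
    push Not at h2
    obtain ⟨a, ha, ha'⟩ := h2
    exact ⟨_, a, ha', ha, rfl⟩
  obtain ⟨a, ha, ha', hcard⟩ := Nat.find_spec hex
  have hmin : ∀ b : MvPolynomial (Fin (n + 1)) K, aeval F b = 0 →
      b.support.card < a.support.card → b = 0 := by
    intro b hb hlt
    by_contra hb0
    rw [hcard] at hlt
    exact Nat.find_min hex hlt ⟨b, hb0, hb, rfl⟩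
  obtain ⟨α, hα⟩ : a.support.Nonempty := support_nonempty.2 ha
  -- all multipliers agree
  have hcm : ∀ β ∈ a.support, ∏ i, c i ^ β i = ∏ i, c i ^ α i := by
    set a' : MvPolynomial (Fin (n + 1)) K := ∑ d ∈ a.support,
      monomial d ((∏ i, c i ^ d i - ∏ i, c i ^ α i) * a.coeff d) with ha'def
    have hco : ∀ β, a'.coeff β = (∏ i, c i ^ β i - ∏ i, c i ^ α i) * a.coeff β := by
      intro β
      rw [ha'def, coeff_sum]
      simp only [coeff_monomial]
      rw [Finset.sum_ite_eq' a.support β]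
      by_cases hβ : β ∈ a.support
      · rw [if_pos hβ]
      · rw [if_neg hβ, notMem_support_iff.1 hβ, mul_zero]
    have hz : aeval F a' = 0 := by
      have h3 : aeval F a' = σ (aeval F a) - C (∏ i, c i ^ α i) * aeval F a := by
        rw [ha'def, map_sum, hae a, map_sum, Finset.mul_sum, ← Finset.sum_sub_distrib]
        apply Finset.sum_congr rfl
        intro d _
        rw [aeval_monomial, Finsupp.prod_fintype _ _ (fun i => pow_zero _), map_mul σ, hσM]
        have h4 : σ (C (a.coeff d)) = C (a.coeff d) := by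
          have := σ.commutes (a.coeff d)
          simpa [algebraMap_eq] using this
        rw [h4, algebraMap_eq]
        simp only [C_mul, C_sub]
        ring
      rw [h3, ha', map_zero, mul_zero, sub_zero]
    have hsub : a'.support.card < a.support.card := by
      apply Finset.card_lt_card
      rw [Finset.ssubset_iff_of_subset]
      · refine ⟨α, hα, ?_⟩
        rw [notMem_support_iff, hco, sub_self, zero_mul]
      · intro β hβ
        rw [mem_support_iff] at hβ ⊢
        intro h
        rw [hco, h, mul_zero] at hβ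
        exact hβ rfl
    have h5 := hmin a' hz hsub
    intro β hβ
    have h6 := hco β
    rw [h5, coeff_zero] at h6
    rcases mul_eq_zero.1 h6.symm with h | h
    · exact sub_eq_zero.1 h
    · exact absurd h (mem_support_iff.1 hβ)
  -- a second monomial
  obtain ⟨β, hβ, hβα⟩ : ∃ β ∈ a.support, β ≠ α := by
    by_contra hcon
    push Not at hcon
    have hs : a.support = {α} := by
      apply Finset.eq_singleton_iff_unique_mem.2
      exact ⟨hα, hcon⟩
    have h7 := hae a
    rw [ha', hs, Finset.sum_singleton] at h7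
    rcases mul_eq_zero.1 h7.symm with h | h
    · rw [C_eq_zero] at h
      exact mem_support_iff.1 hα h
    · exact hne _ h
  refine ⟨∏ i, F i ^ α i, ∏ i, F i ^ β i, hne _, fun d => ?_, ?_⟩
  · refine Rel_ne F P hF h0 h1 _ _ ?_ d
    intro h
    exact hβα (DFunLike.coe_injective h.symm)
  · rw [hσM, hσM, hcm β hβ]
    ring

end ZD85
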