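import Pool.Agent.H85.ZD.GradInd

/-!
# ZD RelE : algebraic relations, evaluated at points (row `RelE`)

`R = F[x_1, x_2, x_3]`, `Q` its fraction field, `q : R → Q`.

`eval_rel`: if `A ∈ F[U][V]` satisfies `A(q u / q w, q u' / q w') = 0` in `Q` (`w, w' ≠ 0`) then for every `F`-algebra
homomorphism `χ : R → F` with `χ w ≠ 0`, `χ w' ≠ 0` also `A(χ u / χ w, χ u' / χ w') = 0` in `F`.
Proof: let `I, J` bound the degrees in `U` (inner) and `V` (outer).  Multiply the first identity by `(q w)^I (q w')^J`: it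
becomes `q` of the polynomial identity `∑ a_{ij} u^i w^(I-i) u'^j w'^(J-j) = 0` in `R` (`q` injective); apply `χ` and divide
by `(χ w)^I (χ w')^J`.

`exists_rel_one`: `r = u/w`, `s = u'/w'` algebraically dependent, `u' ≠ 0`.  Choose `A ≠ 0` with `A(r, s) = 0` of minimal
outer degree.  `A.coeff 0 ≠ 0`: otherwise `A = V * A'` with `A' ≠ 0`, `A'(r, s) = 0` since `s ≠ 0`, of smaller degree.

`exists_rel_two`: `s` transcendental.  Choose `Φ ≠ 0` with `Φ(r, s) = 0` of minimal outer degree.  If
`Φ.eval (C v) = 0` for some `v ∈ F`, then `Φ = (V - C (C v)) * Φ'` (`Polynomial.mul_divX`/`dvd_iff_isRoot`) and `Φ'(r, s) = 0`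
because `s ≠ v`; smaller degree, contradiction.

`beta_case`.  `r_m = χ_m(yb)^n / χ_m(ya)^n'` where `χ_m = χ ∘ G^m`, `a_m = χ_m(ya)`.
Let `Z` = the finite set of all coefficients of `A`, `Φ`, of `ya`, `yb`, and `N` = a number `≥` all inner degrees
(`(A.coeff k).natDegree`, `(Φ.coeff k).natDegree`), and `≥ n * totalDegree yb + n' * totalDegree ya + totalDegree ya`,
`N ≥ 2`.  `E` from `exists_subfield`.
(1) Start: there are `c₁, c₂ ∈ E^3` with `ya(c₁) ≠ 0`, `ya(c₂) ≠ 0` and `yb(c₁)^n ya(c₂)^n' ≠ yb(c₂)^n ya(c₁)^n'`: the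
polynomial `ya(x) ya(x') (yb(x)^n ya(x')^n' - yb(x')^n ya(x)^n')` in the six variables `x, x'` is not zero - otherwise
`yb(x)^n ya(x')^n' = yb(x')^n ya(x)^n'`, and specialising `x'` to a point of `F^3` with `ya(x') ≠ 0` gives
`yb^n = C κ * ya^n'`, excluded - and a non-zero polynomial does not vanish on the power of the infinite set `E`.  (Or choose
`c₁` first with `ya(c₁) ≠ 0` in `E^3`, then `c₂ ∈ E^3` not a zero of the non-zero polynomial
`ya * (yb(c₁)^n ya^n' - ya(c₁)^n' yb^n)`.)
Let `t ∈ F \ E` and `c = c₁ + t (c₂ - c₁)`, `χ` = evaluation at `c`.  `α(T) = ya(c₁ + T(c₂ - c₁))`, `β(T) = yb(...)`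
in `E[T]`, of degree `≤` the total degrees.  `α(0) ≠ 0` so `α ≠ 0` and `χ(ya) = α(t) ≠ 0` because `t ∉ E`.
`r_0 = β(t)^n / α(t)^n' ∉ E`: otherwise `t` is a root of `β^n - r_0 α^n' ∈ E[T]`, of degree `≤ N`, which is not zero (if it
were, `β(0)^n / α(0)^n' = r_0 = β(1)^n / α(1)^n'`, excluded by the choice of `c₁, c₂`).  So `t ∈ E`, contradiction.
(2) Step: `a_m ≠ 0`, `r_m ∉ E` imply the same for `m + 1`.  Apply `hA` to `χ_m` (`χ_{m+1} = χ_m ∘ G`):
`A(r_m, a_{m+1}^ns / a_m^ns') = 0`; if `a_{m+1} = 0` then (`ns ≥ 1`) `A.coeff 0` evaluated at `r_m` is `0`, with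
`A.coeff 0 ≠ 0` over `E`, so `r_m ∈ E`, contradiction.  So `a_{m+1} ≠ 0`, and `hΦ` gives `Φ(r_m, r_{m+1}) = 0`; if
`r_{m+1} ∈ E` then `Φ.eval (C r_{m+1})` is a non-zero polynomial over `E` of degree `≤ N` with root `r_m`: `r_m ∈ E`,
contradiction.
(`G^[m]` composed with `χ`: define `χ_m` recursively, `χ_{m+1} = χ_m.comp G`, so that `χ_m f = χ (G^[m] f)`.)
-/

set_option autoImplicit false

namespace ZD85

open MvPolynomial

variable {F : Type*} [Field F]

/-- evaluation of a bivariate polynomial along a ring homomorphism -/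
noncomputable def RelE_ev {B : Type*} [CommRing B] (c : F →+* B) (x y : B) :
    Polynomial (Polynomial F) →+* B :=
  Polynomial.eval₂RingHom (Polynomial.eval₂RingHom c x) y

theorem RelE_ev_hom {B B' : Type*} [CommRing B] [CommRing B'] (f : B →+* B') (c : F →+* B)
    (x y : B) (A : Polynomial (Polynomial F)) :
    f (RelE_ev c x y A) = RelE_ev (f.comp c) (f x) (f y) A := by
  have h : f.comp (RelE_ev c x y) = RelE_ev (f.comp c) (f x) (f y) := by
    apply Polynomial.ringHom_ext'
    · apply Polynomial.ringHom_ext'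
      · ext a
        simp [RelE_ev]
      · simp [RelE_ev]
    · simp [RelE_ev]
  exact congrArg (fun g : Polynomial (Polynomial F) →+* B' => g A) h

theorem RelE_ev_id (x y : F) (A : Polynomial (Polynomial F)) :
    RelE_ev (RingHom.id F) x y A = Polynomial.evalEval x y A := by
  have h : RelE_ev (RingHom.id F) x y = Polynomial.evalEvalRingHom x y := by
    apply Polynomial.ringHom_ext'
    · apply Polynomial.ringHom_ext'
      · ext a
        simp [RelE_ev]
      · simp [RelE_ev]
    · simp [RelE_ev]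
  rw [h]; rfl

theorem RelE_rel {Q : Type*} [Field Q] [Algebra F Q] (r s : Q)
    (hdep : ¬ AlgebraicIndependent F ![r, s]) :
    ∃ A : Polynomial (Polynomial F), A ≠ 0 ∧ RelE_ev (algebraMap F Q) r s A = 0 := by
  rw [algebraicIndependent_iff] at hdep
  push Not at hdep
  obtain ⟨P, hP, hP0⟩ := hdep
  refine ⟨(Polynomial.Bivariate.equivMvPolynomial F).symm P, ?_, ?_⟩
  · intro h
    apply hP0
    have := congrArg (Polynomial.Bivariate.equivMvPolynomial F) h
    simpa using this
  · have h : (RelE_ev (algebraMap F Q) r s).comp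
        ((Polynomial.Bivariate.equivMvPolynomial F).symm : MvPolynomial (Fin 2) F →+*
          Polynomial (Polynomial F)) = (aeval ![r, s] : MvPolynomial (Fin 2) F →ₐ[F] Q) := by
      apply MvPolynomial.ringHom_ext
      · intro a
        simp [RelE_ev]
      · intro i
        fin_cases i
        · simp [RelE_ev]
        · simp [RelE_ev]
    have h2 := congrArg (fun g : MvPolynomial (Fin 2) F →+* Q => g P) h
    simp only [RingHom.comp_apply] at h2
    exact h2.trans hP

theorem RelE_evalL {R L Q : Type*} [CommRing R] [IsDomain R] [Algebra F R] [CommRing L]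
    [Algebra R L] [Field Q] [Algebra R Q] [IsFractionRing R Q] [Algebra F Q] [IsScalarTower F R Q]
    (S : Submonoid R) [IsLocalization S L] (u w u' w' : R) (A : Polynomial (Polynomial F))
    (hA : RelE_ev (algebraMap F Q) (algebraMap R Q u / algebraMap R Q w)
      (algebraMap R Q u' / algebraMap R Q w') A = 0)
    (χ : R →ₐ[F] F) (hSmem : ∀ f, f ∈ S ↔ χ f ≠ 0) (hw : χ w ≠ 0) (hw' : χ w' ≠ 0) :
    Polynomial.evalEval (χ u / χ w) (χ u' / χ w') A = 0 := by
  have hSne : ∀ f ∈ S, f ≠ 0 := by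
    intro f hf h0
    exact (hSmem f).1 hf (by rw [h0, map_zero])
  have hS : S ≤ nonZeroDivisors R := by
    intro f hf
    exact mem_nonZeroDivisors_of_ne_zero (hSne f hf)
  have hg : ∀ y : S, IsUnit ((χ : R →+* F) y) := by
    intro y
    exact isUnit_iff_ne_zero.2 ((hSmem y).1 y.2)
  have hh : ∀ y : S, IsUnit (algebraMap R Q y) := by
    intro y
    rw [isUnit_iff_ne_zero]
    intro h0
    exact hSne y y.2 ((IsFractionRing.injective R Q) (by rw [h0, map_zero]))
  obtain ⟨g, hgd⟩ : ∃ g : L →+* F, g = IsLocalization.lift hg := ⟨_, rfl⟩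
  obtain ⟨h, hhd⟩ : ∃ h : L →+* Q, h = IsLocalization.lift hh := ⟨_, rfl⟩
  have hinj : Function.Injective h := by
    rw [hhd, IsLocalization.lift_injective_iff]
    intro x y
    constructor
    · intro e
      rw [(IsLocalization.injective L hS) e]
    · intro e
      rw [(IsFractionRing.injective R Q) e]
  have hwS : w ∈ S := (hSmem w).2 hw
  have hwS' : w' ∈ S := (hSmem w').2 hw'
  have key : ∀ (v : R) (t : R) (ht : t ∈ S),
      g (IsLocalization.mk' L v ⟨t, ht⟩) = χ v / χ t ∧
      h (IsLocalization.mk' L v ⟨t, ht⟩) = algebraMap R Q v / algebraMap R Q t := by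
    intro v t ht
    constructor
    · rw [hgd, IsLocalization.lift_mk'_spec]
      change χ v = χ t * (χ v / χ t)
      have := (hSmem t).1 ht
      field_simp
    · rw [hhd, IsLocalization.lift_mk'_spec]
      have h0 : algebraMap R Q t ≠ 0 := (hh ⟨t, ht⟩).ne_zero
      field_simp
  obtain ⟨k1, k2⟩ := key u w hwS
  obtain ⟨k3, k4⟩ := key u' w' hwS'
  obtain ⟨c, hc⟩ : ∃ c : F →+* L, c = (algebraMap R L).comp (algebraMap F R) := ⟨_, rfl⟩
  have hc1 : g.comp c = RingHom.id F := by
    ext a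
    rw [hc, hgd, RingHom.comp_apply, RingHom.comp_apply, IsLocalization.lift_eq]
    exact χ.commutes a
  have hc2 : h.comp c = algebraMap F Q := by
    ext a
    rw [hc, hhd, RingHom.comp_apply, RingHom.comp_apply, IsLocalization.lift_eq]
    rw [← IsScalarTower.algebraMap_apply F R Q]
  have e1 : RelE_ev c (IsLocalization.mk' L u ⟨w, hwS⟩)
      (IsLocalization.mk' L u' ⟨w', hwS'⟩) A = 0 := by
    apply hinj
    rw [RelE_ev_hom, k2, k4, hc2, map_zero]
    exact hA
  have e2 := congrArg g e1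
  rw [RelE_ev_hom, k1, k3, hc1, map_zero, RelE_ev_id] at e2
  exact e2

theorem RelE_evalR {R Q : Type*} [CommRing R] [IsDomain R] [Algebra F R]
    [Field Q] [Algebra R Q] [IsFractionRing R Q] [Algebra F Q] [IsScalarTower F R Q]
    (u w u' w' : R) (A : Polynomial (Polynomial F))
    (hA : RelE_ev (algebraMap F Q) (algebraMap R Q u / algebraMap R Q w)
      (algebraMap R Q u' / algebraMap R Q w') A = 0)
    (χ : R →ₐ[F] F) (hw : χ w ≠ 0) (hw' : χ w' ≠ 0) :
    Polynomial.evalEval (χ u / χ w) (χ u' / χ w') A = 0 := by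
  refine RelE_evalL (L := Localization (Submonoid.comap (χ : R →* F) (nonZeroDivisors F)))
    (Submonoid.comap (χ : R →* F) (nonZeroDivisors F)) u w u' w' A hA χ ?_ hw hw'
  intro f
  change χ f ∈ nonZeroDivisors F ↔ _
  rw [mem_nonZeroDivisors_iff_ne_zero]

theorem RelE_one {Q : Type*} [Field Q] [Algebra F Q] (r s : Q) (hs : s ≠ 0)
    (hdep : ¬ AlgebraicIndependent F ![r, s]) :
    ∃ A : Polynomial (Polynomial F), A.coeff 0 ≠ 0 ∧ RelE_ev (algebraMap F Q) r s A = 0 := by
  obtain ⟨A, hA0, hA⟩ := RelE_rel _ _ hdep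
  have main : ∀ (n : ℕ) (A : Polynomial (Polynomial F)), A.natDegree = n → A ≠ 0 →
      RelE_ev (algebraMap F Q) r s A = 0 →
      ∃ A' : Polynomial (Polynomial F), A'.coeff 0 ≠ 0 ∧ RelE_ev (algebraMap F Q) r s A' = 0 := by
    intro n
    induction n with
    | zero =>
      intro A hn h0 hA
      refine ⟨A, ?_, hA⟩
      intro hc
      apply h0
      rw [Polynomial.eq_C_of_natDegree_eq_zero hn, hc, Polynomial.C_0]
    | succ n ih =>
      intro A hn h0 hA
      by_cases hc : A.coeff 0 = 0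
      · obtain ⟨A', rfl⟩ := Polynomial.X_dvd_iff.2 hc
        have h1 : A' ≠ 0 := by
          rintro rfl
          exact h0 (by simp)
        refine ih A' ?_ h1 ?_
        · rw [Polynomial.natDegree_X_mul h1] at hn
          omega
        · rw [map_mul] at hA
          rcases mul_eq_zero.1 hA with h2 | h2
          · exfalso
            apply hs
            simpa [RelE_ev] using h2
          · exact h2
      · exact ⟨A, hc, hA⟩
  exact main _ A rfl hA0 hA

theorem RelE_two {Q : Type*} [Field Q] [Algebra F Q] (r s : Q) (ht : Transcendental F s)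
    (hdep : ¬ AlgebraicIndependent F ![r, s]) :
    ∃ Φ : Polynomial (Polynomial F), (∀ v : F, Φ.eval (Polynomial.C v) ≠ 0) ∧
      RelE_ev (algebraMap F Q) r s Φ = 0 := by
  obtain ⟨A, hA0, hA⟩ := RelE_rel _ _ hdep
  have hs : ∀ v : F, s - algebraMap F Q v ≠ 0 := by
    intro v h
    rw [sub_eq_zero] at h
    rw [h] at ht
    exact ht (isAlgebraic_algebraMap v)
  have main : ∀ (n : ℕ) (A : Polynomial (Polynomial F)), A.natDegree = n → A ≠ 0 →
      RelE_ev (algebraMap F Q) r s A = 0 →
      ∃ A' : Polynomial (Polynomial F), (∀ v : F, A'.eval (Polynomial.C v) ≠ 0) ∧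
      RelE_ev (algebraMap F Q) r s A' = 0 := by
    intro n
    induction n with
    | zero =>
      intro A hn h0 hA
      refine ⟨A, ?_, hA⟩
      intro v hc
      apply h0
      rw [Polynomial.eq_C_of_natDegree_eq_zero hn, Polynomial.eval_C] at hc
      rw [Polynomial.eq_C_of_natDegree_eq_zero hn, hc, Polynomial.C_0]
    | succ n ih =>
      intro A hn h0 hA
      by_cases hc : ∃ v : F, A.eval (Polynomial.C v) = 0
      · obtain ⟨v, hv⟩ := hc
        obtain ⟨A', rfl⟩ := Polynomial.dvd_iff_isRoot.2 hv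
        have h1 : A' ≠ 0 := by
          rintro rfl
          exact h0 (by simp)
        refine ih A' ?_ h1 ?_
        · rw [Polynomial.natDegree_mul (Polynomial.X_sub_C_ne_zero _) h1,
            Polynomial.natDegree_X_sub_C] at hn
          omega
        · rw [map_mul] at hA
          rcases mul_eq_zero.1 hA with h2 | h2
          · exfalso
            apply hs v
            simpa [RelE_ev] using h2
          · exact h2
      · push Not at hc
        exact ⟨A, hc, hA⟩
  exact main _ A rfl hA0 hA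

theorem exists_rel_one (u w u' w' : MvPolynomial (Fin 3) F) (hw : w ≠ 0) (hw' : w' ≠ 0) (hu' : u' ≠ 0)
    (hdep : ¬ AlgebraicIndependent F
      ![algebraMap (MvPolynomial (Fin 3) F) (FractionRing (MvPolynomial (Fin 3) F)) u /
          algebraMap (MvPolynomial (Fin 3) F) (FractionRing (MvPolynomial (Fin 3) F)) w,
        algebraMap (MvPolynomial (Fin 3) F) (FractionRing (MvPolynomial (Fin 3) F)) u' /
          algebraMap (MvPolynomial (Fin 3) F) (FractionRing (MvPolynomial (Fin 3) F)) w']) :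
    ∃ A : Polynomial (Polynomial F), A.coeff 0 ≠ 0 ∧
      ∀ χ : MvPolynomial (Fin 3) F →ₐ[F] F, χ w ≠ 0 → χ w' ≠ 0 →
        Polynomial.evalEval (χ u / χ w) (χ u' / χ w') A = 0 := by
  have hinj := IsFractionRing.injective (MvPolynomial (Fin 3) F)
      (FractionRing (MvPolynomial (Fin 3) F))
  have hs : algebraMap (MvPolynomial (Fin 3) F) (FractionRing (MvPolynomial (Fin 3) F)) u' /
      algebraMap (MvPolynomial (Fin 3) F) (FractionRing (MvPolynomial (Fin 3) F)) w' ≠ 0 := by
    apply div_ne_zero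
    · intro h; exact hu' (hinj (by rw [h, map_zero]))
    · intro h; exact hw' (hinj (by rw [h, map_zero]))
  obtain ⟨A', h1, h2⟩ := RelE_one _ _ hs hdep
  exact ⟨A', h1, fun χ hχ hχ' => RelE_evalR u w u' w' A' h2 χ hχ hχ'⟩

theorem exists_rel_two (u w u' w' : MvPolynomial (Fin 3) F) (hw : w ≠ 0) (hw' : w' ≠ 0)
    (ht : Transcendental F (algebraMap (MvPolynomial (Fin 3) F) (FractionRing (MvPolynomial (Fin 3) F)) u' /
          algebraMap (MvPolynomial (Fin 3) F) (FractionRing (MvPolynomial (Fin 3) F)) w'))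
    (hdep : ¬ AlgebraicIndependent F
      ![algebraMap (MvPolynomial (Fin 3) F) (FractionRing (MvPolynomial (Fin 3) F)) u /
          algebraMap (MvPolynomial (Fin 3) F) (FractionRing (MvPolynomial (Fin 3) F)) w,
        algebraMap (MvPolynomial (Fin 3) F) (FractionRing (MvPolynomial (Fin 3) F)) u' /
          algebraMap (MvPolynomial (Fin 3) F) (FractionRing (MvPolynomial (Fin 3) F)) w']) :
    ∃ Φ : Polynomial (Polynomial F), (∀ v : F, Φ.eval (Polynomial.C v) ≠ 0) ∧
      ∀ χ : MvPolynomial (Fin 3) F →ₐ[F] F, χ w ≠ 0 → χ w' ≠ 0 →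
        Polynomial.evalEval (χ u / χ w) (χ u' / χ w') Φ = 0 := by
  obtain ⟨A', h1, h2⟩ := RelE_two _ _ ht hdep
  exact ⟨A', h1, fun χ hχ hχ' => RelE_evalR u w u' w' A' h2 χ hχ hχ'⟩

end ZD85
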