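import Pool.Agent.H85.ZD.Defs

/-!
# ZD Resid : reduction to the algebraic closure of `F_p` (row `Resid`)

`K` algebraically closed of characteristic 0, `v` real valued, `v p < 1`.  Let `𝒪 = v.integer` (`v x ≤ 1`), a valuation
ring (local, maximal ideal `v x < 1`), `κ` its residue field (characteristic `p`, algebraically closed: lift a monic
polynomial over `κ` to a monic polynomial over `𝒪`, take a root in `K`; it is integral over `𝒪`, so in `𝒪`).
Let `F = AlgebraicClosure (ZMod p)` and `j : F → κ` an embedding over `ZMod p` (`IsAlgClosed.lift`).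
`O = {x ∈ 𝒪 | residue of x ∈ range j}` is a subring of `K`, `red x = j⁻¹(residue x)` (for instance via
`RingEquiv.ofLeftInverse`/`j.rangeRestrict` bijective onto its range) is a surjective ring homomorphism `O → F`, with
`red x = 0 ↔ v x < 1`.  If `v x < 1` the residue is `0 ∈ range j`.  If `v (x^N - 1) < 1`, `N ≥ 1`, then `v x = 1` and the
residue `u` of `x` satisfies `u^N = 1`, so it is algebraic over `ZMod p` and lies in the range of `j` (`X^N - 1` splits
in `F`, and a root of the split polynomial in `κ` is the image of a root in `F`; see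
`Polynomial.Splits`/`mem_range_of_root` or `Algebra.IsAlgebraic` arguments: `j(F)` is algebraically closed in `κ`, being
algebraically closed).
-/

set_option autoImplicit false

namespace ZD85

/-- the residue field of a valuation on an algebraically closed field is algebraically closed -/
theorem Resid_algClosed {K : Type*} [Field K] [IsAlgClosed K] (v : Valuation K NNReal) :
    IsAlgClosed (IsLocalRing.ResidueField v.valuationSubring) := by
  apply IsAlgClosed.of_exists_root
  intro f hf _
  have hlift : f ∈ Polynomial.lifts (IsLocalRing.residue v.valuationSubring) := by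
    rw [Polynomial.mem_lifts]
    exact Polynomial.map_surjective _ IsLocalRing.residue_surjective f
  obtain ⟨q, hq1, hq2, hq3⟩ := Polynomial.lifts_and_natDegree_eq_and_monic hlift hf
  by_cases hdeg : f.natDegree = 0
  · exfalso
    rename_i hirr
    have := hf.natDegree_eq_zero.1 hdeg
    rw [this] at hirr
    exact not_irreducible_one hirr
  obtain ⟨x, hx⟩ := IsAlgClosed.exists_root (q.map (algebraMap v.valuationSubring K)) (by
    rw [Polynomial.degree_eq_natDegree (hq3.map _).ne_zero, hq3.natDegree_map, hq2]
    exact_mod_cast hdeg)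
  have hint : IsIntegral v.valuationSubring x :=
    ⟨q, hq3, by rw [← Polynomial.eval_map]; exact hx⟩
  obtain ⟨y, hy⟩ := IsIntegrallyClosed.isIntegral_iff.1 hint
  refine ⟨IsLocalRing.residue _ y, ?_⟩
  rw [← hq1, Polynomial.eval_map, Polynomial.eval₂_at_apply]
  have : q.eval y = 0 := by
    have h2 : (algebraMap v.valuationSubring K) (q.eval y) = 0 := by
      rw [← Polynomial.eval₂_at_apply, ← Polynomial.eval_map, hy]
      exact hx
    exact (FaithfulSMul.algebraMap_injective v.valuationSubring K) (by rw [h2, map_zero])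
  rw [this, map_zero]

theorem exists_resid {K : Type*} [Field K] [CharZero K] [IsAlgClosed K] (p : ℕ) [Fact p.Prime]
    (v : Valuation K NNReal) (hv : v (p : K) < 1) :
    ∃ (O : Subring K) (red : O →+* AlgebraicClosure (ZMod p)), Function.Surjective red ∧
      (∀ x : O, red x = 0 ↔ v (x : K) < 1) ∧ (∀ x ∈ O, v x ≤ 1) ∧ (∀ x : K, v x < 1 → x ∈ O) ∧
      (∀ x : K, (∃ N : ℕ, 1 ≤ N ∧ v (x ^ N - 1) < 1) → x ∈ O) := by
  classical
  have := Resid_algClosed v
  have hres0 : ∀ a : v.valuationSubring, IsLocalRing.residue _ a = 0 ↔ v (a : K) < 1 := by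
    intro a
    rw [IsLocalRing.residue_eq_zero_iff]
    exact Valuation.mem_maximalIdeal_iff K v
  have hchar : CharP (IsLocalRing.ResidueField v.valuationSubring) p := by
    rw [CharP.charP_iff_prime_eq_zero Fact.out]
    have h1 : (p : IsLocalRing.ResidueField v.valuationSubring)
        = IsLocalRing.residue v.valuationSubring (p : v.valuationSubring) := by
      rw [map_natCast]
    rw [h1, hres0]
    exact_mod_cast hv
  letI : Algebra (ZMod p) (IsLocalRing.ResidueField v.valuationSubring) := ZMod.algebra _ p
  let j : AlgebraicClosure (ZMod p) →ₐ[ZMod p] IsLocalRing.ResidueField v.valuationSubring :=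
    IsAlgClosed.lift
  let J : AlgebraicClosure (ZMod p) →+* IsLocalRing.ResidueField v.valuationSubring := j
  have hJinj : Function.Injective J := J.injective
  let O : Subring K := ((J.range).comap (IsLocalRing.residue v.valuationSubring)).map
    (v.valuationSubring.subtype)
  have hO : ∀ x : K, x ∈ O ↔ ∃ a : v.valuationSubring, IsLocalRing.residue _ a ∈ J.range ∧
      (a : K) = x := by
    intro x
    constructor
    · rintro ⟨a, ha, hax⟩
      exact ⟨a, ha, hax⟩
    · rintro ⟨a, ha, hax⟩
      exact ⟨a, ha, hax⟩
  have hOA : ∀ x : O, (O.subtype x) ∈ v.valuationSubring := by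
    intro x
    obtain ⟨a, _, ha⟩ := (hO x).1 x.2
    rw [Subring.subtype_apply, ← ha]
    exact a.2
  let incl : O →+* v.valuationSubring := O.subtype.codRestrict v.valuationSubring hOA
  have hincl : ∀ x : O, ((incl x : v.valuationSubring) : K) = x := fun x => rfl
  have hinclr : ∀ x : O, (IsLocalRing.residue v.valuationSubring (incl x)) ∈ J.range := by
    intro x
    obtain ⟨a, ha1, ha2⟩ := (hO x).1 x.2
    have : incl x = a := Subtype.ext (by rw [hincl, ha2])
    rw [this]; exact ha1
  let R : O →+* J.range :=
    ((IsLocalRing.residue v.valuationSubring).comp incl).codRestrict J.range hinclr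
  let e : AlgebraicClosure (ZMod p) ≃+* J.range :=
    RingEquiv.ofBijective J.rangeRestrict
      ⟨fun a b hab => hJinj (congrArg Subtype.val hab), J.rangeRestrict_surjective⟩
  have he : ∀ u, ((e u : J.range) : IsLocalRing.ResidueField v.valuationSubring) = J u :=
    fun u => rfl
  refine ⟨O, (e.symm : J.range →+* AlgebraicClosure (ZMod p)).comp R, ?_, ?_, ?_, ?_, ?_⟩
  · intro u
    obtain ⟨a, ha⟩ := IsLocalRing.residue_surjective (J u)
    have hx : (a : K) ∈ O := (hO _).2 ⟨a, by rw [ha]; exact ⟨u, rfl⟩, rfl⟩
    refine ⟨⟨a, hx⟩, ?_⟩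
    change e.symm (R ⟨a, hx⟩) = u
    rw [RingEquiv.symm_apply_eq]
    apply Subtype.ext
    rw [he, ← ha]
    rfl
  · intro x
    change e.symm (R x) = 0 ↔ _
    rw [map_eq_zero_iff _ e.symm.injective]
    rw [← hincl x, ← hres0]
    constructor
    · intro h
      exact congrArg Subtype.val h
    · intro h
      exact Subtype.ext h
  · intro x hx
    obtain ⟨a, _, ha⟩ := (hO x).1 hx
    rw [← ha]
    exact a.2
  · intro x hx
    refine (hO x).2 ⟨⟨x, hx.le⟩, ?_, rfl⟩
    rw [(hres0 ⟨x, hx.le⟩).2 hx]
    exact zero_mem _
  · rintro x ⟨N, hN, hxN⟩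
    have hx1 : v x ≤ 1 := by
      have h1 : v (x ^ N) ≤ 1 := by
        have : x ^ N = (x ^ N - 1) + 1 := by ring
        rw [this]
        exact (v.map_add _ _).trans (max_le hxN.le (by rw [map_one]))
      rw [map_pow] at h1
      by_contra hcon
      rw [not_le] at hcon
      exact absurd h1 (not_le.2 (one_lt_pow₀ hcon (by omega)))
    refine (hO x).2 ⟨⟨x, hx1⟩, ?_, rfl⟩
    set u := IsLocalRing.residue v.valuationSubring ⟨x, hx1⟩ with hu
    have huN : u ^ N - 1 = 0 := by
      have : u ^ N - 1 = IsLocalRing.residue v.valuationSubring (⟨x, hx1⟩ ^ N - 1) := by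
        rw [map_sub, map_pow, map_one]
      rw [this, hres0]
      exact hxN
    have hs : (Polynomial.X ^ N - 1 : Polynomial (AlgebraicClosure (ZMod p))).Splits :=
      IsAlgClosed.splits _
    have hprod := hs.eq_prod_roots
    have hmon : (Polynomial.X ^ N - 1 : Polynomial (AlgebraicClosure (ZMod p))).Monic := by
      simpa using Polynomial.monic_X_pow_sub_C (1 : AlgebraicClosure (ZMod p)) (show N ≠ 0 by omega)
    rw [hmon.leadingCoeff, Polynomial.C_1, one_mul] at hprod
    have h2 : (Polynomial.X ^ N - 1 : Polynomial (AlgebraicClosure (ZMod p))).eval₂ J u = 0 := by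
      simpa using huN
    rw [hprod, ← Polynomial.coe_eval₂RingHom, map_multiset_prod, Multiset.prod_eq_zero_iff] at h2
    simp only [Multiset.map_map, Multiset.mem_map, Function.comp_apply,
      Polynomial.coe_eval₂RingHom, Polynomial.eval₂_sub, Polynomial.eval₂_X,
      Polynomial.eval₂_C] at h2
    obtain ⟨a, _, ha⟩ := h2
    exact ⟨a, (sub_eq_zero.1 ha).symm⟩

end ZD85
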