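import Pool.Agent.H85.ZD.Defs

/-!
# ZD Semi : a semi-invariant through `P` (row `Semi`)

`I` = the ideal of all polynomials vanishing on the forward orbit of `P`; it is `≠ ⊥` and all its elements
have a common prime divisor.

Proof of `semi_inv`.  `R = MvPolynomial (Fin n) K` is a UFD and Noetherian.
(1) Let `F` be a greatest common divisor of `I`: for instance take a finite generating set `s` of `I` and
`F = s.gcd id` (with `letI := UniqueFactorizationMonoid.toGCDMonoid R` or the normalised version), or choose a
common divisor with the maximal number of prime factors (bounded by the number of prime factors of a fixed non-zero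
element of `I`).  Properties: (a) `F ∣ H` for all `H ∈ I`; (b) every common divisor of `I` divides `F`; so `F ≠ 0`
(as `I ≠ ⊥`) and `F` is not a unit (as `π ∣ F`).
(2) `σ H ∈ I` for `H ∈ I` (`eval_orb_succ`: the value of `σ H` at the `m`-th point is the value of `H` at the
`(m+1)`-st).  Hence `F ∣ σ H` for `H ∈ I`, so `σ.symm F ∣ H` for all `H ∈ I`, so `σ.symm F ∣ F` by (b), i.e.
`F ∣ σ F`.
(3) `σ` is a ring automorphism, so `F` and `σ F` have the same number of prime factors; together with `F ∣ σ F`
they are associated, `σ F = u * F` with a unit `u`, and units of `MvPolynomial (Fin n) K` are constants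
(`MvPolynomial.isUnit_iff_eq_C_of_isReduced` or similar), `u = C c`.
   Alternative for (3): write `σ F = F * G`; iterate: `σ^m F = F * G * σ G * ... `; total degrees are not enough, so
   use the number of prime factors (`UniqueFactorizationMonoid.factors` / `normalizedFactors`, `Multiset.card`), or
   the well-founded divisibility: `σ.symm F ∣ F` gives the chain `... ∣ σ^{-2} F ∣ σ^{-1} F ∣ F`; by
   `WfDvdMonoid` some `σ^{-k} F` and `σ^{-k-1} F` are associated, then apply `σ^{k+1}`.
(4) `eval P F = 0`: otherwise the value of `F` at the `m`-th point is `c^m * eval P F ≠ 0` (if `c = 0` then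
`σ F = 0`, impossible), so for `H = F * H' ∈ I` also `H' ∈ I`; hence `F ^ k ∣ H` for all `k` and all `H ∈ I`,
impossible for `H ≠ 0` as `F` is not a unit (`WfDvdMonoid`, `FiniteMultiplicity`).
-/

set_option autoImplicit false

namespace ZD85

open MvPolynomial

theorem semi_inv {K : Type*} [Field K] {n : ℕ} (σ : PAut K n) (P : Fin n → K)
    (I : Ideal (MvPolynomial (Fin n) K)) (hI : I ≠ ⊥)
    (hIP : ∀ F : MvPolynomial (Fin n) K, F ∈ I ↔ ∀ m : ℕ, eval (orb σ P m) F = 0)
    (hπ : ∃ π : MvPolynomial (Fin n) K, Prime π ∧ ∀ H ∈ I, π ∣ H) :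
    ∃ (F : MvPolynomial (Fin n) K) (c : K), F ≠ 0 ∧ σ F = C c * F ∧ eval P F = 0 := by
  classical
  obtain ⟨π, hπp, hπd⟩ := hπ
  obtain ⟨H0, hH0I, hH0⟩ : ∃ H0 ∈ I, H0 ≠ 0 := by
    by_contra hcon
    push Not at hcon
    exact hI (by rw [eq_bot_iff]; intro x hx; simpa using hcon x hx)
  -- a greatest common divisor
  obtain ⟨F, hFa, hFb⟩ : ∃ F : MvPolynomial (Fin n) K, (∀ H ∈ I, F ∣ H) ∧
      ∀ d : MvPolynomial (Fin n) K, (∀ H ∈ I, d ∣ H) → d ∣ F := by
    obtain ⟨s, hs⟩ := (inferInstance : IsNoetherianRing (MvPolynomial (Fin n) K)).noetherian I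
    let _i1 : StrongNormalizationMonoid (MvPolynomial (Fin n) K) :=
      UniqueFactorizationMonoid.strongNormalizationMonoid
    let _i2 : NormalizedGCDMonoid (MvPolynomial (Fin n) K) :=
      UniqueFactorizationMonoid.toNormalizedGCDMonoid _
    refine ⟨s.gcd id, ?_, ?_⟩
    · intro H hH
      have hle : I ≤ Ideal.span {s.gcd id} := by
        rw [← hs]
        refine Submodule.span_le.mpr ?_
        intro x hx
        exact Ideal.mem_span_singleton.mpr (Finset.gcd_dvd hx)
      exact Ideal.mem_span_singleton.mp (hle hH)
    · intro d hd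
      refine Finset.dvd_gcd ?_
      intro x hx
      apply hd
      rw [← hs]
      exact Submodule.subset_span hx
  have hF0 : F ≠ 0 := by
    rintro rfl
    exact hH0 (zero_dvd_iff.mp (hFa H0 hH0I))
  have hFu : ¬ IsUnit F := by
    intro hu
    exact hπp.not_isUnit (isUnit_of_dvd_unit (hFb π hπd) hu)
  have hσI : ∀ H ∈ I, σ H ∈ I := by
    intro H hH
    rw [hIP]
    intro m
    rw [← eval_orb_succ]
    exact (hIP H).mp hH (m + 1)
  have hsymm : σ.symm F ∣ F := by
    apply hFb
    intro H hH
    obtain ⟨q, hq⟩ := hFa _ (hσI H hH)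
    refine ⟨σ.symm q, ?_⟩
    rw [← map_mul, ← hq, AlgEquiv.symm_apply_apply]
  obtain ⟨x, hx⟩ := hsymm
  have hxu : IsUnit x := by
    by_contra hxn
    have key : ∀ k : ℕ, DvdNotUnit ((fun G => σ.symm G)^[k + 1] F) ((fun G => σ.symm G)^[k] F) := by
      intro k
      have h1 : ∀ (k : ℕ) (a b : MvPolynomial (Fin n) K),
          (fun G => σ.symm G)^[k] (a * b) = (fun G => σ.symm G)^[k] a * (fun G => σ.symm G)^[k] b := by
        intro k
        induction k with
        | zero => intro a b; rfl
        | succ k ih =>
          intro a b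
          rw [Function.iterate_succ_apply, Function.iterate_succ_apply, Function.iterate_succ_apply,
            map_mul, ih]
      have h2 : ∀ (k : ℕ) (a : MvPolynomial (Fin n) K), a ≠ 0 → (fun G => σ.symm G)^[k] a ≠ 0 := by
        intro k
        induction k with
        | zero => intro a ha; exact ha
        | succ k ih =>
          intro a ha
          rw [Function.iterate_succ_apply]
          apply ih
          simpa using ha
      have h3 : ∀ (k : ℕ) (a : MvPolynomial (Fin n) K), ¬ IsUnit a →
          ¬ IsUnit ((fun G => σ.symm G)^[k] a) := by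
        intro k
        induction k with
        | zero => intro a ha; exact ha
        | succ k ih =>
          intro a ha
          rw [Function.iterate_succ_apply]
          apply ih
          intro hu
          apply ha
          have := hu.map σ
          simpa using this
      refine ⟨h2 _ _ hF0, (fun G => σ.symm G)^[k] x, h3 _ _ hxn, ?_⟩
      rw [Function.iterate_succ_apply, ← h1]
      exact congrArg _ hx
    have _i3 : IsWellFounded (MvPolynomial (Fin n) K) DvdNotUnit := ⟨wellFounded_dvdNotUnit⟩
    obtain ⟨k, hk⟩ := WellFounded.not_rel_apply_succ (r := DvdNotUnit)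
      (fun k : ℕ => (fun G => σ.symm G)^[k] F)
    exact hk (key k)
  have hσx : IsUnit (σ x) := hxu.map σ
  obtain ⟨c, -, hc⟩ := MvPolynomial.isUnit_iff_eq_C_of_isReduced.mp hσx
  have hσF : σ F = C c * F := by
    have h := congrArg σ hx
    rw [map_mul, AlgEquiv.apply_symm_apply] at h
    rw [h, hc, mul_comm]
  refine ⟨F, c, hF0, hσF, ?_⟩
  by_contra hP
  have hc0 : c ≠ 0 := by
    rintro rfl
    apply hF0
    have : σ F = 0 := by rw [hσF]; simp
    simpa using this
  have hpow : ∀ m : ℕ, eval (orb σ P m) F = c ^ m * eval P F := by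
    intro m
    induction m with
    | zero => simp [orb_zero]
    | succ m ih => rw [eval_orb_succ, hσF, map_mul, eval_C, ih, pow_succ]; ring
  have hdiv : ∀ k : ℕ, ∀ H ∈ I, F ^ k ∣ H := by
    intro k
    induction k with
    | zero => intro H _; simp
    | succ k ih =>
      intro H hH
      obtain ⟨H', hH'⟩ := hFa H hH
      have hH'I : H' ∈ I := by
        rw [hIP]
        intro m
        have h := (hIP H).mp hH m
        rw [hH', map_mul, hpow] at h
        rcases mul_eq_zero.mp h with h | h
        · exact absurd h (mul_ne_zero (pow_ne_zero _ hc0) hP)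
        · exact h
      rw [hH', pow_succ']
      exact mul_dvd_mul_left F (ih H' hH'I)
  have hfin : FiniteMultiplicity F H0 := FiniteMultiplicity.of_not_isUnit hFu hH0
  obtain ⟨k, hk⟩ := hfin
  exact hk (hdiv (k + 1) H0 hH0I)

end ZD85
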