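import Pool.Agent.H85.ZD.Lead
import Pool.Agent.H85.ZD.Resid
import Pool.Agent.H85.ZD.Val
import Pool.Agent.H85.ZD.Avoid
import Pool.Agent.H85.ZD.Lift

/-!
# ZD Stab : weighted stable automorphisms (row `Stab`)

`pairInd_of_pow`: `PairInd (σ ^ k) P → PairInd σ P` (the orbit of `σ^k` is part of the orbit of `σ`:
`orb (σ ^ k) P m = orb σ P (k * m)`).

Proof of `zdo_weighted`.  `g = lead μ θ σ`, `τ = σ ^ 3`, `Θ = θ ^ 3`.  By `lead_iter` all monomials of `τ (X i)` have
weight `≤ Θ μ_i` and the part of weight `Θ μ_i` is `G_i := g^[3] (X i)`.  By `lead_not_inj` there is `Ψ ≠ 0` with `g Ψ = 0`.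
(`∑ α_j μ_j = Finsupp.weight μ α`; `0 < μ i` for some `i` by `h3`.)
(1) Let `E ⊂ K^*` = all non-zero coefficients of the `σ (X i)`, the `τ (X i)` and of `Ψ`.  `p, v` from `exists_val`.
`O, red` from `exists_resid` (`v p < 1`); `F = AlgebraicClosure (ZMod p)`.  All elements of `E` are in `O` (they are
torsion modulo `{v < 1}`) and are mapped to non-zero elements of `F` (`v e = 1`).
(2) Let `g_O i`, `Ψ_O`, `G_O i` be the polynomials over `O` with image `g (X i)`, `Ψ`, `G_i` in `K[x]`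
(`MvPolynomial.map O.subtype`, injective), `g_F`, `Ψ_F`, `G_F` their images over `F` under `red`.  The endomorphism
`γ = aeval g_F` of `F[x]` satisfies `γ Ψ_F = 0` (`aeval g_O Ψ_O = 0` over `O` by injectivity), `Ψ_F ≠ 0`,
`γ^[3] (X i) = G_F i` (same reason), `γ (X i)` is homogeneous of weight `θ μ_i`.
Let `G = γ^3` (as an algebra homomorphism, e.g. `(γ.comp γ).comp γ`), so `G (X i) = G_F i`, homogeneous of weight `Θ μ_i`.
(K1): `chain3`.  (K2): `G Ψ_F = 0`.  (K3): by `h3` some `G_i ≠ 0` with `μ_i > 0`, its coefficients are units (coefficients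
of `τ (X i)`), so `G_F i ≠ 0`.
(3) `avoid` (the elements of `F` are roots of unity: algebraic over `ZMod p`) gives `χ`.  Put
`eF m i = χ (G^[m+1] (X i))`, and choose `e m i ∈ O` with `red (e m i) = eF m i`, `e m i = 0` if `eF m i = 0`.
Let `J = {i | G_F i ≠ 0} = {i | G_i ≠ 0}`.  For `i ∉ J`: `G^[m+1] (X i) = G^[m] (G (X i)) = 0`, so `e m i = 0`.
`eF (m+1) j = χ (G^[m+1] (G (X j))) = eval (eF m) (G_F j)` (an algebra homomorphism applied to a polynomial in the `X i`),
so `v (e (m+1) j - eval (e m) G_j) < 1`.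
`eF m i ≠ 0` for some `i` with `μ_i > 0`, then `i ∈ J`, `v (e m i) = 1`.
(4) Hypotheses of `lift_fast`: `hJ0`: if `μ_i = 0` then all monomials of `τ (X i)` have weight `≤ 0`, so `= 0 = Θ μ_i`,
`G_i = τ (X i) ≠ 0`, `i ∈ J`.  `hJ`: `i ∉ J` means that `τ (X i)` has no monomial of weight `Θ μ_i`.  `hJ1`: `j ∈ J`:
`G (G_F j) ≠ 0` by (K1), `G_F j = ∑ c_α x^α`, `G (x^α) = ∏ (G_F i)^{α_i}` is `≠ 0` for some `α ∈ supp G_F j`, so `α` is
supported in `J`; `α ∈ supp G_j ⊆ supp τ(X j)`, of weight `Θ μ_j`.  `ϖ = (p : K)⁻¹`.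
(5) `lift_fast`, `pairInd_of_fast` for `τ`, `pairInd_of_pow`, `thmA3`.
-/

set_option autoImplicit false

namespace ZD85

open MvPolynomial

theorem pairInd_of_pow {K : Type*} [Field K] {n : ℕ} (σ : PAut K n) (k : ℕ) (P : Fin n → K)
    (h : PairInd (σ ^ k) P) : PairInd σ P := by
  have key : ∀ m : ℕ, ∀ i, orb (σ ^ k) P m i = orb σ P (k * m) i := by
    intro m i
    have e1 : orb (σ ^ k) P m i = eval (orb (σ ^ k) P m) (X i) := (eval_X i).symm
    have e2 : orb σ P (k * m) i = eval (orb σ P (k * m)) (X i) := (eval_X i).symm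
    rw [e1, e2, eval_orb, eval_orb, pow_mul]
  obtain ⟨i, l, hil, hG⟩ := h
  refine ⟨i, l, hil, fun G hG0 => ?_⟩
  obtain ⟨m, hm⟩ := hG G hG0
  exact ⟨k * m, by rwa [← key, ← key]⟩

section red
variable {K : Type*} [Field K] {v : Valuation K NNReal} {O : Subring K} {F : Type*} [Field F]
  {red : O →+* F}

/-- a polynomial over `K` all of whose coefficients are in `O` lifts. -/
theorem Stab_lift (f : MvPolynomial (Fin 3) K) (h : ∀ α, f.coeff α ≠ 0 → f.coeff α ∈ O) :
    ∃ f' : MvPolynomial (Fin 3) O, MvPolynomial.map O.subtype f' = f := by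
  have := (mem_range_map_iff_coeffs_subset (f := O.subtype) (x := f)).2 (by
    intro c hc
    obtain ⟨α, hα, rfl⟩ := mem_coeffs_iff.1 hc
    exact ⟨⟨_, h α (mem_support_iff.1 hα)⟩, rfl⟩)
  exact this

/-- units stay non-zero. -/
theorem Stab_red_ne (hred : ∀ x : O, red x = 0 ↔ v (x : K) < 1) (f : MvPolynomial (Fin 3) O)
    (α : Fin 3 →₀ ℕ) (h : v ((MvPolynomial.map O.subtype f).coeff α) = 1) :
    (MvPolynomial.map red f).coeff α ≠ 0 := by
  rw [coeff_map] at h ⊢
  intro h0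
  rw [hred] at h0
  exact absurd h (ne_of_lt h0)

theorem Stab_red_ne' (f : MvPolynomial (Fin 3) O)
    (α : Fin 3 →₀ ℕ) (h : (MvPolynomial.map red f).coeff α ≠ 0) :
    (MvPolynomial.map O.subtype f).coeff α ≠ 0 := by
  rw [coeff_map] at h ⊢
  intro h0
  have : f.coeff α = 0 := Subtype.ext h0
  rw [this, map_zero] at h
  exact h rfl

end red

/-- iterates of `bind₁` commute with base change. -/
theorem Stab_map_iter {R S : Type*} [CommSemiring R] [CommSemiring S] (φ : R →+* S)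
    (g : Fin 3 → MvPolynomial (Fin 3) R) (m : ℕ) (f : MvPolynomial (Fin 3) R) :
    MvPolynomial.map φ ((bind₁ g)^[m] f) =
      (bind₁ (fun i => MvPolynomial.map φ (g i)))^[m] (MvPolynomial.map φ f) := by
  induction m generalizing f with
  | zero => rfl
  | succ m ih =>
    rw [Function.iterate_succ_apply, Function.iterate_succ_apply, ih, map_bind₁]

theorem Stab_eval_map {R S : Type*} [CommRing R] [CommRing S] (φ : R →+* S)
    (x : Fin 3 → R) (f : MvPolynomial (Fin 3) R) :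
    eval (fun i => φ (x i)) (MvPolynomial.map φ f) = φ (eval x f) := by
  induction f using MvPolynomial.induction_on with
  | C a => simp
  | add f g hf hg => simp only [map_add, hf, hg]
  | mul_X f i hf => simp only [map_mul, map_X, eval_X, hf]

/-- non-zero elements of the algebraic closure of `F_p` are roots of unity. -/
theorem Stab_root (p : ℕ) [Fact p.Prime] (u : AlgebraicClosure (ZMod p)) (hu : u ≠ 0) :
    ∃ N : ℕ, 1 ≤ N ∧ u ^ N = 1 := by
  let E := IntermediateField.adjoin (ZMod p) {u}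
  have hint : IsIntegral (ZMod p) u := Algebra.IsIntegral.isIntegral u
  have : FiniteDimensional (ZMod p) E := IntermediateField.adjoin.finiteDimensional hint
  have : Finite E := Module.finite_of_finite (ZMod p)
  let w : E := ⟨u, IntermediateField.mem_adjoin_simple_self (ZMod p) u⟩
  have hw : w ≠ 0 := fun h => hu (congrArg Subtype.val h)
  have hfin : IsOfFinOrder (Units.mk0 w hw) := isOfFinOrder_of_finite _
  obtain ⟨N, hN, hN1⟩ := isOfFinOrder_iff_pow_eq_one.1 hfin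
  refine ⟨N, hN, ?_⟩
  have h1 : w ^ N = 1 := by
    have := congrArg Units.val hN1
    simpa using this
  have := congrArg Subtype.val h1
  simpa [w] using this

/-- the purely algebraic part over `F`: a product argument. -/
theorem Stab_supp {F : Type*} [Field F] (G : MvPolynomial (Fin 3) F →ₐ[F] MvPolynomial (Fin 3) F)
    (f : MvPolynomial (Fin 3) F) (h : G f ≠ 0) :
    ∃ α ∈ f.support, ∀ i, G (X i) = 0 → α i = 0 := by
  by_contra hcon
  push Not at hcon
  apply h
  rw [f.as_sum, map_sum]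
  refine Finset.sum_eq_zero fun α hα => ?_
  obtain ⟨i, hi, hi2⟩ := hcon α hα
  rw [monomial_eq, map_mul]
  have : G (α.prod fun n e => X n ^ e) = 0 := by
    rw [Finsupp.prod, map_prod]
    refine Finset.prod_eq_zero (Finsupp.mem_support_iff.2 hi2) ?_
    rw [map_pow, hi, zero_pow hi2]
  rw [this, mul_zero]

theorem Stab_alg {F : Type*} [Field F] (G : MvPolynomial (Fin 3) F →ₐ[F] MvPolynomial (Fin 3) F)
    (χ : MvPolynomial (Fin 3) F →ₐ[F] F) (m : ℕ) (f : MvPolynomial (Fin 3) F) :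
    eval (fun i => χ (G^[m] (X i))) f = χ (G^[m] f) := by
  have h : (aeval (fun i => χ (G^[m] (X i))) : MvPolynomial (Fin 3) F →ₐ[F] F) = χ.comp (G ^ m) := by
    apply MvPolynomial.algHom_ext
    intro i
    simp
  have := congrArg (fun g : MvPolynomial (Fin 3) F →ₐ[F] F => g f) h
  simpa [aeval_eq_eval] using this

theorem zdo_weighted {K : Type*} [Field K] [CharZero K] [IsAlgClosed K] (σ : PAut K 3)
    (μ : Fin 3 → ℝ) (hμ : ∀ i, 0 ≤ μ i) (θ : ℝ) (hθ : 1 < θ)
    (h1 : ∀ i, ∀ α ∈ (σ (X i)).support, ∑ j, (α j : ℝ) * μ j ≤ θ * μ i)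
    (h3 : ∃ i, 0 < μ i ∧ ∃ α ∈ ((σ ^ 3) (X i)).support, ∑ j, (α j : ℝ) * μ j = θ ^ 3 * μ i) :
    Zdo σ := by
  classical
  have hwt : ∀ α : Fin 3 →₀ ℕ, ∑ j, (α j : ℝ) * μ j = Finsupp.weight μ α := by
    intro α
    rw [Finsupp.weight_eq_sum]
    simp [nsmul_eq_mul]
  simp only [hwt] at h1 h3
  have hdeg : DegLe μ θ σ := h1
  have hθ0 : 0 < θ := by linarith
  set Θ : ℝ := θ ^ 3 with hΘd
  have hΘ : 1 < Θ := one_lt_pow₀ hθ (by norm_num)
  have hτ := lead_iter μ θ hθ0 σ hdeg 3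
  set τ : PAut K 3 := σ ^ 3 with hτd
  obtain ⟨i0, hi0, α0, hα0, hα0w⟩ := h3
  obtain ⟨Ψ, hΨ, hgΨ⟩ := lead_not_inj μ hμ ⟨i0, hi0⟩ θ hθ σ hdeg
  -- the units
  let E : Finset K := (Finset.univ.biUnion fun i => (σ (X i)).coeffs) ∪
    (Finset.univ.biUnion fun i => (τ (X i)).coeffs) ∪ Ψ.coeffs
  have hE0 : (0 : K) ∉ E := by
    simp only [E, Finset.mem_union, Finset.mem_biUnion, not_or, not_exists, not_and]
    exact ⟨⟨fun i _ => zero_notMem_coeffs _, fun i _ => zero_notMem_coeffs _⟩, zero_notMem_coeffs _⟩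
  obtain ⟨p, v, hp, hvp, hE1, hE2⟩ := exists_val E hE0
  have : Fact p.Prime := ⟨hp⟩
  obtain ⟨O, red, hsurj, hred, hOle, hOlt, hOtor⟩ := exists_resid p v hvp
  have hEO : ∀ e ∈ E, e ∈ O := fun e he => hOtor e (hE2 e he)
  have hEσ : ∀ i α, (σ (X i)).coeff α ≠ 0 → (σ (X i)).coeff α ∈ E := fun i α h => by
    simp only [E, Finset.mem_union, Finset.mem_biUnion]
    exact Or.inl (Or.inl ⟨i, Finset.mem_univ _, coeff_mem_coeffs α h⟩)
  have hEτ : ∀ i α, (τ (X i)).coeff α ≠ 0 → (τ (X i)).coeff α ∈ E := fun i α h => by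
    simp only [E, Finset.mem_union, Finset.mem_biUnion]
    exact Or.inl (Or.inr ⟨i, Finset.mem_univ _, coeff_mem_coeffs α h⟩)
  have hEΨ : ∀ α, Ψ.coeff α ≠ 0 → Ψ.coeff α ∈ E := fun α h => by
    simp only [E, Finset.mem_union, Finset.mem_biUnion]
    exact Or.inr (coeff_mem_coeffs α h)
  -- lifts
  have hgO : ∀ i, ∃ f' : MvPolynomial (Fin 3) O,
      MvPolynomial.map O.subtype f' = weightedHomogeneousComponent μ (θ * μ i) (σ (X i)) := by
    intro i
    refine Stab_lift _ fun α hα => ?_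
    rw [coeff_weightedHomogeneousComponent] at hα ⊢
    split_ifs at hα ⊢ with hw
    · exact hEO _ (hEσ i α hα)
    · exact absurd rfl hα
  choose gO hgO using hgO
  obtain ⟨ΨO, hΨO⟩ := Stab_lift (O := O) Ψ fun α hα => hEO _ (hEΨ α hα)
  have hinj : Function.Injective (MvPolynomial.map (σ := Fin 3) O.subtype) :=
    MvPolynomial.map_injective _ Subtype.val_injective
  have hlead : lead μ θ σ = bind₁ (fun i => MvPolynomial.map O.subtype (gO i)) := by
    unfold lead bind₁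
    congr 1
    funext i
    exact (hgO i).symm
  let γ : MvPolynomial (Fin 3) (AlgebraicClosure (ZMod p)) →ₐ[AlgebraicClosure (ZMod p)]
      MvPolynomial (Fin 3) (AlgebraicClosure (ZMod p)) := bind₁ (fun i => MvPolynomial.map red (gO i))
  have hγΨ : γ (MvPolynomial.map red ΨO) = 0 := by
    have e0 : bind₁ gO ΨO = 0 := by
      apply hinj
      rw [map_bind₁, ← hlead, hΨO, hgΨ, map_zero]
    have := congrArg (MvPolynomial.map red) e0
    rw [map_bind₁, map_zero] at this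
    exact this
  have hΨF : MvPolynomial.map red ΨO ≠ 0 := by
    obtain ⟨α, hα⟩ := ne_zero_iff.1 hΨ
    rw [ne_zero_iff]
    refine ⟨α, Stab_red_ne hred ΨO α ?_⟩
    rw [hΨO]
    exact hE1 _ (hEΨ α hα)
  -- the cube
  let GO : Fin 3 → MvPolynomial (Fin 3) O := fun i => (bind₁ gO)^[3] (X i)
  have hGO : ∀ i, MvPolynomial.map O.subtype (GO i) =
      weightedHomogeneousComponent μ (Θ * μ i) (τ (X i)) := by
    intro i
    rw [(hτ i).2, hlead]
    simp only [GO]
    rw [Stab_map_iter, map_X]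
  let G : MvPolynomial (Fin 3) (AlgebraicClosure (ZMod p)) →ₐ[AlgebraicClosure (ZMod p)]
      MvPolynomial (Fin 3) (AlgebraicClosure (ZMod p)) := γ ^ 3
  have hGit : ∀ f, G f = γ^[3] f := fun f => by simp only [G, AlgHom.coe_pow]
  have hGX : ∀ i, G (X i) = MvPolynomial.map red (GO i) := by
    intro i
    rw [hGit]
    simp only [GO]
    rw [Stab_map_iter, map_X]
  -- coefficients
  have hcf : ∀ i α, (G (X i)).coeff α ≠ 0 ↔ (τ (X i)).coeff α ≠ 0 ∧ Finsupp.weight μ α = Θ * μ i := by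
    intro i α
    constructor
    · intro h
      rw [hGX] at h
      have h2 := Stab_red_ne' (GO i) α h
      rw [hGO, coeff_weightedHomogeneousComponent] at h2
      split_ifs at h2 with hw
      · exact ⟨h2, hw⟩
      · exact absurd rfl h2
    · rintro ⟨h, hw⟩
      rw [hGX]
      refine Stab_red_ne hred (GO i) α ?_
      rw [hGO, coeff_weightedHomogeneousComponent, if_pos hw]
      exact hE1 _ (hEτ i α h)
  have hG : ∀ i, (G (X i)).IsWeightedHomogeneous μ (Θ * μ i) := fun i α hα => ((hcf i α).1 hα).2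
  have K1 : ∀ f, G (G f) = 0 → G f = 0 := by
    intro f hf
    rw [hGit] at hf ⊢
    refine chain3 γ f ?_
    rw [show (6 : ℕ) = 3 + 3 from rfl, Function.iterate_add_apply, ← hGit f]
    exact hf
  have K2 : ∃ Ψ' : MvPolynomial (Fin 3) (AlgebraicClosure (ZMod p)), Ψ' ≠ 0 ∧ G Ψ' = 0 := by
    refine ⟨_, hΨF, ?_⟩
    rw [hGit]
    show γ (γ (γ _)) = 0
    rw [hγΨ, map_zero, map_zero]
  have K3 : ∃ i, 0 < μ i ∧ G (X i) ≠ 0 := by
    refine ⟨i0, hi0, ?_⟩
    rw [ne_zero_iff]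
    exact ⟨α0, (hcf i0 α0).2 ⟨mem_support_iff.1 hα0, hα0w⟩⟩
  obtain ⟨χ, hχ⟩ := avoid p (Stab_root p) G μ hμ Θ hΘ hG K1 K2 K3
  -- the lifted orbit
  have hlift : ∀ (m : ℕ) (i : Fin 3), ∃ x : O, red x = χ (G^[m + 1] (X i)) ∧
      (χ (G^[m + 1] (X i)) = 0 → x = 0) := by
    intro m i
    by_cases h0 : χ (G^[m + 1] (X i)) = 0
    · exact ⟨0, by rw [map_zero, h0], fun _ => rfl⟩
    · obtain ⟨x, hx⟩ := hsurj (χ (G^[m + 1] (X i)))
      exact ⟨x, hx, fun h => absurd h h0⟩
  choose e he1 he2 using hlift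
  let J : Finset (Fin 3) := Finset.univ.filter (fun i => G (X i) ≠ 0)
  have hJmem : ∀ i, i ∈ J ↔ G (X i) ≠ 0 := fun i => by simp [J]
  have hJnot : ∀ i, i ∉ J ↔ G (X i) = 0 := fun i => by simp [J]
  have hGzero : ∀ i, i ∉ J → ∀ m, G^[m + 1] (X i) = 0 := by
    intro i hi m
    rw [Function.iterate_succ_apply, (hJnot i).1 hi, ← AlgHom.coe_pow, map_zero]
  have hdegτ : ∀ i, ∀ α ∈ (τ (X i)).support, Finsupp.weight μ α ≤ Θ * μ i := fun i => (hτ i).1
  have hJ' : ∀ i ∉ J, ∀ α ∈ (τ (X i)).support, Finsupp.weight μ α < Θ * μ i := by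
    intro i hi α hα
    refine lt_of_le_of_ne (hdegτ i α hα) fun heq => ?_
    have := (hcf i α).2 ⟨mem_support_iff.1 hα, heq⟩
    rw [(hJnot i).1 hi, coeff_zero] at this
    exact this rfl
  have hJ0 : ∀ i ∉ J, 0 < μ i := by
    intro i hi
    rcases (hμ i).lt_or_eq with h | h
    · exact h
    exfalso
    have hne : τ (X i) ≠ 0 := by
      rw [Ne, map_eq_zero_iff _ τ.injective]
      exact X_ne_zero i
    obtain ⟨α, hα⟩ := ne_zero_iff.1 hne
    have h2 := hJ' i hi α (mem_support_iff.2 hα)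
    rw [← h, mul_zero] at h2
    have h4 : 0 ≤ Finsupp.weight μ α := by
      rw [← hwt]
      exact Finset.sum_nonneg fun j _ => mul_nonneg (Nat.cast_nonneg _) (hμ j)
    linarith
  have hJ1 : ∀ j ∈ J, ∃ α ∈ (τ (X j)).support, (∀ i ∉ J, α i = 0) ∧
      Finsupp.weight μ α = Θ * μ j := by
    intro j hj
    have hGG : G (G (X j)) ≠ 0 := fun h => ((hJmem j).1 hj) (K1 _ h)
    obtain ⟨α, hα, hα2⟩ := Stab_supp G _ hGG
    obtain ⟨h5, h6⟩ := (hcf j α).1 (mem_support_iff.1 hα)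
    exact ⟨α, mem_support_iff.2 h5, fun i hi => hα2 i ((hJnot i).1 hi), h6⟩
  have hpK : (p : K) ≠ 0 := Nat.cast_ne_zero.2 hp.ne_zero
  have hϖ : 1 < v ((p : K)⁻¹) := by
    rw [map_inv₀]
    have h7 : 0 < v (p : K) := by
      rw [pos_iff_ne_zero, Ne, map_eq_zero]
      exact hpK
    exact (one_lt_inv₀ h7).2 hvp
  have hunit : ∀ i, ∀ α ∈ (τ (X i)).support, v ((τ (X i)).coeff α) = 1 := fun i α hα =>
    hE1 _ (hEτ i α (mem_support_iff.1 hα))
  have hestep : ∀ m, ∀ j ∈ J, v (((e (m + 1) j : O) : K) -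
      eval (fun i => ((e m i : O) : K)) (weightedHomogeneousComponent μ (Θ * μ j) (τ (X j)))) < 1 := by
    intro m j _
    have h8 : eval (fun i => ((e m i : O) : K)) (weightedHomogeneousComponent μ (Θ * μ j) (τ (X j))) =
        ((eval (e m) (GO j) : O) : K) := by
      rw [← hGO]
      exact Stab_eval_map O.subtype (e m) (GO j)
    rw [h8]
    have h12 : ((e (m + 1) j : O) : K) - ((eval (e m) (GO j) : O) : K) =
        ((e (m + 1) j - eval (e m) (GO j) : O) : K) := rfl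
    rw [h12, ← hred, map_sub, sub_eq_zero, he1]
    have h9 : red (eval (e m) (GO j)) = eval (fun i => red (e m i)) (MvPolynomial.map red (GO j)) :=
      (Stab_eval_map red (e m) (GO j)).symm
    rw [h9, ← hGX]
    have h10 : (fun i => red (e m i)) = fun i => χ (G^[m + 1] (X i)) := funext fun i => he1 m i
    rw [h10, Stab_alg, ← Function.iterate_succ_apply]
  refine thmA3 σ fun H hH => ?_
  obtain ⟨P, hP, hf⟩ := lift_fast τ μ hμ Θ hΘ hdegτ J hJ0 hJ' hJ1 v ((p : K)⁻¹) hϖ hunit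
    (fun m i => ((e m i : O) : K)) (fun m i => hOle _ (e m i).2)
    (fun m i hi => by
      show ((e m i : O) : K) = 0
      rw [he2 m i (by rw [hGzero i hi m, map_zero])]
      rfl)
    hestep
    (fun m => by
      obtain ⟨i, hi1, hi2⟩ := hχ m
      refine ⟨i, ?_, hi1, ?_⟩
      · by_contra hi
        rw [hGzero i hi m, map_zero] at hi2
        exact hi2 rfl
      · have h11 : ¬ v ((e m i : O) : K) < 1 := by
          rw [← hred, he1]
          exact hi2
        exact le_antisymm (hOle _ (e m i).2) (not_lt.1 h11))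
    H hH
  exact ⟨P, hP, pairInd_of_pow σ 3 P (pairInd_of_fast τ P hf)⟩

end ZD85
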