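import Pool.Agent.H85.ZD.Lead
import Pool.Agent.H85.ZD.Resid
import Pool.Agent.H85.ZD.Val
import Pool.Agent.H85.ZD.Frob
import Pool.Agent.H85.ZD.LiftN
import Pool.Agent.H85.ZD.GrC

/-!
# ZD StabN : weighted stable automorphisms of affine n-space (row `StabN`; compare `Stab.lean`)

`exists_sized_points`.  `g = lead μ θ σ`, `τ = σ ^ n`, `Θ = θ ^ n`.  By `lead_iter` all monomials of `τ (X i)` have
weight `≤ Θ μ_i` and the part of weight `Θ μ_i` is `G_i := g^[n] (X i)`; `J = {i | G_i ≠ 0}`.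
(`∑ α_j μ_j = Finsupp.weight μ α`.)
(1) Let `E ⊂ K^*` = all non-zero coefficients of the `σ (X i)` and the `τ (X i)`.  `p, v` from `exists_val`,
`O, red` from `exists_resid`; `F = AlgebraicClosure (ZMod p)`.  All elements of `E` are in `O` and are mapped to non-zero
elements of `F`.
(2) Let `g_O i` be the polynomial over `O` with image `g (X i)` in `K[x]` (`MvPolynomial.map O.subtype`, injective) and `g_F i` its
image over `F` under `red`, `γ = aeval g_F`.  For each `m` the polynomial `g^[m] (X i)` comes from `(aeval g_O)^[m] (X i)` over `O`,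
which maps to `γ^[m] (X i)`.  `G_i ≠ 0` iff `γ^[n] (X i) ≠ 0` (the coefficients of `G_i` are coefficients of `τ (X i)`).
(3) `frob_point` gives `c`.  Put `eF m i = eval c (γ^[n * m] (X i))`: zero for `i ∉ J`, non-zero for `j ∈ J`.  With
`Γ = γ^[n]`: `eF (m+1) j = eval c (γ^[n m] (γ^[n] (X j))) = eval (eF m) (γ^[n] (X j))`.  Choose `e m i ∈ O` with
`red (e m i) = eF m i`, `e m i = 0` for `i ∉ J`.  So `v (e m j) = 1` for `j ∈ J` and `v (e (m+1) j - eval (e m) G_j) < 1`.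
(4) Hypotheses of `lift_sizes`: `hJ0`: if `μ_i = 0` then all monomials of `τ (X i)` have weight `0 = Θ μ_i`,
`G_i = τ (X i) ≠ 0`.  `hJ`: clear.  `hJ1`: `j ∈ J`: `eval (eF 0) (γ^[n] (X j)) = eF 1 j ≠ 0`, so some monomial `α` of
`γ^[n] (X j)` has `∏ (eF 0 i)^{α_i} ≠ 0`, so it is supported in `J`; it is a monomial of `G_j`.  `ϖ = (p : K)⁻¹`.

`zdo_stable_growth`.  By `h3` some `j₀ ∈ J` has `μ_{j₀} > 0`.  With `g = v ϖ > 1`:
`v(x_m j₀) = g^{L(Θ^m μ_{j₀})} ≥ exp(c Θ^m)`, `c = T μ_{j₀} log g / 2`, and `v(x_m i) ≤ exp(C Θ^m)`, `C = 2 T (max μ) log g`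
(`x_m = orb τ P m`).  `codim_of_growth` for `τ`, `Θ`, `η^n`, `D₀`: `(τ⁻¹)^j = (σ⁻¹)^(n j)`, and
`(η^n)^(n-3) = (η^(n-3))^n < θ^n`.  The orbit of `τ = σ^n` is part of the orbit of `σ` (`orb (σ^n) P m = orb σ P (n m)`, by
`eval_orb`), so the hypothesis of `thmA_union` holds.
-/

set_option autoImplicit false

namespace ZD85

open MvPolynomial

theorem StabN_orb {K : Type*} [Field K] {n : ℕ} (σ : PAut K n) (k : ℕ) (P : Fin n → K) (m : ℕ) :
    orb (σ ^ k) P m = orb σ P (k * m) := by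
  funext i
  have e1 : orb (σ ^ k) P m i = eval (orb (σ ^ k) P m) (X i) := (eval_X i).symm
  have e2 : orb σ P (k * m) i = eval (orb σ P (k * m)) (X i) := (eval_X i).symm
  rw [e1, e2, eval_orb, eval_orb, pow_mul]

section red
variable {K : Type*} [Field K] {v : Valuation K NNReal} {O : Subring K} {F : Type*} [Field F]
  {red : O →+* F} {n : ℕ}

/-- a polynomial over `K` all of whose coefficients are in `O` lifts. -/
theorem StabN_lift (f : MvPolynomial (Fin n) K) (h : ∀ α, f.coeff α ≠ 0 → f.coeff α ∈ O) :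
    ∃ f' : MvPolynomial (Fin n) O, MvPolynomial.map O.subtype f' = f := by
  have := (mem_range_map_iff_coeffs_subset (f := O.subtype) (x := f)).2 (by
    intro c hc
    obtain ⟨α, hα, rfl⟩ := mem_coeffs_iff.1 hc
    exact ⟨⟨_, h α (mem_support_iff.1 hα)⟩, rfl⟩)
  exact this

/-- units stay non-zero. -/
theorem StabN_red_ne (hred : ∀ x : O, red x = 0 ↔ v (x : K) < 1) (f : MvPolynomial (Fin n) O)
    (α : Fin n →₀ ℕ) (h : v ((MvPolynomial.map O.subtype f).coeff α) = 1) :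
    (MvPolynomial.map red f).coeff α ≠ 0 := by
  rw [coeff_map] at h ⊢
  intro h0
  rw [hred] at h0
  exact absurd h (ne_of_lt h0)

theorem StabN_red_ne' (f : MvPolynomial (Fin n) O)
    (α : Fin n →₀ ℕ) (h : (MvPolynomial.map red f).coeff α ≠ 0) :
    (MvPolynomial.map O.subtype f).coeff α ≠ 0 := by
  rw [coeff_map] at h ⊢
  intro h0
  have : f.coeff α = 0 := Subtype.ext h0
  rw [this, map_zero] at h
  exact h rfl

end red

/-- iterates of `bind₁` commute with base change. -/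
theorem StabN_map_iter {R S : Type*} [CommSemiring R] [CommSemiring S] {n : ℕ} (φ : R →+* S)
    (g : Fin n → MvPolynomial (Fin n) R) (m : ℕ) (f : MvPolynomial (Fin n) R) :
    MvPolynomial.map φ ((bind₁ g)^[m] f) =
      (bind₁ (fun i => MvPolynomial.map φ (g i)))^[m] (MvPolynomial.map φ f) := by
  induction m generalizing f with
  | zero => rfl
  | succ m ih =>
    rw [Function.iterate_succ_apply, Function.iterate_succ_apply, ih, map_bind₁]

theorem StabN_eval_map {R S : Type*} [CommRing R] [CommRing S] {n : ℕ} (φ : R →+* S)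
    (x : Fin n → R) (f : MvPolynomial (Fin n) R) :
    eval (fun i => φ (x i)) (MvPolynomial.map φ f) = φ (eval x f) := by
  induction f using MvPolynomial.induction_on with
  | C a => simp
  | add f g hf hg => simp only [map_add, hf, hg]
  | mul_X f i hf => simp only [map_mul, map_X, eval_X, hf]

theorem StabN_alg {F : Type*} [Field F] {n : ℕ}
    (G : MvPolynomial (Fin n) F →ₐ[F] MvPolynomial (Fin n) F)
    (c : Fin n → F) (m : ℕ) (f : MvPolynomial (Fin n) F) :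
    eval (fun i => eval c (G^[m] (X i))) f = eval c (G^[m] f) := by
  have h : (aeval (fun i => eval c (G^[m] (X i))) : MvPolynomial (Fin n) F →ₐ[F] F) =
      (aeval c : MvPolynomial (Fin n) F →ₐ[F] F).comp (G ^ m) := by
    apply MvPolynomial.algHom_ext
    intro i
    simp [aeval_eq_eval]
  have := congrArg (fun g : MvPolynomial (Fin n) F →ₐ[F] F => g f) h
  simpa [aeval_eq_eval] using this

theorem StabN_supp {F : Type*} [Field F] {n : ℕ} (c : Fin n → F)
    (f : MvPolynomial (Fin n) F) (h : eval c f ≠ 0) :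
    ∃ α ∈ f.support, ∀ i, c i = 0 → α i = 0 := by
  by_contra hcon
  push Not at hcon
  apply h
  rw [eval_eq]
  refine Finset.sum_eq_zero fun α hα => ?_
  obtain ⟨i, hi, hi2⟩ := hcon α hα
  rw [Finset.prod_eq_zero (Finsupp.mem_support_iff.2 hi2), mul_zero]
  rw [hi, zero_pow hi2]

theorem exists_sized_points {K : Type*} [Field K] [CharZero K] [IsAlgClosed K] {n : ℕ} (σ : PAut K n)
    (μ : Fin n → ℝ) (hμ : ∀ i, 0 ≤ μ i) (θ : ℝ) (hθ : 1 < θ) (hn : 1 ≤ n)
    (h1 : ∀ i, ∀ α ∈ (σ (X i)).support, Finsupp.weight μ α ≤ θ * μ i) :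
    ∃ (J : Finset (Fin n)) (v : Valuation K NNReal) (ϖ : K) (T : ℝ) (L : ℝ →ₗ[ℚ] ℚ), 1 < v ϖ ∧ 0 < T ∧
      (∀ i, i ∈ J ↔ (lead μ θ σ)^[n] (X i) ≠ 0) ∧
      (∀ j ∈ J, ∃ α : Fin n →₀ ℕ, (∀ i ∉ J, α i = 0) ∧ Finsupp.weight μ α = θ ^ n * μ j) ∧
      (∀ m : ℕ, ∀ j ∈ J, (∃ k : ℤ, L ((θ ^ n) ^ m * μ j) = k) ∧
        T * (θ ^ n) ^ m * μ j / 2 ≤ ((L ((θ ^ n) ^ m * μ j) : ℚ) : ℝ) ∧
        ((L ((θ ^ n) ^ m * μ j) : ℚ) : ℝ) ≤ 2 * T * (θ ^ n) ^ m * μ j) ∧
      ∀ H : MvPolynomial (Fin n) K, H ≠ 0 → ∃ P : Fin n → K, eval P H ≠ 0 ∧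
        (∀ m : ℕ, ∀ j ∈ J, (v (orb (σ ^ n) P m j) : ℝ) =
          (v ϖ : ℝ) ^ ((L ((θ ^ n) ^ m * μ j) : ℚ) : ℝ)) ∧
        (∀ (m : ℕ) (i : Fin n), (v (orb (σ ^ n) P m i) : ℝ) ≤ (v ϖ : ℝ) ^ (2 * T * (θ ^ n) ^ m * μ i)) := by
  classical
  have hdeg : DegLe μ θ σ := h1
  have hθ0 : 0 < θ := by linarith
  set Θ : ℝ := θ ^ n with hΘd
  have hΘ : 1 < Θ := one_lt_pow₀ hθ (by omega)
  have hτ := lead_iter μ θ hθ0 σ hdeg n
  set τ : PAut K n := σ ^ n with hτd
  have hwt : ∀ α : Fin n →₀ ℕ, ∑ j, (α j : ℝ) * μ j = Finsupp.weight μ α := by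
    intro α
    rw [Finsupp.weight_eq_sum]
    simp [nsmul_eq_mul]
  -- the units
  let E : Finset K := (Finset.univ.biUnion fun i => (σ (X i)).coeffs) ∪
    (Finset.univ.biUnion fun i => (τ (X i)).coeffs)
  have hE0 : (0 : K) ∉ E := by
    simp only [E, Finset.mem_union, Finset.mem_biUnion, not_or, not_exists, not_and]
    exact ⟨fun i _ => zero_notMem_coeffs _, fun i _ => zero_notMem_coeffs _⟩
  obtain ⟨p, v, hp, hvp, hE1, hE2⟩ := exists_val E hE0
  have : Fact p.Prime := ⟨hp⟩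
  obtain ⟨O, red, hsurj, hred, hOle, hOlt, hOtor⟩ := exists_resid p v hvp
  have hEO : ∀ e ∈ E, e ∈ O := fun e he => hOtor e (hE2 e he)
  have hEσ : ∀ i α, (σ (X i)).coeff α ≠ 0 → (σ (X i)).coeff α ∈ E := fun i α h => by
    simp only [E, Finset.mem_union, Finset.mem_biUnion]
    exact Or.inl ⟨i, Finset.mem_univ _, coeff_mem_coeffs α h⟩
  have hEτ : ∀ i α, (τ (X i)).coeff α ≠ 0 → (τ (X i)).coeff α ∈ E := fun i α h => by
    simp only [E, Finset.mem_union, Finset.mem_biUnion]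
    exact Or.inr ⟨i, Finset.mem_univ _, coeff_mem_coeffs α h⟩
  -- lifts
  have hgO : ∀ i, ∃ f' : MvPolynomial (Fin n) O,
      MvPolynomial.map O.subtype f' = weightedHomogeneousComponent μ (θ * μ i) (σ (X i)) := by
    intro i
    refine StabN_lift _ fun α hα => ?_
    rw [coeff_weightedHomogeneousComponent] at hα ⊢
    split_ifs at hα ⊢ with hw
    · exact hEO _ (hEσ i α hα)
    · exact absurd rfl hα
  choose gO hgO using hgO
  have hlead : lead μ θ σ = bind₁ (fun i => MvPolynomial.map O.subtype (gO i)) := by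
    unfold lead bind₁
    congr 1
    funext i
    exact (hgO i).symm
  let γ : MvPolynomial (Fin n) (AlgebraicClosure (ZMod p)) →ₐ[AlgebraicClosure (ZMod p)]
      MvPolynomial (Fin n) (AlgebraicClosure (ZMod p)) := aeval (fun i => MvPolynomial.map red (gO i))
  have hγ : γ = bind₁ (fun i => MvPolynomial.map red (gO i)) := rfl
  -- the power
  let GO : Fin n → MvPolynomial (Fin n) O := fun i => (bind₁ gO)^[n] (X i)
  have hGO : ∀ i, MvPolynomial.map O.subtype (GO i) =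
      weightedHomogeneousComponent μ (Θ * μ i) (τ (X i)) := by
    intro i
    rw [(hτ i).2, hlead]
    simp only [GO]
    rw [StabN_map_iter, map_X]
  have hGX : ∀ i, γ^[n] (X i) = MvPolynomial.map red (GO i) := by
    intro i
    simp only [GO]
    rw [StabN_map_iter, map_X, hγ]
  -- coefficients
  have hcf : ∀ i α, (γ^[n] (X i)).coeff α ≠ 0 ↔ (τ (X i)).coeff α ≠ 0 ∧ Finsupp.weight μ α = Θ * μ i := by
    intro i α
    constructor
    · intro h
      rw [hGX] at h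
      have h2 := StabN_red_ne' (GO i) α h
      rw [hGO, coeff_weightedHomogeneousComponent] at h2
      split_ifs at h2 with hw
      · exact ⟨h2, hw⟩
      · exact absurd rfl h2
    · rintro ⟨h, hw⟩
      rw [hGX]
      refine StabN_red_ne hred (GO i) α ?_
      rw [hGO, coeff_weightedHomogeneousComponent, if_pos hw]
      exact hE1 _ (hEτ i α h)
  obtain ⟨c, hc⟩ := frob_point p (fun i => MvPolynomial.map red (gO i))
  change ∀ i, (γ^[n] (X i) = 0 → ∀ m : ℕ, eval c (γ^[m] (X i)) = 0) ∧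
    (γ^[n] (X i) ≠ 0 → ∀ m : ℕ, eval c (γ^[m] (X i)) ≠ 0) at hc
  -- the lifted orbit
  have hlift : ∀ (m : ℕ) (i : Fin n), ∃ x : O, red x = eval c (γ^[n * m] (X i)) ∧
      (eval c (γ^[n * m] (X i)) = 0 → x = 0) := by
    intro m i
    by_cases h0 : eval c (γ^[n * m] (X i)) = 0
    · exact ⟨0, by rw [map_zero, h0], fun _ => rfl⟩
    · obtain ⟨x, hx⟩ := hsurj (eval c (γ^[n * m] (X i)))
      exact ⟨x, hx, fun h => absurd h h0⟩
  choose e he1 he2 using hlift
  let J : Finset (Fin n) := Finset.univ.filter (fun i => γ^[n] (X i) ≠ 0)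
  have hJmem : ∀ i, i ∈ J ↔ γ^[n] (X i) ≠ 0 := fun i => by simp [J]
  have hJnot : ∀ i, i ∉ J ↔ γ^[n] (X i) = 0 := fun i => by simp [J]
  have hJlead : ∀ i, i ∈ J ↔ (lead μ θ σ)^[n] (X i) ≠ 0 := by
    intro i
    rw [hJmem, ← (hτ i).2, ne_zero_iff, ne_zero_iff]
    refine exists_congr fun α => ?_
    rw [hcf, coeff_weightedHomogeneousComponent]
    split_ifs with hw
    · exact ⟨fun h => h.1, fun h => ⟨h, hw⟩⟩
    · exact ⟨fun h => absurd h.2 hw, fun h => absurd rfl h⟩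
  have hdegτ : ∀ i, ∀ α ∈ (τ (X i)).support, Finsupp.weight μ α ≤ Θ * μ i := fun i => (hτ i).1
  have hJ' : ∀ i ∉ J, ∀ α ∈ (τ (X i)).support, Finsupp.weight μ α < Θ * μ i := by
    intro i hi α hα
    refine lt_of_le_of_ne (hdegτ i α hα) fun heq => ?_
    have := (hcf i α).2 ⟨mem_support_iff.1 hα, heq⟩
    rw [(hJnot i).1 hi, coeff_zero] at this
    exact this rfl
  have hJ0 : ∀ i ∉ J, 0 < μ i := by
    intro i hi
    rcases (hμ i).lt_or_eq with h | h
    · exact h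
    exfalso
    have hne : τ (X i) ≠ 0 := by
      rw [Ne, map_eq_zero_iff _ τ.injective]
      exact X_ne_zero i
    obtain ⟨α, hα⟩ := ne_zero_iff.1 hne
    have h2 := hJ' i hi α (mem_support_iff.2 hα)
    rw [← h, mul_zero] at h2
    have h4 : 0 ≤ Finsupp.weight μ α := by
      rw [← hwt]
      exact Finset.sum_nonneg fun j _ => mul_nonneg (Nat.cast_nonneg _) (hμ j)
    linarith
  have hJ1 : ∀ j ∈ J, ∃ α ∈ (τ (X j)).support, (∀ i ∉ J, α i = 0) ∧
      Finsupp.weight μ α = Θ * μ j := by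
    intro j hj
    have hGG : eval c (γ^[n] (X j)) ≠ 0 := (hc j).2 ((hJmem j).1 hj) n
    obtain ⟨α, hα, hα2⟩ := StabN_supp c _ hGG
    obtain ⟨h5, h6⟩ := (hcf j α).1 (mem_support_iff.1 hα)
    refine ⟨α, mem_support_iff.2 h5, fun i hi => hα2 i ?_, h6⟩
    have := (hc i).1 ((hJnot i).1 hi) 0
    simpa using this
  have hpK : (p : K) ≠ 0 := Nat.cast_ne_zero.2 hp.ne_zero
  have hϖ : 1 < v ((p : K)⁻¹) := by
    rw [map_inv₀]
    have h7 : 0 < v (p : K) := by
      rw [pos_iff_ne_zero, Ne, map_eq_zero]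
      exact hpK
    exact (one_lt_inv₀ h7).2 hvp
  have hunit : ∀ i, ∀ α ∈ (τ (X i)).support, v ((τ (X i)).coeff α) = 1 := fun i α hα =>
    hE1 _ (hEτ i α (mem_support_iff.1 hα))
  have hestep : ∀ m, ∀ j ∈ J, v (((e (m + 1) j : O) : K) -
      eval (fun i => ((e m i : O) : K)) (weightedHomogeneousComponent μ (Θ * μ j) (τ (X j)))) < 1 := by
    intro m j _
    have h8 : eval (fun i => ((e m i : O) : K)) (weightedHomogeneousComponent μ (Θ * μ j) (τ (X j))) =
        ((eval (e m) (GO j) : O) : K) := by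
      rw [← hGO]
      exact StabN_eval_map O.subtype (e m) (GO j)
    rw [h8]
    have h12 : ((e (m + 1) j : O) : K) - ((eval (e m) (GO j) : O) : K) =
        ((e (m + 1) j - eval (e m) (GO j) : O) : K) := rfl
    rw [h12, ← hred, map_sub, sub_eq_zero, he1]
    have h9 : red (eval (e m) (GO j)) = eval (fun i => red (e m i)) (MvPolynomial.map red (GO j)) :=
      (StabN_eval_map red (e m) (GO j)).symm
    rw [h9, ← hGX]
    have h10 : (fun i => red (e m i)) = fun i => eval c (γ^[n * m] (X i)) := funext fun i => he1 m i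
    rw [h10, StabN_alg, ← Function.iterate_add_apply, Nat.mul_succ]
  obtain ⟨T, L, hT, hL, hH⟩ := lift_sizes τ μ hμ Θ hΘ hdegτ J hJ0 hJ' hJ1 v ((p : K)⁻¹) hϖ hunit
    (fun m i => ((e m i : O) : K))
    (fun m j hj => by
      have h11 : ¬ v ((e m j : O) : K) < 1 := by
        rw [← hred, he1]
        exact (hc j).2 ((hJmem j).1 hj) _
      exact le_antisymm (hOle _ (e m j).2) (not_lt.1 h11))
    (fun m i hi => by
      show ((e m i : O) : K) = 0
      rw [he2 m i ((hc i).1 ((hJnot i).1 hi) _)]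
      rfl)
    hestep
  refine ⟨J, v, (p : K)⁻¹, T, L, hϖ, hT, hJlead, fun j hj => ?_, hL, hH⟩
  obtain ⟨α, _, h6, h7⟩ := hJ1 j hj
  exact ⟨α, h6, h7⟩

theorem zdo_stable_growth {K : Type*} [Field K] [CharZero K] [IsAlgClosed K] {n : ℕ} (hn : 2 ≤ n)
    (σ : PAut K n) (μ : Fin n → ℝ) (hμ : ∀ i, 0 ≤ μ i) (θ : ℝ) (hθ : 1 < θ)
    (h1 : ∀ i, ∀ α ∈ (σ (X i)).support, ∑ j, (α j : ℝ) * μ j ≤ θ * μ i)
    (h3 : ∃ i, 0 < μ i ∧ ∃ α ∈ ((σ ^ n) (X i)).support, ∑ j, (α j : ℝ) * μ j = θ ^ n * μ i)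
    (η D₀ : ℝ) (hη : 1 ≤ η) (hηθ : η ^ (n - 3) < θ)
    (hdeg : ∀ (j : ℕ) (i : Fin n), (((((σ⁻¹) ^ j) (X i)).totalDegree : ℕ) : ℝ) ≤ D₀ * η ^ j) :
    Zdo σ := by
  classical
  have hwt : ∀ α : Fin n →₀ ℕ, ∑ j, (α j : ℝ) * μ j = Finsupp.weight μ α := by
    intro α
    rw [Finsupp.weight_eq_sum]
    simp [nsmul_eq_mul]
  simp only [hwt] at h1 h3
  have hθ0 : 0 < θ := by linarith
  obtain ⟨J, v, ϖ, T, L, hϖ, hT, hJ, -, hL, hH⟩ := exists_sized_points σ μ hμ θ hθ (by omega) h1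
  obtain ⟨j₀, hj₀, α₀, hα₀, hα₀w⟩ := h3
  have hj₀J : j₀ ∈ J := by
    rw [hJ, ← (lead_iter μ θ hθ0 σ h1 n j₀).2, ne_zero_iff]
    refine ⟨α₀, ?_⟩
    rw [coeff_weightedHomogeneousComponent, if_pos hα₀w]
    exact mem_support_iff.1 hα₀
  have hϖ' : (1 : ℝ) < (v ϖ : ℝ) := by exact_mod_cast hϖ
  have hg0 : (0 : ℝ) < (v ϖ : ℝ) := by linarith
  have hlog : 0 < Real.log (v ϖ : ℝ) := Real.log_pos hϖ'
  have hΘ : 1 < θ ^ n := one_lt_pow₀ hθ (by omega)
  have hgp : ∀ x : ℝ, (v ϖ : ℝ) ^ x = Real.exp (Real.log (v ϖ : ℝ) * x) := fun x =>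
    Real.rpow_def_of_pos hg0 x
  refine thmA_union σ fun H hH0 => ?_
  obtain ⟨P, hP, hA, hB⟩ := hH H hH0
  have key := codim_of_growth hn (σ ^ n) P v (T * μ j₀ * Real.log (v ϖ : ℝ) / 2)
    (2 * T * (∑ i, μ i) * Real.log (v ϖ : ℝ)) (θ ^ n) (η ^ n) D₀ (by positivity) hΘ
    (one_le_pow₀ hη) (by
      rw [← pow_mul, mul_comm, pow_mul]
      exact pow_lt_pow_left₀ hηθ (by positivity) (by omega))
    (by
      intro j i
      have : ((σ ^ n)⁻¹ : PAut K n) ^ j = (σ⁻¹) ^ (n * j) := by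
        rw [← inv_pow, pow_mul]
      rw [this, ← pow_mul]
      exact hdeg (n * j) i)
    (by
      intro m
      refine ⟨j₀, ?_⟩
      rw [hA m j₀ hj₀J, hgp]
      apply Real.exp_le_exp.2
      have := (hL m j₀ hj₀J).2.1
      have h5 := mul_le_mul_of_nonneg_left this hlog.le
      refine le_trans (le_of_eq ?_) h5
      ring)
    (by
      intro m i
      refine (hB m i).trans ?_
      rw [hgp]
      apply Real.exp_le_exp.2
      have h5 : μ i ≤ ∑ i, μ i := Finset.single_le_sum (fun i _ => hμ i) (Finset.mem_univ i)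
      have h6 : 0 ≤ 2 * T * (θ ^ n) ^ m * Real.log (v ϖ : ℝ) := by positivity
      have h7 := mul_le_mul_of_nonneg_left h5 h6
      refine le_trans (le_of_eq ?_) (h7.trans (le_of_eq ?_))
      · ring
      · ring)
  obtain ⟨j, hj⟩ := key
  refine ⟨P, hP, j, fun G hG => ?_⟩
  obtain ⟨m, hm⟩ := hj G hG
  exact ⟨n * m, by rwa [← StabN_orb]⟩

end ZD85
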