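import Pool.Agent.H85.ZD.Defs

/-!
# ZD Vdw : large values of linear functionals along powers (row `Vdw`)

`gap_lemma`.  `V ⊂ ℝ` finite-dimensional over `ℚ`, `Θ V ⊆ V`, `Θ > 1`, `L : ℝ → ℚ` linear.  Hypothesis `hker`: for every
`k ≥ 1` the only `Θ^k`-stable subspace of `V` on which `L` vanishes is `0`.  `Z ⊂ V \ {0}` finite with `L(Θ^m z) ∈ ℤ` for
all `m`.  Then for all `D, m₀` there is `m ≥ m₀` with `|L(Θ^m z)| ≥ D` for all `z ∈ Z`.
Proof.  Suppose not; for every `m ≥ m₀` choose `z(m) ∈ Z` with `|L(Θ^m z(m))| < D` (so `Z ≠ ∅`).  Let `T = dim V + 1`.  By van der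
Waerden's theorem (Mathlib: `Combinatorics.exists_mono_homothetic_copy` with `S = range T ⊂ ℕ`, applied to
`a ↦ z(M + a)`) for every `M ≥ m₀` there are `m' ≥ M` and `k ≥ 1` with `z(m' + t k)` constant `= z` for `t < T`.
To have `k` bounded we argue differently: Mathlib's statement has no bound on the homothety, so use compactness or the
finite version; alternatively avoid the bound as follows.  (i) Finite version from Mathlib: apply
`Combinatorics.exists_mono_homothetic_copy`-type statement to get `W` such that every colouring of `{0..W-1}` with `|Z|` colours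
has a monochromatic progression of length `T` (Hales-Jewett `Combinatorics.Line.exists_mono_in_high_dimension` with alphabet
`Fin T` gives this: map `ι → Fin T` to `ℕ` by summing the coordinates; a monochromatic line gives a progression of
length `T` and difference `k = ` the number of active coordinates, `1 ≤ k ≤ |ι|`).  This is the recommended route: for
every `M ≥ m₀` colour `ι → Fin T` by `w ↦ z(M + ∑ w_i)`; a monochromatic line gives `m' ∈ [M, M + T |ι|]`, `1 ≤ k ≤ |ι|` and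
`z` with `|L(Θ^(m' + t k) z)| < D` for all `t < T`.
(ii) As `M` varies we get infinitely many `m'`, finitely many `(k, z)`; fix `(k, z)` occurring for infinitely many `m'`.  The
vectors `(L(Θ^(m' + t k) z))_{t < T}` are integral with entries `< D` in absolute value, finitely many; so two different
`m'₁ < m'₂` have the same vector: `y = Θ^(m'₁) z - Θ^(m'₂) z ∈ V` satisfies `L(Θ^(t k) y) = 0` for all `t < T`.
(iii) `N_t = {x ∈ V | L(Θ^(k i) x) = 0 for i < t}` is decreasing in `t`; by dimensions `N_t = N_{t+1}` for some `t ≤ dim V`, and then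
`Θ^k N_t = Θ^k N_{t+1} ⊆ N_t`; so `N_t` is `Θ^k`-stable and `L` vanishes on it if `t ≥ 1` (choose `t` in `1..dim V + 1`; or
`N_t = N_{t+1}` for `t = 0` means `L = 0` on `V` and `V = 0` by `hker`).  So `N_t = 0` for some `t ≤ T`, and `y = 0`.
Hence `Θ^(m'₁) = Θ^(m'₂)` as `z ≠ 0`, impossible for `Θ > 1`.

`ker_trivial`.  `finrank V < 2 d`, `1, Θ^k, ..., (Θ^k)^(d-1)` linearly independent over `ℚ` for every `k ≥ 1`, `Θ V ⊆ V`, `L ≠ 0` on
`V`.  Then `hker` holds.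
Proof.  Let `N ⊆ V`, `Θ^k N ⊆ N`, `L = 0` on `N`, `z ∈ N`, `z ≠ 0`; `w ∈ V`, `L w ≠ 0`, so `w ∉ N`.  `Θ^k` is algebraic over `ℚ`
(multiplication by `Θ^k` on the finite-dimensional `V ≠ 0` satisfies a polynomial; apply it to `z ≠ 0`), so the inverse of a
non-zero element of `ℚ[Θ^k]` is in `ℚ[Θ^k]`.  The `2 d` elements `Θ^(kt) z, Θ^(kt) w ∈ V` (`t < d`) are linearly independent: if
`α z + β w = 0` with `α = ∑ a_t Θ^(kt)`, `β = ∑ b_t Θ^(kt)`, then `β ≠ 0` would give `w = -α β⁻¹ z ∈ N` (`N` is stable under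
`ℚ[Θ^k]`), so `β = 0`, `α = 0` (`z ≠ 0`) and all `a_t = b_t = 0`.  So `finrank V ≥ 2 d`, contradiction.
-/

set_option autoImplicit false

namespace ZD85

/-- Hales-Jewett: monochromatic progressions of length `T` with bounded difference. -/
theorem Vdw_prog {κ : Type} [Finite κ] (T : ℕ) :
    ∃ K : ℕ, ∀ (c : ℕ → κ) (M : ℕ), ∃ (m k : ℕ) (z : κ), M ≤ m ∧ 1 ≤ k ∧ k ≤ K ∧
      ∀ t < T, c (m + k * t) = z := by
  classical
  obtain ⟨ι, _, hι⟩ := Combinatorics.Line.exists_mono_in_high_dimension (Fin T) κ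
  refine ⟨Fintype.card ι, fun c M => ?_⟩
  obtain ⟨l, z, hz⟩ := hι fun w => c (M + ∑ i, (w i : ℕ))
  refine ⟨M + ∑ i ∈ Finset.univ.filter (fun i => ¬ l.idxFun i = none),
      (match l.idxFun i with
        | none => 0
        | some v => (v : ℕ)), (Finset.univ.filter fun i => l.idxFun i = none).card, z,
    Nat.le_add_right _ _, ?_, Finset.card_le_univ _, ?_⟩
  · obtain ⟨i, hi⟩ := l.proper
    exact Finset.card_pos.2 ⟨i, by simpa using hi⟩
  · intro t ht
    rw [← hz ⟨t, ht⟩]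
    congr 1
    rw [← Finset.sum_filter_add_sum_filter_not Finset.univ (fun i => l.idxFun i = none)
      (fun i => ((l ⟨t, ht⟩ i : Fin T) : ℕ))]
    have h1 : ∑ i ∈ Finset.univ.filter (fun i => l.idxFun i = none),
        ((l ⟨t, ht⟩ i : Fin T) : ℕ) =
        (Finset.univ.filter fun i => l.idxFun i = none).card * t := by
      rw [Finset.sum_congr rfl (g := fun _ => t), Finset.sum_const, smul_eq_mul]
      intro i hi
      rw [Finset.mem_filter] at hi
      rw [l.apply_none _ _ hi.2]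
    have h2 : ∑ i ∈ Finset.univ.filter (fun i => ¬ l.idxFun i = none),
        ((l ⟨t, ht⟩ i : Fin T) : ℕ) =
        ∑ i ∈ Finset.univ.filter (fun i => ¬ l.idxFun i = none),
      (match l.idxFun i with
        | none => 0
        | some v => (v : ℕ)) := by
      refine Finset.sum_congr rfl fun i hi => ?_
      rw [Finset.mem_filter] at hi
      rw [l.coe_apply]
      cases h : l.idxFun i with
      | none => exact absurd h hi.2
      | some v => rfl
    rw [h1, h2]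
    ring

/-- the common kernel of `L(Θ^(k i) ·)`, `i < t`, in `V`. -/
noncomputable def Vdw_N (V : Submodule ℚ ℝ) (θ : ℝ) (L : ℝ →ₗ[ℚ] ℚ) (t : ℕ) : Submodule ℚ ℝ where
  carrier := {x | x ∈ V ∧ ∀ i < t, L (θ ^ i * x) = 0}
  add_mem' := by
    rintro x y ⟨hx, hx'⟩ ⟨hy, hy'⟩
    refine ⟨V.add_mem hx hy, fun i hi => ?_⟩
    rw [mul_add, map_add, hx' i hi, hy' i hi, add_zero]
  zero_mem' := ⟨V.zero_mem, fun i _ => by rw [mul_zero, map_zero]⟩
  smul_mem' := by
    rintro a x ⟨hx, hx'⟩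
    refine ⟨V.smul_mem a hx, fun i hi => ?_⟩
    rw [mul_smul_comm, map_smul, hx' i hi, smul_zero]

theorem Vdw_pow (V : Submodule ℚ ℝ) (Θ : ℝ) (hV : ∀ x ∈ V, Θ * x ∈ V) (k : ℕ) :
    ∀ x ∈ V, Θ ^ k * x ∈ V := by
  induction k with
  | zero =>
    intro x hx
    rwa [pow_zero, one_mul]
  | succ k ih =>
    intro x hx
    rw [pow_succ', mul_assoc]
    exact hV _ (ih x hx)

theorem Vdw_bot (V : Submodule ℚ ℝ) [FiniteDimensional ℚ V] (θ : ℝ)
    (hV : ∀ x ∈ V, θ * x ∈ V) (L : ℝ →ₗ[ℚ] ℚ)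
    (hker : ∀ N : Submodule ℚ ℝ, N ≤ V → (∀ x ∈ N, θ * x ∈ N) →
      (∀ x ∈ N, L x = 0) → N = ⊥) (x : ℝ) (hx : x ∈ V)
    (h : ∀ i < Module.finrank ℚ V + 1, L (θ ^ i * x) = 0) : x = 0 := by
  have hle : ∀ t, Vdw_N V θ L t ≤ V := fun t x hx => hx.1
  have hanti : ∀ t, Vdw_N V θ L (t + 1) ≤ Vdw_N V θ L t :=
    fun t x hx => ⟨hx.1, fun i hi => hx.2 i (by omega)⟩
  have hfd : ∀ t, FiniteDimensional ℚ (Vdw_N V θ L t) := fun t =>
    Submodule.finiteDimensional_of_le (hle t)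
  have key : ∀ t, Module.finrank ℚ (Vdw_N V θ L (t + 1)) ≤ Module.finrank ℚ V - t := by
    intro t
    induction t with
    | zero =>
      rw [Nat.sub_zero]
      exact Submodule.finrank_mono (hle 1)
    | succ t ih =>
      haveI := hfd (t + 1)
      haveI := hfd (t + 1 + 1)
      rcases (hanti (t + 1)).eq_or_lt with heq | hlt
      · have hb : Vdw_N V θ L (t + 1) = ⊥ := by
          refine hker _ (hle _) ?_ ?_
          · intro x hx
            rw [← heq] at hx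
            refine ⟨hV x hx.1, fun i hi => ?_⟩
            rw [← mul_assoc, ← pow_succ]
            exact hx.2 (i + 1) (by omega)
          · intro x hx
            have := hx.2 0 (by omega)
            rwa [pow_zero, one_mul] at this
        rw [heq, hb, finrank_bot]
        exact Nat.zero_le _
      · have := Submodule.finrank_lt_finrank_of_lt hlt
        omega
  have h0 := key (Module.finrank ℚ V)
  rw [Nat.sub_self, Nat.le_zero] at h0
  haveI := hfd (Module.finrank ℚ V + 1)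
  rw [Submodule.finrank_eq_zero] at h0
  have hmem : x ∈ Vdw_N V θ L (Module.finrank ℚ V + 1) := ⟨hx, h⟩
  rw [h0] at hmem
  exact hmem

theorem gap_lemma (V : Submodule ℚ ℝ) [FiniteDimensional ℚ V] (Θ : ℝ) (hΘ : 1 < Θ)
    (hV : ∀ x ∈ V, Θ * x ∈ V) (L : ℝ →ₗ[ℚ] ℚ)
    (hker : ∀ k : ℕ, 1 ≤ k → ∀ N : Submodule ℚ ℝ, N ≤ V → (∀ x ∈ N, Θ ^ k * x ∈ N) →
      (∀ x ∈ N, L x = 0) → N = ⊥)
    (Z : Finset ℝ) (hZ : ∀ z ∈ Z, z ∈ V ∧ z ≠ 0) (hint : ∀ z ∈ Z, ∀ m : ℕ, ∃ k : ℤ, L (Θ ^ m * z) = k)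
    (D : ℚ) (m₀ : ℕ) : ∃ m : ℕ, m₀ ≤ m ∧ ∀ z ∈ Z, D ≤ |L (Θ ^ m * z)| := by
  classical
  by_contra hcon
  push Not at hcon
  have hc : ∀ m : ℕ, ∃ z : Z, |L (Θ ^ (m₀ + m) * z)| < D := by
    intro m
    obtain ⟨z, hz, h⟩ := hcon (m₀ + m) (Nat.le_add_right _ _)
    exact ⟨⟨z, hz⟩, h⟩
  choose c hc using hc
  obtain ⟨K, hK⟩ := Vdw_prog (κ := Z) (Module.finrank ℚ V + 1)
  obtain ⟨B, hB⟩ : ∃ B : ℤ, D ≤ B := ⟨⌈D⌉, Int.le_ceil D⟩
  -- data
  have hdata : ∀ M : ℕ, ∃ (m : ℕ) (k : Fin (K + 1)) (z : Z)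
      (v : Fin (Module.finrank ℚ V + 1) → Finset.Icc (-B) B), M ≤ m ∧ 1 ≤ (k : ℕ) ∧
      ∀ t : Fin (Module.finrank ℚ V + 1),
        L (Θ ^ (m + (k : ℕ) * (t : ℕ)) * z) = ((v t : ℤ) : ℚ) := by
    intro M
    obtain ⟨m, k, z, hm, hk1, hk2, hz⟩ := hK c M
    choose u hu using fun t : Fin (Module.finrank ℚ V + 1) =>
      hint z z.2 (m₀ + m + k * (t : ℕ))
    have hub : ∀ t, u t ∈ Finset.Icc (-B) B := by
      intro t
      have h1 := hc (m + k * (t : ℕ))
      rw [hz t t.2, ← add_assoc, hu t] at h1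
      have h2 : |((u t : ℤ) : ℚ)| < (B : ℚ) := lt_of_lt_of_le h1 hB
      rw [← Int.cast_abs, Int.cast_lt] at h2
      rw [Finset.mem_Icc]
      exact abs_le.1 h2.le
    exact ⟨m₀ + m, ⟨k, by omega⟩, z, fun t => ⟨u t, hub t⟩, by omega, hk1, fun t => hu t⟩
  choose mf kf zf vf hm hk hv using hdata
  -- infinitely many values of `mf`
  have hinf : (Set.range mf).Infinite := by
    apply Set.infinite_of_not_bddAbove
    rintro ⟨b, hb⟩
    have h1 := hb ⟨b + 1, rfl⟩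
    have h2 := hm (b + 1)
    omega
  haveI : Infinite (Set.range mf) := hinf.to_subtype
  choose pre hpre using fun x : Set.range mf => x.2
  obtain ⟨x, y, hxy, he⟩ := Finite.exists_ne_map_eq_of_infinite
    (fun x : Set.range mf => (kf (pre x), zf (pre x), vf (pre x)))
  simp only [Prod.mk.injEq] at he
  obtain ⟨he1, he2, he3⟩ := he
  have hne : (x : ℕ) ≠ y := fun h => hxy (Subtype.ext h)
  have hz := hZ (zf (pre x)) (zf (pre x)).2
  have hy0 : Θ ^ (x : ℕ) * (zf (pre x) : ℝ) - Θ ^ (y : ℕ) * (zf (pre x) : ℝ) = 0 := by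
    refine Vdw_bot V (Θ ^ (kf (pre x) : ℕ)) (Vdw_pow V Θ hV _) L
      (hker _ (hk (pre x))) _ (V.sub_mem (Vdw_pow V Θ hV _ _ hz.1) (Vdw_pow V Θ hV _ _ hz.1)) ?_
    intro i hi
    have h1 := hv (pre x) ⟨i, hi⟩
    have h2 := hv (pre y) ⟨i, hi⟩
    rw [hpre] at h1 h2
    rw [← he1, ← he2, ← he3] at h2
    rw [mul_sub, map_sub, ← mul_assoc, ← mul_assoc, ← pow_mul, ← pow_add, ← pow_add,
      add_comm _ (x : ℕ), add_comm _ (y : ℕ)]
    simp only at h1 h2
    rw [h1, h2, sub_self]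
  have h3 : Θ ^ (x : ℕ) = Θ ^ (y : ℕ) := by
    have h4 : (Θ ^ (x : ℕ) - Θ ^ (y : ℕ)) * (zf (pre x) : ℝ) = 0 := by
      rw [sub_mul]
      exact hy0
    rcases mul_eq_zero.1 h4 with h5 | h5
    · linarith
    · exact absurd h5 hz.2
  exact hne (pow_right_injective₀ (by linarith) hΘ.ne' h3)

/-- elements of `ℚ[θ]`. -/
theorem Vdw_adj (N : Submodule ℚ ℝ) (θ : ℝ) (hN : ∀ x ∈ N, θ * x ∈ N) (β : ℝ)
    (hβ : β ∈ Algebra.adjoin ℚ {θ}) : ∀ x ∈ N, β * x ∈ N := by
  induction hβ using Algebra.adjoin_induction with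
  | mem y hy =>
    rw [Set.mem_singleton_iff] at hy
    rw [hy]
    exact hN
  | algebraMap r =>
    intro x hx
    rw [← Algebra.smul_def]
    exact N.smul_mem r hx
  | add a b _ _ ha hb =>
    intro x hx
    rw [add_mul]
    exact N.add_mem (ha x hx) (hb x hx)
  | mul a b _ _ ha hb =>
    intro x hx
    rw [mul_assoc]
    exact ha _ (hb x hx)

theorem Vdw_alg (V : Submodule ℚ ℝ) [FiniteDimensional ℚ V] (θ : ℝ)
    (hV : ∀ x ∈ V, θ * x ∈ V) (z : ℝ) (hz : z ∈ V) (hz0 : z ≠ 0) : IsIntegral ℚ θ := by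
  let φ : Polynomial ℚ →ₗ[ℚ] V :=
    { toFun := fun p => ⟨Polynomial.aeval θ p * z,
        Vdw_adj V θ hV _ (Polynomial.aeval_mem_adjoin_singleton ℚ θ) z hz⟩
      map_add' := fun p q => by
        apply Subtype.ext
        simp [add_mul]
      map_smul' := fun r p => by
        apply Subtype.ext
        simp [smul_mul_assoc] }
  have hφ : ¬ Function.Injective φ := by
    intro hinj
    have h1 : Module.Finite ℚ (Polynomial ℚ) := Module.Finite.of_injective φ hinj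
    exact Polynomial.not_finite h1
  have h1 : ∃ p, p ≠ 0 ∧ φ p = 0 := by
    by_contra hcon
    push Not at hcon
    apply hφ
    rw [injective_iff_map_eq_zero]
    intro p hp
    by_contra hp0
    exact hcon p hp0 hp
  obtain ⟨p, hp0, hp⟩ := h1
  have h2 : Polynomial.aeval θ p * z = 0 := congrArg Subtype.val hp
  have h3 : Polynomial.aeval θ p = 0 := (mul_eq_zero.1 h2).resolve_right hz0
  exact IsAlgebraic.isIntegral ⟨p, hp0, h3⟩

theorem ker_trivial (V : Submodule ℚ ℝ) [FiniteDimensional ℚ V] (Θ : ℝ) (hV : ∀ x ∈ V, Θ * x ∈ V)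
    (d : ℕ) (hd : Module.finrank ℚ V < 2 * d)
    (hind : ∀ k : ℕ, 1 ≤ k → LinearIndependent ℚ (fun t : Fin d => ((Θ ^ k) ^ (t : ℕ) : ℝ)))
    (L : ℝ →ₗ[ℚ] ℚ) (hL : ∃ x ∈ V, L x ≠ 0)
    (k : ℕ) (hk : 1 ≤ k) (N : Submodule ℚ ℝ) (hN : N ≤ V) (hNs : ∀ x ∈ N, Θ ^ k * x ∈ N)
    (hNL : ∀ x ∈ N, L x = 0) : N = ⊥ := by
  classical
  by_contra hne
  obtain ⟨z, hz, hz0⟩ := (Submodule.ne_bot_iff N).1 hne
  obtain ⟨w, hw, hLw⟩ := hL
  have hwN : w ∉ N := fun h => hLw (hNL w h)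
  have hθV := Vdw_pow V Θ hV k
  have hint := Vdw_alg V (Θ ^ k) hθV z (hN hz) hz0
  have hmem : ∀ t : ℕ, (Θ ^ k) ^ t ∈ Algebra.adjoin ℚ {Θ ^ k} := fun t =>
    Subalgebra.pow_mem _ (Algebra.self_mem_adjoin_singleton ℚ _) t
  have hsum : ∀ g : Fin d → ℚ, ∑ t, g t • ((Θ ^ k) ^ (t : ℕ)) ∈ Algebra.adjoin ℚ {Θ ^ k} :=
    fun g => Subalgebra.sum_mem _ fun t _ => Subalgebra.smul_mem _ (hmem t) _
  have hinv : ∀ β ∈ Algebra.adjoin ℚ {Θ ^ k}, β⁻¹ ∈ Algebra.adjoin ℚ {Θ ^ k} := by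
    intro β hβ
    have h1 : Algebra.adjoin ℚ {Θ ^ k} ≤ integralClosure ℚ ℝ :=
      Algebra.adjoin_le (Set.singleton_subset_iff.2 hint)
    have h2 : IsIntegral ℚ β := h1 hβ
    exact Subalgebra.inv_mem_of_algebraic (Algebra.adjoin ℚ {Θ ^ k}) (x := ⟨β, hβ⟩)
      h2.isAlgebraic
  let v : Fin d ⊕ Fin d → V := fun i => match i with
    | Sum.inl t => ⟨(Θ ^ k) ^ (t : ℕ) * z, Vdw_pow V (Θ ^ k) hθV _ _ (hN hz)⟩
    | Sum.inr t => ⟨(Θ ^ k) ^ (t : ℕ) * w, Vdw_pow V (Θ ^ k) hθV _ _ hw⟩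
  have hli : LinearIndependent ℚ v := by
    rw [Fintype.linearIndependent_iff]
    intro g hg
    have h1 : (∑ t, g (Sum.inl t) • ((Θ ^ k) ^ (t : ℕ))) * z +
        (∑ t, g (Sum.inr t) • ((Θ ^ k) ^ (t : ℕ))) * w = 0 := by
      have h2 := congrArg Subtype.val hg
      rw [Fintype.sum_sum_type] at h2
      simp only [Submodule.coe_add, Submodule.coe_sum, Submodule.coe_smul,
        Submodule.coe_zero] at h2
      rw [Finset.sum_mul, Finset.sum_mul]
      simp only [smul_mul_assoc]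
      exact h2
    have hβ : ∑ t, g (Sum.inr t) • ((Θ ^ k) ^ (t : ℕ)) = 0 := by
      by_contra hβ
      apply hwN
      have h3 : w = (-((∑ t, g (Sum.inr t) • ((Θ ^ k) ^ (t : ℕ)))⁻¹ *
          (∑ t, g (Sum.inl t) • ((Θ ^ k) ^ (t : ℕ))))) * z := by
        field_simp
        linarith
      rw [h3]
      exact Vdw_adj N (Θ ^ k) hNs _ (Subalgebra.neg_mem _ (Subalgebra.mul_mem _
        (hinv _ (hsum _)) (hsum _))) z hz
    have hα : ∑ t, g (Sum.inl t) • ((Θ ^ k) ^ (t : ℕ)) = 0 := by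
      rw [hβ, zero_mul, add_zero] at h1
      exact (mul_eq_zero.1 h1).resolve_right hz0
    have hl := Fintype.linearIndependent_iff.1 (hind k hk)
    rintro (t | t)
    · exact hl (fun t => g (Sum.inl t)) hα t
    · exact hl (fun t => g (Sum.inr t)) hβ t
  have hcard := hli.fintype_card_le_finrank
  rw [Fintype.card_sum, Fintype.card_fin] at hcard
  omega

end ZD85
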