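import Pool.Agent.H85.ZD.StabN
import Pool.Agent.H85.ZD.Vdw
import Pool.Agent.H85.ZD.Rank

/-!
# ZD StabR : weighted stable automorphisms whose rate has large degree (row `StabR`)

`zdo_stable_rank`: `n ≥ 4`, `σ` stable for the weights `μ` with rate `θ > 1`, and either
(a) for every `k ≥ 1` the numbers `1, θ^k, ..., θ^(k(n-2))` are linearly independent over `ℚ` (`n - 1` numbers), or
(b) for every `k ≥ 1` the numbers `1, θ^k, ..., θ^(k(n-3))` are linearly independent over `ℚ` (`n - 2` numbers) and `θ⁻¹` is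
not integral over `ℤ`.
Proof.  `exists_sized_points` gives `J, v, ϖ, T, L`; `Θ = θ^n`, `τ = σ^n`, `g = v ϖ`.  By `h3` (`lead_iter`) some `j₀ ∈ J` has
`μ_{j₀} > 0`.
Let `V = span ℚ {μ_j : j ∈ J}`, `M = ` the additive subgroup generated by `{μ_j : j ∈ J}`.  `Θ M ⊆ M` and `Θ V ⊆ V`, because
`Θ μ_j = ∑ α_i μ_i` with `α` supported in `J`.
(1) `finrank V ≤ n - 1`: if `J ≠ univ` clear.  If `J = univ` and the `μ_j` were linearly independent over `ℚ`, then
`G = (lead μ θ σ)^[n]` would be injective: `G (x^α)` is non-zero (product of the `G (X i)^{α_i} ≠ 0`) and homogeneous of weight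
`Θ weight α`, and different `α` have different weights, so `G F ≠ 0` for `F ≠ 0`; this contradicts `lead_not_inj`.
(2) Let `d = n - 1` in case (a), `d = n - 2` in case (b).  `(Θ^k)^t = θ^(nkt)`, so the independence hypotheses hold for `Θ` (use
`n k` in place of `k`).  `finrank V ≤ n - 1 < 2 d` since `n ≥ 4`.  `L μ_{j₀} > 0` (from `T μ_{j₀} / 2 ≤ L μ_{j₀}`), so `L ≠ 0` on `V`.
`ker_trivial` and `gap_lemma` give `hgap` for `M` (`L(Θ^m z) ∈ ℤ` for `z ∈ M`).
(3) `finrank V ≥ d`: `μ_{j₀} Θ^t ∈ V`, `t < d`, are linearly independent.  Choose a basis of `V` among the `μ_j`, `j ∈ J`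
(`exists_linearIndependent` ...): an injective `a : Fin ρ → Fin n` with values in `J`, `μ ∘ a` linearly independent, `ρ = finrank V`.
(4) If `ρ = n - 1`: let `j` be the index not in the range of `a`; `indep_of_sizes` shows that no non-zero polynomial in the
variables `≠ j` vanishes on the orbit of `τ`.  If `ρ = n - 2` we are in case (b), `Θ⁻¹` is not integral (if `(θ⁻¹)^n` is integral so
is `θ⁻¹`), `indep_of_nonunit`.
(5) The orbit of `τ` is contained in the orbit of `σ`; `thmA_union`.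
-/

set_option autoImplicit false

namespace ZD85

open MvPolynomial

/-- the iterates of the orbit of a power -/
theorem StabR_orb {K : Type*} [Field K] {n : ℕ} (σ : PAut K n) (k : ℕ) (P : Fin n → K) (m : ℕ) :
    orb (σ ^ k) P m = orb σ P (k * m) := by
  funext i
  have e1 : orb (σ ^ k) P m i = eval (orb (σ ^ k) P m) (X i) := (eval_X i).symm
  have e2 : orb σ P (k * m) i = eval (orb σ P (k * m)) (X i) := (eval_X i).symm
  rw [e1, e2, eval_orb, eval_orb, pow_mul]

/-- different exponents have different weights if the weights are linearly independent -/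
theorem StabR_weight {n : ℕ} (μ : Fin n → ℝ) (hlin : LinearIndependent ℚ μ) (α β : Fin n →₀ ℕ)
    (h : Finsupp.weight μ α = Finsupp.weight μ β) : α = β := by
  rw [Lead_weight, Lead_weight] at h
  rw [Fintype.linearIndependent_iff] at hlin
  have h1 := hlin (fun i => (α i : ℚ) - (β i : ℚ)) (by
    have h2 : ∑ i, ((α i : ℝ) * μ i - (β i : ℝ) * μ i) = 0 := by
      rw [Finset.sum_sub_distrib, h, sub_self]
    rw [← h2]
    refine Finset.sum_congr rfl fun i _ => ?_
    rw [Rat.smul_def]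
    push_cast
    ring)
  ext i
  have h2 := h1 i
  have h3 : (α i : ℚ) = (β i : ℚ) := sub_eq_zero.1 h2
  exact_mod_cast h3

/-- an endomorphism with non-zero homogeneous values on the variables is injective if the weights are
linearly independent -/
theorem StabR_inj {K : Type*} [Field K] {n : ℕ} (μ : Fin n → ℝ) (hlin : LinearIndependent ℚ μ)
    (Θ : ℝ) (hΘ : 0 < Θ) (G : MvPolynomial (Fin n) K →ₐ[K] MvPolynomial (Fin n) K)
    (hne : ∀ i, G (X i) ≠ 0) (hhom : ∀ i, (G (X i)).IsWeightedHomogeneous μ (Θ * μ i))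
    (F : MvPolynomial (Fin n) K) (hF : F ≠ 0) : G F ≠ 0 := by
  classical
  have hmon : ∀ (α : Fin n →₀ ℕ) (c : K), G (monomial α c) = c • ∏ i, G (X i) ^ α i := by
    intro α c
    rw [Lead_monomial, map_smul, map_prod]
    simp only [map_pow]
  have hw : ∀ (α : Fin n →₀ ℕ) (c : K),
      (G (monomial α c)).IsWeightedHomogeneous μ (Θ * Finsupp.weight μ α) := by
    intro α c
    rw [hmon, smul_eq_C_mul]
    refine IsWeightedHomogeneous.C_mul ?_ _
    have hp := IsWeightedHomogeneous.prod (w := μ) Finset.univ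
      (fun j => G (X j) ^ α j) (fun j => α j • (Θ * μ j)) fun j _ => (hhom j).pow _
    have hs : ∑ j, α j • (Θ * μ j) = Θ * Finsupp.weight μ α := by
      rw [Lead_weight, Finset.mul_sum]
      refine Finset.sum_congr rfl fun j _ => ?_
      rw [nsmul_eq_mul]
      ring
    rwa [hs] at hp
  obtain ⟨α, hα⟩ := exists_coeff_ne_zero hF
  intro h0
  have h1 : weightedHomogeneousComponent μ (Θ * Finsupp.weight μ α) (G F) = G (monomial α (coeff α F)) := by
    conv_lhs => rw [← support_sum_monomial_coeff F, map_sum, map_sum]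
    rw [Finset.sum_eq_single α]
    · exact (hw α _).weightedHomogeneousComponent_same
    · intro β _ hβ
      refine (hw β _).weightedHomogeneousComponent_ne _ ?_
      intro h2
      refine hβ (StabR_weight μ hlin β α ?_)
      exact mul_left_cancel₀ hΘ.ne' h2.symm
    · intro h2
      exact absurd (mem_support_iff.2 hα) h2
  rw [h0, map_zero, hmon] at h1
  have h2 : (∏ i, G (X i) ^ α i) ≠ 0 := Finset.prod_ne_zero_iff.2 fun i _ => pow_ne_zero _ (hne i)
  exact smul_ne_zero hα h2 h1.symm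

/-- transfer of the independence to the subtype -/
theorem StabR_transfer {K : Type*} [Field K] {n ρ : ℕ} (a : Fin ρ → Fin n)
    (ha : Function.Injective a) (hρ : ρ + 1 = n) (x : ℕ → Fin n → K)
    (h : ∀ G : MvPolynomial (Fin ρ) K, G ≠ 0 → ∃ m, eval (fun l => x m (a l)) G ≠ 0) :
    ∃ j : Fin n, ∀ G : MvPolynomial {i : Fin n // i ≠ j} K, G ≠ 0 →
      ∃ m : ℕ, eval (x m) (rename Subtype.val G) ≠ 0 := by
  classical
  have h1 : ∃ j, j ∉ Finset.univ.image a := by
    by_contra hcon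
    push Not at hcon
    have h2 : (Finset.univ : Finset (Fin n)) ⊆ Finset.univ.image a := fun i _ => hcon i
    have h3 := Finset.card_le_card h2
    rw [Finset.card_image_of_injective _ ha, Finset.card_univ, Finset.card_univ, Fintype.card_fin,
      Fintype.card_fin] at h3
    omega
  obtain ⟨j, hj⟩ := h1
  have hj' : ∀ l, a l ≠ j := fun l h2 => hj (Finset.mem_image.2 ⟨l, Finset.mem_univ _, h2⟩)
  refine ⟨j, fun G hG => ?_⟩
  have hb : Function.Bijective (fun l : Fin ρ => (⟨a l, hj' l⟩ : {i : Fin n // i ≠ j})) := by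
    rw [Fintype.bijective_iff_injective_and_card]
    refine ⟨fun l l' h2 => ha (congrArg Subtype.val h2), ?_⟩
    rw [Fintype.card_fin, Fintype.card_subtype_compl, Fintype.card_fin, Fintype.card_subtype_eq]
    omega
  obtain ⟨m, hm⟩ := h (rename (Equiv.ofBijective _ hb).symm G) (by
    intro h2
    exact hG (rename_injective _ (Equiv.injective _) (h2.trans (map_zero _).symm)))
  refine ⟨m, ?_⟩
  rw [eval_rename] at hm ⊢
  have h3 : (fun l => x m (a l)) ∘ (Equiv.ofBijective _ hb).symm = x m ∘ Subtype.val := by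
    funext i
    obtain ⟨l, rfl⟩ := hb.2 i
    simp only [Function.comp_apply]
    have h4 : (Equiv.ofBijective _ hb).symm (⟨a l, hj' l⟩ : {i : Fin n // i ≠ j}) = l :=
      (Equiv.ofBijective _ hb).symm_apply_apply l
    rw [h4]
  rwa [h3] at hm

/-- a basis among the weights -/
theorem StabR_basis {n : ℕ} (μ : Fin n → ℝ) (J : Finset (Fin n)) :
    ∃ (ρ : ℕ) (a : Fin ρ → Fin n), Function.Injective a ∧ (∀ l, a l ∈ J) ∧
      LinearIndependent ℚ (fun l => μ (a l)) ∧
      ρ = Module.finrank ℚ (Submodule.span ℚ (μ '' J)) := by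
  classical
  obtain ⟨κ, a, ha, hs, hl⟩ := exists_linearIndependent' ℚ (fun j : J => μ j)
  have : Finite κ := Finite.of_injective a ha
  have := Fintype.ofFinite κ
  have e := (Fintype.equivFin κ).symm
  refine ⟨Fintype.card κ, fun l => (a (e l) : Fin n), fun l l' h => ?_, fun l => (a (e l)).2, ?_, ?_⟩
  · exact e.injective (ha (Subtype.ext h))
  · exact hl.comp e e.injective
  · have h1 := finrank_span_eq_card hl
    rw [hs] at h1
    have h2 : Set.range (fun j : J => μ j) = μ '' J := by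
      ext x
      simp
    rw [h2] at h1
    exact h1.symm

theorem zdo_stable_rank {K : Type*} [Field K] [CharZero K] [IsAlgClosed K] {n : ℕ} (hn : 4 ≤ n)
    (σ : PAut K n) (μ : Fin n → ℝ) (hμ : ∀ i, 0 ≤ μ i) (θ : ℝ) (hθ : 1 < θ)
    (h1 : ∀ i, ∀ α ∈ (σ (X i)).support, ∑ j, (α j : ℝ) * μ j ≤ θ * μ i)
    (h3 : ∃ i, 0 < μ i ∧ ∃ α ∈ ((σ ^ n) (X i)).support, ∑ j, (α j : ℝ) * μ j = θ ^ n * μ i)
    (hdeg : (∀ k : ℕ, 1 ≤ k → LinearIndependent ℚ (fun t : Fin (n - 1) => ((θ ^ k) ^ (t : ℕ) : ℝ))) ∨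
      ((∀ k : ℕ, 1 ≤ k → LinearIndependent ℚ (fun t : Fin (n - 2) => ((θ ^ k) ^ (t : ℕ) : ℝ))) ∧
        ¬ IsIntegral ℤ (θ⁻¹))) :
    Zdo σ := by
  classical
  have hθ0 : 0 < θ := by linarith
  have h1' : DegLe μ θ σ := fun i α hα => by
    rw [Lead_weight]
    exact h1 i α hα
  obtain ⟨J, v, ϖ, T, L, hϖ, hT, hJ, hJs, hL, hP⟩ := exists_sized_points σ μ hμ θ hθ (by omega) h1'
  -- the index `j₀`
  obtain ⟨j₀, hj₀, α₀, hα₀, hα₀'⟩ := h3
  have hj₀J : j₀ ∈ J := by
    rw [hJ, ← (lead_iter μ θ hθ0 σ h1' n j₀).2]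
    intro h0
    have h2 := congrArg (coeff α₀) h0
    rw [coeff_weightedHomogeneousComponent, if_pos (by rw [Lead_weight, hα₀']), coeff_zero] at h2
    exact mem_support_iff.1 hα₀ h2
  set Θ := θ ^ n with hΘd
  have hΘ : 1 < Θ := one_lt_pow₀ hθ (by omega)
  have hΘ0 : 0 < Θ := by linarith
  -- `V` and `M`
  set V : Submodule ℚ ℝ := Submodule.span ℚ (μ '' J) with hVd
  set M : AddSubgroup ℝ := AddSubgroup.closure (μ '' J) with hMd
  have : FiniteDimensional ℚ V := FiniteDimensional.span_of_finite ℚ (J.finite_toSet.image μ)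
  have hgen : ∀ j ∈ J, ∃ α : Fin n →₀ ℕ, (∀ i ∉ J, α i = 0) ∧ ∑ i, (α i : ℝ) * μ i = Θ * μ j := by
    intro j hj
    obtain ⟨α, h2, h4⟩ := hJs j hj
    rw [Lead_weight] at h4
    exact ⟨α, h2, h4⟩
  have hMV : ∀ x ∈ M, x ∈ V := by
    intro x hx
    have h2 : M ≤ V.toAddSubgroup := by
      rw [hMd, AddSubgroup.closure_le]
      exact Submodule.subset_span
    exact h2 hx
  have hMj : ∀ j ∈ J, μ j ∈ M := fun j hj => AddSubgroup.subset_closure ⟨j, hj, rfl⟩
  have hMg : ∀ j ∈ J, Θ * μ j ∈ M := by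
    intro j hj
    obtain ⟨α, h2, h4⟩ := hgen j hj
    rw [← h4]
    refine AddSubgroup.sum_mem _ fun i _ => ?_
    by_cases hi : i ∈ J
    · rw [← nsmul_eq_mul]
      exact AddSubgroup.nsmul_mem _ (hMj i hi) _
    · rw [h2 i hi, Nat.cast_zero, zero_mul]
      exact AddSubgroup.zero_mem _
  have hMΘ : ∀ x ∈ M, Θ * x ∈ M := by
    intro x hx
    induction hx using AddSubgroup.closure_induction with
    | mem x hx =>
      obtain ⟨j, hj, rfl⟩ := hx
      exact hMg j hj
    | zero => rw [mul_zero]; exact AddSubgroup.zero_mem _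
    | add x y _ _ hx hy => rw [mul_add]; exact AddSubgroup.add_mem _ hx hy
    | neg x _ hx => rw [mul_neg]; exact AddSubgroup.neg_mem _ hx
  have hVΘ : ∀ x ∈ V, Θ * x ∈ V := by
    intro x hx
    induction hx using Submodule.span_induction with
    | mem x hx =>
      obtain ⟨j, hj, rfl⟩ := hx
      exact hMV _ (hMg j hj)
    | zero => rw [mul_zero]; exact Submodule.zero_mem _
    | add x y _ _ hx hy => rw [mul_add]; exact Submodule.add_mem _ hx hy
    | smul c x _ hx => rw [mul_smul_comm]; exact Submodule.smul_mem _ _ hx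
  have hint : ∀ x ∈ M, ∀ m : ℕ, ∃ k : ℤ, L (Θ ^ m * x) = k := by
    intro x hx m
    induction hx using AddSubgroup.closure_induction with
    | mem x hx =>
      obtain ⟨j, hj, rfl⟩ := hx
      exact (hL m j hj).1
    | zero => exact ⟨0, by rw [mul_zero, map_zero, Int.cast_zero]⟩
    | add x y _ _ hx hy =>
      obtain ⟨k, hk⟩ := hx
      obtain ⟨k', hk'⟩ := hy
      exact ⟨k + k', by rw [mul_add, map_add, hk, hk', Int.cast_add]⟩
    | neg x _ hx =>
      obtain ⟨k, hk⟩ := hx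
      exact ⟨-k, by rw [mul_neg, map_neg, hk, Int.cast_neg]⟩
  -- the rank
  obtain ⟨ρ, a, ha, haJ, hlin, hρ⟩ := StabR_basis μ J
  have hρ' : ρ = Module.finrank ℚ V := hρ
  have hρn : ρ ≤ n - 1 := by
    by_contra hcon
    have h2 : ρ ≤ n := by
      have := Fintype.card_le_of_injective a ha
      rwa [Fintype.card_fin, Fintype.card_fin] at this
    have h4 : ρ = n := by omega
    subst h4
    have hsurj : Function.Surjective a := Finite.injective_iff_surjective.1 ha
    have hlinμ : LinearIndependent ℚ μ := by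
      have h5 := hlin.comp (Equiv.ofBijective a ⟨ha, hsurj⟩).symm (Equiv.injective _)
      have h6 : (fun l => μ (a l)) ∘ (Equiv.ofBijective a ⟨ha, hsurj⟩).symm = μ := by
        funext i
        simp only [Function.comp_apply]
        congr 1
        exact (Equiv.ofBijective a ⟨ha, hsurj⟩).apply_symm_apply i
      rwa [h6] at h5
    have hJu : ∀ i, i ∈ J := fun i => by
      obtain ⟨l, rfl⟩ := hsurj i
      exact haJ l
    obtain ⟨Ψ, hΨ, hΨ0⟩ := lead_not_inj μ hμ ⟨j₀, hj₀⟩ θ hθ σ h1'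
    have hit : ∀ (m : ℕ) (F : MvPolynomial (Fin ρ) K), ((lead μ θ σ) ^ m : MvPolynomial (Fin ρ) K →ₐ[K]
        MvPolynomial (Fin ρ) K) F = (lead μ θ σ)^[m] F := by
      intro m F
      induction m generalizing F with
      | zero => rfl
      | succ m ih => rw [pow_succ, Function.iterate_succ_apply, ← ih]; rfl
    have h5 := StabR_inj μ hlinμ Θ hΘ0 ((lead μ θ σ) ^ ρ) (fun i => by
        rw [hit]
        exact (hJ i).1 (hJu i)) (fun i => by
        rw [hit]
        exact lead_iter_homog μ θ σ ρ i) Ψ hΨ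
    have hz : ∀ m : ℕ, 1 ≤ m → (lead μ θ σ)^[m] Ψ = 0 := by
      intro m hm
      obtain ⟨k, rfl⟩ : ∃ k, m = k + 1 := ⟨m - 1, by omega⟩
      rw [Function.iterate_succ_apply, hΨ0, ← hit, map_zero]
    rw [hit] at h5
    exact h5 (hz ρ (by omega))
  -- the independence hypotheses for `Θ`
  have hpow : ∀ (k t : ℕ), (Θ ^ k) ^ t = (θ ^ (n * k)) ^ t := by
    intro k t
    rw [hΘd, ← pow_mul θ n k]
  obtain ⟨d, hd1, hd2, hd3, hd4⟩ : ∃ d : ℕ, n - 1 < 2 * d ∧
      (∀ k : ℕ, 1 ≤ k → LinearIndependent ℚ (fun t : Fin d => ((Θ ^ k) ^ (t : ℕ) : ℝ))) ∧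
      n - 2 ≤ d ∧ (d = n - 1 ∨ ¬ IsIntegral ℤ (Θ⁻¹)) := by
    rcases hdeg with h2 | ⟨h2, h4⟩
    · refine ⟨n - 1, by omega, fun k hk => ?_, by omega, Or.inl rfl⟩
      simp only [hpow]
      exact h2 (n * k) (Nat.mul_pos (by omega) hk)
    · refine ⟨n - 2, by omega, fun k hk => ?_, by omega, Or.inr fun h5 => h4 ?_⟩
      · simp only [hpow]
        exact h2 (n * k) (Nat.mul_pos (by omega) hk)
      · rw [hΘd, ← inv_pow] at h5
        exact IsIntegral.of_pow (by omega) h5
  -- the gap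
  have hLne : ∃ x ∈ V, L x ≠ 0 := by
    refine ⟨μ j₀, hMV _ (hMj _ hj₀J), ?_⟩
    have h2 := (hL 0 j₀ hj₀J).2.1
    rw [pow_zero, mul_one, one_mul] at h2
    intro h4
    rw [h4, Rat.cast_zero] at h2
    have : 0 < T * μ j₀ / 2 := by positivity
    linarith
  have hgap : ∀ Z : Finset ℝ, (∀ z ∈ Z, z ∈ M ∧ z ≠ 0) → ∀ (D : ℚ) (m₀ : ℕ), ∃ m : ℕ, m₀ ≤ m ∧
      ∀ z ∈ Z, D ≤ |L (Θ ^ m * z)| := by
    intro Z hZ D m₀
    refine gap_lemma V Θ hΘ hVΘ L ?_ Z (fun z hz => ⟨hMV z (hZ z hz).1, (hZ z hz).2⟩)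
      (fun z hz m => hint z (hZ z hz).1 m) D m₀
    intro k hk N hN hNs hNL
    refine ker_trivial V Θ hVΘ d ?_ hd2 L hLne k hk N hN hNs hNL
    rw [← hρ']
    omega
  -- lower bound for the rank
  have hVpow : ∀ (t : ℕ) (x : ℝ), x ∈ V → Θ ^ t * x ∈ V := by
    intro t
    induction t with
    | zero => intro x hx; rwa [pow_zero, one_mul]
    | succ t ih => intro x hx; rw [pow_succ, mul_assoc]; exact ih _ (hVΘ x hx)
  have hdρ : d ≤ ρ := by
    have h2 := hd2 1 le_rfl
    have h4 : LinearIndependent ℚ (fun t : Fin d => (⟨Θ ^ (t : ℕ) * μ j₀,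
        hVpow t _ (hMV _ (hMj _ hj₀J))⟩ : V)) := by
      rw [Fintype.linearIndependent_iff] at h2 ⊢
      intro g hg i
      refine h2 g ?_ i
      have h5 := congrArg (fun x : V => (x : ℝ)) hg
      simp only [AddSubmonoidClass.coe_finsetSum, SetLike.val_smul, ZeroMemClass.coe_zero] at h5
      have h6 : (∑ t : Fin d, g t • ((Θ ^ 1) ^ (t : ℕ) : ℝ)) * μ j₀ = 0 := by
        rw [Finset.sum_mul, ← h5]
        refine Finset.sum_congr rfl fun t _ => ?_
        rw [pow_one, smul_mul_assoc]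
      exact (mul_eq_zero.1 h6).resolve_right hj₀.ne'
    have h5 := h4.fintype_card_le_finrank
    rwa [Fintype.card_fin, ← hρ'] at h5
  -- assembly
  refine thmA_union σ fun H hH => ?_
  obtain ⟨P, hPH, hPs, -⟩ := hP H hH
  refine ⟨P, hPH, ?_⟩
  have horb : ∀ m, orb (σ ^ n) P m = orb σ P (n * m) := StabR_orb σ n P
  have hfin : (∃ j : Fin n, ∀ G : MvPolynomial {i : Fin n // i ≠ j} K, G ≠ 0 →
      ∃ m : ℕ, eval (orb (σ ^ n) P m) (rename Subtype.val G) ≠ 0) → ∃ j : Fin n,
      ∀ G : MvPolynomial {i : Fin n // i ≠ j} K, G ≠ 0 →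
      ∃ m : ℕ, eval (orb σ P m) (rename Subtype.val G) ≠ 0 := by
    rintro ⟨j, hj⟩
    refine ⟨j, fun G hG => ?_⟩
    obtain ⟨m, hm⟩ := hj G hG
    rw [horb] at hm
    exact ⟨n * m, hm⟩
  apply hfin
  have hϖ' : (1 : ℝ) < (v ϖ : ℝ) := by exact_mod_cast hϖ
  have hsize : ∀ (m : ℕ) (l : Fin ρ), (v (orb (σ ^ n) P m (a l)) : ℝ) =
      (v ϖ : ℝ) ^ ((L (Θ ^ m * μ (a l)) : ℚ) : ℝ) := fun m l => hPs m (a l) (haJ l)
  rcases Nat.lt_or_ge ρ (n - 1) with h2 | h2
  · have h4 : ρ + 2 = n := by omega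
    have h5 : ¬ IsIntegral ℤ (Θ⁻¹) := by
      rcases hd4 with h6 | h6
      · omega
      · exact h6
    exact indep_of_nonunit (by omega) h4 (σ ^ n) P v (v ϖ) hϖ' Θ hΘ L μ a ha hlin hsize M
      (fun l => hMj _ (haJ l)) hMΘ hgap h5
  · refine StabR_transfer a ha (by omega) (orb (σ ^ n) P) fun G hG => ?_
    obtain ⟨m, -, hm⟩ := indep_of_sizes (σ ^ n) P v (v ϖ) hϖ' Θ L μ a hlin hsize M
      (fun l => hMj _ (haJ l)) hgap 0 G hG
    exact ⟨m, hm⟩

end ZD85
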