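import Pool.Agent.H85.ZD.CommonFac
import Pool.Agent.H85.ZD.Semi
import Pool.Agent.H85.ZD.Rel

/-!
# ZD ThmA : orbit closures of codimension at most one (row `ThmA`)

`thmA` (any `n`, fixed `j`).  Suppose `¬ HasDense σ`.  Every point `P` which is good (no non-zero polynomial in the
variables `≠ j` vanishes on its orbit) has `I_P ≠ ⊥` (`I_P` the ideal of the orbit; build it as an `Ideal` by hand:
`{F | ∀ m, eval (orb σ P m) F = 0}`), so by `common_factor_mv` and `semi_inv` there is a semi-invariant `F_P ≠ 0`,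
`σ F_P = C c * F_P`, `F_P(P) = 0`.
Choose inductively good points `P_0, ..., P_n` with `F_{P_i}(P_k) ≠ 0` for `i < k`, applying the hypothesis to
`H = ∏_{i<k} F_{P_i} ≠ 0`.  (For instance prove by induction on `k ≤ n + 1` that there are `P, F, c : Fin k → _`
with the required properties, extending by `Fin.snoc`.)  Then `hasInv_of_semi`.

`thmA_union` : the version where `j` may depend on the point.  If for every `j` the set `S_j` of good points for `j`
were not Zariski dense, with `H_j ≠ 0` vanishing on it, then `H = ∏_j H_j ≠ 0` would vanish at all good points.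

`thmA3` (`n = 3`): from `PairInd`.  Given `i ≠ l` in `Fin 3` let `j` be the third index.  A non-zero
`G : MvPolynomial {a : Fin 3 // a ≠ j} K` gives a non-zero `G' : Polynomial (Polynomial K)` with
`evalEval (y l) (y i) G' = eval y (rename Subtype.val G)` for all `y : Fin 3 → K`.  For instance
`G' = eval₂ (Polynomial.C.comp Polynomial.C) (fun a => if a.1 = i then Polynomial.X else Polynomial.C Polynomial.X) G`;
it is non-zero because the map has a left inverse (back substitution), or because a polynomial with `G' = 0`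
satisfies ... (any argument; `K` may be finite here, so use the left inverse: `Polynomial.eval₂` of `G'` back into
`MvPolynomial {a // a ≠ j} K` sending the outer variable to `X ⟨i, _⟩` and the inner one to `X ⟨l, _⟩` is the identity
on the generators; every `a ≠ j` is `i` or `l`, by `decide`/`fin_cases`).
-/

set_option autoImplicit false

namespace ZD85

open MvPolynomial

/-- the ideal of the forward orbit -/
noncomputable def ThmA_I {K : Type*} [Field K] {n : ℕ} (σ : PAut K n) (P : Fin n → K) :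
    Ideal (MvPolynomial (Fin n) K) where
  carrier := {F | ∀ m : ℕ, eval (orb σ P m) F = 0}
  add_mem' := by
    intro a b ha hb m
    rw [map_add, ha m, hb m, add_zero]
  zero_mem' := fun m => map_zero _
  smul_mem' := by
    intro c x hx m
    rw [smul_eq_mul, map_mul, hx m, mul_zero]

theorem ThmA_semi {K : Type*} [Field K] {n : ℕ} (σ : PAut K n) (hD : ¬ HasDense σ) (j : Fin n)
    (P : Fin n → K) (hP : ∀ G : MvPolynomial {i : Fin n // i ≠ j} K, G ≠ 0 →
        ∃ m : ℕ, eval (orb σ P m) (rename Subtype.val G) ≠ 0) :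
    ∃ (F : MvPolynomial (Fin n) K) (c : K), F ≠ 0 ∧ σ F = C c * F ∧ eval P F = 0 := by
  have hbot : ThmA_I σ P ≠ ⊥ := by
    intro hb
    apply hD
    refine ⟨P, fun F hF => ?_⟩
    by_contra hcon
    push Not at hcon
    apply hF
    have h1 : F ∈ ThmA_I σ P := hcon
    rw [hb] at h1
    exact (Submodule.mem_bot _).1 h1
  refine semi_inv σ P (ThmA_I σ P) hbot (fun F => Iff.rfl)
    (common_factor_mv j (ThmA_I σ P) hbot fun G hG => ?_)
  by_contra hne
  obtain ⟨m, hm⟩ := hP G hne
  exact hm (hG m)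

theorem ThmA_chain {K : Type*} [Field K] {n : ℕ} (σ : PAut K n)
    (h : ∀ H : MvPolynomial (Fin n) K, H ≠ 0 → ∃ P : Fin n → K, eval P H ≠ 0 ∧
      ∃ (F : MvPolynomial (Fin n) K) (c : K), F ≠ 0 ∧ σ F = C c * F ∧ eval P F = 0) (k : ℕ) :
    ∃ (F : Fin k → MvPolynomial (Fin n) K) (c : Fin k → K) (P : Fin k → (Fin n → K)),
      (∀ i, F i ≠ 0) ∧ (∀ i, σ (F i) = C (c i) * F i) ∧ (∀ k', eval (P k') (F k') = 0) ∧
      ∀ i k', i < k' → eval (P k') (F i) ≠ 0 := by
  induction k with
  | zero =>
    exact ⟨Fin.elim0, Fin.elim0, Fin.elim0, fun i => i.elim0, fun i => i.elim0, fun i => i.elim0,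
      fun i => i.elim0⟩
  | succ k ih =>
    obtain ⟨F, c, P, h1, h2, h3, h4⟩ := ih
    obtain ⟨Q, hQ, G, d, g1, g2, g3⟩ := h (∏ i, F i) (Finset.prod_ne_zero_iff.2 fun i _ => h1 i)
    rw [map_prod, Finset.prod_ne_zero_iff] at hQ
    refine ⟨Fin.snoc (α := fun _ => MvPolynomial (Fin n) K) F G, Fin.snoc (α := fun _ => K) c d,
      Fin.snoc (α := fun _ => Fin n → K) P Q, ?_, ?_, ?_, ?_⟩
    · intro i
      induction i using Fin.lastCases with
      | last => rw [Fin.snoc_last]; exact g1
      | cast i => rw [Fin.snoc_castSucc]; exact h1 i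
    · intro i
      induction i using Fin.lastCases with
      | last => rw [Fin.snoc_last, Fin.snoc_last]; exact g2
      | cast i => rw [Fin.snoc_castSucc, Fin.snoc_castSucc]; exact h2 i
    · intro i
      induction i using Fin.lastCases with
      | last => rw [Fin.snoc_last, Fin.snoc_last]; exact g3
      | cast i => rw [Fin.snoc_castSucc, Fin.snoc_castSucc]; exact h3 i
    · intro i k' hik
      induction k' using Fin.lastCases with
      | last =>
        induction i using Fin.lastCases with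
        | last => exact absurd hik (lt_irrefl _)
        | cast i => rw [Fin.snoc_last, Fin.snoc_castSucc]; exact hQ i (Finset.mem_univ i)
      | cast k' =>
        induction i using Fin.lastCases with
        | last => exact absurd (hik.trans (Fin.castSucc_lt_last k')) (lt_irrefl _)
        | cast i =>
          rw [Fin.snoc_castSucc, Fin.snoc_castSucc]
          exact h4 i k' (Fin.castSucc_lt_castSucc_iff.1 hik)

theorem thmA {K : Type*} [Field K] {n : ℕ} (σ : PAut K n) (j : Fin n)
    (h : ∀ H : MvPolynomial (Fin n) K, H ≠ 0 → ∃ P : Fin n → K, eval P H ≠ 0 ∧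
      ∀ G : MvPolynomial {i : Fin n // i ≠ j} K, G ≠ 0 →
        ∃ m : ℕ, eval (orb σ P m) (rename Subtype.val G) ≠ 0) :
    Zdo σ := by
  by_cases hD : HasDense σ
  · exact Or.inr hD
  · left
    obtain ⟨F, c, P, h1, h2, h3, h4⟩ := ThmA_chain σ (fun H hH => by
      obtain ⟨P, hP, hG⟩ := h H hH
      exact ⟨P, hP, ThmA_semi σ hD j P hG⟩) (n + 1)
    exact hasInv_of_semi σ F c P h1 h2 h3 h4

theorem thmA_union {K : Type*} [Field K] {n : ℕ} (σ : PAut K n)
    (h : ∀ H : MvPolynomial (Fin n) K, H ≠ 0 → ∃ P : Fin n → K, eval P H ≠ 0 ∧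
      ∃ j : Fin n, ∀ G : MvPolynomial {i : Fin n // i ≠ j} K, G ≠ 0 →
        ∃ m : ℕ, eval (orb σ P m) (rename Subtype.val G) ≠ 0) :
    Zdo σ := by
  by_contra hZ
  have h1 : ∀ j : Fin n, ∃ H : MvPolynomial (Fin n) K, H ≠ 0 ∧ ∀ P : Fin n → K, eval P H ≠ 0 →
      ¬ ∀ G : MvPolynomial {i : Fin n // i ≠ j} K, G ≠ 0 →
        ∃ m : ℕ, eval (orb σ P m) (rename Subtype.val G) ≠ 0 := by
    intro j
    by_contra hcon
    push Not at hcon
    apply hZ
    refine thmA σ j fun H hH => ?_
    obtain ⟨P, hP, hG⟩ := hcon H hH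
    exact ⟨P, hP, fun G hG0 => hG G hG0⟩
  choose H hH hbad using h1
  obtain ⟨P, hP, j, hj⟩ := h (∏ j, H j) (Finset.prod_ne_zero_iff.2 fun i _ => hH i)
  rw [map_prod, Finset.prod_ne_zero_iff] at hP
  exact hbad j P (hP j (Finset.mem_univ j)) hj

/-- substitution of two variables -/
noncomputable def ThmA_phi (K : Type*) [Field K] (i j : Fin 3) :
    MvPolynomial {a : Fin 3 // a ≠ j} K →+* Polynomial (Polynomial K) :=
  eval₂Hom (Polynomial.C.comp Polynomial.C)
    (fun a => if a.1 = i then Polynomial.X else Polynomial.C Polynomial.X)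

theorem ThmA_phi_inj (K : Type*) [Field K] (i l j : Fin 3) (hi : i ≠ j) (hl : l ≠ j)
    (hall : ∀ a : Fin 3, a ≠ j → a = i ∨ a = l) (G : MvPolynomial {a : Fin 3 // a ≠ j} K)
    (hG : ThmA_phi K i j G = 0) : G = 0 := by
  have h : ((Polynomial.eval₂RingHom (Polynomial.eval₂RingHom (C : K →+* MvPolynomial {a : Fin 3 // a ≠ j} K)
      (X ⟨l, hl⟩)) (X ⟨i, hi⟩)).comp (ThmA_phi K i j)) = RingHom.id _ := by
    apply MvPolynomial.ringHom_ext
    · intro r
      simp [ThmA_phi]
    · rintro ⟨a, ha⟩
      by_cases hai : a = i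
      · subst hai
        simp [ThmA_phi]
      · have hal : a = l := (hall a ha).resolve_left hai
        subst hal
        simp [ThmA_phi, hai]
  have h2 := congrArg (fun f : MvPolynomial {a : Fin 3 // a ≠ j} K →+* MvPolynomial {a : Fin 3 // a ≠ j} K => f G) h
  simp only [RingHom.comp_apply, RingHom.id_apply] at h2
  rw [hG, map_zero] at h2
  exact h2.symm

theorem ThmA_phi_eval (K : Type*) [Field K] (i l j : Fin 3)
    (hall : ∀ a : Fin 3, a ≠ j → a = i ∨ a = l) (G : MvPolynomial {a : Fin 3 // a ≠ j} K)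
    (y : Fin 3 → K) :
    Polynomial.evalEval (y l) (y i) (ThmA_phi K i j G) = eval y (rename Subtype.val G) := by
  have h : (Polynomial.evalEvalRingHom (y l) (y i)).comp (ThmA_phi K i j) =
      (eval y).comp (rename (R := K) (Subtype.val : {a : Fin 3 // a ≠ j} → Fin 3)).toRingHom := by
    apply MvPolynomial.ringHom_ext
    · intro r
      simp [ThmA_phi, Polynomial.evalEval]
    · rintro ⟨a, ha⟩
      by_cases hai : a = i
      · subst hai
        simp [ThmA_phi, Polynomial.evalEval]
      · have hal : a = l := (hall a ha).resolve_left hai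
        subst hal
        simp [ThmA_phi, hai, Polynomial.evalEval]
  exact congrArg (fun f : MvPolynomial {a : Fin 3 // a ≠ j} K →+* K => f G) h

theorem thmA3 {K : Type*} [Field K] (σ : PAut K 3)
    (h : ∀ H : MvPolynomial (Fin 3) K, H ≠ 0 → ∃ P : Fin 3 → K, eval P H ≠ 0 ∧ PairInd σ P) :
    Zdo σ := by
  refine thmA_union σ fun H hH => ?_
  obtain ⟨P, hP, i, l, hil, hind⟩ := h H hH
  obtain ⟨j, hi, hl, hall⟩ : ∃ j : Fin 3, i ≠ j ∧ l ≠ j ∧ ∀ a : Fin 3, a ≠ j → a = i ∨ a = l := by
    revert hil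
    clear hind
    revert i l
    decide
  refine ⟨P, hP, j, fun G hG => ?_⟩
  obtain ⟨m, hm⟩ := hind (ThmA_phi K i j G) fun h0 => hG (ThmA_phi_inj K i l j hi hl hall G h0)
  refine ⟨m, ?_⟩
  rw [← ThmA_phi_eval K i l j hall G (orb σ P m)]
  exact hm

end ZD85
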