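import Pool.Agent.H85.ZD.Defs

/-!
# ZD ValA : a valuation ring with prescribed units (row `ValA`)

`K` a field of characteristic 0, `E ⊂ K^*` finite.

Proof of `exists_valA`.
(0) Let `x : ι → K` be a transcendence basis of `K` over `ℤ` (`exists_isTranscendenceBasis'` with `R = ℤ`, or over `ℚ`);
so `x` is algebraically independent over `ℤ` and every element of `K` is algebraic over `Algebra.adjoin ℤ (range x)`.
Write `A₀ = MvPolynomial ι ℤ`, `ev_x : A₀ → K` injective.
(1) For `e ∈ E` there is `f_e ∈ A₀[T]`, with `f_e(e) = 0` (coefficients through `ev_x`), `f_e ≠ 0`, and constant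
coefficient `≠ 0` (divide by a power of `T`; `e ≠ 0`).  Let `h ∈ A₀` be the product over `e ∈ E` of the constant and the
leading coefficient of `f_e`; `h ≠ 0`.
(2) There is `a : ι → ℤ` with `eval a h ≠ 0` (`MvPolynomial.funext`, `ℤ` infinite).  Let `p` be a prime not dividing
`eval a h` (any prime `> |eval a h|`).
(3) `s_i = (x_i - a_i) / p`.  `s` is algebraically independent over `ℤ`: if `F(s) = 0`, then `F((X - a)/p)` cleared of
denominators vanishes at `x`... Precisely: let `φ : A₀ → A₀`, `X_i ↦ C a_i + C p * X_i`; then `ev_s ∘ φ = ev_x`.  For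
`F ≠ 0` of total degree `≤ d` the element `p^d F(s)` is the value at `x` of the polynomial
`G = ∑_α F_α p^{d - |α|} ∏ (X_i - a_i)^{α_i}`, and `G ≠ 0` because `φ G = C (p^d) * F ≠ 0`.  (Alternatively work
over `ℚ` with the automorphism `X_i ↦ (X_i - a_i)/p` of `MvPolynomial ι ℚ`.)
Let `A = ev_s(A₀) ⊂ K` (a subring), isomorphic to `A₀`; all `x_i ∈ A`.
(4) The ideal `(p)` of `A₀` is prime (`MvPolynomial ι (ZMod p)` is a domain: `MvPolynomial.map (Int.castRingHom _)` has
kernel `(p)`, or `MvPolynomial.prime_C_iff`/`Prime.mvPolynomial`...: `(C (p : ℤ))` is prime).  Transport to `A` and apply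
`LocalSubring.ofPrime` and `LocalSubring.exists_le_valuationSubring` (Mathlib `RingTheory/Valuation/LocalSubring.lean`,
see the proof near line 149): there is a valuation subring `V` of `K` with `A ⊂ V` and
`maximalIdeal V ∩ A = (p)`.  So: `F ∈ A₀` gives `ev_s F ∈ V`, and `V.valuation (ev_s F) = 1` if `¬ C p ∣ F`; and
`V.valuation p < 1`.
(5) For `c ∈ A₀`: `φ c ≡ C (eval a c) mod p`, so `V.valuation (ev_x c - (eval a c : ℤ)) < 1`.  For `e ∈ E`: the constant
and the leading coefficient of `f_e` are units of `V` and all coefficients are in `V`; so `e` and `e⁻¹` are integral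
over `V`, hence in `V`: `V.valuation e = 1`.  (Directly: if `V.valuation e > 1` the leading term of `f_e(e) = 0`
dominates, if `< 1` the constant term does.)
(6) The residue `ē` of `e` in the residue field `k_V` (characteristic `p`) is a root of the polynomial with coefficients
`eval a (f_e)_k mod p` in the prime field, with non-zero leading and constant coefficients.  So `ē` is algebraic over
`ZMod p`, `ē ≠ 0`, `ZMod p (ē)` is a finite field and `ē ^ N = 1` for some `N ≥ 1`; i.e.
`V.valuation (e ^ N - 1) < 1`.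
(7) `hdisc`: every `y ∈ K^*` has `V.valuation y ^ N = V.valuation p ^ m` with `N ≥ 1`, `m ∈ ℤ`: `y` is algebraic over `A₀`
(through `ev_s`: each `x_i` is a polynomial in `s_i`), so `∑ ev_s(c_k) y^k = 0` with not all `c_k = 0`.  For `c ≠ 0` in `A₀`
write `c = C p ^ r * c'` with `¬ C p ∣ c'`; `V.valuation (ev_s c) = V.valuation p ^ r`.  Two of the non-zero terms must
have the same valuation, which is the maximum (otherwise the sum would have the valuation of the unique largest term and
be `≠ 0`): `V.valuation p ^ r * V.valuation y ^ k = V.valuation p ^ r' * V.valuation y ^ k'`, `k < k'`; divide.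
-/

set_option autoImplicit false

namespace ZD85

theorem ValA_basis.{u} {K : Type u} [Field K] [CharZero K] :
    ∃ (ι : Type u) (x : ι → K), AlgebraicIndependent ℤ x ∧
      ∀ y : K, ∃ f : Polynomial (MvPolynomial ι ℤ), y ≠ 0 → f.coeff 0 ≠ 0 ∧
        f.eval₂ (MvPolynomial.aeval x : MvPolynomial ι ℤ →ₐ[ℤ] K).toRingHom y = 0 := by
  obtain ⟨ι, x, hx⟩ := exists_isTranscendenceBasis' ℤ K
  refine ⟨ι, x, hx.1, fun y => ?_⟩
  by_cases hy : y = 0
  · exact ⟨0, fun h => absurd hy h⟩
  have h1 := hx.isAlgebraic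
  obtain ⟨q, hq0, hq⟩ := (h1.isAlgebraic y).exists_nonzero_coeff_and_aeval_eq_zero
    (mem_nonZeroDivisors_of_ne_zero hy)
  refine ⟨q.map (hx.1.aevalEquiv.symm : _ ≃+* _).toRingHom, fun _ => ⟨?_, ?_⟩⟩
  · rw [Polynomial.coeff_map]
    intro h
    apply hq0
    exact (AlgEquiv.injective hx.1.aevalEquiv.symm) (by rw [map_zero]; exact h)
  · rw [Polynomial.eval₂_map]
    rw [Polynomial.aeval_def] at hq
    rw [← hq]
    congr 1
    ext r
    have h2 := hx.1.algebraMap_aevalEquiv (hx.1.aevalEquiv.symm r)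
    rw [AlgEquiv.apply_symm_apply] at h2
    exact h2.symm

theorem ValA_two {K Γ : Type*} [Field K] [LinearOrderedCommGroupWithZero Γ] (v : Valuation K Γ)
    (n : ℕ) (t : ℕ → K) (hs : ∑ k ∈ Finset.range (n + 1), t k = 0) (h0 : t 0 ≠ 0) :
    ∃ k k', k < k' ∧ k' ≤ n ∧ t k ≠ 0 ∧ t k' ≠ 0 ∧ v (t k) = v (t k') ∧
      ∀ j ≤ n, v (t j) ≤ v (t k) := by
  obtain ⟨k, hk, hmax⟩ := Finset.exists_max_image (Finset.range (n + 1)) (fun k => v (t k))
    ⟨0, by simp⟩
  have hv0 : 0 < v (t 0) := zero_lt_iff.2 (by simpa using h0)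
  have hvk : 0 < v (t k) := lt_of_lt_of_le hv0 (hmax 0 (by simp))
  have hex : ∃ k' ∈ (Finset.range (n + 1)).erase k, ¬ (v (t k') < v (t k)) := by
    by_contra hc
    push Not at hc
    have h1 := Valuation.map_sum_lt v hvk.ne' hc
    have h2 : t k = - ∑ i ∈ (Finset.range (n + 1)).erase k, t i := by
      rw [← Finset.add_sum_erase _ _ hk] at hs
      exact eq_neg_of_add_eq_zero_left hs
    rw [h2, Valuation.map_neg] at h1
    exact lt_irrefl _ h1
  obtain ⟨k', hk', hge⟩ := hex
  rw [Finset.mem_erase] at hk'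
  have heq : v (t k) = v (t k') := le_antisymm (not_lt.1 hge) (hmax k' hk'.2)
  have hvk' : 0 < v (t k') := heq ▸ hvk
  have hk1 : k < n + 1 := Finset.mem_range.1 hk
  have hk2 : k' < n + 1 := Finset.mem_range.1 hk'.2
  have hne : t k ≠ 0 := by
    intro h
    rw [h, map_zero] at hvk
    exact lt_irrefl _ hvk
  have hne' : t k' ≠ 0 := by
    intro h
    rw [h, map_zero] at hvk'
    exact lt_irrefl _ hvk'
  rcases lt_or_gt_of_ne hk'.1 with h | h
  · refine ⟨k', k, h, by omega, hne', hne, heq.symm, fun j hj => ?_⟩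
    rw [← heq]
    exact hmax j (Finset.mem_range.2 (by omega))
  · exact ⟨k, k', h, by omega, hne, hne', heq, fun j hj =>
      hmax j (Finset.mem_range.2 (by omega))⟩

theorem ValA_pt {ι : Type*} (h : MvPolynomial ι ℤ) (hh : h ≠ 0) :
    ∃ a : ι → ℤ, MvPolynomial.eval a h ≠ 0 := by
  by_contra hc
  push Not at hc
  apply hh
  apply MvPolynomial.funext
  intro a
  rw [hc a, map_zero]

theorem ValA_prime {K ι : Type*} [Field K] (E : Finset K) (hE : (0 : K) ∉ E)
    (f : K → Polynomial (MvPolynomial ι ℤ)) (hf : ∀ y : K, y ≠ 0 → (f y).coeff 0 ≠ 0) :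
    ∃ (a : ι → ℤ) (p : ℕ), p.Prime ∧ ∀ e ∈ E, ¬ (p : ℤ) ∣ MvPolynomial.eval a ((f e).coeff 0) ∧
      ¬ (p : ℤ) ∣ MvPolynomial.eval a ((f e).leadingCoeff) := by
  have hne : ∀ e ∈ E, e ≠ 0 := fun e he h => hE (h ▸ he)
  obtain ⟨a, ha⟩ := ValA_pt (∏ e ∈ E, ((f e).coeff 0 * (f e).leadingCoeff)) (by
    rw [Finset.prod_ne_zero_iff]
    intro e he
    refine mul_ne_zero (hf e (hne e he)) ?_
    rw [Ne, Polynomial.leadingCoeff_eq_zero]
    intro h
    apply hf e (hne e he)
    rw [h, Polynomial.coeff_zero])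
  obtain ⟨p, hp, hpp⟩ := Nat.exists_infinite_primes
    ((MvPolynomial.eval a (∏ e ∈ E, ((f e).coeff 0 * (f e).leadingCoeff))).natAbs + 1)
  have hnd : ¬ (p : ℤ) ∣ MvPolynomial.eval a (∏ e ∈ E, ((f e).coeff 0 * (f e).leadingCoeff)) := by
    intro h
    have h1 := Int.natAbs_dvd_natAbs.2 h
    rw [Int.natAbs_natCast] at h1
    have h2 := Nat.le_of_dvd (Nat.pos_of_ne_zero (Int.natAbs_ne_zero.2 ha)) h1
    omega
  refine ⟨a, p, hpp, fun e he => ?_⟩
  have h1 : MvPolynomial.eval a ((f e).coeff 0 * (f e).leadingCoeff) ∣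
      MvPolynomial.eval a (∏ e ∈ E, ((f e).coeff 0 * (f e).leadingCoeff)) :=
    map_dvd _ (Finset.dvd_prod_of_mem (fun e => (f e).coeff 0 * (f e).leadingCoeff) he)
  rw [map_mul] at h1
  exact ⟨fun h => hnd ((h.trans (dvd_mul_right _ _)).trans h1),
    fun h => hnd ((h.trans (dvd_mul_left _ _)).trans h1)⟩

theorem ValA_indep {K ι : Type*} [Field K] [CharZero K] (x : ι → K)
    (hx : AlgebraicIndependent ℤ x) (a : ι → ℤ) (p : ℕ) (hp : p ≠ 0) :
    AlgebraicIndependent ℤ (fun i => (x i - (a i : K)) / (p : K)) := by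
  have halg : Algebra.IsAlgebraic ℤ ℚ := IsLocalization.isAlgebraic ℚ (nonZeroDivisors ℤ)
  have hx' : AlgebraicIndependent ℚ x := hx.extendScalars ℚ
  have hpK : (p : K) ≠ 0 := by exact_mod_cast hp
  have hpQ : (p : ℚ) ≠ 0 := by exact_mod_cast hp
  have hs : AlgebraicIndependent ℚ (fun i => (x i - (a i : K)) / (p : K)) := by
    let ψ : MvPolynomial ι ℚ →ₐ[ℚ] MvPolynomial ι ℚ :=
      MvPolynomial.aeval (fun i => MvPolynomial.C ((p : ℚ)⁻¹) * (MvPolynomial.X i - MvPolynomial.C (a i : ℚ)))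
    let φ : MvPolynomial ι ℚ →ₐ[ℚ] MvPolynomial ι ℚ :=
      MvPolynomial.aeval (fun i => MvPolynomial.C (p : ℚ) * MvPolynomial.X i + MvPolynomial.C (a i : ℚ))
    have h1 : φ.comp ψ = AlgHom.id ℚ _ := by
      apply MvPolynomial.algHom_ext
      intro i
      simp only [AlgHom.comp_apply, AlgHom.id_apply, ψ, φ, MvPolynomial.aeval_X, map_mul, map_sub,
        MvPolynomial.aeval_C, MvPolynomial.algebraMap_eq]
      rw [add_sub_cancel_right, ← mul_assoc, ← MvPolynomial.C_mul, inv_mul_cancel₀ hpQ,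
        MvPolynomial.C_1, one_mul]
    have hinj : Function.Injective ψ := by
      intro u w h
      have h2 := congrArg φ h
      rw [← AlgHom.comp_apply, ← AlgHom.comp_apply, h1] at h2
      exact h2
    have h2 : (MvPolynomial.aeval (fun i => (x i - (a i : K)) / (p : K)) : MvPolynomial ι ℚ →ₐ[ℚ] K) =
        (MvPolynomial.aeval x).comp ψ := by
      apply MvPolynomial.algHom_ext
      intro i
      simp only [AlgHom.comp_apply, ψ, MvPolynomial.aeval_X, map_mul, map_sub, MvPolynomial.aeval_C]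
      rw [eq_ratCast, eq_ratCast]
      push_cast
      field_simp
    unfold AlgebraicIndependent
    rw [h2]
    exact (show Function.Injective (MvPolynomial.aeval x : MvPolynomial ι ℚ →ₐ[ℚ] K) from hx').comp hinj
  exact hs.restrictScalars (algebraMap ℤ ℚ).injective_int

theorem ValA_gauss {K ι : Type*} [Field K] (g : MvPolynomial ι ℤ →+* K)
    (hg : Function.Injective g) (p : ℕ) (hp : p.Prime) :
    ∃ V : ValuationSubring K, (∀ F, g F ∈ V) ∧
      (∀ F, ¬ MvPolynomial.C (p : ℤ) ∣ F → V.valuation (g F) = 1) ∧ V.valuation (p : K) < 1 := by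
  let e : MvPolynomial ι ℤ ≃+* g.range :=
    RingEquiv.ofBijective g.rangeRestrict ⟨fun u w h => hg (congrArg Subtype.val h),
      g.rangeRestrict_surjective⟩
  have hpr : Prime (MvPolynomial.C (p : ℤ) : MvPolynomial ι ℤ) :=
    (MvPolynomial.prime_C_iff _).2 (Nat.prime_iff_prime_int.1 hp)
  have hP0 : (Ideal.span {(MvPolynomial.C (p : ℤ) : MvPolynomial ι ℤ)}).IsPrime :=
    (Ideal.span_singleton_prime hpr.ne_zero).2 hpr
  let P : Ideal g.range := Ideal.comap (e.symm : g.range ≃+* MvPolynomial ι ℤ).toRingHom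
    (Ideal.span {(MvPolynomial.C (p : ℤ) : MvPolynomial ι ℤ)})
  have hP : P.IsPrime := Ideal.comap_isPrime _ _
  obtain ⟨V, hV⟩ := (LocalSubring.ofPrime g.range P).exists_le_valuationSubring
  obtain ⟨hle, hloc⟩ := hV
  have hmem : ∀ F, g F ∈ V := fun F => hle (LocalSubring.le_ofPrime _ _ ⟨F, rfl⟩)
  have hPmem : ∀ F, (⟨g F, ⟨F, rfl⟩⟩ : g.range) ∈ P ↔ MvPolynomial.C (p : ℤ) ∣ F := by
    intro F
    have h1 : e F = (⟨g F, ⟨F, rfl⟩⟩ : g.range) := rfl
    rw [← h1]
    change e.symm (e F) ∈ Ideal.span {(MvPolynomial.C (p : ℤ) : MvPolynomial ι ℤ)} ↔ _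
    rw [RingEquiv.symm_apply_apply, Ideal.mem_span_singleton]
  have hunit : ∀ F, IsUnit (algebraMap g.range (LocalSubring.ofPrime g.range P).toSubring
      (⟨g F, ⟨F, rfl⟩⟩ : g.range)) ↔ ¬ MvPolynomial.C (p : ℤ) ∣ F := by
    intro F
    rw [IsLocalization.AtPrime.isUnit_to_map_iff _ P, Ideal.mem_primeCompl_iff, hPmem]
  refine ⟨V, hmem, fun F hF => ?_, ?_⟩
  · have h1 := ((hunit F).2 hF).map (Subring.inclusion hle)
    exact (V.valuation_eq_one_iff ⟨g F, hmem F⟩).1 h1
  · have h1 : ¬ IsUnit (algebraMap g.range (LocalSubring.ofPrime g.range P).toSubring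
      (⟨g (MvPolynomial.C (p : ℤ)), ⟨_, rfl⟩⟩ : g.range)) := by
      rw [hunit]
      exact fun h => h dvd_rfl
    have h2 : ¬ IsUnit (⟨g (MvPolynomial.C (p : ℤ)), hmem _⟩ : V) := by
      intro h
      exact h1 (hloc.map_nonunit _ h)
    rw [V.valuation_eq_one_iff] at h2
    have h3 : g (MvPolynomial.C (p : ℤ)) = (p : K) := by
      rw [show (MvPolynomial.C (p : ℤ) : MvPolynomial ι ℤ) = (p : MvPolynomial ι ℤ) by simp, map_natCast]
    have h4 : V.valuation (p : K) ≤ 1 := by
      rw [V.valuation_le_one_iff, ← h3]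
      exact hmem _
    refine lt_of_le_of_ne h4 ?_
    rw [← h3]
    exact h2

theorem ValA_finord {k : Type*} [Field k] (p : ℕ) [Fact p.Prime] [Algebra (ZMod p) k] (z : k)
    (hz : z ≠ 0) (ha : IsAlgebraic (ZMod p) z) : ∃ N : ℕ, 1 ≤ N ∧ z ^ N = 1 := by
  have : FiniteDimensional (ZMod p) (IntermediateField.adjoin (ZMod p) {z}) :=
    IntermediateField.adjoin.finiteDimensional ha.isIntegral
  have : Finite (IntermediateField.adjoin (ZMod p) {z}) := Module.finite_of_finite (ZMod p)
  let w : IntermediateField.adjoin (ZMod p) {z} := ⟨z, IntermediateField.mem_adjoin_simple_self _ z⟩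
  have hw : w ≠ 0 := by
    intro h
    exact hz (congrArg Subtype.val h)
  have : Finite (IntermediateField.adjoin (ZMod p) {z})ˣ := inferInstance
  have h1 : (Units.mk0 w hw) ^ Nat.card (IntermediateField.adjoin (ZMod p) {z})ˣ = 1 := pow_card_eq_one'
  refine ⟨Nat.card (IntermediateField.adjoin (ZMod p) {z})ˣ, Nat.card_pos, ?_⟩
  have h2 := congrArg Units.val h1
  rw [Units.val_pow_eq_pow_val, Units.val_mk0, Units.val_one] at h2
  have h3 := congrArg Subtype.val h2
  simpa using h3

theorem exists_valA {K : Type*} [Field K] [CharZero K] (E : Finset K) (hE : (0 : K) ∉ E) :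
    ∃ (p : ℕ) (V : ValuationSubring K), p.Prime ∧ V.valuation (p : K) < 1 ∧
      (∀ e ∈ E, V.valuation e = 1) ∧
      (∀ e ∈ E, ∃ N : ℕ, 1 ≤ N ∧ V.valuation (e ^ N - 1) < 1) ∧
      (∀ y : K, y ≠ 0 → ∃ (N : ℕ) (m : ℤ), 1 ≤ N ∧ V.valuation y ^ N = V.valuation (p : K) ^ m) := by
  obtain ⟨ι, x, hx, hfx⟩ := ValA_basis (K := K)
  choose f hf using hfx
  obtain ⟨a, p, hp, hap⟩ := ValA_prime E hE f (fun y hy => (hf y hy).1)
  have hne : ∀ e ∈ E, e ≠ 0 := fun e he h => hE (h ▸ he)
  have hs := ValA_indep x hx a p hp.ne_zero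
  set s : ι → K := fun i => (x i - (a i : K)) / (p : K) with hsdef
  obtain ⟨V, hV, hV1, hVp⟩ := ValA_gauss (MvPolynomial.aeval s : MvPolynomial ι ℤ →ₐ[ℤ] K).toRingHom hs p hp
  have hpK : (p : K) ≠ 0 := by exact_mod_cast hp.ne_zero
  have hvp0 : 0 < V.valuation (p : K) := zero_lt_iff.2 (by simpa using hpK)
  -- the substitution
  let φ : MvPolynomial ι ℤ →ₐ[ℤ] MvPolynomial ι ℤ :=
    MvPolynomial.aeval (fun i => MvPolynomial.C (p : ℤ) * MvPolynomial.X i + MvPolynomial.C (a i))
  have hφ : ∀ c : MvPolynomial ι ℤ, (MvPolynomial.aeval x c : K) = MvPolynomial.aeval s (φ c) := by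
    intro c
    have h1 : (MvPolynomial.aeval x : MvPolynomial ι ℤ →ₐ[ℤ] K) = (MvPolynomial.aeval s).comp φ := by
      apply MvPolynomial.algHom_ext
      intro i
      simp only [AlgHom.comp_apply, φ, MvPolynomial.aeval_X, map_mul, map_add, MvPolynomial.aeval_C]
      rw [hsdef]
      simp only [algebraMap_int_eq, eq_intCast, Int.cast_natCast]
      field_simp
      ring
    rw [h1]
    rfl
  have hxV : ∀ c : MvPolynomial ι ℤ, (MvPolynomial.aeval x c : K) ∈ V := by
    intro c
    rw [hφ]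
    exact hV _
  let ρ : MvPolynomial ι ℤ →+* V :=
    (MvPolynomial.aeval x : MvPolynomial ι ℤ →ₐ[ℤ] K).toRingHom.codRestrict V.toSubring hxV
  have hρ : ∀ c, ((ρ c : V) : K) = MvPolynomial.aeval x c := fun c => rfl
  have hpres : (IsLocalRing.residue V) (p : V) = 0 := by
    rw [IsLocalRing.residue_eq_zero_iff]
    refine (V.valuation_lt_one_iff _).2 ?_
    simpa using hVp
  have hpres' : ((p : ℕ) : IsLocalRing.ResidueField V) = 0 := by
    rw [← hpres, map_natCast]
  have hres : (IsLocalRing.residue V).comp ρ =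
      (Int.castRingHom (IsLocalRing.ResidueField V)).comp (MvPolynomial.eval a) := by
    apply MvPolynomial.ringHom_ext
    · intro n
      simp
    · intro i
      have h1 : ρ (MvPolynomial.X i) = (a i : V) + (p : V) * ⟨s i, by simpa using hV (MvPolynomial.X i)⟩ := by
        apply Subtype.ext
        rw [hρ]
        simp only [MvPolynomial.aeval_X]
        push_cast
        rw [hsdef]
        field_simp
        ring
      rw [RingHom.comp_apply, h1, map_add, map_mul, hpres, zero_mul, add_zero]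
      simp
  have hval1 : ∀ c : MvPolynomial ι ℤ, ¬ (p : ℤ) ∣ MvPolynomial.eval a c →
      V.valuation (MvPolynomial.aeval x c) = 1 := by
    intro c hc
    have h1 : IsUnit (ρ c) := by
      rw [← IsLocalRing.notMem_maximalIdeal, ← IsLocalRing.residue_eq_zero_iff]
      have h2 := RingHom.congr_fun hres c
      rw [RingHom.comp_apply, RingHom.comp_apply] at h2
      rw [h2]
      have : CharP (IsLocalRing.ResidueField V) p :=
        (CharP.charP_iff_prime_eq_zero hp).2 hpres'
      rw [eq_intCast, CharP.intCast_eq_zero_iff (IsLocalRing.ResidueField V) p]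
      exact hc
    have h2 := (V.valuation_eq_one_iff _).1 h1
    rw [hρ] at h2
    exact h2
  -- the sums
  have hsum : ∀ y : K, y ≠ 0 → ∑ i ∈ Finset.range ((f y).natDegree + 1),
      MvPolynomial.aeval x ((f y).coeff i) * y ^ i = 0 := by
    intro y hy
    have h1 := (hf y hy).2
    rw [Polynomial.eval₂_eq_sum_range] at h1
    exact h1
  have hcoef0 : ∀ y : K, y ≠ 0 → (MvPolynomial.aeval x ((f y).coeff 0) : K) * y ^ 0 ≠ 0 := by
    intro y hy
    rw [pow_zero, mul_one]
    intro h
    apply (hf y hy).1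
    exact hx (by rw [h, map_zero])
  have hle1 : ∀ c : MvPolynomial ι ℤ, V.valuation (MvPolynomial.aeval x c) ≤ 1 := fun c =>
    (V.valuation_le_one_iff _).2 (hxV c)
  have hE1 : ∀ e ∈ E, V.valuation e = 1 := by
    intro e he
    have hy := hne e he
    obtain ⟨k, k', hkk, hk', hk0, hk0', heq, hmax⟩ := ValA_two V.valuation (f e).natDegree
      (fun i => MvPolynomial.aeval x ((f e).coeff i) * e ^ i) (hsum e hy) (hcoef0 e hy)
    simp only [map_mul, map_pow] at heq hmax
    have hv0 : 0 < V.valuation e := zero_lt_iff.2 (by simpa using hy)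
    rcases lt_trichotomy (V.valuation e) 1 with h | h | h
    · exfalso
      have h1 := hmax 0 (Nat.zero_le _)
      rw [hval1 _ (hap e he).1, pow_zero, mul_one, heq] at h1
      have h2 : V.valuation (MvPolynomial.aeval x ((f e).coeff k')) * V.valuation e ^ k' ≤
          1 * V.valuation e ^ k' := mul_le_mul_left (hle1 _) _
      have h3 : V.valuation e ^ k' < 1 := pow_lt_one₀ zero_le h (by omega)
      rw [one_mul] at h2
      exact absurd (h1.trans h2) (not_le.2 h3)
    · exact h
    · exfalso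
      have h1 := hmax (f e).natDegree le_rfl
      have h4 := hval1 _ (hap e he).2
      rw [Polynomial.leadingCoeff] at h4
      rw [h4, one_mul] at h1
      have h2 : V.valuation (MvPolynomial.aeval x ((f e).coeff k)) * V.valuation e ^ k ≤
          1 * V.valuation e ^ k := mul_le_mul_left (hle1 _) _
      have h3 : V.valuation e ^ k < V.valuation e ^ (f e).natDegree :=
        pow_lt_pow_right₀ h (by omega)
      rw [one_mul] at h2
      exact absurd (h1.trans h2) (not_le.2 h3)
  refine ⟨p, V, hp, hVp, hE1, ?_, ?_⟩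
  · intro e he
    have : Fact p.Prime := ⟨hp⟩
    have : CharP (IsLocalRing.ResidueField V) p :=
        (CharP.charP_iff_prime_eq_zero hp).2 hpres'
    let : Algebra (ZMod p) (IsLocalRing.ResidueField V) := ZMod.algebra _ p
    have heV : e ∈ V := (V.valuation_le_one_iff _).1 (hE1 e he).le
    have hu : IsUnit (⟨e, heV⟩ : V) := (V.valuation_eq_one_iff _).2 (hE1 e he)
    have hz : IsLocalRing.residue V ⟨e, heV⟩ ≠ 0 := by
      rw [Ne, IsLocalRing.residue_eq_zero_iff, IsLocalRing.notMem_maximalIdeal]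
      exact hu
    have hroot : (f e).eval₂ ρ (⟨e, heV⟩ : V) = 0 := by
      have h1 := (hf e (hne e he)).2
      apply Subtype.ext
      have h2 := Polynomial.hom_eval₂ (f e) ρ V.subtype (⟨e, heV⟩ : V)
      change V.subtype _ = _
      rw [h2]
      exact h1
    have hroot2 : (f e).eval₂ ((Int.castRingHom (IsLocalRing.ResidueField V)).comp
        (MvPolynomial.eval a)) (IsLocalRing.residue V ⟨e, heV⟩) = 0 := by
      rw [← hres, ← Polynomial.hom_eval₂, hroot, map_zero]
    have halg : IsAlgebraic (ZMod p) (IsLocalRing.residue V ⟨e, heV⟩) := by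
      refine ⟨(f e).map ((Int.castRingHom (ZMod p)).comp (MvPolynomial.eval a)), ?_, ?_⟩
      · intro h
        have h1 := congrArg (fun q => Polynomial.coeff q 0) h
        simp only [Polynomial.coeff_map, Polynomial.coeff_zero, RingHom.comp_apply, eq_intCast] at h1
        rw [ZMod.intCast_zmod_eq_zero_iff_dvd] at h1
        exact (hap e he).1 h1
      · rw [Polynomial.aeval_def, Polynomial.eval₂_map, ← hroot2]
        congr 1
        apply MvPolynomial.ringHom_ext
        · intro n; simp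
        · intro i; simp
    obtain ⟨N, hN, hN1⟩ := ValA_finord p _ hz halg
    refine ⟨N, hN, ?_⟩
    have h1 : IsLocalRing.residue V ((⟨e, heV⟩ : V) ^ N - 1) = 0 := by
      rw [map_sub, map_pow, hN1, map_one, sub_self]
    rw [IsLocalRing.residue_eq_zero_iff] at h1
    have h2 := (V.valuation_lt_one_iff _).1 h1
    simpa using h2
  · intro y hy
    obtain ⟨k, k', hkk, hk', hk0, hk0', heq, hmax⟩ := ValA_two V.valuation (f y).natDegree
      (fun i => MvPolynomial.aeval x ((f y).coeff i) * y ^ i) (hsum y hy) (hcoef0 y hy)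
    have hv0 : 0 < V.valuation y := zero_lt_iff.2 (by simpa using hy)
    have hpr : Prime (MvPolynomial.C (p : ℤ) : MvPolynomial ι ℤ) :=
      (MvPolynomial.prime_C_iff _).2 (Nat.prime_iff_prime_int.1 hp)
    have hpow : ∀ c : MvPolynomial ι ℤ, (MvPolynomial.aeval x c : K) ≠ 0 →
        ∃ r : ℕ, V.valuation (MvPolynomial.aeval x c) = V.valuation (p : K) ^ r := by
      intro c hc
      rw [hφ] at hc ⊢
      have hc0 : φ c ≠ 0 := by
        intro h
        rw [h, map_zero] at hc
        exact hc rfl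
      have hfin : FiniteMultiplicity (MvPolynomial.C (p : ℤ) : MvPolynomial ι ℤ) (φ c) :=
        FiniteMultiplicity.of_not_isUnit hpr.not_isUnit hc0
      obtain ⟨c', hc1, hc2⟩ := hfin.exists_eq_pow_mul_and_not_dvd
      generalize multiplicity (MvPolynomial.C (p : ℤ) : MvPolynomial ι ℤ) (φ c) = r at hc1
      refine ⟨r, ?_⟩
      rw [hc1, map_mul, map_mul, map_pow, map_pow]
      have h1 : V.valuation (MvPolynomial.aeval s c') = 1 := hV1 c' hc2
      rw [h1, mul_one, MvPolynomial.aeval_C]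
      simp
    obtain ⟨r, hr⟩ := hpow _ (left_ne_zero_of_mul hk0)
    obtain ⟨r', hr'⟩ := hpow _ (left_ne_zero_of_mul hk0')
    simp only [map_mul, map_pow] at heq
    rw [hr, hr'] at heq
    refine ⟨k' - k, (r : ℤ) - (r' : ℤ), by omega, ?_⟩
    rw [zpow_sub₀ hvp0.ne', zpow_natCast, zpow_natCast, eq_div_iff (pow_ne_zero _ hvp0.ne')]
    have h3 : V.valuation y ^ k' = V.valuation y ^ k * V.valuation y ^ (k' - k) := by
      rw [← pow_add]
      congr 1
      omega
    rw [h3] at heq
    have hyk : V.valuation y ^ k ≠ 0 := pow_ne_zero _ hv0.ne'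
    apply mul_left_cancel₀ hyk
    calc V.valuation y ^ k * (V.valuation y ^ (k' - k) * V.valuation (p : K) ^ r') =
        V.valuation (p : K) ^ r' * (V.valuation y ^ k * V.valuation y ^ (k' - k)) := by
          rw [mul_comm (V.valuation (p : K) ^ r'), mul_assoc]
      _ = V.valuation (p : K) ^ r * V.valuation y ^ k := heq.symm
      _ = V.valuation y ^ k * V.valuation (p : K) ^ r := mul_comm _ _

end ZD85
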